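import Pool.Agent.Helper532_SymMCF.Submer

section

/-!
Upper bounds for the Hausdorff measure of the symmetric hypersurface with a given profile curve.
-/

open Set Filter MeasureTheory Topology Metric Module
open scoped ContDiff NNReal ENNReal RealInnerProductSpace

namespace Pool.Agent.Helper532_SymMCF

section
variable {F : Type*} [NormedAddCommGroup F] [InnerProductSpace ℝ F]

/-- the unit vector in the direction of `x` -/
noncomputable def nrm (x : F) : F := ‖x‖⁻¹ • x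

theorem nrm_norm {x : F} (hx : 1 ≤ ‖x‖) : ‖nrm x‖ = 1 := by
  unfold nrm
  rw [norm_smul, norm_inv, norm_norm, inv_mul_cancel₀ (by linarith)]

theorem nrm_lip {x y : F} (hx : 1 ≤ ‖x‖) (hy : 1 ≤ ‖y‖) : ‖nrm x - nrm y‖ ≤ 2 * ‖x - y‖ := by
  have hx0 : 0 < ‖x‖ := by linarith
  have hy0 : 0 < ‖y‖ := by linarith
  have e1 : nrm x - nrm y = ‖x‖⁻¹ • (x - y) + (‖x‖⁻¹ * (‖y‖ - ‖x‖)) • nrm y := by
    unfold nrm
    rw [smul_sub, smul_smul, mul_assoc, sub_mul, mul_sub, mul_inv_cancel₀ hy0.ne', sub_smul]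
    rw [← mul_assoc ‖x‖⁻¹ ‖x‖, inv_mul_cancel₀ hx0.ne', mul_one, one_mul]
    abel
  have h1 : ‖x‖⁻¹ ≤ 1 := inv_le_one_of_one_le₀ hx
  have h2 : |‖y‖ - ‖x‖| ≤ ‖x - y‖ := by
    rw [abs_sub_comm]
    exact abs_norm_sub_norm_le x y
  rw [e1]
  refine (norm_add_le _ _).trans ?_
  rw [norm_smul, norm_smul, nrm_norm hy, mul_one, norm_inv, norm_norm, norm_mul, norm_inv,
    norm_norm, Real.norm_eq_abs]
  have h3 : ‖x‖⁻¹ * ‖x - y‖ ≤ 1 * ‖x - y‖ := mul_le_mul_of_nonneg_right h1 (norm_nonneg _)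
  have h4 : ‖x‖⁻¹ * |‖y‖ - ‖x‖| ≤ 1 * ‖x - y‖ := mul_le_mul h1 h2 (abs_nonneg _) zero_le_one
  linarith

variable [FiniteDimensional ℝ F]

/-- charts of the sphere -/
theorem exists_chart {m : ℕ} (hdim : finrank ℝ F = m + 1) {e : F} (he : ‖e‖ = 1) :
    ∃ T : (Fin m → ℝ) →L[ℝ] F, (∀ v, 1 ≤ ‖e + T v‖) ∧ ∀ (X : F) (ρ M : ℝ), 0 < ρ → M ≤ ρ / 2 →
      ‖X - ρ • e‖ ≤ M → ∃ v, ‖v‖ ≤ 2 * M / ρ ∧ X = ‖X‖ • nrm (e + T v) := by
  have hne : e ≠ 0 := by
    intro h; rw [h, norm_zero] at he; exact zero_ne_one he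
  have : Fact (finrank ℝ F = m + 1) := ⟨hdim⟩
  let b := OrthonormalBasis.fromOrthogonalSpanSingleton (𝕜 := ℝ) m hne
  let T : (Fin m → ℝ) →L[ℝ] F := LinearMap.toContinuousLinearMap
    ((Submodule.subtype (Submodule.span ℝ {e})ᗮ) ∘ₗ b.repr.symm.toLinearEquiv.toLinearMap ∘ₗ
      (WithLp.linearEquiv 2 ℝ (Fin m → ℝ)).symm.toLinearMap)
  have hT : ∀ v, T v = ((b.repr.symm (WithLp.toLp 2 v) : (Submodule.span ℝ {e})ᗮ) : F) :=
    fun v => rfl
  have hTe : ∀ v, ⟪e, T v⟫ = 0 := fun v => by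
    rw [hT, real_inner_comm]
    exact Submodule.mem_orthogonal_singleton_iff_inner_left.1 (b.repr.symm (WithLp.toLp 2 v)).2
  refine ⟨T, ?_, ?_⟩
  · intro v
    have h1 : ‖e + T v‖ ^ 2 = 1 + ‖T v‖ ^ 2 := by
      rw [norm_add_sq_real, hTe, he]; ring
    nlinarith [sq_nonneg ‖T v‖, norm_nonneg (e + T v)]
  · intro X ρ M hρ hM hX
    set t : ℝ := ⟪X, e⟫ with ht
    have hee : (⟪e, e⟫ : ℝ) = 1 := by rw [real_inner_self_eq_norm_sq, he]; norm_num
    have htρ : |t - ρ| ≤ M := by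
      have h1 : t - ρ = ⟪X - ρ • e, e⟫ := by
        rw [inner_sub_left, real_inner_smul_left, hee, mul_one]
      rw [h1]
      refine (abs_real_inner_le_norm _ _).trans ?_
      rw [he, mul_one]; exact hX
    have ht2 : ρ / 2 ≤ t := by
      have := (abs_le.1 htρ).1
      linarith
    have ht0 : 0 < t := by linarith
    set x : F := t⁻¹ • (X - t • e) with hx
    have hxe : ⟪x, e⟫ = 0 := by
      rw [hx, real_inner_smul_left, inner_sub_left, real_inner_smul_left, hee, mul_one, ← ht]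
      ring
    have hxm : x ∈ (Submodule.span ℝ {e})ᗮ :=
      Submodule.mem_orthogonal_singleton_iff_inner_left.2 hxe
    have hxn : ‖x‖ ≤ 2 * M / ρ := by
      have h1 : ‖X - t • e‖ ≤ ‖X - ρ • e‖ := by
        have a1 : ‖X - t • e‖ ^ 2 = ‖X‖ ^ 2 - t ^ 2 := by
          rw [norm_sub_sq_real, real_inner_smul_right, norm_smul, he, ← ht, Real.norm_eq_abs,
            mul_one, sq_abs]
          ring
        have a2 : ‖X - ρ • e‖ ^ 2 = ‖X‖ ^ 2 - 2 * ρ * t + ρ ^ 2 := by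
          rw [norm_sub_sq_real, real_inner_smul_right, norm_smul, he, ← ht, Real.norm_eq_abs,
            mul_one, sq_abs]
          ring
        have a3 : ‖X - t • e‖ ^ 2 ≤ ‖X - ρ • e‖ ^ 2 := by
          rw [a1, a2]
          nlinarith [sq_nonneg (t - ρ)]
        exact le_of_sq_le_sq a3 (norm_nonneg _)
      rw [hx, norm_smul, norm_inv, Real.norm_eq_abs, abs_of_pos ht0, le_div_iff₀ hρ,
        inv_mul_eq_div, div_mul_eq_mul_div, div_le_iff₀ ht0]
      have h2 : ‖X - t • e‖ ≤ M := h1.trans hX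
      have hM0 : 0 ≤ M := (norm_nonneg _).trans hX
      nlinarith
    refine ⟨WithLp.ofLp (b.repr ⟨x, hxm⟩), ?_, ?_⟩
    · refine le_trans ?_ hxn
      rw [pi_norm_le_iff_of_nonneg (norm_nonneg _)]
      intro i
      have h1 := PiLp.norm_apply_le (b.repr ⟨x, hxm⟩) i
      refine h1.trans ?_
      rw [LinearIsometryEquiv.norm_map]
      rfl
    · have h1 : T (WithLp.ofLp (b.repr ⟨x, hxm⟩)) = x := by
        rw [hT]
        simp
      rw [h1]
      have h2 : e + x = t⁻¹ • X := by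
        rw [hx, smul_sub, smul_smul, inv_mul_cancel₀ ht0.ne', one_smul]
        abel
      have hX0 : ‖X‖ ≠ 0 := by
        intro h
        rw [norm_eq_zero] at h
        rw [ht, h, inner_zero_left] at ht0
        exact lt_irrefl _ ht0
      rw [h2, nrm, norm_smul, norm_inv, Real.norm_eq_abs, abs_of_pos ht0, mul_inv, inv_inv,
        smul_smul, smul_smul]
      have h3 : ‖X‖ * (t * ‖X‖⁻¹) * t⁻¹ = 1 := by
        field_simp
      rw [h3, one_smul]

end

/-- The measure of the part of the hypersurface above a short piece of the profile curve. -/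
theorem area_piece {m₁ m₂ : ℕ} {e : EuclideanSpace ℝ (Fin (m₁ + 1))} (he : ‖e‖ = 1) :
    ∃ C : ℝ≥0, ∀ (b : EuclideanSpace ℝ (Fin (m₁ + 1))) (ρ M α β m s : ℝ) (P : ℝ → ℂ), 0 < ρ →
      0 ≤ M → M ≤ ρ / 2 → α ≤ β → 0 < m → 0 < s →
      (∀ u ∈ Icc α β, ∀ v ∈ Icc α β, ‖P u - P v‖ ≤ m * |u - v|) →
      (∀ u ∈ Icc α β, |(P u).re| ≤ 2 * ρ ∧ |(P u).im| ≤ s) →
      μH[(m₁ + m₂ + 1 : ℕ)] {Z : V (m₁ + 1) (m₂ + 1) | ‖b + pr₁ Z - ρ • e‖ ≤ M ∧
        ∃ u ∈ Icc α β, P u = ⟨‖b + pr₁ Z‖, ‖pr₂ Z‖⟩} ≤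
      C * ENNReal.ofReal (M ^ m₁ * s ^ m₂ * (m * (β - α))) := by
  classical
  obtain ⟨T, hT1, hT2⟩ := exists_chart (m := m₁) (by simp) he
  have hdim2 : finrank ℝ (EuclideanSpace ℝ (Fin (m₂ + 1))) = m₂ + 1 := by simp
  choose! T' hT'1 hT'2 using (fun (e' : EuclideanSpace ℝ (Fin (m₂ + 1))) (he' : ‖e'‖ = 1) =>
    exists_chart (m := m₂) hdim2 he')
  obtain ⟨t, ht1, ht2⟩ := (isCompact_sphere (0 : EuclideanSpace ℝ (Fin (m₂ + 1))) 1).elim_nhds_subcover
    (fun e' => ball e' (1 / 2)) (fun e' _ => ball_mem_nhds e' (by norm_num))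
  have ht1' : ∀ e' ∈ t, ‖e'‖ = 1 := fun e' h => by simpa using ht1 e' h
  obtain ⟨e₀, he₀⟩ : ∃ e₀, e₀ ∈ t := by
    obtain ⟨x, hx⟩ : ∃ x : EuclideanSpace ℝ (Fin (m₂ + 1)), ‖x‖ = 1 :=
      ⟨EuclideanSpace.single 0 1, by simp⟩
    have := ht2 (show x ∈ sphere (0 : EuclideanSpace ℝ (Fin (m₂ + 1))) 1 by simpa using hx)
    rw [mem_iUnion₂] at this
    obtain ⟨e', h, _⟩ := this
    exact ⟨e', h⟩
  set n : ℕ := m₁ + m₂ + 1 with hn
  set K : EuclideanSpace ℝ (Fin (m₂ + 1)) → ℝ≥0 := fun e' => 2 + 4 * ‖T‖₊ + 2 * ‖T' e'‖₊ with hK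
  refine ⟨(∑ e' ∈ t, K e' ^ n) * (4 ^ m₁ * 2 ^ m₂), ?_⟩
  intro b ρ M α β m s P hρ hM0 hM hαβ hm hs hPl hPb
  let ι := Fin m₁ ⊕ (Fin m₂ ⊕ Unit)
  have hcard : Fintype.card ι = n := by
    simp [ι, hn, add_assoc]
  let Φ : EuclideanSpace ℝ (Fin (m₂ + 1)) → (ι → ℝ) → V (m₁ + 1) (m₂ + 1) := fun e' y =>
    inc₁ ((P (α + y (Sum.inr (Sum.inr ())) / m)).re • nrm (e + T (ρ⁻¹ • fun i => y (Sum.inl i))) - b)
    + inc₂ ((P (α + y (Sum.inr (Sum.inr ())) / m)).im •
      nrm (e' + T' e' (s⁻¹ • fun j => y (Sum.inr (Sum.inl j)))))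
  let lo : ι → ℝ := Sum.elim (fun _ => -(2 * M)) (Sum.elim (fun _ => -s) (fun _ => 0))
  let hi : ι → ℝ := Sum.elim (fun _ => 2 * M) (Sum.elim (fun _ => s) (fun _ => m * (β - α)))
  have hcov : {Z : V (m₁ + 1) (m₂ + 1) | ‖b + pr₁ Z - ρ • e‖ ≤ M ∧
        ∃ u ∈ Icc α β, P u = ⟨‖b + pr₁ Z‖, ‖pr₂ Z‖⟩} ⊆ ⋃ e' ∈ t, Φ e' '' Icc lo hi := by
    rintro Z ⟨hZ1, u, hu, hPu⟩
    obtain ⟨v, hv, hv'⟩ := hT2 (b + pr₁ Z) ρ M hρ hM hZ1
    obtain ⟨e', he't, w, hw, hw'⟩ : ∃ e' ∈ t, ∃ w : Fin m₂ → ℝ, ‖w‖ ≤ 1 ∧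
        pr₂ Z = ‖pr₂ Z‖ • nrm (e' + T' e' w) := by
      by_cases h0 : pr₂ Z = 0
      · refine ⟨e₀, he₀, 0, by simp, ?_⟩
        rw [h0]; simp
      · have hn0 : 0 < ‖pr₂ Z‖ := norm_pos_iff.2 h0
        have h1 : ‖pr₂ Z‖⁻¹ • pr₂ Z ∈ sphere (0 : EuclideanSpace ℝ (Fin (m₂ + 1))) 1 := by
          rw [mem_sphere_zero_iff_norm, norm_smul, norm_inv, norm_norm, inv_mul_cancel₀ hn0.ne']
        have h2 := ht2 h1
        rw [mem_iUnion₂] at h2
        obtain ⟨e', he', hb⟩ := h2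
        have h3 : ‖pr₂ Z - ‖pr₂ Z‖ • e'‖ ≤ ‖pr₂ Z‖ / 2 := by
          have e1 : pr₂ Z - ‖pr₂ Z‖ • e' = ‖pr₂ Z‖ • (‖pr₂ Z‖⁻¹ • pr₂ Z - e') := by
            rw [smul_sub, smul_smul, mul_inv_cancel₀ hn0.ne', one_smul]
          rw [e1, norm_smul, norm_norm]
          rw [mem_ball, dist_eq_norm] at hb
          nlinarith
        obtain ⟨w, hw, hw'⟩ := hT'2 e' (ht1' e' he') (pr₂ Z) ‖pr₂ Z‖ (‖pr₂ Z‖ / 2) hn0 (le_refl _) h3
        refine ⟨e', he', w, hw.trans (le_of_eq ?_), hw'⟩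
        field_simp
    rw [mem_iUnion₂]
    refine ⟨e', he't, Sum.elim (fun i => ρ * v i) (Sum.elim (fun j => s * w j)
      (fun _ => m * (u - α))), ?_, ?_⟩
    · have hvi : ∀ i, |v i| ≤ 2 * M / ρ := fun i => (norm_le_pi_norm v i).trans hv
      have hwj : ∀ j, |w j| ≤ 1 := fun j => (norm_le_pi_norm w j).trans hw
      have hvi' : ∀ i, |ρ * v i| ≤ 2 * M := by
        intro i
        rw [abs_mul, abs_of_pos hρ]
        have := mul_le_mul_of_nonneg_left (hvi i) hρ.le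
        rwa [mul_div_cancel₀ _ hρ.ne'] at this
      have hwj' : ∀ j, |s * w j| ≤ s := by
        intro j
        rw [abs_mul, abs_of_pos hs]
        have := mul_le_mul_of_nonneg_left (hwj j) hs.le
        linarith
      constructor
      · rintro (i | j | _)
        · exact (abs_le.1 (hvi' i)).1
        · exact (abs_le.1 (hwj' j)).1
        · exact mul_nonneg hm.le (by linarith [hu.1])
      · rintro (i | j | _)
        · exact (abs_le.1 (hvi' i)).2
        · exact (abs_le.1 (hwj' j)).2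
        · exact mul_le_mul_of_nonneg_left (by linarith [hu.2]) hm.le
    · simp only [Φ, Sum.elim_inr, Sum.elim_inl]
      have e1 : α + m * (u - α) / m = u := by
        field_simp
        ring
      have e2 : (ρ⁻¹ • fun i => ρ * v i) = v := by
        ext i
        simp only [Pi.smul_apply, smul_eq_mul]
        field_simp
      have e3 : (s⁻¹ • fun j => s * w j) = w := by
        ext i
        simp only [Pi.smul_apply, smul_eq_mul]
        field_simp
      rw [e1, e2, e3, hPu]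
      simp only
      rw [← hv', ← hw', add_sub_cancel_left]
      exact inc_add Z
  have hLip : ∀ e' ∈ t, LipschitzOnWith (K e') (Φ e') (Icc lo hi) := by
    intro e' he'
    apply LipschitzOnWith.of_dist_le_mul
    intro y hy y' hy'
    have hu : ∀ z ∈ Icc lo hi, α + z (Sum.inr (Sum.inr ())) / m ∈ Icc α β := by
      intro z hz
      have h1 := hz.1 (Sum.inr (Sum.inr ()))
      have h2 := hz.2 (Sum.inr (Sum.inr ()))
      simp only [lo, hi, Sum.elim_inr] at h1 h2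
      constructor
      · have : 0 ≤ z (Sum.inr (Sum.inr ())) / m := div_nonneg h1 hm.le
        linarith
      · have : z (Sum.inr (Sum.inr ())) / m ≤ β - α := by
          rw [div_le_iff₀ hm]; linarith
        linarith
    have hd : ∀ i, |y i - y' i| ≤ dist y y' := fun i => by
      have := dist_le_pi_dist y y' i
      rwa [Real.dist_eq] at this
    set D := dist y y' with hD
    have hD0 : 0 ≤ D := dist_nonneg
    have hPd : ‖P (α + y (Sum.inr (Sum.inr ())) / m) - P (α + y' (Sum.inr (Sum.inr ())) / m)‖ ≤ D := by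
      refine (hPl _ (hu y hy) _ (hu y' hy')).trans ?_
      have h1 : α + y (Sum.inr (Sum.inr ())) / m - (α + y' (Sum.inr (Sum.inr ())) / m) =
          (y (Sum.inr (Sum.inr ())) - y' (Sum.inr (Sum.inr ()))) / m := by ring
      rw [h1, abs_div, abs_of_pos hm, mul_div_cancel₀ _ hm.ne']
      exact hd _
    obtain ⟨hb1, hb2⟩ := hPb _ (hu y' hy')
    set z := P (α + y (Sum.inr (Sum.inr ())) / m) with hz
    set z' := P (α + y' (Sum.inr (Sum.inr ())) / m) with hz'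
    have hre : |z.re - z'.re| ≤ D := by
      have := Complex.abs_re_le_norm (z - z')
      simpa using this.trans hPd
    have him : |z.im - z'.im| ≤ D := by
      have := Complex.abs_im_le_norm (z - z')
      simpa using this.trans hPd
    -- first component
    have hv : ‖nrm (e + T (ρ⁻¹ • fun i => y (Sum.inl i))) -
        nrm (e + T (ρ⁻¹ • fun i => y' (Sum.inl i)))‖ ≤ 2 * (‖T‖ * (ρ⁻¹ * D)) := by
      refine (nrm_lip (hT1 _) (hT1 _)).trans ?_
      apply mul_le_mul_of_nonneg_left _ (by norm_num)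
      rw [add_sub_add_left_eq_sub, ← map_sub, ← smul_sub]
      refine (T.le_opNorm _).trans ?_
      apply mul_le_mul_of_nonneg_left _ (norm_nonneg _)
      rw [norm_smul, norm_inv, Real.norm_eq_abs, abs_of_pos hρ]
      apply mul_le_mul_of_nonneg_left _ (by positivity)
      rw [pi_norm_le_iff_of_nonneg hD0]
      intro i
      exact hd (Sum.inl i)
    have hw : ‖nrm (e' + T' e' (s⁻¹ • fun i => y (Sum.inr (Sum.inl i)))) -
        nrm (e' + T' e' (s⁻¹ • fun i => y' (Sum.inr (Sum.inl i))))‖ ≤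
        2 * (‖T' e'‖ * (s⁻¹ * D)) := by
      refine (nrm_lip (hT'1 e' (ht1' e' he') _) (hT'1 e' (ht1' e' he') _)).trans ?_
      apply mul_le_mul_of_nonneg_left _ (by norm_num)
      rw [add_sub_add_left_eq_sub, ← map_sub, ← smul_sub]
      refine ((T' e').le_opNorm _).trans ?_
      apply mul_le_mul_of_nonneg_left _ (norm_nonneg _)
      rw [norm_smul, norm_inv, Real.norm_eq_abs, abs_of_pos hs]
      apply mul_le_mul_of_nonneg_left _ (by positivity)
      rw [pi_norm_le_iff_of_nonneg hD0]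
      intro i
      exact hd (Sum.inr (Sum.inl i))
    have hn1 : ‖nrm (e + T (ρ⁻¹ • fun i => y (Sum.inl i)))‖ = 1 := nrm_norm (hT1 _)
    have hn2 : ‖nrm (e' + T' e' (s⁻¹ • fun i => y (Sum.inr (Sum.inl i))))‖ = 1 :=
      nrm_norm (hT'1 e' (ht1' e' he') _)
    rw [dist_eq_norm]
    simp only [Φ]
    rw [← hz, ← hz', add_sub_add_comm, ← map_sub, ← map_sub, sub_sub_sub_cancel_right]
    refine (norm_add_le _ _).trans ?_
    rw [norm_inc₁, norm_inc₂]
    generalize nrm (e + T (ρ⁻¹ • fun i => y (Sum.inl i))) = a at *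
    generalize nrm (e + T (ρ⁻¹ • fun i => y' (Sum.inl i))) = a' at *
    generalize nrm (e' + T' e' (s⁻¹ • fun i => y (Sum.inr (Sum.inl i)))) = c at *
    generalize nrm (e' + T' e' (s⁻¹ • fun i => y' (Sum.inr (Sum.inl i)))) = c' at *
    have f1 : ‖z.re • a - z'.re • a'‖ ≤ D + 4 * ‖T‖ * D := by
      have e1 : z.re • a - z'.re • a' = (z.re - z'.re) • a + z'.re • (a - a') := by
        rw [sub_smul, smul_sub]; abel
      rw [e1]
      refine (norm_add_le _ _).trans ?_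
      rw [norm_smul, norm_smul, hn1, mul_one, Real.norm_eq_abs, Real.norm_eq_abs]
      have h5 : |z'.re| * ‖a - a'‖ ≤ 2 * ρ * (2 * (‖T‖ * (ρ⁻¹ * D))) :=
        mul_le_mul hb1 hv (norm_nonneg _) (by positivity)
      have h6 : 2 * ρ * (2 * (‖T‖ * (ρ⁻¹ * D))) = 4 * ‖T‖ * D := by
        field_simp
        ring
      linarith
    have f2 : ‖z.im • c - z'.im • c'‖ ≤ D + 2 * ‖T' e'‖ * D := by
      have e1 : z.im • c - z'.im • c' = (z.im - z'.im) • c + z'.im • (c - c') := by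
        rw [sub_smul, smul_sub]; abel
      rw [e1]
      refine (norm_add_le _ _).trans ?_
      rw [norm_smul, norm_smul, hn2, mul_one, Real.norm_eq_abs, Real.norm_eq_abs]
      have h5 : |z'.im| * ‖c - c'‖ ≤ s * (2 * (‖T' e'‖ * (s⁻¹ * D))) :=
        mul_le_mul hb2 hw (norm_nonneg _) (by positivity)
      have h6 : s * (2 * (‖T' e'‖ * (s⁻¹ * D))) = 2 * ‖T' e'‖ * D := by
        field_simp
      linarith
    have hKe : (K e' : ℝ) = 2 + 4 * ‖T‖ + 2 * ‖T' e'‖ := by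
      simp [hK]
    rw [hKe]
    linarith
  have hvol : μH[(n : ℝ)] (Icc lo hi) = ENNReal.ofReal (4 * M) ^ m₁ *
      (ENNReal.ofReal (2 * s) ^ m₂ * ENNReal.ofReal (m * (β - α))) := by
    have h1 : (μH[(n : ℝ)] : Measure (ι → ℝ)) = volume := by
      rw [← hcard]
      exact hausdorffMeasure_pi_real
    rw [h1, Real.volume_Icc_pi]
    rw [Fintype.prod_sum_type, Fintype.prod_sum_type]
    simp only [lo, hi, Sum.elim_inl, Sum.elim_inr, Finset.prod_const, Finset.card_univ,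
      Fintype.card_fin, Fintype.card_unit, pow_one, sub_zero]
    congr 3
    · congr 1; ring
    · congr 1; ring
  calc μH[(n : ℝ)] {Z : V (m₁ + 1) (m₂ + 1) | ‖b + pr₁ Z - ρ • e‖ ≤ M ∧
        ∃ u ∈ Icc α β, P u = ⟨‖b + pr₁ Z‖, ‖pr₂ Z‖⟩}
      ≤ μH[(n : ℝ)] (⋃ e' ∈ t, Φ e' '' Icc lo hi) := measure_mono hcov
    _ ≤ ∑ e' ∈ t, μH[(n : ℝ)] (Φ e' '' Icc lo hi) := measure_biUnion_finset_le _ _
    _ ≤ ∑ e' ∈ t, (K e' : ℝ≥0∞) ^ n * μH[(n : ℝ)] (Icc lo hi) := by
        apply Finset.sum_le_sum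
        intro e' he'
        have := (hLip e' he').hausdorffMeasure_image_le (d := (n : ℝ)) (Nat.cast_nonneg n)
        rwa [ENNReal.rpow_natCast] at this
    _ = ((∑ e' ∈ t, K e' ^ n) * (4 ^ m₁ * 2 ^ m₂) : ℝ≥0) *
        ENNReal.ofReal (M ^ m₁ * s ^ m₂ * (m * (β - α))) := by
        rw [← Finset.sum_mul, hvol]
        have e5 : ENNReal.ofReal (M ^ m₁ * s ^ m₂ * (m * (β - α))) =
            ENNReal.ofReal M ^ m₁ * ENNReal.ofReal s ^ m₂ * ENNReal.ofReal (m * (β - α)) := by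
          rw [ENNReal.ofReal_mul (by positivity), ENNReal.ofReal_mul (by positivity),
            ENNReal.ofReal_pow hM0, ENNReal.ofReal_pow hs.le]
        rw [e5, ENNReal.ofReal_mul (by norm_num : (0 : ℝ) ≤ 4),
          ENNReal.ofReal_mul (by norm_num : (0 : ℝ) ≤ 2), mul_pow, mul_pow]
        push_cast
        have e4 : ENNReal.ofReal 4 = 4 := by simp
        have e2 : ENNReal.ofReal 2 = 2 := by simp
        rw [e4, e2]
        ring

end Pool.Agent.Helper532_SymMCF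

end

section

/-!
Upper bound for the Hausdorff measure of the symmetric hypersurface by a weighted length of the
profile curve.
-/

open Set Filter MeasureTheory Topology Metric Module
open scoped ContDiff NNReal ENNReal RealInnerProductSpace

namespace Pool.Agent.Helper532_SymMCF

theorem unif {g : ℝ → ℂ} {k : ℝ → ℝ} (hg : Continuous g) (hk : Continuous k) {ε : ℝ} (hε : 0 < ε) :
    ∃ δ > 0, ∀ u ∈ Icc (0 : ℝ) 1, ∀ v ∈ Icc (0 : ℝ) 1, |u - v| ≤ δ →
      ‖g u - g v‖ ≤ ε ∧ |k u - k v| ≤ ε := by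
  have h1 := isCompact_Icc.uniformContinuousOn_of_continuous (s := Icc (0 : ℝ) 1)
    (hg.prodMk hk).continuousOn
  rw [Metric.uniformContinuousOn_iff] at h1
  obtain ⟨δ, hδ, h⟩ := h1 ε hε
  refine ⟨δ / 2, by positivity, fun u hu v hv huv => ?_⟩
  have h2 := h u hu v hv (by rw [Real.dist_eq]; linarith)
  rw [Prod.dist_eq, max_lt_iff, dist_eq_norm, Real.dist_eq] at h2
  exact ⟨h2.1.le, h2.2.le⟩

/-- The measure of the hypersurface is at most a multiple of the weighted length of the profile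
curve. -/
theorem area_curve {m₁ m₂ : ℕ} {e : EuclideanSpace ℝ (Fin (m₁ + 1))} (he : ‖e‖ = 1) :
    ∃ C : ℝ≥0, ∀ (b : EuclideanSpace ℝ (Fin (m₁ + 1))) (ρ M δ₀ : ℝ) (P P' : ℝ → ℂ) (K : Set ℂ)
      (χ : ℂ → ℝ), 0 < ρ → 0 ≤ M → M ≤ ρ / 2 → (∀ u, HasDerivAt P (P' u) u) → Continuous P' →
      Continuous χ → (∀ z, 0 ≤ χ z) → 0 < δ₀ → (∀ w ∈ K, ∀ z, dist z w ≤ δ₀ → 1 ≤ χ z) →
      μH[(m₁ + m₂ + 1 : ℕ)] {Z : V (m₁ + 1) (m₂ + 1) | ‖b + pr₁ Z - ρ • e‖ ≤ M ∧
        (⟨‖b + pr₁ Z‖, ‖pr₂ Z‖⟩ : ℂ) ∈ K ∧ ∃ u ∈ Icc (0 : ℝ) 1, P u = ⟨‖b + pr₁ Z‖, ‖pr₂ Z‖⟩} ≤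
      C * ENNReal.ofReal (M ^ m₁ *
        ∫ u in (0 : ℝ)..1, χ (P u) * |(P u).im| ^ m₂ * ‖P' u‖) := by
  classical
  obtain ⟨C, hC⟩ := area_piece (m₂ := m₂) he
  refine ⟨C, ?_⟩
  intro b ρ M δ₀ P P' K χ hρ hM0 hM hPd hP' hχ hχ0 hδ₀ hK
  have hPc : Continuous P := continuous_iff_continuousAt.2 fun u => (hPd u).continuousAt
  set A : Set (V (m₁ + 1) (m₂ + 1)) := {Z | ‖b + pr₁ Z - ρ • e‖ ≤ M ∧
        (⟨‖b + pr₁ Z‖, ‖pr₂ Z‖⟩ : ℂ) ∈ K ∧ ∃ u ∈ Icc (0 : ℝ) 1, P u = ⟨‖b + pr₁ Z‖, ‖pr₂ Z‖⟩}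
    with hA
  have key : ∀ ε > 0, μH[(m₁ + m₂ + 1 : ℕ)] A ≤ C * ENNReal.ofReal (M ^ m₁ *
        ∫ u in (0 : ℝ)..1, χ (P u) * (|(P u).im| + ε) ^ m₂ * (‖P' u‖ + ε)) := by
    intro ε hε
    set ε' : ℝ := min (min (ε / 2) δ₀) (ρ / 2) with hε'
    have hε'0 : 0 < ε' := by positivity
    have e1 : ε' ≤ ε / 2 := (min_le_left _ _).trans (min_le_left _ _)
    have e2 : ε' ≤ δ₀ := (min_le_left _ _).trans (min_le_right _ _)
    have e3 : ε' ≤ ρ / 2 := min_le_right _ _
    obtain ⟨δ, hδ, hun⟩ := unif hPc hP'.norm hε'0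
    obtain ⟨n₀, hn₀⟩ := exists_nat_one_div_lt hδ
    set n : ℕ := n₀ + 1 with hn
    have hn0 : (0 : ℝ) < n := by rw [hn]; positivity
    have hnδ : 1 / (n : ℝ) ≤ δ := by
      rw [hn]; push_cast; exact hn₀.le
    set a : ℕ → ℝ := fun j => j / n with ha
    have haj : ∀ j : ℕ, a (j + 1) - a j = 1 / n := by
      intro j
      simp only [ha]
      push_cast
      ring
    have haj' : ∀ j : ℕ, a j ≤ a (j + 1) := fun j => by
      have := haj j
      have : (0 : ℝ) < 1 / n := by positivity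
      linarith
    have hsub : ∀ j < n, Icc (a j) (a (j + 1)) ⊆ Icc (0 : ℝ) 1 := by
      intro j hj
      apply Icc_subset_Icc
      · simp only [ha]; positivity
      · simp only [ha]
        rw [div_le_one hn0]
        exact_mod_cast hj
    set G : ℝ → ℝ := fun u => χ (P u) * (|(P u).im| + ε) ^ m₂ * (‖P' u‖ + ε) with hG
    have hGc : Continuous G :=
      ((hχ.comp hPc).mul (((Complex.continuous_im.comp hPc).abs.add continuous_const).pow m₂)).mul
        (hP'.norm.add continuous_const)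
    have hG0 : ∀ u, 0 ≤ G u := fun u => by
      have := hχ0 (P u)
      simp only [hG]
      positivity
    set B : ℕ → Set (V (m₁ + 1) (m₂ + 1)) := fun j => {Z | Z ∈ A ∧ ∃ u ∈ Icc (a j) (a (j + 1)),
      P u = ⟨‖b + pr₁ Z‖, ‖pr₂ Z‖⟩} with hB
    have hcov : A ⊆ ⋃ j ∈ Finset.range n, B j := by
      intro Z hZ
      obtain ⟨hZ1, hZ2, u, hu, hPu⟩ := hZ
      rw [mem_iUnion₂]
      rcases hu.2.eq_or_lt with h1 | h1
      · refine ⟨n₀, by rw [Finset.mem_range, hn]; omega, ⟨hZ1, hZ2, u, hu, hPu⟩, u, ?_, hPu⟩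
        rw [h1]
        have h2 : a (n₀ + 1) = 1 := by
          simp only [ha]
          rw [← hn]
          exact div_self hn0.ne'
        exact ⟨by rw [← h2]; exact haj' n₀, h2.ge⟩
      · have h2 : 0 ≤ u * n := mul_nonneg hu.1 hn0.le
        refine ⟨⌊u * n⌋₊, ?_, ⟨hZ1, hZ2, u, hu, hPu⟩, u, ⟨?_, ?_⟩, hPu⟩
        · rw [Finset.mem_range, Nat.floor_lt h2]
          nlinarith
        · simp only [ha]
          rw [div_le_iff₀ hn0]
          exact Nat.floor_le h2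
        · simp only [ha]
          rw [le_div_iff₀ hn0]
          push_cast
          exact (Nat.lt_floor_add_one _).le
    have hpiece : ∀ j ∈ Finset.range n, μH[(m₁ + m₂ + 1 : ℕ)] (B j) ≤
        C * ENNReal.ofReal (M ^ m₁ * ∫ u in (a j)..(a (j + 1)), G u) := by
      intro j hj
      rw [Finset.mem_range] at hj
      have hsj := hsub j hj
      rcases (B j).eq_empty_or_nonempty with hempty | ⟨Z₀, hZ₀, u₀, hu₀, hPu₀⟩
      · rw [hempty, measure_empty]; exact zero_le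
      · obtain ⟨hZ1, hZ2, _⟩ := hZ₀
        have hosc : ∀ u ∈ Icc (a j) (a (j + 1)), ∀ v ∈ Icc (a j) (a (j + 1)),
            ‖P u - P v‖ ≤ ε' ∧ |‖P' u‖ - ‖P' v‖| ≤ ε' := by
          intro u hu v hv
          apply hun u (hsj hu) v (hsj hv)
          refine le_trans ?_ hnδ
          rw [← haj j, abs_le]
          constructor <;> linarith [hu.1, hu.2, hv.1, hv.2]
        have haj0 : a j ∈ Icc (a j) (a (j + 1)) := ⟨le_refl _, haj' j⟩
        set m : ℝ := ‖P' (a j)‖ + ε / 2 with hm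
        set s : ℝ := |(P (a j)).im| + ε / 2 with hs
        have hm0 : 0 < m := by positivity
        have hs0 : 0 < s := by positivity
        have him : ∀ u ∈ Icc (a j) (a (j + 1)), ∀ v ∈ Icc (a j) (a (j + 1)),
            |(P u).im| ≤ |(P v).im| + ε' := by
          intro u hu v hv
          have h1 := (hosc u hu v hv).1
          have h2 := (Complex.abs_im_le_norm (P u - P v)).trans h1
          rw [Complex.sub_im] at h2
          have := abs_sub_abs_le_abs_sub (P u).im (P v).im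
          linarith
        have hm1 : ∀ u ∈ Icc (a j) (a (j + 1)), ‖P' u‖ ≤ m := by
          intro u hu
          have := (abs_le.1 (hosc u hu _ haj0).2).2
          linarith
        have hnorm : ‖b + pr₁ Z₀‖ ≤ 3 / 2 * ρ := by
          have h1 : ‖b + pr₁ Z₀‖ ≤ ‖b + pr₁ Z₀ - ρ • e‖ + ‖ρ • e‖ := by
            have := norm_add_le (b + pr₁ Z₀ - ρ • e) (ρ • e)
            rwa [sub_add_cancel] at this
          rw [norm_smul, he, mul_one, Real.norm_eq_abs, abs_of_pos hρ] at h1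
          linarith
        have h1 := hC b ρ M (a j) (a (j + 1)) m s P hρ hM0 hM (haj' j) hm0 hs0
          (by
            intro u hu v hv
            have := Convex.norm_image_sub_le_of_norm_hasDerivWithin_le (f := P) (f' := P')
              (C := m) (s := Icc (a j) (a (j + 1))) (fun x _ => (hPd x).hasDerivWithinAt)
              (fun x hx => hm1 x hx) (convex_Icc _ _) hv hu
            rwa [Real.norm_eq_abs] at this)
          (by
            intro u hu
            constructor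
            · have h2 := (hosc u hu u₀ hu₀).1
              have h3 := (Complex.abs_re_le_norm (P u - P u₀)).trans h2
              rw [Complex.sub_re] at h3
              have h4 := abs_sub_abs_le_abs_sub (P u).re (P u₀).re
              have h5 : |(P u₀).re| ≤ 3 / 2 * ρ := by
                rw [hPu₀]
                simp only
                rw [abs_of_nonneg (norm_nonneg _)]
                exact hnorm
              linarith
            · have := him u hu _ haj0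
              linarith)
        refine (measure_mono ?_).trans (h1.trans ?_)
        · rintro Z ⟨⟨hZ1, _, _⟩, hu⟩
          exact ⟨hZ1, hu⟩
        · refine mul_le_mul' (le_refl _) (ENNReal.ofReal_le_ofReal ?_)
          have hp : M ^ m₁ * s ^ m₂ * (m * (a (j + 1) - a j)) =
              M ^ m₁ * ∫ u in (a j)..(a (j + 1)), s ^ m₂ * m := by
            rw [intervalIntegral.integral_const, smul_eq_mul]
            ring
          rw [hp]
          apply mul_le_mul_of_nonneg_left _ (by positivity)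
          apply intervalIntegral.integral_mono_on (haj' j) (by simp)
            (hGc.intervalIntegrable _ _)
          intro v hv
          have h2 : 1 ≤ χ (P v) := by
            apply hK (P u₀) (by rw [hPu₀]; exact hZ2)
            rw [dist_eq_norm]
            exact (hosc v hv u₀ hu₀).1.trans e2
          have h3 : s ≤ |(P v).im| + ε := by
            have := him _ haj0 v hv
            linarith
          have h4 : m ≤ ‖P' v‖ + ε := by
            have := (abs_le.1 (hosc _ haj0 v hv).2).2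
            linarith
          simp only [hG]
          calc s ^ m₂ * m ≤ (|(P v).im| + ε) ^ m₂ * (‖P' v‖ + ε) := by gcongr
            _ = 1 * ((|(P v).im| + ε) ^ m₂ * (‖P' v‖ + ε)) := (one_mul _).symm
            _ ≤ χ (P v) * ((|(P v).im| + ε) ^ m₂ * (‖P' v‖ + ε)) := by gcongr
            _ = χ (P v) * (|(P v).im| + ε) ^ m₂ * (‖P' v‖ + ε) := by ring
    calc μH[(m₁ + m₂ + 1 : ℕ)] A ≤ μH[(m₁ + m₂ + 1 : ℕ)] (⋃ j ∈ Finset.range n, B j) :=
          measure_mono hcov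
      _ ≤ ∑ j ∈ Finset.range n, μH[(m₁ + m₂ + 1 : ℕ)] (B j) := measure_biUnion_finset_le _ _
      _ ≤ ∑ j ∈ Finset.range n, C * ENNReal.ofReal (M ^ m₁ * ∫ u in (a j)..(a (j + 1)), G u) :=
          Finset.sum_le_sum hpiece
      _ = C * ENNReal.ofReal (M ^ m₁ * ∫ u in (0 : ℝ)..1, G u) := by
          rw [← Finset.mul_sum, ← ENNReal.ofReal_sum_of_nonneg, ← Finset.mul_sum,
            intervalIntegral.sum_integral_adjacent_intervals]
          · congr 4
            · simp [ha]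
            · simp only [ha]
              exact div_self hn0.ne'
          · intro j _
            exact hGc.intervalIntegrable _ _
          · intro j _
            have : 0 ≤ ∫ u in (a j)..(a (j + 1)), G u :=
              intervalIntegral.integral_nonneg (haj' j) fun u _ => hG0 u
            positivity
  have hcont : Continuous fun ε : ℝ => (C : ℝ≥0∞) * ENNReal.ofReal (M ^ m₁ *
        ∫ u in (0 : ℝ)..1, χ (P u) * (|(P u).im| + ε) ^ m₂ * (‖P' u‖ + ε)) := by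
    apply (ENNReal.continuous_const_mul ENNReal.coe_ne_top).comp
    apply ENNReal.continuous_ofReal.comp
    apply Continuous.mul continuous_const
    apply intervalIntegral.continuous_parametric_intervalIntegral_of_continuous'
    have hPc2 : Continuous fun p : ℝ × ℝ => P p.2 := hPc.comp continuous_snd
    have hP'2 : Continuous fun p : ℝ × ℝ => P' p.2 := hP'.comp continuous_snd
    exact ((hχ.comp hPc2).mul (((Complex.continuous_im.comp hPc2).abs.add continuous_fst).pow m₂)).mul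
        (hP'2.norm.add continuous_fst)
  have hlim := (hcont.tendsto 0).mono_left (nhdsWithin_le_nhds (s := Ioi (0 : ℝ)))
  simp only [add_zero] at hlim
  apply ge_of_tendsto hlim
  filter_upwards [self_mem_nhdsWithin] with ε hε
  exact key ε hε

end Pool.Agent.Helper532_SymMCF

end

section

/-!
Upper bound for the Hausdorff measure of the symmetric hypersurface by the length of the
profile curve, away from the axes.
-/

open Set Filter MeasureTheory Topology Metric Module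
open scoped ContDiff NNReal ENNReal RealInnerProductSpace

namespace Pool.Agent.Helper532_SymMCF

/-- The measure of the part of the hypersurface above a short piece of the profile curve. -/
theorem area_piece₂ {m₁ m₂ : ℕ} {e : EuclideanSpace ℝ (Fin (m₁ + 1))} (he : ‖e‖ = 1)
    {e' : EuclideanSpace ℝ (Fin (m₂ + 1))} (he' : ‖e'‖ = 1) :
    ∃ C : ℝ≥0, ∀ (b : EuclideanSpace ℝ (Fin (m₁ + 1))) (b' : EuclideanSpace ℝ (Fin (m₂ + 1)))
      (ρ M ρ' M' α β m : ℝ) (P : ℝ → ℂ), 0 < ρ → 0 ≤ M → M ≤ ρ / 2 → 0 < ρ' → 0 ≤ M' →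
      M' ≤ ρ' / 2 → α ≤ β → 0 < m →
      (∀ u ∈ Icc α β, ∀ v ∈ Icc α β, ‖P u - P v‖ ≤ m * |u - v|) →
      (∀ u ∈ Icc α β, |(P u).re| ≤ 2 * ρ ∧ |(P u).im| ≤ 2 * ρ') →
      μH[(m₁ + m₂ + 1 : ℕ)] {Z : V (m₁ + 1) (m₂ + 1) | ‖b + pr₁ Z - ρ • e‖ ≤ M ∧
        ‖b' + pr₂ Z - ρ' • e'‖ ≤ M' ∧
        ∃ u ∈ Icc α β, P u = ⟨‖b + pr₁ Z‖, ‖b' + pr₂ Z‖⟩} ≤
      C * ENNReal.ofReal (M ^ m₁ * M' ^ m₂ * (m * (β - α))) := by
  classical
  obtain ⟨T, hT1, hT2⟩ := exists_chart (m := m₁) (by simp) he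
  obtain ⟨T', hT'1, hT'2⟩ := exists_chart (m := m₂) (by simp) he'
  set n : ℕ := m₁ + m₂ + 1 with hn
  set K : ℝ≥0 := 2 + 4 * ‖T‖₊ + 4 * ‖T'‖₊ with hK
  refine ⟨K ^ n * (4 ^ m₁ * 4 ^ m₂), ?_⟩
  intro b b' ρ M ρ' M' α β m P hρ hM0 hM hρ' hM'0 hM' hαβ hm hPl hPb
  let ι := Fin m₁ ⊕ (Fin m₂ ⊕ Unit)
  have hcard : Fintype.card ι = n := by
    simp [ι, hn, add_assoc]
  let Φ : (ι → ℝ) → V (m₁ + 1) (m₂ + 1) := fun y =>
    inc₁ ((P (α + y (Sum.inr (Sum.inr ())) / m)).re • nrm (e + T (ρ⁻¹ • fun i => y (Sum.inl i))) - b)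
    + inc₂ ((P (α + y (Sum.inr (Sum.inr ())) / m)).im •
      nrm (e' + T' (ρ'⁻¹ • fun j => y (Sum.inr (Sum.inl j)))) - b')
  let lo : ι → ℝ := Sum.elim (fun _ => -(2 * M)) (Sum.elim (fun _ => -(2 * M')) (fun _ => 0))
  let hi : ι → ℝ := Sum.elim (fun _ => 2 * M) (Sum.elim (fun _ => 2 * M') (fun _ => m * (β - α)))
  have hcov : {Z : V (m₁ + 1) (m₂ + 1) | ‖b + pr₁ Z - ρ • e‖ ≤ M ∧
        ‖b' + pr₂ Z - ρ' • e'‖ ≤ M' ∧
        ∃ u ∈ Icc α β, P u = ⟨‖b + pr₁ Z‖, ‖b' + pr₂ Z‖⟩} ⊆ Φ '' Icc lo hi := by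
    rintro Z ⟨hZ1, hZ2, u, hu, hPu⟩
    obtain ⟨v, hv, hv'⟩ := hT2 (b + pr₁ Z) ρ M hρ hM hZ1
    obtain ⟨w, hw, hw'⟩ := hT'2 (b' + pr₂ Z) ρ' M' hρ' hM' hZ2
    refine ⟨Sum.elim (fun i => ρ * v i) (Sum.elim (fun j => ρ' * w j)
      (fun _ => m * (u - α))), ?_, ?_⟩
    · have hvi : ∀ i, |v i| ≤ 2 * M / ρ := fun i => (norm_le_pi_norm v i).trans hv
      have hwj : ∀ j, |w j| ≤ 2 * M' / ρ' := fun j => (norm_le_pi_norm w j).trans hw
      have hvi' : ∀ i, |ρ * v i| ≤ 2 * M := by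
        intro i
        rw [abs_mul, abs_of_pos hρ]
        have := mul_le_mul_of_nonneg_left (hvi i) hρ.le
        rwa [mul_div_cancel₀ _ hρ.ne'] at this
      have hwj' : ∀ j, |ρ' * w j| ≤ 2 * M' := by
        intro j
        rw [abs_mul, abs_of_pos hρ']
        have := mul_le_mul_of_nonneg_left (hwj j) hρ'.le
        rwa [mul_div_cancel₀ _ hρ'.ne'] at this
      constructor
      · rintro (i | j | _)
        · exact (abs_le.1 (hvi' i)).1
        · exact (abs_le.1 (hwj' j)).1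
        · exact mul_nonneg hm.le (by linarith [hu.1])
      · rintro (i | j | _)
        · exact (abs_le.1 (hvi' i)).2
        · exact (abs_le.1 (hwj' j)).2
        · exact mul_le_mul_of_nonneg_left (by linarith [hu.2]) hm.le
    · simp only [Φ, Sum.elim_inr, Sum.elim_inl]
      have e1 : α + m * (u - α) / m = u := by
        field_simp
        ring
      have e2 : (ρ⁻¹ • fun i => ρ * v i) = v := by
        ext i
        simp only [Pi.smul_apply, smul_eq_mul]
        field_simp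
      have e3 : (ρ'⁻¹ • fun j => ρ' * w j) = w := by
        ext i
        simp only [Pi.smul_apply, smul_eq_mul]
        field_simp
      rw [e1, e2, e3, hPu]
      simp only
      rw [← hv', ← hw', add_sub_cancel_left, add_sub_cancel_left]
      exact inc_add Z
  have hLip : LipschitzOnWith K Φ (Icc lo hi) := by
    apply LipschitzOnWith.of_dist_le_mul
    intro y hy y' hy'
    have hu : ∀ z ∈ Icc lo hi, α + z (Sum.inr (Sum.inr ())) / m ∈ Icc α β := by
      intro z hz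
      have h1 := hz.1 (Sum.inr (Sum.inr ()))
      have h2 := hz.2 (Sum.inr (Sum.inr ()))
      simp only [lo, hi, Sum.elim_inr] at h1 h2
      constructor
      · have : 0 ≤ z (Sum.inr (Sum.inr ())) / m := div_nonneg h1 hm.le
        linarith
      · have : z (Sum.inr (Sum.inr ())) / m ≤ β - α := by
          rw [div_le_iff₀ hm]; linarith
        linarith
    have hd : ∀ i, |y i - y' i| ≤ dist y y' := fun i => by
      have := dist_le_pi_dist y y' i
      rwa [Real.dist_eq] at this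
    set D := dist y y' with hD
    have hD0 : 0 ≤ D := dist_nonneg
    have hPd : ‖P (α + y (Sum.inr (Sum.inr ())) / m) - P (α + y' (Sum.inr (Sum.inr ())) / m)‖ ≤ D := by
      refine (hPl _ (hu y hy) _ (hu y' hy')).trans ?_
      have h1 : α + y (Sum.inr (Sum.inr ())) / m - (α + y' (Sum.inr (Sum.inr ())) / m) =
          (y (Sum.inr (Sum.inr ())) - y' (Sum.inr (Sum.inr ()))) / m := by ring
      rw [h1, abs_div, abs_of_pos hm, mul_div_cancel₀ _ hm.ne']
      exact hd _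
    obtain ⟨hb1, hb2⟩ := hPb _ (hu y' hy')
    set z := P (α + y (Sum.inr (Sum.inr ())) / m) with hz
    set z' := P (α + y' (Sum.inr (Sum.inr ())) / m) with hz'
    have hre : |z.re - z'.re| ≤ D := by
      have := Complex.abs_re_le_norm (z - z')
      simpa using this.trans hPd
    have him : |z.im - z'.im| ≤ D := by
      have := Complex.abs_im_le_norm (z - z')
      simpa using this.trans hPd
    -- first component
    have hv : ‖nrm (e + T (ρ⁻¹ • fun i => y (Sum.inl i))) -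
        nrm (e + T (ρ⁻¹ • fun i => y' (Sum.inl i)))‖ ≤ 2 * (‖T‖ * (ρ⁻¹ * D)) := by
      refine (nrm_lip (hT1 _) (hT1 _)).trans ?_
      apply mul_le_mul_of_nonneg_left _ (by norm_num)
      rw [add_sub_add_left_eq_sub, ← map_sub, ← smul_sub]
      refine (T.le_opNorm _).trans ?_
      apply mul_le_mul_of_nonneg_left _ (norm_nonneg _)
      rw [norm_smul, norm_inv, Real.norm_eq_abs, abs_of_pos hρ]
      apply mul_le_mul_of_nonneg_left _ (by positivity)
      rw [pi_norm_le_iff_of_nonneg hD0]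
      intro i
      exact hd (Sum.inl i)
    have hw : ‖nrm (e' + T' (ρ'⁻¹ • fun i => y (Sum.inr (Sum.inl i)))) -
        nrm (e' + T' (ρ'⁻¹ • fun i => y' (Sum.inr (Sum.inl i))))‖ ≤
        2 * (‖T'‖ * (ρ'⁻¹ * D)) := by
      refine (nrm_lip (hT'1 _) (hT'1 _)).trans ?_
      apply mul_le_mul_of_nonneg_left _ (by norm_num)
      rw [add_sub_add_left_eq_sub, ← map_sub, ← smul_sub]
      refine (T'.le_opNorm _).trans ?_
      apply mul_le_mul_of_nonneg_left _ (norm_nonneg _)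
      rw [norm_smul, norm_inv, Real.norm_eq_abs, abs_of_pos hρ']
      apply mul_le_mul_of_nonneg_left _ (by positivity)
      rw [pi_norm_le_iff_of_nonneg hD0]
      intro i
      exact hd (Sum.inr (Sum.inl i))
    have hn1 : ‖nrm (e + T (ρ⁻¹ • fun i => y (Sum.inl i)))‖ = 1 := nrm_norm (hT1 _)
    have hn2 : ‖nrm (e' + T' (ρ'⁻¹ • fun i => y (Sum.inr (Sum.inl i))))‖ = 1 :=
      nrm_norm (hT'1 _)
    rw [dist_eq_norm]
    simp only [Φ]
    rw [← hz, ← hz', add_sub_add_comm, ← map_sub, ← map_sub, sub_sub_sub_cancel_right,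
      sub_sub_sub_cancel_right]
    refine (norm_add_le _ _).trans ?_
    rw [norm_inc₁, norm_inc₂]
    generalize nrm (e + T (ρ⁻¹ • fun i => y (Sum.inl i))) = a at *
    generalize nrm (e + T (ρ⁻¹ • fun i => y' (Sum.inl i))) = a' at *
    generalize nrm (e' + T' (ρ'⁻¹ • fun i => y (Sum.inr (Sum.inl i)))) = c at *
    generalize nrm (e' + T' (ρ'⁻¹ • fun i => y' (Sum.inr (Sum.inl i)))) = c' at *
    have f1 : ‖z.re • a - z'.re • a'‖ ≤ D + 4 * ‖T‖ * D := by
      have e1 : z.re • a - z'.re • a' = (z.re - z'.re) • a + z'.re • (a - a') := by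
        rw [sub_smul, smul_sub]; abel
      rw [e1]
      refine (norm_add_le _ _).trans ?_
      rw [norm_smul, norm_smul, hn1, mul_one, Real.norm_eq_abs, Real.norm_eq_abs]
      have h5 : |z'.re| * ‖a - a'‖ ≤ 2 * ρ * (2 * (‖T‖ * (ρ⁻¹ * D))) :=
        mul_le_mul hb1 hv (norm_nonneg _) (by positivity)
      have h6 : 2 * ρ * (2 * (‖T‖ * (ρ⁻¹ * D))) = 4 * ‖T‖ * D := by
        field_simp
        ring
      linarith
    have f2 : ‖z.im • c - z'.im • c'‖ ≤ D + 4 * ‖T'‖ * D := by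
      have e1 : z.im • c - z'.im • c' = (z.im - z'.im) • c + z'.im • (c - c') := by
        rw [sub_smul, smul_sub]; abel
      rw [e1]
      refine (norm_add_le _ _).trans ?_
      rw [norm_smul, norm_smul, hn2, mul_one, Real.norm_eq_abs, Real.norm_eq_abs]
      have h5 : |z'.im| * ‖c - c'‖ ≤ 2 * ρ' * (2 * (‖T'‖ * (ρ'⁻¹ * D))) :=
        mul_le_mul hb2 hw (norm_nonneg _) (by positivity)
      have h6 : 2 * ρ' * (2 * (‖T'‖ * (ρ'⁻¹ * D))) = 4 * ‖T'‖ * D := by
        field_simp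
        ring
      linarith
    have hKe : (K : ℝ) = 2 + 4 * ‖T‖ + 4 * ‖T'‖ := by
      simp [hK]
    rw [hKe]
    linarith
  have hvol : μH[(n : ℝ)] (Icc lo hi) = ENNReal.ofReal (4 * M) ^ m₁ *
      (ENNReal.ofReal (4 * M') ^ m₂ * ENNReal.ofReal (m * (β - α))) := by
    have h1 : (μH[(n : ℝ)] : Measure (ι → ℝ)) = volume := by
      rw [← hcard]
      exact hausdorffMeasure_pi_real
    rw [h1, Real.volume_Icc_pi]
    rw [Fintype.prod_sum_type, Fintype.prod_sum_type]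
    simp only [lo, hi, Sum.elim_inl, Sum.elim_inr, Finset.prod_const, Finset.card_univ,
      Fintype.card_fin, Fintype.card_unit, pow_one, sub_zero]
    congr 3
    · congr 1; ring
    · congr 1; ring
  calc μH[(n : ℝ)] {Z : V (m₁ + 1) (m₂ + 1) | ‖b + pr₁ Z - ρ • e‖ ≤ M ∧
        ‖b' + pr₂ Z - ρ' • e'‖ ≤ M' ∧
        ∃ u ∈ Icc α β, P u = ⟨‖b + pr₁ Z‖, ‖b' + pr₂ Z‖⟩}
      ≤ μH[(n : ℝ)] (Φ '' Icc lo hi) := measure_mono hcov
    _ ≤ (K : ℝ≥0∞) ^ n * μH[(n : ℝ)] (Icc lo hi) := by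
        have := hLip.hausdorffMeasure_image_le (d := (n : ℝ)) (Nat.cast_nonneg n)
        rwa [ENNReal.rpow_natCast] at this
    _ = (K ^ n * (4 ^ m₁ * 4 ^ m₂) : ℝ≥0) *
        ENNReal.ofReal (M ^ m₁ * M' ^ m₂ * (m * (β - α))) := by
        rw [hvol]
        have e5 : ENNReal.ofReal (M ^ m₁ * M' ^ m₂ * (m * (β - α))) =
            ENNReal.ofReal M ^ m₁ * ENNReal.ofReal M' ^ m₂ * ENNReal.ofReal (m * (β - α)) := by
          rw [ENNReal.ofReal_mul (by positivity), ENNReal.ofReal_mul (by positivity),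
            ENNReal.ofReal_pow hM0, ENNReal.ofReal_pow hM'0]
        rw [e5, ENNReal.ofReal_mul (by norm_num : (0 : ℝ) ≤ 4),
          ENNReal.ofReal_mul (by norm_num : (0 : ℝ) ≤ 4), mul_pow, mul_pow]
        push_cast
        have e4 : ENNReal.ofReal 4 = 4 := by simp
        rw [e4]
        ring

/-- The measure of the hypersurface is at most a multiple of the length of the profile curve. -/
theorem area_curve₂ {m₁ m₂ : ℕ} {e : EuclideanSpace ℝ (Fin (m₁ + 1))} (he : ‖e‖ = 1)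
    {e' : EuclideanSpace ℝ (Fin (m₂ + 1))} (he' : ‖e'‖ = 1) :
    ∃ C : ℝ≥0, ∀ (b : EuclideanSpace ℝ (Fin (m₁ + 1))) (b' : EuclideanSpace ℝ (Fin (m₂ + 1)))
      (ρ M ρ' M' δ₀ : ℝ) (P P' : ℝ → ℂ) (K : Set ℂ)
      (χ : ℂ → ℝ), 0 < ρ → 0 ≤ M → M ≤ ρ / 2 → 0 < ρ' → 0 ≤ M' → M' ≤ ρ' / 2 →
      (∀ u, HasDerivAt P (P' u) u) → Continuous P' →
      Continuous χ → (∀ z, 0 ≤ χ z) → 0 < δ₀ → (∀ w ∈ K, ∀ z, dist z w ≤ δ₀ → 1 ≤ χ z) →
      μH[(m₁ + m₂ + 1 : ℕ)] {Z : V (m₁ + 1) (m₂ + 1) | ‖b + pr₁ Z - ρ • e‖ ≤ M ∧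
        ‖b' + pr₂ Z - ρ' • e'‖ ≤ M' ∧
        (⟨‖b + pr₁ Z‖, ‖b' + pr₂ Z‖⟩ : ℂ) ∈ K ∧
        ∃ u ∈ Icc (0 : ℝ) 1, P u = ⟨‖b + pr₁ Z‖, ‖b' + pr₂ Z‖⟩} ≤
      C * ENNReal.ofReal (M ^ m₁ * M' ^ m₂ * ∫ u in (0 : ℝ)..1, χ (P u) * ‖P' u‖) := by
  classical
  obtain ⟨C, hC⟩ := area_piece₂ he he'
  refine ⟨C, ?_⟩
  intro b b' ρ M ρ' M' δ₀ P P' K χ hρ hM0 hM hρ' hM'0 hM' hPd hP' hχ hχ0 hδ₀ hK
  have hPc : Continuous P := continuous_iff_continuousAt.2 fun u => (hPd u).continuousAt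
  set A : Set (V (m₁ + 1) (m₂ + 1)) := {Z | ‖b + pr₁ Z - ρ • e‖ ≤ M ∧
        ‖b' + pr₂ Z - ρ' • e'‖ ≤ M' ∧
        (⟨‖b + pr₁ Z‖, ‖b' + pr₂ Z‖⟩ : ℂ) ∈ K ∧
        ∃ u ∈ Icc (0 : ℝ) 1, P u = ⟨‖b + pr₁ Z‖, ‖b' + pr₂ Z‖⟩}
    with hA
  have key : ∀ ε > 0, μH[(m₁ + m₂ + 1 : ℕ)] A ≤ C * ENNReal.ofReal (M ^ m₁ * M' ^ m₂ *
        ∫ u in (0 : ℝ)..1, χ (P u) * (‖P' u‖ + ε)) := by
    intro ε hε
    set ε' : ℝ := min (min (min (ε / 2) δ₀) (ρ / 2)) (ρ' / 2) with hε'
    have hε'0 : 0 < ε' := by positivity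
    have e1 : ε' ≤ ε / 2 := ((min_le_left _ _).trans (min_le_left _ _)).trans (min_le_left _ _)
    have e2 : ε' ≤ δ₀ := ((min_le_left _ _).trans (min_le_left _ _)).trans (min_le_right _ _)
    have e3 : ε' ≤ ρ / 2 := (min_le_left _ _).trans (min_le_right _ _)
    have e4 : ε' ≤ ρ' / 2 := min_le_right _ _
    obtain ⟨δ, hδ, hun⟩ := unif hPc hP'.norm hε'0
    obtain ⟨n₀, hn₀⟩ := exists_nat_one_div_lt hδ
    set n : ℕ := n₀ + 1 with hn
    have hn0 : (0 : ℝ) < n := by rw [hn]; positivity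
    have hnδ : 1 / (n : ℝ) ≤ δ := by
      rw [hn]; push_cast; exact hn₀.le
    set a : ℕ → ℝ := fun j => j / n with ha
    have haj : ∀ j : ℕ, a (j + 1) - a j = 1 / n := by
      intro j
      simp only [ha]
      push_cast
      ring
    have haj' : ∀ j : ℕ, a j ≤ a (j + 1) := fun j => by
      have := haj j
      have : (0 : ℝ) < 1 / n := by positivity
      linarith
    have hsub : ∀ j < n, Icc (a j) (a (j + 1)) ⊆ Icc (0 : ℝ) 1 := by
      intro j hj
      apply Icc_subset_Icc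
      · simp only [ha]; positivity
      · simp only [ha]
        rw [div_le_one hn0]
        exact_mod_cast hj
    set G : ℝ → ℝ := fun u => χ (P u) * (‖P' u‖ + ε) with hG
    have hGc : Continuous G :=
      (hχ.comp hPc).mul (hP'.norm.add continuous_const)
    have hG0 : ∀ u, 0 ≤ G u := fun u => by
      have := hχ0 (P u)
      simp only [hG]
      positivity
    set B : ℕ → Set (V (m₁ + 1) (m₂ + 1)) := fun j => {Z | Z ∈ A ∧ ∃ u ∈ Icc (a j) (a (j + 1)),
      P u = ⟨‖b + pr₁ Z‖, ‖b' + pr₂ Z‖⟩} with hB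
    have hcov : A ⊆ ⋃ j ∈ Finset.range n, B j := by
      intro Z hZ
      obtain ⟨hZ1, hZ2, hZ3, u, hu, hPu⟩ := hZ
      rw [mem_iUnion₂]
      rcases hu.2.eq_or_lt with h1 | h1
      · refine ⟨n₀, by rw [Finset.mem_range, hn]; omega, ⟨hZ1, hZ2, hZ3, u, hu, hPu⟩, u, ?_, hPu⟩
        rw [h1]
        have h2 : a (n₀ + 1) = 1 := by
          simp only [ha]
          rw [← hn]
          exact div_self hn0.ne'
        exact ⟨by rw [← h2]; exact haj' n₀, h2.ge⟩
      · have h2 : 0 ≤ u * n := mul_nonneg hu.1 hn0.le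
        refine ⟨⌊u * n⌋₊, ?_, ⟨hZ1, hZ2, hZ3, u, hu, hPu⟩, u, ⟨?_, ?_⟩, hPu⟩
        · rw [Finset.mem_range, Nat.floor_lt h2]
          nlinarith
        · simp only [ha]
          rw [div_le_iff₀ hn0]
          exact Nat.floor_le h2
        · simp only [ha]
          rw [le_div_iff₀ hn0]
          push_cast
          exact (Nat.lt_floor_add_one _).le
    have hpiece : ∀ j ∈ Finset.range n, μH[(m₁ + m₂ + 1 : ℕ)] (B j) ≤
        C * ENNReal.ofReal (M ^ m₁ * M' ^ m₂ * ∫ u in (a j)..(a (j + 1)), G u) := by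
      intro j hj
      rw [Finset.mem_range] at hj
      have hsj := hsub j hj
      rcases (B j).eq_empty_or_nonempty with hempty | ⟨Z₀, hZ₀, u₀, hu₀, hPu₀⟩
      · rw [hempty, measure_empty]; exact zero_le
      · obtain ⟨hZ1, hZ2, hZ3, _⟩ := hZ₀
        have hosc : ∀ u ∈ Icc (a j) (a (j + 1)), ∀ v ∈ Icc (a j) (a (j + 1)),
            ‖P u - P v‖ ≤ ε' ∧ |‖P' u‖ - ‖P' v‖| ≤ ε' := by
          intro u hu v hv
          apply hun u (hsj hu) v (hsj hv)
          refine le_trans ?_ hnδ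
          rw [← haj j, abs_le]
          constructor <;> linarith [hu.1, hu.2, hv.1, hv.2]
        have haj0 : a j ∈ Icc (a j) (a (j + 1)) := ⟨le_refl _, haj' j⟩
        set m : ℝ := ‖P' (a j)‖ + ε / 2 with hm
        have hm0 : 0 < m := by positivity
        have hm1 : ∀ u ∈ Icc (a j) (a (j + 1)), ‖P' u‖ ≤ m := by
          intro u hu
          have := (abs_le.1 (hosc u hu _ haj0).2).2
          linarith
        have hnm : ∀ {k : ℕ} (X f : EuclideanSpace ℝ (Fin k)) (R S : ℝ), 0 < R → S ≤ R / 2 →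
            ‖f‖ = 1 → ‖X - R • f‖ ≤ S → ‖X‖ ≤ 3 / 2 * R := by
          intro k X f R S hR hS hf hX
          have h1 : ‖X‖ ≤ ‖X - R • f‖ + ‖R • f‖ := by
            have := norm_add_le (X - R • f) (R • f)
            rwa [sub_add_cancel] at this
          rw [norm_smul, hf, mul_one, Real.norm_eq_abs, abs_of_pos hR] at h1
          linarith
        have hnorm := hnm _ _ _ _ hρ hM he hZ1
        have hnorm' := hnm _ _ _ _ hρ' hM' he' hZ2
        have h1 := hC b b' ρ M ρ' M' (a j) (a (j + 1)) m P hρ hM0 hM hρ' hM'0 hM' (haj' j) hm0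
          (by
            intro u hu v hv
            have := Convex.norm_image_sub_le_of_norm_hasDerivWithin_le (f := P) (f' := P')
              (C := m) (s := Icc (a j) (a (j + 1))) (fun x _ => (hPd x).hasDerivWithinAt)
              (fun x hx => hm1 x hx) (convex_Icc _ _) hv hu
            rwa [Real.norm_eq_abs] at this)
          (by
            intro u hu
            have h2 := (hosc u hu u₀ hu₀).1
            constructor
            · have h3 := (Complex.abs_re_le_norm (P u - P u₀)).trans h2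
              rw [Complex.sub_re] at h3
              have h4 := abs_sub_abs_le_abs_sub (P u).re (P u₀).re
              have h5 : |(P u₀).re| ≤ 3 / 2 * ρ := by
                rw [hPu₀]
                simp only
                rw [abs_of_nonneg (norm_nonneg _)]
                exact hnorm
              linarith
            · have h3 := (Complex.abs_im_le_norm (P u - P u₀)).trans h2
              rw [Complex.sub_im] at h3
              have h4 := abs_sub_abs_le_abs_sub (P u).im (P u₀).im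
              have h5 : |(P u₀).im| ≤ 3 / 2 * ρ' := by
                rw [hPu₀]
                simp only
                rw [abs_of_nonneg (norm_nonneg _)]
                exact hnorm'
              linarith)
        refine (measure_mono ?_).trans (h1.trans ?_)
        · rintro Z ⟨⟨hZ1, hZ2, _, _⟩, hu⟩
          exact ⟨hZ1, hZ2, hu⟩
        · refine mul_le_mul' (le_refl _) (ENNReal.ofReal_le_ofReal ?_)
          have hp : M ^ m₁ * M' ^ m₂ * (m * (a (j + 1) - a j)) =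
              M ^ m₁ * M' ^ m₂ * ∫ u in (a j)..(a (j + 1)), m := by
            rw [intervalIntegral.integral_const, smul_eq_mul]
            ring
          rw [hp]
          apply mul_le_mul_of_nonneg_left _ (by positivity)
          apply intervalIntegral.integral_mono_on (haj' j) (by simp)
            (hGc.intervalIntegrable _ _)
          intro v hv
          have h2 : 1 ≤ χ (P v) := by
            apply hK (P u₀) (by rw [hPu₀]; exact hZ3)
            rw [dist_eq_norm]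
            exact (hosc v hv u₀ hu₀).1.trans e2
          have h4 : m ≤ ‖P' v‖ + ε := by
            have := (abs_le.1 (hosc _ haj0 v hv).2).2
            linarith
          simp only [hG]
          calc m ≤ ‖P' v‖ + ε := h4
            _ = 1 * (‖P' v‖ + ε) := (one_mul _).symm
            _ ≤ χ (P v) * (‖P' v‖ + ε) := by gcongr
    calc μH[(m₁ + m₂ + 1 : ℕ)] A ≤ μH[(m₁ + m₂ + 1 : ℕ)] (⋃ j ∈ Finset.range n, B j) :=
          measure_mono hcov
      _ ≤ ∑ j ∈ Finset.range n, μH[(m₁ + m₂ + 1 : ℕ)] (B j) := measure_biUnion_finset_le _ _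
      _ ≤ ∑ j ∈ Finset.range n, C * ENNReal.ofReal (M ^ m₁ * M' ^ m₂ *
          ∫ u in (a j)..(a (j + 1)), G u) :=
          Finset.sum_le_sum hpiece
      _ = C * ENNReal.ofReal (M ^ m₁ * M' ^ m₂ * ∫ u in (0 : ℝ)..1, G u) := by
          rw [← Finset.mul_sum, ← ENNReal.ofReal_sum_of_nonneg, ← Finset.mul_sum,
            intervalIntegral.sum_integral_adjacent_intervals]
          · congr 4
            · simp [ha]
            · simp only [ha]
              exact div_self hn0.ne'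
          · intro j _
            exact hGc.intervalIntegrable _ _
          · intro j _
            have : 0 ≤ ∫ u in (a j)..(a (j + 1)), G u :=
              intervalIntegral.integral_nonneg (haj' j) fun u _ => hG0 u
            positivity
  have hcont : Continuous fun ε : ℝ => (C : ℝ≥0∞) * ENNReal.ofReal (M ^ m₁ * M' ^ m₂ *
        ∫ u in (0 : ℝ)..1, χ (P u) * (‖P' u‖ + ε)) := by
    apply (ENNReal.continuous_const_mul ENNReal.coe_ne_top).comp
    apply ENNReal.continuous_ofReal.comp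
    apply Continuous.mul continuous_const
    apply intervalIntegral.continuous_parametric_intervalIntegral_of_continuous'
    have hPc2 : Continuous fun p : ℝ × ℝ => P p.2 := hPc.comp continuous_snd
    have hP'2 : Continuous fun p : ℝ × ℝ => P' p.2 := hP'.comp continuous_snd
    exact (hχ.comp hPc2).mul (hP'2.norm.add continuous_fst)
  have hlim := (hcont.tendsto 0).mono_left (nhdsWithin_le_nhds (s := Ioi (0 : ℝ)))
  simp only [add_zero] at hlim
  apply ge_of_tendsto hlim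
  filter_upwards [self_mem_nhdsWithin] with ε hε
  exact key ε hε

end Pool.Agent.Helper532_SymMCF

end

section

/-!
Lower bound for the Hausdorff measure of the symmetric hypersurface with a given profile curve.
-/

open Set Filter MeasureTheory Topology Metric Module
open scoped ContDiff NNReal ENNReal RealInnerProductSpace

namespace Pool.Agent.Helper532_SymMCF

/-- the spheres around `-b` near the point `W` cover a box under the projection `π` -/
structure Fib {m : ℕ} (b W : EuclideanSpace ℝ (Fin (m + 1))) (k lo hi d : ℝ)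
    (π : EuclideanSpace ℝ (Fin (m + 1)) → (Fin m → ℝ)) : Prop where
  lip : LipschitzWith 1 π
  fib : ∀ y, ‖y‖ ≤ k → ∀ σ ∈ Icc lo hi, ∃ x, ‖b + x‖ = σ ∧ π (b + x) = y ∧ ‖x - W‖ ≤ d

theorem toLp_norm_le {m : ℕ} (y : Fin m → ℝ) : ‖WithLp.toLp 2 y‖ ≤ (m + 1) * ‖y‖ := by
  rw [EuclideanSpace.norm_eq, Real.sqrt_le_left (by positivity)]
  have h1 : ∑ i, ‖(WithLp.toLp 2 y : EuclideanSpace ℝ (Fin m)) i‖ ^ 2 ≤ ∑ _i : Fin m, ‖y‖ ^ 2 := by
    apply Finset.sum_le_sum
    intro i _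
    exact pow_le_pow_left₀ (norm_nonneg _) (norm_le_pi_norm y i) 2
  refine h1.trans ?_
  rw [Finset.sum_const, Finset.card_univ, Fintype.card_fin, nsmul_eq_mul, mul_pow]
  apply mul_le_mul_of_nonneg_right _ (sq_nonneg _)
  nlinarith [Nat.cast_nonneg (α := ℝ) m]

theorem exists_proj {m : ℕ} {e : EuclideanSpace ℝ (Fin (m + 1))} (he : ‖e‖ = 1) :
    ∃ π : EuclideanSpace ℝ (Fin (m + 1)) → (Fin m → ℝ), LipschitzWith 1 π ∧
      ∀ (b : EuclideanSpace ℝ (Fin (m + 1))) (y : Fin m → ℝ) (σ : ℝ), (m + 1) * ‖y‖ ≤ σ →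
        ∃ v : EuclideanSpace ℝ (Fin (m + 1)), ‖v‖ ≤ (m + 1) * ‖y‖ ∧
          ‖b + (v + √(σ ^ 2 - ‖v‖ ^ 2) • e - b)‖ = σ ∧
          π (b + (v + √(σ ^ 2 - ‖v‖ ^ 2) • e - b)) = y := by
  obtain ⟨j, π₀, hj, hπ₀, hjN, hπj⟩ := exists_frame (n := m) (E := EuclideanSpace ℝ (Fin (m + 1)))
    (by simp) he
  refine ⟨fun v => WithLp.ofLp (π₀ v), ?_, ?_⟩
  · apply LipschitzWith.of_dist_le_mul
    intro x y
    rw [NNReal.coe_one, one_mul, dist_eq_norm, dist_eq_norm]
    have h1 : ‖WithLp.ofLp (π₀ x) - WithLp.ofLp (π₀ y)‖ ≤ ‖π₀ (x - y)‖ := by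
      rw [pi_norm_le_iff_of_nonneg (norm_nonneg _)]
      intro i
      have h2 := PiLp.norm_apply_le (π₀ (x - y)) i
      rw [map_sub] at h2 ⊢
      exact h2
    exact h1.trans (hπ₀ _)
  · intro b y σ hσ
    refine ⟨j (WithLp.toLp 2 y), ?_, ?_, ?_⟩
    · rw [hj]; exact toLp_norm_le y
    · rw [add_sub_cancel]
      have hσ0 : 0 ≤ σ := le_trans (by positivity) hσ
      have hv : ‖j (WithLp.toLp 2 y)‖ ≤ σ := by
        rw [hj]; exact (toLp_norm_le y).trans hσ
      have h1 : 0 ≤ σ ^ 2 - ‖j (WithLp.toLp 2 y)‖ ^ 2 := by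
        have := pow_le_pow_left₀ (norm_nonneg _) hv 2
        linarith
      have h2 : ‖j (WithLp.toLp 2 y) + √(σ ^ 2 - ‖j (WithLp.toLp 2 y)‖ ^ 2) • e‖ ^ 2 = σ ^ 2 := by
        rw [norm_add_sq_real, inner_smul_right, hjN, norm_smul, he, Real.norm_eq_abs, mul_one,
          sq_abs, Real.sq_sqrt h1]
        ring
      exact (sq_eq_sq₀ (norm_nonneg _) hσ0).1 h2
    · rw [add_sub_cancel]
      simp only [hπj]

/-- away from the centre -/
theorem fib_N {m : ℕ} {b W : EuclideanSpace ℝ (Fin (m + 1))} {κ : ℝ} (hκ : 0 < κ)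
    (h : 4 * κ ≤ ‖b + W‖) :
    ∃ π, Fib b W (κ / (m + 1)) (‖b + W‖ - κ) (‖b + W‖ + κ) (3 * κ) π := by
  set ρ := ‖b + W‖ with hρ
  have hρ0 : 0 < ρ := by linarith
  set e := ρ⁻¹ • (b + W) with he
  have he1 : ‖e‖ = 1 := by
    rw [he, norm_smul, norm_inv, Real.norm_eq_abs, abs_of_pos hρ0, ← hρ, inv_mul_cancel₀ hρ0.ne']
  have hbW : b + W = ρ • e := by
    rw [he, smul_smul, mul_inv_cancel₀ hρ0.ne', one_smul]
  obtain ⟨π, hπ, hf⟩ := exists_proj he1
  refine ⟨π, hπ, ?_⟩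
  intro y hy σ hσ
  have hm : (0 : ℝ) < m + 1 := by positivity
  have hyκ : (m + 1) * ‖y‖ ≤ κ := by
    have := mul_le_mul_of_nonneg_left hy hm.le
    rwa [mul_div_cancel₀ _ hm.ne'] at this
  have hσ0 : 3 * κ ≤ σ := by linarith [hσ.1]
  obtain ⟨v, hv, h1, h2⟩ := hf b y σ (by linarith)
  refine ⟨_, h1, h2, ?_⟩
  have hvκ : ‖v‖ ≤ κ := hv.trans hyκ
  set t := √(σ ^ 2 - ‖v‖ ^ 2) with ht
  have e1 : v + t • e - b - W = v + (t - ρ) • e := by
    rw [sub_sub, hbW, sub_smul]; abel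
  rw [e1]
  refine (norm_add_le _ _).trans ?_
  rw [norm_smul, he1, mul_one, Real.norm_eq_abs]
  have ht1 : t ≤ σ := by
    rw [ht, Real.sqrt_le_left (by linarith)]
    nlinarith [sq_nonneg ‖v‖]
  have ht2 : σ - κ ≤ t := by
    apply Real.le_sqrt_of_sq_le
    nlinarith [norm_nonneg v, pow_le_pow_left₀ (norm_nonneg v) hvκ 2]
  have : |t - ρ| ≤ 2 * κ := by
    rw [abs_le]
    constructor <;> linarith [hσ.1, hσ.2]
  linarith

/-- around the centre -/
theorem fib_D (m : ℕ) (s hi : ℝ) :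
    ∃ π, Fib (m := m) 0 0 (s / (m + 1)) s hi hi π := by
  obtain ⟨π, hπ, hf⟩ := exists_proj (m := m) (e := EuclideanSpace.single 0 1) (by simp)
  refine ⟨π, hπ, ?_⟩
  intro y hy σ hσ
  have hm : (0 : ℝ) < m + 1 := by positivity
  have hys : (m + 1) * ‖y‖ ≤ s := by
    have := mul_le_mul_of_nonneg_left hy hm.le
    rwa [mul_div_cancel₀ _ hm.ne'] at this
  obtain ⟨v, hv, h1, h2⟩ := hf 0 y σ (hys.trans hσ.1)
  refine ⟨_, h1, h2, ?_⟩
  rw [zero_add] at h1
  rw [sub_zero (G := EuclideanSpace ℝ (Fin (m + 1))), h1]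
  exact hσ.2

/-- Lower bound for the measure above a piece of the profile curve. -/
theorem low_piece {m₁ m₂ : ℕ} {b W : EuclideanSpace ℝ (Fin (m₁ + 1))}
    {b' W' : EuclideanSpace ℝ (Fin (m₂ + 1))} {k lo hi d k' lo' hi' d' : ℝ}
    {π : EuclideanSpace ℝ (Fin (m₁ + 1)) → (Fin m₁ → ℝ)}
    {π' : EuclideanSpace ℝ (Fin (m₂ + 1)) → (Fin m₂ → ℝ)} (h1 : Fib b W k lo hi d π)
    (h2 : Fib b' W' k' lo' hi' d' π') (hk : 0 ≤ k) (hk' : 0 ≤ k') {P : ℝ → ℂ} {u₁ u₂ : ℝ}
    (hu : u₁ ≤ u₂) (hP : ContinuousOn P (Icc u₁ u₂))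
    (hb : ∀ u ∈ Icc u₁ u₂, (P u).re ∈ Icc lo hi ∧ (P u).im ∈ Icc lo' hi') {g : ℂ → ℝ}
    (hg : g = Complex.re ∨ g = Complex.im) :
    ENNReal.ofReal ((2 * k) ^ m₁ * (2 * k') ^ m₂ * |g (P u₂) - g (P u₁)|) ≤
      μH[(m₁ + m₂ + 1 : ℕ)] {Z : V (m₁ + 1) (m₂ + 1) | ‖pr₁ Z - W‖ ≤ d ∧ ‖pr₂ Z - W'‖ ≤ d' ∧
        ∃ u ∈ Ico u₁ u₂, P u = ⟨‖b + pr₁ Z‖, ‖b' + pr₂ Z‖⟩} := by
  classical
  set n : ℕ := m₁ + m₂ + 1 with hn
  let ι := Fin m₁ ⊕ (Fin m₂ ⊕ Unit)
  have hcard : Fintype.card ι = n := by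
    simp [ι, hn, add_assoc]
  set A : Set (V (m₁ + 1) (m₂ + 1)) := {Z | ‖pr₁ Z - W‖ ≤ d ∧ ‖pr₂ Z - W'‖ ≤ d' ∧
        ∃ u ∈ Ico u₁ u₂, P u = ⟨‖b + pr₁ Z‖, ‖b' + pr₂ Z‖⟩} with hA
  let Ψ : V (m₁ + 1) (m₂ + 1) → (ι → ℝ) := fun Z => Sum.elim (π (b + pr₁ Z))
    (Sum.elim (π' (b' + pr₂ Z)) (fun _ => g ⟨‖b + pr₁ Z‖, ‖b' + pr₂ Z‖⟩))
  have hgc : Continuous g := by
    rcases hg with rfl | rfl
    · exact Complex.continuous_re
    · exact Complex.continuous_im
  have hΨ : LipschitzWith 1 Ψ := by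
    apply LipschitzWith.of_dist_le_mul
    intro Z Z'
    rw [NNReal.coe_one, one_mul, dist_pi_le_iff dist_nonneg]
    have a1 : dist (b + pr₁ Z) (b + pr₁ Z') ≤ dist Z Z' := by
      rw [dist_add_left, dist_eq_norm, dist_eq_norm, ← map_sub]
      exact norm_pr₁_le _
    have a2 : dist (b' + pr₂ Z) (b' + pr₂ Z') ≤ dist Z Z' := by
      rw [dist_add_left, dist_eq_norm, dist_eq_norm, ← map_sub]
      exact norm_pr₂_le _
    rintro (i | j | _)
    · have := (h1.lip.dist_le_mul (b + pr₁ Z) (b + pr₁ Z'))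
      rw [NNReal.coe_one, one_mul] at this
      exact ((dist_le_pi_dist _ _ i).trans this).trans a1
    · have := (h2.lip.dist_le_mul (b' + pr₂ Z) (b' + pr₂ Z'))
      rw [NNReal.coe_one, one_mul] at this
      exact ((dist_le_pi_dist _ _ j).trans this).trans a2
    · simp only [Ψ, Sum.elim_inr]
      rcases hg with rfl | rfl
      · simp only
        exact (dist_norm_norm_le _ _).trans (by rw [← dist_eq_norm]; exact a1)
      · simp only
        exact (dist_norm_norm_le _ _).trans (by rw [← dist_eq_norm]; exact a2)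
  let S : ι → Set ℝ := Sum.elim (fun _ => Icc (-k) k) (Sum.elim (fun _ => Icc (-k') k')
    (fun _ => Ioo (min (g (P u₁)) (g (P u₂))) (max (g (P u₁)) (g (P u₂)))))
  have hcov : Set.pi univ S ⊆ Ψ '' A := by
    intro y hy
    rw [mem_univ_pi] at hy
    have y1 : ‖fun i => y (Sum.inl i)‖ ≤ k := by
      rw [pi_norm_le_iff_of_nonneg hk]
      intro i
      have := hy (Sum.inl i)
      exact abs_le.2 this
    have y2 : ‖fun j => y (Sum.inr (Sum.inl j))‖ ≤ k' := by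
      rw [pi_norm_le_iff_of_nonneg hk']
      intro j
      have := hy (Sum.inr (Sum.inl j))
      exact abs_le.2 this
    have y3 : y (Sum.inr (Sum.inr ())) ∈ Ioo (min (g (P u₁)) (g (P u₂)))
        (max (g (P u₁)) (g (P u₂))) := hy (Sum.inr (Sum.inr ()))
    have hivt : y (Sum.inr (Sum.inr ())) ∈ (fun u => g (P u)) '' uIcc u₁ u₂ := by
      apply intermediate_value_uIcc
      · rw [uIcc_of_le hu]
        exact hgc.comp_continuousOn hP
      · exact ⟨y3.1.le, y3.2.le⟩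
    obtain ⟨u, huI, hgu⟩ := hivt
    rw [uIcc_of_le hu] at huI
    simp only at hgu
    have hu2 : u ≠ u₂ := by
      rintro rfl
      rw [← hgu] at y3
      rcases le_total (g (P u₁)) (g (P u)) with h3 | h3
      · rw [max_eq_right h3] at y3
        exact lt_irrefl _ y3.2
      · rw [min_eq_right h3] at y3
        exact lt_irrefl _ y3.1
    obtain ⟨x, x1, x2, x3⟩ := h1.fib _ y1 _ (hb u huI).1
    obtain ⟨x', x1', x2', x3'⟩ := h2.fib _ y2 _ (hb u huI).2
    have p1 : pr₁ (inc₁ x + inc₂ x' : V (m₁ + 1) (m₂ + 1)) = x := by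
      rw [map_add, pr₁_inc₁, pr₁_inc₂, add_zero]
    have p2 : pr₂ (inc₁ x + inc₂ x' : V (m₁ + 1) (m₂ + 1)) = x' := by
      rw [map_add, pr₂_inc₁, pr₂_inc₂, zero_add]
    have hPu : P u = ⟨‖b + x‖, ‖b' + x'‖⟩ := by
      rw [x1, x1']
    refine ⟨inc₁ x + inc₂ x', ⟨by rw [p1]; exact x3, by rw [p2]; exact x3', u,
      ⟨huI.1, lt_of_le_of_ne huI.2 hu2⟩, by rw [p1, p2]; exact hPu⟩, ?_⟩
    ext i
    rcases i with i | j | _
    · simp only [Ψ, Sum.elim_inl, p1, x2]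
    · simp only [Ψ, Sum.elim_inl, Sum.elim_inr, p2, x2']
    · simp only [Ψ, Sum.elim_inr, p1, p2]
      rw [← hPu]
      exact hgu
  have hvol : (volume : Measure (ι → ℝ)) (Set.pi univ S) =
      ENNReal.ofReal ((2 * k) ^ m₁ * (2 * k') ^ m₂ * |g (P u₂) - g (P u₁)|) := by
    rw [volume_pi_pi, Fintype.prod_sum_type, Fintype.prod_sum_type]
    simp only [S, Sum.elim_inl, Sum.elim_inr, Finset.prod_const, Finset.card_univ,
      Fintype.card_fin, Fintype.card_unit, pow_one, Real.volume_Icc, Real.volume_Ioo]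
    rw [ENNReal.ofReal_mul (by positivity), ENNReal.ofReal_mul (by positivity),
      ENNReal.ofReal_pow (by positivity), ENNReal.ofReal_pow (by positivity), mul_assoc]
    have e1 : k - -k = 2 * k := by ring
    have e2 : k' - -k' = 2 * k' := by ring
    have e3 : max (g (P u₁)) (g (P u₂)) - min (g (P u₁)) (g (P u₂)) = |g (P u₂) - g (P u₁)| :=
      max_sub_min_eq_abs _ _
    rw [e1, e2, e3]
  rw [← hvol]
  have hH : (μH[(n : ℝ)] : Measure (ι → ℝ)) = volume := by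
    rw [← hcard]
    exact hausdorffMeasure_pi_real
  rw [← hH]
  calc μH[(n : ℝ)] (Set.pi univ S) ≤ μH[(n : ℝ)] (Ψ '' A) := measure_mono hcov
    _ ≤ (1 : ℝ≥0∞) ^ (n : ℝ) * μH[(n : ℝ)] A := by
      have := hΨ.hausdorffMeasure_image_le (d := (n : ℝ)) (by positivity) A
      simpa using this
    _ = μH[(n : ℝ)] A := by simp

theorem unif₂ {g k : ℝ → ℂ} (hg : Continuous g) (hk : Continuous k) {ε : ℝ} (hε : 0 < ε) :
    ∃ δ > 0, ∀ u ∈ Icc (0 : ℝ) 1, ∀ v ∈ Icc (0 : ℝ) 1, |u - v| ≤ δ →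
      ‖g u - g v‖ ≤ ε ∧ ‖k u - k v‖ ≤ ε := by
  have h1 := isCompact_Icc.uniformContinuousOn_of_continuous (s := Icc (0 : ℝ) 1)
    (hg.prodMk hk).continuousOn
  rw [Metric.uniformContinuousOn_iff] at h1
  obtain ⟨δ, hδ, h⟩ := h1 ε hε
  refine ⟨δ / 2, by positivity, fun u hu v hv huv => ?_⟩
  have h2 := h u hu v hv (by rw [Real.dist_eq]; linarith)
  rw [Prod.dist_eq, max_lt_iff, dist_eq_norm, dist_eq_norm] at h2
  exact ⟨h2.1.le, h2.2.le⟩

/-- From short pieces to the whole curve. -/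
theorem low_curve {E : Type*} [TopologicalSpace E] [MeasurableSpace E] [BorelSpace E]
    (ν : Measure E) {Q : E → ℂ} (hQ : Continuous Q) {R : Set E} (hR : MeasurableSet R)
    {P P' : ℝ → ℂ} (hPd : ∀ u, HasDerivAt P (P' u) u) (hP' : Continuous P')
    (hinj : InjOn P (Ico 0 1)) {c₁ : ℝ} (hc₁ : 0 ≤ c₁) {om : ℝ → ℝ} (hom : Continuous om)
    (hom0 : ∀ x, 0 ≤ om x) (homm : Monotone om) {Kb : Set ℂ} {χ : ℂ → ℝ} (hχ : Continuous χ)
    (hχ0 : ∀ z, 0 ≤ χ z) (hχ1 : ∀ z, χ z ≤ 1) {δ₀ : ℝ} (hδ₀ : 0 < δ₀)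
    (hK : ∀ w, χ w ≠ 0 → ∀ z, dist z w ≤ δ₀ → z ∈ Kb)
    (hH : ∀ u₁ u₂ s₀ : ℝ, 0 ≤ u₁ → u₁ ≤ u₂ → u₂ ≤ 1 → (∀ u ∈ Icc u₁ u₂, P u ∈ Kb ∧ s₀ ≤ (P u).im) →
      ENNReal.ofReal (c₁ * om s₀ * ‖P u₂ - P u₁‖) ≤ ν {Z | Z ∈ R ∧ ∃ u ∈ Ico u₁ u₂, P u = Q Z}) :
    ENNReal.ofReal (c₁ * ∫ u in (0 : ℝ)..1, χ (P u) * om (P u).im * ‖P' u‖) ≤
      ν {Z | Z ∈ R ∧ ∃ u ∈ Ico (0 : ℝ) 1, P u = Q Z} := by
  have hPc : Continuous P := continuous_iff_continuousAt.2 fun u => (hPd u).continuousAt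
  have key : ∀ ε > 0, ENNReal.ofReal (c₁ * ∫ u in (0 : ℝ)..1,
      χ (P u) * om ((P u).im - 2 * ε) * (‖P' u‖ - ε)) ≤
      ν {Z | Z ∈ R ∧ ∃ u ∈ Ico (0 : ℝ) 1, P u = Q Z} := by
    intro ε hε
    set ε' : ℝ := min ε δ₀ with hε'
    have hε'0 : 0 < ε' := by positivity
    have e1 : ε' ≤ ε := min_le_left _ _
    have e2 : ε' ≤ δ₀ := min_le_right _ _
    obtain ⟨δ, hδ, hun⟩ := unif₂ hPc hP' hε'0
    obtain ⟨n₀, hn₀⟩ := exists_nat_one_div_lt hδ
    set n : ℕ := n₀ + 1 with hn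
    have hn0 : (0 : ℝ) < n := by rw [hn]; positivity
    have hnδ : 1 / (n : ℝ) ≤ δ := by
      rw [hn]; push_cast; exact hn₀.le
    set a : ℕ → ℝ := fun j => j / n with ha
    have haj : ∀ j : ℕ, a (j + 1) - a j = 1 / n := by
      intro j
      simp only [ha]
      push_cast
      ring
    have haj' : ∀ j : ℕ, a j < a (j + 1) := fun j => by
      have := haj j
      have : (0 : ℝ) < 1 / n := by positivity
      linarith
    have ha0 : ∀ j : ℕ, 0 ≤ a j := fun j => by simp only [ha]; positivity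
    have ha1 : ∀ j < n, a (j + 1) ≤ 1 := by
      intro j hj
      simp only [ha]
      rw [div_le_one hn0]
      exact_mod_cast hj
    have hmono : ∀ i j : ℕ, i < j → a (i + 1) ≤ a j := by
      intro i j hij
      simp only [ha]
      apply div_le_div_of_nonneg_right _ hn0.le
      exact_mod_cast hij
    have hsub : ∀ j < n, Icc (a j) (a (j + 1)) ⊆ Icc (0 : ℝ) 1 := fun j hj =>
      Icc_subset_Icc (ha0 j) (ha1 j hj)
    have hsub' : ∀ j < n, Ico (a j) (a (j + 1)) ⊆ Ico (0 : ℝ) 1 := fun j hj =>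
      Ico_subset_Ico (ha0 j) (ha1 j hj)
    set G : ℝ → ℝ := fun u => χ (P u) * om ((P u).im - 2 * ε) * (‖P' u‖ - ε) with hG
    have hGc : Continuous G :=
      ((hχ.comp hPc).mul (hom.comp ((Complex.continuous_im.comp hPc).sub continuous_const))).mul
        (hP'.norm.sub continuous_const)
    set B : ℕ → Set E := fun j => {Z | Z ∈ R ∧ ∃ u ∈ Ico (a j) (a (j + 1)), P u = Q Z} with hB
    have hBm : ∀ j < n, MeasurableSet (B j) := by
      intro j hj
      have h1 : MeasurableSet (P '' Ico (a j) (a (j + 1))) :=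
        measurableSet_Ico.image_of_continuousOn_injOn hPc.continuousOn (hinj.mono (hsub' j hj))
      have h2 : B j = R ∩ Q ⁻¹' (P '' Ico (a j) (a (j + 1))) := by
        ext Z
        simp [hB]
      rw [h2]
      exact hR.inter (hQ.measurable h1)
    have hdisj : Set.PairwiseDisjoint (Finset.range n : Set ℕ) B := by
      intro i hi j hj hij
      rw [Function.onFun, Set.disjoint_left]
      rintro Z ⟨_, u, hu, huZ⟩ ⟨_, v, hv, hvZ⟩
      have hi' : i < n := by simpa using hi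
      have hj' : j < n := by simpa using hj
      have huv : u = v := hinj (hsub' i hi' hu) (hsub' j hj' hv) (huZ.trans hvZ.symm)
      subst huv
      rcases lt_or_gt_of_ne hij with h | h
      · have := hmono i j h
        linarith [hu.2, hv.1]
      · have := hmono j i h
        linarith [hv.2, hu.1]
    have hBsub : (⋃ j ∈ Finset.range n, B j) ⊆ {Z | Z ∈ R ∧ ∃ u ∈ Ico (0 : ℝ) 1, P u = Q Z} := by
      intro Z hZ
      rw [mem_iUnion₂] at hZ
      obtain ⟨j, hj, hZR, u, hu, huZ⟩ := hZ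
      exact ⟨hZR, u, hsub' j (Finset.mem_range.1 hj) hu, huZ⟩
    have hpiece : ∀ j ∈ Finset.range n,
        ENNReal.ofReal (c₁ * ∫ u in (a j)..(a (j + 1)), G u) ≤ ν (B j) := by
      intro j hj
      rw [Finset.mem_range] at hj
      have hsj := hsub j hj
      have hosc : ∀ u ∈ Icc (a j) (a (j + 1)), ∀ v ∈ Icc (a j) (a (j + 1)),
          ‖P u - P v‖ ≤ ε' ∧ ‖P' u - P' v‖ ≤ ε' := by
        intro u hu v hv
        apply hun u (hsj hu) v (hsj hv)
        refine le_trans ?_ hnδ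
        rw [← haj j, abs_le]
        constructor <;> linarith [hu.1, hu.2, hv.1, hv.2]
      have haj0 : a j ∈ Icc (a j) (a (j + 1)) := ⟨le_refl _, (haj' j).le⟩
      have haj1 : a (j + 1) ∈ Icc (a j) (a (j + 1)) := ⟨(haj' j).le, le_refl _⟩
      by_cases hz : ∀ v ∈ Icc (a j) (a (j + 1)), χ (P v) = 0
      · have : ∫ u in (a j)..(a (j + 1)), G u = 0 := by
          rw [intervalIntegral.integral_congr (g := fun _ => (0 : ℝ))]
          · simp
          · intro v hv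
            rw [uIcc_of_le (haj' j).le] at hv
            simp only [hG, hz v hv, zero_mul]
        rw [this, mul_zero, ENNReal.ofReal_zero]
        exact zero_le
      · push Not at hz
        obtain ⟨v₀, hv₀, hχv₀⟩ := hz
        set s₀ : ℝ := (P (a j)).im - ε' with hs₀
        have him : ∀ u ∈ Icc (a j) (a (j + 1)), ∀ v ∈ Icc (a j) (a (j + 1)),
            (P u).im ≤ (P v).im + ε' := by
          intro u hu v hv
          have h2 := (Complex.abs_im_le_norm (P u - P v)).trans (hosc u hu v hv).1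
          rw [Complex.sub_im] at h2
          linarith [(abs_le.1 h2).2]
        have h1 := hH (a j) (a (j + 1)) s₀ (ha0 j) (haj' j).le (ha1 j hj) (by
          intro u hu
          refine ⟨hK _ hχv₀ _ ?_, ?_⟩
          · rw [dist_eq_norm]
            exact (hosc u hu v₀ hv₀).1.trans e2
          · have := him _ haj0 u hu
            linarith)
        refine le_trans (ENNReal.ofReal_le_ofReal ?_) h1
        rw [mul_assoc]
        apply mul_le_mul_of_nonneg_left _ hc₁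
        have hint : om s₀ * ‖P (a (j + 1)) - P (a j)‖ = ∫ _u in (a j)..(a (j + 1)),
            om s₀ * (‖P (a (j + 1)) - P (a j)‖ / (a (j + 1) - a j)) := by
          rw [intervalIntegral.integral_const, smul_eq_mul]
          have : a (j + 1) - a j ≠ 0 := by
            have := haj' j
            linarith
          field_simp
        rw [hint]
        apply intervalIntegral.integral_mono_on (haj' j).le (hGc.intervalIntegrable _ _) (by simp)
        intro v hv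
        simp only [hG]
        have h3 : om ((P v).im - 2 * ε) ≤ om s₀ := by
          apply homm
          have := him v hv _ haj0
          linarith
        have h4 : ‖P' v‖ - ε ≤ ‖P (a (j + 1)) - P (a j)‖ / (a (j + 1) - a j) := by
          have hpos : 0 < a (j + 1) - a j := by linarith [haj' j]
          rw [le_div_iff₀ hpos]
          have h5 : ‖(P (a (j + 1)) - a (j + 1) • P' v) - (P (a j) - a j • P' v)‖ ≤
              ε' * ‖a (j + 1) - a j‖ := by
            apply Convex.norm_image_sub_le_of_norm_hasDerivWithin_le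
              (f := fun x : ℝ => P x - x • P' v) (f' := fun x => P' x - (1 : ℝ) • P' v)
              (s := Icc (a j) (a (j + 1)))
            · intro x _
              exact ((hPd x).sub ((hasDerivAt_id x).smul_const (P' v))).hasDerivWithinAt
            · intro x hx
              rw [one_smul]
              exact (hosc x hx v hv).2
            · exact convex_Icc _ _
            · exact haj0
            · exact haj1
          have e6 : (P (a (j + 1)) - a (j + 1) • P' v) - (P (a j) - a j • P' v) =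
              (P (a (j + 1)) - P (a j)) - (a (j + 1) - a j) • P' v := by
            rw [sub_smul]; abel
          rw [e6, Real.norm_eq_abs, abs_of_pos hpos] at h5
          have h6 : ‖(a (j + 1) - a j) • P' v‖ ≤ ‖P (a (j + 1)) - P (a j)‖ +
              ‖(P (a (j + 1)) - P (a j)) - (a (j + 1) - a j) • P' v‖ := by
            have := norm_sub_le (P (a (j + 1)) - P (a j))
              ((P (a (j + 1)) - P (a j)) - (a (j + 1) - a j) • P' v)
            rwa [sub_sub_cancel] at this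
          rw [norm_smul, Real.norm_eq_abs, abs_of_pos hpos] at h6
          have h7 : ε' * (a (j + 1) - a j) ≤ ε * (a (j + 1) - a j) :=
            mul_le_mul_of_nonneg_right e1 hpos.le
          linarith
        rcases le_total (‖P' v‖ - ε) 0 with h5 | h5
        · have h6 : χ (P v) * om ((P v).im - 2 * ε) * (‖P' v‖ - ε) ≤ 0 :=
            mul_nonpos_of_nonneg_of_nonpos (mul_nonneg (hχ0 _) (hom0 _)) h5
          refine h6.trans ?_
          have hpos : 0 < a (j + 1) - a j := by linarith [haj' j]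
          exact mul_nonneg (hom0 _) (div_nonneg (norm_nonneg _) hpos.le)
        · calc χ (P v) * om ((P v).im - 2 * ε) * (‖P' v‖ - ε)
              ≤ 1 * om s₀ * (‖P (a (j + 1)) - P (a j)‖ / (a (j + 1) - a j)) := by
                apply mul_le_mul _ h4 h5 (mul_nonneg zero_le_one (hom0 _))
                exact mul_le_mul (hχ1 _) h3 (hom0 _) zero_le_one
            _ = om s₀ * (‖P (a (j + 1)) - P (a j)‖ / (a (j + 1) - a j)) := by rw [one_mul]
    have hsum : ∑ j ∈ Finset.range n, ∫ u in (a j)..(a (j + 1)), G u =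
        ∫ u in (0 : ℝ)..1, G u := by
      rw [intervalIntegral.sum_integral_adjacent_intervals]
      · congr 1
        · simp [ha]
        · simp only [ha]
          exact div_self hn0.ne'
      · intro j _
        exact hGc.intervalIntegrable _ _
    calc ENNReal.ofReal (c₁ * ∫ u in (0 : ℝ)..1, G u)
        = ENNReal.ofReal (∑ j ∈ Finset.range n, c₁ * ∫ u in (a j)..(a (j + 1)), G u) := by
          rw [← Finset.mul_sum, hsum]
      _ ≤ ∑ j ∈ Finset.range n, ENNReal.ofReal (c₁ * ∫ u in (a j)..(a (j + 1)), G u) := by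
          exact Finset.le_sum_of_subadditive ENNReal.ofReal ENNReal.ofReal_zero.le
            (fun x y => ENNReal.ofReal_add_le) _ _
      _ ≤ ∑ j ∈ Finset.range n, ν (B j) := Finset.sum_le_sum hpiece
      _ = ν (⋃ j ∈ Finset.range n, B j) := by
          rw [measure_biUnion_finset hdisj fun j hj => hBm j (Finset.mem_range.1 hj)]
      _ ≤ _ := measure_mono hBsub
  have hcont : Continuous fun ε : ℝ => ENNReal.ofReal (c₁ * ∫ u in (0 : ℝ)..1,
      χ (P u) * om ((P u).im - 2 * ε) * (‖P' u‖ - ε)) := by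
    apply ENNReal.continuous_ofReal.comp
    apply Continuous.mul continuous_const
    apply intervalIntegral.continuous_parametric_intervalIntegral_of_continuous'
    have hPc2 : Continuous fun p : ℝ × ℝ => P p.2 := hPc.comp continuous_snd
    have hP'2 : Continuous fun p : ℝ × ℝ => P' p.2 := hP'.comp continuous_snd
    exact ((hχ.comp hPc2).mul (hom.comp ((Complex.continuous_im.comp hPc2).sub
      (continuous_const.mul continuous_fst)))).mul (hP'2.norm.sub continuous_fst)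
  have hlim := (hcont.tendsto 0).mono_left (nhdsWithin_le_nhds (s := Ioi (0 : ℝ)))
  simp only [mul_zero, sub_zero] at hlim
  apply le_of_tendsto hlim
  filter_upwards [self_mem_nhdsWithin] with ε hε
  exact key ε hε

end Pool.Agent.Helper532_SymMCF

end

section

/-!
Lower bound for the area above a family of disjoint profile curves.
-/

open Set Filter MeasureTheory Topology Metric Module
open scoped ContDiff NNReal ENNReal RealInnerProductSpace

namespace Pool.Agent.Helper532_SymMCF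

/-- uniform covering of boxes by spheres -/
def FOK {m : ℕ} (b W : EuclideanSpace ℝ (Fin (m + 1))) (κ : ℝ) (om : ℝ → ℝ) : Prop :=
  ∀ s₀, om s₀ = 0 ∨ ∃ k lo hi π, 0 ≤ k ∧ Fib b W k lo hi (3 * κ) π ∧ om s₀ ≤ (2 * k) ^ m ∧
    ∀ s, s₀ ≤ s → |s - ‖b + W‖| ≤ κ → s ∈ Icc lo hi

theorem FOK_N {m : ℕ} {b W : EuclideanSpace ℝ (Fin (m + 1))} {κ : ℝ} (hκ : 0 < κ)
    (h : 4 * κ ≤ ‖b + W‖) : FOK b W κ (fun _ => (2 * (κ / (m + 1))) ^ m) := by
  intro s₀
  obtain ⟨π, hπ⟩ := fib_N hκ h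
  refine Or.inr ⟨_, _, _, π, by positivity, hπ, le_refl _, fun s _ hs => ?_⟩
  have := abs_le.1 hs
  constructor <;> linarith [this.1, this.2]

theorem FOK_D {m : ℕ} (hm : m ≠ 0) {κ : ℝ} (hκ : 0 < κ) :
    FOK (0 : EuclideanSpace ℝ (Fin (m + 1))) 0 κ (fun x => (2 * (max x 0 / (m + 1))) ^ m) := by
  intro s₀
  rcases le_or_gt s₀ 0 with h0 | h0
  · left
    simp only [max_eq_right h0, zero_div, mul_zero]
    exact zero_pow hm
  · right
    obtain ⟨π, hπ⟩ := fib_D m s₀ (3 * κ)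
    refine ⟨_, _, _, π, by positivity, hπ, ?_, fun s hs1 hs2 => ⟨hs1, ?_⟩⟩
    · simp only [max_eq_left h0.le, le_refl]
    · rw [add_zero, norm_zero, sub_zero] at hs2
      have := (abs_le.1 hs2).2
      linarith

theorem low_hH {m₁ m₂ : ℕ} {b W : EuclideanSpace ℝ (Fin (m₁ + 1))}
    {b' W' : EuclideanSpace ℝ (Fin (m₂ + 1))} {κ : ℝ} (hκ : 0 < κ) (hN : 4 * κ ≤ ‖b + W‖)
    {om : ℝ → ℝ} (hF : FOK b' W' κ om) {P : ℝ → ℂ} (hP : Continuous P)
    {u₁ u₂ s₀ : ℝ} (hu : u₁ ≤ u₂)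
    (hb : ∀ u ∈ Icc u₁ u₂, P u ∈ {z : ℂ | |z.re - ‖b + W‖| ≤ κ ∧ |z.im - ‖b' + W'‖| ≤ κ} ∧
      s₀ ≤ (P u).im) :
    ENNReal.ofReal ((2 * (κ / (m₁ + 1))) ^ m₁ / 2 * om s₀ * ‖P u₂ - P u₁‖) ≤
      μH[(m₁ + m₂ + 1 : ℕ)] {Z : V (m₁ + 1) (m₂ + 1) |
        Z ∈ {Z : V (m₁ + 1) (m₂ + 1) | ‖pr₁ Z - W‖ ≤ 3 * κ ∧ ‖pr₂ Z - W'‖ ≤ 3 * κ} ∧
        ∃ u ∈ Ico u₁ u₂, P u = ⟨‖b + pr₁ Z‖, ‖b' + pr₂ Z‖⟩} := by
  rcases hF s₀ with h0 | ⟨k, lo, hi, π', hk, hπ', hom, hs⟩
  · rw [h0, mul_zero, zero_mul, ENNReal.ofReal_zero]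
    exact zero_le
  · obtain ⟨π, hπ⟩ := fib_N hκ hN
    have hbb : ∀ u ∈ Icc u₁ u₂, (P u).re ∈ Icc (‖b + W‖ - κ) (‖b + W‖ + κ) ∧
        (P u).im ∈ Icc lo hi := by
      intro u hu'
      obtain ⟨⟨h1, h2⟩, h3⟩ := hb u hu'
      refine ⟨?_, hs _ h3 h2⟩
      have := abs_le.1 h1
      constructor <;> linarith [this.1, this.2]
    have key : ∀ g : ℂ → ℝ, (g = Complex.re ∨ g = Complex.im) →
        ENNReal.ofReal ((2 * (κ / (m₁ + 1))) ^ m₁ * (2 * k) ^ m₂ * |g (P u₂) - g (P u₁)|) ≤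
        μH[(m₁ + m₂ + 1 : ℕ)] {Z : V (m₁ + 1) (m₂ + 1) |
        Z ∈ {Z : V (m₁ + 1) (m₂ + 1) | ‖pr₁ Z - W‖ ≤ 3 * κ ∧ ‖pr₂ Z - W'‖ ≤ 3 * κ} ∧
        ∃ u ∈ Ico u₁ u₂, P u = ⟨‖b + pr₁ Z‖, ‖b' + pr₂ Z‖⟩} := by
      intro g hg
      refine (low_piece hπ hπ' (by positivity) hk hu hP.continuousOn hbb hg).trans
        (measure_mono ?_)
      rintro Z ⟨h1, h2, h3⟩
      exact ⟨⟨h1, h2⟩, h3⟩
    have hA : 0 ≤ (2 * (κ / (m₁ + 1))) ^ m₁ := by positivity
    have hB : 0 ≤ (2 * k) ^ m₂ := by positivity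
    have hn : ‖P u₂ - P u₁‖ ≤ |(P u₂).re - (P u₁).re| + |(P u₂).im - (P u₁).im| := by
      have := Complex.norm_le_abs_re_add_abs_im (P u₂ - P u₁)
      rwa [Complex.sub_re, Complex.sub_im] at this
    have h1 : (2 * (κ / (m₁ + 1))) ^ m₁ / 2 * om s₀ * ‖P u₂ - P u₁‖ ≤
        (2 * (κ / (m₁ + 1))) ^ m₁ / 2 * (2 * k) ^ m₂ *
          (|(P u₂).re - (P u₁).re| + |(P u₂).im - (P u₁).im|) := by
      have h2 : om s₀ * ‖P u₂ - P u₁‖ ≤ (2 * k) ^ m₂ *
          (|(P u₂).re - (P u₁).re| + |(P u₂).im - (P u₁).im|) := by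
        refine (mul_le_mul_of_nonneg_right hom (norm_nonneg _)).trans ?_
        exact mul_le_mul_of_nonneg_left hn hB
      rw [mul_assoc, mul_assoc ((2 * (κ / (m₁ + 1))) ^ m₁ / 2)]
      exact mul_le_mul_of_nonneg_left h2 (by positivity)
    rcases le_total |(P u₂).re - (P u₁).re| |(P u₂).im - (P u₁).im| with h3 | h3
    · refine le_trans (ENNReal.ofReal_le_ofReal (h1.trans ?_)) (key Complex.im (Or.inr rfl))
      have : (2 * (κ / (m₁ + 1))) ^ m₁ / 2 * (2 * k) ^ m₂ *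
          (|(P u₂).re - (P u₁).re| + |(P u₂).im - (P u₁).im|) ≤
          (2 * (κ / (m₁ + 1))) ^ m₁ / 2 * (2 * k) ^ m₂ * (2 * |(P u₂).im - (P u₁).im|) :=
        mul_le_mul_of_nonneg_left (by linarith) (by positivity)
      linarith
    · refine le_trans (ENNReal.ofReal_le_ofReal (h1.trans ?_)) (key Complex.re (Or.inl rfl))
      have : (2 * (κ / (m₁ + 1))) ^ m₁ / 2 * (2 * k) ^ m₂ *
          (|(P u₂).re - (P u₁).re| + |(P u₂).im - (P u₁).im|) ≤
          (2 * (κ / (m₁ + 1))) ^ m₁ / 2 * (2 * k) ^ m₂ * (2 * |(P u₂).re - (P u₁).re|) :=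
        mul_le_mul_of_nonneg_left (by linarith) (by positivity)
      linarith

/-- Lower bound for a family of disjoint curves. -/
theorem low_fam {m₁ m₂ N : ℕ} {b W : EuclideanSpace ℝ (Fin (m₁ + 1))}
    {b' W' : EuclideanSpace ℝ (Fin (m₂ + 1))} {κ : ℝ} (hκ : 0 < κ) (hN : 4 * κ ≤ ‖b + W‖)
    {om : ℝ → ℝ} (hF : FOK b' W' κ om) (hom : Continuous om) (hom0 : ∀ x, 0 ≤ om x)
    (homm : Monotone om) {P P' : Fin N → ℝ → ℂ} (hPd : ∀ j u, HasDerivAt (P j) (P' j u) u)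
    (hP' : ∀ j, Continuous (P' j))
    (hinj : ∀ j j' : Fin N, ∀ u ∈ Ico (0 : ℝ) 1, ∀ u' ∈ Ico (0 : ℝ) 1, P j u = P j' u' →
      j = j' ∧ u = u')
    {χ : ℂ → ℝ} (hχ : Continuous χ) (hχ0 : ∀ z, 0 ≤ χ z) (hχ1 : ∀ z, χ z ≤ 1) {δ₀ : ℝ}
    (hδ₀ : 0 < δ₀) (hK : ∀ w, χ w ≠ 0 → ∀ z, dist z w ≤ δ₀ →
      z ∈ {z : ℂ | |z.re - ‖b + W‖| ≤ κ ∧ |z.im - ‖b' + W'‖| ≤ κ}) :
    ENNReal.ofReal ((2 * (κ / (m₁ + 1))) ^ m₁ / 2 *
      ∑ j, ∫ u in (0 : ℝ)..1, χ (P j u) * om (P j u).im * ‖P' j u‖) ≤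
      μH[(m₁ + m₂ + 1 : ℕ)] {Z : V (m₁ + 1) (m₂ + 1) | ‖pr₁ Z - W‖ ≤ 3 * κ ∧
        ‖pr₂ Z - W'‖ ≤ 3 * κ ∧ ∃ j u, P j u = ⟨‖b + pr₁ Z‖, ‖b' + pr₂ Z‖⟩} := by
  classical
  set ν : Measure (V (m₁ + 1) (m₂ + 1)) := μH[(m₁ + m₂ + 1 : ℕ)] with hν
  have hPc : ∀ j, Continuous (P j) := fun j =>
    continuous_iff_continuousAt.2 fun u => (hPd j u).continuousAt
  set Q : V (m₁ + 1) (m₂ + 1) → ℂ := fun Z => ⟨‖b + pr₁ Z‖, ‖b' + pr₂ Z‖⟩ with hQ
  have hQc : Continuous Q := by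
    have h : Q = fun Z => ((‖b + pr₁ Z‖ : ℝ) : ℂ) + (‖b' + pr₂ Z‖ : ℝ) * Complex.I := by
      ext Z; exact mk_eq _ _
    rw [h]
    exact (Complex.continuous_ofReal.comp (continuous_const.add pr₁.continuous).norm).add
      ((Complex.continuous_ofReal.comp (continuous_const.add pr₂.continuous).norm).mul
        continuous_const)
  set R : Set (V (m₁ + 1) (m₂ + 1)) :=
    {Z | ‖pr₁ Z - W‖ ≤ 3 * κ ∧ ‖pr₂ Z - W'‖ ≤ 3 * κ} with hR
  have hRm : MeasurableSet R := by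
    have h1 : IsClosed {Z : V (m₁ + 1) (m₂ + 1) | ‖pr₁ Z - W‖ ≤ 3 * κ} :=
      isClosed_le (pr₁.continuous.sub continuous_const).norm continuous_const
    have h2 : IsClosed {Z : V (m₁ + 1) (m₂ + 1) | ‖pr₂ Z - W'‖ ≤ 3 * κ} :=
      isClosed_le (pr₂.continuous.sub continuous_const).norm continuous_const
    exact (h1.inter h2).measurableSet
  have hinj' : ∀ j, InjOn (P j) (Ico 0 1) := fun j u hu u' hu' he =>
    (hinj j j u hu u' hu' he).2
  set B : Fin N → Set (V (m₁ + 1) (m₂ + 1)) :=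
    fun j => {Z | Z ∈ R ∧ ∃ u ∈ Ico (0 : ℝ) 1, P j u = Q Z} with hB
  have hc₁ : 0 ≤ (2 * (κ / (m₁ + 1))) ^ m₁ / 2 := by positivity
  have h1 : ∀ j, ENNReal.ofReal ((2 * (κ / (m₁ + 1))) ^ m₁ / 2 *
      ∫ u in (0 : ℝ)..1, χ (P j u) * om (P j u).im * ‖P' j u‖) ≤ ν (B j) := by
    intro j
    apply low_curve ν hQc hRm (hPd j) (hP' j) (hinj' j) hc₁ hom hom0 homm hχ hχ0 hχ1 hδ₀ hK
    intro u₁ u₂ s₀ _ hu _ hb
    exact low_hH hκ hN hF (hPc j) hu hb
  have hBm : ∀ j, MeasurableSet (B j) := by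
    intro j
    have h1 : MeasurableSet (P j '' Ico 0 1) :=
      measurableSet_Ico.image_of_continuousOn_injOn (hPc j).continuousOn (hinj' j)
    have h2 : B j = R ∩ Q ⁻¹' (P j '' Ico 0 1) := by
      ext Z
      simp [hB]
    rw [h2]
    exact hRm.inter (hQc.measurable h1)
  have hdisj : Set.PairwiseDisjoint ((Finset.univ : Finset (Fin N)) : Set (Fin N)) B := by
    intro i _ j _ hij
    rw [Function.onFun, Set.disjoint_left]
    rintro Z ⟨_, u, hu, huZ⟩ ⟨_, v, hv, hvZ⟩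
    exact hij (hinj i j u hu v hv (huZ.trans hvZ.symm)).1
  calc ENNReal.ofReal ((2 * (κ / (m₁ + 1))) ^ m₁ / 2 *
      ∑ j, ∫ u in (0 : ℝ)..1, χ (P j u) * om (P j u).im * ‖P' j u‖)
      = ENNReal.ofReal (∑ j, (2 * (κ / (m₁ + 1))) ^ m₁ / 2 *
        ∫ u in (0 : ℝ)..1, χ (P j u) * om (P j u).im * ‖P' j u‖) := by
        rw [Finset.mul_sum]
    _ ≤ ∑ j, ENNReal.ofReal ((2 * (κ / (m₁ + 1))) ^ m₁ / 2 *
        ∫ u in (0 : ℝ)..1, χ (P j u) * om (P j u).im * ‖P' j u‖) :=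
        Finset.le_sum_of_subadditive ENNReal.ofReal ENNReal.ofReal_zero.le
            (fun x y => ENNReal.ofReal_add_le) _ _
    _ ≤ ∑ j, ν (B j) := Finset.sum_le_sum fun j _ => h1 j
    _ = ν (⋃ j ∈ (Finset.univ : Finset (Fin N)), B j) := by
        rw [measure_biUnion_finset hdisj fun j _ => hBm j]
    _ ≤ _ := by
        apply measure_mono
        intro Z hZ
        rw [mem_iUnion₂] at hZ
        obtain ⟨j, _, hZR, u, _, huZ⟩ := hZ
        exact ⟨hZR.1, hZR.2, j, u, huZ⟩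

end Pool.Agent.Helper532_SymMCF

end
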