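import Pool.Agent.Helper532_SymMCF.Defs

/-!
Mean curvature flow of closed embedded hypersurfaces of revolution in `ℝ^p × ℝ = ℝ^(n+1)`,
`n = p`, that is, hypersurfaces which are invariant under the group `O(p)` acting on the first
factor.

Such a hypersurface is `{(x, y) : (|x|, y) ∈ Γ}` where the profile `Γ` is a finite union of smooth
closed embedded curves of the plane `ℝ²`, symmetric in the second coordinate axis.
The plane `ℝ²` is identified with `ℂ`, with coordinates `r = re`, `s = im`.
-/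

open Set Filter MeasureTheory Topology
open scoped ContDiff NNReal ENNReal

namespace Pool.Agent.Helper532_SymMCF

/-- `c` is the profile of a smooth mean curvature flow, defined for `0 ≤ t < T`, of closed embedded
hypersurfaces of revolution of `ℝ^p × ℝ`. At every time the profile is the union of the `N`
disjoint closed embedded curves `c j t` (`1`-periodic functions of `u`); it is symmetric in the axis
of rotation `r = 0` and meets it orthogonally. The normal velocity of the profile is the mean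
curvature `κ - (p - 1) ν_r / r` of the hypersurface, where `ν = (ν_r, ν_s)` is the unit normal of
the profile. -/
structure IsRotFlow (p : ℕ) (T : ℝ) (N : ℕ) (c : Fin N → ℝ → ℝ → ℂ) : Prop where
  smooth : ∀ j, ContDiffOn ℝ ∞ (fun z : ℝ × ℝ => c j z.1 z.2) (Ico 0 T ×ˢ univ)
  periodic : ∀ j, ∀ t ∈ Ico 0 T, ∀ u, c j t (u + 1) = c j t u
  immersed : ∀ j, ∀ t ∈ Ico 0 T, ∀ u, deriv (c j t) u ≠ 0
  embedded : ∀ t ∈ Ico 0 T, ∀ j j' u u', c j t u = c j' t u' → j = j' ∧ ∃ k : ℤ, u' = u + k
  symm : ∀ t ∈ Ico 0 T, ∀ j u, ∃ j' u', c j' t u' = ⟨-(c j t u).re, (c j t u).im⟩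
  orth : ∀ t ∈ Ico 0 T, ∀ j u, (c j t u).re = 0 → (deriv (c j t) u).im = 0
  flow : ∀ t ∈ Ioo 0 T, ∀ j u, (c j t u).re ≠ 0 →
    inner ℝ (deriv (fun s => c j s u) t) (nu (deriv (c j t) u)) =
      curv (c j t) u - (p - 1) * (nu (deriv (c j t) u)).re / (c j t u).re

/-- The hypersurface of revolution `M_t` of `ℝ^p × ℝ` with profile `c`. -/
def surfRot (p : ℕ) {N : ℕ} (c : Fin N → ℝ → ℝ → ℂ) (t : ℝ) : Set (V p 1) :=
  {z | ∃ j u, c j t u = ⟨rad₁ z, z (Sum.inr 0)⟩}

end Pool.Agent.Helper532_SymMCF
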