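import Pool.Agent.Helper532_SymMCF.Flows
import Pool.Agent.Helper532_SymMCF.Areas
import Pool.Agent.Helper532_SymMCF.RotDefs

section

/-!
First variation: the profile curves near the axis have small weighted length.
-/

open Set Filter MeasureTheory Topology Metric Module
open scoped ContDiff NNReal ENNReal

namespace Pool.Agent.Helper532_SymMCF

theorem hasDerivAt_absPow {k : ℕ} (hk : 1 ≤ k) (x : ℝ) :
    HasDerivAt (fun x : ℝ => x * |x| ^ k) ((k + 1) * |x| ^ k) x := by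
  obtain ⟨m, rfl⟩ : ∃ m, k = m + 1 := ⟨k - 1, by omega⟩
  rcases lt_trichotomy x 0 with hx | hx | hx
  · have h1 : HasDerivAt (fun x : ℝ => x * (-x) ^ (m + 1))
        (1 * (-x) ^ (m + 1) + x * (((m + 1 : ℕ) : ℝ) * (-x) ^ m * (-1))) x := by
      have h2 := ((hasDerivAt_neg x).pow (m + 1))
      simp only [Nat.add_sub_cancel] at h2
      exact (hasDerivAt_id x).mul h2
    have h3 : HasDerivAt (fun x : ℝ => x * |x| ^ (m + 1))
        (1 * (-x) ^ (m + 1) + x * (((m + 1 : ℕ) : ℝ) * (-x) ^ m * (-1))) x := by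
      refine h1.congr_of_eventuallyEq ?_
      filter_upwards [Iio_mem_nhds hx] with y hy
      rw [abs_of_neg hy]
    refine h3.congr_deriv ?_
    rw [abs_of_neg hx]
    push_cast
    ring
  · subst hx
    have h0 : ((m + 1 : ℕ) + 1 : ℝ) * |(0 : ℝ)| ^ (m + 1) = 0 := by simp
    rw [h0]
    have h1 : HasDerivAt (fun x : ℝ => x * |x| ^ (m + 1)) 0 0 := by
      rw [hasDerivAt_iff_tendsto_slope]
      have h2 : Tendsto (fun x : ℝ => |x| ^ (m + 1)) (𝓝[≠] 0) (𝓝 0) := by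
        have hc : Continuous fun x : ℝ => |x| ^ (m + 1) := by fun_prop
        have := (hc.tendsto 0).mono_left (nhdsWithin_le_nhds (s := {0}ᶜ))
        simpa using this
      refine h2.congr' ?_
      filter_upwards [self_mem_nhdsWithin] with x hx
      have hx0 : x ≠ 0 := hx
      rw [slope_def_field]
      simp only [abs_zero, zero_mul, sub_zero]
      rw [mul_comm, mul_div_assoc, div_self hx0, mul_one]
    exact h1
  · have h1 : HasDerivAt (fun x : ℝ => x * x ^ (m + 1))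
        (1 * x ^ (m + 1) + x * (((m + 1 : ℕ) : ℝ) * x ^ m)) x := by
      have h2 := (hasDerivAt_pow (m + 1) x)
      simp only [Nat.add_sub_cancel] at h2
      exact (hasDerivAt_id x).mul h2
    have h3 : HasDerivAt (fun x : ℝ => x * |x| ^ (m + 1))
        (1 * x ^ (m + 1) + x * (((m + 1 : ℕ) : ℝ) * x ^ m)) x := by
      refine h1.congr_of_eventuallyEq ?_
      filter_upwards [Ioi_mem_nhds hx] with y hy
      rw [abs_of_pos hy]
    refine h3.congr_deriv ?_
    rw [abs_of_pos hx]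
    push_cast
    ring

/-- First variation inequality for closed plane curves. -/
theorem fv {γ : ℝ → ℂ} (hγ : ContDiff ℝ 2 γ) (hper : ∀ u, γ (u + 1) = γ u)
    (himm : ∀ u, deriv γ u ≠ 0) (htr : ∀ u, (γ u).im = 0 → (deriv γ u).im ≠ 0) {k : ℕ}
    (hk : 1 ≤ k) {χ : ℂ → ℝ} (hχ : ContDiff ℝ 1 χ) (hχ0 : ∀ z, 0 ≤ χ z) {B : ℝ → ℝ}
    (hB : Continuous B)
    (hle : ∀ u, (γ u).im ≠ 0 → ‖deriv γ u‖ * |(γ u).im| ^ (k + 1) * (‖fderiv ℝ χ (γ u)‖ +
      χ (γ u) * |curv γ u - (nu (deriv γ u)).im * (k / (γ u).im)|) ≤ B u) :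
    k * ∫ u in (0 : ℝ)..1, χ (γ u) * |(γ u).im| ^ k * ‖deriv γ u‖ ≤ ∫ u in (0 : ℝ)..1, B u := by
  have h1 : ContDiff ℝ 1 (deriv γ) := by
    have : ContDiff ℝ (1 + 1) γ := by
      rw [one_add_one_eq_two]; exact hγ
    exact (contDiff_succ_iff_deriv.1 this).2.2
  have hdc : Continuous (deriv γ) := h1.continuous
  have hγc : Continuous γ := hγ.continuous
  obtain ⟨hcc, hcn⟩ := cont_curv hγ himm
  have hγd : ∀ u, HasDerivAt γ (deriv γ u) u := fun u =>
    (hγ.differentiable (by norm_num) u).hasDerivAt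
  have himd : ∀ u, HasDerivAt (fun u => (γ u).im) (deriv γ u).im u := fun u =>
    Complex.imCLM.hasFDerivAt.comp_hasDerivAt u (hγd u)
  have hχd : ∀ u, HasDerivAt (fun u => χ (γ u)) (fderiv ℝ χ (γ u) (deriv γ u)) u := fun u =>
    ((hχ.differentiable (by norm_num) (γ u)).hasFDerivAt).comp_hasDerivAt u (hγd u)
  have htd : ∀ u, HasDerivAt (fun u => (tg (deriv γ u)).im)
      (curv γ u * ‖deriv γ u‖ * (nu (deriv γ u)).im) u := by
    intro u
    have h2 := tg_deriv (h1.differentiable (by norm_num) u) (himm u)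
    have h3 := Complex.imCLM.hasFDerivAt.comp_hasDerivAt u h2
    rw [Complex.imCLM_apply, Complex.smul_im, smul_eq_mul] at h3
    exact h3
  set Pf : ℝ → ℝ := fun u => χ (γ u) * ((γ u).im * |(γ u).im| ^ k) * (tg (deriv γ u)).im with hPf
  set Pg : ℝ → ℝ := fun u => (fderiv ℝ χ (γ u) (deriv γ u) * ((γ u).im * |(γ u).im| ^ k) +
      χ (γ u) * ((k + 1) * |(γ u).im| ^ k * (deriv γ u).im)) * (tg (deriv γ u)).im +
      χ (γ u) * ((γ u).im * |(γ u).im| ^ k) * (curv γ u * ‖deriv γ u‖ * (nu (deriv γ u)).im)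
    with hPg
  have hPfd : ∀ u, HasDerivAt Pf (Pg u) u := by
    intro u
    have h2 : HasDerivAt (fun u => (γ u).im * |(γ u).im| ^ k)
        ((k + 1) * |(γ u).im| ^ k * (deriv γ u).im) u :=
      HasDerivAt.comp (h₂ := fun x : ℝ => x * |x| ^ k) u (hasDerivAt_absPow hk (γ u).im) (himd u)
    exact ((hχd u).mul h2).mul (htd u)
  have htgc : Continuous fun u => (tg (deriv γ u)).im := by
    have h2 : (fun u => (tg (deriv γ u)).im) = fun u => -(nu (deriv γ u)).re := by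
      ext u
      rw [re_nu, im_tg]; ring
    rw [h2]
    exact (Complex.continuous_re.comp hcn).neg
  have hPfc : Continuous Pg := by
    have a1 : Continuous fun u => fderiv ℝ χ (γ u) (deriv γ u) :=
      ((hχ.continuous_fderiv (by norm_num)).comp hγc).clm_apply hdc
    have a2 : Continuous fun u => (γ u).im := Complex.continuous_im.comp hγc
    have a3 : Continuous fun u => (deriv γ u).im := Complex.continuous_im.comp hdc
    have a4 : Continuous fun u => (nu (deriv γ u)).im := Complex.continuous_im.comp hcn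
    have a5 : Continuous fun u => χ (γ u) := hχ.continuous.comp hγc
    exact (((a1.mul (a2.mul (a2.abs.pow k))).add (a5.mul ((continuous_const.mul
      (a2.abs.pow k)).mul a3))).mul htgc).add ((a5.mul (a2.mul (a2.abs.pow k))).mul
      ((hcc.mul hdc.norm).mul a4))
  have hLc : Continuous fun u => k * (χ (γ u) * |(γ u).im| ^ k * ‖deriv γ u‖) :=
    continuous_const.mul (((hχ.continuous.comp hγc).mul
      ((Complex.continuous_im.comp hγc).abs.pow k)).mul hdc.norm)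
  -- pointwise inequality away from the axis
  have hpt : ∀ u, (γ u).im ≠ 0 →
      k * (χ (γ u) * |(γ u).im| ^ k * ‖deriv γ u‖) ≤ Pg u + B u := by
    intro u hu
    refine le_trans ?_ (add_le_add_right (hle u hu) _)
    set w := deriv γ u with hw
    have hn : 0 < ‖w‖ := norm_pos_iff.2 (himm u)
    set s := (γ u).im with hs
    set x := (tg w).re with hx
    set y := (tg w).im with hy
    have hxy : x ^ 2 + y ^ 2 = 1 := by
      have := norm_sq_C (tg w)
      rw [norm_tg (himm u)] at this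
      linarith
    have hnu : (nu w).im = x := by rw [im_nu, hx, re_tg]
    have hwim : w.im = y * ‖w‖ := by
      rw [hy, im_tg]; field_simp
    set e := curv γ u - (nu w).im * (k / s) with he
    have hcu : curv γ u = e + x * (k / s) := by rw [he, hnu]; ring
    simp only [hPg]
    rw [← hw, ← hs, ← hy, hnu, hcu, hwim]
    set Fx := fderiv ℝ χ (γ u) w with hFx
    have hF : |Fx| ≤ ‖fderiv ℝ χ (γ u)‖ * ‖w‖ := (fderiv ℝ χ (γ u)).le_opNorm w
    set Fn := ‖fderiv ℝ χ (γ u)‖ with hFn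
    have hX := hχ0 (γ u)
    set X := χ (γ u) with hXdef
    have hs0 : 0 < |s| := abs_pos.2 hu
    set a := |s| ^ k with ha
    have ha0 : 0 < a := pow_pos hs0 k
    have hsk : |s| ^ (k + 1) = a * |s| := pow_succ _ _
    rw [hsk]
    have hx1 : |x| ≤ 1 := by
      exact (sq_le_one_iff_abs_le_one x).1 (by linarith [sq_nonneg y])
    have hy1 : |y| ≤ 1 := by
      exact (sq_le_one_iff_abs_le_one y).1 (by linarith [sq_nonneg x])
    -- the three error terms
    have t1 : -(Fn * ‖w‖ * (|s| * a)) ≤ Fx * (s * a) * y := by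
      have : |Fx * (s * a) * y| ≤ Fn * ‖w‖ * (|s| * a) := by
        rw [abs_mul, abs_mul, abs_mul, abs_of_pos ha0]
        calc |Fx| * (|s| * a) * |y| ≤ (Fn * ‖w‖) * (|s| * a) * 1 := by gcongr
          _ = _ := by ring
      exact (abs_le.1 this).1
    have t2 : -(X * (|s| * a) * |e| * ‖w‖) ≤ X * (s * a) * (e * ‖w‖ * x) := by
      have : |X * (s * a) * (e * ‖w‖ * x)| ≤ X * (|s| * a) * |e| * ‖w‖ := by
        rw [abs_mul, abs_mul, abs_mul, abs_mul, abs_mul, abs_of_nonneg hX, abs_of_pos ha0, abs_norm]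
        calc X * (|s| * a) * (|e| * ‖w‖ * |x|) ≤ X * (|s| * a) * (|e| * ‖w‖ * 1) := by gcongr
          _ = _ := by ring
      exact (abs_le.1 this).1
    have t3 : X * (s * a) * (x * (k / s) * ‖w‖ * x) = X * a * k * x ^ 2 * ‖w‖ := by
      field_simp
    have e1 : (Fx * (s * a) + X * ((k + 1) * a * (y * ‖w‖))) * y +
        X * (s * a) * ((e + x * (k / s)) * ‖w‖ * x) =
        Fx * (s * a) * y + X * (s * a) * (e * ‖w‖ * x) + X * (k + 1) * a * y ^ 2 * ‖w‖ +
        X * (s * a) * (x * (k / s) * ‖w‖ * x) := by ring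
    rw [e1, t3]
    have e2 : X * (k + 1) * a * y ^ 2 * ‖w‖ + X * a * k * x ^ 2 * ‖w‖ =
        k * (X * a * ‖w‖) + X * a * y ^ 2 * ‖w‖ := by
      have : x ^ 2 = 1 - y ^ 2 := by linarith
      rw [this]; ring
    have t4 : 0 ≤ X * a * y ^ 2 * ‖w‖ := by positivity
    have e3 : ‖w‖ * (a * |s|) * (Fn + X * |e|) = Fn * ‖w‖ * (|s| * a) +
        X * (|s| * a) * |e| * ‖w‖ := by ring
    rw [e3]
    linarith
  -- everywhere, by density
  have hall : ∀ u, k * (χ (γ u) * |(γ u).im| ^ k * ‖deriv γ u‖) ≤ Pg u + B u := by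
    intro u
    by_cases hu : (γ u).im = 0
    · have h2 : ∀ᶠ v in 𝓝[≠] u, (γ v).im ≠ 0 := (himd u).eventually_ne (htr u hu)
      have h3 : Tendsto (fun u => k * (χ (γ u) * |(γ u).im| ^ k * ‖deriv γ u‖)) (𝓝[≠] u)
          (𝓝 (k * (χ (γ u) * |(γ u).im| ^ k * ‖deriv γ u‖))) :=
        (hLc.tendsto u).mono_left nhdsWithin_le_nhds
      have h4 : Tendsto (fun u => Pg u + B u) (𝓝[≠] u) (𝓝 (Pg u + B u)) :=
        ((hPfc.add hB).tendsto u).mono_left nhdsWithin_le_nhds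
      exact le_of_tendsto_of_tendsto h3 h4 (h2.mono fun v hv => hpt v hv)
    · exact hpt u hu
  have hderper : deriv γ 1 = deriv γ 0 := by
    have h2 : HasDerivAt (fun v => γ (v + 1)) (deriv γ (0 + 1)) 0 :=
      (hγd (0 + 1)).comp_add_const 0 1
    have h3 : (fun v => γ (v + 1)) = γ := by ext v; exact hper v
    rw [h3, zero_add] at h2
    exact h2.deriv.symm
  have hint : ∫ u in (0 : ℝ)..1, Pg u = 0 := by
    rw [intervalIntegral.integral_eq_sub_of_hasDerivAt (fun u _ => hPfd u)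
      (hPfc.intervalIntegrable _ _)]
    have h2 : γ 1 = γ 0 := by
      have := hper 0
      rwa [zero_add] at this
    simp only [hPf, h2, hderper, sub_self]
  calc k * ∫ u in (0 : ℝ)..1, χ (γ u) * |(γ u).im| ^ k * ‖deriv γ u‖
      = ∫ u in (0 : ℝ)..1, k * (χ (γ u) * |(γ u).im| ^ k * ‖deriv γ u‖) := by
        rw [intervalIntegral.integral_const_mul]
    _ ≤ ∫ u in (0 : ℝ)..1, (Pg u + B u) := by
        apply intervalIntegral.integral_mono_on zero_le_one (hLc.intervalIntegrable _ _)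
          ((hPfc.add hB).intervalIntegrable _ _)
        intro u _
        exact hall u
    _ = ∫ u in (0 : ℝ)..1, B u := by
        rw [intervalIntegral.integral_add (hPfc.intervalIntegrable _ _)
          (hB.intervalIntegrable _ _), hint, zero_add]

variable {p q N : ℕ} {T : ℝ} {c : Fin N → ℝ → ℝ → ℂ}

/-- The curvature of the profile in terms of the dissipated quantity. -/
theorem curv_id (h : PFlow p q T N c) (hp : 1 ≤ p) (hq : 2 ≤ q) (α β : ℝ) {t : ℝ}
    (ht : t ∈ Ioo 0 T) (j : Fin N) (u : ℝ) (hr : (c j t u).re ≠ 0) (hs : (c j t u).im ≠ 0) :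
    curv (c j t) u = Vd T (p - 1) (q - 1) α β (rr c j) (ss c j) (t, u) +
      (nu (deriv (c j t) u)).re * ((c j t u).re * elG (p - 1 : ℕ) α (c j t u).re (T - t) +
        (p - 1 : ℕ) / (c j t u).re) +
      (nu (deriv (c j t) u)).im * ((c j t u).im * elG (q - 1 : ℕ) β (c j t u).im (T - t) +
        (q - 1 : ℕ) / (c j t u).im) := by
  have hspd : spd (rr c j) (ss c j) (t, u) = ‖deriv (c j t) u‖ := spd_eq h j ht u
  have hVd : Vd T (p - 1) (q - 1) α β (rr c j) (ss c j) (t, u) =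
      inner ℝ (deriv (fun s => c j s u) t) (nu (deriv (c j t) u)) -
      ((nu (deriv (c j t) u)).re * ((c j t u).re * elG (p - 1 : ℕ) α (c j t u).re (T - t)) +
        (nu (deriv (c j t) u)).im * ((c j t u).im * elG (q - 1 : ℕ) β (c j t u).im (T - t))) := by
    unfold Vd
    rw [hspd, rr_u h j ht, ss_u h j ht, rr_t h j ht, ss_t h j ht, inner_nu, re_nu, im_nu]
    have hr' : rr c j (t, u) = (c j t u).re := rfl
    have hs' : ss c j (t, u) = (c j t u).im := rfl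
    rw [hr', hs']
    ring
  have hfl := h.flow t ht j u (Or.inl hr) (Or.inl hs)
  have e1 : ((p - 1 : ℕ) : ℝ) = (p : ℝ) - 1 := by
    rw [Nat.cast_sub (by omega)]; simp
  have e2 : ((q - 1 : ℕ) : ℝ) = (q : ℝ) - 1 := by
    rw [Nat.cast_sub (by omega)]; simp
  rw [← e1, ← e2] at hfl
  rw [hVd, hfl]
  ring

theorem elG_zero (k s τ : ℝ) : elG k 0 s τ = -1 / (2 * τ) := by
  unfold elG
  simp

/-- The weighted length of the profile near the axis is small. -/
theorem mass_est (h : PFlow p q T N c) (hp : 1 ≤ p) (hq : 2 ≤ q) {α τ l D C₁ CF r₁ δ' : ℝ}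
    (hl : 0 < l) (hτ : 0 < τ) (ht : T - τ / l ^ 2 ∈ Ioo 0 T) {z₁ : ℂ} (hr₁ : 0 ≤ r₁)
    (hδ' : 0 < δ') (hD : 0 ≤ D) (hCF : 0 ≤ CF) (hz₁ : z₁.im = 0)
    {χ : ℂ → ℝ} (hχ : ContDiff ℝ 1 χ) (hχ0 : ∀ z, 0 ≤ χ z) (hχ1 : ∀ z, χ z ≤ 1)
    (hχD : ∀ z, ‖fderiv ℝ χ z‖ ≤ D) (hχs : ∀ z, z ∉ closedBall z₁ r₁ → χ z = 0 ∧ fderiv ℝ χ z = 0)
    (g1 : ∀ ζ ∈ closedBall z₁ r₁,
      |l⁻¹ * ((α + l⁻¹ * ζ.re) * elG (p - 1 : ℕ) α (α + l⁻¹ * ζ.re) (τ / l ^ 2) +
      (p - 1 : ℕ) / (α + l⁻¹ * ζ.re))| ≤ CF)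
    (w1 : ∀ ζ ∈ closedBall z₁ r₁, α + l⁻¹ * ζ.re ≠ 0 ∧
      Real.log l - C₁ ≤ (p - 1 : ℕ) * Real.log |α + l⁻¹ * ζ.re| +
      ell (p - 1 : ℕ) α (α + l⁻¹ * ζ.re) (τ / l ^ 2))
    (hS : ∀ j u, l • (c j (T - τ / l ^ 2) u - ⟨α, 0⟩) ∈ closedBall z₁ r₁ →
      |l * (c j (T - τ / l ^ 2) u).im| ≤ δ') (j : Fin N) :
    (q - 1 : ℕ) * (l ^ (q - 1 + 1) * ∫ u in (0 : ℝ)..1, χ (l • (c j (T - τ / l ^ 2) u - ⟨α, 0⟩)) *
      |(c j (T - τ / l ^ 2) u).im| ^ (q - 1) * ‖deriv (c j (T - τ / l ^ 2)) u‖) ≤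
    δ' * ((D + (CF + r₁ / (2 * τ)) + 1) / Real.exp (1 / 2 * Real.log τ - C₁ -
      (((q - 1 : ℕ) + 1) / 2 * Real.log τ + r₁ ^ 2 / (4 * τ) - gk (q - 1 : ℕ) 0))) *
      ((∫ u in (0 : ℝ)..1, Wt T (p - 1) (q - 1) α 0 (rr c j) (ss c j) (T - τ / l ^ 2, u) *
        spd (rr c j) (ss c j) (T - τ / l ^ 2, u)) + (l ^ 2)⁻¹ *
        ∫ u in (0 : ℝ)..1, Dd T (p - 1) (q - 1) α 0 (rr c j) (ss c j) (T - τ / l ^ 2, u)) := by
  set t := T - τ / l ^ 2 with htdef
  have hTt : T - t = τ / l ^ 2 := by rw [htdef]; ring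
  have hfam := toFam h hp (by omega) j
  set k : ℕ := q - 1 with hk
  have hk1 : 1 ≤ k := by omega
  set C₂ : ℝ := (k + 1) / 2 * Real.log τ + r₁ ^ 2 / (4 * τ) - gk k 0 with hC₂
  set c₀ : ℝ := Real.exp (1 / 2 * Real.log τ - C₁ - C₂) with hc₀
  have hc₀pos : 0 < c₀ := Real.exp_pos _
  set C₃ : ℝ := CF + r₁ / (2 * τ) with hC₃
  have hC₃0 : 0 ≤ C₃ := by positivity
  set γ := c j t with hγ
  have hγ2 : ContDiff ℝ 2 γ := (h.slice j ht).of_le ENat.LEInfty.out
  have htr : ∀ u, (γ u).im = 0 → (deriv γ u).im ≠ 0 := by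
    intro u hu h0
    have h1 := h.orth₂ hq t (Ioo_subset_Ico_self ht) j u hu
    exact h.immersed j t (Ioo_subset_Ico_self ht) u (Complex.ext h1 h0)
  set χ' : ℂ → ℝ := fun z => χ (l • (z - ⟨α, 0⟩)) with hχ'
  have hχ'c : ContDiff ℝ 1 χ' :=
    hχ.comp ((contDiff_id.sub contDiff_const).const_smul l)
  have hχ'd : ∀ z, ‖fderiv ℝ χ' z‖ ≤ l * ‖fderiv ℝ χ (l • (z - ⟨α, 0⟩))‖ := by
    intro z
    have h1 : HasFDerivAt (fun z : ℂ => l • (z - ⟨α, 0⟩)) (l • ContinuousLinearMap.id ℝ ℂ) z :=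
      ((hasFDerivAt_id z).sub_const _).const_smul l
    have h2 := ((hχ.differentiable (by norm_num) (l • (z - ⟨α, 0⟩))).hasFDerivAt).comp z h1
    have h3 : fderiv ℝ χ' z = (fderiv ℝ χ (l • (z - ⟨α, 0⟩))).comp
        (l • ContinuousLinearMap.id ℝ ℂ) := h2.fderiv
    rw [h3, ContinuousLinearMap.comp_smul, ContinuousLinearMap.comp_id, norm_smul,
      Real.norm_eq_abs, abs_of_pos hl]
  set Wd : ℝ → ℝ := fun u => Wt T (p - 1) k α 0 (rr c j) (ss c j) (t, u) *
    spd (rr c j) (ss c j) (t, u) with hWd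
  set Dx : ℝ → ℝ := fun u => Dd T (p - 1) k α 0 (rr c j) (ss c j) (t, u) with hDx
  have hWc : Continuous Wd := cont_snd ((Wt_cont hfam α 0).mul (spd_smooth hfam).continuousOn) ht
  have hDc : Continuous Dx := cont_snd (Dd_cont hfam α 0) ht
  have hW0 : ∀ u, 0 ≤ Wd u := fun u => mul_nonneg (Wt_nonneg _ _ _ _ _ _ _ _) (Real.sqrt_nonneg _)
  have hD0 : ∀ u, 0 ≤ Dx u := fun u => Dd_nonneg _ _ _ _ _ _ _ _
  set A : ℝ := δ' * ((D + C₃ + 1) / c₀) with hA
  have hA0 : 0 ≤ A := by positivity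
  set B : ℝ → ℝ := fun u => (l ^ (k + 1))⁻¹ * (A * (Wd u + (l ^ 2)⁻¹ * Dx u)) with hB
  have hBc : Continuous B :=
    continuous_const.mul (continuous_const.mul (hWc.add (continuous_const.mul hDc)))
  have hB0 : ∀ u, 0 ≤ B u := by
    intro u
    have := hW0 u
    have := hD0 u
    simp only [hB]
    positivity
  have hfv := fv hγ2 (h.periodic j t (Ioo_subset_Ico_self ht))
    (h.immersed j t (Ioo_subset_Ico_self ht)) htr hk1 hχ'c (fun z => hχ0 _) hBc (by
      intro u hs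
      set ζ : ℂ := l • (γ u - ⟨α, 0⟩) with hζ
      by_cases hin : ζ ∈ closedBall z₁ r₁
      swap
      · obtain ⟨h1, h2⟩ := hχs ζ hin
        have h3 : χ' (γ u) = 0 := h1
        have h4 : ‖fderiv ℝ χ' (γ u)‖ = 0 := by
          have := hχ'd (γ u)
          rw [← hζ, h2, norm_zero, mul_zero] at this
          exact le_antisymm this (norm_nonneg _)
        rw [h3, h4, zero_mul, add_zero, mul_zero]
        exact hB0 u
      set s := (γ u).im with hsdef
      set r := (γ u).re with hrdef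
      have hr : α + l⁻¹ * ζ.re = r := by
        rw [hζ]
        simp only [Complex.smul_re, Complex.sub_re, smul_eq_mul]
        field_simp
        ring
      have hsl : ζ.im = l * s := by
        rw [hζ]
        simp only [Complex.smul_im, Complex.sub_im, smul_eq_mul, sub_zero]
        rfl
      have hG := g1 ζ hin
      have hW1 := w1 ζ hin
      rw [hr] at hG hW1
      have hSu : |l * s| ≤ δ' := hS j u hin
      have hSr : |l * s| ≤ r₁ := by
        rw [← hsl]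
        rw [mem_closedBall, dist_eq_norm] at hin
        have := (Complex.abs_im_le_norm (ζ - z₁)).trans hin
        rwa [Complex.sub_im, hz₁, sub_zero] at this
      set w := deriv γ u with hw
      have hw0 : w ≠ 0 := h.immersed j t (Ioo_subset_Ico_self ht) u
      have hn : 0 < ‖w‖ := norm_pos_iff.2 hw0
      have hspd : spd (rr c j) (ss c j) (t, u) = ‖w‖ := spd_eq h j ht u
      have hid := curv_id h hp hq α 0 ht j u hW1.1 hs
      rw [← hγ, ← hw, ← hrdef, ← hsdef, hTt, ← hk] at hid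
      set X := Vd T (p - 1) k α 0 (rr c j) (ss c j) (t, u) with hX
      have hnn : ‖nu w‖ = 1 := by
        unfold nu
        rw [norm_mul, Complex.norm_I, norm_tg hw0, one_mul]
      have hn1 : |(nu w).re| ≤ 1 := (Complex.abs_re_le_norm _).trans hnn.le
      have hn2 : |(nu w).im| ≤ 1 := (Complex.abs_im_le_norm _).trans hnn.le
      -- the error term
      have he : |curv γ u - (nu w).im * (k / s)| ≤ |X| + l * C₃ := by
        have e1 : curv γ u - (nu w).im * (k / s) = X +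
            (nu w).re * (r * elG (p - 1 : ℕ) α r (τ / l ^ 2) + (p - 1 : ℕ) / r) +
            (nu w).im * (s * elG k 0 s (τ / l ^ 2)) := by
          rw [hid]; ring
        rw [e1]
        refine (abs_add_three _ _ _).trans ?_
        have h1 : |r * elG (p - 1 : ℕ) α r (τ / l ^ 2) + (p - 1 : ℕ) / r| ≤ l * CF := by
          rw [abs_mul, abs_inv, abs_of_pos hl, inv_mul_le_iff₀ hl] at hG
          exact hG
        have h2 : |s * elG k 0 s (τ / l ^ 2)| ≤ l * (r₁ / (2 * τ)) := by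
          rw [elG_zero]
          have e2 : s * (-1 / (2 * (τ / l ^ 2))) = -(l * ((l * s) / (2 * τ))) := by
            field_simp
          rw [e2, abs_neg, abs_mul, abs_of_pos hl, abs_div, abs_of_pos (by positivity : 0 < 2 * τ)]
          gcongr
        rw [abs_mul (nu w).re, abs_mul (nu w).im]
        have h3 := mul_le_mul hn1 h1 (abs_nonneg _) zero_le_one
        have h4 := mul_le_mul hn2 h2 (abs_nonneg _) zero_le_one
        rw [hC₃]
        linarith
      -- the weight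
      have hWt : c₀ * l ^ (k + 1) * |s| ^ k ≤ Wt T (p - 1) k α 0 (rr c j) (ss c j) (t, u) := by
        have hr' : rr c j (t, u) = r := rfl
        have hs' : ss c j (t, u) = s := rfl
        have hra : 0 < |r| := abs_pos.2 hW1.1
        unfold Wt Lf
        simp only [hTt, hr', hs']
        have e4 : |r| ^ (p - 1) = Real.exp ((p - 1 : ℕ) * Real.log |r|) := by
          rw [mul_comm, ← Real.rpow_def_of_pos hra, Real.rpow_natCast]
        have e6 : c₀ * l ^ (k + 1) = Real.exp (1 / 2 * Real.log τ - C₁ - C₂ +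
            (k + 1 : ℕ) * Real.log l) := by
          rw [Real.exp_add, mul_comm ((k + 1 : ℕ) : ℝ), ← Real.rpow_def_of_pos hl,
            Real.rpow_natCast]
        rw [e4, e6, ← Real.exp_add]
        apply mul_le_mul_of_nonneg_right _ (by positivity)
        apply Real.exp_le_exp.2
        have e7 : ell k 0 s (τ / l ^ 2) = -((k + 1) / 2) * (Real.log τ - 2 * Real.log l) -
            (l * s) ^ 2 / (4 * τ) + gk k 0 := by
          unfold ell
          rw [Real.log_div hτ.ne' (by positivity), Real.log_pow, mul_zero, zero_div]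
          push_cast
          field_simp
          ring
        rw [e7, Real.log_div hτ.ne' (by positivity), Real.log_pow]
        have h5 : (l * s) ^ 2 / (4 * τ) ≤ r₁ ^ 2 / (4 * τ) := by
          have : (l * s) ^ 2 ≤ r₁ ^ 2 := by
            rw [← sq_abs]; exact pow_le_pow_left₀ (abs_nonneg _) hSr 2
          gcongr
        have h6 := hW1.2
        push_cast
        rw [hC₂]
        linarith
      have hWd' : c₀ * l ^ (k + 1) * |s| ^ k * ‖w‖ ≤ Wd u := by
        simp only [hWd]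
        rw [hspd]
        exact mul_le_mul_of_nonneg_right hWt hn.le
      have hDd' : c₀ * l ^ (k + 1) * |s| ^ k * ‖w‖ * X ^ 2 ≤ Dx u := by
        simp only [hDx]
        unfold Dd
        rw [hspd]
        gcongr
      -- the cut-off
      have hc1 : ‖fderiv ℝ χ' (γ u)‖ ≤ l * D :=
        (hχ'd (γ u)).trans (mul_le_mul_of_nonneg_left (hχD _) hl.le)
      have hc2 : χ' (γ u) * |curv γ u - (nu w).im * (k / s)| ≤ |X| + l * C₃ := by
        have h5 : χ' (γ u) ≤ 1 := hχ1 _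
        have h6 : 0 ≤ χ' (γ u) := hχ0 _
        calc χ' (γ u) * |curv γ u - (nu w).im * (k / s)|
            ≤ 1 * (|X| + l * C₃) := mul_le_mul h5 he (abs_nonneg _) zero_le_one
          _ = _ := one_mul _
      have hs0 : 0 < |s| := abs_pos.2 hs
      have hls : |s| ≤ δ' / l := by
        rw [le_div_iff₀ hl]
        rw [abs_mul, abs_of_pos hl] at hSu
        linarith
      have hXl : |X| / l ≤ 1 + (X / l) ^ 2 := by
        have e8 : |X| / l = |X / l| := by rw [abs_div, abs_of_pos hl]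
        rw [e8, ← sq_abs (X / l)]
        linarith [sq_nonneg (|X / l| - 1), abs_nonneg (X / l)]
      have hcn : 0 ≤ χ' (γ u) := hχ0 _
      calc ‖w‖ * |s| ^ (k + 1) * (‖fderiv ℝ χ' (γ u)‖ + χ' (γ u) *
            |curv γ u - (nu w).im * (k / s)|)
          ≤ ‖w‖ * (|s| ^ k * (δ' / l)) * (l * D + (|X| + l * C₃)) := by
            rw [pow_succ]
            gcongr
        _ = δ' * (‖w‖ * |s| ^ k) * (D + C₃ + |X| / l) := by
            field_simp
            ring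
        _ ≤ δ' * (‖w‖ * |s| ^ k) * ((D + C₃ + 1) * (1 + (X / l) ^ 2)) := by
            apply mul_le_mul_of_nonneg_left _ (by positivity)
            have : 0 ≤ (D + C₃) * (X / l) ^ 2 := by positivity
            linarith
        _ = (l ^ (k + 1))⁻¹ * (A * (c₀ * l ^ (k + 1) * |s| ^ k * ‖w‖ + (l ^ 2)⁻¹ *
              (c₀ * l ^ (k + 1) * |s| ^ k * ‖w‖ * X ^ 2))) := by
            rw [hA]
            field_simp
        _ ≤ B u := by
            simp only [hB]
            gcongr)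
  have hfin : ∫ u in (0 : ℝ)..1, B u = (l ^ (k + 1))⁻¹ * (A * ((∫ u in (0 : ℝ)..1, Wd u) +
      (l ^ 2)⁻¹ * ∫ u in (0 : ℝ)..1, Dx u)) := by
    have hDc' : Continuous fun u => (l ^ 2)⁻¹ * Dx u := continuous_const.mul hDc
    have hadd : ∫ u in (0 : ℝ)..1, (Wd u + (l ^ 2)⁻¹ * Dx u) = (∫ u in (0 : ℝ)..1, Wd u) +
        ∫ u in (0 : ℝ)..1, (l ^ 2)⁻¹ * Dx u :=
      intervalIntegral.integral_add (hWc.intervalIntegrable _ _) (hDc'.intervalIntegrable _ _)
    simp only [hB]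
    rw [intervalIntegral.integral_const_mul, intervalIntegral.integral_const_mul, hadd,
      intervalIntegral.integral_const_mul]
  rw [hfin] at hfv
  have hlk : 0 < l ^ (k + 1) := by positivity
  have := mul_le_mul_of_nonneg_left hfv hlk.le
  rw [← mul_assoc (l ^ (k + 1)) (l ^ (k + 1))⁻¹, mul_inv_cancel₀ hlk.ne', one_mul] at this
  refine le_trans (le_of_eq ?_) this
  ring

end Pool.Agent.Helper532_SymMCF

end

section

/-!
Points of an axis away from the limit set do not belong to the support of the limit measure.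
-/

open Set Filter MeasureTheory Topology Metric Module
open scoped ContDiff NNReal ENNReal

namespace Pool.Agent.Helper532_SymMCF

variable {p q N : ℕ} {T : ℝ} {c : Fin N → ℝ → ℝ → ℂ}

theorem area_curve' (hp : 1 ≤ p) (hq : 1 ≤ q) {e : EuclideanSpace ℝ (Fin p)} (he : ‖e‖ = 1) :
    ∃ C : ℝ≥0, ∀ (b : EuclideanSpace ℝ (Fin p)) (ρ M δ₀ : ℝ) (P P' : ℝ → ℂ) (K : Set ℂ)
      (χ : ℂ → ℝ), 0 < ρ → 0 ≤ M → M ≤ ρ / 2 → (∀ u, HasDerivAt P (P' u) u) → Continuous P' →
      Continuous χ → (∀ z, 0 ≤ χ z) → 0 < δ₀ → (∀ w ∈ K, ∀ z, dist z w ≤ δ₀ → 1 ≤ χ z) →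
      μH[(p + q - 1 : ℕ)] {Z : V p q | ‖b + pr₁ Z - ρ • e‖ ≤ M ∧
        (⟨‖b + pr₁ Z‖, ‖pr₂ Z‖⟩ : ℂ) ∈ K ∧ ∃ u ∈ Icc (0 : ℝ) 1, P u = ⟨‖b + pr₁ Z‖, ‖pr₂ Z‖⟩} ≤
      C * ENNReal.ofReal (M ^ (p - 1) *
        ∫ u in (0 : ℝ)..1, χ (P u) * |(P u).im| ^ (q - 1) * ‖P' u‖) := by
  obtain ⟨m₁, rfl⟩ : ∃ m₁, p = m₁ + 1 := ⟨p - 1, by omega⟩
  obtain ⟨m₂, rfl⟩ : ∃ m₂, q = m₂ + 1 := ⟨q - 1, by omega⟩
  have e1 : m₁ + 1 + (m₂ + 1) - 1 = m₁ + m₂ + 1 := by omega
  rw [e1]
  simp only [Nat.add_sub_cancel]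
  exact area_curve he

theorem Phi_mono (h : PFlow p q T N c) (hp : 1 ≤ p) (hq : 1 ≤ q) (α β : ℝ) {t₁ t₂ : ℝ}
    (h1 : t₁ ∈ Ioo 0 T) (h2 : t₂ ∈ Ioo 0 T) (h12 : t₁ ≤ t₂) :
    Phi p q T c α β t₂ ≤ Phi p q T c α β t₁ := by
  unfold Phi
  apply Finset.sum_le_sum
  intro j _
  have := mono_main (toFam h hp (by omega) j) α β h1 h2 h12
  have h3 : 0 ≤ ∫ t in t₁..t₂, ∫ u in (0 : ℝ)..1,
      Dd T (p - 1) (q - 1) α β (rr c j) (ss c j) (t, u) := by
    apply intervalIntegral.integral_nonneg h12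
    intro t _
    apply intervalIntegral.integral_nonneg zero_le_one
    intro u _
    exact Dd_nonneg _ _ _ _ _ _ _ _
  linarith

theorem Phs_rot {γ : Fin N → ℝ → ℂ} {l : ℝ} {z₀ z : ℂ} {θ : ℝ} (h : (z, θ) ∈ Phs γ l z₀) :
    (z, θ + Real.pi) ∈ Phs γ l z₀ ∧ (z, θ - Real.pi) ∈ Phs γ l z₀ := by
  obtain ⟨j, u, h1, h2⟩ := h
  simp only at h1 h2
  have e2 : ex (θ - Real.pi) = -ex θ := by
    have := ex_add_pi (θ - Real.pi)
    rw [sub_add_cancel] at this
    rw [this, neg_neg]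
  constructor
  · refine ⟨j, u, h1, ?_⟩
    simp only [ex_add_pi]
    rcases h2 with h2 | h2
    · right; rw [h2]
    · left; rw [h2, neg_neg]
  · refine ⟨j, u, h1, ?_⟩
    simp only [e2]
    rcases h2 with h2 | h2
    · right; rw [h2]
    · left; rw [h2, neg_neg]

theorem exists_Phs {γ : Fin N → ℝ → ℂ} (himm : ∀ j u, deriv (γ j) u ≠ 0) (l : ℝ) (z₀ : ℂ)
    (j : Fin N) (u : ℝ) : ∃ θ, (l • (γ j u - z₀), θ) ∈ Phs γ l z₀ := by
  obtain ⟨θ, hθ⟩ := exists_ex (norm_tg (himm j u))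
  exact ⟨θ, j, u, rfl, Or.inl hθ⟩

/-- If the limit set does not meet a neighbourhood, in the closed upper half plane, of a real point,
then the curves are close to the real axis. -/
theorem near_axis (𝓤 : Ultrafilter ℕ) {Ph : ℕ → Set (ℂ × ℝ)}
    (hrot : ∀ i z θ, (z, θ) ∈ Ph i → (z, θ + Real.pi) ∈ Ph i ∧ (z, θ - Real.pi) ∈ Ph i) {z₁ : ℂ}
    {r₁ δ : ℝ} (hδ : 0 < δ)
    (hno : ∀ X ∈ LT (𝓤 : Filter ℕ) Ph, 0 < X.1.im → r₁ < ‖X.1 - z₁‖) :
    ∀ᶠ i in (𝓤 : Filter ℕ), ∀ z θ, (z, θ) ∈ Ph i → z ∈ closedBall z₁ r₁ → z.im < δ := by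
  set K : Set ℂ := closedBall z₁ r₁ ∩ {z | δ ≤ z.im} with hK
  have hKc : IsCompact K :=
    (isCompact_closedBall z₁ r₁).inter_right (isClosed_le continuous_const Complex.continuous_im)
  have h1 : ∀ w : ℂ, ∃ δw > 0, w ∈ K → ∀ᶠ i in (𝓤 : Filter ℕ), ¬ ∃ z θ, (z, θ) ∈ Ph i ∧
      dist z w < δw := by
    intro w
    by_cases hw : w ∈ K
    · by_contra hcon
      push Not at hcon
      obtain ⟨θ, hθ⟩ := LT_of_near 𝓤 (Eventually.of_forall hrot) (w := w) (fun δw hδw => by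
        exact (hcon δw hδw).2)
      have h2 := hno _ hθ (hδ.trans_le hw.2)
      have h3 := hw.1
      rw [mem_closedBall, dist_eq_norm] at h3
      simp only at h2
      linarith
    · exact ⟨1, one_pos, fun h => absurd h hw⟩
  choose δw hδw0 hδw using h1
  obtain ⟨t, ht1, ht2⟩ := hKc.elim_nhds_subcover (fun w => ball w (δw w))
    (fun w _ => ball_mem_nhds w (hδw0 w))
  have h2 : ∀ᶠ i in (𝓤 : Filter ℕ), ∀ w ∈ t, ¬ ∃ z θ, (z, θ) ∈ Ph i ∧ dist z w < δw w := by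
    rw [Filter.eventually_all_finset]
    exact fun w hw => hδw w (ht1 w hw)
  filter_upwards [h2] with i hi z θ hz hzb
  by_contra hcon
  push Not at hcon
  have h3 := ht2 (show z ∈ K from ⟨hzb, hcon⟩)
  rw [mem_iUnion₂] at h3
  obtain ⟨w, hw, hzw⟩ := h3
  exact hi w hw ⟨z, θ, hz, hzw⟩

section
variable {F : Type*} [NormedAddCommGroup F] [InnerProductSpace ℝ F]

theorem rlim_continuous (a : F) : Continuous (rlim a) := by
  by_cases ha : a = 0
  · have : rlim a = fun x : F => ‖x‖ := by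
      ext x; rw [ha, rlim_zero]
    rw [this]; exact continuous_norm
  · have : rlim a = fun x : F => inner ℝ x (‖a‖⁻¹ • a) := by
      ext x; rw [rlim_ne ha]
    rw [this]
    exact continuous_id.inner continuous_const

end

theorem Pm_continuous (x₀ : V p q) : Continuous (Pm x₀) := by
  rw [Pm_eq]
  have h1 := (rlim_continuous (pr₁ x₀)).comp (pr₁ (p := p) (q := q)).continuous
  have h2 := (rlim_continuous (pr₂ x₀)).comp (pr₂ (p := p) (q := q)).continuous
  exact (Complex.ofRealCLM.continuous.comp h1).add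
    ((Complex.ofRealCLM.continuous.comp h2).mul continuous_const)

/-- the position of a neighbourhood of `W` relative to the sphere -/
theorem exists_pos {x₀ W : V p q} (h1 : pr₁ x₀ = 0 → pr₁ W ≠ 0) :
    ∃ (e : EuclideanSpace ℝ (Fin p)) (M r' : ℝ) (ρ : ℝ → ℝ), ‖e‖ = 1 ∧ 0 ≤ M ∧ 0 < r' ∧
      ∀ᶠ l : ℝ in atTop, 0 < ρ l ∧ M ≤ ρ l / 2 ∧ ∀ Z : V p q, ‖Z - W‖ ≤ r' →
        ‖l • pr₁ x₀ + pr₁ Z - ρ l • e‖ ≤ M := by
  by_cases ha : pr₁ x₀ = 0
  · have hW := norm_pos_iff.2 (h1 ha)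
    refine ⟨‖pr₁ W‖⁻¹ • pr₁ W, ‖pr₁ W‖ / 2, ‖pr₁ W‖ / 2, fun _ => ‖pr₁ W‖, ?_, by positivity,
      by positivity, ?_⟩
    · rw [norm_smul, norm_inv, norm_norm, inv_mul_cancel₀ hW.ne']
    · refine Eventually.of_forall fun l => ⟨hW, le_refl _, fun Z hZ => ?_⟩
      rw [ha, smul_zero, zero_add, smul_smul, mul_inv_cancel₀ hW.ne', one_smul, ← map_sub]
      exact (norm_pr₁_le _).trans hZ
  · have ha0 := norm_pos_iff.2 ha
    refine ⟨‖pr₁ x₀‖⁻¹ • pr₁ x₀, ‖W‖ + 1, 1, fun l => l * ‖pr₁ x₀‖, ?_, by positivity, one_pos, ?_⟩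
    · rw [norm_smul, norm_inv, norm_norm, inv_mul_cancel₀ ha0.ne']
    · filter_upwards [eventually_gt_atTop 0, eventually_ge_atTop (2 * (‖W‖ + 1) / ‖pr₁ x₀‖)]
        with l hl hl2
      refine ⟨by positivity, ?_, fun Z hZ => ?_⟩
      · rw [div_le_iff₀ ha0] at hl2
        linarith
      · have e1 : (l * ‖pr₁ x₀‖) • ‖pr₁ x₀‖⁻¹ • pr₁ x₀ = l • pr₁ x₀ := by
          rw [smul_smul, mul_assoc, mul_inv_cancel₀ ha0.ne', mul_one]
        rw [e1, add_sub_cancel_left]
        refine (norm_pr₁_le Z).trans ?_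
        have := norm_add_le (Z - W) W
        rw [sub_add_cancel] at this
        linarith

theorem Qm_prof {x₀ : V p q} (hx : pr₂ x₀ = 0) {l : ℝ} (hl : 0 < l) (Z : V p q) :
    Qm x₀ l Z + l • prof x₀ = ⟨‖l • pr₁ x₀ + pr₁ Z‖, ‖pr₂ Z‖⟩ := by
  have e1 : ∀ {d : ℕ} (a z : EuclideanSpace ℝ (Fin d)), l * ‖a + l⁻¹ • z‖ = ‖l • a + z‖ := by
    intro d a z
    have : l • a + z = l • (a + l⁻¹ • z) := by
      rw [smul_add, smul_smul, mul_inv_cancel₀ hl.ne', one_smul]
    rw [this, norm_smul, Real.norm_eq_abs, abs_of_pos hl]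
  apply Complex.ext
  · simp only [Qm, rsc, Complex.add_re, Complex.smul_re, smul_eq_mul, prof, rad₁_eq]
    rw [← e1]; ring
  · simp only [Qm, rsc, Complex.add_im, Complex.smul_im, smul_eq_mul, prof, rad₂_eq]
    have := e1 (pr₂ x₀) (pr₂ Z)
    rw [hx, smul_zero, zero_add, zero_add] at this
    rw [hx, norm_zero, zero_add, sub_zero, mul_zero, add_zero, this]

/-- Points of the axis near which there are no limit phases are not in the support. -/
theorem no_axis (h : PFlow p q T N c) (hp : 1 ≤ p) (hq : 2 ≤ q) (hT : 0 < T) {x₀ : V p q}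
    {τ : ℝ} (hτ : 0 < τ) (𝓤 : Ultrafilter ℕ) {l : ℕ → ℝ} (hx : pr₂ x₀ = 0)
    (hl : Tendsto l (𝓤 : Filter ℕ) atTop)
    (ht : ∀ᶠ i in (𝓤 : Filter ℕ), T - τ / l i ^ 2 ∈ Ioo 0 T)
    (hD : Tendsto (fun i => (l i ^ 2)⁻¹ * Dis p q T c (rad₁ x₀) (rad₂ x₀) (T - τ / l i ^ 2))
      (𝓤 : Filter ℕ) (𝓝 0)) {μ : Measure (V p q)}
    (hS : Slice (p + q - 1) (𝓤 : Filter ℕ) (fun k => Qm x₀ (l k)) (Pm x₀)
      (fun k => {ζ : ℂ | ∃ j u, ζ = l k • (c j (T - τ / l k ^ 2) u - prof x₀)})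
      (fun k => Phs (fun j => c j (T - τ / l k ^ 2)) (l k) (prof x₀)) μ) {W : V p q}
    (hW : pr₂ W = 0) (h1 : pr₁ x₀ = 0 → pr₁ W ≠ 0) {r : ℝ} (hr : 0 < r)
    (hno : ∀ X ∈ LT (𝓤 : Filter ℕ) (fun k => Phs (fun j => c j (T - τ / l k ^ 2)) (l k) (prof x₀)),
      0 < X.1.im → r < ‖X.1 - Pm x₀ W‖) : W ∉ supp μ := by
  have hr2 : rad₂ x₀ = 0 := by rw [rad₂_eq, hx, norm_zero]
  have hα : 0 ≤ rad₁ x₀ := Real.sqrt_nonneg _
  set α := rad₁ x₀ with hαdef
  have hprof : prof x₀ = ⟨α, 0⟩ := by simp only [prof, hr2, ← hαdef]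
  have hα0 : α = 0 → pr₁ x₀ = 0 := by
    intro h0
    rwa [hαdef, rad₁_eq, norm_eq_zero] at h0
  rw [hr2] at hD
  set z₁ := Pm x₀ W with hz₁
  have hz₁im : z₁.im = 0 := by
    simp only [hz₁, Pm, hx, hW, rlim_zero, norm_zero]
  have hz₁re : α = 0 → 0 < z₁.re := by
    intro h0
    have h2 := hα0 h0
    simp only [hz₁, Pm, h2, rlim_zero]
    exact norm_pos_iff.2 (h1 h2)
  -- the radii
  obtain ⟨ρF, CF, LF, hFB, hρF⟩ := fl_FB (k := (p - 1 : ℕ)) (α := α) (τ := τ) (R₀ := z₁.re)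
    (fun h0 => (hz₁re h0).ne')
  have hρF0 := hFB.ρ0
  set r₁ : ℝ := min r ρF with hr₁
  have hr₁0 : 0 < r₁ := by positivity
  -- the cut-off
  let χb : ContDiffBump z₁ := ⟨r₁ / 2, r₁, by positivity, by linarith⟩
  set χ : ℂ → ℝ := fun z => χb z with hχdef
  have hχs : ContDiff ℝ ∞ χ := χb.contDiff
  have hχ1 : ContDiff ℝ 1 χ := hχs.of_le (by exact_mod_cast le_top)
  have hχc : HasCompactSupport χ := χb.hasCompactSupport
  obtain ⟨D, hD'⟩ := (hχ1.continuous_fderiv (by norm_num)).bounded_above_of_compact_support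
    (hχc.fderiv ℝ)
  have hD0 : 0 ≤ D := (norm_nonneg _).trans (hD' 0)
  have hχout : ∀ z, z ∉ closedBall z₁ r₁ → χ z = 0 ∧ fderiv ℝ χ z = 0 := by
    intro z hz
    have h2 : z ∉ tsupport χ := by
      rw [show tsupport χ = closedBall z₁ r₁ from χb.tsupport_eq]
      exact hz
    exact ⟨image_eq_zero_of_notMem_tsupport h2, by
      by_contra h3
      exact h2 (support_fderiv_subset ℝ h3)⟩
  have hin : ∀ z ∈ closedBall z₁ r₁, |z.re - z₁.re| ≤ ρF := by
    intro z hz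
    rw [mem_closedBall, dist_eq_norm] at hz
    have := (Complex.abs_re_le_norm (z - z₁)).trans hz
    rw [Complex.sub_re] at this
    exact this.trans (min_le_right _ _)
  -- rescaled quantities
  set M' : ℝ := |z₁.re| + ρF with hM'
  have hM'0 : 0 < M' := by positivity
  have hreM : ∀ z ∈ closedBall z₁ r₁, |z.re| ≤ M' ∧ (α = 0 → ρF ≤ |z.re|) := by
    intro z hz
    have h2 := hin z hz
    have e1 := abs_sub_abs_le_abs_sub z.re z₁.re
    have e2 := abs_sub_abs_le_abs_sub z₁.re z.re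
    rw [abs_sub_comm] at e2
    refine ⟨by linarith, fun h0 => ?_⟩
    have := hρF h0
    linarith
  have k1 : (0 : ℝ) ≤ (p - 1 : ℕ) := Nat.cast_nonneg _
  have G1 := resc_grad (k := (p - 1 : ℕ)) (α := α) (τ := τ) (M := M') (δ := ρF) (ε := 1) k1 hα hτ
    hρF0 hM'0 one_pos
  obtain ⟨C₁, W1⟩ := resc_weight (k := (p - 1 : ℕ)) (α := α) (τ := τ) (M := M') (δ := ρF) k1 hα hτ
    hρF0 hM'0
  -- the geometry
  obtain ⟨e, M, r', ρl, he, hM, hr', hpos⟩ := exists_pos (x₀ := x₀) (W := W) h1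
  obtain ⟨Ca, hCa⟩ := area_curve' (p := p) (q := q) (by omega) (by omega) he
  obtain ⟨r'', hr'', hPm⟩ := Metric.continuousAt_iff.1 ((Pm_continuous x₀).continuousAt (x := W))
    (r₁ / 8) (by positivity)
  set hh : ℝ := min r' r'' / 4 with hhh
  have hh0 : 0 < hh := by positivity
  have hhr' : 3 * hh ≤ r' := by
    have := min_le_left r' r''
    linarith
  have hhr'' : 3 * hh < r'' := by
    have h2 := min_le_right r' r''
    have : 0 < min r' r'' := by positivity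
    linarith
  set A' : ℝ := (D + ((CF + 1) + r₁ / (2 * τ)) + 1) / Real.exp (1 / 2 * Real.log τ - C₁ -
      (((q - 1 : ℕ) + 1) / 2 * Real.log τ + r₁ ^ 2 / (4 * τ) - gk (q - 1 : ℕ) 0)) with hA'
  have hCF0 := hFB.C0
  have hA'0 : 0 ≤ A' := by positivity
  have ht₁ : T / 2 ∈ Ioo 0 T := ⟨by linarith, by linarith⟩
  set Φ₀ : ℝ := Phi p q T c α 0 (T / 2) with hΦ₀
  have hΦ₀0 : 0 ≤ Φ₀ := Phi_nonneg _ _ _ _ _ _ _
  have htT : ∀ᶠ i in (𝓤 : Filter ℕ), T / 2 ≤ T - τ / l i ^ 2 := by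
    have h2 : Tendsto (fun i => T - τ / l i ^ 2) (𝓤 : Filter ℕ) (𝓝 T) := by
      have h3 : Tendsto (fun i => (l i ^ 2)⁻¹) (𝓤 : Filter ℕ) (𝓝 0) :=
        ((tendsto_pow_atTop (two_ne_zero)).comp hl).inv_tendsto_atTop
      have := (h3.const_mul τ).const_sub T
      simpa [div_eq_mul_inv] using this
    exact h2.eventually_const_le (by linarith)
  -- the main estimate
  have hmain : ∀ δ' > 0, ∀ᶠ i in (𝓤 : Filter ℕ),
      ∫⁻ z in {z | Qm x₀ (l i) z ∈ {ζ : ℂ | ∃ j u, ζ = l i • (c j (T - τ / l i ^ 2) u - prof x₀)}},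
        cut W hh z ∂μH[(p + q - 1 : ℕ)] ≤
      Ca * ENNReal.ofReal (M ^ (p - 1) * (δ' * A' * (Φ₀ + 1))) := by
    intro δ' hδ'
    have hnear := near_axis 𝓤 (Ph := fun k => Phs (fun j => c j (T - τ / l k ^ 2)) (l k) (prof x₀))
      (fun i z θ hz => Phs_rot hz) (z₁ := z₁) (r₁ := r₁) hδ' (fun X hX hX0 =>
        (min_le_left r ρF).trans_lt (hno X hX hX0))
    filter_upwards [hnear, ht, htT, hl.eventually G1, hl.eventually W1, hl.eventually hpos,
      hl.eventually (eventually_gt_atTop 0), hD.eventually_le_const one_pos,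
      hS.conv (‖W‖ + 3 * hh) (by positivity) (r₁ / 8) (by positivity)]
      with i hni hti htTi hG hW1 hposi hli hDi hconv
    obtain ⟨hρl, hMρ, hposZ⟩ := hposi
    set t := T - τ / l i ^ 2 with htdef
    have ht' := Ioo_subset_Ico_self hti
    -- curves close to the axis
    have hSi : ∀ j u, l i • (c j t u - ⟨α, 0⟩) ∈ closedBall z₁ r₁ →
        |l i * (c j t u).im| ≤ δ' := by
      intro j u hz
      rw [abs_le]
      have key : ∀ j u, l i • (c j t u - ⟨α, 0⟩) ∈ closedBall z₁ r₁ →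
          l i * (c j t u).im < δ' := by
        intro j u hz
        obtain ⟨θ, hθ⟩ := exists_Phs (γ := fun j => c j t) (fun j u => h.immersed j t ht' u) (l i)
          (prof x₀) j u
        rw [hprof] at hθ
        have h2 := hni _ θ (by rw [hprof]; exact hθ) hz
        simpa only [Complex.smul_im, Complex.sub_im, smul_eq_mul, sub_zero] using h2
      constructor
      · obtain ⟨j', u', hc'⟩ := h.symm₂ hq t ht' j u
        have h2 := key j' u' (by
          rw [mem_closedBall, dist_eq_norm] at hz ⊢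
          refine le_trans (le_of_eq ?_) hz
          have e1 : ∀ w : ℂ, ‖w‖ = √(w.re ^ 2 + w.im ^ 2) := norm_eq_sqrt
          rw [e1, e1, hc']
          simp only [Complex.sub_re, Complex.smul_re, Complex.sub_im, Complex.smul_im,
            smul_eq_mul, hz₁im, sub_zero]
          congr 2
          ring)
        rw [hc'] at h2
        simp only at h2
        linarith
      · exact (key j u hz).le
    have hcut := le_refl (0 : ℝ)
    -- the mass of one component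
    have hmass := fun j => mass_est h hp hq (α := α) (τ := τ) (l := l i) (D := D) (C₁ := C₁)
      (CF := CF + 1) (r₁ := r₁) (δ' := δ') hli hτ hti (z₁ := z₁) hr₁0.le hδ' hD0 (by positivity)
      hz₁im hχ1 (fun z => χb.nonneg) (fun z => χb.le_one) hD' hχout
      (by
        intro ζ hζ
        obtain ⟨d1, d2⟩ := hreM ζ hζ
        have h2 := hG ζ.re d1 d2
        have h3 := hFB.bd ζ.re (hin ζ hζ)
        have h4 := abs_sub_abs_le_abs_sub ((l i)⁻¹ * ((α + (l i)⁻¹ * ζ.re) *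
          elG (p - 1 : ℕ) α (α + (l i)⁻¹ * ζ.re) (τ / l i ^ 2) +
          (p - 1 : ℕ) / (α + (l i)⁻¹ * ζ.re))) (fl (p - 1 : ℕ) α τ ζ.re)
        linarith)
      (by
        intro ζ hζ
        obtain ⟨d1, d2⟩ := hreM ζ hζ
        exact hW1 ζ.re d1 d2) hSi j
    rw [← htdef] at hmass
    set K : Set ℂ := closedBall (z₁ + l i • (⟨α, 0⟩ : ℂ)) (r₁ / 4) with hK
    set χ₂ : ℂ → ℝ := fun z => χ (z - l i • (⟨α, 0⟩ : ℂ)) with hχ₂
    have hχ₂K : ∀ w ∈ K, ∀ z, dist z w ≤ r₁ / 4 → 1 ≤ χ₂ z := by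
      intro w hw z hz
      have h2 : z - l i • (⟨α, 0⟩ : ℂ) ∈ closedBall z₁ (r₁ / 2) := by
        rw [mem_closedBall, dist_eq_norm]
        rw [hK, mem_closedBall, dist_eq_norm] at hw
        rw [dist_eq_norm] at hz
        have e1 : z - l i • (⟨α, 0⟩ : ℂ) - z₁ = (z - w) + (w - (z₁ + l i • (⟨α, 0⟩ : ℂ))) := by ring
        rw [e1]
        exact (norm_add_le _ _).trans (by linarith)
      exact (χb.one_of_mem_closedBall h2).ge
    have hPd : ∀ j u, HasDerivAt (fun u => l i • c j t u) (l i • deriv (c j t) u) u := fun j u =>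
      (((h.slice j hti).differentiable (by simp) u).hasDerivAt).const_smul (l i)
    have hPc : ∀ j, Continuous fun u => l i • deriv (c j t) u := fun j =>
      ((h.slice j hti).continuous_deriv (by simp)).const_smul (l i)
    have hA : ∀ j, μH[(p + q - 1 : ℕ)] {Z : V p q | ‖l i • pr₁ x₀ + pr₁ Z - ρl (l i) • e‖ ≤ M ∧
        (⟨‖l i • pr₁ x₀ + pr₁ Z‖, ‖pr₂ Z‖⟩ : ℂ) ∈ K ∧ ∃ u ∈ Icc (0 : ℝ) 1,
          l i • c j t u = ⟨‖l i • pr₁ x₀ + pr₁ Z‖, ‖pr₂ Z‖⟩} ≤
        Ca * ENNReal.ofReal (M ^ (p - 1) * (δ' * A' * ((∫ u in (0 : ℝ)..1,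
          Wt T (p - 1) (q - 1) α 0 (rr c j) (ss c j) (t, u) * spd (rr c j) (ss c j) (t, u)) +
          (l i ^ 2)⁻¹ * ∫ u in (0 : ℝ)..1, Dd T (p - 1) (q - 1) α 0 (rr c j) (ss c j) (t, u)))) := by
      intro j
      refine (hCa (l i • pr₁ x₀) (ρl (l i)) M (r₁ / 4) (fun u => l i • c j t u)
        (fun u => l i • deriv (c j t) u) K χ₂ hρl hM hMρ (hPd j) (hPc j)
        (hχs.continuous.comp (continuous_id.sub continuous_const)) (fun z => χb.nonneg)
        (by positivity) hχ₂K).trans ?_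
      refine mul_le_mul' (le_refl _) (ENNReal.ofReal_le_ofReal ?_)
      apply mul_le_mul_of_nonneg_left _ (by positivity)
      have hmj := hmass j
      have e1 : ∫ u in (0 : ℝ)..1, χ₂ (l i • c j t u) * |(l i • c j t u).im| ^ (q - 1) *
          ‖l i • deriv (c j t) u‖ = l i ^ (q - 1 + 1) * ∫ u in (0 : ℝ)..1,
          χ (l i • (c j t u - ⟨α, 0⟩)) * |(c j t u).im| ^ (q - 1) * ‖deriv (c j t) u‖ := by
        rw [← intervalIntegral.integral_const_mul]
        apply intervalIntegral.integral_congr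
        intro u _
        simp only [hχ₂]
        rw [← smul_sub, Complex.smul_im, smul_eq_mul, abs_mul, abs_of_pos hli, norm_smul,
          Real.norm_eq_abs, abs_of_pos hli, mul_pow, pow_succ]
        ring
      rw [e1]
      set I := l i ^ (q - 1 + 1) * ∫ u in (0 : ℝ)..1,
          χ (l i • (c j t u - ⟨α, 0⟩)) * |(c j t u).im| ^ (q - 1) * ‖deriv (c j t) u‖ with hI
      have hI0 : 0 ≤ I := by
        have : 0 ≤ ∫ u in (0 : ℝ)..1,
          χ (l i • (c j t u - ⟨α, 0⟩)) * |(c j t u).im| ^ (q - 1) * ‖deriv (c j t) u‖ := by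
          apply intervalIntegral.integral_nonneg zero_le_one
          intro u _
          have := χb.nonneg (x := l i • (c j t u - ⟨α, 0⟩))
          exact mul_nonneg (mul_nonneg this (by positivity)) (norm_nonneg _)
        positivity
      have hq1 : (1 : ℝ) ≤ (q - 1 : ℕ) := by exact_mod_cast (by omega : 1 ≤ q - 1)
      have h5 : I ≤ (q - 1 : ℕ) * I := le_mul_of_one_le_left hI0 hq1
      exact h5.trans hmj
    -- covering
    have hcov : closedBall W (3 * hh) ∩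
        {z | Qm x₀ (l i) z ∈ {ζ : ℂ | ∃ j u, ζ = l i • (c j t u - prof x₀)}} ⊆
        ⋃ j : Fin N, {Z : V p q | ‖l i • pr₁ x₀ + pr₁ Z - ρl (l i) • e‖ ≤ M ∧
        (⟨‖l i • pr₁ x₀ + pr₁ Z‖, ‖pr₂ Z‖⟩ : ℂ) ∈ K ∧ ∃ u ∈ Icc (0 : ℝ) 1,
          l i • c j t u = ⟨‖l i • pr₁ x₀ + pr₁ Z‖, ‖pr₂ Z‖⟩} := by
      rintro Z ⟨hZ1, j, u, hZ2⟩
      rw [mem_closedBall] at hZ1
      rw [mem_iUnion]
      have hZn : ‖Z‖ ≤ ‖W‖ + 3 * hh := by
        rw [dist_eq_norm] at hZ1
        have := norm_add_le W (Z - W)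
        rw [add_sub_cancel] at this
        linarith
      have hQP := Qm_prof hx hli Z
      refine ⟨j, hposZ Z (by rw [← dist_eq_norm]; linarith), ?_, Int.fract u,
        ⟨Int.fract_nonneg u, (Int.fract_lt_one u).le⟩, ?_⟩
      · rw [← hQP, hprof, hK, mem_closedBall, dist_eq_norm, add_sub_add_right_eq_sub]
        have a1 := hconv Z hZn
        have a2 := hPm (hZ1.trans_lt hhr'')
        rw [dist_eq_norm] at a2
        have a3 := norm_sub_le_norm_sub_add_norm_sub (Qm x₀ (l i) Z) (Pm x₀ Z) z₁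
        linarith
      · have hper : c j t (Int.fract u) = c j t u := by
          have hP : Function.Periodic (c j t) 1 := h.periodic j t ht'
          have := hP.sub_zsmul_eq (n := ⌊u⌋) (x := u)
          rw [zsmul_one] at this
          exact this
        rw [hper, ← hQP, hZ2, smul_sub, sub_add_cancel]
    calc ∫⁻ z in {z | Qm x₀ (l i) z ∈ {ζ : ℂ | ∃ j u, ζ = l i • (c j t u - prof x₀)}},
        cut W hh z ∂μH[(p + q - 1 : ℕ)]
        ≤ ∫⁻ z in {z | Qm x₀ (l i) z ∈ {ζ : ℂ | ∃ j u, ζ = l i • (c j t u - prof x₀)}},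
          (closedBall W (3 * hh)).indicator 1 z ∂μH[(p + q - 1 : ℕ)] := by
          apply lintegral_mono
          intro z
          by_cases hz : z ∈ closedBall W (3 * hh)
          · simp only [indicator_of_mem hz, Pi.one_apply]
            exact_mod_cast cut_le W hh z
          · simp only [indicator_of_notMem hz, cut_eq_zero W hh0 hz]
            simp
      _ = μH[(p + q - 1 : ℕ)] (closedBall W (3 * hh) ∩
          {z | Qm x₀ (l i) z ∈ {ζ : ℂ | ∃ j u, ζ = l i • (c j t u - prof x₀)}}) := by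
          rw [lintegral_indicator_one isClosed_closedBall.measurableSet,
            Measure.restrict_apply isClosed_closedBall.measurableSet]
      _ ≤ μH[(p + q - 1 : ℕ)] (⋃ j : Fin N, {Z : V p q |
          ‖l i • pr₁ x₀ + pr₁ Z - ρl (l i) • e‖ ≤ M ∧
          (⟨‖l i • pr₁ x₀ + pr₁ Z‖, ‖pr₂ Z‖⟩ : ℂ) ∈ K ∧ ∃ u ∈ Icc (0 : ℝ) 1,
          l i • c j t u = ⟨‖l i • pr₁ x₀ + pr₁ Z‖, ‖pr₂ Z‖⟩}) := measure_mono hcov
      _ ≤ ∑ j : Fin N, μH[(p + q - 1 : ℕ)] {Z : V p q |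
          ‖l i • pr₁ x₀ + pr₁ Z - ρl (l i) • e‖ ≤ M ∧
          (⟨‖l i • pr₁ x₀ + pr₁ Z‖, ‖pr₂ Z‖⟩ : ℂ) ∈ K ∧ ∃ u ∈ Icc (0 : ℝ) 1,
          l i • c j t u = ⟨‖l i • pr₁ x₀ + pr₁ Z‖, ‖pr₂ Z‖⟩} := measure_iUnion_fintype_le _ _
      _ ≤ ∑ j : Fin N, Ca * ENNReal.ofReal (M ^ (p - 1) * (δ' * A' * ((∫ u in (0 : ℝ)..1,
          Wt T (p - 1) (q - 1) α 0 (rr c j) (ss c j) (t, u) * spd (rr c j) (ss c j) (t, u)) +
          (l i ^ 2)⁻¹ * ∫ u in (0 : ℝ)..1, Dd T (p - 1) (q - 1) α 0 (rr c j) (ss c j) (t, u)))) :=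
          Finset.sum_le_sum fun j _ => hA j
      _ = Ca * ENNReal.ofReal (M ^ (p - 1) * (δ' * A' * (Phi p q T c α 0 t +
          (l i ^ 2)⁻¹ * Dis p q T c α 0 t))) := by
          rw [← Finset.mul_sum, ← ENNReal.ofReal_sum_of_nonneg]
          · congr 2
            rw [← Finset.mul_sum, ← Finset.mul_sum, Finset.sum_add_distrib, ← Finset.mul_sum]
            rfl
          · intro j _
            have a1 : 0 ≤ ∫ u in (0 : ℝ)..1, Wt T (p - 1) (q - 1) α 0 (rr c j) (ss c j) (t, u) *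
                spd (rr c j) (ss c j) (t, u) := by
              apply intervalIntegral.integral_nonneg zero_le_one
              intro u _
              exact mul_nonneg (Wt_nonneg _ _ _ _ _ _ _ _) (Real.sqrt_nonneg _)
            have a2 : 0 ≤ ∫ u in (0 : ℝ)..1,
                Dd T (p - 1) (q - 1) α 0 (rr c j) (ss c j) (t, u) := by
              apply intervalIntegral.integral_nonneg zero_le_one
              intro u _
              exact Dd_nonneg _ _ _ _ _ _ _ _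
            positivity
      _ ≤ Ca * ENNReal.ofReal (M ^ (p - 1) * (δ' * A' * (Φ₀ + 1))) := by
          refine mul_le_mul' (le_refl _) (ENNReal.ofReal_le_ofReal ?_)
          have a1 := Phi_mono h hp (by omega) α 0 ht₁ hti htTi
          gcongr
  -- conclusion
  intro hsupp
  have hzero : ∫⁻ z, cut W hh z ∂μ = 0 := by
    have hle : ∀ δ' > 0, ∫⁻ z, cut W hh z ∂μ ≤
        Ca * ENNReal.ofReal (M ^ (p - 1) * (δ' * A' * (Φ₀ + 1))) := fun δ' hδ' =>
      le_of_tendsto (hS.vague (cut W hh) (cut_cont W hh) (cut_supp W hh0)) (hmain δ' hδ')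
    have hcont : Continuous fun δ' : ℝ =>
        (Ca : ℝ≥0∞) * ENNReal.ofReal (M ^ (p - 1) * (δ' * A' * (Φ₀ + 1))) := by
      apply (ENNReal.continuous_const_mul ENNReal.coe_ne_top).comp
      exact ENNReal.continuous_ofReal.comp (by fun_prop)
    have hlim := (hcont.tendsto 0).mono_left (nhdsWithin_le_nhds (s := Ioi (0 : ℝ)))
    simp only [zero_mul, mul_zero, ENNReal.ofReal_zero] at hlim
    refine le_antisymm (ge_of_tendsto hlim ?_) zero_le
    filter_upwards [self_mem_nhdsWithin] with δ' hδ'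
    exact hle δ' hδ'
  have hpos' : 0 < ∫⁻ z, cut W hh z ∂μ := by
    have h2 : μ (closedBall W (2 * hh)) ≤ ∫⁻ z, cut W hh z ∂μ := by
      calc μ (closedBall W (2 * hh)) = ∫⁻ z, (closedBall W (2 * hh)).indicator 1 z ∂μ :=
            (lintegral_indicator_one isClosed_closedBall.measurableSet).symm
        _ ≤ _ := by
          apply lintegral_mono
          intro z
          by_cases hz : z ∈ closedBall W (2 * hh)
          · simp only [indicator_of_mem hz, Pi.one_apply, cut_eq_one W hh0 hz]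
            simp
          · simp only [indicator_of_notMem hz]
            exact zero_le
    exact (hsupp _ (closedBall_mem_nhds W (by positivity))).trans_le h2
  rw [hzero] at hpos'
  exact lt_irrefl _ hpos'

end Pool.Agent.Helper532_SymMCF

end

section

/-!
Regularity of the tangent flows at the points of an axis of rotation.
-/

open Set Filter MeasureTheory Topology Metric Module
open scoped ContDiff NNReal ENNReal

namespace Pool.Agent.Helper532_SymMCF

theorem supp_isClosed {E : Type*} [TopologicalSpace E] [MeasurableSpace E] (μ : Measure E) :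
    IsClosed (supp μ) := by
  rw [← isOpen_compl_iff, isOpen_iff_mem_nhds]
  intro z hz
  simp only [supp, mem_compl_iff, mem_ofPred_eq, not_forall, not_lt, nonpos_iff_eq_zero] at hz
  obtain ⟨U, hU, hU0⟩ := hz
  obtain ⟨V, hVU, hVo, hzV⟩ := _root_.mem_nhds_iff.1 hU
  filter_upwards [hVo.mem_nhds hzV] with w hw hws
  have := hws V (hVo.mem_nhds hw)
  exact this.ne' (measure_mono_null hVU hU0)

section
variable {F : Type*} [NormedAddCommGroup F] [InnerProductSpace ℝ F]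

theorem rlim_section {a w : F} {R₀ : ℝ} (hw : rlim a w = R₀) (h : a = 0 → w ≠ 0) :
    ∃ g : ℝ → F, Continuous g ∧ g R₀ = w ∧ ∀ x, (a = 0 → 0 < x) →
      rlim a (g x) = x ∧ (a = 0 → g x ≠ 0) := by
  by_cases ha : a = 0
  · have hw0 := norm_pos_iff.2 (h ha)
    have hR : ‖w‖ = R₀ := by rw [← hw, ha, rlim_zero]
    have hR0 : 0 < R₀ := by rw [← hR]; exact hw0
    refine ⟨fun x => (x / R₀) • w, by fun_prop, ?_, fun x hx => ?_⟩
    · show (R₀ / R₀) • w = w
      rw [div_self hR0.ne', one_smul]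
    · have hx0 := hx ha
      refine ⟨?_, fun _ => smul_ne_zero (by positivity) (h ha)⟩
      rw [ha, rlim_zero, norm_smul, hR, Real.norm_eq_abs, abs_of_pos (by positivity)]
      field_simp
  · refine ⟨fun x => w + (x - R₀) • (‖a‖⁻¹ • a), by fun_prop, by simp, fun x _ => ⟨?_,
      fun h0 => absurd h0 ha⟩⟩
    have h1 := rlim_surj ha (x - R₀)
    rw [rlim_ne ha] at h1 hw ⊢
    rw [inner_add_left, hw, h1]
    ring

end

variable {p q N : ℕ} {T : ℝ} {c : Fin N → ℝ → ℝ → ℂ}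

/-- Away from the axes the support is described by the limit set. -/
theorem supp_iff (h : PFlow p q T N c) (hp : 1 ≤ p) (hq : 2 ≤ q) {x₀ : V p q}
    {τ : ℝ} (hτ : 0 < τ) (𝓤 : Ultrafilter ℕ) {l : ℕ → ℝ}
    (hl : Tendsto l (𝓤 : Filter ℕ) atTop)
    (ht : ∀ᶠ i in (𝓤 : Filter ℕ), T - τ / l i ^ 2 ∈ Ioo 0 T)
    (hD : Tendsto (fun i => (l i ^ 2)⁻¹ * Dis p q T c (rad₁ x₀) (rad₂ x₀) (T - τ / l i ^ 2))
      (𝓤 : Filter ℕ) (𝓝 0)) {μ : Measure (V p q)} {Γ : ℕ → Set ℂ}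
    (hS : Slice (p + q - 1) (𝓤 : Filter ℕ) (fun k => Qm x₀ (l k)) (Pm x₀) Γ
      (fun k => Phs (fun j => c j (T - τ / l k ^ 2)) (l k) (prof x₀)) μ) {W : V p q}
    (hW : W ∈ Od x₀) : W ∈ supp μ ↔ ∃ θ, (Pm x₀ W, θ) ∈ LT (𝓤 : Filter ℕ)
      (fun k => Phs (fun j => c j (T - τ / l k ^ 2)) (l k) (prof x₀)) := by
  constructor
  · intro hWs
    exact LT_of_near 𝓤 (Eventually.of_forall fun i z θ hz => Phs_rot hz) (fun δ hδ =>
      hS.near_of_supp (Pm_continuous x₀).continuousAt hWs hδ)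
  · rintro ⟨θ, hθ⟩
    obtain ⟨f, C, Λ, R, hf, hL⟩ := exists_loc h hp (by omega) (Real.sqrt_nonneg _) (Real.sqrt_nonneg _) hτ
      (𝓕 := (𝓤 : Filter ℕ)) hl ht hD (z₁ := Pm x₀ W) (Pm_re_ne hW) (Pm_im_ne hW)
    exact hS.supp_of_LT (Pm_sub x₀ hW) hL hθ

/-- Regularity at the points of the axis. -/
theorem on_axis (h : PFlow p q T N c) (hp : 1 ≤ p) (hq : 2 ≤ q) (hT : 0 < T) {x₀ : V p q}
    {τ : ℝ} (hτ : 0 < τ) (𝓤 : Ultrafilter ℕ) {l : ℕ → ℝ} (hx : pr₂ x₀ = 0)
    (hl : Tendsto l (𝓤 : Filter ℕ) atTop)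
    (ht : ∀ᶠ i in (𝓤 : Filter ℕ), T - τ / l i ^ 2 ∈ Ioo 0 T)
    (hD : Tendsto (fun i => (l i ^ 2)⁻¹ * Dis p q T c (rad₁ x₀) (rad₂ x₀) (T - τ / l i ^ 2))
      (𝓤 : Filter ℕ) (𝓝 0)) {μ : Measure (V p q)}
    (hS : Slice (p + q - 1) (𝓤 : Filter ℕ) (fun k => Qm x₀ (l k)) (Pm x₀)
      (fun k => {ζ : ℂ | ∃ j u, ζ = l k • (c j (T - τ / l k ^ 2) u - prof x₀)})
      (fun k => Phs (fun j => c j (T - τ / l k ^ 2)) (l k) (prof x₀)) μ) {Z : V p q}
    (hZs : Z ∈ supp μ) (hZ : pr₂ Z = 0) (h1 : pr₁ x₀ = 0 → pr₁ Z ≠ 0) :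
    IsSmoothHypersurfaceAt (supp μ) Z := by
  set R₀ : ℝ := rlim (pr₁ x₀) (pr₁ Z) with hR₀
  have hR₀pos : pr₁ x₀ = 0 → 0 < R₀ := by
    intro h0
    rw [hR₀, h0, rlim_zero]
    exact norm_pos_iff.2 (h1 h0)
  have him : ∀ W : V p q, (Pm x₀ W).im = ‖pr₂ W‖ := by
    intro W
    simp only [Pm, hx, rlim_zero]
  have hre : ∀ W : V p q, (Pm x₀ W).re = rlim (pr₁ x₀) (pr₁ W) := fun W => rfl
  have hreal : ∀ W : V p q, pr₂ W = 0 → Pm x₀ W = ((rlim (pr₁ x₀) (pr₁ W) : ℝ) : ℂ) := by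
    intro W hW
    apply Complex.ext
    · rfl
    · rw [him, hW, norm_zero, Complex.ofReal_im]
  set Ph : ℕ → Set (ℂ × ℝ) := fun k => Phs (fun j => c j (T - τ / l k ^ 2)) (l k) (prof x₀) with hPh
  obtain ⟨ρ, C₁, L₁, hFB, hρ2, hA⟩ := exists_axloc h hp hq hτ hx hl ht hD hS hR₀pos
  -- accumulation
  have hacc : ∀ ε > 0, ∃ X ∈ LT (𝓤 : Filter ℕ) Ph, 0 < X.1.im ∧ ‖X.1 - (R₀ : ℂ)‖ ≤ ε := by
    by_contra hcon
    push Not at hcon
    obtain ⟨ε, hε, hno⟩ := hcon
    exact no_axis h hp hq hT hτ 𝓤 hx hl ht hD hS hZ h1 hε (fun X hX hX0 => by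
      rw [hreal Z hZ]; exact hno X hX hX0) hZs
  obtain ⟨s₀, hs₀, φ, σ, hAx, hstr⟩ := ax_main hA hFB hacc
  have hUo : IsOpen {x : ℝ | rad₁ x₀ = 0 → x ≠ 0} := by
    by_cases h0 : rad₁ x₀ = 0
    · simp only [h0, forall_true_left]
      exact isOpen_ne
    · simp [h0]
  have hr1 : rad₁ x₀ = 0 → pr₁ x₀ = 0 := by
    intro h0
    rwa [rad₁_eq, norm_eq_zero] at h0
  obtain ⟨s₁, hs₁, ψ, hψ, hψ0, hφψ⟩ := hAx.smooth hA.k1 hFB hs₀ hUo
    (fun x hx => (fl_smoothAt (k := (p - 1 : ℕ)) (τ := τ) hx).contDiffWithinAt)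
    (fun h0 => (hR₀pos (hr1 h0)).ne')
  set s₂ : ℝ := min s₀ s₁ with hs₂
  have hs₂0 : 0 < s₂ := by positivity
  have hs₂a : s₂ ≤ s₀ := min_le_left _ _
  have hs₂b : s₂ ≤ s₁ := min_le_right _ _
  set U : Set (V p q) := {W | |rlim (pr₁ x₀) (pr₁ W) - R₀| < s₂ ∧ ‖pr₂ W‖ < s₂ ∧
    (pr₁ x₀ = 0 → pr₁ W ≠ 0)} with hU
  have hUopen : IsOpen U := by
    have a1 : IsOpen {W : V p q | |rlim (pr₁ x₀) (pr₁ W) - R₀| < s₂} :=
      isOpen_lt ((((rlim_continuous _).comp pr₁.continuous).sub continuous_const).abs)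
        continuous_const
    have a2 : IsOpen {W : V p q | ‖pr₂ W‖ < s₂} := isOpen_lt pr₂.continuous.norm continuous_const
    have a3 : IsOpen {W : V p q | pr₁ x₀ = 0 → pr₁ W ≠ 0} := by
      by_cases h0 : pr₁ x₀ = 0
      · simp only [h0, forall_true_left]
        exact isOpen_ne_fun pr₁.continuous continuous_const
      · simp [h0]
    exact a1.inter (a2.inter a3)
  have hZU : Z ∈ U := by
    refine ⟨?_, ?_, h1⟩
    · rw [← hR₀, sub_self, abs_zero]; exact hs₂0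
    · rw [hZ, norm_zero]; exact hs₂0
  -- points off the axis
  have hoff : ∀ W ∈ U, pr₂ W ≠ 0 → (W ∈ supp μ ↔ rlim (pr₁ x₀) (pr₁ W) = ψ (‖pr₂ W‖ ^ 2)) := by
    intro W hW hW0
    have hWO : W ∈ Od x₀ := ⟨hW.2.2, fun _ => hW0⟩
    have hn := norm_pos_iff.2 hW0
    rw [supp_iff h hp hq hτ 𝓤 hl ht hD hS hWO]
    rw [hstr (Pm x₀ W) (by rw [him]; exact hn) (by rw [him]; linarith [hW.2.1])
      (by rw [hre]; linarith [hW.1]), him, hre, hφψ _ ⟨hn, by linarith [hW.2.1]⟩]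
  have hψc : Tendsto ψ (𝓝[>] 0) (𝓝 R₀) := by
    have h2 : ContinuousWithinAt ψ (Ico 0 (s₁ ^ 2)) 0 := hψ.continuousOn 0 ⟨le_refl _, by positivity⟩
    rw [ContinuousWithinAt, hψ0] at h2
    refine h2.mono_left ?_
    rw [← nhdsWithin_Ioo_eq_nhdsGT (show (0 : ℝ) < s₁ ^ 2 by positivity)]
    exact nhdsWithin_mono _ Ioo_subset_Ico_self
  -- points on the axis
  have hon : ∀ W ∈ U, pr₂ W = 0 → (W ∈ supp μ ↔ rlim (pr₁ x₀) (pr₁ W) = ψ (‖pr₂ W‖ ^ 2)) := by
    intro W hW hW0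
    rw [hW0, norm_zero, zero_pow two_ne_zero, hψ0]
    constructor
    · intro hWs
      by_contra hne
      set R₁ := rlim (pr₁ x₀) (pr₁ W) with hR₁
      have hd : 0 < |R₁ - R₀| := abs_pos.2 (sub_ne_zero.2 hne)
      have hd2 : |R₁ - R₀| < s₀ := lt_of_lt_of_le hW.1 hs₂a
      set r : ℝ := min (|R₁ - R₀| / 8) ((s₀ - |R₁ - R₀|) / 2) with hr
      have hr0 : 0 < r := lt_min (by positivity) (by linarith)
      have hr1' : r ≤ |R₁ - R₀| / 8 := min_le_left _ _
      have hr2' : r ≤ (s₀ - |R₁ - R₀|) / 2 := min_le_right _ _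
      refine no_axis h hp hq hT hτ 𝓤 hx hl ht hD hS hW0 hW.2.2 hr0 ?_ hWs
      intro X hX hX0
      by_contra hcon
      push Not at hcon
      rw [hreal W hW0, ← hR₁] at hcon
      obtain ⟨b1, b2⟩ := re_im_of_disp hcon
      rw [abs_of_pos hX0] at b2
      have b3 : |X.1.re - R₀| ≤ |X.1.re - R₁| + |R₁ - R₀| := abs_sub_le _ _ _
      have b4 := (hstr X.1 hX0 (by linarith) (by linarith)).1 ⟨X.2, hX⟩
      have b5 := hAx.bφ X.1.im ⟨hX0, by linarith⟩
      rw [← b4] at b5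
      have b6 : |R₁ - R₀| ≤ |R₁ - X.1.re| + |X.1.re - R₀| := abs_sub_le _ _ _
      rw [abs_sub_comm R₁ X.1.re] at b6
      linarith
    · intro hR
      obtain ⟨g, hgc, hg0, hg⟩ := rlim_section hR hW.2.2
      obtain ⟨e, he⟩ := exists_unit (d := q) (by omega)
      set w : ℝ → V p q := fun s => inc₁ (g (ψ (s ^ 2))) + inc₂ (s • e) with hw
      have hpr1 : ∀ s, pr₁ (w s) = g (ψ (s ^ 2)) := by
        intro s; simp only [hw, map_add, pr₁_inc₁, pr₁_inc₂, add_zero]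
      have hpr2 : ∀ s, pr₂ (w s) = s • e := by
        intro s; simp only [hw, map_add, pr₂_inc₁, pr₂_inc₂, zero_add]
      have hsq : Tendsto (fun s : ℝ => s ^ 2) (𝓝[>] 0) (𝓝[>] 0) := by
        apply tendsto_nhdsWithin_of_tendsto_nhds_of_eventually_within
        · have : Continuous fun s : ℝ => s ^ 2 := by fun_prop
          have h2 := (this.tendsto 0).mono_left (nhdsWithin_le_nhds (s := Ioi 0))
          simpa using h2
        · filter_upwards [self_mem_nhdsWithin] with s hs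
          have : (0 : ℝ) < s := hs
          exact pow_pos this 2
      have hψs : Tendsto (fun s : ℝ => ψ (s ^ 2)) (𝓝[>] 0) (𝓝 R₀) := hψc.comp hsq
      have hwl : Tendsto w (𝓝[>] 0) (𝓝 W) := by
        have a1 : Tendsto (fun s : ℝ => (inc₁ (g (ψ (s ^ 2))) : V p q)) (𝓝[>] 0)
            (𝓝 (inc₁ (pr₁ W))) := by
          rw [← hg0]
          exact ((inc₁.continuous.comp hgc).tendsto R₀).comp hψs
        have a2 : Tendsto (fun s : ℝ => (inc₂ (s • e) : V p q)) (𝓝[>] 0) (𝓝 (inc₂ (pr₂ W))) := by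
          have : Continuous fun s : ℝ => (inc₂ (s • e) : V p q) := by fun_prop
          have h2 := (this.tendsto 0).mono_left (nhdsWithin_le_nhds (s := Ioi 0))
          rw [hW0]
          simpa using h2
        have a3 := a1.add a2
        rw [inc_add] at a3
        exact a3
      have hev : ∀ᶠ s in 𝓝[>] (0 : ℝ), w s ∈ supp μ := by
        have hpos : ∀ᶠ s in 𝓝[>] (0 : ℝ), pr₁ x₀ = 0 → 0 < ψ (s ^ 2) := by
          by_cases h0 : pr₁ x₀ = 0
          · filter_upwards [hψs.eventually_const_lt (hR₀pos h0)] with s hs _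
            exact hs
          · exact Eventually.of_forall fun s h => absurd h h0
        filter_upwards [hwl.eventually_mem (hUopen.mem_nhds hW), hpos, self_mem_nhdsWithin]
          with s hs1 hs2 hs3
        have hs0 : (0 : ℝ) < s := hs3
        have hne : pr₂ (w s) ≠ 0 := by
          rw [hpr2]
          intro h0
          have := congrArg norm h0
          rw [norm_smul, he, mul_one, norm_zero, Real.norm_eq_abs, abs_of_pos hs0] at this
          exact hs0.ne' this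
        rw [hoff (w s) hs1 hne, hpr1, hpr2, norm_smul, he, mul_one, Real.norm_eq_abs,
          abs_of_pos hs0]
        exact (hg _ hs2).1
      exact (supp_isClosed μ).mem_of_tendsto hwl hev
  have hall : ∀ W ∈ U, (W ∈ supp μ ↔ rlim (pr₁ x₀) (pr₁ W) = ψ (‖pr₂ W‖ ^ 2)) := by
    intro W hW
    by_cases hW0 : pr₂ W = 0
    · exact hon W hW hW0
    · exact hoff W hW hW0
  have hsm : ∀ W ∈ U, ContDiffAt ℝ ∞ (fun W : V p q => rlim (pr₁ x₀) (pr₁ W)) W := fun W hW =>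
    (rlim_smooth _ _ hW.2.2).comp W pr₁.contDiff.contDiffAt
  have hmaps : ∀ W ∈ U, ‖pr₂ W‖ ^ 2 ∈ Ico 0 (s₁ ^ 2) := by
    intro W hW
    refine ⟨by positivity, ?_⟩
    have := hW.2.1
    exact pow_lt_pow_left₀ (by linarith) (norm_nonneg _) two_ne_zero
  have hψsm : ContDiffOn ℝ ∞ (fun W : V p q => ψ (‖pr₂ W‖ ^ 2)) U := by
    apply hψ.comp _ hmaps
    exact ((contDiff_norm_sq ℝ).comp pr₂.contDiff).contDiffOn
  refine ⟨U, hUopen, hZU, fun W => rlim (pr₁ x₀) (pr₁ W) - ψ (‖pr₂ W‖ ^ 2), ?_, ?_, ?_⟩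
  · have hsm' : ContDiffOn ℝ ∞ (fun W : V p q => rlim (pr₁ x₀) (pr₁ W)) U :=
      fun W hW => (hsm W hW).contDiffWithinAt
    exact hsm'.sub hψsm
  · intro W hW h0
    obtain ⟨u₁, hu₁, hd₁⟩ := rlim_deriv (pr₁ x₀) (pr₁ W) hW.2.2
    have hdf : HasFDerivAt (fun W : V p q => rlim (pr₁ x₀) (pr₁ W) - ψ (‖pr₂ W‖ ^ 2))
        (0 : V p q →L[ℝ] ℝ) W := by
      rw [← h0]
      apply DifferentiableAt.hasFDerivAt
      exact ((hsm W hW).differentiableAt (by simp)).sub
        ((hψsm.contDiffAt (hUopen.mem_nhds hW)).differentiableAt (by simp))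
    have hline : HasDerivAt (fun t : ℝ => W + t • (inc₁ u₁ : V p q)) (inc₁ u₁) 0 := by
      have := ((hasDerivAt_id (0 : ℝ)).smul_const (inc₁ u₁ : V p q)).const_add W
      simpa using this
    have e0 : W + (0 : ℝ) • (inc₁ u₁ : V p q) = W := by simp
    have h2 := hdf
    rw [← e0] at h2
    have h3 := h2.comp_hasDerivAt (0 : ℝ) hline
    have h4 : HasDerivAt (fun t : ℝ => rlim (pr₁ x₀) (pr₁ (W + t • (inc₁ u₁ : V p q))))
        (inner ℝ u₁ u₁) 0 := by
      have h5 : HasFDerivAt (fun Z : V p q => rlim (pr₁ x₀) (pr₁ Z)) ((innerSL ℝ u₁).comp pr₁)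
          (W + (0 : ℝ) • (inc₁ u₁ : V p q)) := by
        rw [e0]
        exact hd₁.comp W pr₁.hasFDerivAt
      have h6 := h5.comp_hasDerivAt (0 : ℝ) hline
      simp only [ContinuousLinearMap.comp_apply, pr₁_inc₁, innerSL_apply_apply] at h6
      exact h6
    have h5 : (fun t : ℝ => rlim (pr₁ x₀) (pr₁ (W + t • (inc₁ u₁ : V p q)))) = fun t =>
        ((fun W : V p q => rlim (pr₁ x₀) (pr₁ W) - ψ (‖pr₂ W‖ ^ 2)) ∘
          fun t : ℝ => W + t • (inc₁ u₁ : V p q)) t + ψ (‖pr₂ W‖ ^ 2) := by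
      ext t
      simp only [Function.comp, map_add, map_smul, pr₂_inc₁, smul_zero, add_zero]
      ring
    rw [h5] at h4
    have h6 := h3.add_const (ψ (‖pr₂ W‖ ^ 2))
    have h7 := h4.unique h6
    rw [real_inner_self_eq_norm_sq, hu₁] at h7
    norm_num at h7
  · ext W
    constructor
    · rintro ⟨hW1, hW2⟩
      exact ⟨hW2, sub_eq_zero.2 ((hall W hW2).1 hW1)⟩
    · rintro ⟨hW1, hW2⟩
      exact ⟨(hall W hW1).2 (sub_eq_zero.1 hW2), hW1⟩

end Pool.Agent.Helper532_SymMCF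

end

section

/-!
Exchange of the two factors.
-/

open Set Filter MeasureTheory Topology Metric Module
open scoped ContDiff NNReal ENNReal

namespace Pool.Agent.Helper532_SymMCF

/-- exchange of the coordinates of the plane -/
noncomputable def swL : ℂ →L[ℝ] ℂ :=
  Complex.imCLM.smulRight (1 : ℂ) + Complex.reCLM.smulRight Complex.I

theorem swL_re (z : ℂ) : (swL z).re = z.im := by simp [swL]

theorem swL_im (z : ℂ) : (swL z).im = z.re := by simp [swL]

theorem swL_inj {z w : ℂ} (h : swL z = swL w) : z = w := by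
  apply Complex.ext
  · rw [← swL_im, h, swL_im]
  · rw [← swL_re, h, swL_re]

theorem norm_swL (z : ℂ) : ‖swL z‖ = ‖z‖ := by
  rw [norm_eq_sqrt, norm_eq_sqrt, swL_re, swL_im, add_comm]

theorem deriv_swL {f : ℝ → ℂ} {x : ℝ} (hf : DifferentiableAt ℝ f x) :
    deriv (fun y => swL (f y)) x = swL (deriv f x) :=
  (swL.hasFDerivAt.comp_hasDerivAt x hf.hasDerivAt).deriv

variable {p q N : ℕ} {T : ℝ} {c : Fin N → ℝ → ℝ → ℂ}

theorem PFlow.slice' (h : PFlow p q T N c) (j : Fin N) {t : ℝ}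
    (ht : t ∈ Ico 0 T) : ContDiff ℝ ∞ (c j t) := by
  rw [← contDiffOn_univ]
  have : c j t = (fun z : ℝ × ℝ => c j z.1 z.2) ∘ fun u => (t, u) := rfl
  rw [this]
  apply (h.smooth j).comp (by fun_prop)
  intro u _
  exact ⟨ht, mem_univ _⟩

theorem PFlow.swap (h : PFlow p q T N c) :
    PFlow q p T N (fun j t u => swL (c j t u)) := by
  have hd : ∀ j, ∀ t ∈ Ico 0 T, ∀ u, deriv (fun u => swL (c j t u)) u = swL (deriv (c j t) u) :=
    fun j t ht u => deriv_swL ((h.slice' j ht).differentiable (by simp) u)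
  refine ⟨?_, ?_, ?_, ?_, ?_, ?_, ?_, ?_, ?_⟩
  · intro j
    exact swL.contDiff.comp_contDiffOn (h.smooth j)
  · intro j t ht u
    simp only [h.periodic j t ht u]
  · intro j t ht u h0
    rw [hd j t ht u] at h0
    exact h.immersed j t ht u (swL_inj (h0.trans (map_zero swL).symm))
  · intro t ht j j' u u' he
    exact h.embedded t ht j j' u u' (swL_inj he)
  · intro h2 t ht j u
    obtain ⟨j', u', h'⟩ := h.symm₂ h2 t ht j u
    refine ⟨j', u', ?_⟩
    rw [h']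
    apply Complex.ext
    · rw [swL_re, swL_re]
    · rw [swL_im, swL_im]
  · intro h2 t ht j u
    obtain ⟨j', u', h'⟩ := h.symm₁ h2 t ht j u
    refine ⟨j', u', ?_⟩
    rw [h']
    apply Complex.ext
    · rw [swL_re, swL_re]
    · rw [swL_im, swL_im]
  · intro h2 t ht j u h0
    rw [hd j t ht u, swL_im]
    rw [swL_re] at h0
    exact h.orth₂ h2 t ht j u h0
  · intro h2 t ht j u h0
    rw [hd j t ht u, swL_re]
    rw [swL_im] at h0
    exact h.orth₁ h2 t ht j u h0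
  · intro t ht j u hr hs
    have ht' := Ioo_subset_Ico_self ht
    rw [swL_re] at hr
    rw [swL_im] at hs
    have hfl := h.flow t ht j u hs hr
    have hdt : deriv (fun s => swL (c j s u)) t = swL (deriv (fun s => c j s u) t) :=
      deriv_swL (hasD1 (h.sm j) ht (u := u)).differentiableAt
    have hd1 : deriv (fun u => swL (c j t u)) = fun u => swL (deriv (c j t) u) := by
      ext v; exact hd j t ht' v
    have hd2 : deriv (deriv (fun u => swL (c j t u))) u = swL (deriv (deriv (c j t)) u) := by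
      rw [hd1]
      apply deriv_swL
      have h1 : ContDiff ℝ (1 + 1) (c j t) := by
        rw [one_add_one_eq_two]
        exact (h.slice' j ht').of_le ENat.LEInfty.out
      exact ((contDiff_succ_iff_deriv.1 h1).2.2.differentiable (by norm_num)) u
    unfold curv at hfl ⊢
    rw [hdt, hd2, hd j t ht' u, norm_swL]
    rw [inner_nu, inner_nu, re_nu, im_nu] at hfl ⊢
    simp only [swL_re, swL_im, norm_swL]
    rw [← neg_inj]
    refine Eq.trans ?_ (hfl.trans ?_)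
    · ring
    · ring

/-- exchange of the two factors of `ℝ^p × ℝ^q` -/
noncomputable def swV (p q : ℕ) : V p q ≃ₗᵢ[ℝ] V q p :=
  LinearIsometryEquiv.piLpCongrLeft 2 ℝ ℝ (Equiv.sumComm (Fin p) (Fin q))

theorem swV_inl (z : V p q) (i : Fin q) : swV p q z (Sum.inl i) = z (Sum.inr i) := rfl
theorem swV_inr (z : V p q) (i : Fin p) : swV p q z (Sum.inr i) = z (Sum.inl i) := rfl

theorem pr₁_swV (z : V p q) : pr₁ (swV p q z) = pr₂ z := by
  ext i; rfl

theorem pr₂_swV (z : V p q) : pr₂ (swV p q z) = pr₁ z := by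
  ext i; rfl

theorem prof_swV (z : V p q) : prof (swV p q z) = swL (prof z) := by
  apply Complex.ext
  · rw [swL_re]
    simp only [prof, rad₁_eq, rad₂_eq, pr₁_swV]
  · rw [swL_im]
    simp only [prof, rad₁_eq, rad₂_eq, pr₂_swV]

theorem surf_swV (t : ℝ) (z : V p q) :
    swV p q z ∈ surf q p (fun j t u => swL (c j t u)) t ↔ z ∈ surf p q c t := by
  simp only [surf, mem_ofPred_eq, prof_swV]
  constructor
  · rintro ⟨j, u, h⟩
    exact ⟨j, u, swL_inj h⟩
  · rintro ⟨j, u, h⟩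
    exact ⟨j, u, by rw [h]⟩

theorem blow_swV (x₀ : V p q) (l t : ℝ) :
    (swV p q) ⁻¹' blow (surf q p (fun j t u => swL (c j t u))) T (swV p q x₀) l t =
      blow (surf p q c) T x₀ l t := by
  ext z
  simp only [blow, mem_preimage, mem_ofPred_eq]
  rw [← map_smul, ← map_add, surf_swV]

theorem IsTangentFlow.swap {x₀ : V p q} {μ : ℝ → Measure (V p q)}
    (hμ : IsTangentFlow (p + q - 1) (surf p q c) T x₀ μ) :
    IsTangentFlow (q + p - 1) (surf q p (fun j t u => swL (c j t u))) T (swV p q x₀)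
      (fun t => (μ t).map (swV p q)) := by
  obtain ⟨l, hl, hconv⟩ := hμ
  refine ⟨l, hl, fun t ht => ?_⟩
  obtain ⟨hfin, hv⟩ := hconv t ht
  have hemb : MeasurableEmbedding (swV p q) := (swV p q).toHomeomorph.measurableEmbedding
  constructor
  · refine ⟨fun z => ?_⟩
    obtain ⟨U, hU, hUf⟩ := hfin.finiteAtNhds ((swV p q).symm z)
    refine ⟨(swV p q) '' U, ?_, ?_⟩
    · have h1 : (swV p q) '' U ∈ 𝓝 (swV p q ((swV p q).symm z)) :=
        (swV p q).toHomeomorph.isOpenMap.image_mem_nhds hU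
      rwa [LinearIsometryEquiv.apply_symm_apply] at h1
    · show (μ t).map (swV p q) ((swV p q) '' U) < ⊤
      rw [hemb.map_apply, preimage_image_eq _ (swV p q).injective]
      exact hUf
  · intro φ hφ hφc
    have h1 := hv (fun z => φ (swV p q z)) (hφ.comp (swV p q).continuous)
      (hφc.comp_homeomorph (swV p q).toHomeomorph)
    have e2 : ∫⁻ z, φ z ∂((μ t).map (swV p q)) = ∫⁻ z, φ (swV p q z) ∂(μ t) :=
      hemb.lintegral_map (fun z => (φ z : ℝ≥0∞))
    show Tendsto _ _ (𝓝 (∫⁻ z, φ z ∂((μ t).map (swV p q))))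
    rw [e2]
    refine h1.congr fun i => ?_
    rw [← blow_swV, add_comm q p]
    have hmp : MeasurePreserving (swV p q) (μH[(p + q - 1 : ℕ)] : Measure (V p q))
        (μH[(p + q - 1 : ℕ)] : Measure (V q p)) :=
      (swV p q).toIsometryEquiv.measurePreserving_hausdorffMeasure _
    exact hmp.setLIntegral_comp_preimage_emb hemb (fun z => (φ z : ℝ≥0∞)) _

theorem supp_swV (μ : Measure (V p q)) (z : V p q) :
    swV p q z ∈ supp (μ.map (swV p q)) ↔ z ∈ supp μ := by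
  have hemb : MeasurableEmbedding (swV p q) := (swV p q).toHomeomorph.measurableEmbedding
  constructor
  · intro h U hU
    have h1 : (swV p q) '' U ∈ 𝓝 (swV p q z) :=
      (swV p q).toHomeomorph.isOpenMap.image_mem_nhds hU
    have h2 := h _ h1
    rwa [hemb.map_apply, preimage_image_eq _ (swV p q).injective] at h2
  · intro h U hU
    rw [hemb.map_apply]
    exact h _ ((swV p q).continuous.continuousAt hU)

theorem smooth_swV {S : Set (V p q)} {S' : Set (V q p)} (hS : ∀ z, z ∈ S ↔ swV p q z ∈ S')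
    {z : V p q} (h : IsSmoothHypersurfaceAt S' (swV p q z)) : IsSmoothHypersurfaceAt S z := by
  obtain ⟨U, hU, hzU, f, hf, hf', hSU⟩ := h
  have hcd : ContDiff ℝ ∞ (swV p q) := (swV p q).contDiff
  refine ⟨(swV p q) ⁻¹' U, hU.preimage hcd.continuous, hzU, fun w => f (swV p q w), ?_, ?_, ?_⟩
  · exact hf.comp hcd.contDiffOn (fun w hw => hw)
  · intro w hw h0
    have h1 : DifferentiableAt ℝ f (swV p q w) :=
      (hf.contDiffAt (hU.mem_nhds hw)).differentiableAt (by simp)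
    have h2 : HasFDerivAt (fun w : V p q => f (swV p q w))
        ((fderiv ℝ f (swV p q w)).comp ((swV p q).toContinuousLinearEquiv : V p q →L[ℝ] V q p)) w :=
      h1.hasFDerivAt.comp w (swV p q).toContinuousLinearEquiv.hasFDerivAt
    rw [h2.fderiv] at h0
    apply hf' _ hw
    ext v
    have h3 := congrArg (fun L : V p q →L[ℝ] ℝ => L ((swV p q).symm v)) h0
    simpa using h3
  · ext w
    constructor
    · rintro ⟨h1, h2⟩
      have : swV p q w ∈ S' ∩ U := ⟨(hS w).1 h1, h2⟩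
      rw [hSU] at this
      exact this
    · rintro ⟨h1, h2⟩
      have : swV p q w ∈ S' ∩ U := by
        rw [hSU]; exact ⟨h1, h2⟩
      exact ⟨(hS w).2 this.1, h1⟩

/-- Regularity at the points of the second axis, at almost every time. -/
theorem axis₂ (h : PFlow p q T N c) (hp : 1 ≤ p) (hq : 2 ≤ q) (hT : 0 < T)
    {x₀ : V p q} {μ : ℝ → Measure (V p q)}
    (hμ : IsTangentFlow (p + q - 1) (surf p q c) T x₀ μ) :
    ∀ᵐ t ∂(volume.restrict (Iio (0 : ℝ))), ∀ Z ∈ supp (μ t), pr₂ x₀ = 0 → pr₂ Z = 0 →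
      (pr₁ x₀ = 0 → pr₁ Z ≠ 0) → IsSmoothHypersurfaceAt (supp (μ t)) Z := by
  obtain ⟨l, hl, hconv⟩ := hμ
  filter_upwards [exists_slices h hp (by omega) hT hl hconv, ae_restrict_mem measurableSet_Iio]
    with t ht ht0
  obtain ⟨φ, hφ, hφ1, hφ2, hS⟩ := ht
  intro Z hZ hx hZ2 h1
  set 𝓤 : Ultrafilter ℕ := Ultrafilter.of atTop with h𝓤
  have hle : (𝓤 : Filter ℕ) ≤ atTop := Ultrafilter.of_le atTop
  have hτ : 0 < -t := by linarith [mem_Iio.1 ht0]
  exact on_axis h hp hq hT hτ 𝓤 (l := fun k => l (φ k)) hx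
    ((hl.comp hφ.tendsto_atTop).mono_left hle)
    (Eventually.of_forall fun k => (hφ1 k).2) (hφ2.mono_left hle) (hS.mono_filter hle) hZ hZ2 h1

/-- Regularity at the points of the first axis, at almost every time. -/
theorem axis₁ (h : PFlow p q T N c) (hp : 2 ≤ p) (hq : 1 ≤ q) (hT : 0 < T)
    {x₀ : V p q} {μ : ℝ → Measure (V p q)}
    (hμ : IsTangentFlow (p + q - 1) (surf p q c) T x₀ μ) :
    ∀ᵐ t ∂(volume.restrict (Iio (0 : ℝ))), ∀ Z ∈ supp (μ t), pr₁ x₀ = 0 → pr₁ Z = 0 →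
      (pr₂ x₀ = 0 → pr₂ Z ≠ 0) → IsSmoothHypersurfaceAt (supp (μ t)) Z := by
  filter_upwards [axis₂ h.swap hq hp hT hμ.swap] with t ht Z hZ hx hZ1 h1
  apply smooth_swV (S' := supp ((μ t).map (swV p q))) (fun z => (supp_swV (μ t) z).symm)
  apply ht _ ((supp_swV (μ t) Z).2 hZ)
  · rw [pr₂_swV]; exact hx
  · rw [pr₂_swV]; exact hZ1
  · rw [pr₁_swV, pr₁_swV]; exact h1

/-- At almost every time, the only possible singular point is the origin, and only if the
base point of the tangent flow is the origin. -/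
theorem all_points' (h : PFlow p q T N c) (hp : 1 ≤ p) (hq : 1 ≤ q) (hT : 0 < T)
    {x₀ : V p q} (hp1 : p = 1 → pr₁ x₀ ≠ 0) (hq1 : q = 1 → pr₂ x₀ ≠ 0) {μ : ℝ → Measure (V p q)}
    (hμ : IsTangentFlow (p + q - 1) (surf p q c) T x₀ μ) :
    ∀ᵐ t ∂(volume.restrict (Iio (0 : ℝ))), sing (supp (μ t)) ⊆ {z | x₀ = 0 ∧ z = 0} := by
  have hzero : ∀ z : V p q, pr₁ z = 0 → pr₂ z = 0 → z = 0 := by
    intro z h1 h2
    rw [← inc_add z, h1, h2, map_zero, map_zero, add_zero]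
  have hax₂ : ∀ᵐ t ∂(volume.restrict (Iio (0 : ℝ))), ∀ Z ∈ supp (μ t), pr₂ x₀ = 0 → pr₂ Z = 0 →
      (pr₁ x₀ = 0 → pr₁ Z ≠ 0) → IsSmoothHypersurfaceAt (supp (μ t)) Z := by
    rcases Nat.lt_or_ge 1 q with h2 | h2
    · exact axis₂ h hp h2 hT hμ
    · exact Eventually.of_forall fun t Z _ h0 => absurd h0 (hq1 (by omega))
  have hax₁ : ∀ᵐ t ∂(volume.restrict (Iio (0 : ℝ))), ∀ Z ∈ supp (μ t), pr₁ x₀ = 0 → pr₁ Z = 0 →
      (pr₂ x₀ = 0 → pr₂ Z ≠ 0) → IsSmoothHypersurfaceAt (supp (μ t)) Z := by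
    rcases Nat.lt_or_ge 1 p with h2 | h2
    · exact axis₁ h h2 hq hT hμ
    · exact Eventually.of_forall fun t Z _ h0 => absurd h0 (hp1 (by omega))
  filter_upwards [off_axis h hp hq hT hμ, hax₂, hax₁] with t h0 h2 h1
  rintro Z hZs
  have hZO := h0 hZs
  obtain ⟨hZ, hns⟩ := hZs
  by_cases ha : pr₁ x₀ = 0 ∧ pr₁ Z = 0
  · by_cases hb : pr₂ x₀ = 0 ∧ pr₂ Z = 0
    · exact ⟨hzero _ ha.1 hb.1, hzero _ ha.2 hb.2⟩
    · exact absurd (h1 Z hZ ha.1 ha.2 fun h3 h4 => hb ⟨h3, h4⟩) hns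
  · by_cases hb : pr₂ x₀ = 0 ∧ pr₂ Z = 0
    · exact absurd (h2 Z hZ hb.1 hb.2 fun h3 h4 => ha ⟨h3, h4⟩) hns
    · exact absurd (show Z ∈ Od x₀ from ⟨fun h3 h4 => ha ⟨h3, h4⟩, fun h3 h4 => hb ⟨h3, h4⟩⟩) hZO

/-- At almost every time, the only possible singular point is the origin, and only if the
base point of the tangent flow is the origin. -/
theorem all_points (h : IsProfileFlow p q T N c) (hp : 2 ≤ p) (hq : 2 ≤ q) (hT : 0 < T)
    {x₀ : V p q} {μ : ℝ → Measure (V p q)}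
    (hμ : IsTangentFlow (p + q - 1) (surf p q c) T x₀ μ) :
    ∀ᵐ t ∂(volume.restrict (Iio (0 : ℝ))), sing (supp (μ t)) ⊆ {z | x₀ = 0 ∧ z = 0} :=
  all_points' (h.toP hp hq) (by omega) (by omega) hT (by omega) (by omega) hμ

end Pool.Agent.Helper532_SymMCF

end

section

/-!
Reduction of the rotationally symmetric flows to the flows of profile curves.
-/

open Set Filter MeasureTheory Topology Metric Module
open scoped ContDiff NNReal ENNReal

namespace Pool.Agent.Helper532_SymMCF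

variable {p N : ℕ} {T : ℝ} {c : Fin N → ℝ → ℝ → ℂ}

/-- translated profile -/
def shf (a : ℝ) (c : Fin N → ℝ → ℝ → ℂ) (j : Fin N) (t u : ℝ) : ℂ := c j t u + ⟨0, a⟩

theorem deriv_shf (a : ℝ) (c : Fin N → ℝ → ℝ → ℂ) (j : Fin N) (t : ℝ) :
    deriv (shf a c j t) = deriv (c j t) := by
  ext u
  exact deriv_add_const _

theorem IsRotFlow.toP (h : IsRotFlow p T N c) (hp : 2 ≤ p) (a : ℝ) : PFlow p 1 T N (shf a c) := by
  refine ⟨?_, ?_, ?_, ?_, ?_, ?_, ?_, ?_, ?_⟩
  · intro j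
    exact (h.smooth j).add contDiffOn_const
  · intro j t ht u
    simp only [shf, h.periodic j t ht u]
  · intro j t ht u
    rw [deriv_shf]
    exact h.immersed j t ht u
  · intro t ht j j' u u' he
    exact h.embedded t ht j j' u u' (add_right_cancel he)
  · intro _ t ht j u
    obtain ⟨j', u', h'⟩ := h.symm t ht j u
    refine ⟨j', u', ?_⟩
    simp only [shf, h']
    apply Complex.ext <;> simp
  · intro h2
    omega
  · intro _ t ht j u h0
    rw [deriv_shf]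
    apply h.orth t ht j u
    simpa [shf] using h0
  · intro h2
    omega
  · intro t ht j u hr _
    have hd : deriv (fun s => shf a c j s u) t = deriv (fun s => c j s u) t := deriv_add_const _
    have hc : curv (shf a c j t) u = curv (c j t) u := by
      unfold curv
      rw [deriv_shf]
    have hre : (shf a c j t u).re = (c j t u).re := by simp [shf]
    rw [hd, hc, deriv_shf, hre]
    rw [hre] at hr
    simp only [Nat.cast_one, sub_self, zero_mul, zero_div, sub_zero]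
    exact h.flow t ht j u (hr.resolve_right (by omega))

/-- the unit vector of the axis -/
noncomputable def eax (p : ℕ) : V p 1 := EuclideanSpace.single (Sum.inr 0) 1

theorem eax_inl (p : ℕ) (i : Fin p) : eax p (Sum.inl i) = 0 := by simp [eax]

theorem eax_inr (p : ℕ) : eax p (Sum.inr 0) = 1 := by simp [eax]

theorem rad₁_add_eax (z : V p 1) (a : ℝ) : rad₁ (z + a • eax p) = rad₁ z := by
  unfold rad₁
  simp [eax_inl]

theorem rad₂_one (z : V p 1) : rad₂ z = |z (Sum.inr 0)| := by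
  unfold rad₂
  simp [Real.sqrt_sq_eq_abs]

theorem blow_rot {x₀ z : V p 1} {l t : ℝ} (hl : 0 < l) (hz : |z (Sum.inr 0)| ≤ l) :
    z ∈ blow (surfRot p c) T x₀ l t ↔
      z ∈ blow (surf p 1 (shf (1 - x₀ (Sum.inr 0)) c)) T (x₀ + (1 - x₀ (Sum.inr 0)) • eax p) l t := by
  set a := 1 - x₀ (Sum.inr 0) with ha
  have h1 : rad₁ (x₀ + a • eax p + l⁻¹ • z) = rad₁ (x₀ + l⁻¹ • z) := by
    rw [add_right_comm, rad₁_add_eax]
  have h2 : rad₂ (x₀ + a • eax p + l⁻¹ • z) = (x₀ + l⁻¹ • z) (Sum.inr 0) + a := by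
    rw [rad₂_one]
    have h3 : (x₀ + a • eax p + l⁻¹ • z) (Sum.inr 0) = 1 + l⁻¹ * z (Sum.inr 0) := by
      simp only [PiLp.add_apply, PiLp.smul_apply, eax_inr, smul_eq_mul, mul_one]
      rw [ha]
      ring
    have h4 : |l⁻¹ * z (Sum.inr 0)| ≤ 1 := by
      rw [abs_mul, abs_of_pos (inv_pos.2 hl), inv_mul_le_iff₀ hl, mul_one]
      exact hz
    rw [h3, abs_of_nonneg (by linarith [(abs_le.1 h4).1])]
    simp only [PiLp.add_apply, PiLp.smul_apply, smul_eq_mul]
    rw [ha]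
    ring
  have h5 : prof (x₀ + a • eax p + l⁻¹ • z) =
      ⟨rad₁ (x₀ + l⁻¹ • z), (x₀ + l⁻¹ • z) (Sum.inr 0)⟩ + ⟨0, a⟩ := by
    rw [prof, h1, h2]
    apply Complex.ext <;> simp
  constructor
  · rintro ⟨j, u, h⟩
    refine ⟨j, u, ?_⟩
    rw [h5, shf, h]
  · rintro ⟨j, u, h⟩
    refine ⟨j, u, ?_⟩
    rw [h5, shf] at h
    exact add_right_cancel h

theorem tangent_rot (hp : 1 ≤ p) {x₀ : V p 1} {μ : ℝ → Measure (V p 1)}
    (hμ : IsTangentFlow p (surfRot p c) T x₀ μ) :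
    IsTangentFlow (p + 1 - 1) (surf p 1 (shf (1 - x₀ (Sum.inr 0)) c)) T
      (x₀ + (1 - x₀ (Sum.inr 0)) • eax p) μ := by
  obtain ⟨l, hl, h⟩ := hμ
  refine ⟨l, hl, fun t ht => ⟨(h t ht).1, fun φ h1 h2 => ?_⟩⟩
  refine ((h t ht).2 φ h1 h2).congr' ?_
  obtain ⟨R, hR0, hR⟩ : ∃ R : ℝ, 0 < R ∧ tsupport φ ⊆ closedBall 0 R := by
    obtain ⟨R, hR⟩ := (isBounded_iff_subset_closedBall (0 : V p 1)).1 (IsCompact.isBounded h2)
    exact ⟨max R 1, by positivity, hR.trans (closedBall_subset_closedBall (le_max_left _ _))⟩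
  filter_upwards [hl.eventually_ge_atTop R] with i hi
  have hli : 0 < l i := hR0.trans_le hi
  have hn : p + 1 - 1 = p := by omega
  rw [hn]
  have hφ : ∀ z, (φ z : ℝ≥0∞) = (closedBall (0 : V p 1) R).indicator (fun z => (φ z : ℝ≥0∞)) z := by
    intro z
    by_cases hz : z ∈ closedBall (0 : V p 1) R
    · rw [indicator_of_mem hz]
    · rw [indicator_of_notMem hz, image_eq_zero_of_notMem_tsupport (fun h => hz (hR h))]
      simp
  have key : ∀ A : Set (V p 1), ∫⁻ z in A, (φ z : ℝ≥0∞) ∂μH[(p : ℕ)] =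
      ∫⁻ z in closedBall (0 : V p 1) R ∩ A, (φ z : ℝ≥0∞) ∂μH[(p : ℕ)] := by
    intro A
    rw [lintegral_congr hφ, lintegral_indicator isClosed_closedBall.measurableSet,
      Measure.restrict_restrict isClosed_closedBall.measurableSet]
  rw [key, key (blow _ _ _ _ _)]
  congr 2
  ext z
  constructor
  · rintro ⟨h3, h4⟩
    refine ⟨h3, (blow_rot hli ?_).1 h4⟩
    have := (PiLp.norm_apply_le z (Sum.inr 0)).trans (mem_closedBall_zero_iff.1 h3)
    exact this.trans hi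
  · rintro ⟨h3, h4⟩
    refine ⟨h3, (blow_rot hli ?_).2 h4⟩
    have := (PiLp.norm_apply_le z (Sum.inr 0)).trans (mem_closedBall_zero_iff.1 h3)
    exact this.trans hi

theorem pr₂_ne (x₀ : V p 1) : pr₂ (x₀ + (1 - x₀ (Sum.inr 0)) • eax p) ≠ 0 := by
  intro h
  have h1 := congrArg (fun v : EuclideanSpace ℝ (Fin 1) => v 0) h
  have h2 : (pr₂ (x₀ + (1 - x₀ (Sum.inr 0)) • eax p)) 0 = 1 := by
    change (x₀ + (1 - x₀ (Sum.inr 0)) • eax p) (Sum.inr 0) = 1
    simp only [PiLp.add_apply, PiLp.smul_apply, eax_inr, smul_eq_mul, mul_one]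
    ring
  simp only [h2] at h1
  simp at h1

/-- For hypersurfaces of revolution, almost all time slices of the tangent flows are smooth. -/
theorem rot_points (h : IsRotFlow p T N c) (hp : 2 ≤ p) (hT : 0 < T) {x₀ : V p 1}
    {μ : ℝ → Measure (V p 1)} (hμ : IsTangentFlow p (surfRot p c) T x₀ μ) :
    ∀ᵐ t ∂(volume.restrict (Iio (0 : ℝ))), sing (supp (μ t)) = ∅ := by
  filter_upwards [all_points' (h.toP hp (1 - x₀ (Sum.inr 0))) (by omega) (le_refl 1) hT (by omega)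
    (fun _ => pr₂_ne x₀) (tangent_rot (by omega) hμ)] with t ht
  rw [eq_empty_iff_forall_notMem]
  intro z hz
  have h1 := (ht hz).1
  apply pr₂_ne x₀
  rw [h1, map_zero]

end Pool.Agent.Helper532_SymMCF

end
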