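import Mathlib

section

/-!
Regularity at `x = 0` of solutions of first order equations `2 x y' + a y = g` on `[0, η)`.
-/

open Set Filter Topology
open scoped ContDiff

namespace Pool.Agent.Helper532_SymMCF

/-- one-sided bound -/
theorem sing_le {z z' g : ℝ → ℝ} {b η γ : ℝ} (hb : 0 < b)
    (hz : ∀ x ∈ Ioo 0 η, HasDerivAt z (z' x) x) (he : ∀ x ∈ Ioo 0 η, 2 * x * z' x + b * z x = g x)
    (hη : 0 < η) (hg : Tendsto g (𝓝[>] 0) (𝓝 γ))
    (h0 : Tendsto (fun x => x ^ (b / 2) * z x) (𝓝[>] 0) (𝓝 0)) {ε : ℝ} (hε : 0 < ε) :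
    ∀ᶠ x in 𝓝[>] 0, z x ≤ (γ + ε) / b := by
  have h1 : ∀ᶠ x in 𝓝[>] (0 : ℝ), g x < γ + ε := hg.eventually_lt_const (by linarith)
  rw [eventually_nhdsWithin_iff, Metric.eventually_nhds_iff] at h1
  obtain ⟨δ, hδ, h1⟩ := h1
  set d := min δ η with hd
  have hd0 : 0 < d := by positivity
  have hgd : ∀ x ∈ Ioo 0 d, g x < γ + ε := fun x hx => h1 (by
    rw [Real.dist_eq, sub_zero, abs_of_pos hx.1]
    exact hx.2.trans_le (min_le_left _ _)) hx.1
  have hsub : ∀ x ∈ Ioo 0 d, x ∈ Ioo 0 η := fun x hx => ⟨hx.1, hx.2.trans_le (min_le_right _ _)⟩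
  set E : ℝ → ℝ := fun x => x ^ (b / 2) * (z x - (γ + ε) / b) with hE
  have hEd : ∀ x ∈ Ioo 0 d, HasDerivAt E (1 / 2 * x ^ (b / 2 - 1) * (g x - (γ + ε))) x := by
    intro x hx
    have a1 : HasDerivAt (fun x : ℝ => x ^ (b / 2)) (b / 2 * x ^ (b / 2 - 1)) x :=
      Real.hasDerivAt_rpow_const (Or.inl hx.1.ne')
    have a2 := (hz x (hsub x hx)).sub_const ((γ + ε) / b)
    refine (a1.mul a2).congr_deriv ?_
    rw [← he x (hsub x hx)]
    have a3 : x ^ (b / 2) = x ^ (b / 2 - 1) * x := by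
      rw [Real.rpow_sub_one hx.1.ne', div_mul_cancel₀ _ hx.1.ne']
    rw [a3]
    field_simp
    ring
  have hanti : AntitoneOn E (Ioo 0 d) := by
    apply antitoneOn_of_deriv_nonpos (convex_Ioo 0 d)
    · intro x hx
      exact (hEd x hx).continuousAt.continuousWithinAt
    · intro x hx
      rw [interior_Ioo] at hx
      exact (hEd x hx).differentiableAt.differentiableWithinAt
    · intro x hx
      rw [interior_Ioo] at hx
      rw [(hEd x hx).deriv]
      apply mul_nonpos_of_nonneg_of_nonpos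
      · have := Real.rpow_nonneg hx.1.le (b / 2 - 1)
        positivity
      · have := hgd x hx
        linarith
  have hE0 : Tendsto E (𝓝[>] 0) (𝓝 0) := by
    have a1 : Tendsto (fun x : ℝ => x ^ (b / 2) * ((γ + ε) / b)) (𝓝[>] 0) (𝓝 0) := by
      have a2 : Tendsto (fun x : ℝ => x ^ (b / 2)) (𝓝[>] 0) (𝓝 0) := by
        have a3 : ContinuousAt (fun x : ℝ => x ^ (b / 2)) 0 :=
          Real.continuousAt_rpow_const _ _ (Or.inr (by positivity))
        have a4 := a3.tendsto
        rw [Real.zero_rpow (by positivity)] at a4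
        exact a4.mono_left nhdsWithin_le_nhds
      simpa using a2.mul_const ((γ + ε) / b)
    have a5 := h0.sub a1
    simp only [sub_zero] at a5
    refine a5.congr fun x => ?_
    simp only [hE]
    ring
  have hEle : ∀ x ∈ Ioo 0 d, E x ≤ 0 := by
    intro x hx
    apply ge_of_tendsto hE0
    filter_upwards [Ioo_mem_nhdsGT hx.1] with y hy
    exact hanti ⟨hy.1, hy.2.trans hx.2⟩ hx hy.2.le
  filter_upwards [Ioo_mem_nhdsGT hd0] with x hx
  have h2 := hEle x hx
  have h3 : 0 < x ^ (b / 2) := Real.rpow_pos_of_pos hx.1 _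
  have h4 : z x - (γ + ε) / b ≤ 0 := by
    by_contra hcon
    push Not at hcon
    have := mul_pos h3 hcon
    simp only [hE] at h2
    linarith
  linarith

/-- limit at the singular point -/
theorem sing_lim {z z' g : ℝ → ℝ} {b η γ : ℝ} (hb : 0 < b)
    (hz : ∀ x ∈ Ioo 0 η, HasDerivAt z (z' x) x) (he : ∀ x ∈ Ioo 0 η, 2 * x * z' x + b * z x = g x)
    (hη : 0 < η) (hg : Tendsto g (𝓝[>] 0) (𝓝 γ))
    (h0 : Tendsto (fun x => x ^ (b / 2) * z x) (𝓝[>] 0) (𝓝 0)) :
    Tendsto z (𝓝[>] 0) (𝓝 (γ / b)) := by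
  rw [tendsto_order]
  constructor
  · intro c hc
    have h1 : 0 < γ - c * b := by
      rw [lt_div_iff₀ hb] at hc
      linarith
    have h2 := sing_le (z := fun x => -z x) (z' := fun x => -z' x) (g := fun x => -g x) (γ := -γ)
      hb (fun x hx => (hz x hx).neg) (fun x hx => by have := he x hx; linarith) hη hg.neg
      (by
        have := h0.neg
        rw [neg_zero] at this
        refine this.congr fun x => ?_
        ring) (ε := (γ - c * b) / 2) (by positivity)
    filter_upwards [h2] with x hx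
    rw [le_div_iff₀ hb] at hx
    by_contra hcon
    push Not at hcon
    have := mul_le_mul_of_nonneg_right hcon hb.le
    linarith
  · intro c hc
    have h1 : 0 < c * b - γ := by
      rw [gt_iff_lt, div_lt_iff₀ hb] at hc
      linarith
    have h2 := sing_le hb hz he hη hg h0 (ε := (c * b - γ) / 2) (by positivity)
    filter_upwards [h2] with x hx
    rw [le_div_iff₀ hb] at hx
    by_contra hcon
    push Not at hcon
    have := mul_le_mul_of_nonneg_right hcon hb.le
    linarith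

/-- one-sided derivative from the limit of the derivatives -/
theorem ext_deriv {y y₁ : ℝ → ℝ} {η : ℝ} (hη : 0 < η) (hc : ContinuousOn y (Ico 0 η))
    (hd : ∀ x ∈ Ioo 0 η, HasDerivAt y (y₁ x) x) (hc₁ : ContinuousOn y₁ (Ico 0 η)) :
    ∀ x ∈ Ico 0 η, HasDerivWithinAt y (y₁ x) (Ico 0 η) x := by
  intro x hx
  rcases hx.1.eq_or_lt with h0 | h0
  · subst h0
    have h1 : HasDerivWithinAt y (y₁ 0) (Ici 0) 0 := by
      apply hasDerivWithinAt_Ici_of_tendsto_deriv (s := Ioo 0 η)
      · intro x hx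
        exact (hd x hx).differentiableAt.differentiableWithinAt
      · exact (hc 0 ⟨le_refl _, hη⟩).mono Ioo_subset_Ico_self
      · exact Ioo_mem_nhdsGT hη
      · have h2 : Tendsto y₁ (𝓝[>] 0) (𝓝 (y₁ 0)) := by
          have h3 : Tendsto y₁ (𝓝[Ico 0 η] 0) (𝓝 (y₁ 0)) := hc₁ 0 ⟨le_refl _, hη⟩
          apply h3.mono_left
          rw [← nhdsWithin_Ioo_eq_nhdsGT hη]
          exact nhdsWithin_mono _ Ioo_subset_Ico_self
        refine h2.congr' ?_
        filter_upwards [Ioo_mem_nhdsGT hη] with x hx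
        exact (hd x hx).deriv.symm
    exact h1.mono Ico_subset_Ici_self
  · exact (hd x ⟨h0, hx.2⟩).hasDerivWithinAt

theorem contDiffOn_of_deriv {y y₁ : ℝ → ℝ} {η : ℝ} {n : ℕ} (hη : 0 < η)
    (hc : ContinuousOn y (Ico 0 η))
    (hd : ∀ x ∈ Ioo 0 η, HasDerivAt y (y₁ x) x) (hc₁ : ContDiffOn ℝ n y₁ (Ico 0 η)) :
    ContDiffOn ℝ (n + 1 : ℕ) y (Ico 0 η) := by
  have h1 := ext_deriv hη hc hd hc₁.continuousOn
  have hu : UniqueDiffOn ℝ (Ico (0 : ℝ) η) := uniqueDiffOn_Ico 0 η
  push_cast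
  rw [contDiffOn_succ_iff_derivWithin hu]
  refine ⟨fun x hx => (h1 x hx).differentiableWithinAt, by simp, ?_⟩
  exact hc₁.congr fun x hx => (h1 x hx).derivWithin (hu x hx)

theorem tendsto_zero_right {g : ℝ → ℝ} {η : ℝ} (hη : 0 < η) (hc : ContinuousOn g (Ico 0 η)) :
    Tendsto g (𝓝[>] 0) (𝓝 (g 0)) := by
  have h3 : Tendsto g (𝓝[Ico 0 η] 0) (𝓝 (g 0)) := hc 0 ⟨le_refl _, hη⟩
  apply h3.mono_left
  rw [← nhdsWithin_Ioo_eq_nhdsGT hη]
  exact nhdsWithin_mono _ Ioo_subset_Ico_self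

/-- continuity on `[0, η)` after redefining the value at `0` -/
theorem contOn_update {y : ℝ → ℝ} {η γ : ℝ} (hc : ∀ x ∈ Ioo 0 η, ContinuousAt y x)
    (h0 : Tendsto y (𝓝[>] 0) (𝓝 γ)) : ContinuousOn (Function.update y 0 γ) (Ico 0 η) := by
  intro x hx
  rcases hx.1.eq_or_lt with h | h
  · subst h
    rw [ContinuousWithinAt, Function.update_self]
    have h1 : Tendsto (Function.update y 0 γ) (𝓝[>] 0) (𝓝 γ) := by
      refine h0.congr' ?_
      filter_upwards [self_mem_nhdsWithin] with x hx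
      rw [Function.update_of_ne (ne_of_gt hx)]
    have h2 : 𝓝[Ico 0 η] (0 : ℝ) ≤ 𝓝[insert 0 (Ioi 0)] 0 := by
      apply nhdsWithin_mono
      intro x hx
      rcases hx.1.eq_or_lt with h | h
      · left; exact h.symm
      · right; exact h
    refine Tendsto.mono_left ?_ h2
    rw [nhdsWithin_insert, tendsto_sup]
    refine ⟨?_, h1⟩
    rw [tendsto_pure_left]
    intro s hs
    rw [Function.update_self]
    exact mem_of_mem_nhds hs
  · have h1 : ContinuousAt (Function.update y 0 γ) x := by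
      refine (hc x ⟨h, hx.2⟩).congr ?_
      filter_upwards [isOpen_ne.mem_nhds h.ne'] with z hz
      rw [Function.update_of_ne hz]
    exact h1.continuousWithinAt

/-- Regularity for the linear equation. -/
theorem lin_reg (n : ℕ) : ∀ {a η : ℝ} {y y' g : ℝ → ℝ}, 0 < a → 0 < η →
    ContinuousOn y (Ico 0 η) → (∀ x ∈ Ioo 0 η, HasDerivAt y (y' x) x) →
    (∀ x ∈ Ioo 0 η, 2 * x * y' x + a * y x = g x) → ContDiffOn ℝ n g (Ico 0 η) →
    ContDiffOn ℝ n y (Ico 0 η) := by
  induction n with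
  | zero =>
    intro a η y y' g _ _ hc _ _ _
    simpa using hc
  | succ n ih =>
    intro a η y y' g ha hη hc hd he hg
    have hu : UniqueDiffOn ℝ (Ico (0 : ℝ) η) := uniqueDiffOn_Ico 0 η
    have hg' : ContDiffOn ℝ (n + 1) g (Ico 0 η) := by exact_mod_cast hg
    rw [contDiffOn_succ_iff_derivWithin hu] at hg'
    obtain ⟨hgd, _, hg1⟩ := hg'
    set g₁ := derivWithin g (Ico 0 η) with hg₁
    have hgd' : ∀ x ∈ Ioo 0 η, HasDerivAt g (g₁ x) x := by
      intro x hx
      have h1 := (hgd x ⟨hx.1.le, hx.2⟩).hasDerivWithinAt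
      exact h1.hasDerivAt (Ico_mem_nhds hx.1 hx.2)
    set z : ℝ → ℝ := fun x => (g x - a * y x) / (2 * x) with hz
    have hzy : ∀ x ∈ Ioo 0 η, z x = y' x := by
      intro x hx
      have := he x hx
      simp only [hz]
      rw [← this]
      have := hx.1.ne'
      field_simp
      ring
    have hzd : ∀ x ∈ Ioo 0 η, HasDerivAt z ((g₁ x - (a + 2) * z x) / (2 * x)) x := by
      intro x hx
      have h1 := ((hgd' x hx).sub ((hd x hx).const_mul a)).div
        ((hasDerivAt_id x).const_mul 2) (by simpa using hx.1.ne')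
      refine h1.congr_deriv ?_
      rw [← hzy x hx]
      simp only [hz, Pi.sub_apply, id]
      have := hx.1.ne'
      field_simp
      ring
    have hbd : Tendsto (fun x => g x - a * y x) (𝓝[>] 0) (𝓝 (g 0 - a * y 0)) :=
      (tendsto_zero_right hη (hg.continuousOn)).sub ((tendsto_zero_right hη hc).const_mul a)
    have hzlim : Tendsto z (𝓝[>] 0) (𝓝 (g₁ 0 / (a + 2))) := by
      apply sing_lim (b := a + 2) (by linarith) hzd (fun x hx => ?_) hη
        (tendsto_zero_right hη hg1.continuousOn)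
      · have h1 : Tendsto (fun x : ℝ => x ^ (a / 2)) (𝓝[>] 0) (𝓝 0) := by
          have a3 : ContinuousAt (fun x : ℝ => x ^ (a / 2)) 0 :=
            Real.continuousAt_rpow_const _ _ (Or.inr (by positivity))
          have a4 := a3.tendsto
          rw [Real.zero_rpow (by positivity)] at a4
          exact a4.mono_left nhdsWithin_le_nhds
        have h2 := (h1.mul hbd).div_const 2
        simp only [zero_mul, zero_div] at h2
        refine h2.congr' ?_
        filter_upwards [self_mem_nhdsWithin] with x hx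
        have hx0 : x ≠ 0 := ne_of_gt hx
        have h3 : x ^ ((a + 2) / 2) = x ^ (a / 2) * x := by
          have : (a + 2) / 2 = a / 2 + 1 := by ring
          rw [this, Real.rpow_add_one hx0]
        rw [h3]
        simp only [hz]
        field_simp
      · have := hx.1.ne'
        field_simp
        ring
    have hwc : ContinuousOn (Function.update z 0 (g₁ 0 / (a + 2))) (Ico 0 η) :=
      contOn_update (fun x hx => (hzd x hx).continuousAt) hzlim
    have hupd : ∀ x ∈ Ioo 0 η, Function.update z 0 (g₁ 0 / (a + 2)) x = z x := fun x hx =>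
      Function.update_of_ne hx.1.ne' _ _
    have hwd : ∀ x ∈ Ioo 0 η, HasDerivAt (Function.update z 0 (g₁ 0 / (a + 2)))
        ((g₁ x - (a + 2) * z x) / (2 * x)) x := by
      intro x hx
      refine (hzd x hx).congr_of_eventuallyEq ?_
      filter_upwards [isOpen_Ioo.mem_nhds hx] with w hw
      exact hupd w hw
    have hw : ContDiffOn ℝ n (Function.update z 0 (g₁ 0 / (a + 2))) (Ico 0 η) := by
      apply ih (a := a + 2) (g := g₁) (by linarith) hη hwc hwd _ hg1
      intro x hx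
      rw [hupd x hx]
      have := hx.1.ne'
      field_simp
      ring
    apply contDiffOn_of_deriv hη hc _ hw
    intro x hx
    rw [hupd x hx, hzy x hx]
    exact hd x hx

end Pool.Agent.Helper532_SymMCF

end

section

/-!
The limit differential equation near an axis of rotation, for graphs over the distance to the axis.
-/

open Set Filter Topology
open scoped ContDiff

namespace Pool.Agent.Helper532_SymMCF

/-- Smoothness of the solution as a function of the squared distance to the axis. -/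
theorem ax_smooth {k c B R₀ η : ℝ} (hk : 0 ≤ k) (hη : 0 < η) {F : ℝ → ℝ} {U : Set ℝ}
    (hU : IsOpen U) (hF : ContDiffOn ℝ ∞ F U) (hR : R₀ ∈ U) {ψ v v' : ℝ → ℝ}
    (hψU : ∀ x ∈ Ioo 0 η, ψ x ∈ U)
    (hψ : ∀ x ∈ Ioo 0 η, HasDerivAt ψ (v x / 2) x) (hv : ∀ x ∈ Ioo 0 η, HasDerivAt v (v' x) x)
    (he : ∀ x ∈ Ioo 0 η, 2 * x * v' x + (k + 1) * v x = F (ψ x) +
      x * (c * v x + v x ^ 2 * F (ψ x) - k * v x ^ 3 + c * x * v x ^ 3))
    (hψ0 : ψ 0 = R₀) (hψl : Tendsto ψ (𝓝[>] 0) (𝓝 R₀)) (hB : ∀ x ∈ Ioo 0 η, |v x| ≤ B) :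
    ContDiffOn ℝ ∞ ψ (Ico 0 η) := by
  have hUF : ∀ x ∈ Ico 0 η, ψ x ∈ U := by
    intro x hx
    rcases hx.1.eq_or_lt with h | h
    · rw [← h, hψ0]; exact hR
    · exact hψU x ⟨h, hx.2⟩
  have hψc : ContinuousOn ψ (Ico 0 η) := by
    have h1 := contOn_update (y := ψ) (η := η) (fun x hx => (hψ x hx).continuousAt) hψl
    rw [← hψ0, Function.update_eq_self] at h1
    exact h1
  have hx0 : Tendsto (fun x : ℝ => x) (𝓝[>] 0) (𝓝 0) := tendsto_id.mono_left nhdsWithin_le_nhds
  -- `x * (bounded)` tends to zero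
  have hbdd : ∀ g : ℝ → ℝ, ∀ M : ℝ, (∀ x ∈ Ioo 0 η, |g x| ≤ M) →
      Tendsto (fun x => x * g x) (𝓝[>] 0) (𝓝 0) := by
    intro g M hg
    have h1 : Tendsto (fun x : ℝ => x * M) (𝓝[>] 0) (𝓝 0) := by simpa using hx0.mul_const M
    apply squeeze_zero_norm' _ h1
    filter_upwards [Ioo_mem_nhdsGT hη] with x hx
    rw [Real.norm_eq_abs, abs_mul, abs_of_pos hx.1]
    exact mul_le_mul_of_nonneg_left (hg x hx) hx.1.le
  have hFlim : Tendsto (fun x => F (ψ x)) (𝓝[>] 0) (𝓝 (F R₀)) :=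
    ((hF.continuousOn.continuousAt (hU.mem_nhds hR)).tendsto).comp hψl
  have hvlim : Tendsto v (𝓝[>] 0) (𝓝 (F R₀ / (k + 1))) := by
    apply sing_lim (by linarith) hv he hη
    · -- the right-hand side
      have hFb : ∀ᶠ x in 𝓝[>] (0 : ℝ), |F (ψ x)| ≤ |F R₀| + 1 :=
        hFlim.abs.eventually_le_const (by linarith)
      have h1 : Tendsto (fun x => x * (c * v x + v x ^ 2 * F (ψ x) - k * v x ^ 3 +
          c * x * v x ^ 3)) (𝓝[>] 0) (𝓝 0) := by
        have t1 := hbdd (fun x => v x) B hB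
        have hB0 : 0 ≤ B := (abs_nonneg _).trans (hB (η / 2) ⟨by linarith, by linarith⟩)
        have t2 := hbdd (fun x => v x ^ 2) (B ^ 2) (fun x hx => by
          rw [abs_pow]; exact pow_le_pow_left₀ (abs_nonneg _) (hB x hx) 2)
        have t3 := hbdd (fun x => v x ^ 3) (B ^ 3) (fun x hx => by
          rw [abs_pow]; exact pow_le_pow_left₀ (abs_nonneg _) (hB x hx) 3)
        have t4 := (((t1.const_mul c).add (t2.mul hFlim)).sub (t3.const_mul k)).add
          ((hx0.mul t3).const_mul c)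
        simp only [mul_zero, zero_mul, add_zero, sub_zero] at t4
        refine t4.congr fun x => ?_
        ring
      simpa using hFlim.add h1
    · have hB0 : 0 ≤ B := (abs_nonneg _).trans (hB (η / 2) ⟨by linarith, by linarith⟩)
      have a2 : Tendsto (fun x : ℝ => x ^ ((k + 1) / 2)) (𝓝[>] 0) (𝓝 0) := by
        have a3 : ContinuousAt (fun x : ℝ => x ^ ((k + 1) / 2)) 0 :=
          Real.continuousAt_rpow_const _ _ (Or.inr (by positivity))
        have a4 := a3.tendsto
        rw [Real.zero_rpow (by positivity)] at a4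
        exact a4.mono_left nhdsWithin_le_nhds
      have a5 : Tendsto (fun x : ℝ => x ^ ((k + 1) / 2) * B) (𝓝[>] 0) (𝓝 0) := by
        simpa using a2.mul_const B
      apply squeeze_zero_norm' _ a5
      filter_upwards [Ioo_mem_nhdsGT hη] with x hx
      rw [Real.norm_eq_abs, abs_mul, abs_of_nonneg (Real.rpow_nonneg hx.1.le _)]
      exact mul_le_mul_of_nonneg_left (hB x hx) (Real.rpow_nonneg hx.1.le _)
  set w := Function.update v 0 (F R₀ / (k + 1)) with hw
  have hwv : ∀ x ∈ Ioo 0 η, w x = v x := fun x hx => Function.update_of_ne hx.1.ne' _ _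
  have hw0 : w 0 = F R₀ / (k + 1) := Function.update_self _ _ _
  have hwc : ContinuousOn w (Ico 0 η) := contOn_update (fun x hx => (hv x hx).continuousAt) hvlim
  have hψw : ∀ x ∈ Ioo 0 η, HasDerivAt ψ (w x / 2) x := fun x hx => by
    rw [hwv x hx]; exact hψ x hx
  have hcong : ∀ x ∈ Ioo 0 η, w =ᶠ[𝓝 x] v := fun x hx => by
    filter_upwards [isOpen_Ioo.mem_nhds hx] with y hy
    exact hwv y hy
  have hwd : ∀ x ∈ Ioo 0 η, HasDerivAt w (v' x) x := fun x hx =>
    (hv x hx).congr_of_eventuallyEq (hcong x hx)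
  -- right-hand side
  obtain ⟨G, hG⟩ : ∃ G : ℝ → ℝ, G = fun x => c * w x + w x ^ 2 * F (ψ x) - k * w x ^ 3 +
    c * x * w x ^ 3 := ⟨_, rfl⟩
  obtain ⟨h, hh⟩ : ∃ h : ℝ → ℝ, h = fun x => F (ψ x) + x * G x := ⟨_, rfl⟩
  have hF' : ContDiffOn ℝ ∞ (deriv F) U := by
    have := hF.deriv_of_isOpen hU (m := ∞) (by simp)
    exact this
  obtain ⟨g₁, hg₁⟩ : ∃ g₁ : ℝ → ℝ, g₁ = fun x => deriv F (ψ x) * (w x / 2) + G x +
    x * w x ^ 2 * (deriv F (ψ x) * (w x / 2)) + c * x * w x ^ 3 +
    (h x - (k + 1) * w x) / 2 * (c + 2 * w x * F (ψ x) - 3 * k * w x ^ 2 + 3 * c * x * w x ^ 2) :=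
    ⟨_, rfl⟩
  have hheq : ∀ x ∈ Ioo 0 η, 2 * x * v' x + (k + 1) * w x = h x := by
    intro x hx
    rw [hh, hG]
    simp only
    rw [hwv x hx]
    exact he x hx
  have key : ∀ n : ℕ, ContDiffOn ℝ n w (Ico 0 η) ∧ ContDiffOn ℝ (n + 1 : ℕ) ψ (Ico 0 η) := by
    intro n
    induction n with
    | zero =>
      have hw' : ContDiffOn ℝ (0 : ℕ) w (Ico 0 η) := by simpa using hwc
      exact ⟨hw', contDiffOn_of_deriv hη hψc hψw (hw'.div_const 2)⟩
    | succ n ih =>
      obtain ⟨ihw, ihψ⟩ := ih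
      have ihψn : ContDiffOn ℝ n ψ (Ico 0 η) := ihψ.of_le (by exact_mod_cast Nat.le_succ n)
      have cF : ContDiffOn ℝ n (fun x => F (ψ x)) (Ico 0 η) :=
        (hF.of_le (by exact_mod_cast le_top)).comp ihψn hUF
      have cF' : ContDiffOn ℝ n (fun x => deriv F (ψ x)) (Ico 0 η) :=
        (hF'.of_le (by exact_mod_cast le_top)).comp ihψn hUF
      have cid : ContDiffOn ℝ n (fun x : ℝ => x) (Ico 0 η) := contDiffOn_id
      have cG : ContDiffOn ℝ n G (Ico 0 η) := by
        rw [hG]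
        exact (((contDiffOn_const.mul ihw).add ((ihw.pow 2).mul cF)).sub
          (contDiffOn_const.mul (ihw.pow 3))).add ((contDiffOn_const.mul cid).mul (ihw.pow 3))
      have ch : ContDiffOn ℝ n h (Ico 0 η) := by
        rw [hh]
        exact cF.add (cid.mul cG)
      have cg : ContDiffOn ℝ n g₁ (Ico 0 η) := by
        rw [hg₁]
        exact ((((cF'.mul (ihw.div_const 2)).add cG).add ((cid.mul (ihw.pow 2)).mul
          (cF'.mul (ihw.div_const 2)))).add ((contDiffOn_const.mul cid).mul (ihw.pow 3))).add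
          (((ch.sub (contDiffOn_const.mul ihw)).div_const 2).mul (((contDiffOn_const.add
          ((contDiffOn_const.mul ihw).mul cF)).sub (contDiffOn_const.mul (ihw.pow 2))).add
          ((contDiffOn_const.mul cid).mul (ihw.pow 2))))
      -- derivative of `w`
      obtain ⟨z, hz⟩ : ∃ z : ℝ → ℝ, z = fun x => (h x - (k + 1) * w x) / (2 * x) := ⟨_, rfl⟩
      have hzv : ∀ x ∈ Ioo 0 η, z x = v' x := by
        intro x hx
        rw [hz]
        simp only
        rw [← hheq x hx]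
        have := hx.1.ne'
        field_simp
        ring
      have hFd : ∀ x ∈ Ioo 0 η, HasDerivAt (fun x => F (ψ x)) (deriv F (ψ x) * (w x / 2)) x := by
        intro x hx
        have h1 : HasDerivAt F (deriv F (ψ x)) (ψ x) :=
          ((hF.contDiffAt (hU.mem_nhds (hψU x hx))).differentiableAt (by simp)).hasDerivAt
        exact h1.comp x (hψw x hx)
      have hhd : ∀ x ∈ Ioo 0 η, HasDerivAt h (g₁ x) x := by
        intro x hx
        have a1 := hFd x hx
        have a2 := hwd x hx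
        have a3 := hasDerivAt_id x
        have dG : HasDerivAt G (c * v' x + (2 * w x * v' x * F (ψ x) + w x ^ 2 *
            (deriv F (ψ x) * (w x / 2))) - k * (3 * w x ^ 2 * v' x) +
            (c * w x ^ 3 + c * x * (3 * w x ^ 2 * v' x))) x := by
          rw [hG]
          refine ((((a2.const_mul c).add ((a2.pow 2).mul a1)).sub ((a2.pow 3).const_mul k)).add
            ((a3.const_mul c).mul (a2.pow 3))).congr_deriv ?_
          simp only [Pi.pow_apply, id]
          push_cast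
          ring
        have dh := a1.add (a3.mul dG)
        rw [hh]
        refine dh.congr_deriv ?_
        rw [hg₁]
        simp only [id]
        have e := hheq x hx
        have e2 : (h x - (k + 1) * w x) / 2 = x * v' x := by rw [← e]; ring
        rw [e2]
        ring
      have hzd : ∀ x ∈ Ioo 0 η, HasDerivAt z ((g₁ x - (k + 3) * z x) / (2 * x)) x := by
        intro x hx
        have h1 := ((hhd x hx).sub ((hwd x hx).const_mul (k + 1))).div
          ((hasDerivAt_id x).const_mul 2) (by simpa using hx.1.ne')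
        rw [hz]
        refine h1.congr_deriv ?_
        rw [← hzv x hx, hz]
        simp only [Pi.sub_apply, id]
        have := hx.1.ne'
        field_simp
        ring
      have hzlim : Tendsto z (𝓝[>] 0) (𝓝 (g₁ 0 / (k + 3))) := by
        apply sing_lim (b := k + 3) (by linarith) hzd (fun x hx => ?_) hη
          (tendsto_zero_right hη cg.continuousOn)
        · have h1 : Tendsto (fun x : ℝ => x ^ ((k + 1) / 2)) (𝓝[>] 0) (𝓝 0) := by
            have a3 : ContinuousAt (fun x : ℝ => x ^ ((k + 1) / 2)) 0 :=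
              Real.continuousAt_rpow_const _ _ (Or.inr (by positivity))
            have a4 := a3.tendsto
            rw [Real.zero_rpow (by positivity)] at a4
            exact a4.mono_left nhdsWithin_le_nhds
          have hbd : Tendsto (fun x => h x - (k + 1) * w x) (𝓝[>] 0) (𝓝 (h 0 - (k + 1) * w 0)) :=
            (tendsto_zero_right hη ch.continuousOn).sub
              ((tendsto_zero_right hη ihw.continuousOn).const_mul (k + 1))
          have h2 := (h1.mul hbd).div_const 2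
          simp only [zero_mul, zero_div] at h2
          refine h2.congr' ?_
          filter_upwards [self_mem_nhdsWithin] with x hx
          have hx0 : x ≠ 0 := ne_of_gt hx
          have h3 : x ^ ((k + 3) / 2) = x ^ ((k + 1) / 2) * x := by
            have : (k + 3) / 2 = (k + 1) / 2 + 1 := by ring
            rw [this, Real.rpow_add_one hx0]
          rw [h3, hz]
          field_simp
        · have := hx.1.ne'
          field_simp
          ring
      have hzc : ContinuousOn (Function.update z 0 (g₁ 0 / (k + 3))) (Ico 0 η) :=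
        contOn_update (fun x hx => (hzd x hx).continuousAt) hzlim
      have hupd : ∀ x ∈ Ioo 0 η, Function.update z 0 (g₁ 0 / (k + 3)) x = z x := fun x hx =>
        Function.update_of_ne hx.1.ne' _ _
      have hzd' : ∀ x ∈ Ioo 0 η, HasDerivAt (Function.update z 0 (g₁ 0 / (k + 3)))
          ((g₁ x - (k + 3) * z x) / (2 * x)) x := by
        intro x hx
        refine (hzd x hx).congr_of_eventuallyEq ?_
        filter_upwards [isOpen_Ioo.mem_nhds hx] with y hy
        exact hupd y hy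
      have cz : ContDiffOn ℝ n (Function.update z 0 (g₁ 0 / (k + 3))) (Ico 0 η) := by
        apply lin_reg n (a := k + 3) (g := g₁) (by linarith) hη hzc hzd' _ cg
        intro x hx
        rw [hupd x hx]
        have := hx.1.ne'
        field_simp
        ring
      have cw : ContDiffOn ℝ (n + 1 : ℕ) w (Ico 0 η) := by
        apply contDiffOn_of_deriv hη hwc _ cz
        intro x hx
        rw [hupd x hx, hzv x hx]
        exact hwd x hx
      exact ⟨cw, contDiffOn_of_deriv hη hψc hψw (cw.div_const 2)⟩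
  rw [contDiffOn_infty]
  intro n
  exact ((key n).2).of_le (by exact_mod_cast Nat.le_succ n)

end Pool.Agent.Helper532_SymMCF

end

section

/-!
Solutions of the limit differential equation which start at an axis of rotation.
-/

open Set Filter Topology
open scoped ContDiff

namespace Pool.Agent.Helper532_SymMCF

/-- `φ`, with slope `σ`, is a solution on `(a, b)` of the limit equation, as a graph over the
distance `s` to the axis. -/
structure GSol (k : ℕ) (c : ℝ) (F : ℝ → ℝ) (a b : ℝ) (φ σ : ℝ → ℝ) : Prop where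
  dφ : ∀ s ∈ Ioo a b, HasDerivAt φ (σ s) s
  dσ : ∀ s ∈ Ioo a b, HasDerivAt σ ((1 + σ s ^ 2) * (F (φ s) - (k / s - c * s) * σ s)) s

/-- `φ` is a solution on `(0, h)` which starts at the point `R₀` of the axis. -/
structure AxG (k : ℕ) (c R₀ h : ℝ) (F : ℝ → ℝ) (φ σ : ℝ → ℝ) : Prop where
  sol : GSol k c F 0 h φ σ
  bσ : ∀ s ∈ Ioo 0 h, |σ s| ≤ 4
  bφ : ∀ s ∈ Ioo 0 h, |φ s - R₀| ≤ 4 * s

/-- bounds for the function `F` -/
structure FB (F : ℝ → ℝ) (R₀ ρ C L : ℝ) : Prop where
  ρ0 : 0 < ρ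
  C0 : 0 ≤ C
  L0 : 0 ≤ L
  bd : ∀ x, |x - R₀| ≤ ρ → |F x| ≤ C
  lip : ∀ x y, |x - R₀| ≤ ρ → |y - R₀| ≤ ρ → |F x - F y| ≤ L * |x - y|

theorem abs_le_of_deriv {K K' : ℝ → ℝ} {x y M : ℝ} (hxy : x ≤ y)
    (hd : ∀ s ∈ Icc x y, HasDerivAt K (K' s) s) (hM : ∀ s ∈ Icc x y, |K' s| ≤ M) :
    |K y - K x| ≤ M * (y - x) := by
  have := Convex.norm_image_sub_le_of_norm_hasDerivWithin_le (f := K) (f' := K') (C := M)
    (s := Icc x y) (fun s hs => (hd s hs).hasDerivWithinAt)
    (fun s hs => hM s hs) (convex_Icc x y) (left_mem_Icc.2 hxy) (right_mem_Icc.2 hxy)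
  rw [Real.norm_eq_abs, Real.norm_eq_abs, abs_of_nonneg (sub_nonneg.2 hxy)] at this
  exact this

theorem sqrt_bds (σ : ℝ) : 1 ≤ √(1 + σ ^ 2) ∧ |σ| ≤ √(1 + σ ^ 2) ∧ √(1 + σ ^ 2) ^ 2 = 1 + σ ^ 2 := by
  refine ⟨?_, ?_, Real.sq_sqrt (by positivity)⟩
  · rw [show (1 : ℝ) = √1 by simp]
    apply Real.sqrt_le_sqrt
    simp
    positivity
  · apply Real.abs_le_sqrt
    linarith

theorem slope_deriv {σ : ℝ → ℝ} {s d : ℝ} (hd : HasDerivAt σ ((1 + σ s ^ 2) * d) s) :
    HasDerivAt (fun s => σ s / √(1 + σ s ^ 2)) (d / √(1 + σ s ^ 2)) s := by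
  obtain ⟨h1, h2, h3⟩ := sqrt_bds (σ s)
  have h0 : (1 + σ s ^ 2) ≠ 0 := by positivity
  have hr0 : 0 < √(1 + σ s ^ 2) := by linarith
  have hr : HasDerivAt (fun s => √(1 + σ s ^ 2))
      (σ s * ((1 + σ s ^ 2) * d) / √(1 + σ s ^ 2)) s := by
    refine (((hd.pow 2).const_add 1).sqrt h0).congr_deriv ?_
    simp only [Pi.pow_apply]
    push_cast
    field_simp
  refine (hd.div hr hr0.ne').congr_deriv ?_
  have h3' : 1 + σ s ^ 2 = √(1 + σ s ^ 2) ^ 2 := h3.symm
  generalize √(1 + σ s ^ 2) = r at *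
  rw [h3']
  field_simp
  have : σ s ^ 2 = r ^ 2 - 1 := by linarith
  rw [this]
  ring

theorem AxG.momentum {k : ℕ} (hk : 1 ≤ k) {c R₀ h : ℝ} {F φ σ : ℝ → ℝ} (hA : AxG k c R₀ h F φ σ)
    {s : ℝ} (hs : s ∈ Ioo 0 h) :
    HasDerivAt (fun s => s ^ k * (σ s / √(1 + σ s ^ 2)))
      (s ^ k * (F (φ s) / √(1 + σ s ^ 2) + c * s * (σ s / √(1 + σ s ^ 2)))) s := by
  obtain ⟨h1, h2, h3⟩ := sqrt_bds (σ s)
  have hW := slope_deriv (hA.sol.dσ s hs)
  have hs0 := hs.1.ne'
  obtain ⟨m, rfl⟩ : ∃ m, k = m + 1 := ⟨k - 1, by omega⟩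
  have hp : HasDerivAt (fun s : ℝ => s ^ (m + 1)) (((m + 1 : ℕ) : ℝ) * s ^ m) s := by
    simpa using hasDerivAt_pow (m + 1) s
  refine (hp.mul hW).congr_deriv ?_
  have hr0 : √(1 + σ s ^ 2) ≠ 0 := by positivity
  generalize √(1 + σ s ^ 2) = r at *
  rw [pow_succ]
  field_simp
  push_cast
  ring

/-- The slope is at most a multiple of the distance to the axis. -/
theorem AxG.slope {k : ℕ} (hk : 1 ≤ k) {c R₀ h : ℝ} {F φ σ : ℝ → ℝ} (hA : AxG k c R₀ h F φ σ)
    {ρ C L : ℝ} (hF : FB F R₀ ρ C L) {s : ℝ} (hs : s ∈ Ioo 0 h) (hs1 : s ≤ 1) (hsρ : 4 * s ≤ ρ) :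
    |σ s| ≤ 5 * (C + |c|) * s := by
  set J : ℝ → ℝ := fun s => s ^ k * (σ s / √(1 + σ s ^ 2)) with hJ
  have hWb : ∀ x, |σ x / √(1 + σ x ^ 2)| ≤ 1 := by
    intro x
    obtain ⟨h1, h2, h3⟩ := sqrt_bds (σ x)
    rw [abs_div, abs_of_pos (by linarith : 0 < √(1 + σ x ^ 2)), div_le_one (by linarith)]
    exact h2
  have hJ' : ∀ x ∈ Ioc 0 s, |x ^ k * (F (φ x) / √(1 + σ x ^ 2) + c * x * (σ x / √(1 + σ x ^ 2)))| ≤
      s ^ k * (C + |c|) := by
    intro x hx
    have hxh : x ∈ Ioo 0 h := ⟨hx.1, hx.2.trans_lt hs.2⟩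
    obtain ⟨h1, h2, h3⟩ := sqrt_bds (σ x)
    rw [abs_mul, abs_pow, abs_of_pos hx.1]
    apply mul_le_mul (pow_le_pow_left₀ hx.1.le hx.2 k) _ (abs_nonneg _) (by
      have := hs.1; positivity)
    refine (abs_add_le _ _).trans (add_le_add ?_ ?_)
    · rw [abs_div, abs_of_pos (by linarith : 0 < √(1 + σ x ^ 2))]
      refine (div_le_self (abs_nonneg _) h1).trans (hF.bd _ ?_)
      have := hA.bφ x hxh
      linarith [hx.2]
    · rw [abs_mul, abs_mul, abs_of_pos hx.1]
      have := hWb x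
      have h5 : x ≤ 1 := hx.2.trans hs1
      calc |c| * x * |σ x / √(1 + σ x ^ 2)| ≤ |c| * 1 * 1 := by
            have := hx.1.le
            gcongr
        _ = |c| := by ring
  have hbound : ∀ ε ∈ Ioo 0 s, |J s| ≤ ε ^ k + s ^ k * (C + |c|) * s := by
    intro ε hε
    have h1 := abs_le_of_deriv (K := J) (x := ε) (y := s) (M := s ^ k * (C + |c|)) hε.2.le
      (fun x hx => hA.momentum hk ⟨hε.1.trans_le hx.1, hx.2.trans_lt hs.2⟩)
      (fun x hx => hJ' x ⟨hε.1.trans_le hx.1, hx.2⟩)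
    have h2 : |J ε| ≤ ε ^ k := by
      simp only [hJ]
      rw [abs_mul, abs_pow, abs_of_pos hε.1]
      have := hWb ε
      have h3 : 0 ≤ ε ^ k := pow_nonneg hε.1.le k
      exact mul_le_of_le_one_right h3 this
    have h3 : |J s| ≤ |J s - J ε| + |J ε| := by
      have := abs_add_le (J s - J ε) (J ε)
      simpa using this
    have h4 : s ^ k * (C + |c|) * (s - ε) ≤ s ^ k * (C + |c|) * s := by
      have := hF.C0
      have := hs.1
      apply mul_le_mul_of_nonneg_left _ (by positivity)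
      linarith [hε.1]
    linarith
  have hlim : |J s| ≤ s ^ k * (C + |c|) * s := by
    have h1 : Tendsto (fun ε : ℝ => ε ^ k + s ^ k * (C + |c|) * s) (𝓝[>] 0)
        (𝓝 (0 ^ k + s ^ k * (C + |c|) * s)) := by
      have : Continuous fun ε : ℝ => ε ^ k + s ^ k * (C + |c|) * s := by fun_prop
      exact (this.tendsto 0).mono_left nhdsWithin_le_nhds
    rw [zero_pow (by omega), zero_add] at h1
    apply ge_of_tendsto h1
    filter_upwards [Ioo_mem_nhdsGT hs.1] with ε hε
    exact hbound ε hε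
  have hsk : 0 < s ^ k := pow_pos hs.1 k
  obtain ⟨h1, h2, h3⟩ := sqrt_bds (σ s)
  have hW : |σ s| / √(1 + σ s ^ 2) ≤ (C + |c|) * s := by
    simp only [hJ] at hlim
    rw [abs_mul, abs_of_pos hsk, abs_div, abs_of_pos (by linarith : 0 < √(1 + σ s ^ 2))] at hlim
    have : s ^ k * (C + |c|) * s = s ^ k * ((C + |c|) * s) := by ring
    rw [this] at hlim
    exact le_of_mul_le_mul_left hlim hsk
  rw [div_le_iff₀ (by linarith)] at hW
  have h5 : √(1 + σ s ^ 2) ≤ 5 := by
    rw [Real.sqrt_le_left (by norm_num)]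
    have := hA.bσ s hs
    have h6 := pow_le_pow_left₀ (abs_nonneg (σ s)) this 2
    rw [sq_abs] at h6
    linarith
  have h6 : 0 ≤ (C + |c|) * s := by
    have := hF.C0
    have := hs.1
    positivity
  calc |σ s| ≤ (C + |c|) * s * √(1 + σ s ^ 2) := hW
    _ ≤ (C + |c|) * s * 5 := mul_le_mul_of_nonneg_left h5 h6
    _ = 5 * (C + |c|) * s := by ring

/-- Uniqueness of the solution starting at a point of the axis. -/
theorem AxG.unique {k : ℕ} (hk : 1 ≤ k) {c R₀ : ℝ} {F : ℝ → ℝ} {ρ C L : ℝ} (hF : FB F R₀ ρ C L) :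
    ∃ h₁ > 0, ∀ {h h' : ℝ} {φ σ φ' σ' : ℝ → ℝ}, AxG k c R₀ h F φ σ → AxG k c R₀ h' F φ' σ' →
      ∀ s ∈ Ioo 0 (min (min h h') h₁), φ s = φ' s ∧ σ s = σ' s := by
  have hρ := hF.ρ0
  have hC := hF.C0
  have hL := hF.L0
  set D : ℝ := 5 * (C + |c|) with hD
  have hD0 : 0 ≤ D := by positivity
  set L' : ℝ := 17 * L + 8 * C + 49 * |c| + 3 * k * D ^ 2 with hL'
  have hL'0 : 0 ≤ L' := by positivity
  set h₁ : ℝ := min (min 1 (ρ / 4)) (min (1 / 2) (1 / (2 * L' + 2))) with hh₁
  refine ⟨h₁, by positivity, ?_⟩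
  intro h h' φ σ φ' σ' hA hA'
  have hh1 : h₁ ≤ 1 := (min_le_left _ _).trans (min_le_left _ _)
  have hhρ : h₁ ≤ ρ / 4 := (min_le_left _ _).trans (min_le_right _ _)
  have hh2 : h₁ ≤ 1 / 2 := (min_le_right _ _).trans (min_le_left _ _)
  have hh3 : h₁ * L' ≤ 1 / 2 := by
    have : h₁ ≤ 1 / (2 * L' + 2) := (min_le_right _ _).trans (min_le_right _ _)
    have h2 := mul_le_mul_of_nonneg_right this hL'0
    refine h2.trans ?_
    rw [div_mul_eq_mul_div, one_mul, div_le_iff₀ (by positivity)]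
    linarith
  have hmem : ∀ s ∈ Ioo 0 (min (min h h') h₁), s ∈ Ioo 0 h ∧ s ∈ Ioo 0 h' ∧ s ≤ h₁ := by
    intro s hs
    have h1 : min (min h h') h₁ ≤ h := (min_le_left _ _).trans (min_le_left _ _)
    have h2 : min (min h h') h₁ ≤ h' := (min_le_left _ _).trans (min_le_right _ _)
    have h3 : min (min h h') h₁ ≤ h₁ := min_le_right _ _
    exact ⟨⟨hs.1, hs.2.trans_le h1⟩, ⟨hs.1, hs.2.trans_le h2⟩, (hs.2.trans_le h3).le⟩
  -- halving
  have step : ∀ B : ℝ, 0 ≤ B → (∀ s ∈ Ioo 0 (min (min h h') h₁), |φ s - φ' s| ≤ B ∧ |σ s - σ' s| ≤ B) →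
      ∀ s ∈ Ioo 0 (min (min h h') h₁), |φ s - φ' s| ≤ B / 2 ∧ |σ s - σ' s| ≤ B / 2 := by
    intro B hB0 hB s hs
    obtain ⟨hs1, hs2, hs3⟩ := hmem s hs
    have hin : ∀ ε ∈ Ioo 0 s, ∀ x ∈ Icc ε s, x ∈ Ioo 0 (min (min h h') h₁) := fun ε hε x hx =>
      ⟨hε.1.trans_le hx.1, hx.2.trans_lt hs.2⟩
    constructor
    · have hbound : ∀ ε ∈ Ioo 0 s, |φ s - φ' s| ≤ 8 * ε + B * s := by
        intro ε hε
        have h1 := abs_le_of_deriv (K := fun s => φ s - φ' s) (K' := fun s => σ s - σ' s)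
          (x := ε) (y := s) (M := B) hε.2.le
          (fun x hx => (hA.sol.dφ x (hmem x (hin ε hε x hx)).1).sub
            (hA'.sol.dφ x (hmem x (hin ε hε x hx)).2.1))
          (fun x hx => (hB x (hin ε hε x hx)).2)
        have hεm := hmem ε (hin ε hε ε ⟨le_refl _, hε.2.le⟩)
        have h2 := hA.bφ ε hεm.1
        have h3 := hA'.bφ ε hεm.2.1
        have h4 : |φ ε - φ' ε| ≤ |φ ε - R₀| + |φ' ε - R₀| := by
          have := abs_sub (φ ε - R₀) (φ' ε - R₀)
          simpa using this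
        have h5 : |φ s - φ' s| ≤ |φ s - φ' s - (φ ε - φ' ε)| + |φ ε - φ' ε| := by
          have := abs_add_le (φ s - φ' s - (φ ε - φ' ε)) (φ ε - φ' ε)
          simpa using this
        have h6 : B * (s - ε) ≤ B * s := mul_le_mul_of_nonneg_left (by linarith [hε.1]) hB0
        linarith
      have h1 : Tendsto (fun ε : ℝ => 8 * ε + B * s) (𝓝[>] 0) (𝓝 (8 * 0 + B * s)) := by
        have : Continuous fun ε : ℝ => 8 * ε + B * s := by fun_prop
        exact (this.tendsto 0).mono_left nhdsWithin_le_nhds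
      rw [mul_zero, zero_add] at h1
      have h2 : |φ s - φ' s| ≤ B * s := by
        apply ge_of_tendsto h1
        filter_upwards [Ioo_mem_nhdsGT hs.1] with ε hε
        exact hbound ε hε
      have h3 : B * s ≤ B * (1 / 2) := mul_le_mul_of_nonneg_left (hs3.trans hh2) hB0
      linarith
    · -- the slopes
      set K : ℝ → ℝ := fun s => s ^ k * (σ s - σ' s) with hK
      obtain ⟨m, hm⟩ : ∃ m, k = m + 1 := ⟨k - 1, by omega⟩
      have hKd : ∀ x ∈ Ioo 0 (min (min h h') h₁), HasDerivAt K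
          (x ^ k * ((F (φ x) - F (φ' x)) + (σ x ^ 2 * F (φ x) - σ' x ^ 2 * F (φ' x)) +
            c * x * ((σ x - σ' x) + (σ x ^ 3 - σ' x ^ 3))) -
            k * x ^ (k - 1) * (σ x ^ 3 - σ' x ^ 3)) x := by
        intro x hx
        obtain ⟨hx1, hx2, hx3⟩ := hmem x hx
        have hx0 := hx1.1.ne'
        have hp : HasDerivAt (fun s : ℝ => s ^ k) ((k : ℝ) * x ^ (k - 1)) x := hasDerivAt_pow k x
        refine (hp.mul ((hA.sol.dσ x hx1).sub (hA'.sol.dσ x hx2))).congr_deriv ?_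
        have e : x ^ k = x ^ (k - 1) * x := by
          rw [hm, Nat.add_sub_cancel, pow_succ]
        rw [e]
        simp only [Pi.sub_apply]
        field_simp
        ring
      have hKb : ∀ x ∈ Ioc 0 s, |x ^ k * ((F (φ x) - F (φ' x)) +
            (σ x ^ 2 * F (φ x) - σ' x ^ 2 * F (φ' x)) +
            c * x * ((σ x - σ' x) + (σ x ^ 3 - σ' x ^ 3))) -
            k * x ^ (k - 1) * (σ x ^ 3 - σ' x ^ 3)| ≤ s ^ k * (L' * B) := by
        intro x hx
        have hx' : x ∈ Ioo 0 (min (min h h') h₁) := ⟨hx.1, hx.2.trans_lt hs.2⟩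
        obtain ⟨hx1, hx2, hx3⟩ := hmem x hx'
        obtain ⟨hB1, hB2⟩ := hB x hx'
        have b1 := hA.bσ x hx1
        have b2 := hA'.bσ x hx2
        have r1 : |φ x - R₀| ≤ ρ := (hA.bφ x hx1).trans (by linarith)
        have r2 : |φ' x - R₀| ≤ ρ := (hA'.bφ x hx2).trans (by linarith)
        have f1 := hF.lip _ _ r1 r2
        have f2 := hF.bd _ r1
        have d1 := hA.slope hk hF hx1 (hx3.trans hh1) (by linarith)
        have d2 := hA'.slope hk hF hx2 (hx3.trans hh1) (by linarith)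
        have g1 : |F (φ x) - F (φ' x)| ≤ L * B := f1.trans (mul_le_mul_of_nonneg_left hB1 hL)
        have g2 : |σ x ^ 2 * F (φ x) - σ' x ^ 2 * F (φ' x)| ≤ 8 * C * B + 16 * L * B := by
          have e : σ x ^ 2 * F (φ x) - σ' x ^ 2 * F (φ' x) =
              (σ x - σ' x) * (σ x + σ' x) * F (φ x) + σ' x ^ 2 * (F (φ x) - F (φ' x)) := by ring
          rw [e]
          refine (abs_add_le _ _).trans (add_le_add ?_ ?_)
          · rw [abs_mul, abs_mul]
            have e1 : |σ x + σ' x| ≤ 8 := (abs_add_le _ _).trans (by linarith)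
            calc |σ x - σ' x| * |σ x + σ' x| * |F (φ x)| ≤ B * 8 * C := by gcongr
              _ = 8 * C * B := by ring
          · rw [abs_mul, abs_pow]
            calc |σ' x| ^ 2 * |F (φ x) - F (φ' x)| ≤ 4 ^ 2 * (L * B) := by gcongr
              _ = 16 * L * B := by ring
        have g3 : |σ x ^ 3 - σ' x ^ 3| ≤ 48 * B := by
          have e : σ x ^ 3 - σ' x ^ 3 = (σ x - σ' x) * (σ x ^ 2 + σ x * σ' x + σ' x ^ 2) := by ring
          rw [e, abs_mul]
          have e1 : |σ x ^ 2 + σ x * σ' x + σ' x ^ 2| ≤ 48 := by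
            refine (abs_add_three _ _ _).trans ?_
            rw [abs_pow, abs_mul, abs_pow]
            have q1 := pow_le_pow_left₀ (abs_nonneg (σ x)) b1 2
            have q2 := pow_le_pow_left₀ (abs_nonneg (σ' x)) b2 2
            have q3 := mul_le_mul b1 b2 (abs_nonneg (σ' x)) (by norm_num)
            linarith
          calc |σ x - σ' x| * |σ x ^ 2 + σ x * σ' x + σ' x ^ 2| ≤ B * 48 := by gcongr
            _ = 48 * B := by ring
        have g4 : |σ x ^ 3 - σ' x ^ 3| ≤ 3 * D ^ 2 * x ^ 2 * B := by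
          have e : σ x ^ 3 - σ' x ^ 3 = (σ x - σ' x) * (σ x ^ 2 + σ x * σ' x + σ' x ^ 2) := by ring
          rw [e, abs_mul]
          have hx0 := hx.1.le
          have e1 : |σ x ^ 2 + σ x * σ' x + σ' x ^ 2| ≤ 3 * (D * x) ^ 2 := by
            refine (abs_add_three _ _ _).trans ?_
            rw [abs_pow, abs_mul, abs_pow]
            have q1 : |σ x| ^ 2 ≤ (D * x) ^ 2 := pow_le_pow_left₀ (abs_nonneg _) d1 2
            have q2 : |σ' x| ^ 2 ≤ (D * x) ^ 2 := pow_le_pow_left₀ (abs_nonneg _) d2 2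
            have q3 : |σ x| * |σ' x| ≤ (D * x) * (D * x) :=
              mul_le_mul d1 d2 (abs_nonneg _) (by positivity)
            linarith
          calc |σ x - σ' x| * |σ x ^ 2 + σ x * σ' x + σ' x ^ 2| ≤ B * (3 * (D * x) ^ 2) := by gcongr
            _ = 3 * D ^ 2 * x ^ 2 * B := by ring
        have hxk : x ^ k ≤ s ^ k := pow_le_pow_left₀ hx.1.le hx.2 k
        have hxk0 : 0 ≤ x ^ k := pow_nonneg hx.1.le k
        have hx1' : x ≤ 1 := hx3.trans hh1
        have t1 : |(F (φ x) - F (φ' x)) + (σ x ^ 2 * F (φ x) - σ' x ^ 2 * F (φ' x)) +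
            c * x * ((σ x - σ' x) + (σ x ^ 3 - σ' x ^ 3))| ≤
            (17 * L + 8 * C + 49 * |c|) * B := by
          refine (abs_add_three _ _ _).trans ?_
          have e1 : |c * x * ((σ x - σ' x) + (σ x ^ 3 - σ' x ^ 3))| ≤ |c| * 49 * B := by
            rw [abs_mul, abs_mul, abs_of_pos hx.1]
            have e2 : |(σ x - σ' x) + (σ x ^ 3 - σ' x ^ 3)| ≤ 49 * B :=
              (abs_add_le _ _).trans (by linarith)
            calc |c| * x * |(σ x - σ' x) + (σ x ^ 3 - σ' x ^ 3)| ≤ |c| * 1 * (49 * B) := by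
                  have := hx.1.le
                  gcongr
              _ = |c| * 49 * B := by ring
          linarith
        have t2 : |(k : ℝ) * x ^ (k - 1) * (σ x ^ 3 - σ' x ^ 3)| ≤ x ^ k * (3 * k * D ^ 2 * B) := by
          rw [abs_mul, abs_mul, Nat.abs_cast, abs_pow, abs_of_pos hx.1]
          have e : x ^ k = x ^ (k - 1) * x := by
            rw [hm, Nat.add_sub_cancel, pow_succ]
          have hx2' : x ^ 2 ≤ x := by
            rw [sq]; exact mul_le_of_le_one_right hx.1.le hx1'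
          have hxk1 : 0 ≤ x ^ (k - 1) := pow_nonneg hx.1.le _
          calc (k : ℝ) * x ^ (k - 1) * |σ x ^ 3 - σ' x ^ 3|
              ≤ k * x ^ (k - 1) * (3 * D ^ 2 * x ^ 2 * B) := by gcongr
            _ = k * x ^ (k - 1) * (3 * D ^ 2 * B) * x ^ 2 := by ring
            _ ≤ k * x ^ (k - 1) * (3 * D ^ 2 * B) * x := by gcongr
            _ = x ^ k * (3 * k * D ^ 2 * B) := by rw [e]; ring
        refine (abs_sub _ _).trans ?_
        rw [abs_mul, abs_of_nonneg hxk0]
        calc x ^ k * |(F (φ x) - F (φ' x)) + (σ x ^ 2 * F (φ x) - σ' x ^ 2 * F (φ' x)) +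
            c * x * ((σ x - σ' x) + (σ x ^ 3 - σ' x ^ 3))| +
            |(k : ℝ) * x ^ (k - 1) * (σ x ^ 3 - σ' x ^ 3)|
            ≤ x ^ k * ((17 * L + 8 * C + 49 * |c|) * B) + x ^ k * (3 * k * D ^ 2 * B) :=
              add_le_add (mul_le_mul_of_nonneg_left t1 hxk0) t2
          _ = x ^ k * (L' * B) := by rw [hL']; ring
          _ ≤ s ^ k * (L' * B) := by gcongr
      have hbound : ∀ ε ∈ Ioo 0 s, |K s| ≤ 8 * ε ^ k + s ^ k * (L' * B) * s := by
        intro ε hε
        have h1 := abs_le_of_deriv (K := K) (x := ε) (y := s) (M := s ^ k * (L' * B)) hε.2.le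
          (fun x hx => hKd x (hin ε hε x hx))
          (fun x hx => hKb x ⟨hε.1.trans_le hx.1, hx.2⟩)
        have hεm := hmem ε (hin ε hε ε ⟨le_refl _, hε.2.le⟩)
        have h2 : |K ε| ≤ 8 * ε ^ k := by
          simp only [hK]
          rw [abs_mul, abs_pow, abs_of_pos hε.1]
          have := hA.bσ ε hεm.1
          have := hA'.bσ ε hεm.2.1
          have h3 : |σ ε - σ' ε| ≤ 8 := (abs_sub _ _).trans (by linarith)
          have h4 : 0 ≤ ε ^ k := pow_nonneg hε.1.le k
          have h5 := mul_le_mul_of_nonneg_left h3 h4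
          linarith
        have h3 : |K s| ≤ |K s - K ε| + |K ε| := by
          have := abs_add_le (K s - K ε) (K ε)
          simpa using this
        have h4 : s ^ k * (L' * B) * (s - ε) ≤ s ^ k * (L' * B) * s := by
          have := hs.1
          apply mul_le_mul_of_nonneg_left _ (by positivity)
          linarith [hε.1]
        linarith
      have h1 : Tendsto (fun ε : ℝ => 8 * ε ^ k + s ^ k * (L' * B) * s) (𝓝[>] 0)
          (𝓝 (8 * 0 ^ k + s ^ k * (L' * B) * s)) := by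
        have : Continuous fun ε : ℝ => 8 * ε ^ k + s ^ k * (L' * B) * s := by fun_prop
        exact (this.tendsto 0).mono_left nhdsWithin_le_nhds
      rw [zero_pow (by omega), mul_zero, zero_add] at h1
      have h2 : |K s| ≤ s ^ k * (L' * B) * s := by
        apply ge_of_tendsto h1
        filter_upwards [Ioo_mem_nhdsGT hs.1] with ε hε
        exact hbound ε hε
      have hsk : 0 < s ^ k := pow_pos hs.1 k
      have h3 : |σ s - σ' s| ≤ L' * B * s := by
        simp only [hK] at h2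
        rw [abs_mul, abs_of_pos hsk] at h2
        have : s ^ k * (L' * B) * s = s ^ k * (L' * B * s) := by ring
        rw [this] at h2
        exact le_of_mul_le_mul_left h2 hsk
      have h4 : L' * B * s ≤ L' * B * h₁ := mul_le_mul_of_nonneg_left hs3 (by positivity)
      have h5 : L' * B * h₁ = B * (h₁ * L') := by ring
      have h6 : B * (h₁ * L') ≤ B * (1 / 2) := mul_le_mul_of_nonneg_left hh3 hB0
      linarith
  -- iteration
  have hiter : ∀ n : ℕ, ∀ s ∈ Ioo 0 (min (min h h') h₁),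
      |φ s - φ' s| ≤ 8 / 2 ^ n ∧ |σ s - σ' s| ≤ 8 / 2 ^ n := by
    intro n
    induction n with
    | zero =>
      intro s hs
      obtain ⟨hs1, hs2, hs3⟩ := hmem s hs
      have h2 := hA.bφ s hs1
      have h3 := hA'.bφ s hs2
      have h4 : |φ s - φ' s| ≤ |φ s - R₀| + |φ' s - R₀| := by
        have := abs_sub (φ s - R₀) (φ' s - R₀)
        simpa using this
      have := hA.bσ s hs1
      have := hA'.bσ s hs2
      have h5 : |σ s - σ' s| ≤ 8 := (abs_sub _ _).trans (by linarith)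
      simp only [pow_zero, div_one]
      exact ⟨by linarith, h5⟩
    | succ n ih =>
      intro s hs
      have := step (8 / 2 ^ n) (by positivity) ih s hs
      have e : (8 : ℝ) / 2 ^ (n + 1) = 8 / 2 ^ n / 2 := by
        rw [pow_succ]; field_simp
      rw [e]
      exact this
  intro s hs
  have hz : Tendsto (fun n : ℕ => (8 : ℝ) / 2 ^ n) atTop (𝓝 0) := by
    have := (tendsto_pow_atTop_nhds_zero_of_lt_one (r := (1 / 2 : ℝ)) (by norm_num)
      (by norm_num)).const_mul 8
    simp only [mul_zero] at this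
    refine this.congr fun n => ?_
    rw [one_div, inv_pow]
    rfl
  constructor
  · have h1 : |φ s - φ' s| ≤ 0 := ge_of_tendsto' hz fun n => (hiter n s hs).1
    exact sub_eq_zero.1 (abs_eq_zero.1 (le_antisymm h1 (abs_nonneg _)))
  · have h1 : |σ s - σ' s| ≤ 0 := ge_of_tendsto' hz fun n => (hiter n s hs).2
    exact sub_eq_zero.1 (abs_eq_zero.1 (le_antisymm h1 (abs_nonneg _)))

end Pool.Agent.Helper532_SymMCF

end

section

/-!
Smoothness at the axis of the solutions which start at the axis.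
-/

open Set Filter Topology
open scoped ContDiff

namespace Pool.Agent.Helper532_SymMCF

theorem AxG.smooth {k : ℕ} (hk : 1 ≤ k) {c R₀ h : ℝ} {F φ σ : ℝ → ℝ} (hA : AxG k c R₀ h F φ σ)
    {ρ C L : ℝ} (hF : FB F R₀ ρ C L) (hh : 0 < h) {U : Set ℝ} (hU : IsOpen U)
    (hFU : ContDiffOn ℝ ∞ F U) (hR : R₀ ∈ U) :
    ∃ s₀ > 0, ∃ ψ : ℝ → ℝ, ContDiffOn ℝ ∞ ψ (Ico 0 (s₀ ^ 2)) ∧ ψ 0 = R₀ ∧
      ∀ s ∈ Ioo 0 s₀, φ s = ψ (s ^ 2) := by
  have hρ := hF.ρ0
  obtain ⟨r, hr, hrU⟩ := Metric.isOpen_iff.1 hU R₀ hR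
  set s₀ : ℝ := min (min h 1) (min (ρ / 4) (r / 8)) with hs₀
  have hs₀0 : 0 < s₀ := by positivity
  have m1 : s₀ ≤ h := (min_le_left _ _).trans (min_le_left _ _)
  have m2 : s₀ ≤ 1 := (min_le_left _ _).trans (min_le_right _ _)
  have m3 : s₀ ≤ ρ / 4 := (min_le_right _ _).trans (min_le_left _ _)
  have m4 : s₀ ≤ r / 8 := (min_le_right _ _).trans (min_le_right _ _)
  have hmem : ∀ s ∈ Ioo 0 s₀, s ∈ Ioo 0 h := fun s hs => ⟨hs.1, hs.2.trans_le m1⟩
  have hsl : ∀ s ∈ Ioo 0 s₀, |σ s| ≤ 5 * (C + |c|) * s := fun s hs =>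
    hA.slope hk hF (hmem s hs) (hs.2.le.trans m2) (by linarith [hs.2])
  set ψ : ℝ → ℝ := Function.update (fun x => φ (√x)) 0 R₀ with hψ
  have hψ0 : ψ 0 = R₀ := Function.update_self _ _ _
  have hψx : ∀ x, x ≠ 0 → ψ x = φ (√x) := fun x hx => Function.update_of_ne hx _ _
  set v : ℝ → ℝ := fun x => σ (√x) / √x with hv
  have hsq : ∀ x ∈ Ioo 0 (s₀ ^ 2), √x ∈ Ioo 0 s₀ := by
    intro x hx
    refine ⟨Real.sqrt_pos.2 hx.1, ?_⟩
    rw [Real.sqrt_lt' hs₀0]
    exact hx.2
  have hsqd : ∀ x ∈ Ioo 0 (s₀ ^ 2), HasDerivAt (fun x => √x) (1 / (2 * √x)) x := fun x hx =>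
    Real.hasDerivAt_sqrt hx.1.ne'
  refine ⟨s₀, hs₀0, ψ, ?_, hψ0, ?_⟩
  · have hφd : ∀ x ∈ Ioo 0 (s₀ ^ 2), HasDerivAt (fun x => φ (√x)) (v x / 2) x := by
      intro x hx
      refine ((hA.sol.dφ _ (hmem _ (hsq x hx))).comp x (hsqd x hx)).congr_deriv ?_
      simp only [hv]
      have := (hsq x hx).1.ne'
      field_simp
    have hψd : ∀ x ∈ Ioo 0 (s₀ ^ 2), HasDerivAt ψ (v x / 2) x := by
      intro x hx
      refine (hφd x hx).congr_of_eventuallyEq ?_
      filter_upwards [isOpen_ne.mem_nhds hx.1.ne'] with y hy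
      exact hψx y hy
    have hvd : ∀ x ∈ Ioo 0 (s₀ ^ 2), HasDerivAt v
        ((F (ψ x) + x * (c * v x + v x ^ 2 * F (ψ x) - k * v x ^ 3 + c * x * v x ^ 3) -
          (k + 1) * v x) / (2 * x)) x := by
      intro x hx
      have hs := hsq x hx
      have hx2 : √x ^ 2 = x := Real.sq_sqrt hx.1.le
      have h1 := ((hA.sol.dσ _ (hmem _ hs)).comp x (hsqd x hx)).div (hsqd x hx) hs.1.ne'
      refine h1.congr_deriv ?_
      rw [hψx x hx.1.ne']
      simp only [hv, Function.comp]
      have hs0 := hs.1.ne'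
      generalize √x = s at *
      rw [← hx2]
      field_simp
      ring
    have hbF : ∀ x ∈ Ioo 0 (s₀ ^ 2), |ψ x - R₀| ≤ 4 * √x := by
      intro x hx
      rw [hψx x hx.1.ne']
      exact hA.bφ _ (hmem _ (hsq x hx))
    apply ax_smooth (k := k) (c := c) (B := 5 * (C + |c|)) (Nat.cast_nonneg k) (by positivity) hU
      hFU hR _ hψd hvd _ hψ0
    · rw [tendsto_iff_dist_tendsto_zero]
      have h1 : Tendsto (fun x : ℝ => 4 * √x) (𝓝[>] 0) (𝓝 0) := by
        have : Continuous fun x : ℝ => 4 * √x := by fun_prop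
        have h2 := (this.tendsto 0).mono_left (nhdsWithin_le_nhds (s := Ioi 0))
        simpa using h2
      apply squeeze_zero' (Eventually.of_forall fun x => dist_nonneg) _ h1
      filter_upwards [Ioo_mem_nhdsGT (show (0 : ℝ) < s₀ ^ 2 by positivity)] with x hx
      rw [Real.dist_eq]
      exact hbF x hx
    · intro x hx
      simp only [hv]
      rw [abs_div, abs_of_pos (hsq x hx).1, div_le_iff₀ (hsq x hx).1]
      exact hsl _ (hsq x hx)
    · intro x hx
      apply hrU
      rw [Metric.mem_ball, Real.dist_eq]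
      have := hbF x hx
      have := (hsq x hx).2
      linarith
    · intro x hx
      have := hx.1.ne'
      field_simp
      ring
  · intro s hs
    rw [hψx _ (by have := hs.1; positivity), Real.sqrt_sq hs.1.le]

end Pool.Agent.Helper532_SymMCF

end
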