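import Pool.Agent.Helper532_SymMCF.Plane
import Pool.Agent.Helper532_SymMCF.AxisOdes

section

/-!
The limit set of the profile curves near an axis of rotation: the leaves near the axis rise from
the axis.
-/

open Set Filter MeasureTheory Topology Metric
open scoped ContDiff NNReal ENNReal

namespace Pool.Agent.Helper532_SymMCF

variable {ι : Type*}

/-- box near the axis -/
def Bx (R₀ ρ e : ℝ) : Set ℂ := {ζ | |ζ.re - R₀| ≤ ρ ∧ e ≤ ζ.im ∧ ζ.im ≤ ρ}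

/-- the field, singular at the axis -/
noncomputable def FF (k : ℕ) (c : ℝ) (F : ℝ → ℝ) (ζ : ℂ) : ℂ := ⟨F ζ.re, k / ζ.im - c * ζ.im⟩

theorem CSys.mono {f : ℂ → ℂ} {K K' : Set ℂ} {ε : ℝ} {Ph : Set (ℂ × ℝ)} (h : CSys f K ε Ph)
    (hK : K' ⊆ K) : CSys f K' ε Ph := by
  refine ⟨h.line, h.rot, fun z θ₀ hz => ?_⟩
  obtain ⟨α, θ, κ, L, hL, h0, h0', hα, hθ, hκ, hPh, hper, hint⟩ := h.arc z θ₀ hz
  exact ⟨α, θ, κ, L, hL, h0, h0', hα, hθ, hκ, hPh, hper, fun a ℓ h1 h2 h3 h4 =>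
    hint a ℓ h1 h2 h3 fun s hs => hK (h4 s hs)⟩

/-- The situation near the point `R₀` of the axis. -/
structure AxLoc (𝓕 : Filter ι) (Ph : ι → Set (ℂ × ℝ)) (k : ℕ) (c R₀ ρ : ℝ) (F : ℝ → ℝ) :
    Prop where
  k1 : 1 ≤ k
  sys : ∀ e > 0, ∃ (f : ℂ → ℂ) (C Λ : ℝ≥0), LipschitzWith Λ f ∧
    (∀ z, ‖f z‖ ≤ C) ∧ (∀ ζ ∈ Bx R₀ ρ e, f ζ = FF k c F ζ) ∧
    ∀ ε > 0, ∀ᶠ i in 𝓕, CSys f (Bx R₀ ρ e) ε (Ph i)
  mb : ∀ ζ : ℂ, 0 < ζ.im → |ζ.re - R₀| ≤ ρ → ζ.im ≤ ρ →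
    ∃ h₀ > 0, ∀ h, 0 < h → h ≤ h₀ → MB 𝓕 Ph ζ h

theorem loc_of_box {𝓕 : Filter ι} {Ph : ι → Set (ℂ × ℝ)} {R₀ ρ e : ℝ} {f : ℂ → ℂ} {C Λ : ℝ≥0}
    (hΛ : LipschitzWith Λ f) (hC : ∀ z, ‖f z‖ ≤ C)
    (hs : ∀ ε > 0, ∀ᶠ i in 𝓕, CSys f (Bx R₀ ρ e) ε (Ph i)) {ζ : ℂ} {R : ℝ} (hR : 0 < R)
    (h1 : |ζ.re - R₀| + R ≤ ρ) (h2 : e + R ≤ ζ.im) (h3 : ζ.im + R ≤ ρ) :
    Loc 𝓕 Ph f C Λ ζ R := by
  refine ⟨hΛ, hC, hR, fun ε hε => (hs ε hε).mono fun i hi => hi.mono ?_⟩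
  intro w hw
  rw [mem_closedBall, dist_eq_norm] at hw
  have a1 : |w.re - ζ.re| ≤ R := by simpa using (Complex.abs_re_le_norm (w - ζ)).trans hw
  have a2 : |w.im - ζ.im| ≤ R := by simpa using (Complex.abs_im_le_norm (w - ζ)).trans hw
  rw [abs_le] at a1 a2
  refine ⟨?_, by linarith [a2.1], by linarith [a2.2]⟩
  have : |w.re - R₀| ≤ |w.re - ζ.re| + |ζ.re - R₀| := abs_sub_le _ _ _
  have h4 : |w.re - ζ.re| ≤ R := abs_le.2 a1
  linarith

theorem inner_FF (k : ℕ) (c : ℝ) (F : ℝ → ℝ) (ζ : ℂ) (θ : ℝ) :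
    inner ℝ (FF k c F ζ) (Complex.I * ex θ) =
      -F ζ.re * Real.sin θ + (k / ζ.im - c * ζ.im) * Real.cos θ := by
  rw [Complex.inner]
  simp only [FF, Complex.mul_re, Complex.mul_im, Complex.conj_re, Complex.conj_im, ex_re, ex_im,
    Complex.I_re, Complex.I_im]
  ring

theorem Sol.d_im {f : ℂ → ℂ} {γ : ℝ → ℂ × ℝ} (h : Sol f γ) {s : ℝ} (hs : s ∈ Ioo (-1 : ℝ) 1) :
    HasDerivAt (fun s => (γ s).1.im) (Real.sin (γ s).2) s := by
  have h1 : HasDerivAt (fun s => (γ s).1) (ex (γ s).2) s :=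
    (ContinuousLinearMap.fst ℝ ℂ ℝ).hasFDerivAt.comp_hasDerivAt s (h.hasDerivAt hs)
  have h2 := Complex.imCLM.hasFDerivAt.comp_hasDerivAt s h1
  rw [Complex.imCLM_apply, ex_im] at h2
  exact h2

theorem Sol.d_re {f : ℂ → ℂ} {γ : ℝ → ℂ × ℝ} (h : Sol f γ) {s : ℝ} (hs : s ∈ Ioo (-1 : ℝ) 1) :
    HasDerivAt (fun s => (γ s).1.re) (Real.cos (γ s).2) s := by
  have h1 : HasDerivAt (fun s => (γ s).1) (ex (γ s).2) s :=
    (ContinuousLinearMap.fst ℝ ℂ ℝ).hasFDerivAt.comp_hasDerivAt s (h.hasDerivAt hs)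
  have h2 := Complex.reCLM.hasFDerivAt.comp_hasDerivAt s h1
  rw [Complex.reCLM_apply, ex_re] at h2
  exact h2

theorem Sol.d_ang {f : ℂ → ℂ} {γ : ℝ → ℂ × ℝ} (h : Sol f γ) {s : ℝ} (hs : s ∈ Ioo (-1 : ℝ) 1) :
    HasDerivAt (fun s => (γ s).2) (inner ℝ (f (γ s).1) (Complex.I * ex (γ s).2)) s :=
  (ContinuousLinearMap.snd ℝ ℂ ℝ).hasFDerivAt.comp_hasDerivAt s (h.hasDerivAt hs)

/-- convexity of the squared height along leaves near the axis -/
theorem cvx {k : ℕ} (hk : 1 ≤ k) {c C₁ : ℝ} {F : ℝ → ℝ} {f : ℂ → ℂ} {γ : ℝ → ℂ × ℝ}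
    (hγ : Sol f γ) {m : ℝ} (hm0 : 0 ≤ m) (hm : m < 1)
    (hf : ∀ s ∈ Icc 0 m, f (γ s).1 = FF k c F (γ s).1)
    (hS : ∀ s ∈ Icc 0 m, 0 < (γ s).1.im ∧ (γ s).1.im ≤ 1 / 2 ∧
      (γ s).1.im * (C₁ + |c|) ≤ 1 / 2)
    (hF : ∀ s ∈ Icc 0 m, |F (γ s).1.re| ≤ C₁) (h0 : 0 ≤ Real.sin (γ 0).2) :
    ∀ s ∈ Icc 0 m, s ≤ 2 * (γ s).1.im * Real.sin (γ s).2 ∧
      (γ 0).1.im ^ 2 + s ^ 2 / 2 ≤ (γ s).1.im ^ 2 := by
  have hIoo : ∀ s ∈ Icc 0 m, s ∈ Ioo (-1 : ℝ) 1 := fun s hs =>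
    ⟨by linarith [hs.1], by linarith [hs.2]⟩
  set g : ℝ → ℝ := fun s => 2 * (γ s).1.im * Real.sin (γ s).2 - s with hg
  have hgd : ∀ s ∈ Icc 0 m, HasDerivAt g (2 * Real.sin (γ s).2 * Real.sin (γ s).2 +
      2 * (γ s).1.im * (Real.cos (γ s).2 * (-F (γ s).1.re * Real.sin (γ s).2 +
        (k / (γ s).1.im - c * (γ s).1.im) * Real.cos (γ s).2)) - 1) s := by
    intro s hs
    have a1 := (hγ.d_im (hIoo s hs)).const_mul 2
    have a2 := hγ.d_ang (hIoo s hs)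
    rw [hf s hs, inner_FF] at a2
    have a3 := a2.sin
    exact (a1.mul a3).sub (hasDerivAt_id s)
  have hg0 : ∀ s ∈ Icc 0 m, 0 ≤ 2 * Real.sin (γ s).2 * Real.sin (γ s).2 +
      2 * (γ s).1.im * (Real.cos (γ s).2 * (-F (γ s).1.re * Real.sin (γ s).2 +
        (k / (γ s).1.im - c * (γ s).1.im) * Real.cos (γ s).2)) - 1 := by
    intro s hs
    obtain ⟨b1, b2, b3⟩ := hS s hs
    have b4 := hF s hs
    have b5 := Real.sin_sq_add_cos_sq (γ s).2
    have hk' : (1 : ℝ) ≤ k := by exact_mod_cast hk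
    generalize Real.sin (γ s).2 = x at *
    generalize Real.cos (γ s).2 = y at *
    generalize F (γ s).1.re = A at *
    generalize (γ s).1.im = S at *
    have e : 2 * x * x + 2 * S * (y * (-A * x + (k / S - c * S) * y)) - 1 =
        2 * x ^ 2 + 2 * k * y ^ 2 - (2 * x * y) * (S * A) - 2 * c * S ^ 2 * y ^ 2 - 1 := by
      field_simp
      ring
    rw [e]
    have c1 : |2 * x * y| ≤ 1 := by
      rw [abs_le]
      constructor <;> linarith [sq_nonneg (x - y), sq_nonneg (x + y)]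
    have c2 : |(2 * x * y) * (S * A)| ≤ S * C₁ := by
      rw [abs_mul (2 * x * y), abs_mul S, abs_of_pos b1]
      calc |2 * x * y| * (S * |A|) ≤ 1 * (S * C₁) := by gcongr
        _ = S * C₁ := one_mul _
    have c3 := (abs_le.1 c2).2
    have hy : y ^ 2 ≤ 1 := by linarith [sq_nonneg x]
    have c4 : |2 * c * S ^ 2 * y ^ 2| ≤ |c| * S := by
      rw [abs_mul, abs_mul, abs_mul, abs_pow, abs_pow, abs_of_pos b1, sq_abs y]
      have : S ^ 2 ≤ S * (1 / 2) := by nlinarith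
      calc |(2 : ℝ)| * |c| * S ^ 2 * y ^ 2 ≤ |(2 : ℝ)| * |c| * (S * (1 / 2)) * 1 := by gcongr
        _ = |c| * S := by rw [abs_of_pos (by norm_num : (0 : ℝ) < 2)]; ring
    have c5 := (abs_le.1 c4).2
    have c6 : 2 * y ^ 2 ≤ 2 * k * y ^ 2 := by nlinarith [sq_nonneg y]
    linarith
  have hgm : MonotoneOn g (Icc 0 m) := by
    apply monotoneOn_of_deriv_nonneg (convex_Icc 0 m)
    · exact fun s hs => (hgd s hs).continuousAt.continuousWithinAt
    · intro s hs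
      rw [interior_Icc] at hs
      exact (hgd s (Ioo_subset_Icc_self hs)).differentiableAt.differentiableWithinAt
    · intro s hs
      rw [interior_Icc] at hs
      rw [(hgd s (Ioo_subset_Icc_self hs)).deriv]
      exact hg0 s (Ioo_subset_Icc_self hs)
  have h00 : (0 : ℝ) ∈ Icc 0 m := ⟨le_refl _, hm0⟩
  have hgpos : ∀ s ∈ Icc 0 m, 0 ≤ g s := by
    intro s hs
    have h1 := hgm h00 hs hs.1
    have h2 : 0 ≤ g 0 := by
      simp only [hg, sub_zero]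
      have := (hS 0 h00).1
      positivity
    linarith
  set G : ℝ → ℝ := fun s => (γ s).1.im ^ 2 - s ^ 2 / 2 with hG
  have hGd : ∀ s ∈ Icc 0 m, HasDerivAt G (g s) s := by
    intro s hs
    have a1 := (hγ.d_im (hIoo s hs)).pow 2
    have a2 := ((hasDerivAt_id s).pow 2).div_const 2
    refine (a1.sub a2).congr_deriv ?_
    simp only [hg, id]
    push_cast
    ring
  have hGm : MonotoneOn G (Icc 0 m) := by
    apply monotoneOn_of_deriv_nonneg (convex_Icc 0 m)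
    · exact fun s hs => (hGd s hs).continuousAt.continuousWithinAt
    · intro s hs
      rw [interior_Icc] at hs
      exact (hGd s (Ioo_subset_Icc_self hs)).differentiableAt.differentiableWithinAt
    · intro s hs
      rw [interior_Icc] at hs
      rw [(hGd s (Ioo_subset_Icc_self hs)).deriv]
      exact hgpos s (Ioo_subset_Icc_self hs)
  intro s hs
  have h1 := hgpos s hs
  have h2 := hGm h00 hs hs.1
  simp only [hg] at h1
  simp only [hG] at h2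
  constructor
  · linarith
  · linarith

/-- solutions through points of the limit set stay in the limit set -/
theorem flow_shift {𝓕 : Filter ι} {Ph : ι → Set (ℂ × ℝ)} {f : ℂ → ℂ} {C Λ : ℝ≥0}
    {γ : ℝ → ℂ × ℝ} (hγ : Sol f γ) {a R : ℝ} (ha : a ∈ Icc (0 : ℝ) (1 / 2))
    (hL : Loc 𝓕 Ph f C Λ (γ a).1 R) (hX : γ a ∈ LT 𝓕 Ph) {x : ℝ} (hx : |x| ≤ ro C R) :
    γ (a + x) ∈ LT 𝓕 Ph := by
  obtain ⟨γ', h0, hγ'⟩ := exists_sol hL.lip hL.bd (γ a)
  have hR := hL.pos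
  have hro := ro_le_quarter C R
  have h1 : γ' x ∈ LT 𝓕 Ph := hL.flow hγ' (by rw [h0]; exact hX) (by
    rw [h0, dist_self]; positivity) hx
  have h2 : γ' x = γ (a + x) := by
    have := ODE_solution_unique_of_mem_Ioo (v := fun _ => Fld f) (s := fun _ => univ)
      (K := Λ + C + 1) (a := -(1 / 2)) (b := 1 / 2) (t₀ := 0) (f := γ') (g := fun u => γ (a + u))
      (fun _ _ => (Fld_lip hL.lip hL.bd).lipschitzOnWith) (by norm_num)
      (fun t ht => ⟨hγ'.hasDerivAt ⟨by linarith [ht.1], by linarith [ht.2]⟩, mem_univ _⟩)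
      (fun t ht => ⟨(hγ.hasDerivAt (s := a + t) ⟨by linarith [ht.1, ha.1], by
        linarith [ht.2, ha.2]⟩).comp_const_add a t, mem_univ _⟩)
      (by simp [h0])
      (show x ∈ Ioo (-(1 / 2 : ℝ)) (1 / 2) from by
        rw [abs_le] at hx
        constructor <;> linarith [hx.1, hx.2])
    exact this
  rwa [h2] at h1

theorem prop_LT {𝓕 : Filter ι} {Ph : ι → Set (ℂ × ℝ)} {f : ℂ → ℂ} {C Λ : ℝ≥0}
    {γ : ℝ → ℂ × ℝ} (hγ : Sol f γ) {R m : ℝ} (hR : 0 < R) (hm : m ≤ 1 / 2)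
    (hL : ∀ s ∈ Icc 0 m, Loc 𝓕 Ph f C Λ (γ s).1 R) (h0 : γ 0 ∈ LT 𝓕 Ph) :
    ∀ s ∈ Icc 0 m, γ s ∈ LT 𝓕 Ph := by
  have hr := ro_pos C hR
  have hn : ∀ n : ℕ, ∀ s ∈ Icc 0 m, s ≤ n * ro C R → γ s ∈ LT 𝓕 Ph := by
    intro n
    induction n with
    | zero =>
      intro s hs h1
      have : s = 0 := le_antisymm (by simpa using h1) hs.1
      rw [this]; exact h0
    | succ n ih =>
      intro s hs h1
      by_cases h2 : s ≤ ro C R
      · have h3 : (0 : ℝ) ∈ Icc 0 m := ⟨le_refl _, hs.1.trans hs.2⟩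
        have := flow_shift hγ (a := 0) ⟨le_refl _, by norm_num⟩ (hL 0 h3) h0 (x := s)
          (by rw [abs_of_nonneg hs.1]; exact h2)
        simpa using this
      · push Not at h2
        have h3 : s - ro C R ∈ Icc 0 m := ⟨by linarith, by linarith [hs.2]⟩
        have h4 := ih (s - ro C R) h3 (by push_cast at h1; linarith)
        have := flow_shift hγ (a := s - ro C R) ⟨h3.1, h3.2.trans hm⟩ (hL _ h3) h4 (x := ro C R)
          (by rw [abs_of_pos hr])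
        simpa using this
  intro s hs
  obtain ⟨n, hn'⟩ := exists_nat_ge (s / ro C R)
  rw [div_le_iff₀ hr] at hn'
  exact hn n s hs hn'

/-- A leaf of the limit set which rises from the neighbourhood of the axis. -/
structure Rise (𝓕 : Filter ι) (Ph : ι → Set (ℂ × ℝ)) (k : ℕ) (c : ℝ) (F : ℝ → ℝ) (δ : ℝ)
    (γ : ℝ → ℂ × ℝ) : Prop where
  sol : ∀ s ∈ Icc 0 (2 * δ), HasDerivAt γ (Fld (FF k c F) (γ s)) s
  lt : ∀ s ∈ Icc 0 (2 * δ), γ s ∈ LT 𝓕 Ph
  h1 : ∀ s ∈ Icc 0 (2 * δ), s ≤ 2 * (γ s).1.im * Real.sin (γ s).2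
  h2 : ∀ s ∈ Icc 0 (2 * δ), (γ 0).1.im ^ 2 + s ^ 2 / 2 ≤ (γ s).1.im ^ 2
  pos : ∀ s ∈ Icc 0 (2 * δ), 0 < (γ s).1.im
  disp : ∀ s ∈ Icc 0 (2 * δ), ∀ t ∈ Icc 0 (2 * δ), ‖(γ s).1 - (γ t).1‖ ≤ |s - t|
  ang : ∀ s ∈ Icc 0 (2 * δ), (γ s).2 ∈ Icc 0 Real.pi

/-- smallness of `δ` -/
structure Sm (c R₀ ρ C₁ L₁ : ℝ) (F : ℝ → ℝ) (δ : ℝ) : Prop where
  fb : FB F R₀ ρ C₁ L₁
  pos : 0 < δ
  d1 : 4 * δ ≤ ρ
  d2 : 4 * δ ≤ 1 / 2
  d3 : 4 * δ * (C₁ + |c|) ≤ 1 / 2

theorem exists_rise {𝓕 : Filter ι} {Ph : ι → Set (ℂ × ℝ)} {k : ℕ} {c R₀ ρ C₁ L₁ δ : ℝ}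
    {F : ℝ → ℝ} (hA : AxLoc 𝓕 Ph k c R₀ ρ F) (hS : Sm c R₀ ρ C₁ L₁ F δ) {X : ℂ × ℝ}
    (hX : X ∈ LT 𝓕 Ph) (h0 : 0 < X.1.im) (h1 : X.1.im ≤ δ) (h2 : |X.1.re - R₀| ≤ δ)
    (h3 : X.2 ∈ Icc 0 Real.pi) : ∃ γ, γ 0 = X ∧ Rise 𝓕 Ph k c F δ γ := by
  have hδ := hS.pos
  have hd1 := hS.d1
  have hd2 := hS.d2
  have hC0 := hS.fb.C0
  set e : ℝ := X.1.im / 4 with he
  have he0 : 0 < e := by positivity
  obtain ⟨f, C, Λ, hΛ, hC, hfF, hsys⟩ := hA.sys e he0
  obtain ⟨γ, hγ0, hγ⟩ := exists_sol hΛ hC X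
  have hI : ∀ s ∈ Icc 0 (2 * δ), s ∈ Icc (-1 : ℝ) 1 := fun s hs =>
    ⟨by linarith [hs.1], by linarith [hs.2]⟩
  have hIo : ∀ s ∈ Icc 0 (2 * δ), s ∈ Ioo (-1 : ℝ) 1 := fun s hs =>
    ⟨by linarith [hs.1], by linarith [hs.2]⟩
  have hdisp : ∀ s ∈ Icc 0 (2 * δ), ∀ t ∈ Icc 0 (2 * δ), ‖(γ s).1 - (γ t).1‖ ≤ |s - t| :=
    fun s hs t ht => hγ.disp (hI s hs) (hI t ht)
  have h00 : (0 : ℝ) ∈ Icc 0 (2 * δ) := ⟨le_refl _, by positivity⟩
  have hbox : ∀ s ∈ Icc 0 (2 * δ), |(γ s).1.re - R₀| ≤ 3 * δ ∧ (γ s).1.im ≤ 3 * δ := by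
    intro s hs
    have a1 := hdisp s hs 0 h00
    rw [hγ0, sub_zero, abs_of_nonneg hs.1] at a1
    have a2 : |(γ s).1.re - X.1.re| ≤ s := by
      simpa using (Complex.abs_re_le_norm ((γ s).1 - X.1)).trans a1
    have a3 : |(γ s).1.im - X.1.im| ≤ s := by
      simpa using (Complex.abs_im_le_norm ((γ s).1 - X.1)).trans a1
    have a4 : |(γ s).1.re - R₀| ≤ |(γ s).1.re - X.1.re| + |X.1.re - R₀| := abs_sub_le _ _ _
    have a5 := (abs_le.1 a3).2
    constructor <;> linarith [hs.2]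
  have hcim : ContinuousOn (fun s => (γ s).1.im) (Icc 0 (2 * δ)) := fun s hs =>
    (hγ.d_im (hIo s hs)).continuousAt.continuousWithinAt
  have hcang : ContinuousOn (fun s => (γ s).2) (Icc 0 (2 * δ)) := fun s hs =>
    (hγ.d_ang (hIo s hs)).continuousAt.continuousWithinAt
  have hsin0 : 0 ≤ Real.sin (γ 0).2 := by
    rw [hγ0]; exact Real.sin_nonneg_of_nonneg_of_le_pi h3.1 h3.2
  -- estimates as long as the height is at least `e`
  have hest : ∀ m ∈ Icc 0 (2 * δ), (∀ s ∈ Icc 0 m, e ≤ (γ s).1.im) →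
      ∀ s ∈ Icc 0 m, s ≤ 2 * (γ s).1.im * Real.sin (γ s).2 ∧
        (γ 0).1.im ^ 2 + s ^ 2 / 2 ≤ (γ s).1.im ^ 2 := by
    intro m hm hem
    have hsub : ∀ s ∈ Icc 0 m, s ∈ Icc 0 (2 * δ) := fun s hs => ⟨hs.1, hs.2.trans hm.2⟩
    apply cvx hA.k1 hγ hm.1 (by linarith [hm.2]) (c := c) (C₁ := C₁) (F := F) _ _ _ hsin0
    · intro s hs
      obtain ⟨b1, b2⟩ := hbox s (hsub s hs)
      exact hfF _ ⟨by linarith, hem s hs, by linarith⟩
    · intro s hs
      obtain ⟨b1, b2⟩ := hbox s (hsub s hs)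
      refine ⟨he0.trans_le (hem s hs), by linarith, ?_⟩
      have : (γ s).1.im * (C₁ + |c|) ≤ 4 * δ * (C₁ + |c|) :=
        mul_le_mul_of_nonneg_right (by linarith) (by positivity)
      exact this.trans hS.d3
    · intro s hs
      obtain ⟨b1, b2⟩ := hbox s (hsub s hs)
      exact hS.fb.bd _ (by linarith)
  have hnh : ∀ s ∈ Icc 0 (2 * δ), e ≤ (γ s).1.im := by
    by_contra hcon
    push Not at hcon
    obtain ⟨s₁, hs₁, hlt⟩ := hcon
    -- first hitting time of the height `e`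
    set Z : Set ℝ := {s ∈ Icc 0 (2 * δ) | (γ s).1.im ≤ e} with hZ
    have hZc : IsCompact Z := by
      have hcl : IsClosed Z := by
        have := hcim.preimage_isClosed_of_isClosed isClosed_Icc (isClosed_Iic (a := e))
        exact this
      exact isCompact_Icc.of_isClosed_subset hcl (fun s hs => hs.1)
    have hm := hZc.sInf_mem ⟨s₁, hs₁, hlt.le⟩
    set m := sInf Z with hmdef
    have hmin : ∀ s ∈ Z, m ≤ s := fun s hs => csInf_le hZc.bddBelow hs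
    have hem : ∀ s ∈ Icc 0 m, e ≤ (γ s).1.im := by
      intro s hs
      by_contra hcon
      push Not at hcon
      have hsI : s ∈ Icc 0 (2 * δ) := ⟨hs.1, hs.2.trans hm.1.2⟩
      have hc : ContinuousOn (fun s => (γ s).1.im) (Icc 0 s) :=
        hcim.mono (Icc_subset_Icc_right hsI.2)
      have h5 : e ∈ Icc ((γ s).1.im) ((γ 0).1.im) := by
        refine ⟨hcon.le, ?_⟩
        rw [hγ0, he]; linarith
      obtain ⟨s', hs', hs'e⟩ := intermediate_value_Icc' hs.1 hc h5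
      simp only at hs'e
      have h6 : s' ≠ s := by
        rintro rfl
        linarith
      have h7 : s' < s := lt_of_le_of_ne hs'.2 h6
      have h8 := hmin s' ⟨⟨hs'.1, h7.le.trans hsI.2⟩, hs'e.le⟩
      linarith [hs.2]
    have h5 := (hest m hm.1 hem m ⟨hm.1.1, le_refl _⟩).2
    have h6 : (γ m).1.im ≤ e := hm.2
    have h7 := hem m ⟨hm.1.1, le_refl _⟩
    rw [hγ0] at h5
    have h8 : (γ m).1.im ^ 2 ≤ e ^ 2 := pow_le_pow_left₀ (he0.le.trans h7) h6 2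
    have h9 : e ^ 2 < X.1.im ^ 2 := by
      rw [he]
      nlinarith
    linarith [sq_nonneg m]
  have hfin := hest (2 * δ) ⟨by positivity, le_refl _⟩ hnh
  have hpos : ∀ s ∈ Icc 0 (2 * δ), 0 < (γ s).1.im := fun s hs => he0.trans_le (hnh s hs)
  have hge : ∀ s ∈ Icc 0 (2 * δ), X.1.im ≤ (γ s).1.im := by
    intro s hs
    have := (hfin s hs).2
    rw [hγ0] at this
    exact le_of_sq_le_sq (by linarith [sq_nonneg s]) (hpos s hs).le
  refine ⟨γ, hγ0, ?_, ?_, fun s hs => (hfin s hs).1, fun s hs => (hfin s hs).2, hpos, hdisp, ?_⟩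
  · intro s hs
    have h5 := hγ.hasDerivAt (hIo s hs)
    obtain ⟨b1, b2⟩ := hbox s hs
    have h6 : Fld f (γ s) = Fld (FF k c F) (γ s) := by
      unfold Fld
      rw [hfF _ ⟨by linarith, hnh s hs, by linarith⟩]
    rwa [h6] at h5
  · set R' : ℝ := min (X.1.im / 2) δ with hR'
    have hR'0 : 0 < R' := by positivity
    have r1 : R' ≤ X.1.im / 2 := min_le_left _ _
    have r2 : R' ≤ δ := min_le_right _ _
    apply prop_LT hγ (R := R') (m := 2 * δ) (f := f) (C := C) (Λ := Λ) hR'0 (by linarith)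
    · intro s hs
      obtain ⟨b1, b2⟩ := hbox s hs
      have b3 := hge s hs
      exact loc_of_box hΛ hC hsys hR'0 (by linarith) (by rw [he]; linarith) (by linarith)
    · rw [hγ0]; exact hX
  · -- the angle stays in `[0, π]`
    have hsin : ∀ s ∈ Ioc 0 (2 * δ), 0 < Real.sin (γ s).2 := by
      intro s hs
      have h5 := (hfin s ⟨hs.1.le, hs.2⟩).1
      have h6 := hpos s ⟨hs.1.le, hs.2⟩
      by_contra hcon
      push Not at hcon
      nlinarith [hs.1]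
    intro s hs
    rcases hs.1.eq_or_lt with h5 | h5
    · rw [← h5, hγ0]; exact h3
    · have hc : ContinuousOn (fun s => (γ s).2) (Icc 0 s) := hcang.mono (Icc_subset_Icc_right hs.2)
      constructor
      · by_contra hcon
        push Not at hcon
        obtain ⟨s', hs', hs'e⟩ := intermediate_value_Icc' hs.1 hc
          (show (0 : ℝ) ∈ Icc ((γ s).2) ((γ 0).2) from ⟨hcon.le, by rw [hγ0]; exact h3.1⟩)
        simp only at hs'e
        rcases hs'.1.eq_or_lt with h6 | h6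
        · -- `s' = 0`: then use a slightly smaller argument
          have h7 : (γ 0).2 = 0 := by
            have := hs'e
            rw [← h6] at this
            exact this
          -- the angle is positive immediately after `0` is impossible to leave below
          have h8 : ∃ s'' ∈ Ioo 0 s, (γ s'').2 ∈ Ioo (-Real.pi) 0 := by
            set v := max ((γ s).2 / 2) (-(Real.pi / 2)) with hv
            have hv0 : v < 0 := max_lt (by linarith) (by linarith [Real.pi_pos])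
            have hv1 : -Real.pi < v := by
              have := le_max_right ((γ s).2 / 2) (-(Real.pi / 2))
              have := Real.pi_pos
              linarith
            have hv2 : (γ s).2 < v := by
              have := le_max_left ((γ s).2 / 2) (-(Real.pi / 2))
              linarith
            obtain ⟨s'', hs'', hs''e⟩ := intermediate_value_Icc' hs.1 hc
              (show v ∈ Icc ((γ s).2) ((γ 0).2) from ⟨hv2.le, by rw [h7]; exact hv0.le⟩)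
            simp only at hs''e
            refine ⟨s'', ⟨?_, ?_⟩, by rw [hs''e]; exact ⟨hv1, hv0⟩⟩
            · refine lt_of_le_of_ne hs''.1 ?_
              rintro rfl
              rw [h7] at hs''e; linarith
            · refine lt_of_le_of_ne hs''.2 ?_
              rintro rfl
              linarith
          obtain ⟨s'', hs'', hang⟩ := h8
          have h9 := hsin s'' ⟨hs''.1, hs''.2.le.trans hs.2⟩
          have h10 := Real.sin_neg_of_neg_of_neg_pi_lt hang.2 hang.1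
          linarith
        · have := hsin s' ⟨h6, hs'.2.trans hs.2⟩
          rw [hs'e, Real.sin_zero] at this
          exact lt_irrefl _ this
      · by_contra hcon
        push Not at hcon
        obtain ⟨s', hs', hs'e⟩ := intermediate_value_Icc hs.1 hc
          (show Real.pi ∈ Icc ((γ 0).2) ((γ s).2) from ⟨by rw [hγ0]; exact h3.2, hcon.le⟩)
        simp only at hs'e
        rcases hs'.1.eq_or_lt with h6 | h6
        · have h7 : (γ 0).2 = Real.pi := by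
            have := hs'e
            rw [← h6] at this
            exact this
          have h8 : ∃ s'' ∈ Ioo 0 s, (γ s'').2 ∈ Ioo Real.pi (2 * Real.pi) := by
            set v := min (((γ s).2 + Real.pi) / 2) (3 * Real.pi / 2) with hv
            have hpi := Real.pi_pos
            have hv0 : Real.pi < v := lt_min (by linarith) (by linarith)
            have hv1 : v < 2 * Real.pi := by
              have := min_le_right (((γ s).2 + Real.pi) / 2) (3 * Real.pi / 2)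
              linarith
            have hv2 : v < (γ s).2 := by
              have := min_le_left (((γ s).2 + Real.pi) / 2) (3 * Real.pi / 2)
              linarith
            obtain ⟨s'', hs'', hs''e⟩ := intermediate_value_Icc hs.1 hc
              (show v ∈ Icc ((γ 0).2) ((γ s).2) from ⟨by rw [h7]; exact hv0.le, hv2.le⟩)
            simp only at hs''e
            refine ⟨s'', ⟨?_, ?_⟩, by rw [hs''e]; exact ⟨hv0, hv1⟩⟩
            · refine lt_of_le_of_ne hs''.1 ?_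
              rintro rfl
              rw [h7] at hs''e; linarith
            · refine lt_of_le_of_ne hs''.2 ?_
              rintro rfl
              linarith
          obtain ⟨s'', hs'', hang⟩ := h8
          have h9 := hsin s'' ⟨hs''.1, hs''.2.le.trans hs.2⟩
          have h10 : Real.sin (γ s'').2 < 0 := by
            have e1 : Real.sin (γ s'').2 = -Real.sin ((γ s'').2 - Real.pi) := by
              rw [Real.sin_sub_pi, neg_neg]
            rw [e1, neg_lt_zero]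
            exact Real.sin_pos_of_pos_of_lt_pi (by linarith [hang.1]) (by linarith [hang.2])
          linarith
        · have := hsin s' ⟨h6, hs'.2.trans hs.2⟩
          rw [hs'e, Real.sin_pi] at this
          exact lt_irrefl _ this

end Pool.Agent.Helper532_SymMCF

end

section

/-!
Limits of leaves which rise from the neighbourhood of the axis.
-/

open Set Filter MeasureTheory Topology Metric
open scoped ContDiff NNReal ENNReal

namespace Pool.Agent.Helper532_SymMCF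

variable {ι : Type*}

theorem LT_closed (𝓕 : Filter ι) (Ph : ι → Set (ℂ × ℝ)) : IsClosed (LT 𝓕 Ph) := by
  rw [← isOpen_compl_iff, Metric.isOpen_iff]
  intro X hX
  simp only [LT, mem_compl_iff, mem_ofPred_eq, not_forall] at hX
  obtain ⟨δ, hδ, h⟩ := hX
  refine ⟨δ / 2, by positivity, fun Y hY hYL => h ?_⟩
  filter_upwards [hYL (δ / 2) (by positivity)] with i hi
  obtain ⟨Z, hZ, hd⟩ := hi
  refine ⟨Z, hZ, ?_⟩
  have := dist_triangle Z Y X
  have := mem_ball.1 hY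
  linarith

/-- A leaf of the limit set which starts at the point `R₀` of the axis. -/
structure Asc (𝓕 : Filter ι) (Ph : ι → Set (ℂ × ℝ)) (k : ℕ) (c R₀ : ℝ) (F : ℝ → ℝ) (δ : ℝ)
    (γ : ℝ → ℂ × ℝ) : Prop where
  sol : ∀ s ∈ Ioo 0 (2 * δ), HasDerivAt γ (Fld (FF k c F) (γ s)) s
  lt : ∀ s ∈ Ioo 0 (2 * δ), γ s ∈ LT 𝓕 Ph
  h1 : ∀ s ∈ Ioo 0 (2 * δ), s ≤ 2 * (γ s).1.im * Real.sin (γ s).2
  h2 : ∀ s ∈ Ioo 0 (2 * δ), s ^ 2 / 2 ≤ (γ s).1.im ^ 2
  pos : ∀ s ∈ Ioo 0 (2 * δ), 0 < (γ s).1.im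
  disp : ∀ s ∈ Ioo 0 (2 * δ), ‖(γ s).1 - (R₀ : ℂ)‖ ≤ s
  ang : ∀ s ∈ Ioo 0 (2 * δ), (γ s).2 ∈ Icc 0 Real.pi

theorem re_im_of_disp {z : ℂ} {R₀ s : ℝ} (h : ‖z - (R₀ : ℂ)‖ ≤ s) : |z.re - R₀| ≤ s ∧ |z.im| ≤ s := by
  have h1 := Complex.abs_re_le_norm (z - (R₀ : ℂ))
  have h2 := Complex.abs_im_le_norm (z - (R₀ : ℂ))
  simp only [Complex.sub_re, Complex.sub_im, Complex.ofReal_re, Complex.ofReal_im, sub_zero] at h1 h2
  exact ⟨h1.trans h, h2.trans h⟩

theorem exists_asc {𝓕 : Filter ι} {Ph : ι → Set (ℂ × ℝ)} {k : ℕ} {c R₀ ρ C₁ L₁ δ : ℝ}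
    {F : ℝ → ℝ} (hA : AxLoc 𝓕 Ph k c R₀ ρ F) (hS : Sm c R₀ ρ C₁ L₁ F δ) {κ : Type*}
    (𝓦 : Ultrafilter κ) {γ : κ → ℝ → ℂ × ℝ} (hγ : ∀ n, Rise 𝓕 Ph k c F δ (γ n))
    (h0 : Tendsto (fun n => (γ n 0).1) (𝓦 : Filter κ) (𝓝 (R₀ : ℂ))) :
    ∃ γ', Asc 𝓕 Ph k c R₀ F δ γ' ∧
      ∀ s ∈ Icc 0 (2 * δ), Tendsto (fun n => γ n s) (𝓦 : Filter κ) (𝓝 (γ' s)) := by
  have hδ := hS.pos
  have hd1 := hS.d1
  have hd2 := hS.d2
  have h00 : (0 : ℝ) ∈ Icc 0 (2 * δ) := ⟨le_refl _, by positivity⟩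
  have hev : ∀ᶠ n in (𝓦 : Filter κ), ‖(γ n 0).1 - (R₀ : ℂ)‖ ≤ δ := by
    have := (tendsto_iff_norm_sub_tendsto_zero.1 h0).eventually_le_const hδ
    exact this
  have hev2 : ∀ᶠ n in (𝓦 : Filter κ), ∀ s ∈ Icc 0 (2 * δ), ‖(γ n s).1 - (R₀ : ℂ)‖ ≤ 3 * δ := by
    filter_upwards [hev] with n hn s hs
    have h1 := (hγ n).disp s hs 0 h00
    rw [sub_zero, abs_of_nonneg hs.1] at h1
    have h2 := norm_sub_le_norm_sub_add_norm_sub (γ n s).1 (γ n 0).1 (R₀ : ℂ)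
    linarith [hs.2]
  have hex : ∀ s ∈ Icc 0 (2 * δ), ∃ X : ℂ × ℝ, Tendsto (fun n => γ n s) (𝓦 : Filter κ) (𝓝 X) := by
    intro s hs
    have hc : IsCompact (closedBall (R₀ : ℂ) (3 * δ) ×ˢ Icc (0 : ℝ) Real.pi) :=
      (isCompact_closedBall _ _).prod isCompact_Icc
    obtain ⟨X, _, hX⟩ := hc.ultrafilter_le_nhds (𝓦.map fun n => γ n s) (by
      rw [le_principal_iff]
      show _ ∈ (𝓦.map fun n => γ n s)
      rw [Ultrafilter.mem_map]
      have : ∀ᶠ n in (𝓦 : Filter κ), γ n s ∈ closedBall (R₀ : ℂ) (3 * δ) ×ˢ Icc (0 : ℝ) Real.pi := by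
        filter_upwards [hev2] with n hn
        refine ⟨?_, (hγ n).ang s hs⟩
        rw [mem_closedBall, dist_eq_norm]
        exact hn s hs
      exact this)
    exact ⟨X, hX⟩
  choose! γ' hγ' using hex
  have hsm : ∀ s ∈ Ioo 0 (2 * δ), s ∈ Icc 0 (2 * δ) := fun s hs => Ioo_subset_Icc_self hs
  have hfst : ∀ s ∈ Icc 0 (2 * δ), Tendsto (fun n => (γ n s).1) (𝓦 : Filter κ) (𝓝 (γ' s).1) :=
    fun s hs => (continuous_fst.tendsto _).comp (hγ' s hs)
  have hsnd : ∀ s ∈ Icc 0 (2 * δ), Tendsto (fun n => (γ n s).2) (𝓦 : Filter κ) (𝓝 (γ' s).2) :=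
    fun s hs => (continuous_snd.tendsto _).comp (hγ' s hs)
  have him : ∀ s ∈ Icc 0 (2 * δ), Tendsto (fun n => (γ n s).1.im) (𝓦 : Filter κ)
      (𝓝 (γ' s).1.im) := fun s hs => (Complex.continuous_im.tendsto _).comp (hfst s hs)
  have hh2 : ∀ s ∈ Icc 0 (2 * δ), s ^ 2 / 2 ≤ (γ' s).1.im ^ 2 := by
    intro s hs
    apply ge_of_tendsto' ((him s hs).pow 2)
    intro n
    have := (hγ n).h2 s hs
    linarith [sq_nonneg (γ n 0).1.im]
  have hnn : ∀ s ∈ Icc 0 (2 * δ), 0 ≤ (γ' s).1.im := fun s hs =>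
    ge_of_tendsto' (him s hs) fun n => ((hγ n).pos s hs).le
  have hpos : ∀ s ∈ Ioo 0 (2 * δ), 0 < (γ' s).1.im := by
    intro s hs
    rcases (hnn s (hsm s hs)).eq_or_lt with h | h
    · exfalso
      have h2 := hh2 s (hsm s hs)
      rw [← h] at h2
      have := hs.1
      nlinarith
    · exact h
  have hdisp : ∀ s ∈ Icc 0 (2 * δ), ‖(γ' s).1 - (R₀ : ℂ)‖ ≤ s := by
    intro s hs
    have h1 : Tendsto (fun n => ‖(γ n s).1 - (γ n 0).1‖) (𝓦 : Filter κ)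
        (𝓝 ‖(γ' s).1 - (R₀ : ℂ)‖) := ((hfst s hs).sub h0).norm
    apply le_of_tendsto' h1
    intro n
    have := (hγ n).disp s hs 0 h00
    rwa [sub_zero, abs_of_nonneg hs.1] at this
  have hlow : ∀ s ∈ Icc 0 (2 * δ), ∀ e, e ≤ s / 2 → ∀ y : ℝ, 0 ≤ y → s ^ 2 / 2 ≤ y ^ 2 → e ≤ y := by
    intro s hs e he y hy h2
    refine he.trans ?_
    nlinarith [hs.1]
  refine ⟨γ', ⟨?_, ?_, ?_, fun s hs => hh2 s (hsm s hs), hpos,
    fun s hs => hdisp s (hsm s hs), ?_⟩, hγ'⟩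
  · intro s hs
    have hs0 := hs.1
    obtain ⟨f, C, Λ, hΛ, hC, hfF, hsys⟩ := hA.sys (s / 4) (by linarith)
    obtain ⟨g, hg0, hg⟩ := exists_sol hΛ hC (γ' (s / 2))
    have hεI : s / 2 ∈ Icc 0 (2 * δ) := ⟨by linarith, by linarith [hs.2]⟩
    have hbox : ∀ x ∈ Icc (s / 2) (2 * δ), ∀ X : ℂ, ‖X - (R₀ : ℂ)‖ ≤ 3 * δ → 0 ≤ X.im →
        x ^ 2 / 2 ≤ X.im ^ 2 → X ∈ Bx R₀ ρ (s / 4) := by
      intro x hx X h3 h4 h5
      obtain ⟨a1, a2⟩ := re_im_of_disp h3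
      refine ⟨by linarith, ?_, by linarith [le_abs_self X.im]⟩
      apply hlow x ⟨by linarith [hx.1], hx.2⟩ _ (by linarith [hx.1]) _ h4 h5
    have hkey : ∀ x ∈ Icc (s / 2) (2 * δ), γ' x = g (x - s / 2) := by
      intro x hx
      have hxI : x ∈ Icc 0 (2 * δ) := ⟨by linarith [hx.1], hx.2⟩
      have h1 : Tendsto (fun n => γ n x) (𝓦 : Filter κ) (𝓝 (g (x - s / 2))) := by
        rw [tendsto_iff_dist_tendsto_zero]
        have h2 : Tendsto (fun n => dist (γ n (s / 2)) (γ' (s / 2)) *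
            Real.exp ((Λ + C + 1 : ℝ≥0) * (x - s / 2))) (𝓦 : Filter κ) (𝓝 0) := by
          have := (tendsto_iff_dist_tendsto_zero.1 (hγ' _ hεI)).mul_const
            (Real.exp ((Λ + C + 1 : ℝ≥0) * (x - s / 2)))
          rwa [zero_mul] at this
        apply squeeze_zero' (Eventually.of_forall fun n => dist_nonneg) _ h2
        filter_upwards [hev2] with n hn
        have hsolg : ∀ t ∈ Icc (s / 2) x, HasDerivAt (fun y => g (y - s / 2))
            (Fld f (g (t - s / 2))) t := by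
          intro t ht
          have := hg.hasDerivAt (s := t - s / 2) ⟨by linarith [ht.1], by linarith [ht.2, hx.2]⟩
          exact this.comp_sub_const t (s / 2)
        have hsolγ : ∀ t ∈ Icc (s / 2) x, HasDerivAt (γ n) (Fld f (γ n t)) t := by
          intro t ht
          have htI : t ∈ Icc 0 (2 * δ) := ⟨by linarith [ht.1], ht.2.trans hx.2⟩
          have h3 := (hγ n).sol t htI
          have h4 : Fld f (γ n t) = Fld (FF k c F) (γ n t) := by
            unfold Fld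
            rw [hfF _ (hbox t ⟨ht.1, ht.2.trans hx.2⟩ _ (hn t htI) ((hγ n).pos t htI).le (by
              have := (hγ n).h2 t htI
              linarith [sq_nonneg (γ n 0).1.im]))]
          rw [h4]; exact h3
        exact dist_le_of_trajectories_ODE_of_mem (v := fun _ => Fld f) (s := fun _ => univ)
          (K := Λ + C + 1) (f := γ n) (g := fun y => g (y - s / 2)) (a := s / 2) (b := x)
          (fun t _ => (Fld_lip hΛ hC).lipschitzOnWith)
          (fun t ht => (hsolγ t ht).continuousAt.continuousWithinAt)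
          (fun t ht => (hsolγ t ⟨ht.1, ht.2.le⟩).hasDerivWithinAt)
          (fun t _ => mem_univ _)
          (fun t ht => (hsolg t ht).continuousAt.continuousWithinAt)
          (fun t ht => (hsolg t ⟨ht.1, ht.2.le⟩).hasDerivWithinAt)
          (fun t _ => mem_univ _) (by rw [sub_self, hg0]) x ⟨hx.1, le_refl _⟩
      exact tendsto_nhds_unique (hγ' x hxI) h1
    have h3 : HasDerivAt (fun y => g (y - s / 2)) (Fld f (g (s - s / 2))) s := by
      have := hg.hasDerivAt (s := s - s / 2) ⟨by linarith, by linarith [hs.2]⟩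
      exact this.comp_sub_const s (s / 2)
    have h4 : Fld f (g (s - s / 2)) = Fld (FF k c F) (γ' s) := by
      rw [← hkey s ⟨by linarith, hs.2.le⟩]
      unfold Fld
      rw [hfF _ (hbox s ⟨by linarith, hs.2.le⟩ _ ((hdisp s (hsm s hs)).trans (by linarith [hs.2]))
        (hpos s hs).le (hh2 s (hsm s hs)))]
    rw [h4] at h3
    apply h3.congr_of_eventuallyEq
    filter_upwards [Ioo_mem_nhds (show s / 2 < s by linarith) hs.2] with y hy
    exact hkey y ⟨hy.1.le, hy.2.le⟩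
  · intro s hs
    exact (LT_closed 𝓕 Ph).mem_of_tendsto (hγ' s (hsm s hs))
      (Eventually.of_forall fun n => (hγ n).lt s (hsm s hs))
  · intro s hs
    have h1 : Tendsto (fun n => 2 * (γ n s).1.im * Real.sin (γ n s).2) (𝓦 : Filter κ)
        (𝓝 (2 * (γ' s).1.im * Real.sin (γ' s).2)) :=
      ((him s (hsm s hs)).const_mul 2).mul
        ((Real.continuous_sin.tendsto _).comp (hsnd s (hsm s hs)))
    exact ge_of_tendsto' h1 fun n => (hγ n).h1 s (hsm s hs)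
  · intro s hs
    exact isClosed_Icc.mem_of_tendsto (hsnd s (hsm s hs))
      (Eventually.of_forall fun n => (hγ n).ang s (hsm s hs))

theorem Asc.sin_ge {𝓕 : Filter ι} {Ph : ι → Set (ℂ × ℝ)} {k : ℕ} {c R₀ δ : ℝ} {F : ℝ → ℝ}
    {γ : ℝ → ℂ × ℝ} (h : Asc 𝓕 Ph k c R₀ F δ γ) {s : ℝ} (hs : s ∈ Ioo 0 (2 * δ)) :
    1 / 2 ≤ Real.sin (γ s).2 := by
  have h1 := h.h1 s hs
  have h2 := h.pos s hs
  have h3 := (re_im_of_disp (h.disp s hs)).2
  rw [abs_of_pos h2] at h3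
  have hs0 := hs.1
  have h4 : 0 < Real.sin (γ s).2 := by
    by_contra hcon
    push Not at hcon
    nlinarith
  have h5 : 2 * (γ s).1.im * Real.sin (γ s).2 ≤ 2 * s * Real.sin (γ s).2 := by
    nlinarith
  have h6 : s * 1 ≤ s * (2 * Real.sin (γ s).2) := by linarith
  have := le_of_mul_le_mul_left h6 hs0
  linarith

theorem Asc.d_fst {𝓕 : Filter ι} {Ph : ι → Set (ℂ × ℝ)} {k : ℕ} {c R₀ δ : ℝ} {F : ℝ → ℝ}
    {γ : ℝ → ℂ × ℝ} (h : Asc 𝓕 Ph k c R₀ F δ γ) {s : ℝ} (hs : s ∈ Ioo 0 (2 * δ)) :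
    HasDerivAt (fun s => (γ s).1) (ex (γ s).2) s :=
  (ContinuousLinearMap.fst ℝ ℂ ℝ).hasFDerivAt.comp_hasDerivAt s (h.sol s hs)

theorem Asc.d_im {𝓕 : Filter ι} {Ph : ι → Set (ℂ × ℝ)} {k : ℕ} {c R₀ δ : ℝ} {F : ℝ → ℝ}
    {γ : ℝ → ℂ × ℝ} (h : Asc 𝓕 Ph k c R₀ F δ γ) {s : ℝ} (hs : s ∈ Ioo 0 (2 * δ)) :
    HasDerivAt (fun s => (γ s).1.im) (Real.sin (γ s).2) s := by
  have h2 := Complex.imCLM.hasFDerivAt.comp_hasDerivAt s (h.d_fst hs)
  rw [Complex.imCLM_apply, ex_im] at h2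
  exact h2

theorem Asc.d_re {𝓕 : Filter ι} {Ph : ι → Set (ℂ × ℝ)} {k : ℕ} {c R₀ δ : ℝ} {F : ℝ → ℝ}
    {γ : ℝ → ℂ × ℝ} (h : Asc 𝓕 Ph k c R₀ F δ γ) {s : ℝ} (hs : s ∈ Ioo 0 (2 * δ)) :
    HasDerivAt (fun s => (γ s).1.re) (Real.cos (γ s).2) s := by
  have h2 := Complex.reCLM.hasFDerivAt.comp_hasDerivAt s (h.d_fst hs)
  rw [Complex.reCLM_apply, ex_re] at h2
  exact h2

theorem Asc.d_ang {𝓕 : Filter ι} {Ph : ι → Set (ℂ × ℝ)} {k : ℕ} {c R₀ δ : ℝ} {F : ℝ → ℝ}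
    {γ : ℝ → ℂ × ℝ} (h : Asc 𝓕 Ph k c R₀ F δ γ) {s : ℝ} (hs : s ∈ Ioo 0 (2 * δ)) :
    HasDerivAt (fun s => (γ s).2) (-F (γ s).1.re * Real.sin (γ s).2 +
      (k / (γ s).1.im - c * (γ s).1.im) * Real.cos (γ s).2) s := by
  have h2 := (ContinuousLinearMap.snd ℝ ℂ ℝ).hasFDerivAt.comp_hasDerivAt s (h.sol s hs)
  rw [← inner_FF]
  exact h2

theorem Asc.mono {𝓕 : Filter ι} {Ph : ι → Set (ℂ × ℝ)} {k : ℕ} {c R₀ δ : ℝ} {F : ℝ → ℝ}
    {γ : ℝ → ℂ × ℝ} (h : Asc 𝓕 Ph k c R₀ F δ γ) {s t : ℝ} (hs : s ∈ Ioo 0 (2 * δ))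
    (ht : t ∈ Ioo 0 (2 * δ)) (hst : s ≤ t) : (t - s) / 2 ≤ (γ t).1.im - (γ s).1.im := by
  have hsub : Icc s t ⊆ Ioo 0 (2 * δ) := fun x hx => ⟨hs.1.trans_le hx.1, hx.2.trans_lt ht.2⟩
  have := Convex.mul_sub_le_image_sub_of_le_deriv (f := fun s => (γ s).1.im) (convex_Icc s t)
    (fun x hx => (h.d_im (hsub hx)).continuousAt.continuousWithinAt)
    (fun x hx => by
      rw [interior_Icc] at hx
      exact (h.d_im (hsub (Ioo_subset_Icc_self hx))).differentiableAt.differentiableWithinAt)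
    (C := 1 / 2)
    (fun x hx => by
      rw [interior_Icc] at hx
      rw [(h.d_im (hsub (Ioo_subset_Icc_self hx))).deriv]
      exact h.sin_ge (hsub (Ioo_subset_Icc_self hx))) s ⟨le_refl _, hst⟩ t ⟨hst, le_refl _⟩ hst
  linarith

theorem Asc.inj {𝓕 : Filter ι} {Ph : ι → Set (ℂ × ℝ)} {k : ℕ} {c R₀ δ : ℝ} {F : ℝ → ℝ}
    {γ : ℝ → ℂ × ℝ} (h : Asc 𝓕 Ph k c R₀ F δ γ) {s t : ℝ} (hs : s ∈ Ioo 0 (2 * δ))
    (ht : t ∈ Ioo 0 (2 * δ)) : |s - t| ≤ 2 * |(γ s).1.im - (γ t).1.im| := by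
  rcases le_total s t with hst | hst
  · have := h.mono hs ht hst
    rw [abs_sub_comm, abs_of_nonneg (sub_nonneg.2 hst), abs_sub_comm, abs_of_nonneg (by linarith)]
    linarith
  · have := h.mono ht hs hst
    rw [abs_of_nonneg (sub_nonneg.2 hst), abs_of_nonneg (by linarith)]
    linarith

/-- The leaf as a graph over the distance to the axis. -/
theorem Asc.graph {𝓕 : Filter ι} {Ph : ι → Set (ℂ × ℝ)} {k : ℕ} {c R₀ δ : ℝ} {F : ℝ → ℝ}
    {γ : ℝ → ℂ × ℝ} (h : Asc 𝓕 Ph k c R₀ F δ γ) :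
    ∃ φ σ : ℝ → ℝ, AxG k c R₀ δ F φ σ ∧
      (∀ x ∈ Ioo 0 δ, ∃ s ∈ Ioo 0 (2 * δ), (γ s).1 = ⟨φ x, x⟩) ∧
      ∀ s ∈ Ioo 0 (2 * δ), (γ s).1.im < δ → (γ s).1.re = φ (γ s).1.im := by
  have hex : ∀ x ∈ Ioo 0 δ, ∃ s, s ∈ Icc x (3 / 2 * x) ∧ (γ s).1.im = x := by
    intro x hx
    have hsub : Icc x (3 / 2 * x) ⊆ Ioo 0 (2 * δ) := fun y hy =>
      ⟨hx.1.trans_le hy.1, by linarith [hy.2, hx.2, hx.1]⟩
    have hx0 := hx.1
    have hle : x ≤ 3 / 2 * x := by linarith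
    have h1 := (re_im_of_disp (h.disp x (hsub ⟨le_refl _, hle⟩))).2
    have h2 := h.h2 (3 / 2 * x) (hsub ⟨hle, le_refl _⟩)
    have h3 := h.pos (3 / 2 * x) (hsub ⟨hle, le_refl _⟩)
    have h4 : x ≤ (γ (3 / 2 * x)).1.im := by nlinarith
    obtain ⟨s, hs, hsx⟩ := intermediate_value_Icc hle (f := fun s => (γ s).1.im)
      (fun y hy => (h.d_im (hsub hy)).continuousAt.continuousWithinAt)
      (show x ∈ Icc _ _ from ⟨(le_abs_self _).trans h1, h4⟩)
    exact ⟨s, hs, hsx⟩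
  choose! g hg using hex
  have hgI : ∀ x ∈ Ioo 0 δ, g x ∈ Ioo 0 (2 * δ) := fun x hx =>
    ⟨hx.1.trans_le (hg x hx).1.1, by linarith [(hg x hx).1.2, hx.2, hx.1]⟩
  have hgc : ∀ x ∈ Ioo 0 δ, ContinuousAt g x := by
    intro x hx
    rw [ContinuousAt, tendsto_iff_dist_tendsto_zero]
    have h1 : Tendsto (fun y => 2 * |y - x|) (𝓝 x) (𝓝 0) := by
      have : Continuous fun y : ℝ => 2 * |y - x| := by fun_prop
      have h2 := this.tendsto x
      simpa using h2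
    apply squeeze_zero' (Eventually.of_forall fun n => dist_nonneg) _ h1
    filter_upwards [Ioo_mem_nhds hx.1 hx.2] with y hy
    have h3 := h.inj (hgI y hy) (hgI x hx)
    rw [(hg y hy).2, (hg x hx).2] at h3
    rw [Real.dist_eq]
    exact h3
  have hgd : ∀ x ∈ Ioo 0 δ, HasDerivAt g (Real.sin (γ (g x)).2)⁻¹ x := by
    intro x hx
    apply HasDerivAt.of_local_left_inverse (f := fun s => (γ s).1.im) (hgc x hx)
      (h.d_im (hgI x hx))
    · have := h.sin_ge (hgI x hx)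
      positivity
    · filter_upwards [Ioo_mem_nhds hx.1 hx.2] with y hy
      exact (hg y hy).2
  refine ⟨fun x => (γ (g x)).1.re, fun x => Real.cos (γ (g x)).2 / Real.sin (γ (g x)).2,
    ⟨⟨?_, ?_⟩, ?_, ?_⟩, ?_, ?_⟩
  · intro x hx
    exact (h.d_re (hgI x hx)).comp x (hgd x hx)
  · intro x hx
    have h1 := h.sin_ge (hgI x hx)
    have h0 : Real.sin (γ (g x)).2 ≠ 0 := by
      intro h2; rw [h2] at h1; norm_num at h1
    have h2 := (h.d_ang (hgI x hx))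
    have h3 := (h2.cos.div h2.sin h0).comp x (hgd x hx)
    refine h3.congr_deriv ?_
    rw [(hg x hx).2]
    have hcs := Real.sin_sq_add_cos_sq (γ (g x)).2
    generalize Real.sin (γ (g x)).2 = sn at *
    generalize Real.cos (γ (g x)).2 = cs at *
    generalize F (γ (g x)).1.re = A at *
    have hx0 := hx.1.ne'
    have e1 : 1 + (cs / sn) ^ 2 = 1 / sn ^ 2 := by
      field_simp
      linarith
    rw [e1]
    have e2 : -sn * (-A * sn + (k / x - c * x) * cs) * sn - cs * (cs * (-A * sn + (k / x - c * x) * cs)) =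
        -(-A * sn + (k / x - c * x) * cs) := by
      linear_combination (-(-A * sn + (k / x - c * x) * cs)) * hcs
    rw [e2]
    field_simp
    ring
  · intro x hx
    have h1 := h.sin_ge (hgI x hx)
    rw [abs_div, abs_of_pos (by linarith : 0 < Real.sin (γ (g x)).2), div_le_iff₀ (by linarith)]
    have := Real.abs_cos_le_one (γ (g x)).2
    linarith
  · intro x hx
    have h1 := (re_im_of_disp (h.disp _ (hgI x hx))).1
    have := (hg x hx).1.2
    have := hx.1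
    show |(γ (g x)).1.re - R₀| ≤ 4 * x
    linarith
  · intro x hx
    refine ⟨g x, hgI x hx, ?_⟩
    apply Complex.ext
    · rfl
    · exact (hg x hx).2
  · intro s hs hlt
    have hx : (γ s).1.im ∈ Ioo 0 δ := ⟨h.pos s hs, hlt⟩
    have h1 := h.inj (hgI _ hx) hs
    rw [(hg _ hx).2, sub_self, abs_zero, mul_zero] at h1
    have h2 : g (γ s).1.im = s := sub_eq_zero.1 (abs_eq_zero.1 (le_antisymm h1 (abs_nonneg _)))
    show (γ s).1.re = (γ (g (γ s).1.im)).1.re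
    rw [h2]

end Pool.Agent.Helper532_SymMCF

end

section

/-!
The structure of the limit set near a point of the axis.
-/

open Set Filter MeasureTheory Topology Metric
open scoped ContDiff NNReal ENNReal

namespace Pool.Agent.Helper532_SymMCF

variable {ι : Type*}

theorem AxG.restrict {k : ℕ} {c R₀ h h' : ℝ} {F φ σ : ℝ → ℝ} (hA : AxG k c R₀ h F φ σ)
    (hh : h' ≤ h) : AxG k c R₀ h' F φ σ :=
  ⟨⟨fun s hs => hA.sol.dφ s ⟨hs.1, hs.2.trans_le hh⟩,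
    fun s hs => hA.sol.dσ s ⟨hs.1, hs.2.trans_le hh⟩⟩,
    fun s hs => hA.bσ s ⟨hs.1, hs.2.trans_le hh⟩, fun s hs => hA.bφ s ⟨hs.1, hs.2.trans_le hh⟩⟩

theorem AxLoc.rot {𝓕 : Filter ι} {Ph : ι → Set (ℂ × ℝ)} {k : ℕ} {c R₀ ρ : ℝ} {F : ℝ → ℝ}
    (hA : AxLoc 𝓕 Ph k c R₀ ρ F) (z : ℂ) (m : ℤ) : ∀ θ : ℝ, (z, θ) ∈ LT 𝓕 Ph →
    (z, θ + m * Real.pi) ∈ LT 𝓕 Ph := by
  obtain ⟨f, C, Λ, hΛ, hC, hfF, hsys⟩ := hA.sys 1 one_pos
  have h1 : ∀ θ : ℝ, (z, θ) ∈ LT 𝓕 Ph → (z, θ + Real.pi) ∈ LT 𝓕 Ph ∧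
      (z, θ - Real.pi) ∈ LT 𝓕 Ph := by
    intro θ hθ
    constructor
    · intro δ hδ
      filter_upwards [hsys 1 one_pos, hθ δ hδ] with i hi hY
      obtain ⟨⟨y, φ⟩, hY, hd⟩ := hY
      refine ⟨(y, φ + Real.pi), (hi.rot _ _ hY).1, ?_⟩
      simpa [Prod.dist_eq] using hd
    · intro δ hδ
      filter_upwards [hsys 1 one_pos, hθ δ hδ] with i hi hY
      obtain ⟨⟨y, φ⟩, hY, hd⟩ := hY
      refine ⟨(y, φ - Real.pi), (hi.rot _ _ hY).2, ?_⟩
      simpa [Prod.dist_eq] using hd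
  induction m using Int.induction_on with
  | zero => intro θ h; simpa using h
  | succ n ih =>
    intro θ h
    have := (h1 _ (ih θ h)).1
    convert this using 2
    push_cast; ring
  | pred n ih =>
    intro θ h
    have := (h1 _ (ih θ h)).2
    convert this using 2
    push_cast; ring

theorem AxLoc.norm_ang {𝓕 : Filter ι} {Ph : ι → Set (ℂ × ℝ)} {k : ℕ} {c R₀ ρ : ℝ} {F : ℝ → ℝ}
    (hA : AxLoc 𝓕 Ph k c R₀ ρ F) {z : ℂ} {θ : ℝ} (h : (z, θ) ∈ LT 𝓕 Ph) :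
    ∃ θ' ∈ Icc 0 Real.pi, (z, θ') ∈ LT 𝓕 Ph := by
  set θ' := toIcoMod Real.pi_pos 0 θ with hθ'
  have hmem : θ' ∈ Ico 0 Real.pi := by
    have := toIcoMod_mem_Ico Real.pi_pos 0 θ
    rwa [zero_add] at this
  have heq : θ' = θ + (-(toIcoDiv Real.pi_pos 0 θ) : ℤ) * Real.pi := by
    have := self_sub_toIcoDiv_zsmul Real.pi_pos 0 θ
    rw [zsmul_eq_mul] at this
    rw [hθ', ← this]
    push_cast; ring
  refine ⟨θ', ⟨hmem.1, hmem.2.le⟩, ?_⟩
  rw [heq]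
  exact hA.rot z _ θ h

/-- an ultrafilter on the natural numbers -/
noncomputable abbrev UF : Ultrafilter ℕ := Ultrafilter.of atTop

/-- A sequence of rising leaves through points converging to `R₀`, and its limit. -/
theorem exists_seq {𝓕 : Filter ι} {Ph : ι → Set (ℂ × ℝ)} {k : ℕ} {c R₀ ρ C₁ L₁ δ : ℝ}
    {F : ℝ → ℝ} (hA : AxLoc 𝓕 Ph k c R₀ ρ F) (hS : Sm c R₀ ρ C₁ L₁ F δ) {z : ℕ → ℂ}
    (hz : ∀ n, 0 < (z n).im) (hz' : ∀ n, ∃ θ, (z n, θ) ∈ LT 𝓕 Ph)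
    (hzn : ∀ n, ‖z n - (R₀ : ℂ)‖ ≤ δ / (n + 1)) :
    ∃ (γ : ℕ → ℝ → ℂ × ℝ) (γ' : ℝ → ℂ × ℝ), (∀ n, Rise 𝓕 Ph k c F δ (γ n) ∧ (γ n 0).1 = z n) ∧
      Asc 𝓕 Ph k c R₀ F δ γ' ∧ ∀ s ∈ Icc 0 (2 * δ),
        Tendsto (fun n => γ n s) (UF : Filter ℕ) (𝓝 (γ' s)) := by
  have hδ := hS.pos
  have hle : ∀ n : ℕ, δ / (n + 1) ≤ δ := by
    intro n
    apply div_le_self hδ.le
    have : (0 : ℝ) ≤ n := Nat.cast_nonneg n
    linarith
  have h1 : ∀ n, ∃ γ, Rise 𝓕 Ph k c F δ γ ∧ (γ 0).1 = z n := by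
    intro n
    obtain ⟨θ, hθ⟩ := hz' n
    obtain ⟨θ', hθ', hL⟩ := hA.norm_ang hθ
    obtain ⟨a1, a2⟩ := re_im_of_disp (hzn n)
    obtain ⟨γ, h0, hγ⟩ := exists_rise hA hS hL (hz n) ((le_abs_self _).trans (a2.trans (hle n)))
      (a1.trans (hle n)) hθ'
    exact ⟨γ, hγ, by rw [h0]⟩
  choose γ hγ using h1
  have hlim : Tendsto (fun n => (γ n 0).1) (UF : Filter ℕ) (𝓝 (R₀ : ℂ)) := by
    have h2 : Tendsto (fun n => (γ n 0).1) atTop (𝓝 (R₀ : ℂ)) := by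
      rw [tendsto_iff_norm_sub_tendsto_zero]
      have h3 : Tendsto (fun n : ℕ => δ / ((n : ℝ) + 1)) atTop (𝓝 0) := by
        have := (tendsto_one_div_add_atTop_nhds_zero_nat (𝕜 := ℝ)).const_mul δ
        simp only [mul_zero, mul_one_div] at this
        exact this
      apply squeeze_zero (fun n => norm_nonneg _) _ h3
      intro n
      rw [(hγ n).2]
      exact hzn n
    exact h2.mono_left (Ultrafilter.of_le atTop)
  obtain ⟨γ', hγ', hc⟩ := exists_asc hA hS UF (fun n => (hγ n).1) hlim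
  exact ⟨γ, γ', hγ, hγ', hc⟩

theorem eq_of_sin {x y : ℝ} (hx : x ∈ Icc 0 Real.pi) (hy : y ∈ Icc 0 Real.pi)
    (hx' : 0 < Real.sin x) (hy' : 0 < Real.sin y) (h : Real.sin (y - x) = 0) : x = y := by
  have hx0 : 0 < x := by
    rcases hx.1.eq_or_lt with h0 | h0
    · rw [← h0, Real.sin_zero] at hx'; exact absurd hx' (lt_irrefl _)
    · exact h0
  have hy0 : 0 < y := by
    rcases hy.1.eq_or_lt with h0 | h0
    · rw [← h0, Real.sin_zero] at hy'; exact absurd hy' (lt_irrefl _)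
    · exact h0
  have := (Real.sin_eq_zero_iff_of_lt_of_lt (by linarith [hx.2]) (by linarith [hy.2])).1 h
  linarith

theorem im_low {s y : ℝ} (_hs : 0 ≤ s) (hy : 0 < y) (h : s ^ 2 / 2 ≤ y ^ 2) : s / 2 ≤ y := by
  by_contra hcon
  push Not at hcon
  have h1 := pow_lt_pow_left₀ hcon hy.le two_ne_zero
  linarith [sq_nonneg s]

/-- The structure of the limit set near a point of the axis. -/
theorem ax_main {𝓕 : Filter ι} [𝓕.NeBot] {Ph : ι → Set (ℂ × ℝ)} {k : ℕ} {c R₀ ρ C₁ L₁ : ℝ}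
    {F : ℝ → ℝ} (hA : AxLoc 𝓕 Ph k c R₀ ρ F) (hF : FB F R₀ ρ C₁ L₁)
    (hacc : ∀ ε > 0, ∃ X ∈ LT 𝓕 Ph, 0 < X.1.im ∧ ‖X.1 - (R₀ : ℂ)‖ ≤ ε) :
    ∃ s₀ > 0, ∃ φ σ : ℝ → ℝ, AxG k c R₀ s₀ F φ σ ∧ ∀ ζ : ℂ, 0 < ζ.im → ζ.im < s₀ →
      |ζ.re - R₀| < s₀ → ((∃ θ, (ζ, θ) ∈ LT 𝓕 Ph) ↔ ζ.re = φ ζ.im) := by
  obtain ⟨h₁, hh₁, huniq⟩ := AxG.unique (k := k) hA.k1 (c := c) hF
  have hρ := hF.ρ0
  have hC0 := hF.C0
  set δ : ℝ := min (min (ρ / 4) (1 / 8)) (min (1 / (8 * (C₁ + |c| + 1))) h₁) with hδdef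
  have hδ : 0 < δ := by positivity
  have m1 : δ ≤ ρ / 4 := (min_le_left _ _).trans (min_le_left _ _)
  have m2 : δ ≤ 1 / 8 := (min_le_left _ _).trans (min_le_right _ _)
  have m3 : δ ≤ 1 / (8 * (C₁ + |c| + 1)) := (min_le_right _ _).trans (min_le_left _ _)
  have m4 : δ ≤ h₁ := (min_le_right _ _).trans (min_le_right _ _)
  have hS : Sm c R₀ ρ C₁ L₁ F δ := by
    refine ⟨hF, hδ, by linarith, by linarith, ?_⟩
    rw [le_div_iff₀ (by positivity)] at m3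
    linarith
  have hn0 : ∀ n : ℕ, 0 < δ / ((n : ℝ) + 1) := fun n => by positivity
  -- the reference leaf
  obtain ⟨φ, σ, hAx, hg2, hg3⟩ : ∃ φ σ : ℝ → ℝ, AxG k c R₀ δ F φ σ ∧
      (∀ x ∈ Ioo 0 δ, ∃ θ, ((⟨φ x, x⟩ : ℂ), θ) ∈ LT 𝓕 Ph) ∧ True := by
    have h1 : ∀ n : ℕ, ∃ X ∈ LT 𝓕 Ph, 0 < X.1.im ∧ ‖X.1 - (R₀ : ℂ)‖ ≤ δ / ((n : ℝ) + 1) :=
      fun n => hacc _ (hn0 n)
    choose X hX1 hX2 hX3 using h1
    obtain ⟨γ, γ', hγ, hγ', hc⟩ := exists_seq hA hS (z := fun n => (X n).1) hX2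
      (fun n => ⟨(X n).2, hX1 n⟩) hX3
    obtain ⟨φ, σ, h1, h2, h3⟩ := hγ'.graph
    refine ⟨φ, σ, h1, fun x hx => ?_, trivial⟩
    obtain ⟨s, hs, hsx⟩ := h2 x hx
    refine ⟨(γ' s).2, ?_⟩
    rw [← hsx]
    exact hγ'.lt s hs
  -- no other points
  have key : ∃ η > 0, ∀ ζ : ℂ, 0 < ζ.im → ζ.im < η → |ζ.re - R₀| < η →
      (∃ θ, (ζ, θ) ∈ LT 𝓕 Ph) → ζ.re = φ ζ.im := by
    by_contra hcon
    push Not at hcon
    have h1 : ∀ n : ℕ, ∃ ζ : ℂ, 0 < ζ.im ∧ ‖ζ - (R₀ : ℂ)‖ ≤ δ / ((n : ℝ) + 1) ∧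
        (∃ θ, (ζ, θ) ∈ LT 𝓕 Ph) ∧ ζ.re ≠ φ ζ.im := by
      intro n
      obtain ⟨ζ, a1, a2, a3, a4, a5⟩ := hcon (δ / ((n : ℝ) + 1) / 2) (half_pos (hn0 n))
      refine ⟨ζ, a1, ?_, a4, a5⟩
      refine (Complex.norm_le_abs_re_add_abs_im _).trans ?_
      simp only [Complex.sub_re, Complex.sub_im, Complex.ofReal_re, Complex.ofReal_im, sub_zero]
      rw [abs_of_pos a1]
      linarith
    choose z hz1 hz2 hz3 hz4 using h1
    obtain ⟨γ, γ', hγ, hγ', hc⟩ := exists_seq hA hS hz1 hz3 hz2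
    obtain ⟨φ', σ', h1, _, h3⟩ := hγ'.graph
    have hφφ : ∀ x ∈ Ioo 0 δ, φ' x = φ x := by
      intro x hx
      refine (huniq h1 hAx x ?_).1
      rw [min_self, min_eq_left m4]
      exact hx
    -- the comparison point
    set s₁ : ℝ := δ / 2 with hs₁
    have hs₁I : s₁ ∈ Ioo 0 (2 * δ) := ⟨by linarith, by linarith⟩
    set a : ℂ := (γ' s₁).1 with ha
    have had := hγ'.disp s₁ hs₁I
    obtain ⟨ad1, ad2⟩ := re_im_of_disp had
    have hapos := hγ'.pos s₁ hs₁I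
    have halow : δ / 4 ≤ a.im := by
      have h4 := im_low hs₁I.1.le hapos (hγ'.h2 s₁ hs₁I)
      rw [← ha] at h4
      linarith
    rw [← ha] at ad1 ad2 hapos
    rw [abs_of_pos hapos] at ad2
    obtain ⟨f, C, Λ, hΛ, hC, hfF, hsys⟩ := hA.sys (δ / 16) (by positivity)
    have hR0 : 0 < δ / 8 := by positivity
    have hL : Loc 𝓕 Ph f C Λ a (δ / 8) := by
      apply loc_of_box hΛ hC hsys hR0 <;> linarith
    obtain ⟨h₀, hh₀, hMB⟩ := hA.mb a hapos (by linarith) (by linarith)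
    have hro := ro_pos C hR0
    have hro4 := ro_le_quarter C (δ / 8)
    have hroR := ro_le C (δ / 8)
    set h : ℝ := min h₀ (min (ro C (δ / 8) / 12) (1 / (1200 * (C + 1)))) with hh
    have hh0 : 0 < h := by positivity
    have hh1 : h ≤ h₀ := min_le_left _ _
    have hh3 : 12 * h ≤ ro C (δ / 8) := by
      have : h ≤ ro C (δ / 8) / 12 := (min_le_right _ _).trans (min_le_left _ _)
      linarith
    have hh4 : C * (3 * h) ≤ 1 / 400 := by
      have h1 : h ≤ 1 / (1200 * (C + 1)) := (min_le_right _ _).trans (min_le_right _ _)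
      have h2 : (C : ℝ) * (3 * h) ≤ C * (3 * (1 / (1200 * (C + 1)))) :=
        mul_le_mul_of_nonneg_left (by linarith) C.coe_nonneg
      have h3 : (C : ℝ) * (3 * (1 / (1200 * (C + 1)))) ≤ 1 / 400 := by
        have : (0 : ℝ) < C + 1 := by positivity
        field_simp
        linarith [C.coe_nonneg]
      linarith
    obtain ⟨g, hg0, hg⟩ := exists_sol hΛ hC (γ' s₁)
    obtain ⟨ε, hε, hsingle⟩ := hL.single hh0 hh3 hh4 (hMB h hh0 hh1) hg
      (by rw [hg0]; exact hγ'.lt s₁ hs₁I) (by rw [hg0])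
    -- `g` is a shift of `γ'`
    have hshift : ∀ u ∈ Ioo (-(δ / 4)) (δ / 4), g u = γ' (s₁ + u) := by
      intro u hu
      apply ODE_solution_unique_of_mem_Ioo (v := fun _ => Fld f) (s := fun _ => univ)
        (K := Λ + C + 1) (a := -(δ / 4)) (b := δ / 4) (t₀ := 0) (f := g)
        (g := fun u => γ' (s₁ + u)) (fun _ _ => (Fld_lip hΛ hC).lipschitzOnWith)
        (by constructor <;> linarith) _ _ (by simp [hg0]) hu
      · intro t ht
        exact ⟨hg.hasDerivAt ⟨by linarith [ht.1], by linarith [ht.2]⟩, mem_univ _⟩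
      · intro t ht
        have htI : s₁ + t ∈ Ioo 0 (2 * δ) := ⟨by linarith [ht.1], by linarith [ht.2]⟩
        refine ⟨?_, mem_univ _⟩
        have h4 := (hγ'.sol _ htI).comp_const_add s₁ t
        have h5 : Fld f (γ' (s₁ + t)) = Fld (FF k c F) (γ' (s₁ + t)) := by
          unfold Fld
          obtain ⟨b1, b2⟩ := re_im_of_disp (hγ'.disp _ htI)
          have b3 := hγ'.h2 _ htI
          have b4 := hγ'.pos _ htI
          rw [abs_of_pos b4] at b2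
          rw [hfF _ ⟨by linarith [ht.2], by
            have b5 := im_low htI.1.le b4 b3
            linarith [ht.1], by linarith [ht.2]⟩]
        rw [h5]; exact h4
    -- a member of the sequence close to `a`
    have hev : ∀ᶠ n in (UF : Filter ℕ), dist (γ n s₁).1 a < min ε (δ / 16) := by
      have h4 : Tendsto (fun n => (γ n s₁).1) (UF : Filter ℕ) (𝓝 a) :=
        (continuous_fst.tendsto _).comp (hc s₁ (Ioo_subset_Icc_self hs₁I))
      exact (tendsto_iff_dist_tendsto_zero.1 h4).eventually_lt_const (by positivity)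
    obtain ⟨n, hn⟩ := hev.exists
    obtain ⟨hRn, hγn0⟩ := hγ n
    have hs₁I' := Ioo_subset_Icc_self hs₁I
    obtain ⟨u, hu, hun⟩ := hsingle _ (hRn.lt s₁ hs₁I') (hn.trans_le (min_le_left _ _))
    simp only at hun
    have hu' : u ∈ Ioo (-(δ / 4)) (δ / 4) := ⟨by linarith [hu.1], by linarith [hu.2]⟩
    have hu'' : |u| ≤ δ / 32 := abs_le.2 ⟨by linarith [hu.1], by linarith [hu.2]⟩
    rw [abs_le] at hu''
    rw [hshift u hu'] at hun
    have hsuI : s₁ + u ∈ Ioo 0 (2 * δ) := ⟨by linarith [hu'.1], by linarith [hu'.2]⟩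
    have hang : (γ n s₁).2 = (γ' (s₁ + u)).2 := by
      have b1 : ((γ n s₁).1, (γ n s₁).2) ∈ LT 𝓕 Ph := hRn.lt s₁ hs₁I'
      have b2 : ((γ n s₁).1, (γ' (s₁ + u)).2) ∈ LT 𝓕 Ph := by
        rw [← hun]; exact hγ'.lt _ hsuI
      have b3 := hL.line b1 b2 (by
        have := hn.trans_le (min_le_right _ _)
        linarith)
      apply eq_of_sin (hRn.ang s₁ hs₁I') (hγ'.ang _ hsuI) _ _ b3
      · have b4 := hRn.h1 s₁ hs₁I'
        have b5 := hRn.pos s₁ hs₁I'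
        by_contra hcon
        push Not at hcon
        have b6 := mul_nonpos_of_nonneg_of_nonpos (show 0 ≤ 2 * (γ n s₁).1.im by positivity) hcon
        linarith [hs₁I.1]
      · have := hγ'.sin_ge hsuI
        linarith
    have hphase : γ n s₁ = γ' (s₁ + u) := Prod.ext hun.symm hang
    -- backward uniqueness
    set y : ℝ := (z n).im with hy
    have hy0 : 0 < y := hz1 n
    have hzn : ‖z n - (R₀ : ℂ)‖ ≤ δ := by
      refine (hz2 n).trans (div_le_self hδ.le ?_)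
      have : (0 : ℝ) ≤ n := Nat.cast_nonneg n
      linarith
    obtain ⟨zd1, zd2⟩ := re_im_of_disp hzn
    rw [← hy, abs_of_pos hy0] at zd2
    obtain ⟨f', C', Λ', hΛ', hC', hfF', _⟩ := hA.sys (y / 8) (by positivity)
    set t₀ : ℝ := max 0 (y / 4 - u) with ht₀
    have ht₀0 : 0 ≤ t₀ := le_max_left _ _
    have ht₀u : y / 4 ≤ t₀ + u := by
      have := le_max_right 0 (y / 4 - u)
      linarith
    have ht₀s : t₀ ≤ s₁ := by
      apply max_le (by linarith)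
      linarith
    have heq : EqOn (γ n) (fun x => γ' (x + u)) (Icc t₀ s₁) := by
      have hI : ∀ t ∈ Icc t₀ s₁, t ∈ Icc 0 (2 * δ) ∧ t + u ∈ Ioo 0 (2 * δ) := fun t ht =>
        ⟨⟨ht₀0.trans ht.1, by linarith [ht.2]⟩, ⟨by linarith [ht.1], by linarith [ht.2]⟩⟩
      have hd1 : ∀ t ∈ Icc t₀ s₁, HasDerivAt (γ n) (Fld f' (γ n t)) t := by
        intro t ht
        obtain ⟨hI1, _⟩ := hI t ht
        have h4 := hRn.sol t hI1
        have h5 : Fld f' (γ n t) = Fld (FF k c F) (γ n t) := by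
          unfold Fld
          have b0 : ‖(γ n t).1 - (R₀ : ℂ)‖ ≤ 3 * δ := by
            have c1 := hRn.disp t hI1 0 ⟨le_refl _, by positivity⟩
            rw [sub_zero, abs_of_nonneg hI1.1, hγn0] at c1
            have c2 := norm_sub_le_norm_sub_add_norm_sub (γ n t).1 (z n) (R₀ : ℂ)
            linarith [hI1.2]
          obtain ⟨b1, b2⟩ := re_im_of_disp b0
          have b3 := hRn.h2 t hI1
          rw [hγn0] at b3
          have b4 := hRn.pos t hI1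
          rw [abs_of_pos b4] at b2
          rw [hfF' _ ⟨by linarith, by
            have b5 := le_of_sq_le_sq (show y ^ 2 ≤ (γ n t).1.im ^ 2 by linarith [sq_nonneg t]) b4.le
            linarith, by linarith⟩]
        rw [h5]; exact h4
      have hd2 : ∀ t ∈ Icc t₀ s₁, HasDerivAt (fun x => γ' (x + u)) (Fld f' (γ' (t + u))) t := by
        intro t ht
        obtain ⟨_, hI2⟩ := hI t ht
        have h4 := (hγ'.sol _ hI2).comp_add_const t u
        have h5 : Fld f' (γ' (t + u)) = Fld (FF k c F) (γ' (t + u)) := by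
          unfold Fld
          obtain ⟨b1, b2⟩ := re_im_of_disp (hγ'.disp _ hI2)
          have b3 := hγ'.h2 _ hI2
          have b4 := hγ'.pos _ hI2
          rw [abs_of_pos b4] at b2
          have b5 : y / 4 ≤ t + u := by linarith [ht.1]
          rw [hfF' _ ⟨by linarith [hI2.2], by
            have b6 := im_low hI2.1.le b4 b3
            linarith, by linarith [hI2.2]⟩]
        rw [h5]; exact h4
      exact ODE_solution_unique_of_mem_Icc_left (v := fun _ => Fld f') (s := fun _ => univ)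
        (K := Λ' + C' + 1) (fun _ _ => (Fld_lip hΛ' hC').lipschitzOnWith)
        (fun t ht => (hd1 t ht).continuousAt.continuousWithinAt)
        (fun t ht => (hd1 t (Ioc_subset_Icc_self ht)).hasDerivWithinAt) (fun _ _ => mem_univ _)
        (fun t ht => (hd2 t ht).continuousAt.continuousWithinAt)
        (fun t ht => (hd2 t (Ioc_subset_Icc_self ht)).hasDerivWithinAt) (fun _ _ => mem_univ _)
        hphase
    have hleft := heq ⟨le_refl _, ht₀s⟩
    simp only at hleft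
    have ht₀I : t₀ ∈ Icc 0 (2 * δ) := ⟨ht₀0, by linarith⟩
    have ht₀uI : t₀ + u ∈ Ioo 0 (2 * δ) := ⟨by linarith, by linarith⟩
    have htz : t₀ = 0 := by
      by_contra hne
      have h4 : t₀ = y / 4 - u := by
        rcases max_choice 0 (y / 4 - u) with h5 | h5
        · exact absurd h5 hne
        · exact h5
      have h5 : t₀ + u = y / 4 := by rw [h4]; ring
      have b1 := hRn.h2 t₀ ht₀I
      rw [hγn0] at b1
      have b2 := (re_im_of_disp (hγ'.disp _ ht₀uI)).2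
      have b3 := hγ'.pos _ ht₀uI
      rw [abs_of_pos b3, h5] at b2
      rw [hleft, h5] at b1
      rw [h5] at b3
      have c1 := pow_le_pow_left₀ b3.le b2 2
      have c2 := pow_pos hy0 2
      linarith [sq_nonneg t₀]
    rw [htz, zero_add] at hleft ht₀uI
    have h4 := h3 u ht₀uI (by
      rw [← hleft, hγn0]
      have h5 := re_im_of_disp (hz2 n)
      by_contra hcon
      push Not at hcon
      -- `im (z n) = δ` is impossible unless `re = R₀`; avoid by strictness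
      have h6 : (γ' u).1.im = y := by rw [← hleft, hγn0]
      have h7 : u < δ := by linarith
      have h8 := (re_im_of_disp (hγ'.disp u ht₀uI)).2
      rw [h6, abs_of_pos hy0] at h8
      linarith)
    rw [← hleft, hγn0] at h4
    apply hz4 n
    rw [h4]
    apply hφφ
    refine ⟨hy0, ?_⟩
    have h6 : (γ' u).1.im = y := by rw [← hleft, hγn0]
    have h8 := (re_im_of_disp (hγ'.disp u ht₀uI)).2
    rw [h6, abs_of_pos hy0] at h8
    linarith
  obtain ⟨η, hη, hkey⟩ := key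
  refine ⟨min δ η, by positivity, φ, σ, hAx.restrict (min_le_left _ _), ?_⟩
  intro ζ hζ0 hζ1 hζ2
  constructor
  · intro hθ
    exact hkey ζ hζ0 (hζ1.trans_le (min_le_right _ _)) (hζ2.trans_le (min_le_right _ _)) hθ
  · intro hre
    obtain ⟨θ, hθ⟩ := hg2 ζ.im ⟨hζ0, hζ1.trans_le (min_le_left _ _)⟩
    refine ⟨θ, ?_⟩
    have : (⟨φ ζ.im, ζ.im⟩ : ℂ) = ζ := by
      rw [← hre]
    rwa [this] at hθ

end Pool.Agent.Helper532_SymMCF

end
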