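import Mathlib

/-!
Mean curvature flow of closed embedded hypersurfaces of `ℝ^p × ℝ^q = ℝ^(n+1)`, `n = p + q - 1`,
which are invariant under `O(p) × O(q)`, and their tangent flows.

Such a hypersurface is `{(x, y) : (|x|, |y|) ∈ Γ}` where the profile `Γ` is a finite union of
smooth closed embedded curves of the plane `ℝ²`, symmetric in both coordinate axes.
The plane `ℝ²` is identified with `ℂ`, with coordinates `r = re`, `s = im`.
-/

open Set Filter MeasureTheory Topology
open scoped ContDiff NNReal ENNReal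

namespace Pool.Agent.Helper532_SymMCF

/-- The Euclidean space `ℝ^p × ℝ^q`; its points are written `z = (x, y)`. -/
abbrev V (p q : ℕ) := EuclideanSpace ℝ (Fin p ⊕ Fin q)

/-- The Euclidean norm `|x|` of the first component of `z = (x, y)`. -/
noncomputable def rad₁ {p q : ℕ} (z : V p q) : ℝ := √(∑ i, z (Sum.inl i) ^ 2)

/-- The Euclidean norm `|y|` of the second component of `z = (x, y)`. -/
noncomputable def rad₂ {p q : ℕ} (z : V p q) : ℝ := √(∑ j, z (Sum.inr j) ^ 2)

/-- The profile map `z = (x, y) ↦ |x| + i |y|`. -/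
noncomputable def prof {p q : ℕ} (z : V p q) : ℂ := ⟨rad₁ z, rad₂ z⟩

/-- The unit vector `v / |v|`. -/
noncomputable def tg (v : ℂ) : ℂ := v / (‖v‖ : ℂ)

/-- The unit vector obtained by rotating `v / |v|` by a right angle (unit normal of a curve with
velocity `v`). -/
noncomputable def nu (v : ℂ) : ℂ := Complex.I * tg v

/-- The curvature, with respect to the unit normal `nu (γ' u)`, of an immersed plane curve `γ`. -/
noncomputable def curv (γ : ℝ → ℂ) (u : ℝ) : ℝ :=
  inner ℝ (deriv (deriv γ) u) (nu (deriv γ u)) / ‖deriv γ u‖ ^ 2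

/-- `c` is the profile of a smooth mean curvature flow, defined for `0 ≤ t < T`, of closed embedded
hypersurfaces of `ℝ^p × ℝ^q` invariant under `O(p) × O(q)`. At every time the profile is the union
of the `N` disjoint closed embedded curves `c j t` (`1`-periodic functions of `u`); it is symmetric
in both axes and meets them orthogonally. The normal velocity of the profile is the mean
curvature `κ - (p - 1) ν_r / r - (q - 1) ν_s / s` of the hypersurface, where `ν = (ν_r, ν_s)` is the
unit normal of the profile. -/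
structure IsProfileFlow (p q : ℕ) (T : ℝ) (N : ℕ) (c : Fin N → ℝ → ℝ → ℂ) : Prop where
  smooth : ∀ j, ContDiffOn ℝ ∞ (fun z : ℝ × ℝ => c j z.1 z.2) (Ico 0 T ×ˢ univ)
  periodic : ∀ j, ∀ t ∈ Ico 0 T, ∀ u, c j t (u + 1) = c j t u
  immersed : ∀ j, ∀ t ∈ Ico 0 T, ∀ u, deriv (c j t) u ≠ 0
  embedded : ∀ t ∈ Ico 0 T, ∀ j j' u u', c j t u = c j' t u' → j = j' ∧ ∃ k : ℤ, u' = u + k
  symm₁ : ∀ t ∈ Ico 0 T, ∀ j u, ∃ j' u', c j' t u' = ⟨-(c j t u).re, (c j t u).im⟩
  symm₂ : ∀ t ∈ Ico 0 T, ∀ j u, ∃ j' u', c j' t u' = ⟨(c j t u).re, -(c j t u).im⟩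
  orth₁ : ∀ t ∈ Ico 0 T, ∀ j u, (c j t u).re = 0 → (deriv (c j t) u).im = 0
  orth₂ : ∀ t ∈ Ico 0 T, ∀ j u, (c j t u).im = 0 → (deriv (c j t) u).re = 0
  flow : ∀ t ∈ Ioo 0 T, ∀ j u, (c j t u).re ≠ 0 → (c j t u).im ≠ 0 →
    inner ℝ (deriv (fun s => c j s u) t) (nu (deriv (c j t) u)) =
      curv (c j t) u - (p - 1) * (nu (deriv (c j t) u)).re / (c j t u).re
        - (q - 1) * (nu (deriv (c j t) u)).im / (c j t u).im

/-- The hypersurface `M_t` of `ℝ^p × ℝ^q` with profile `c`. -/
def surf (p q : ℕ) {N : ℕ} (c : Fin N → ℝ → ℝ → ℂ) (t : ℝ) : Set (V p q) :=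
  {z | ∃ j u, c j t u = prof z}

/-- The slice at time `t < 0` of the flow `M`, translated and parabolically rescaled by the factor
`l` around the space-time point `(x₀, T)`. -/
def blow {E : Type*} [NormedAddCommGroup E] [NormedSpace ℝ E]
    (M : ℝ → Set E) (T : ℝ) (x₀ : E) (l t : ℝ) : Set E :=
  {z | x₀ + l⁻¹ • z ∈ M (T + t / l ^ 2)}

/-- The family `μ t`, `t < 0`, of locally finite measures consists of the negative time slices of a
tangent flow at `(x₀, T)` of the flow `M` of `n`-dimensional surfaces: for some sequence of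
factors `l i → ∞` and every `t < 0`, the `n`-dimensional Hausdorff measures of the rescaled flows
converge to `μ t`. -/
def IsTangentFlow {E : Type*} [NormedAddCommGroup E] [NormedSpace ℝ E] [MeasurableSpace E]
    [BorelSpace E] (n : ℕ) (M : ℝ → Set E) (T : ℝ) (x₀ : E) (μ : ℝ → Measure E) : Prop :=
  ∃ l : ℕ → ℝ, Tendsto l atTop atTop ∧ ∀ t < 0, IsLocallyFiniteMeasure (μ t) ∧
    ∀ φ : E → ℝ≥0, Continuous φ → HasCompactSupport φ →
      Tendsto (fun i => ∫⁻ z in blow M T x₀ (l i) t, φ z ∂μH[n]) atTop (𝓝 (∫⁻ z, φ z ∂μ t))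

/-- The family `μ t`, `t < 0`, of measures is self-similar: every slice is obtained from the slice
at time `-1` by the dilation with factor `√(-t)` (this is so for all tangent flows by Huisken's
monotonicity formula). -/
def SelfSimilar {E : Type*} [NormedAddCommGroup E] [NormedSpace ℝ E] [MeasurableSpace E]
    (n : ℕ) (μ : ℝ → Measure E) : Prop :=
  ∀ t < 0, μ t = ENNReal.ofReal (√(-t) ^ n) • (μ (-1)).map (fun z => √(-t) • z)

/-- The support of a measure. -/
def supp {E : Type*} [TopologicalSpace E] [MeasurableSpace E] (μ : Measure E) : Set E :=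
  {z | ∀ U ∈ 𝓝 z, 0 < μ U}

/-- Near the point `z`, the set `S` is a smooth embedded hypersurface (a regular level set of a
smooth function). -/
def IsSmoothHypersurfaceAt {E : Type*} [NormedAddCommGroup E] [NormedSpace ℝ E]
    (S : Set E) (z : E) : Prop :=
  ∃ U : Set E, IsOpen U ∧ z ∈ U ∧ ∃ f : E → ℝ, ContDiffOn ℝ ∞ f U ∧
    (∀ w ∈ U, fderiv ℝ f w ≠ 0) ∧ S ∩ U = {w ∈ U | f w = 0}

/-- The singular set of `S`: the points of `S` near which `S` is not a smooth embedded
hypersurface. -/
def sing {E : Type*} [NormedAddCommGroup E] [NormedSpace ℝ E] (S : Set E) : Set E :=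
  {z ∈ S | ¬ IsSmoothHypersurfaceAt S z}

end Pool.Agent.Helper532_SymMCF
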