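import Pool.Agent.Helper532_SymMCF.Huisken

section

/-!
First variation of a weighted length of the profile curves, with a general test function.
-/

open Set Filter MeasureTheory Topology Metric Module
open scoped ContDiff NNReal ENNReal

namespace Pool.Agent.Helper532_SymMCF

/-- The integrand in the first variation formula. -/
noncomputable def gint (G v ru su ruu suu rt st a b Gr Gs Gt A B : ℝ) : ℝ :=
  v * (Gt + (-su * Gr + ru * Gs) / v * ((-su * rt + ru * st) / v)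
    - G * ((-su * ruu + ru * suu) / v ^ 3) * ((-su * rt + ru * st) / v)
    + (ru * Gr + su * Gs) / v * ((ru * a + su * b) / v)
    + G * ((A * ru ^ 2 + B * su ^ 2) / v ^ 2)
    + G * ((-su * ruu + ru * suu) / v ^ 3) * ((-su * a + ru * b) / v))

/-- First variation of the weighted length. -/
theorem var_id {T : ℝ} {r s G a b Gr Gs Gt A B : ℝ × ℝ → ℝ}
    (hr : ContDiffOn ℝ ∞ r (Str T)) (hs : ContDiffOn ℝ ∞ s (Str T))
    (hG : ContDiffOn ℝ ∞ G (Str T)) (ha : ContDiffOn ℝ ∞ a (Str T))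
    (hb : ContDiffOn ℝ ∞ b (Str T))
    (pr : ∀ t ∈ Ioo 0 T, ∀ u, r (t, u + 1) = r (t, u))
    (ps : ∀ t ∈ Ioo 0 T, ∀ u, s (t, u + 1) = s (t, u))
    (pG : ∀ t ∈ Ioo 0 T, ∀ u, G (t, u + 1) = G (t, u))
    (pa : ∀ t ∈ Ioo 0 T, ∀ u, a (t, u + 1) = a (t, u))
    (pb : ∀ t ∈ Ioo 0 T, ∀ u, b (t, u + 1) = b (t, u))
    (himm : ∀ z ∈ Str T, D2 r z ^ 2 + D2 s z ^ 2 ≠ 0)
    (dG1 : ∀ z ∈ Str T, D1 G z = Gr z * D1 r z + Gs z * D1 s z + Gt z)
    (dG2 : ∀ z ∈ Str T, D2 G z = Gr z * D2 r z + Gs z * D2 s z)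
    (da : ∀ z ∈ Str T, D2 a z = A z * D2 r z) (db : ∀ z ∈ Str T, D2 b z = B z * D2 s z)
    {t₁ t₂ : ℝ} (h1 : t₁ ∈ Ioo 0 T) (h2 : t₂ ∈ Ioo 0 T) (h12 : t₁ ≤ t₂) :
    (∫ u in (0 : ℝ)..1, G (t₂, u) * √(D2 r (t₂, u) ^ 2 + D2 s (t₂, u) ^ 2)) -
      (∫ u in (0 : ℝ)..1, G (t₁, u) * √(D2 r (t₁, u) ^ 2 + D2 s (t₁, u) ^ 2)) =
    ∫ t in t₁..t₂, ∫ u in (0 : ℝ)..1,
      gint (G (t, u)) (√(D2 r (t, u) ^ 2 + D2 s (t, u) ^ 2)) (D2 r (t, u)) (D2 s (t, u))
        (D2 (D2 r) (t, u)) (D2 (D2 s) (t, u)) (D1 r (t, u)) (D1 s (t, u)) (a (t, u)) (b (t, u))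
        (Gr (t, u)) (Gs (t, u)) (Gt (t, u)) (A (t, u)) (B (t, u)) := by
  set ru := D2 r with hru
  set su := D2 s with hsu
  set rt := D1 r with hrt
  set st := D1 s with hst
  have sru : ContDiffOn ℝ ∞ ru (Str T) := smooth_D2 hr
  have ssu : ContDiffOn ℝ ∞ su (Str T) := smooth_D2 hs
  have srt : ContDiffOn ℝ ∞ rt (Str T) := smooth_D1 hr
  have sst : ContDiffOn ℝ ∞ st (Str T) := smooth_D1 hs
  set v : ℝ × ℝ → ℝ := fun z => √(ru z ^ 2 + su z ^ 2) with hv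
  have sv : ContDiffOn ℝ ∞ v (Str T) :=
    ((sru.pow 2).add (ssu.pow 2)).sqrt himm
  have vpos : ∀ z ∈ Str T, 0 < v z := fun z hz =>
    Real.sqrt_pos.2 (lt_of_le_of_ne (by positivity) (himm z hz).symm)
  have vsq : ∀ z, v z ^ 2 = ru z ^ 2 + su z ^ 2 := fun z => Real.sq_sqrt (by positivity)
  set F : ℝ × ℝ → ℝ := fun z => G z * v z with hF
  set P1 : ℝ × ℝ → ℝ := fun z => G z * (ru z * rt z + su z * st z) / v z with hP1
  set P2 : ℝ × ℝ → ℝ := fun z => G z * (ru z * a z + su z * b z) / v z with hP2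
  have sF : ContDiffOn ℝ ∞ F (Str T) := hG.mul sv
  have sP1 : ContDiffOn ℝ ∞ P1 (Str T) :=
    (hG.mul ((sru.mul srt).add (ssu.mul sst))).div sv (fun z hz => (vpos z hz).ne')
  have sP2 : ContDiffOn ℝ ∞ P2 (Str T) :=
    (hG.mul ((sru.mul ha).add (ssu.mul hb))).div sv (fun z hz => (vpos z hz).ne')
  have pru := D2_periodic hr pr
  have psu := D2_periodic hs ps
  have prt := D1_periodic hr pr
  have pst := D1_periodic hs ps
  have pv : ∀ t ∈ Ioo 0 T, ∀ u, v (t, u + 1) = v (t, u) := by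
    intro t ht u
    simp only [hv, hru, hsu, pru t ht u, psu t ht u]
  have pP1 : ∀ t ∈ Ioo 0 T, ∀ u, P1 (t, u + 1) = P1 (t, u) := by
    intro t ht u
    simp only [hP1, pv t ht u, pG t ht u, hru, hsu, hrt, hst, pru t ht u, psu t ht u, prt t ht u,
      pst t ht u]
  have pP2 : ∀ t ∈ Ioo 0 T, ∀ u, P2 (t, u + 1) = P2 (t, u) := by
    intro t ht u
    simp only [hP2, pv t ht u, pG t ht u, hru, hsu, pru t ht u, psu t ht u, pa t ht u,
      pb t ht u]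
  have key := int_D1 sF h1 h2 h12
  rw [key]
  apply intervalIntegral.integral_congr
  intro t ht
  rw [uIcc_of_le h12] at ht
  have htT : t ∈ Ioo 0 T := ⟨h1.1.trans_le ht.1, ht.2.trans_lt h2.2⟩
  simp only
  have e1 : ∫ u in (0 : ℝ)..1, D1 F (t, u) =
      ∫ u in (0 : ℝ)..1, (D1 F (t, u) - D2 P1 (t, u) + D2 P2 (t, u)) := by
    have i1 := (cont_snd (smooth_D1 sF).continuousOn htT).intervalIntegrable (μ := volume) 0 1
    have i2 := (cont_snd (smooth_D2 sP1).continuousOn htT).intervalIntegrable (μ := volume) 0 1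
    have i3 := (cont_snd (smooth_D2 sP2).continuousOn htT).intervalIntegrable (μ := volume) 0 1
    rw [intervalIntegral.integral_add (i1.sub i2) i3, intervalIntegral.integral_sub i1 i2,
      int_D2_zero sP1 pP1 htT, int_D2_zero sP2 pP2 htT]
    ring
  rw [e1]
  apply intervalIntegral.integral_congr
  intro u _
  simp only
  have hz : (t, u) ∈ Str T := mem_Str.2 htT
  have hvp := vpos _ hz
  have hvs := vsq (t, u)
  -- derivatives
  have dGt := hasD1 hG htT (u := u)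
  have dGu := hasD2 hG htT (u := u)
  have drut : HasDerivAt (fun x => ru (x, u)) (D2 rt (t, u)) t := by
    have := hasD1 sru htT (u := u)
    rwa [hru, D12 hr hz] at this
  have dsut : HasDerivAt (fun x => su (x, u)) (D2 st (t, u)) t := by
    have := hasD1 ssu htT (u := u)
    rwa [hsu, D12 hs hz] at this
  have druu := hasD2 sru htT (u := u)
  have dsuu := hasD2 ssu htT (u := u)
  have drtu := hasD2 srt htT (u := u)
  have dstu := hasD2 sst htT (u := u)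
  have dau := hasD2 ha htT (u := u)
  have dbu := hasD2 hb htT (u := u)
  have himz := himm _ hz
  have dvt : HasDerivAt (fun x => v (x, u))
      ((ru (t, u) * D2 rt (t, u) + su (t, u) * D2 st (t, u)) / v (t, u)) t := by
    refine (((drut.pow 2).add (dsut.pow 2)).sqrt himz).congr_deriv ?_
    simp only [Pi.add_apply, Pi.pow_apply]
    have : √(ru (t, u) ^ 2 + su (t, u) ^ 2) = v (t, u) := rfl
    rw [this]
    field_simp
    ring
  have dvu : HasDerivAt (fun x => v (t, x))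
      ((ru (t, u) * D2 ru (t, u) + su (t, u) * D2 su (t, u)) / v (t, u)) u := by
    refine (((druu.pow 2).add (dsuu.pow 2)).sqrt himz).congr_deriv ?_
    simp only [Pi.add_apply, Pi.pow_apply]
    have : √(ru (t, u) ^ 2 + su (t, u) ^ 2) = v (t, u) := rfl
    rw [this]
    field_simp
    ring
  have hFt := D1_unique sF htT (dGt.mul dvt)
  have hP1u := D2_unique sP1 htT ((dGu.mul ((druu.mul drtu).add (dsuu.mul dstu))).div dvu
    hvp.ne')
  have hP2u := D2_unique sP2 htT ((dGu.mul ((druu.mul dau).add (dsuu.mul dbu))).div dvu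
    hvp.ne')
  have hval : √(ru (t, u) ^ 2 + su (t, u) ^ 2) = v (t, u) := rfl
  rw [hFt, hP1u, hP2u, dG1 _ hz, dG2 _ hz, da _ hz, db _ hz]
  simp only [Pi.mul_apply, Pi.add_apply]
  simp only [hval, gint]
  generalize ru (t, u) = x at *
  generalize su (t, u) = y at *
  generalize v (t, u) = w at *
  generalize rt (t, u) = p at *
  generalize st (t, u) = q at *
  generalize D2 ru (t, u) = x' at *
  generalize D2 su (t, u) = y' at *
  generalize D2 rt (t, u) = p' at *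
  generalize D2 st (t, u) = q' at *
  generalize Gr (t, u) = l1 at *
  generalize Gs (t, u) = l2 at *
  generalize Gt (t, u) = l3 at *
  generalize a (t, u) = a1 at *
  generalize b (t, u) = b1 at *
  generalize A (t, u) = A1 at *
  generalize B (t, u) = B1 at *
  generalize G (t, u) = e at *
  have hw : w ≠ 0 := hvp.ne'
  field_simp
  linear_combination (w ^ 2 * (l1 * p + l2 * q) - e * (p * x' + q * y') +
    e * (x' * a1 + y' * b1)) * hvs

end Pool.Agent.Helper532_SymMCF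

end

section

/-!
First variation of the weighted length of the profile curves of a symmetric flow, with a general
test function.
-/

open Set Filter MeasureTheory Topology Metric Module
open scoped ContDiff NNReal ENNReal

namespace Pool.Agent.Helper532_SymMCF

/-- simplified integrand -/
noncomputable def jint (k₁ k₂ w v ru su rt st r s a b F Fr Fs Ft A B : ℝ) : ℝ :=
  w * v * (Ft + Fr * a + Fs * b + F * ((A * ru ^ 2 + B * su ^ 2) / v ^ 2) +
    F * (k₁ * a / r + k₂ * b / s) +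
    ((-su * Fr + ru * Fs) / v - F * ((-su * rt + ru * st) / v)) *
      ((-su * rt + ru * st) / v - (-su * a + ru * b) / v))

theorem jint_alg {k₁ k₂ w v ru su ruu suu rt st r s a b F Fr Fs Ft A B : ℝ}
    (hv : 0 < v) (hv2 : v ^ 2 = ru ^ 2 + su ^ 2)
    (hfl : (-su * rt + ru * st) / v =
      (-su * ruu + ru * suu) / v ^ 3 - k₁ * (-su / v) / r - k₂ * (ru / v) / s) :
    w * (v * (Ft + (-su * Fr + ru * Fs) / v * ((-su * rt + ru * st) / v)
      - F * ((-su * ruu + ru * suu) / v ^ 3) * ((-su * rt + ru * st) / v)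
      + (ru * Fr + su * Fs) / v * ((ru * a + su * b) / v)
      + F * ((A * ru ^ 2 + B * su ^ 2) / v ^ 2)
      + F * ((-su * ruu + ru * suu) / v ^ 3) * ((-su * a + ru * b) / v))) +
      k₁ * (w * (1 / r)) * (v * (F * (-su / v * ((-su * rt + ru * st) / v) +
        ru / v * ((ru * a + su * b) / v)))) +
      k₂ * (w * (1 / s)) * (v * (F * (ru / v * ((-su * rt + ru * st) / v) +
        su / v * ((ru * a + su * b) / v)))) =
      jint k₁ k₂ w v ru su rt st r s a b F Fr Fs Ft A B := by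
  obtain ⟨x, hx⟩ : ∃ x, x = ru / v := ⟨_, rfl⟩
  obtain ⟨y, hy⟩ : ∃ y, y = su / v := ⟨_, rfl⟩
  have hxy : x ^ 2 + y ^ 2 = 1 := by
    rw [hx, hy, div_pow, div_pow, ← add_div, ← hv2]
    field_simp
  obtain ⟨V, hV⟩ : ∃ V, V = (-su * rt + ru * st) / v := ⟨_, rfl⟩
  obtain ⟨κ, hκ⟩ : ∃ κ, κ = (-su * ruu + ru * suu) / v ^ 3 := ⟨_, rfl⟩
  have hfl' : κ = V + k₁ * (-y) / r + k₂ * x / s := by
    have : V = κ - k₁ * (-y) / r - k₂ * x / s := by
      rw [hV, hκ, hx, hy, hfl]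
      ring
    linarith
  obtain ⟨g₁, hg₁⟩ : ∃ g, g = 1 / r := ⟨_, rfl⟩
  obtain ⟨g₂, hg₂⟩ : ∃ g, g = 1 / s := ⟨_, rfl⟩
  have hfl'' : κ = V + k₁ * (-y) * g₁ + k₂ * x * g₂ := by
    rw [hfl', hg₁, hg₂]; ring
  unfold jint
  rw [← hκ, ← hV]
  have e1 : (-su * Fr + ru * Fs) / v = -y * Fr + x * Fs := by rw [hx, hy]; ring
  have e2 : (ru * Fr + su * Fs) / v = x * Fr + y * Fs := by rw [hx, hy]; ring
  have e3 : (ru * a + su * b) / v = x * a + y * b := by rw [hx, hy]; ring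
  have e4 : (-su * a + ru * b) / v = -y * a + x * b := by rw [hx, hy]; ring
  have e5 : -su / v = -y := by rw [hy]; ring
  have e6 : k₁ * a / r + k₂ * b / s = k₁ * a * g₁ + k₂ * b * g₂ := by rw [hg₁, hg₂]; ring
  rw [e1, e2, e3, e4, e5, ← hx, ← hy, e6, ← hg₁, ← hg₂, hfl'']
  linear_combination (w * v * ((F * k₁ * g₁ + Fr) * a + (F * k₂ * g₂ + Fs) * b)) * hxy

theorem Pe0_deriv {m₁ m₂ : ℕ} {ε : ℝ} (hε : 0 < ε) {r s : ℝ → ℝ} {t r' s' : ℝ}
    (hr : HasDerivAt r r' t) (hs : HasDerivAt s s' t) :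
    HasDerivAt (fun x => Pe m₁ m₂ ε 0 (r x) (s x))
      (Pe m₁ m₂ ε 0 (r t) (s t) * (m₁ * (r t / (r t ^ 2 + ε) * r') +
        m₂ * (s t / (s t ^ 2 + ε) * s'))) t := by
  have h1 := (((hasDerivAt_const t (0 : ℝ)).add ((log_sqrt_deriv hε hr).const_mul (m₁ : ℝ))).add
    ((log_sqrt_deriv hε hs).const_mul (m₂ : ℝ))).exp
  have h3 := h1
  simp only [Pi.add_apply] at h3
  simp only [zero_add] at h3
  have h4 : (fun x => Real.exp ((m₁ : ℝ) * Real.log √(r x ^ 2 + ε) +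
      (m₂ : ℝ) * Real.log √(s x ^ 2 + ε))) = fun x => Pe m₁ m₂ ε 0 (r x) (s x) := by
    ext x
    rw [← Pe_exp m₁ m₂ hε, zero_add]
  rw [h4] at h3
  refine h3.congr_deriv ?_
  rw [← Pe_exp m₁ m₂ hε, zero_add]

/-- plain weight -/
noncomputable def ww (m₁ m₂ : ℕ) (r s : ℝ × ℝ → ℝ) (z : ℝ × ℝ) : ℝ := |r z| ^ m₁ * |s z| ^ m₂

theorem Pe0_tendsto (m₁ m₂ : ℕ) (r s : ℝ × ℝ → ℝ) (z : ℝ × ℝ) {ε : ℕ → ℝ}
    (hε : Tendsto ε atTop (𝓝 0)) :
    Tendsto (fun n => Pe m₁ m₂ (ε n) 0 (r z) (s z)) atTop (𝓝 (ww m₁ m₂ r s z)) := by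
  have := Pe_tendsto m₁ m₂ 0 (r z) (s z) hε
  rwa [Real.exp_zero, one_mul] at this

/-- First variation of the weighted length of one family of profile curves. -/
theorem var_lim {T : ℝ} {m₁ m₂ : ℕ} {r s : ℝ × ℝ → ℝ} (h : Fam T m₁ m₂ r s)
    {F Fr Fs Ft a b A B : ℝ × ℝ → ℝ}
    (hF : ContDiffOn ℝ ∞ F (Str T)) (cFr : ContinuousOn Fr (Str T)) (cFs : ContinuousOn Fs (Str T))
    (cFt : ContinuousOn Ft (Str T)) (ha : ContDiffOn ℝ ∞ a (Str T)) (hb : ContDiffOn ℝ ∞ b (Str T))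
    (cA : ContinuousOn A (Str T)) (cB : ContinuousOn B (Str T))
    (pF : ∀ t ∈ Ioo 0 T, ∀ u, F (t, u + 1) = F (t, u))
    (pa : ∀ t ∈ Ioo 0 T, ∀ u, a (t, u + 1) = a (t, u))
    (pb : ∀ t ∈ Ioo 0 T, ∀ u, b (t, u + 1) = b (t, u))
    (dF1 : ∀ z ∈ Str T, D1 F z = Fr z * D1 r z + Fs z * D1 s z + Ft z)
    (dF2 : ∀ z ∈ Str T, D2 F z = Fr z * D2 r z + Fs z * D2 s z)
    (da : ∀ z ∈ Str T, D2 a z = A z * D2 r z) (db : ∀ z ∈ Str T, D2 b z = B z * D2 s z)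
    {t₁ t₂ : ℝ} (h1 : t₁ ∈ Ioo 0 T) (h2 : t₂ ∈ Ioo 0 T) (h12 : t₁ ≤ t₂) :
    (∫ u in (0 : ℝ)..1, F (t₂, u) * ww m₁ m₂ r s (t₂, u) * spd r s (t₂, u)) -
      (∫ u in (0 : ℝ)..1, F (t₁, u) * ww m₁ m₂ r s (t₁, u) * spd r s (t₁, u)) =
      ∫ t in t₁..t₂, ∫ u in (0 : ℝ)..1,
        jint m₁ m₂ (ww m₁ m₂ r s (t, u)) (spd r s (t, u)) (D2 r (t, u)) (D2 s (t, u)) (D1 r (t, u))
          (D1 s (t, u)) (r (t, u)) (s (t, u)) (a (t, u)) (b (t, u)) (F (t, u)) (Fr (t, u))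
          (Fs (t, u)) (Ft (t, u)) (A (t, u)) (B (t, u)) := by
  have hsub : Icc t₁ t₂ ⊆ Ioo 0 T := fun x hx => ⟨h1.1.trans_le hx.1, hx.2.trans_lt h2.2⟩
  have hru := smooth_D2 h.hr
  have hsu := smooth_D2 h.hs
  have hrt := smooth_D1 h.hr
  have hst := smooth_D1 h.hs
  have hruu := smooth_D2 hru
  have hsuu := smooth_D2 hsu
  have hv := spd_smooth h
  have hv0 : ∀ z ∈ Str T, spd r s z ≠ 0 := fun z hz => (spd_pos h hz).ne'
  have k1 : (0 : ℝ) ≤ m₁ := Nat.cast_nonneg _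
  have k2 : (0 : ℝ) ≤ m₂ := Nat.cast_nonneg _
  set ε : ℕ → ℝ := fun n => 1 / ((n : ℝ) + 1) with hε
  have hε0 : ∀ n, 0 < ε n := fun n => by simp only [hε]; positivity
  have hε1 : ∀ n, ε n ≤ 1 := fun n => by
    simp only [hε]
    rw [div_le_one (by positivity)]
    have : (0 : ℝ) ≤ n := Nat.cast_nonneg _
    linarith
  have hεt : Tendsto ε atTop (𝓝 0) := tendsto_one_div_add_atTop_nhds_zero_nat
  set v := spd r s with hvdef
  obtain ⟨P, hPdef⟩ : ∃ P : ℕ → ℝ × ℝ → ℝ, P = fun n z => Pe m₁ m₂ (ε n) 0 (r z) (s z) := ⟨_, rfl⟩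
  have hP : ∀ n, ContDiffOn ℝ ∞ (P n) (Str T) := by
    intro n
    have h3 : ContDiffOn ℝ ∞ (fun z => Real.exp ((m₁ : ℝ) * Real.log √(r z ^ 2 + ε n) +
        (m₂ : ℝ) * Real.log √(s z ^ 2 + ε n))) (Str T) :=
      ((contDiffOn_const.mul (smooth_logsqrt (hε0 n) h.hr)).add
        (contDiffOn_const.mul (smooth_logsqrt (hε0 n) h.hs))).exp
    refine h3.congr fun z _ => ?_
    rw [hPdef]
    simp only
    rw [← Pe_exp m₁ m₂ (hε0 n), zero_add]
  have dP1 : ∀ n, ∀ z ∈ Str T, D1 (P n) z = P n z * (m₁ * (r z / (r z ^ 2 + ε n)) * D1 r z +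
      m₂ * (s z / (s z ^ 2 + ε n)) * D1 s z) := by
    rintro n ⟨t, u⟩ hz
    have ht := mem_Str.1 hz
    apply D1_unique (hP n) ht
    rw [hPdef]
    refine (Pe0_deriv (hε0 n) (hasD1 h.hr ht (u := u)) (hasD1 h.hs ht (u := u))).congr_deriv ?_
    ring
  have dP2 : ∀ n, ∀ z ∈ Str T, D2 (P n) z = P n z * (m₁ * (r z / (r z ^ 2 + ε n)) * D2 r z +
      m₂ * (s z / (s z ^ 2 + ε n)) * D2 s z) := by
    rintro n ⟨t, u⟩ hz
    have ht := mem_Str.1 hz
    apply D2_unique (hP n) ht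
    rw [hPdef]
    refine (Pe0_deriv (hε0 n) (hasD2 h.hr ht (u := u)) (hasD2 h.hs ht (u := u))).congr_deriv ?_
    ring
  obtain ⟨G, hGdef⟩ : ∃ G : ℕ → ℝ × ℝ → ℝ, G = fun n z => F z * P n z := ⟨_, rfl⟩
  obtain ⟨Gr, hGrdef⟩ : ∃ Gr : ℕ → ℝ × ℝ → ℝ, Gr = fun n z => Fr z * P n z +
    F z * (P n z * (m₁ * (r z / (r z ^ 2 + ε n)))) := ⟨_, rfl⟩
  obtain ⟨Gs, hGsdef⟩ : ∃ Gs : ℕ → ℝ × ℝ → ℝ, Gs = fun n z => Fs z * P n z +
    F z * (P n z * (m₂ * (s z / (s z ^ 2 + ε n)))) := ⟨_, rfl⟩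
  obtain ⟨Gt, hGtdef⟩ : ∃ Gt : ℕ → ℝ × ℝ → ℝ, Gt = fun n z => Ft z * P n z := ⟨_, rfl⟩
  have hG : ∀ n, ContDiffOn ℝ ∞ (G n) (Str T) := by
    intro n; rw [hGdef]; exact hF.mul (hP n)
  have dG1 : ∀ n, ∀ z ∈ Str T, D1 (G n) z = Gr n z * D1 r z + Gs n z * D1 s z + Gt n z := by
    rintro n ⟨t, u⟩ hz
    have ht := mem_Str.1 hz
    have e1 : D1 (G n) (t, u) = D1 F (t, u) * P n (t, u) + F (t, u) * D1 (P n) (t, u) := by
      apply D1_unique (hG n) ht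
      rw [hGdef]
      exact (hasD1 hF ht (u := u)).mul (hasD1 (hP n) ht (u := u))
    rw [e1, dF1 _ hz, dP1 n _ hz, hGrdef, hGsdef, hGtdef]
    ring
  have dG2 : ∀ n, ∀ z ∈ Str T, D2 (G n) z = Gr n z * D2 r z + Gs n z * D2 s z := by
    rintro n ⟨t, u⟩ hz
    have ht := mem_Str.1 hz
    have e1 : D2 (G n) (t, u) = D2 F (t, u) * P n (t, u) + F (t, u) * D2 (P n) (t, u) := by
      apply D2_unique (hG n) ht
      rw [hGdef]
      exact (hasD2 hF ht (u := u)).mul (hasD2 (hP n) ht (u := u))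
    rw [e1, dF2 _ hz, dP2 n _ hz, hGrdef, hGsdef]
    ring
  have pG : ∀ n, ∀ t ∈ Ioo 0 T, ∀ u, G n (t, u + 1) = G n (t, u) := by
    intro n t ht u
    rw [hGdef, hPdef]
    simp only [h.pr t ht u, h.ps t ht u, pF t ht u]
  have key := fun n => var_id h.hr h.hs (hG n) ha hb h.pr h.ps (pG n) pa pb h.himm (dG1 n)
    (dG2 n) da db h1 h2 h12
  -- pieces of the integrand
  have hVn := (((hsu.neg.mul hrt).add (hru.mul hst)).div hv hv0).continuousOn
  have hKa := (((hsu.neg.mul hruu).add (hru.mul hsuu)).div (hv.pow 3)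
    (fun z hz => pow_ne_zero 3 (hv0 z hz))).continuousOn
  have hNL := (((hsu.neg.mul ha).add (hru.mul hb)).div hv hv0).continuousOn
  have hTL := (((hru.mul ha).add (hsu.mul hb)).div hv hv0).continuousOn
  have hNF := ((hsu.continuousOn.neg.mul cFr).add (hru.continuousOn.mul cFs)).div₀ hv.continuousOn hv0
  have hTF := ((hru.continuousOn.mul cFr).add (hsu.continuousOn.mul cFs)).div₀ hv.continuousOn hv0
  have hHe := ((cA.mul (hru.continuousOn.pow 2)).add (cB.mul (hsu.continuousOn.pow 2))).div₀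
    (hv.continuousOn.pow 2) (fun z hz => pow_ne_zero 2 (hv0 z hz))
  obtain ⟨f0, hf0⟩ : ∃ f0 : ℝ × ℝ → ℝ, f0 = fun z => v z * (Ft z +
      (-D2 s z * Fr z + D2 r z * Fs z) / v z * ((-D2 s z * D1 r z + D2 r z * D1 s z) / v z)
      - F z * ((-D2 s z * D2 (D2 r) z + D2 r z * D2 (D2 s) z) / v z ^ 3) *
        ((-D2 s z * D1 r z + D2 r z * D1 s z) / v z)
      + (D2 r z * Fr z + D2 s z * Fs z) / v z * ((D2 r z * a z + D2 s z * b z) / v z)
      + F z * ((A z * D2 r z ^ 2 + B z * D2 s z ^ 2) / v z ^ 2)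
      + F z * ((-D2 s z * D2 (D2 r) z + D2 r z * D2 (D2 s) z) / v z ^ 3) *
        ((-D2 s z * a z + D2 r z * b z) / v z)) := ⟨_, rfl⟩
  obtain ⟨f1, hf1⟩ : ∃ f1 : ℝ × ℝ → ℝ, f1 = fun z => v z * (F z * (-D2 s z / v z *
    ((-D2 s z * D1 r z + D2 r z * D1 s z) / v z) + D2 r z / v z *
      ((D2 r z * a z + D2 s z * b z) / v z))) := ⟨_, rfl⟩
  obtain ⟨f2, hf2⟩ : ∃ f2 : ℝ × ℝ → ℝ, f2 = fun z => v z * (F z * (D2 r z / v z *
    ((-D2 s z * D1 r z + D2 r z * D1 s z) / v z) + D2 s z / v z *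
      ((D2 r z * a z + D2 s z * b z) / v z))) := ⟨_, rfl⟩
  have cF := hF.continuousOn
  have cv := hv.continuousOn
  have cf0 : ContinuousOn f0 (Str T) := by
    rw [hf0]
    exact cv.mul (((((cFt.add (hNF.mul hVn)).sub ((cF.mul hKa).mul hVn)).add (hTF.mul hTL)).add
      (cF.mul hHe)).add ((cF.mul hKa).mul hNL))
  have cf1 : ContinuousOn f1 (Str T) := by
    rw [hf1]
    exact cv.mul (cF.mul (((hsu.continuousOn.neg.div₀ cv hv0).mul hVn).add
      ((hru.continuousOn.div₀ cv hv0).mul hTL)))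
  have cf2 : ContinuousOn f2 (Str T) := by
    rw [hf2]
    exact cv.mul (cF.mul (((hru.continuousOn.div₀ cv hv0).mul hVn).add
      ((hsu.continuousOn.div₀ cv hv0).mul hTL)))
  obtain ⟨I, hIdef⟩ : ∃ I : ℕ → ℝ × ℝ → ℝ, I = fun n z =>
    gint (G n z) (v z) (D2 r z) (D2 s z) (D2 (D2 r) z) (D2 (D2 s) z) (D1 r z) (D1 s z) (a z) (b z)
      (Gr n z) (Gs n z) (Gt n z) (A z) (B z) := ⟨_, rfl⟩
  have hIsplit : ∀ n z, I n z = P n z * f0 z +
      m₁ * (P n z * (r z / (r z ^ 2 + ε n))) * f1 z +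
      m₂ * (P n z * (s z / (s z ^ 2 + ε n))) * f2 z := by
    intro n z
    rw [hIdef, hGdef, hGrdef, hGsdef, hGtdef, hf0, hf1, hf2]
    simp only [gint]
    ring
  have cq : ∀ n, ∀ x : ℝ × ℝ → ℝ, ContDiffOn ℝ ∞ x (Str T) →
      ContinuousOn (fun z => x z / (x z ^ 2 + ε n)) (Str T) := by
    intro n x hx
    exact hx.continuousOn.div ((hx.continuousOn.pow 2).add continuousOn_const)
      (fun z _ => by have := hε0 n; positivity)
  have cI : ∀ n, ContinuousOn (I n) (Str T) := by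
    intro n
    have : I n = fun z => P n z * f0 z +
      m₁ * (P n z * (r z / (r z ^ 2 + ε n))) * f1 z +
      m₂ * (P n z * (s z / (s z ^ 2 + ε n))) * f2 z := by
      ext z; exact hIsplit n z
    rw [this]
    exact ((((hP n).continuousOn.mul cf0)).add ((continuousOn_const.mul ((hP n).continuousOn.mul
      (cq n r h.hr))).mul cf1)).add ((continuousOn_const.mul ((hP n).continuousOn.mul
      (cq n s h.hs))).mul cf2)
  -- bounds on the compact rectangle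
  have hK : IsCompact (Icc t₁ t₂ ×ˢ Icc (0 : ℝ) 1) := isCompact_Icc.prod isCompact_Icc
  have hKs : Icc t₁ t₂ ×ˢ Icc (0 : ℝ) 1 ⊆ Str T := prod_mono hsub (subset_univ _)
  obtain ⟨M1, hM1⟩ := hK.exists_bound_of_continuousOn (h.hr.continuousOn.mono hKs)
  obtain ⟨M2, hM2⟩ := hK.exists_bound_of_continuousOn (h.hs.continuousOn.mono hKs)
  obtain ⟨B0, hB0⟩ := hK.exists_bound_of_continuousOn (cf0.mono hKs)
  obtain ⟨B1, hB1⟩ := hK.exists_bound_of_continuousOn (cf1.mono hKs)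
  obtain ⟨B2, hB2⟩ := hK.exists_bound_of_continuousOn (cf2.mono hKs)
  obtain ⟨B3, hB3⟩ := hK.exists_bound_of_continuousOn ((cF.mul cv).mono hKs)
  set M := max M1 M2 with hM
  set C1 := Real.exp 0 * (M + 1) ^ m₁ * (M + 1) ^ m₂ with hC1
  have hbP : ∀ n, ∀ z ∈ Icc t₁ t₂ ×ˢ Icc (0 : ℝ) 1, 0 ≤ P n z ∧ P n z ≤ C1 ∧
      m₁ * |P n z * (r z / (r z ^ 2 + ε n))| ≤ m₁ * C1 ∧
      m₂ * |P n z * (s z / (s z ^ 2 + ε n))| ≤ m₂ * C1 := by
    intro n z hz
    have b1 : |r z| ≤ M := (hM1 z hz).trans (le_max_left _ _)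
    have b2 : |s z| ≤ M := (hM2 z hz).trans (le_max_right _ _)
    rw [hPdef]
    exact ⟨Pe_nonneg _ _ _ _ _ _, Pe_le (hε1 n) (le_refl 0) b1 b2,
      Pe_quot_nat (hε0 n) (hε1 n) (le_refl 0) b1 b2, Pe_quot_nat' (hε0 n) (hε1 n) (le_refl 0) b1 b2⟩
  have hbI : ∀ n, ∀ t ∈ Icc t₁ t₂, ∀ u ∈ Icc (0 : ℝ) 1,
      |I n (t, u)| ≤ C1 * B0 + m₁ * C1 * B1 + m₂ * C1 * B2 := by
    intro n t ht u hu
    have hz : (t, u) ∈ Icc t₁ t₂ ×ˢ Icc (0 : ℝ) 1 := ⟨ht, hu⟩
    obtain ⟨hP0, q1, q2, q3⟩ := hbP n _ hz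
    have c0 := hB0 _ hz
    have c1 := hB1 _ hz
    have c2 := hB2 _ hz
    rw [Real.norm_eq_abs] at c0 c1 c2
    rw [hIsplit]
    have hC10 : 0 ≤ C1 := hP0.trans q1
    refine (abs_add_three _ _ _).trans ?_
    rw [abs_mul, abs_mul (_ * _) (f1 _), abs_mul (_ * _) (f2 _), abs_mul (m₁ : ℝ), abs_mul (m₂ : ℝ),
      abs_of_nonneg k1, abs_of_nonneg k2, abs_of_nonneg hP0]
    gcongr
  -- limits
  have hlimP : ∀ z, Tendsto (fun n => P n z) atTop (𝓝 (ww m₁ m₂ r s z)) := fun z => by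
    rw [hPdef]
    exact Pe0_tendsto m₁ m₂ r s z hεt
  obtain ⟨J, hJdef⟩ : ∃ J : ℝ × ℝ → ℝ, J = fun z => jint m₁ m₂ (ww m₁ m₂ r s z) (v z) (D2 r z)
    (D2 s z) (D1 r z) (D1 s z) (r z) (s z) (a z) (b z) (F z) (Fr z) (Fs z) (Ft z) (A z) (B z) :=
    ⟨_, rfl⟩
  have hlimI : ∀ z ∈ Str T, Tendsto (fun n => I n z) atTop (𝓝 (J z)) := by
    intro z hz
    have e : J z = ww m₁ m₂ r s z * f0 z +
      m₁ * (ww m₁ m₂ r s z * (1 / r z)) * f1 z +
      m₂ * (ww m₁ m₂ r s z * (1 / s z)) * f2 z := by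
      rw [hJdef, hf0, hf1, hf2]
      simp only
      by_cases h0 : r z ≠ 0 ∨ m₁ = 0
      swap
      · push Not at h0
        have : ww m₁ m₂ r s z = 0 := by
          unfold ww
          rw [h0.1, abs_zero, zero_pow h0.2, zero_mul]
        rw [this]
        simp [jint]
      by_cases h0' : s z ≠ 0 ∨ m₂ = 0
      swap
      · push Not at h0'
        have : ww m₁ m₂ r s z = 0 := by
          unfold ww
          rw [h0'.1, abs_zero, zero_pow h0'.2, mul_zero]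
        rw [this]
        simp [jint]
      exact (jint_alg (spd_pos h hz) (Real.sq_sqrt (by positivity)) (h.flow z hz h0 h0')).symm
    rw [e]
    have : (fun n => I n z) = fun n => P n z * f0 z +
      m₁ * (P n z * (r z / (r z ^ 2 + ε n))) * f1 z +
      m₂ * (P n z * (s z / (s z ^ 2 + ε n))) * f2 z := by
      ext n; exact hIsplit n z
    rw [this]
    exact (((hlimP z).mul_const _).add ((((hlimP z).mul (quot_tendsto (r z) hεt)).const_mul
      (m₁ : ℝ)).mul_const _)).add ((((hlimP z).mul (quot_tendsto (s z) hεt)).const_mul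
      (m₂ : ℝ)).mul_const _)
  have hlimR := tendsto_iter cI h1 h2 h12 hbI
    (fun t ht u _ => hlimI (t, u) (mem_Str.2 (hsub ht)))
  have hlimL : ∀ t ∈ Icc t₁ t₂, Tendsto (fun n => ∫ u in (0 : ℝ)..1, G n (t, u) *
      √(D2 r (t, u) ^ 2 + D2 s (t, u) ^ 2)) atTop
      (𝓝 (∫ u in (0 : ℝ)..1, F (t, u) * ww m₁ m₂ r s (t, u) * v (t, u))) := by
    intro t ht
    apply tendsto_one (T := T) (G := fun n z => G n z * √(D2 r z ^ 2 + D2 s z ^ 2))
      (G' := fun z => F z * ww m₁ m₂ r s z * v z) (C := C1 * B3) _ (hsub ht)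
    · intro n u hu
      have hz : (t, u) ∈ Icc t₁ t₂ ×ˢ Icc (0 : ℝ) 1 := ⟨ht, hu⟩
      obtain ⟨hP0, q1, _, _⟩ := hbP n _ hz
      have q2 := hB3 _ hz
      rw [Real.norm_eq_abs] at q2
      have e3 : G n (t, u) * √(D2 r (t, u) ^ 2 + D2 s (t, u) ^ 2) =
          P n (t, u) * (F (t, u) * v (t, u)) := by
        rw [hGdef, hvdef, spd]; ring
      rw [e3, abs_mul, abs_of_nonneg hP0]
      exact mul_le_mul q1 q2 (abs_nonneg _) (hP0.trans q1)
    · intro u _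
      have h3 := ((hlimP (t, u)).const_mul (F (t, u))).mul_const (v (t, u))
      refine h3.congr fun n => ?_
      rw [hGdef, hvdef, spd]
    · intro n
      exact ((hG n).mul hv).continuousOn
  have hlimLL := (hlimL t₂ ⟨h12, le_refl _⟩).sub (hlimL t₁ ⟨le_refl _, h12⟩)
  have hkey' : (fun n => (∫ u in (0 : ℝ)..1, G n (t₂, u) *
      √(D2 r (t₂, u) ^ 2 + D2 s (t₂, u) ^ 2)) - ∫ u in (0 : ℝ)..1, G n (t₁, u) *
      √(D2 r (t₁, u) ^ 2 + D2 s (t₁, u) ^ 2)) =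
      fun n => ∫ t in t₁..t₂, ∫ u in (0 : ℝ)..1, I n (t, u) := by
    ext n
    rw [key n, hIdef]
    rfl
  rw [hkey'] at hlimLL
  have heq := tendsto_nhds_unique hlimLL hlimR
  rw [heq, hJdef]

end Pool.Agent.Helper532_SymMCF

end

section

/-!
Pointwise estimate of the time derivative of a localised weighted length.
-/

open Set Filter MeasureTheory Topology Metric Module
open scoped ContDiff NNReal ENNReal

namespace Pool.Agent.Helper532_SymMCF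

open Classical in
/-- contribution of a factor to the homogeneity of the weight -/
noncomputable def dl (k α : ℝ) : ℝ := if α = 0 then k else 0

theorem fac {k α R : ℝ} (hk : 0 ≤ k) (hα : 0 ≤ α) (hR : 0 < R) :
    ∃ C τ₀ : ℝ, 0 < C ∧ 0 < τ₀ ∧ τ₀ ≤ 1 ∧ ∀ τ, 0 < τ → τ ≤ τ₀ → ∀ r, |r - α| ≤ R * √τ →
      |r * elG k α r τ + (r - α) / (2 * τ)| ≤ C ∧
      ((r ≠ 0 ∨ k = 0) → |dl k α / (2 * τ) + k * (-(r - α) / (2 * τ)) / r| ≤ C / √τ) ∧
      -((1 + dl k α) / 2) * Real.log τ ≤ ell k α r τ + C := by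
  rcases hα.eq_or_lt with h0 | h0
  · subst h0
    refine ⟨R ^ 2 / 4 + |gk k 0| + 1, 1, by positivity, one_pos, le_refl _, ?_⟩
    intro τ hτ hτ1 r hr
    have hdl : dl k 0 = k := by simp [dl]
    rw [hdl]
    rw [sub_zero] at hr ⊢
    have hsq : √τ ^ 2 = τ := Real.sq_sqrt hτ.le
    have hs0 : 0 < √τ := Real.sqrt_pos.2 hτ
    refine ⟨?_, ?_, ?_⟩
    · have : r * elG k 0 r τ + r / (2 * τ) = 0 := by
        unfold elG
        field_simp
        ring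
      rw [this, abs_zero]
      positivity
    · intro h
      have : k / (2 * τ) + k * (-r / (2 * τ)) / r = 0 := by
        rcases h with h | h
        · field_simp
          ring
        · rw [h]; simp
      rw [this, abs_zero]
      positivity
    · unfold ell
      rw [mul_zero, zero_div]
      have h1 : (r ^ 2 + 0 ^ 2) / (4 * τ) ≤ R ^ 2 / 4 := by
        rw [div_le_div_iff₀ (by positivity) (by norm_num)]
        have : r ^ 2 ≤ (R * √τ) ^ 2 := by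
          rw [← sq_abs r]
          exact pow_le_pow_left₀ (abs_nonneg _) hr 2
        rw [mul_pow, hsq] at this
        linarith
      have h2 : -|gk k 0| ≤ gk k 0 := neg_abs_le _
      have h3 : -((1 + k) / 2) * Real.log τ = -((k + 1) / 2) * Real.log τ := by ring
      rw [h3]
      linarith
  · have hdl : dl k α = 0 := by simp [dl, h0.ne']
    rw [hdl]
    set B : ℝ := α ^ 2 + (k + 2) with hB
    have hB0 : 0 < B := by positivity
    refine ⟨(4 * k + 4) / α + k * R / α + R ^ 2 / 4 + k / 2 * |Real.log B| + 1,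
      min 1 ((α / (2 * R)) ^ 2), by positivity, by positivity, min_le_left _ _, ?_⟩
    intro τ hτ hτ1 r hr
    have hsq : √τ ^ 2 = τ := Real.sq_sqrt hτ.le
    have hs0 : 0 < √τ := Real.sqrt_pos.2 hτ
    have hτ1' : τ ≤ 1 := hτ1.trans (min_le_left _ _)
    have hsR : R * √τ ≤ α / 2 := by
      have h1 : √τ ≤ α / (2 * R) := by
        rw [Real.sqrt_le_left (by positivity)]
        exact hτ1.trans (min_le_right _ _)
      have := mul_le_mul_of_nonneg_left h1 hR.le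
      refine this.trans (le_of_eq ?_)
      field_simp
    have hra := abs_le.1 (hr.trans hsR)
    have hr1 : α / 2 ≤ r := by linarith [hra.1]
    have hr2 : r ≤ 2 * α := by linarith [hra.2]
    have hr0 : 0 < r := by linarith
    set x := r * α / (2 * τ) with hx
    have hx0 : 0 < x := by positivity
    refine ⟨?_, ?_, ?_⟩
    · have hG := Gk_asym hk hx0
      have e : r * elG k α r τ + (r - α) / (2 * τ) = -(α / (2 * τ) * (1 - x * Gk k x)) := by
        unfold elG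
        rw [← hx]
        rw [hx]
        field_simp
        ring
      rw [e, abs_neg, abs_mul, abs_of_pos (by positivity : 0 < α / (2 * τ))]
      have h1 := mul_le_mul_of_nonneg_left hG (by positivity : 0 ≤ α / (2 * τ))
      have h2 : α / (2 * τ) * ((2 * k + 2) / x) = (2 * k + 2) / r := by
        rw [hx]; field_simp
      rw [h2] at h1
      have h3 : (2 * k + 2) / r ≤ (4 * k + 4) / α := by
        rw [div_le_div_iff₀ hr0 h0]
        nlinarith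
      have h4 : 0 ≤ k * R / α + R ^ 2 / 4 + k / 2 * |Real.log B| + 1 := by positivity
      linarith
    · intro _
      rw [zero_div, zero_add]
      have e : k * (-(r - α) / (2 * τ)) / r = -(k * (r - α) / (2 * τ * r)) := by
        field_simp
      rw [e, abs_neg, abs_div, abs_mul, abs_of_nonneg hk,
        abs_of_pos (by positivity : 0 < 2 * τ * r)]
      have h1 : k * |r - α| / (2 * τ * r) ≤ k * R / α / √τ := by
        rw [div_le_div_iff₀ (by positivity) hs0]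
        have h2 : k * |r - α| * √τ ≤ k * (R * √τ) * √τ := by gcongr
        have h3 : k * (R * √τ) * √τ = k * R * τ := by
          rw [← hsq]; rw [Real.sqrt_sq hs0.le]; ring
        have h4 : k * R * τ ≤ k * R / α * (2 * τ * r) := by
          rw [div_mul_eq_mul_div, le_div_iff₀ h0]
          have h5 : k * R * τ * α ≤ k * R * τ * (2 * r) := by
            apply mul_le_mul_of_nonneg_left (by linarith) (by positivity)
          linarith
        linarith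
      refine h1.trans ?_
      have h6 : k * R / α ≤ (4 * k + 4) / α + k * R / α + R ^ 2 / 4 + k / 2 * |Real.log B| + 1 := by
        have : 0 ≤ (4 * k + 4) / α + R ^ 2 / 4 + k / 2 * |Real.log B| + 1 := by positivity
        linarith
      gcongr
    · have h1 : rk k x ≤ B / τ := by
        have a1 := rk_le hk x
        rw [abs_of_pos hx0] at a1
        have a2 : x ≤ α ^ 2 / τ := by
          rw [hx, div_le_div_iff₀ (by positivity) hτ]
          linarith [mul_le_mul_of_nonneg_right hr2 (by positivity : 0 ≤ α * τ)]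
        have a3 : k + 2 ≤ (k + 2) / τ := by
          rw [le_div_iff₀ hτ]
          nlinarith
        rw [hB, add_div]
        linarith
      have h2 : Real.log (rk k x) ≤ Real.log B - Real.log τ := by
        have := Real.log_le_log (rk_pos hk x) h1
        rwa [Real.log_div hB0.ne' hτ.ne'] at this
      have h3 : x ≤ rk k x := (le_abs_self x).trans (rk_ge' k x)
      have h4 : x - k / 2 * (Real.log B - Real.log τ) ≤ gk k x := by
        unfold gk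
        have := mul_le_mul_of_nonneg_left h2 (by positivity : 0 ≤ k / 2)
        linarith
      have h5 : (r ^ 2 + α ^ 2) / (4 * τ) = x + (r - α) ^ 2 / (4 * τ) := by
        rw [hx]; field_simp; ring
      have h6 : (r - α) ^ 2 / (4 * τ) ≤ R ^ 2 / 4 := by
        rw [div_le_div_iff₀ (by positivity) (by norm_num)]
        have : (r - α) ^ 2 ≤ (R * √τ) ^ 2 := by
          rw [← sq_abs (r - α)]
          exact pow_le_pow_left₀ (abs_nonneg _) hr 2
        rw [mul_pow, hsq] at this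
        linarith
      have h7 : k / 2 * Real.log B ≤ k / 2 * |Real.log B| :=
        mul_le_mul_of_nonneg_left (le_abs_self _) (by positivity)
      have h8 : 0 ≤ (4 * k + 4) / α + k * R / α := by positivity
      unfold ell
      rw [← hx, h5]
      have h9 : -((1 + 0) / 2) * Real.log τ =
        -((k + 1) / 2) * Real.log τ + k / 2 * Real.log τ := by ring
      rw [h9]
      linarith

end Pool.Agent.Helper532_SymMCF

end

section

/-!
Test functions moving with the parabolic scaling.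
-/

open Set Filter MeasureTheory Topology Metric Module
open scoped ContDiff NNReal ENNReal

namespace Pool.Agent.Helper532_SymMCF

/-- cut-off functions of one variable -/
structure IsBump (θ : ℝ → ℝ) (R D : ℝ) : Prop where
  smooth : ContDiff ℝ ∞ θ
  nonneg : ∀ x, 0 ≤ θ x
  le_one : ∀ x, θ x ≤ 1
  bd : ∀ x, |deriv θ x| ≤ D
  supp : ∀ x, R < |x| → θ x = 0 ∧ deriv θ x = 0

/-- `τ^(-ν/2)` -/
noncomputable def Ex (ν T : ℝ) (z : ℝ × ℝ) : ℝ := Real.exp (-(ν / 2) * Real.log (T - z.1))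

/-- rescaled coordinate -/
noncomputable def Xc (T α : ℝ) (r : ℝ × ℝ → ℝ) (z : ℝ × ℝ) : ℝ := (r z - α) / √(T - z.1)

/-- test function -/
noncomputable def tF (ν T α β : ℝ) (θ₁ θ₂ : ℝ → ℝ) (r s : ℝ × ℝ → ℝ) (z : ℝ × ℝ) : ℝ :=
  Ex ν T z * (θ₁ (Xc T α r z) * θ₂ (Xc T β s z))

noncomputable def tFr (ν T α β : ℝ) (θ₁ θ₂ : ℝ → ℝ) (r s : ℝ × ℝ → ℝ) (z : ℝ × ℝ) : ℝ :=
  Ex ν T z * (deriv θ₁ (Xc T α r z) / √(T - z.1) * θ₂ (Xc T β s z))

noncomputable def tFs (ν T α β : ℝ) (θ₁ θ₂ : ℝ → ℝ) (r s : ℝ × ℝ → ℝ) (z : ℝ × ℝ) : ℝ :=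
  Ex ν T z * (θ₁ (Xc T α r z) * (deriv θ₂ (Xc T β s z) / √(T - z.1)))

noncomputable def tFt (ν T α β : ℝ) (θ₁ θ₂ : ℝ → ℝ) (r s : ℝ × ℝ → ℝ) (z : ℝ × ℝ) : ℝ :=
  Ex ν T z * (ν / (2 * (T - z.1)) * (θ₁ (Xc T α r z) * θ₂ (Xc T β s z)) +
    deriv θ₁ (Xc T α r z) * (Xc T α r z / (2 * (T - z.1))) * θ₂ (Xc T β s z) +
    θ₁ (Xc T α r z) * (deriv θ₂ (Xc T β s z) * (Xc T β s z / (2 * (T - z.1)))))

/-- the field -/
noncomputable def aF (T α : ℝ) (r : ℝ × ℝ → ℝ) (z : ℝ × ℝ) : ℝ := -(r z - α) / (2 * (T - z.1))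

noncomputable def AF (T : ℝ) (z : ℝ × ℝ) : ℝ := -1 / (2 * (T - z.1))

theorem smooth_sqrt {T : ℝ} : ContDiffOn ℝ ∞ (fun z : ℝ × ℝ => √(T - z.1)) (Str T) :=
  smooth_tau.sqrt (fun _ hz => (tau_pos hz).ne')

theorem Xc_smooth {T α : ℝ} {r : ℝ × ℝ → ℝ} (hr : ContDiffOn ℝ ∞ r (Str T)) :
    ContDiffOn ℝ ∞ (Xc T α r) (Str T) :=
  (hr.sub contDiffOn_const).div smooth_sqrt (fun _ hz => (Real.sqrt_pos.2 (tau_pos hz)).ne')

theorem Ex_smooth {ν T : ℝ} : ContDiffOn ℝ ∞ (Ex ν T) (Str T) :=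
  (contDiffOn_const.mul (smooth_tau.log (fun _ hz => (tau_pos hz).ne'))).exp

theorem tF_smooth {ν T α β : ℝ} {θ₁ θ₂ : ℝ → ℝ} {r s : ℝ × ℝ → ℝ} (h1 : ContDiff ℝ ∞ θ₁)
    (h2 : ContDiff ℝ ∞ θ₂) (hr : ContDiffOn ℝ ∞ r (Str T)) (hs : ContDiffOn ℝ ∞ s (Str T)) :
    ContDiffOn ℝ ∞ (tF ν T α β θ₁ θ₂ r s) (Str T) :=
  Ex_smooth.mul ((h1.comp_contDiffOn (Xc_smooth hr)).mul (h2.comp_contDiffOn (Xc_smooth hs)))

theorem aF_smooth {T α : ℝ} {r : ℝ × ℝ → ℝ} (hr : ContDiffOn ℝ ∞ r (Str T)) :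
    ContDiffOn ℝ ∞ (aF T α r) (Str T) :=
  (hr.sub contDiffOn_const).neg.div (contDiffOn_const.mul smooth_tau)
    (fun z hz => by have := tau_pos hz; positivity)

theorem AF_cont {T : ℝ} : ContinuousOn (AF T) (Str T) :=
  (contDiffOn_const.div (contDiffOn_const.mul smooth_tau)
    (fun z hz => by have := tau_pos hz; positivity) : ContDiffOn ℝ ∞ (AF T) (Str T)).continuousOn

theorem deriv_smooth {θ : ℝ → ℝ} (h : ContDiff ℝ ∞ θ) : ContDiff ℝ ∞ (deriv θ) :=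
  (contDiff_infty_iff_deriv.1 h).2

theorem Xc_dt {T α t r' : ℝ} {r : ℝ → ℝ} (ht : t < T) (hr : HasDerivAt r r' t) :
    HasDerivAt (fun x => (r x - α) / √(T - x))
      (r' / √(T - t) + (r t - α) / √(T - t) / (2 * (T - t))) t := by
  have hτ : 0 < T - t := by linarith
  have h1 : HasDerivAt (fun x => T - x) (-1) t := (hasDerivAt_id t).const_sub T
  have h2 := h1.sqrt hτ.ne'
  have hs : 0 < √(T - t) := Real.sqrt_pos.2 hτ
  have hsq : √(T - t) ^ 2 = T - t := Real.sq_sqrt hτ.le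
  refine ((hr.sub_const α).div h2 hs.ne').congr_deriv ?_
  generalize √(T - t) = q at *
  rw [← hsq]
  field_simp
  ring

theorem Xc_du {T α t u r' : ℝ} {r : ℝ → ℝ} (hr : HasDerivAt r r' u) :
    HasDerivAt (fun x => (r x - α) / √(T - t)) (r' / √(T - t)) u :=
  (hr.sub_const α).div_const _

theorem Ex_dt {ν T t : ℝ} (ht : t < T) :
    HasDerivAt (fun x => Real.exp (-(ν / 2) * Real.log (T - x)))
      (Real.exp (-(ν / 2) * Real.log (T - t)) * (ν / (2 * (T - t)))) t := by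
  have hτ : 0 < T - t := by linarith
  have h1 : HasDerivAt (fun x => T - x) (-1) t := (hasDerivAt_id t).const_sub T
  refine ((h1.log hτ.ne').const_mul (-(ν / 2))).exp.congr_deriv ?_
  field_simp

variable {ν T α β : ℝ} {θ₁ θ₂ : ℝ → ℝ} {m₁ m₂ : ℕ} {r s : ℝ × ℝ → ℝ}

theorem tF_D1 (h1 : ContDiff ℝ ∞ θ₁) (h2 : ContDiff ℝ ∞ θ₂) (hr : ContDiffOn ℝ ∞ r (Str T))
    (hs : ContDiffOn ℝ ∞ s (Str T)) : ∀ z ∈ Str T, D1 (tF ν T α β θ₁ θ₂ r s) z =
      tFr ν T α β θ₁ θ₂ r s z * D1 r z + tFs ν T α β θ₁ θ₂ r s z * D1 s z +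
        tFt ν T α β θ₁ θ₂ r s z := by
  rintro ⟨t, u⟩ hz
  have ht := mem_Str.1 hz
  apply D1_unique (tF_smooth h1 h2 hr hs) ht
  have a1 := (h1.differentiable (by simp) (Xc T α r (t, u))).hasDerivAt.comp t
    (Xc_dt (α := α) ht.2 (hasD1 hr ht (u := u)))
  have a2 := (h2.differentiable (by simp) (Xc T β s (t, u))).hasDerivAt.comp t
    (Xc_dt (α := β) ht.2 (hasD1 hs ht (u := u)))
  refine ((Ex_dt (ν := ν) ht.2).mul (a1.mul a2)).congr_deriv ?_
  simp only [Function.comp, Xc, tFr, tFs, tFt, Ex, Pi.mul_apply]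
  ring

theorem tF_D2 (h1 : ContDiff ℝ ∞ θ₁) (h2 : ContDiff ℝ ∞ θ₂) (hr : ContDiffOn ℝ ∞ r (Str T))
    (hs : ContDiffOn ℝ ∞ s (Str T)) : ∀ z ∈ Str T, D2 (tF ν T α β θ₁ θ₂ r s) z =
      tFr ν T α β θ₁ θ₂ r s z * D2 r z + tFs ν T α β θ₁ θ₂ r s z * D2 s z := by
  rintro ⟨t, u⟩ hz
  have ht := mem_Str.1 hz
  apply D2_unique (tF_smooth h1 h2 hr hs) ht
  have a1 := (h1.differentiable (by simp) (Xc T α r (t, u))).hasDerivAt.comp u
    (Xc_du (t := t) (T := T) (α := α) (hasD2 hr ht (u := u)))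
  have a2 := (h2.differentiable (by simp) (Xc T β s (t, u))).hasDerivAt.comp u
    (Xc_du (t := t) (T := T) (α := β) (hasD2 hs ht (u := u)))
  refine ((a1.mul a2).const_mul (Ex ν T (t, u))).congr_deriv ?_
  simp only [Function.comp, Xc, tFr, tFs, Ex]
  ring

theorem aF_D2 (hr : ContDiffOn ℝ ∞ r (Str T)) :
    ∀ z ∈ Str T, D2 (aF T α r) z = AF T z * D2 r z := by
  rintro ⟨t, u⟩ hz
  have ht := mem_Str.1 hz
  apply D2_unique (aF_smooth hr) ht
  refine (((hasD2 hr ht (u := u)).sub_const α).neg.div_const (2 * (T - t))).congr_deriv ?_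
  simp only [AF]
  ring

/-- the integrand for the test function -/
noncomputable def jF (ν T α β : ℝ) (m₁ m₂ : ℕ) (θ₁ θ₂ : ℝ → ℝ) (r s : ℝ × ℝ → ℝ) (z : ℝ × ℝ) : ℝ :=
  jint m₁ m₂ (ww m₁ m₂ r s z) (spd r s z) (D2 r z) (D2 s z) (D1 r z)
    (D1 s z) (r z) (s z) (aF T α r z) (aF T β s z) (tF ν T α β θ₁ θ₂ r s z)
    (tFr ν T α β θ₁ θ₂ r s z) (tFs ν T α β θ₁ θ₂ r s z) (tFt ν T α β θ₁ θ₂ r s z) (AF T z) (AF T z)

/-- the localised weighted length -/
noncomputable def EF (ν T α β : ℝ) (m₁ m₂ : ℕ) (θ₁ θ₂ : ℝ → ℝ) (r s : ℝ × ℝ → ℝ) (t : ℝ) : ℝ :=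
  ∫ u in (0 : ℝ)..1, tF ν T α β θ₁ θ₂ r s (t, u) * ww m₁ m₂ r s (t, u) * spd r s (t, u)

theorem EF_var (h : Fam T m₁ m₂ r s) (h1 : ContDiff ℝ ∞ θ₁) (h2 : ContDiff ℝ ∞ θ₂)
    {t₁ t₂ : ℝ} (ht1 : t₁ ∈ Ioo 0 T) (ht2 : t₂ ∈ Ioo 0 T) (h12 : t₁ ≤ t₂) :
    EF ν T α β m₁ m₂ θ₁ θ₂ r s t₂ - EF ν T α β m₁ m₂ θ₁ θ₂ r s t₁ =
      ∫ t in t₁..t₂, ∫ u in (0 : ℝ)..1, jF ν T α β m₁ m₂ θ₁ θ₂ r s (t, u) := by
  have d1 := (deriv_smooth h1).continuous.comp_continuousOn (Xc_smooth (α := α) h.hr).continuousOn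
  have d2 := (deriv_smooth h2).continuous.comp_continuousOn (Xc_smooth (α := β) h.hs).continuousOn
  have c1 := h1.continuous.comp_continuousOn (Xc_smooth (α := α) h.hr).continuousOn
  have c2 := h2.continuous.comp_continuousOn (Xc_smooth (α := β) h.hs).continuousOn
  have cs := (smooth_sqrt (T := T)).continuousOn
  have hs0 : ∀ z ∈ Str T, √(T - z.1) ≠ 0 := fun z hz => (Real.sqrt_pos.2 (tau_pos hz)).ne'
  have hτ0 : ∀ z ∈ Str T, 2 * (T - z.1) ≠ 0 := fun z hz => by have := tau_pos hz; positivity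
  have ct : ContinuousOn (fun z : ℝ × ℝ => 2 * (T - z.1)) (Str T) :=
    (contDiffOn_const.mul smooth_tau : ContDiffOn ℝ ∞ _ _).continuousOn
  have cE := (Ex_smooth (ν := ν) (T := T)).continuousOn
  have cX := (Xc_smooth (α := α) h.hr).continuousOn
  have cY := (Xc_smooth (α := β) h.hs).continuousOn
  refine var_lim h (tF_smooth h1 h2 h.hr h.hs) ?_ ?_ ?_ (aF_smooth h.hr) (aF_smooth h.hs) AF_cont
    AF_cont ?_ ?_ ?_ (tF_D1 h1 h2 h.hr h.hs) (tF_D2 h1 h2 h.hr h.hs) (aF_D2 h.hr) (aF_D2 h.hs)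
    ht1 ht2 h12
  · exact cE.mul ((d1.div₀ cs hs0).mul c2)
  · exact cE.mul (c1.mul (d2.div₀ cs hs0))
  · exact cE.mul ((((continuousOn_const.div₀ ct hτ0).mul (c1.mul c2)).add
      ((d1.mul (cX.div₀ ct hτ0)).mul c2)).add (c1.mul (d2.mul (cY.div₀ ct hτ0))))
  · intro t ht u
    simp only [tF, Ex, Xc, h.pr t ht u, h.ps t ht u]
  · intro t ht u
    simp only [aF, h.pr t ht u]
  · intro t ht u
    simp only [aF, h.ps t ht u]

end Pool.Agent.Helper532_SymMCF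

end

section

/-!
The localised weighted length changes little.
-/

open Set Filter MeasureTheory Topology Metric Module
open scoped ContDiff NNReal ENNReal

namespace Pool.Agent.Helper532_SymMCF

theorem abs_frame {v ru su x y : ℝ} (hv : 0 < v) (hv2 : v ^ 2 = ru ^ 2 + su ^ 2) :
    |(-su * x + ru * y) / v| ≤ |x| + |y| := by
  have hruv : |ru| ≤ v := by
    apply abs_le_of_sq_le_sq _ hv.le
    linarith [sq_nonneg su]
  have hsuv : |su| ≤ v := by
    apply abs_le_of_sq_le_sq _ hv.le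
    linarith [sq_nonneg ru]
  rw [abs_div, abs_of_pos hv, div_le_iff₀ hv]
  refine (abs_add_le _ _).trans ?_
  rw [abs_mul, abs_mul, abs_neg]
  have h1 : |su| * |x| ≤ v * |x| := mul_le_mul_of_nonneg_right hsuv (abs_nonneg _)
  have h2 : |ru| * |y| ≤ v * |y| := mul_le_mul_of_nonneg_right hruv (abs_nonneg _)
  linarith

theorem jbound {w v ru su F Fr Fs e X NL Vd E W s₀ τ ε D R C₀ C₁ C₃ : ℝ}
    (hw : 0 ≤ w) (hv : 0 < v) (hv2 : v ^ 2 = ru ^ 2 + su ^ 2) (hE : 0 ≤ E)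
    (hD : 0 ≤ D) (hR : 0 ≤ R) (hC₀ : 0 ≤ C₀) (hC₁ : 0 ≤ C₁)
    (hs₀ : 0 < s₀) (hs₁ : s₀ ≤ 1) (hτ : τ = s₀ ^ 2) (hε : 0 < ε) (hε1 : ε ≤ 1)
    (hF : |F| ≤ E) (hFr : |Fr| ≤ E * (D / s₀)) (hFs : |Fs| ≤ E * (D / s₀)) (he : |e| ≤ C₁ / s₀)
    (hX : |X| ≤ |Vd| + C₀) (hNL : |NL| ≤ R / s₀) (hW : E * w ≤ C₃ * W) :
    |w * v * (F * e + ((-su * Fr + ru * Fs) / v - F * (X + NL)) * X)| ≤
      C₃ * (C₁ + (2 * D + R) * (1 + C₀) + 2 * C₀ ^ 2 + 2) *
        ((1 / s₀ + ε / τ) * (W * v) + W * v * Vd ^ 2 / ε) := by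
  set y := |Vd| with hy
  have hy0 : 0 ≤ y := abs_nonneg _
  have hyV : y ^ 2 = Vd ^ 2 := sq_abs _
  have hNF : |(-su * Fr + ru * Fs) / v| ≤ 2 * (E * (D / s₀)) :=
    (abs_frame hv hv2).trans (by linarith)
  have hX0 : 0 ≤ |X| := abs_nonneg _
  have hXN : |X + NL| ≤ |X| + R / s₀ := (abs_add_le _ _).trans (by linarith)
  have h1 : |F * e + ((-su * Fr + ru * Fs) / v - F * (X + NL)) * X| ≤
      E * (C₁ / s₀ + ((2 * D + R) / s₀ * |X| + |X| ^ 2)) := by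
    refine (abs_add_le _ _).trans ?_
    rw [abs_mul, abs_mul _ X]
    have a1 : |F| * |e| ≤ E * (C₁ / s₀) := mul_le_mul hF he (abs_nonneg _) hE
    have a2 : |(-su * Fr + ru * Fs) / v - F * (X + NL)| ≤
        2 * (E * (D / s₀)) + E * (|X| + R / s₀) := by
      refine (abs_sub _ _).trans ?_
      rw [abs_mul F]
      have := mul_le_mul hF hXN (abs_nonneg _) hE
      linarith
    have a3 := mul_le_mul_of_nonneg_right a2 hX0
    have a4 : (2 * (E * (D / s₀)) + E * (|X| + R / s₀)) * |X| =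
        E * ((2 * D + R) / s₀ * |X| + |X| ^ 2) := by ring
    rw [a4] at a3
    linarith
  have hinv : 1 ≤ 1 / s₀ := by
    rw [le_div_iff₀ hs₀]; linarith
  have hinv0 : 0 ≤ 1 / s₀ := by positivity
  have h2 : y / s₀ ≤ ε / τ + y ^ 2 / ε := by
    have e1 : y / s₀ = (ε / s₀) * y / ε := by field_simp
    have e2 : ε / τ = (ε / s₀) ^ 2 / ε := by
      rw [hτ]; field_simp
    rw [e1, e2, ← add_div]
    apply div_le_div_of_nonneg_right _ hε.le
    linarith [sq_nonneg (ε / s₀ - y / 2), sq_nonneg y]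
  have h3 : (2 * D + R) / s₀ * |X| ≤ (2 * D + R) * ((ε / τ + y ^ 2 / ε) + C₀ * (1 / s₀)) := by
    have e1 : (2 * D + R) / s₀ * |X| = (2 * D + R) * (|X| / s₀) := by ring
    rw [e1]
    apply mul_le_mul_of_nonneg_left _ (by positivity)
    have : |X| / s₀ ≤ (y + C₀) / s₀ := by gcongr
    refine this.trans ?_
    rw [add_div]
    have e3 : C₀ / s₀ = C₀ * (1 / s₀) := by ring
    linarith
  have h4 : |X| ^ 2 ≤ 2 * (y ^ 2 / ε) + 2 * C₀ ^ 2 * (1 / s₀) := by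
    have e1 : |X| ^ 2 ≤ (y + C₀) ^ 2 := pow_le_pow_left₀ hX0 hX 2
    have e2 : (y + C₀) ^ 2 ≤ 2 * y ^ 2 + 2 * C₀ ^ 2 := by linarith [sq_nonneg (y - C₀)]
    have e3 : y ^ 2 ≤ y ^ 2 / ε := by
      rw [le_div_iff₀ hε]
      exact mul_le_of_le_one_right (sq_nonneg y) hε1
    have e4 : 2 * C₀ ^ 2 * 1 ≤ 2 * C₀ ^ 2 * (1 / s₀) :=
      mul_le_mul_of_nonneg_left hinv (by positivity)
    linarith
  set K := C₁ + (2 * D + R) * (1 + C₀) + 2 * C₀ ^ 2 + 2 with hK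
  have hK0 : 0 ≤ K := by positivity
  have hετ : 0 ≤ ε / τ := by rw [hτ]; positivity
  have hyε : 0 ≤ y ^ 2 / ε := by positivity
  have h5 : C₁ / s₀ + ((2 * D + R) / s₀ * |X| + |X| ^ 2) ≤ K * ((1 / s₀ + ε / τ) + y ^ 2 / ε) := by
    have e1 : K * ((1 / s₀ + ε / τ) + y ^ 2 / ε) =
        C₁ * (1 / s₀) + (2 * D + R) * ((ε / τ + y ^ 2 / ε) + C₀ * (1 / s₀)) +
        (2 * (y ^ 2 / ε) + 2 * C₀ ^ 2 * (1 / s₀)) +
        (C₁ * (ε / τ + y ^ 2 / ε) + (2 * D + R) * (1 / s₀) +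
          (2 * D + R) * C₀ * (ε / τ + y ^ 2 / ε) + 2 * C₀ ^ 2 * (ε / τ + y ^ 2 / ε) +
          2 * (1 / s₀ + ε / τ)) := by
      rw [hK]; ring
    have e2 : 0 ≤ C₁ * (ε / τ + y ^ 2 / ε) + (2 * D + R) * (1 / s₀) +
          (2 * D + R) * C₀ * (ε / τ + y ^ 2 / ε) + 2 * C₀ ^ 2 * (ε / τ + y ^ 2 / ε) +
          2 * (1 / s₀ + ε / τ) := by positivity
    have e3 : C₁ / s₀ = C₁ * (1 / s₀) := by ring
    rw [e1, e3]
    linarith
  rw [abs_mul, abs_of_nonneg (mul_nonneg hw hv.le)]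
  calc w * v * |F * e + ((-su * Fr + ru * Fs) / v - F * (X + NL)) * X|
      ≤ w * v * (E * (K * ((1 / s₀ + ε / τ) + y ^ 2 / ε))) := by
        apply mul_le_mul_of_nonneg_left _ (mul_nonneg hw hv.le)
        exact h1.trans (mul_le_mul_of_nonneg_left h5 hE)
    _ = (E * w) * (v * (K * ((1 / s₀ + ε / τ) + y ^ 2 / ε))) := by ring
    _ ≤ (C₃ * W) * (v * (K * ((1 / s₀ + ε / τ) + y ^ 2 / ε))) := by
        apply mul_le_mul_of_nonneg_right hW
        positivity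
    _ = _ := by
        rw [hyV]; ring

variable {T α β R D : ℝ} {θ₁ θ₂ : ℝ → ℝ} {m₁ m₂ : ℕ}

/-- Pointwise estimate of the integrand. -/
theorem jF_bound (m₁ m₂ : ℕ) (hα : 0 ≤ α) (hβ : 0 ≤ β) (hR : 0 < R) (hD : 0 ≤ D) :
    ∃ C τ₀ : ℝ, 0 < C ∧ 0 < τ₀ ∧ τ₀ ≤ 1 ∧ ∀ (T : ℝ) (r s : ℝ × ℝ → ℝ) (θ₁ θ₂ : ℝ → ℝ) (ε : ℝ),
      Fam T m₁ m₂ r s → IsBump θ₁ R D → IsBump θ₂ R D → 0 < ε → ε ≤ 1 →
      ∀ z ∈ Str T, T - z.1 ≤ τ₀ →
      |jF (1 + dl m₁ α + dl m₂ β) T α β m₁ m₂ θ₁ θ₂ r s z| ≤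
        C * ((1 / √(T - z.1) + ε / (T - z.1)) * (Wt T m₁ m₂ α β r s z * spd r s z) +
          Dd T m₁ m₂ α β r s z / ε) := by
  have k1 : (0 : ℝ) ≤ m₁ := Nat.cast_nonneg _
  have k2 : (0 : ℝ) ≤ m₂ := Nat.cast_nonneg _
  obtain ⟨C₁', τ₁, hC1, hτ1, hτ1', hf1⟩ := fac k1 hα hR
  obtain ⟨C₂', τ₂, hC2, hτ2, hτ2', hf2⟩ := fac k2 hβ hR
  refine ⟨Real.exp (C₁' + C₂') * ((C₁' + C₂') + (2 * D + R) * (1 + (C₁' + C₂')) +
    2 * (C₁' + C₂') ^ 2 + 2), min τ₁ τ₂, by positivity, by positivity,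
    (min_le_left _ _).trans hτ1', ?_⟩
  intro T r s θ₁ θ₂ ε h b1 b2 hε hε1 z hz hzτ
  have hτ := tau_pos hz
  obtain ⟨τ, hτdef⟩ : ∃ τ, τ = T - z.1 := ⟨_, rfl⟩
  have hv := spd_pos h hz
  have hv2 : spd r s z ^ 2 = D2 r z ^ 2 + D2 s z ^ 2 := Real.sq_sqrt (by positivity)
  have hW0 := Wt_nonneg T m₁ m₂ α β r s z
  have hD0 := Dd_nonneg T m₁ m₂ α β r s z
  have hRHS : 0 ≤ Real.exp (C₁' + C₂') * ((C₁' + C₂') + (2 * D + R) * (1 + (C₁' + C₂')) +
      2 * (C₁' + C₂') ^ 2 + 2) * ((1 / √(T - z.1) + ε / (T - z.1)) *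
      (Wt T m₁ m₂ α β r s z * spd r s z) + Dd T m₁ m₂ α β r s z / ε) := by positivity
  by_cases hXR : R < |Xc T α r z|
  · obtain ⟨z1, z2⟩ := b1.supp _ hXR
    have : jF (1 + dl m₁ α + dl m₂ β) T α β m₁ m₂ θ₁ θ₂ r s z = 0 := by
      simp [jF, jint, tF, tFr, tFs, tFt, z1, z2]
    rw [this, abs_zero]
    exact hRHS
  by_cases hYR : R < |Xc T β s z|
  · obtain ⟨z1, z2⟩ := b2.supp _ hYR
    have : jF (1 + dl m₁ α + dl m₂ β) T α β m₁ m₂ θ₁ θ₂ r s z = 0 := by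
      simp [jF, jint, tF, tFr, tFs, tFt, z1, z2]
    rw [this, abs_zero]
    exact hRHS
  by_cases h0 : r z ≠ 0 ∨ m₁ = 0
  swap
  · push Not at h0
    have : ww m₁ m₂ r s z = 0 := by
      unfold ww
      rw [h0.1, abs_zero, zero_pow h0.2, zero_mul]
    have : jF (1 + dl m₁ α + dl m₂ β) T α β m₁ m₂ θ₁ θ₂ r s z = 0 := by
      simp [jF, jint, this]
    rw [this, abs_zero]
    exact hRHS
  by_cases h0' : s z ≠ 0 ∨ m₂ = 0
  swap
  · push Not at h0'
    have : ww m₁ m₂ r s z = 0 := by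
      unfold ww
      rw [h0'.1, abs_zero, zero_pow h0'.2, mul_zero]
    have : jF (1 + dl m₁ α + dl m₂ β) T α β m₁ m₂ θ₁ θ₂ r s z = 0 := by
      simp [jF, jint, this]
    rw [this, abs_zero]
    exact hRHS
  -- main case
  rw [← hτdef] at hτ hzτ
  have hτ01 : τ ≤ τ₁ := hzτ.trans (min_le_left _ _)
  have hτ02 : τ ≤ τ₂ := hzτ.trans (min_le_right _ _)
  have hs0 : 0 < √τ := Real.sqrt_pos.2 hτ
  have hs1 : √τ ≤ 1 := by
    rw [Real.sqrt_le_left zero_le_one, one_pow]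
    exact hτ01.trans hτ1'
  have hsq : √τ ^ 2 = τ := Real.sq_sqrt hτ.le
  have hXe : r z - α = Xc T α r z * √τ := by
    unfold Xc
    rw [← hτdef]
    field_simp
  have hYe : s z - β = Xc T β s z * √τ := by
    unfold Xc
    rw [← hτdef]
    field_simp
  rw [not_lt] at hXR hYR
  have hrα : |r z - α| ≤ R * √τ := by
    rw [hXe, abs_mul, abs_of_pos hs0]
    exact mul_le_mul_of_nonneg_right hXR hs0.le
  have hsβ : |s z - β| ≤ R * √τ := by
    rw [hYe, abs_mul, abs_of_pos hs0]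
    exact mul_le_mul_of_nonneg_right hYR hs0.le
  obtain ⟨f1, f2, f3⟩ := hf1 τ hτ hτ01 (r z) hrα
  obtain ⟨g1, g2, g3⟩ := hf2 τ hτ hτ02 (s z) hsβ
  have f2' := f2 (h0.imp_right fun h => by simp [h])
  have g2' := g2 (h0'.imp_right fun h => by simp [h])
  set E := Ex (1 + dl m₁ α + dl m₂ β) T z with hE
  have hE0 : 0 ≤ E := (Real.exp_pos _).le
  set t1 := θ₁ (Xc T α r z) with ht1
  set t2 := θ₂ (Xc T β s z) with ht2
  set d1 := deriv θ₁ (Xc T α r z) with hd1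
  set d2 := deriv θ₂ (Xc T β s z) with hd2
  have ht1' : |t1| ≤ 1 := by rw [abs_of_nonneg (b1.nonneg _)]; exact b1.le_one _
  have ht2' : |t2| ≤ 1 := by rw [abs_of_nonneg (b2.nonneg _)]; exact b2.le_one _
  set a := aF T α r z with ha
  set b := aF T β s z with hb
  have ha' : a = -(r z - α) / (2 * τ) := by rw [ha, aF, ← hτdef]
  have hb' : b = -(s z - β) / (2 * τ) := by rw [hb, aF, ← hτdef]
  set NL := (-D2 s z * a + D2 r z * b) / spd r s z with hNL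
  set Vn := (-D2 s z * D1 r z + D2 r z * D1 s z) / spd r s z with hVn
  have hkey : jF (1 + dl m₁ α + dl m₂ β) T α β m₁ m₂ θ₁ θ₂ r s z =
      ww m₁ m₂ r s z * spd r s z * (E * (t1 * t2) *
        ((dl m₁ α / (2 * τ) + m₁ * (-(r z - α) / (2 * τ)) / r z) +
          (dl m₂ β / (2 * τ) + m₂ * (-(s z - β) / (2 * τ)) / s z)) +
        ((-D2 s z * (E * (d1 / √τ * t2)) + D2 r z * (E * (t1 * (d2 / √τ)))) / spd r s z -
          E * (t1 * t2) * ((Vn - NL) + NL)) * (Vn - NL)) := by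
    unfold jF jint tF tFr tFs tFt AF
    rw [← hE, ← ht1, ← ht2, ← hd1, ← hd2, ← ha, ← hb, ← hτdef, ← hNL, ← hVn, sub_add_cancel]
    have e1 : (-1 / (2 * τ) * D2 r z ^ 2 + -1 / (2 * τ) * D2 s z ^ 2) / spd r s z ^ 2 =
        -1 / (2 * τ) := by
      rw [← mul_add, ← hv2, mul_div_assoc, div_self (pow_ne_zero 2 hv.ne'), mul_one]
    rw [e1]
    have e2 : E * (d1 / √τ * t2) * a = -(E * (d1 * (Xc T α r z / (2 * τ)) * t2)) := by
      rw [ha', hXe]
      field_simp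
    have e3 : E * (t1 * (d2 / √τ)) * b = -(E * (t1 * (d2 * (Xc T β s z / (2 * τ))))) := by
      rw [hb', hYe]
      field_simp
    rw [e2, e3, ha', hb']
    ring
  rw [hkey]
  have hDd : Dd T m₁ m₂ α β r s z = Wt T m₁ m₂ α β r s z * spd r s z *
      Vd T m₁ m₂ α β r s z ^ 2 := rfl
  rw [hDd, ← hτdef]
  apply jbound (w := ww m₁ m₂ r s z) (E := E) (D := D) (R := R) (NL := NL) (X := Vn - NL)
    (C₀ := C₁' + C₂') (C₁ := C₁' + C₂') (C₃ := Real.exp (C₁' + C₂'))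
    (by unfold ww; positivity) hv hv2 hE0 hD hR.le (by positivity) (by positivity) hs0 hs1
    hsq.symm hε hε1
  · rw [abs_mul, abs_of_nonneg hE0, abs_mul]
    have : |t1| * |t2| ≤ 1 * 1 := mul_le_mul ht1' ht2' (abs_nonneg _) zero_le_one
    exact mul_le_of_le_one_right hE0 (this.trans_eq (one_mul 1))
  · rw [abs_mul, abs_of_nonneg hE0, abs_mul, abs_div, abs_of_pos hs0]
    apply mul_le_mul_of_nonneg_left _ hE0
    have h1 : |d1| / √τ ≤ D / √τ := div_le_div_of_nonneg_right (b1.bd _) hs0.le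
    calc |d1| / √τ * |t2| ≤ D / √τ * 1 := mul_le_mul h1 ht2' (abs_nonneg _) (by positivity)
      _ = D / √τ := mul_one _
  · rw [abs_mul, abs_of_nonneg hE0, abs_mul, abs_div, abs_of_pos hs0]
    apply mul_le_mul_of_nonneg_left _ hE0
    have h1 : |d2| / √τ ≤ D / √τ := div_le_div_of_nonneg_right (b2.bd _) hs0.le
    calc |t1| * (|d2| / √τ) ≤ 1 * (D / √τ) := mul_le_mul ht1' h1 (by positivity) zero_le_one
      _ = D / √τ := one_mul _
  · refine (abs_add_le _ _).trans ?_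
    rw [add_div]
    exact add_le_add f2' g2'
  · have e1 : Vn - NL = Vd T m₁ m₂ α β r s z +
        (-D2 s z * (r z * elG m₁ α (r z) τ + (r z - α) / (2 * τ)) +
          D2 r z * (s z * elG m₂ β (s z) τ + (s z - β) / (2 * τ))) / spd r s z := by
      unfold Vd
      rw [← hτdef, hNL, ← hVn, ha', hb']
      ring
    rw [e1]
    refine (abs_add_le _ _).trans ?_
    have := (abs_frame (x := r z * elG m₁ α (r z) τ + (r z - α) / (2 * τ))
      (y := s z * elG m₂ β (s z) τ + (s z - β) / (2 * τ)) hv hv2)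
    linarith
  · refine (abs_frame hv hv2).trans ?_
    have e1 : ∀ x : ℝ, |x| ≤ R * √τ → |-x / (2 * τ)| ≤ R / √τ / 2 := by
      intro x hx
      rw [abs_div, abs_neg, abs_of_pos (by positivity : 0 < 2 * τ), div_le_iff₀ (by positivity)]
      refine hx.trans (le_of_eq ?_)
      rw [← hsq, Real.sqrt_sq hs0.le]
      field_simp
    have := e1 _ hrα
    have := e1 _ hsβ
    rw [ha', hb']
    linarith
  · have e1 : E ≤ Real.exp (C₁' + C₂') * Real.exp (Lf T m₁ m₂ α β r s z) := by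
      rw [hE, Ex, ← Real.exp_add]
      apply Real.exp_le_exp.2
      unfold Lf
      rw [← hτdef]
      linarith
    have e2 : 0 ≤ ww m₁ m₂ r s z := by unfold ww; positivity
    have := mul_le_mul_of_nonneg_right e1 e2
    refine this.trans (le_of_eq ?_)
    unfold Wt ww
    ring

end Pool.Agent.Helper532_SymMCF

end
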