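import Pool.Agent.Helper532_SymMCF.Evols
import Pool.Agent.Helper532_SymMCF.Axes

section

/-!
The localised weighted lengths of the rescaled curves at two times have the same limit.
-/

open Set Filter MeasureTheory Topology Metric Module
open scoped ContDiff NNReal ENNReal

namespace Pool.Agent.Helper532_SymMCF

theorem Wl_anti {T : ℝ} {m₁ m₂ : ℕ} {r s : ℝ × ℝ → ℝ} (h : Fam T m₁ m₂ r s) (α β : ℝ)
    {t₁ t₂ : ℝ} (h1 : t₁ ∈ Ioo 0 T) (h2 : t₂ ∈ Ioo 0 T) (h12 : t₁ ≤ t₂) :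
    (∫ u in (0 : ℝ)..1, Wt T m₁ m₂ α β r s (t₂, u) * spd r s (t₂, u)) ≤
      ∫ u in (0 : ℝ)..1, Wt T m₁ m₂ α β r s (t₁, u) * spd r s (t₁, u) := by
  have := mono_main h α β h1 h2 h12
  have h3 : 0 ≤ ∫ t in t₁..t₂, ∫ u in (0 : ℝ)..1, Dd T m₁ m₂ α β r s (t, u) := by
    apply intervalIntegral.integral_nonneg h12
    intro t _
    apply intervalIntegral.integral_nonneg zero_le_one
    intro u _
    exact Dd_nonneg _ _ _ _ _ _ _ _
  linarith

/-- Change of the localised weighted length of one family. -/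
theorem EF_diff (m₁ m₂ : ℕ) {α β R D : ℝ} (hα : 0 ≤ α) (hβ : 0 ≤ β) (hR : 0 < R) (hD : 0 ≤ D) :
    ∃ C τ₀ : ℝ, 0 < C ∧ 0 < τ₀ ∧ τ₀ ≤ 1 ∧ ∀ (T : ℝ) (r s : ℝ × ℝ → ℝ) (θ₁ θ₂ : ℝ → ℝ) (ε : ℝ),
      Fam T m₁ m₂ r s → IsBump θ₁ R D → IsBump θ₂ R D → 0 < ε → ε ≤ 1 →
      ∀ t₁ t₂, t₁ ∈ Ioo 0 T → t₂ ∈ Ioo 0 T → t₁ ≤ t₂ → T - t₁ ≤ τ₀ →
      |EF (1 + dl m₁ α + dl m₂ β) T α β m₁ m₂ θ₁ θ₂ r s t₂ -
        EF (1 + dl m₁ α + dl m₂ β) T α β m₁ m₂ θ₁ θ₂ r s t₁| ≤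
        C * ((1 / √(T - t₂) + ε / (T - t₂)) * ((t₂ - t₁) *
          ∫ u in (0 : ℝ)..1, Wt T m₁ m₂ α β r s (t₁, u) * spd r s (t₁, u)) +
          ((∫ u in (0 : ℝ)..1, Wt T m₁ m₂ α β r s (t₁, u) * spd r s (t₁, u)) -
          (∫ u in (0 : ℝ)..1, Wt T m₁ m₂ α β r s (t₂, u) * spd r s (t₂, u))) / ε) := by
  obtain ⟨C, τ₀, hC, hτ₀, hτ₁, hb⟩ := jF_bound m₁ m₂ hα hβ hR hD
  refine ⟨C, τ₀, hC, hτ₀, hτ₁, ?_⟩
  intro T r s θ₁ θ₂ ε h b1 b2 hε hε1 t₁ t₂ h1 h2 h12 hτ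
  have hsub : Icc t₁ t₂ ⊆ Ioo 0 T := fun x hx => ⟨h1.1.trans_le hx.1, hx.2.trans_lt h2.2⟩
  have hτ2 : 0 < T - t₂ := by linarith [h2.2]
  set κ : ℝ := 1 / √(T - t₂) + ε / (T - t₂) with hκ
  have hκ0 : 0 ≤ κ := by positivity
  rw [EF_var h b1.smooth b2.smooth h1 h2 h12]
  set I : ℝ → ℝ := fun t => ∫ u in (0 : ℝ)..1, Wt T m₁ m₂ α β r s (t, u) * spd r s (t, u) with hI
  set J : ℝ → ℝ := fun t => ∫ u in (0 : ℝ)..1, Dd T m₁ m₂ α β r s (t, u) with hJ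
  have cW : ContinuousOn (fun z => Wt T m₁ m₂ α β r s z * spd r s z) (Str T) :=
    (Wt_cont h α β).mul (spd_smooth h).continuousOn
  have cD := Dd_cont h α β
  have cI : ContinuousOn I (Ioo 0 T) := cont_integral cW
  have cJ : ContinuousOn J (Ioo 0 T) := cont_integral cD
  have iI : IntervalIntegrable I volume t₁ t₂ := cont_fst_int cW h1 h2 h12
  have iJ : IntervalIntegrable J volume t₁ t₂ := cont_fst_int cD h1 h2 h12
  have step1 : ‖∫ t in t₁..t₂, ∫ u in (0 : ℝ)..1,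
      jF (1 + dl m₁ α + dl m₂ β) T α β m₁ m₂ θ₁ θ₂ r s (t, u)‖ ≤
      ∫ t in t₁..t₂, C * (κ * I t + J t / ε) := by
    apply intervalIntegral.norm_integral_le_of_norm_le h12
    · refine ae_of_all _ fun t ht => ?_
      have ht' : t ∈ Ioo 0 T := hsub ⟨ht.1.le, ht.2⟩
      have cWt := cont_snd cW ht'
      have cDt := cont_snd cD ht'
      have e1 : C * (κ * I t + J t / ε) = ∫ u in (0 : ℝ)..1,
          C * (κ * (Wt T m₁ m₂ α β r s (t, u) * spd r s (t, u)) +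
            Dd T m₁ m₂ α β r s (t, u) / ε) := by
        rw [intervalIntegral.integral_const_mul, intervalIntegral.integral_add,
          intervalIntegral.integral_const_mul, intervalIntegral.integral_div]
        · exact (continuous_const.mul cWt).intervalIntegrable _ _
        · exact (cDt.div_const _).intervalIntegrable _ _
      rw [e1]
      apply intervalIntegral.norm_integral_le_of_norm_le zero_le_one
      · refine ae_of_all _ fun u _ => ?_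
        have hz : (t, u) ∈ Str T := mem_Str.2 ht'
        have hbz := hb T r s θ₁ θ₂ ε h b1 b2 hε hε1 (t, u) hz (by simp only; linarith [ht.1])
        rw [Real.norm_eq_abs]
        refine hbz.trans ?_
        simp only
        have hW0 := Wt_nonneg T m₁ m₂ α β r s (t, u)
        have hv := (spd_pos h hz).le
        have hle : 1 / √(T - t) + ε / (T - t) ≤ κ := by
          have a1 : T - t₂ ≤ T - t := by linarith [ht.2]
          have a2 : √(T - t₂) ≤ √(T - t) := Real.sqrt_le_sqrt a1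
          have a3 : 0 < √(T - t₂) := Real.sqrt_pos.2 hτ2
          rw [hκ]
          gcongr
        gcongr
      · exact (continuous_const.mul ((continuous_const.mul cWt).add
          (cDt.div_const _))).intervalIntegrable _ _
    · exact ((iI.const_mul κ).add (iJ.div_const ε)).const_mul C
  rw [← Real.norm_eq_abs]
  refine step1.trans ?_
  rw [intervalIntegral.integral_const_mul, intervalIntegral.integral_add (iI.const_mul κ)
    (iJ.div_const ε), intervalIntegral.integral_const_mul, intervalIntegral.integral_div]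
  apply mul_le_mul_of_nonneg_left _ hC.le
  have s1 : ∫ t in t₁..t₂, I t ≤ (t₂ - t₁) * I t₁ := by
    have : ∫ t in t₁..t₂, I t ≤ ∫ t in t₁..t₂, I t₁ := by
      apply intervalIntegral.integral_mono_on h12 iI (by simp)
      intro t ht
      exact Wl_anti h α β h1 (hsub ht) ht.1
    rwa [intervalIntegral.integral_const, smul_eq_mul] at this
  have s2 : ∫ t in t₁..t₂, J t ≤ I t₁ - I t₂ := by
    have := mono_main h α β h1 h2 h12
    linarith
  have s3 : (∫ t in t₁..t₂, J t) / ε ≤ (I t₁ - I t₂) / ε := div_le_div_of_nonneg_right s2 hε.le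
  have s4 := mul_le_mul_of_nonneg_left s1 hκ0
  linarith

variable {p q N : ℕ} {T : ℝ} {c : Fin N → ℝ → ℝ → ℂ}

/-- the localised weighted length of the profile -/
noncomputable def EE (p q : ℕ) (T : ℝ) (c : Fin N → ℝ → ℝ → ℂ) (α β : ℝ) (θ₁ θ₂ : ℝ → ℝ) (t : ℝ) :
    ℝ :=
  ∑ j, EF (1 + dl (p - 1 : ℕ) α + dl (q - 1 : ℕ) β) T α β (p - 1) (q - 1) θ₁ θ₂ (rr c j) (ss c j) t

theorem Phi_anti (h : PFlow p q T N c) (hp : 1 ≤ p) (hq : 1 ≤ q) (α β : ℝ) :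
    AntitoneOn (Phi p q T c α β) (Ioo 0 T) := by
  intro t₁ h1 t₂ h2 h12
  unfold Phi
  exact Finset.sum_le_sum fun j _ => Wl_anti (toFam h hp hq j) α β h1 h2 h12

theorem EE_diff (h : PFlow p q T N c) (hp : 1 ≤ p) (hq : 1 ≤ q) {α β R D : ℝ} (hα : 0 ≤ α)
    (hβ : 0 ≤ β) (hR : 0 < R) (hD : 0 ≤ D) :
    ∃ C τ₀ : ℝ, 0 < C ∧ 0 < τ₀ ∧ τ₀ ≤ 1 ∧ ∀ (θ₁ θ₂ : ℝ → ℝ) (ε : ℝ),
      IsBump θ₁ R D → IsBump θ₂ R D → 0 < ε → ε ≤ 1 →
      ∀ t₁ t₂, t₁ ∈ Ioo 0 T → t₂ ∈ Ioo 0 T → t₁ ≤ t₂ → T - t₁ ≤ τ₀ →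
      |EE p q T c α β θ₁ θ₂ t₂ - EE p q T c α β θ₁ θ₂ t₁| ≤
        C * ((1 / √(T - t₂) + ε / (T - t₂)) * ((t₂ - t₁) * Phi p q T c α β t₁) +
          (Phi p q T c α β t₁ - Phi p q T c α β t₂) / ε) := by
  obtain ⟨C, τ₀, hC, hτ₀, hτ₁, hb⟩ := EF_diff (p - 1) (q - 1) hα hβ hR hD
  refine ⟨C, τ₀, hC, hτ₀, hτ₁, ?_⟩
  intro θ₁ θ₂ ε b1 b2 hε hε1 t₁ t₂ h1 h2 h12 hτ
  have hj := fun j => hb T (rr c j) (ss c j) θ₁ θ₂ ε (toFam h hp hq j) b1 b2 hε hε1 t₁ t₂ h1 h2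
    h12 hτ
  unfold EE Phi
  rw [← Finset.sum_sub_distrib, ← Finset.sum_sub_distrib, Finset.mul_sum, Finset.mul_sum,
    Finset.sum_div, ← Finset.sum_add_distrib, Finset.mul_sum]
  exact (Finset.abs_sum_le_sum_abs _ _).trans (Finset.sum_le_sum fun j _ => hj j)

/-- The localised weighted lengths at two times have the same limit. -/
theorem EE_tendsto (h : PFlow p q T N c) (hp : 1 ≤ p) (hq : 1 ≤ q) (hT : 0 < T) {α β R D : ℝ}
    (hα : 0 ≤ α) (hβ : 0 ≤ β) (hR : 0 < R) (hD : 0 ≤ D) {θ₁ θ₂ : ℝ → ℝ} (b1 : IsBump θ₁ R D)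
    (b2 : IsBump θ₂ R D) {τ₁ τ₂ : ℝ} (hτ₂ : 0 < τ₂) (hτ : τ₂ ≤ τ₁) {l : ℕ → ℝ}
    (hl : Tendsto l atTop atTop) :
    Tendsto (fun i => EE p q T c α β θ₁ θ₂ (T - τ₂ / l i ^ 2) -
      EE p q T c α β θ₁ θ₂ (T - τ₁ / l i ^ 2)) atTop (𝓝 0) := by
  obtain ⟨C, τ₀, hC, hτ₀, hτ₀1, hb⟩ := EE_diff h hp hq hα hβ hR hD
  have hτ₁ : 0 < τ₁ := hτ₂.trans_le hτ
  have hinv : Tendsto (fun i => (l i ^ 2)⁻¹) atTop (𝓝 0) :=
    ((tendsto_pow_atTop (two_ne_zero)).comp hl).inv_tendsto_atTop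
  have hinv1 : Tendsto (fun i => (l i)⁻¹) atTop (𝓝 0) := hl.inv_tendsto_atTop
  have hlim : ∀ τ > 0, Tendsto (fun i => T - τ / l i ^ 2) atTop (𝓝[<] T) := by
    intro τ hτ0
    rw [tendsto_nhdsWithin_iff]
    constructor
    · have := (hinv.const_mul τ).const_sub T
      simpa [div_eq_mul_inv] using this
    · filter_upwards [hl.eventually_gt_atTop 0] with i hi
      have : 0 < τ / l i ^ 2 := by positivity
      exact mem_Iio.2 (by linarith)
  -- limit of `Phi`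
  obtain ⟨L, hL⟩ : ∃ L, Tendsto (Phi p q T c α β) (𝓝[<] T) (𝓝 L) := by
    refine ⟨_, AntitoneOn.tendsto_nhdsWithin_Ioo_left (nonempty_Ioo.2 hT)
      (Phi_anti h hp hq α β) ?_⟩
    refine ⟨0, ?_⟩
    rintro _ ⟨t, _, rfl⟩
    exact Phi_nonneg _ _ _ _ _ _ _
  have hΦ : Tendsto (fun i => Phi p q T c α β (T - τ₁ / l i ^ 2) -
      Phi p q T c α β (T - τ₂ / l i ^ 2)) atTop (𝓝 0) := by
    have := (hL.comp (hlim τ₁ hτ₁)).sub (hL.comp (hlim τ₂ hτ₂))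
    rw [sub_self] at this
    exact this
  set Φ₀ := Phi p q T c α β (T / 2) with hΦ₀
  have hΦ₀0 : 0 ≤ Φ₀ := Phi_nonneg _ _ _ _ _ _ _
  have hTh : T / 2 ∈ Ioo 0 T := ⟨by linarith, by linarith⟩
  rw [Metric.tendsto_atTop']
  intro δ hδ
  -- choice of ε
  set K : ℝ := C * ((τ₁ - τ₂) / τ₂ * Φ₀) with hK
  have hK0 : 0 ≤ K := by
    have : 0 ≤ τ₁ - τ₂ := by linarith
    positivity
  set ε : ℝ := min 1 (δ / (4 * (K + 1))) with hε
  have hε0 : 0 < ε := by positivity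
  have hε1 : ε ≤ 1 := min_le_left _ _
  have hεK : ε * K ≤ δ / 4 := by
    have h1 : ε ≤ δ / (4 * (K + 1)) := min_le_right _ _
    have h2 := mul_le_mul_of_nonneg_right h1 hK0
    refine h2.trans ?_
    rw [div_mul_eq_mul_div, div_le_div_iff₀ (by positivity) (by norm_num)]
    nlinarith
  have hev1 : ∀ᶠ i in atTop, C * ((τ₁ - τ₂) / √τ₂ * Φ₀) * (l i)⁻¹ < δ / 4 := by
    have h1 := hinv1.const_mul (C * ((τ₁ - τ₂) / √τ₂ * Φ₀))
    rw [mul_zero] at h1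
    exact h1.eventually_lt_const (by positivity)
  have hev2 : ∀ᶠ i in atTop, C / ε * (Phi p q T c α β (T - τ₁ / l i ^ 2) -
      Phi p q T c α β (T - τ₂ / l i ^ 2)) < δ / 4 := by
    have h1 := hΦ.const_mul (C / ε)
    rw [mul_zero] at h1
    exact h1.eventually_lt_const (by positivity)
  have hev3 : ∀ᶠ i in atTop, T - τ₁ / l i ^ 2 ∈ Ioo (T / 2) T :=
    (hlim τ₁ hτ₁).eventually (Ioo_mem_nhdsLT (by linarith))
  have hev4 : ∀ᶠ i in atTop, τ₁ / l i ^ 2 ≤ τ₀ := by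
    have h1 := hinv.const_mul τ₁
    rw [mul_zero] at h1
    filter_upwards [h1.eventually_lt_const hτ₀] with i hi
    rw [div_eq_mul_inv]
    exact hi.le
  have hall := (((hev1.and hev2).and hev3).and hev4).and (hl.eventually_gt_atTop 0)
  obtain ⟨n, hn⟩ := eventually_atTop.1 hall
  refine ⟨n, fun i hi => ?_⟩
  obtain ⟨⟨⟨⟨e1, e2⟩, e3⟩, e4⟩, e5⟩ := hn i hi.le
  rw [dist_zero_right, Real.norm_eq_abs]
  have hli := e5
  have h12 : T - τ₁ / l i ^ 2 ≤ T - τ₂ / l i ^ 2 := by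
    have : τ₂ / l i ^ 2 ≤ τ₁ / l i ^ 2 := by gcongr
    linarith
  have ht1 : T - τ₁ / l i ^ 2 ∈ Ioo 0 T := ⟨by linarith [e3.1], e3.2⟩
  have ht2 : T - τ₂ / l i ^ 2 ∈ Ioo 0 T := by
    refine ⟨ht1.1.trans_le h12, ?_⟩
    have : 0 < τ₂ / l i ^ 2 := by positivity
    linarith
  have hmain := hb θ₁ θ₂ ε b1 b2 hε0 hε1 _ _ ht1 ht2 h12 (by linarith)
  have hΦ1 : Phi p q T c α β (T - τ₁ / l i ^ 2) ≤ Φ₀ := Phi_anti h hp hq α β hTh ht1 e3.1.le
  have hΦ10 : 0 ≤ Phi p q T c α β (T - τ₁ / l i ^ 2) := Phi_nonneg _ _ _ _ _ _ _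
  refine hmain.trans_lt ?_
  have f1 : T - (T - τ₂ / l i ^ 2) = τ₂ / l i ^ 2 := by ring
  have f2 : T - τ₂ / l i ^ 2 - (T - τ₁ / l i ^ 2) = (τ₁ - τ₂) / l i ^ 2 := by ring
  have f3 : √(τ₂ / l i ^ 2) = √τ₂ / l i := by
    rw [Real.sqrt_div hτ₂.le, Real.sqrt_sq hli.le]
  rw [f1, f2, f3]
  have hsτ : 0 < √τ₂ := Real.sqrt_pos.2 hτ₂
  have f4 : (1 / (√τ₂ / l i) + ε / (τ₂ / l i ^ 2)) * ((τ₁ - τ₂) / l i ^ 2 *
      Phi p q T c α β (T - τ₁ / l i ^ 2)) = ((τ₁ - τ₂) / √τ₂ * (l i)⁻¹ + ε * ((τ₁ - τ₂) / τ₂)) *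
      Phi p q T c α β (T - τ₁ / l i ^ 2) := by
    field_simp
  rw [f4]
  have hdiff : 0 ≤ τ₁ - τ₂ := by linarith
  have f5 : ((τ₁ - τ₂) / √τ₂ * (l i)⁻¹ + ε * ((τ₁ - τ₂) / τ₂)) *
      Phi p q T c α β (T - τ₁ / l i ^ 2) ≤
      ((τ₁ - τ₂) / √τ₂ * (l i)⁻¹ + ε * ((τ₁ - τ₂) / τ₂)) * Φ₀ := by
    apply mul_le_mul_of_nonneg_left hΦ1
    positivity
  have f6 := mul_le_mul_of_nonneg_left f5 hC.le
  rw [hK] at hεK
  calc C * (((τ₁ - τ₂) / √τ₂ * (l i)⁻¹ + ε * ((τ₁ - τ₂) / τ₂)) *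
      Phi p q T c α β (T - τ₁ / l i ^ 2) +
      (Phi p q T c α β (T - τ₁ / l i ^ 2) - Phi p q T c α β (T - τ₂ / l i ^ 2)) / ε)
      = C * (((τ₁ - τ₂) / √τ₂ * (l i)⁻¹ + ε * ((τ₁ - τ₂) / τ₂)) *
      Phi p q T c α β (T - τ₁ / l i ^ 2)) + C / ε *
      (Phi p q T c α β (T - τ₁ / l i ^ 2) - Phi p q T c α β (T - τ₂ / l i ^ 2)) := by ring
    _ ≤ C * (((τ₁ - τ₂) / √τ₂ * (l i)⁻¹ + ε * ((τ₁ - τ₂) / τ₂)) * Φ₀) + δ / 4 := by
        linarith
    _ = C * ((τ₁ - τ₂) / √τ₂ * Φ₀) * (l i)⁻¹ + ε * (C * ((τ₁ - τ₂) / τ₂ * Φ₀)) + δ / 4 := by ring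
    _ < δ := by linarith

end Pool.Agent.Helper532_SymMCF

end

section

/-!
Comparison of the area of the rescaled hypersurfaces with the weighted length of the profile.
-/

open Set Filter MeasureTheory Topology Metric Module
open scoped ContDiff NNReal ENNReal RealInnerProductSpace

namespace Pool.Agent.Helper532_SymMCF

/-- weight of one factor, in rescaled coordinates -/
noncomputable def fw (m : ℕ) (α l r : ℝ) : ℝ := Real.exp (dl m α * Real.log l) * |r| ^ m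

theorem fw_nonneg (m : ℕ) (α l r : ℝ) : 0 ≤ fw m α l r := by unfold fw; positivity

theorem fw_zero (m : ℕ) {l : ℝ} (hl : 0 < l) (r : ℝ) : fw m 0 l r = |l * r| ^ m := by
  unfold fw dl
  rw [if_pos rfl, abs_mul, mul_pow, abs_of_pos hl, mul_comm (m : ℝ), ← Real.rpow_def_of_pos hl,
    Real.rpow_natCast]

theorem fw_ne {m : ℕ} {α : ℝ} (hα : α ≠ 0) (l r : ℝ) : fw m α l r = |r| ^ m := by
  unfold fw dl
  rw [if_neg hα, zero_mul, Real.exp_zero, one_mul]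

/-- In the nondegenerate case the weight of a factor is bounded above and below. -/
theorem fw_bd (m : ℕ) {α ζ κ : ℝ} (hα : 0 ≤ α) (hζ : α = 0 → 2 * κ ≤ ζ) (hκ : 0 < κ) :
    ∃ c C : ℝ, 0 < c ∧ 0 < C ∧ ∀ᶠ l : ℝ in atTop, ∀ r, |l * (r - α) - ζ| ≤ κ →
      c ≤ fw m α l r ∧ fw m α l r ≤ C := by
  rcases hα.eq_or_lt with h0 | h0
  · subst h0
    have hζ' := hζ rfl
    have hζ0 : 0 < ζ := by linarith
    refine ⟨(ζ / 2) ^ m, (2 * ζ) ^ m, by positivity, by positivity, ?_⟩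
    filter_upwards [eventually_gt_atTop 0] with l hl r hr
    rw [sub_zero] at hr
    have h1 := abs_le.1 hr
    have h2 : 0 < l * r := by linarith [h1.1]
    rw [fw_zero m hl, abs_of_pos h2]
    exact ⟨pow_le_pow_left₀ (by linarith) (by linarith [h1.1]) m,
      pow_le_pow_left₀ h2.le (by linarith [h1.2]) m⟩
  · refine ⟨(α / 2) ^ m, (2 * α) ^ m, by positivity, by positivity, ?_⟩
    filter_upwards [eventually_gt_atTop 0, eventually_ge_atTop (2 * (κ + |ζ|) / α)] with l hl hl2 r hr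
    rw [div_le_iff₀ h0] at hl2
    have h1 : |l * (r - α)| ≤ κ + |ζ| := by
      have := abs_sub_abs_le_abs_sub (l * (r - α)) ζ
      linarith
    rw [abs_mul, abs_of_pos hl] at h1
    have h2 : |r - α| ≤ α / 2 := by
      have h3 : l * |r - α| ≤ l * (α / 2) := by linarith
      exact le_of_mul_le_mul_left h3 hl
    have h3 := abs_le.1 h2
    have h4 : 0 < r := by linarith [h3.1]
    rw [fw_ne h0.ne', abs_of_pos h4]
    exact ⟨pow_le_pow_left₀ (by linarith) (by linarith [h3.1]) m,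
      pow_le_pow_left₀ h4.le (by linarith [h3.2]) m⟩

variable {p q N : ℕ} {T : ℝ} {c : Fin N → ℝ → ℝ → ℂ}

/-- test function of the plane -/
noncomputable def tst (τ : ℝ) (θ₁ θ₂ : ℝ → ℝ) (ζ : ℂ) : ℝ := θ₁ (ζ.re / √τ) * θ₂ (ζ.im / √τ)

theorem tF_eq (h : PFlow p q T N c) {α β τ l : ℝ} (hτ : 0 < τ) (hl : 0 < l)
    (ht : T - τ / l ^ 2 ∈ Ioo 0 T) (θ₁ θ₂ : ℝ → ℝ) (j : Fin N) (u : ℝ) :
    tF (1 + dl (p - 1 : ℕ) α + dl (q - 1 : ℕ) β) T α β θ₁ θ₂ (rr c j) (ss c j)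
      (T - τ / l ^ 2, u) * ww (p - 1) (q - 1) (rr c j) (ss c j) (T - τ / l ^ 2, u) *
      spd (rr c j) (ss c j) (T - τ / l ^ 2, u) =
    Real.exp (-((1 + dl (p - 1 : ℕ) α + dl (q - 1 : ℕ) β) / 2) * Real.log τ) *
      (tst τ θ₁ θ₂ (l • c j (T - τ / l ^ 2) u - l • (⟨α, β⟩ : ℂ)) *
        (fw (p - 1) α l (c j (T - τ / l ^ 2) u).re * fw (q - 1) β l (c j (T - τ / l ^ 2) u).im) *
        ‖l • deriv (c j (T - τ / l ^ 2)) u‖) := by
  set t := T - τ / l ^ 2 with htdef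
  have hTt : T - t = τ / l ^ 2 := by rw [htdef]; ring
  have hspd : spd (rr c j) (ss c j) (t, u) = ‖deriv (c j t) u‖ := spd_eq h j ht u
  have hr : rr c j (t, u) = (c j t u).re := rfl
  have hs : ss c j (t, u) = (c j t u).im := rfl
  have hsq : √(τ / l ^ 2) = √τ / l := by rw [Real.sqrt_div hτ.le, Real.sqrt_sq hl.le]
  have e1 : (l • c j t u - l • (⟨α, β⟩ : ℂ)).re / √τ = ((c j t u).re - α) / (√τ / l) := by
    simp only [Complex.sub_re, Complex.smul_re, smul_eq_mul]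
    field_simp
  have e2 : (l • c j t u - l • (⟨α, β⟩ : ℂ)).im / √τ = ((c j t u).im - β) / (√τ / l) := by
    simp only [Complex.sub_im, Complex.smul_im, smul_eq_mul]
    field_simp
  have e3 : Real.exp (-((1 + dl (p - 1 : ℕ) α + dl (q - 1 : ℕ) β) / 2) * Real.log (τ / l ^ 2)) =
      Real.exp (-((1 + dl (p - 1 : ℕ) α + dl (q - 1 : ℕ) β) / 2) * Real.log τ) *
      (l * (Real.exp (dl (p - 1 : ℕ) α * Real.log l) *
        Real.exp (dl (q - 1 : ℕ) β * Real.log l))) := by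
    have e4 : ∀ A B C : ℝ, Real.exp A * (l * (Real.exp B * Real.exp C)) =
        Real.exp (A + (Real.log l + (B + C))) := by
      intro A B C
      rw [Real.exp_add, Real.exp_add, Real.exp_add, Real.exp_log hl]
    rw [e4, Real.log_div hτ.ne' (by positivity), Real.log_pow]
    congr 1
    push_cast
    ring
  unfold tF ww Ex Xc tst fw
  simp only [hTt, hspd, hr, hs]
  rw [hsq, e1, e2, e3, norm_smul, Real.norm_eq_abs, abs_of_pos hl]
  ring

/-- the localised weighted length in rescaled coordinates -/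
theorem EE_eq (h : PFlow p q T N c) {α β τ l : ℝ} (hτ : 0 < τ) (hl : 0 < l)
    (ht : T - τ / l ^ 2 ∈ Ioo 0 T) (θ₁ θ₂ : ℝ → ℝ) :
    EE p q T c α β θ₁ θ₂ (T - τ / l ^ 2) =
    Real.exp (-((1 + dl (p - 1 : ℕ) α + dl (q - 1 : ℕ) β) / 2) * Real.log τ) *
      ∑ j, ∫ u in (0 : ℝ)..1, tst τ θ₁ θ₂ (l • c j (T - τ / l ^ 2) u - l • (⟨α, β⟩ : ℂ)) *
        (fw (p - 1) α l (c j (T - τ / l ^ 2) u).re * fw (q - 1) β l (c j (T - τ / l ^ 2) u).im) *
        ‖l • deriv (c j (T - τ / l ^ 2)) u‖ := by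
  unfold EE EF
  rw [Finset.mul_sum]
  refine Finset.sum_congr rfl fun j _ => ?_
  rw [← intervalIntegral.integral_const_mul]
  apply intervalIntegral.integral_congr
  intro u _
  exact tF_eq h hτ hl ht θ₁ θ₂ j u

end Pool.Agent.Helper532_SymMCF

end

section

/-!
Upper bounds of the area of the rescaled hypersurfaces by the weighted length of the profile.
-/

open Set Filter MeasureTheory Topology Metric Module
open scoped ContDiff NNReal ENNReal RealInnerProductSpace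

namespace Pool.Agent.Helper532_SymMCF

variable {p q N : ℕ} {T : ℝ} {c : Fin N → ℝ → ℝ → ℂ}

theorem Qm_prof' {x₀ : V p q} {l : ℝ} (hl : 0 < l) (Z : V p q) :
    Qm x₀ l Z + l • prof x₀ = ⟨‖l • pr₁ x₀ + pr₁ Z‖, ‖l • pr₂ x₀ + pr₂ Z‖⟩ := by
  have e1 : ∀ {d : ℕ} (a z : EuclideanSpace ℝ (Fin d)), l * ‖a + l⁻¹ • z‖ = ‖l • a + z‖ := by
    intro d a z
    have : l • a + z = l • (a + l⁻¹ • z) := by
      rw [smul_add, smul_smul, mul_inv_cancel₀ hl.ne', one_smul]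
    rw [this, norm_smul, Real.norm_eq_abs, abs_of_pos hl]
  apply Complex.ext
  · simp only [Qm, rsc, Complex.add_re, Complex.smul_re, smul_eq_mul, prof, rad₁_eq]
    rw [← e1]; ring
  · simp only [Qm, rsc, Complex.add_im, Complex.smul_im, smul_eq_mul, prof, rad₂_eq]
    rw [← e1]; ring

theorem exists_pos' {F : Type*} [NormedAddCommGroup F] [InnerProductSpace ℝ F] (x w : F)
    (h1 : x = 0 → w ≠ 0) :
    ∃ (e : F) (M r' : ℝ) (ρ : ℝ → ℝ), ‖e‖ = 1 ∧ 0 ≤ M ∧ 0 < r' ∧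
      ∀ᶠ l : ℝ in atTop, 0 < ρ l ∧ M ≤ ρ l / 2 ∧ ∀ z : F, ‖z - w‖ ≤ r' →
        ‖l • x + z - ρ l • e‖ ≤ M := by
  by_cases ha : x = 0
  · have hW := norm_pos_iff.2 (h1 ha)
    refine ⟨‖w‖⁻¹ • w, ‖w‖ / 2, ‖w‖ / 2, fun _ => ‖w‖, ?_, by positivity, by positivity, ?_⟩
    · rw [norm_smul, norm_inv, norm_norm, inv_mul_cancel₀ hW.ne']
    · refine Eventually.of_forall fun l => ⟨hW, le_refl _, fun z hz => ?_⟩
      rw [ha, smul_zero, zero_add, smul_smul, mul_inv_cancel₀ hW.ne', one_smul]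
      exact hz
  · have ha0 := norm_pos_iff.2 ha
    refine ⟨‖x‖⁻¹ • x, ‖w‖ + 1, 1, fun l => l * ‖x‖, ?_, by positivity, one_pos, ?_⟩
    · rw [norm_smul, norm_inv, norm_norm, inv_mul_cancel₀ ha0.ne']
    · filter_upwards [eventually_gt_atTop 0, eventually_ge_atTop (2 * (‖w‖ + 1) / ‖x‖)]
        with l hl hl2
      refine ⟨by positivity, ?_, fun z hz => ?_⟩
      · rw [div_le_iff₀ ha0] at hl2
        linarith
      · have e1 : (l * ‖x‖) • ‖x‖⁻¹ • x = l • x := by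
          rw [smul_smul, mul_assoc, mul_inv_cancel₀ ha0.ne', mul_one]
        rw [e1, add_sub_cancel_left]
        have := norm_add_le (z - w) w
        rw [sub_add_cancel] at this
        linarith

theorem area_curve₂' (hp : 1 ≤ p) (hq : 1 ≤ q) {e : EuclideanSpace ℝ (Fin p)} (he : ‖e‖ = 1)
    {e' : EuclideanSpace ℝ (Fin q)} (he' : ‖e'‖ = 1) :
    ∃ C : ℝ≥0, ∀ (b : EuclideanSpace ℝ (Fin p)) (b' : EuclideanSpace ℝ (Fin q))
      (ρ M ρ' M' δ₀ : ℝ) (P P' : ℝ → ℂ) (K : Set ℂ)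
      (χ : ℂ → ℝ), 0 < ρ → 0 ≤ M → M ≤ ρ / 2 → 0 < ρ' → 0 ≤ M' → M' ≤ ρ' / 2 →
      (∀ u, HasDerivAt P (P' u) u) → Continuous P' →
      Continuous χ → (∀ z, 0 ≤ χ z) → 0 < δ₀ → (∀ w ∈ K, ∀ z, dist z w ≤ δ₀ → 1 ≤ χ z) →
      μH[(p + q - 1 : ℕ)] {Z : V p q | ‖b + pr₁ Z - ρ • e‖ ≤ M ∧
        ‖b' + pr₂ Z - ρ' • e'‖ ≤ M' ∧
        (⟨‖b + pr₁ Z‖, ‖b' + pr₂ Z‖⟩ : ℂ) ∈ K ∧
        ∃ u ∈ Icc (0 : ℝ) 1, P u = ⟨‖b + pr₁ Z‖, ‖b' + pr₂ Z‖⟩} ≤
      C * ENNReal.ofReal (M ^ (p - 1) * M' ^ (q - 1) * ∫ u in (0 : ℝ)..1, χ (P u) * ‖P' u‖) := by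
  obtain ⟨m₁, rfl⟩ : ∃ m₁, p = m₁ + 1 := ⟨p - 1, by omega⟩
  obtain ⟨m₂, rfl⟩ : ∃ m₂, q = m₂ + 1 := ⟨q - 1, by omega⟩
  have e1 : m₁ + 1 + (m₂ + 1) - 1 = m₁ + m₂ + 1 := by omega
  rw [e1]
  simp only [Nat.add_sub_cancel]
  exact area_curve₂ he he'

/-- The rescaled hypersurface at time `-τ`. -/
def Bl (p q : ℕ) {N : ℕ} (T : ℝ) (c : Fin N → ℝ → ℝ → ℂ) (x₀ : V p q) (τ l : ℝ) : Set (V p q) :=
  {z | Qm x₀ l z ∈ {ζ : ℂ | ∃ j u, ζ = l • (c j (T - τ / l ^ 2) u - prof x₀)}}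

theorem fract_per (h : PFlow p q T N c) {t : ℝ} (ht : t ∈ Ioo 0 T) (j : Fin N) (u : ℝ) :
    c j t (Int.fract u) = c j t u := by
  have hP : Function.Periodic (c j t) 1 := h.periodic j t (Ioo_subset_Ico_self ht)
  have := hP.sub_zsmul_eq (n := ⌊u⌋) (x := u)
  rw [zsmul_one] at this
  exact this

/-- Upper bound, in the nondegenerate case. -/
theorem upper_N (h : PFlow p q T N c) (hp : 1 ≤ p) (hq : 1 ≤ q) {x₀ W : V p q}
    (h1 : pr₁ x₀ = 0 → pr₁ W ≠ 0) (h2 : pr₂ x₀ = 0 → pr₂ W ≠ 0) {τ κ η : ℝ} (hτ : 0 < τ)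
    (hκ : 0 < κ) (hη : 0 < η) (hκ1 : rad₁ x₀ = 0 → 2 * κ ≤ (Pm x₀ W).re)
    (hκ2 : rad₂ x₀ = 0 → 2 * κ ≤ (Pm x₀ W).im) {θ₁ θ₂ : ℝ → ℝ} (c1 : Continuous θ₁)
    (c2 : Continuous θ₂) (n1 : ∀ x, 0 ≤ θ₁ x) (n2 : ∀ x, 0 ≤ θ₂ x)
    (o1 : ∀ x, |x - (Pm x₀ W).re / √τ| ≤ η → 1 ≤ θ₁ x)
    (o2 : ∀ x, |x - (Pm x₀ W).im / √τ| ≤ η → 1 ≤ θ₂ x)
    (s1 : ∀ x, θ₁ x ≠ 0 → |x - (Pm x₀ W).re / √τ| ≤ κ / √τ)
    (s2 : ∀ x, θ₂ x ≠ 0 → |x - (Pm x₀ W).im / √τ| ≤ κ / √τ) :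
    ∃ (C : ℝ≥0) (r : ℝ), 0 < r ∧ ∀ᶠ l : ℝ in atTop, T - τ / l ^ 2 ∈ Ioo 0 T →
      μH[(p + q - 1 : ℕ)] (closedBall W r ∩ Bl p q T c x₀ τ l) ≤
        C * ENNReal.ofReal (EE p q T c (rad₁ x₀) (rad₂ x₀) θ₁ θ₂ (T - τ / l ^ 2)) := by
  have hα : 0 ≤ rad₁ x₀ := Real.sqrt_nonneg _
  have hβ : 0 ≤ rad₂ x₀ := Real.sqrt_nonneg _
  set α := rad₁ x₀ with hαdef
  set β := rad₂ x₀ with hβdef
  have hprof : prof x₀ = ⟨α, β⟩ := rfl
  set ζ := Pm x₀ W with hζ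
  have hsτ : 0 < √τ := Real.sqrt_pos.2 hτ
  obtain ⟨e, M, r', ρ, he, hM, hr', hpos⟩ := exists_pos' (pr₁ x₀) (pr₁ W) h1
  obtain ⟨e', M', r'', ρ', he', hM', hr'', hpos'⟩ := exists_pos' (pr₂ x₀) (pr₂ W) h2
  obtain ⟨Ca, hCa⟩ := area_curve₂' (p := p) (q := q) hp hq he he'
  obtain ⟨a₁, A₁, ha₁, hA₁, hfw1⟩ := fw_bd (p - 1) hα hκ1 hκ
  obtain ⟨a₂, A₂, ha₂, hA₂, hfw2⟩ := fw_bd (q - 1) hβ hκ2 hκ
  set r₁ : ℝ := η * √τ / 2 with hr₁
  have hr₁0 : 0 < r₁ := by positivity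
  obtain ⟨r₃, hr₃, hPm⟩ := Metric.continuousAt_iff.1 ((Pm_continuous x₀).continuousAt (x := W))
    (r₁ / 2) (by positivity)
  set r : ℝ := min (min r' r'') (r₃ / 2) with hr
  have hr0 : 0 < r := by positivity
  have hrr' : r ≤ r' := (min_le_left _ _).trans (min_le_left _ _)
  have hrr'' : r ≤ r'' := (min_le_left _ _).trans (min_le_right _ _)
  have hrr₃ : r < r₃ := by
    have := min_le_right (min r' r'') (r₃ / 2)
    linarith
  set Kτ : ℝ := Real.exp (-((1 + dl (p - 1 : ℕ) α + dl (q - 1 : ℕ) β) / 2) * Real.log τ) with hKτ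
  have hKτ0 : 0 < Kτ := Real.exp_pos _
  set C₁ : ℝ := M ^ (p - 1) * M' ^ (q - 1) / (a₁ * a₂ * Kτ) with hC₁
  have hC₁0 : 0 ≤ C₁ := by positivity
  refine ⟨Ca * Real.toNNReal C₁, r, hr0, ?_⟩
  filter_upwards [hpos, hpos', hfw1, hfw2, eventually_gt_atTop 0,
    Qm_conv x₀ (R := ‖W‖ + r) (by positivity) (ε := r₁ / 2) (by positivity)]
    with l hposl hposl' hf1 hf2 hli hconv ht
  obtain ⟨hρl, hMρ, hposZ⟩ := hposl
  obtain ⟨hρl', hMρ', hposZ'⟩ := hposl'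
  set t := T - τ / l ^ 2 with htdef
  set a₀ : ℂ := l • (⟨α, β⟩ : ℂ) with ha₀
  set K : Set ℂ := closedBall (ζ + a₀) r₁ with hK
  set χ₂ : ℂ → ℝ := fun z => tst τ θ₁ θ₂ (z - a₀) with hχ₂
  have hχc : Continuous χ₂ := by
    simp only [hχ₂, tst]
    exact (c1.comp ((Complex.continuous_re.comp (continuous_id.sub continuous_const)).div_const
      _)).mul (c2.comp ((Complex.continuous_im.comp (continuous_id.sub continuous_const)).div_const
      _))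
  have hχ0 : ∀ z, 0 ≤ χ₂ z := fun z => mul_nonneg (n1 _) (n2 _)
  have hχ₂K : ∀ w ∈ K, ∀ z, dist z w ≤ r₁ → 1 ≤ χ₂ z := by
    intro w hw z hz
    have h3 : ‖z - a₀ - ζ‖ ≤ η * √τ := by
      rw [hK, mem_closedBall, dist_eq_norm] at hw
      rw [dist_eq_norm] at hz
      have e1 : z - a₀ - ζ = (z - w) + (w - (ζ + a₀)) := by ring
      rw [e1]
      refine (norm_add_le _ _).trans ?_
      rw [hr₁] at hz hw
      linarith
    have h4 := (Complex.abs_re_le_norm _).trans h3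
    have h5 := (Complex.abs_im_le_norm _).trans h3
    have e2 : ∀ x y : ℝ, |x - y| ≤ η * √τ → |x / √τ - y / √τ| ≤ η := by
      intro x y hxy
      rw [← sub_div, abs_div, abs_of_pos hsτ, div_le_iff₀ hsτ]
      exact hxy
    have h6 := o1 _ (e2 _ _ (by simpa using h4))
    have h7 := o2 _ (e2 _ _ (by simpa using h5))
    simp only [hχ₂, tst]
    exact one_le_mul_of_one_le_of_one_le h6 h7
  have hPd : ∀ j u, HasDerivAt (fun u => l • c j t u) (l • deriv (c j t) u) u := fun j u =>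
    (((h.slice j ht).differentiable (by simp) u).hasDerivAt).const_smul l
  have hPc : ∀ j, Continuous fun u => l • deriv (c j t) u := fun j =>
    ((h.slice j ht).continuous_deriv (by simp)).const_smul l
  set I : Fin N → ℝ := fun j => ∫ u in (0 : ℝ)..1, tst τ θ₁ θ₂ (l • c j t u - a₀) *
        (fw (p - 1) α l (c j t u).re * fw (q - 1) β l (c j t u).im) * ‖l • deriv (c j t) u‖ with hI
  have hEE : EE p q T c α β θ₁ θ₂ t = Kτ * ∑ j, I j := EE_eq h hτ hli ht θ₁ θ₂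
  have hI0 : ∀ j, 0 ≤ I j := by
    intro j
    apply intervalIntegral.integral_nonneg zero_le_one
    intro u _
    exact mul_nonneg (mul_nonneg (hχ0 (l • c j t u)) (mul_nonneg (fw_nonneg _ _ _ _)
      (fw_nonneg _ _ _ _))) (norm_nonneg _)
  have hA : ∀ j, μH[(p + q - 1 : ℕ)] {Z : V p q | ‖l • pr₁ x₀ + pr₁ Z - ρ l • e‖ ≤ M ∧
      ‖l • pr₂ x₀ + pr₂ Z - ρ' l • e'‖ ≤ M' ∧
      (⟨‖l • pr₁ x₀ + pr₁ Z‖, ‖l • pr₂ x₀ + pr₂ Z‖⟩ : ℂ) ∈ K ∧ ∃ u ∈ Icc (0 : ℝ) 1,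
        l • c j t u = ⟨‖l • pr₁ x₀ + pr₁ Z‖, ‖l • pr₂ x₀ + pr₂ Z‖⟩} ≤
      Ca * ENNReal.ofReal (C₁ * (Kτ * I j)) := by
    intro j
    refine (hCa (l • pr₁ x₀) (l • pr₂ x₀) (ρ l) M (ρ' l) M' r₁ (fun u => l • c j t u)
      (fun u => l • deriv (c j t) u) K χ₂ hρl hM hMρ hρl' hM' hMρ' (hPd j) (hPc j) hχc hχ0 hr₁0
      hχ₂K).trans ?_
    refine mul_le_mul' (le_refl _) (ENNReal.ofReal_le_ofReal ?_)
    have e1 : C₁ * (Kτ * I j) = M ^ (p - 1) * M' ^ (q - 1) * ((a₁ * a₂)⁻¹ * I j) := by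
      rw [hC₁]
      field_simp
    rw [e1]
    apply mul_le_mul_of_nonneg_left _ (by positivity)
    rw [hI, ← intervalIntegral.integral_const_mul]
    have hcj : Continuous (c j t) := (h.slice j ht).continuous
    apply intervalIntegral.integral_mono_on zero_le_one
    · exact ((hχc.comp (hcj.const_smul l)).mul (hPc j).norm).intervalIntegrable _ _
    · apply Continuous.intervalIntegrable
      apply continuous_const.mul
      apply Continuous.mul _ (hPc j).norm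
      apply (hχc.comp (hcj.const_smul l)).mul
      unfold fw
      exact (continuous_const.mul ((Complex.continuous_re.comp hcj).abs.pow _)).mul
        (continuous_const.mul ((Complex.continuous_im.comp hcj).abs.pow _))
    · intro u _
      by_cases hz : χ₂ (l • c j t u) = 0
      · have hz' : tst τ θ₁ θ₂ (l • c j t u - a₀) = 0 := hz
        simp only [hz, hz', zero_mul, mul_zero, le_refl]
      · have hz' : tst τ θ₁ θ₂ (l • c j t u - a₀) ≠ 0 := hz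
        simp only [tst] at hz'
        have g1 := s1 _ (left_ne_zero_of_mul hz')
        have g2 := s2 _ (right_ne_zero_of_mul hz')
        have e2 : ∀ x y : ℝ, |x / √τ - y / √τ| ≤ κ / √τ → |x - y| ≤ κ := by
          intro x y hxy
          rw [← sub_div, abs_div, abs_of_pos hsτ] at hxy
          exact (div_le_div_iff_of_pos_right hsτ).1 hxy
        have g1' := e2 _ _ g1
        have g2' := e2 _ _ g2
        have e3 : (l • c j t u - a₀).re = l * ((c j t u).re - α) := by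
          simp only [ha₀, Complex.sub_re, Complex.smul_re, smul_eq_mul]; ring
        have e4 : (l • c j t u - a₀).im = l * ((c j t u).im - β) := by
          simp only [ha₀, Complex.sub_im, Complex.smul_im, smul_eq_mul]; ring
        rw [e3] at g1'
        rw [e4] at g2'
        have k1 := (hf1 _ g1').1
        have k2 := (hf2 _ g2').1
        have k3 : 1 ≤ (a₁ * a₂)⁻¹ * (fw (p - 1) α l (c j t u).re * fw (q - 1) β l (c j t u).im) := by
          rw [inv_mul_eq_div, one_le_div (by positivity)]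
          exact mul_le_mul k1 k2 ha₂.le (fw_nonneg _ _ _ _)
        have k4 : 0 ≤ χ₂ (l • c j t u) * ‖l • deriv (c j t) u‖ :=
          mul_nonneg (hχ0 _) (norm_nonneg _)
        calc χ₂ (l • c j t u) * ‖l • deriv (c j t) u‖
            ≤ χ₂ (l • c j t u) * ‖l • deriv (c j t) u‖ * ((a₁ * a₂)⁻¹ *
              (fw (p - 1) α l (c j t u).re * fw (q - 1) β l (c j t u).im)) :=
              le_mul_of_one_le_right k4 k3
          _ = (a₁ * a₂)⁻¹ * (tst τ θ₁ θ₂ (l • c j t u - a₀) *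
              (fw (p - 1) α l (c j t u).re * fw (q - 1) β l (c j t u).im) *
              ‖l • deriv (c j t) u‖) := by
              simp only [hχ₂]; ring
  have hcov : closedBall W r ∩ Bl p q T c x₀ τ l ⊆
      ⋃ j : Fin N, {Z : V p q | ‖l • pr₁ x₀ + pr₁ Z - ρ l • e‖ ≤ M ∧
      ‖l • pr₂ x₀ + pr₂ Z - ρ' l • e'‖ ≤ M' ∧
      (⟨‖l • pr₁ x₀ + pr₁ Z‖, ‖l • pr₂ x₀ + pr₂ Z‖⟩ : ℂ) ∈ K ∧ ∃ u ∈ Icc (0 : ℝ) 1,
        l • c j t u = ⟨‖l • pr₁ x₀ + pr₁ Z‖, ‖l • pr₂ x₀ + pr₂ Z‖⟩} := by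
    rintro Z ⟨hZ1, j, u, hZ2⟩
    rw [mem_closedBall] at hZ1
    rw [mem_iUnion]
    have hZn : ‖Z‖ ≤ ‖W‖ + r := by
      rw [dist_eq_norm] at hZ1
      have := norm_add_le W (Z - W)
      rw [add_sub_cancel] at this
      linarith
    have hQP := Qm_prof' (x₀ := x₀) hli Z
    have hd1 : ‖pr₁ Z - pr₁ W‖ ≤ r := by
      rw [← map_sub]; exact (norm_pr₁_le _).trans (by rw [← dist_eq_norm]; exact hZ1)
    have hd2 : ‖pr₂ Z - pr₂ W‖ ≤ r := by
      rw [← map_sub]; exact (norm_pr₂_le _).trans (by rw [← dist_eq_norm]; exact hZ1)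
    refine ⟨j, hposZ _ (hd1.trans hrr'), hposZ' _ (hd2.trans hrr''), ?_, Int.fract u,
      ⟨Int.fract_nonneg u, (Int.fract_lt_one u).le⟩, ?_⟩
    · rw [← hQP, hprof, hK, mem_closedBall, dist_eq_norm, ← ha₀, add_sub_add_right_eq_sub]
      have b1 := hconv Z hZn
      have b2 := hPm (hZ1.trans_lt hrr₃)
      rw [dist_eq_norm] at b2
      have b3 := norm_sub_le_norm_sub_add_norm_sub (Qm x₀ l Z) (Pm x₀ Z) ζ
      linarith
    · rw [fract_per h ht, ← hQP, hZ2, smul_sub, sub_add_cancel]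
  calc μH[(p + q - 1 : ℕ)] (closedBall W r ∩ Bl p q T c x₀ τ l)
      ≤ μH[(p + q - 1 : ℕ)] (⋃ j : Fin N, {Z : V p q |
        ‖l • pr₁ x₀ + pr₁ Z - ρ l • e‖ ≤ M ∧
        ‖l • pr₂ x₀ + pr₂ Z - ρ' l • e'‖ ≤ M' ∧
        (⟨‖l • pr₁ x₀ + pr₁ Z‖, ‖l • pr₂ x₀ + pr₂ Z‖⟩ : ℂ) ∈ K ∧ ∃ u ∈ Icc (0 : ℝ) 1,
        l • c j t u = ⟨‖l • pr₁ x₀ + pr₁ Z‖, ‖l • pr₂ x₀ + pr₂ Z‖⟩}) := measure_mono hcov
    _ ≤ ∑ j : Fin N, μH[(p + q - 1 : ℕ)] {Z : V p q |
        ‖l • pr₁ x₀ + pr₁ Z - ρ l • e‖ ≤ M ∧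
        ‖l • pr₂ x₀ + pr₂ Z - ρ' l • e'‖ ≤ M' ∧
        (⟨‖l • pr₁ x₀ + pr₁ Z‖, ‖l • pr₂ x₀ + pr₂ Z‖⟩ : ℂ) ∈ K ∧ ∃ u ∈ Icc (0 : ℝ) 1,
        l • c j t u = ⟨‖l • pr₁ x₀ + pr₁ Z‖, ‖l • pr₂ x₀ + pr₂ Z‖⟩} :=
        measure_iUnion_fintype_le _ _
    _ ≤ ∑ j : Fin N, Ca * ENNReal.ofReal (C₁ * (Kτ * I j)) := Finset.sum_le_sum fun j _ => hA j
    _ = (Ca * Real.toNNReal C₁ : ℝ≥0) * ENNReal.ofReal (EE p q T c α β θ₁ θ₂ t) := by
        rw [← Finset.mul_sum, ← ENNReal.ofReal_sum_of_nonneg]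
        · rw [hEE, ← Finset.mul_sum, ← Finset.mul_sum, ENNReal.ofReal_mul hC₁0]
          push_cast
          rw [mul_assoc]
          rfl
        · intro j _
          have := hI0 j
          positivity

end Pool.Agent.Helper532_SymMCF

end

section

/-!
Upper bounds of the area of the rescaled hypersurfaces near an axis of rotation.
-/

open Set Filter MeasureTheory Topology Metric Module
open scoped ContDiff NNReal ENNReal RealInnerProductSpace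

namespace Pool.Agent.Helper532_SymMCF

variable {p q N : ℕ} {T : ℝ} {c : Fin N → ℝ → ℝ → ℂ}

/-- Upper bound, at points of the second axis. -/
theorem upper_D (h : PFlow p q T N c) (hp : 1 ≤ p) (hq : 1 ≤ q) {x₀ W : V p q}
    (h1 : pr₁ x₀ = 0 → pr₁ W ≠ 0) (hx : pr₂ x₀ = 0) {τ κ η : ℝ} (hτ : 0 < τ)
    (hκ : 0 < κ) (hη : 0 < η) (hκ1 : rad₁ x₀ = 0 → 2 * κ ≤ (Pm x₀ W).re)
    {θ₁ θ₂ : ℝ → ℝ} (c1 : Continuous θ₁)
    (c2 : Continuous θ₂) (n1 : ∀ x, 0 ≤ θ₁ x) (n2 : ∀ x, 0 ≤ θ₂ x)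
    (o1 : ∀ x, |x - (Pm x₀ W).re / √τ| ≤ η → 1 ≤ θ₁ x)
    (o2 : ∀ x, |x - (Pm x₀ W).im / √τ| ≤ η → 1 ≤ θ₂ x)
    (s1 : ∀ x, θ₁ x ≠ 0 → |x - (Pm x₀ W).re / √τ| ≤ κ / √τ) :
    ∃ (C : ℝ≥0) (r : ℝ), 0 < r ∧ ∀ᶠ l : ℝ in atTop, T - τ / l ^ 2 ∈ Ioo 0 T →
      μH[(p + q - 1 : ℕ)] (closedBall W r ∩ Bl p q T c x₀ τ l) ≤
        C * ENNReal.ofReal (EE p q T c (rad₁ x₀) (rad₂ x₀) θ₁ θ₂ (T - τ / l ^ 2)) := by
  have hα : 0 ≤ rad₁ x₀ := Real.sqrt_nonneg _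
  have hr2 : rad₂ x₀ = 0 := by rw [rad₂_eq, hx, norm_zero]
  set α := rad₁ x₀ with hαdef
  have hprof : prof x₀ = ⟨α, 0⟩ := by simp only [prof, hr2, ← hαdef]
  rw [hr2]
  set ζ := Pm x₀ W with hζ
  have hsτ : 0 < √τ := Real.sqrt_pos.2 hτ
  obtain ⟨e, M, r', ρ, he, hM, hr', hpos⟩ := exists_pos' (pr₁ x₀) (pr₁ W) h1
  obtain ⟨Ca, hCa⟩ := area_curve' (p := p) (q := q) hp hq he
  obtain ⟨a₁, A₁, ha₁, hA₁, hfw1⟩ := fw_bd (p - 1) hα hκ1 hκ
  set r₁ : ℝ := η * √τ / 2 with hr₁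
  have hr₁0 : 0 < r₁ := by positivity
  obtain ⟨r₃, hr₃, hPm⟩ := Metric.continuousAt_iff.1 ((Pm_continuous x₀).continuousAt (x := W))
    (r₁ / 2) (by positivity)
  set r : ℝ := min r' (r₃ / 2) with hr
  have hr0 : 0 < r := by positivity
  have hrr' : r ≤ r' := min_le_left _ _
  have hrr₃ : r < r₃ := by
    have := min_le_right r' (r₃ / 2)
    linarith
  set Kτ : ℝ := Real.exp (-((1 + dl (p - 1 : ℕ) α + dl (q - 1 : ℕ) 0) / 2) * Real.log τ) with hKτ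
  have hKτ0 : 0 < Kτ := Real.exp_pos _
  set C₁ : ℝ := M ^ (p - 1) / (a₁ * Kτ) with hC₁
  have hC₁0 : 0 ≤ C₁ := by positivity
  refine ⟨Ca * Real.toNNReal C₁, r, hr0, ?_⟩
  filter_upwards [hpos, hfw1, eventually_gt_atTop 0,
    Qm_conv x₀ (R := ‖W‖ + r) (by positivity) (ε := r₁ / 2) (by positivity)]
    with l hposl hf1 hli hconv ht
  obtain ⟨hρl, hMρ, hposZ⟩ := hposl
  set t := T - τ / l ^ 2 with htdef
  set a₀ : ℂ := l • (⟨α, 0⟩ : ℂ) with ha₀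
  set K : Set ℂ := closedBall (ζ + a₀) r₁ with hK
  set χ₂ : ℂ → ℝ := fun z => tst τ θ₁ θ₂ (z - a₀) with hχ₂
  have hχc : Continuous χ₂ := by
    simp only [hχ₂, tst]
    exact (c1.comp ((Complex.continuous_re.comp (continuous_id.sub continuous_const)).div_const
      _)).mul (c2.comp ((Complex.continuous_im.comp (continuous_id.sub continuous_const)).div_const
      _))
  have hχ0 : ∀ z, 0 ≤ χ₂ z := fun z => mul_nonneg (n1 _) (n2 _)
  have hχ₂K : ∀ w ∈ K, ∀ z, dist z w ≤ r₁ → 1 ≤ χ₂ z := by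
    intro w hw z hz
    have h3 : ‖z - a₀ - ζ‖ ≤ η * √τ := by
      rw [hK, mem_closedBall, dist_eq_norm] at hw
      rw [dist_eq_norm] at hz
      have e1 : z - a₀ - ζ = (z - w) + (w - (ζ + a₀)) := by ring
      rw [e1]
      refine (norm_add_le _ _).trans ?_
      rw [hr₁] at hz hw
      linarith
    have h4 := (Complex.abs_re_le_norm _).trans h3
    have h5 := (Complex.abs_im_le_norm _).trans h3
    have e2 : ∀ x y : ℝ, |x - y| ≤ η * √τ → |x / √τ - y / √τ| ≤ η := by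
      intro x y hxy
      rw [← sub_div, abs_div, abs_of_pos hsτ, div_le_iff₀ hsτ]
      exact hxy
    have h6 := o1 _ (e2 _ _ (by simpa using h4))
    have h7 := o2 _ (e2 _ _ (by simpa using h5))
    simp only [hχ₂, tst]
    exact one_le_mul_of_one_le_of_one_le h6 h7
  have hPd : ∀ j u, HasDerivAt (fun u => l • c j t u) (l • deriv (c j t) u) u := fun j u =>
    (((h.slice j ht).differentiable (by simp) u).hasDerivAt).const_smul l
  have hPc : ∀ j, Continuous fun u => l • deriv (c j t) u := fun j =>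
    ((h.slice j ht).continuous_deriv (by simp)).const_smul l
  set I : Fin N → ℝ := fun j => ∫ u in (0 : ℝ)..1, tst τ θ₁ θ₂ (l • c j t u - a₀) *
        (fw (p - 1) α l (c j t u).re * fw (q - 1) 0 l (c j t u).im) * ‖l • deriv (c j t) u‖ with hI
  have hEE : EE p q T c α 0 θ₁ θ₂ t = Kτ * ∑ j, I j := EE_eq h hτ hli ht θ₁ θ₂
  have hI0 : ∀ j, 0 ≤ I j := by
    intro j
    apply intervalIntegral.integral_nonneg zero_le_one
    intro u _
    exact mul_nonneg (mul_nonneg (hχ0 (l • c j t u)) (mul_nonneg (fw_nonneg _ _ _ _)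
      (fw_nonneg _ _ _ _))) (norm_nonneg _)
  have hA : ∀ j, μH[(p + q - 1 : ℕ)] {Z : V p q | ‖l • pr₁ x₀ + pr₁ Z - ρ l • e‖ ≤ M ∧
      (⟨‖l • pr₁ x₀ + pr₁ Z‖, ‖pr₂ Z‖⟩ : ℂ) ∈ K ∧ ∃ u ∈ Icc (0 : ℝ) 1,
        l • c j t u = ⟨‖l • pr₁ x₀ + pr₁ Z‖, ‖pr₂ Z‖⟩} ≤
      Ca * ENNReal.ofReal (C₁ * (Kτ * I j)) := by
    intro j
    refine (hCa (l • pr₁ x₀) (ρ l) M r₁ (fun u => l • c j t u)
      (fun u => l • deriv (c j t) u) K χ₂ hρl hM hMρ (hPd j) (hPc j) hχc hχ0 hr₁0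
      hχ₂K).trans ?_
    refine mul_le_mul' (le_refl _) (ENNReal.ofReal_le_ofReal ?_)
    have e1 : C₁ * (Kτ * I j) = M ^ (p - 1) * (a₁⁻¹ * I j) := by
      rw [hC₁]
      field_simp
    rw [e1]
    apply mul_le_mul_of_nonneg_left _ (by positivity)
    rw [hI, ← intervalIntegral.integral_const_mul]
    have hcj : Continuous (c j t) := (h.slice j ht).continuous
    apply intervalIntegral.integral_mono_on zero_le_one
    · exact (((hχc.comp (hcj.const_smul l)).mul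
        ((Complex.continuous_im.comp (hcj.const_smul l)).abs.pow _)).mul
        (hPc j).norm).intervalIntegrable _ _
    · apply Continuous.intervalIntegrable
      apply continuous_const.mul
      apply Continuous.mul _ (hPc j).norm
      apply (hχc.comp (hcj.const_smul l)).mul
      unfold fw
      exact (continuous_const.mul ((Complex.continuous_re.comp hcj).abs.pow _)).mul
        (continuous_const.mul ((Complex.continuous_im.comp hcj).abs.pow _))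
    · intro u _
      have him : |(l • c j t u).im| ^ (q - 1) = fw (q - 1) 0 l (c j t u).im := by
        rw [fw_zero _ hli, Complex.smul_im, smul_eq_mul]
      rw [him]
      by_cases hz : χ₂ (l • c j t u) = 0
      · have hz' : tst τ θ₁ θ₂ (l • c j t u - a₀) = 0 := hz
        simp only [hz, hz', zero_mul, mul_zero, le_refl]
      · have hz' : tst τ θ₁ θ₂ (l • c j t u - a₀) ≠ 0 := hz
        simp only [tst] at hz'
        have g1 := s1 _ (left_ne_zero_of_mul hz')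
        have e2 : ∀ x y : ℝ, |x / √τ - y / √τ| ≤ κ / √τ → |x - y| ≤ κ := by
          intro x y hxy
          rw [← sub_div, abs_div, abs_of_pos hsτ] at hxy
          exact (div_le_div_iff_of_pos_right hsτ).1 hxy
        have g1' := e2 _ _ g1
        have e3 : (l • c j t u - a₀).re = l * ((c j t u).re - α) := by
          simp only [ha₀, Complex.sub_re, Complex.smul_re, smul_eq_mul]; ring
        rw [e3] at g1'
        have k1 := (hf1 _ g1').1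
        have k3 : 1 ≤ a₁⁻¹ * fw (p - 1) α l (c j t u).re := by
          rw [inv_mul_eq_div, one_le_div ha₁]
          exact k1
        have k4 : 0 ≤ χ₂ (l • c j t u) * fw (q - 1) 0 l (c j t u).im * ‖l • deriv (c j t) u‖ :=
          mul_nonneg (mul_nonneg (hχ0 _) (fw_nonneg _ _ _ _)) (norm_nonneg _)
        calc χ₂ (l • c j t u) * fw (q - 1) 0 l (c j t u).im * ‖l • deriv (c j t) u‖
            ≤ χ₂ (l • c j t u) * fw (q - 1) 0 l (c j t u).im * ‖l • deriv (c j t) u‖ * (a₁⁻¹ *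
              fw (p - 1) α l (c j t u).re) :=
              le_mul_of_one_le_right k4 k3
          _ = a₁⁻¹ * (tst τ θ₁ θ₂ (l • c j t u - a₀) *
              (fw (p - 1) α l (c j t u).re * fw (q - 1) 0 l (c j t u).im) *
              ‖l • deriv (c j t) u‖) := by
              simp only [hχ₂]; ring
  have hcov : closedBall W r ∩ Bl p q T c x₀ τ l ⊆
      ⋃ j : Fin N, {Z : V p q | ‖l • pr₁ x₀ + pr₁ Z - ρ l • e‖ ≤ M ∧
      (⟨‖l • pr₁ x₀ + pr₁ Z‖, ‖pr₂ Z‖⟩ : ℂ) ∈ K ∧ ∃ u ∈ Icc (0 : ℝ) 1,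
        l • c j t u = ⟨‖l • pr₁ x₀ + pr₁ Z‖, ‖pr₂ Z‖⟩} := by
    rintro Z ⟨hZ1, j, u, hZ2⟩
    rw [mem_closedBall] at hZ1
    rw [mem_iUnion]
    have hZn : ‖Z‖ ≤ ‖W‖ + r := by
      rw [dist_eq_norm] at hZ1
      have := norm_add_le W (Z - W)
      rw [add_sub_cancel] at this
      linarith
    have hQP := Qm_prof hx hli Z
    have hd1 : ‖pr₁ Z - pr₁ W‖ ≤ r := by
      rw [← map_sub]; exact (norm_pr₁_le _).trans (by rw [← dist_eq_norm]; exact hZ1)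
    refine ⟨j, hposZ _ (hd1.trans hrr'), ?_, Int.fract u,
      ⟨Int.fract_nonneg u, (Int.fract_lt_one u).le⟩, ?_⟩
    · rw [← hQP, hprof, hK, mem_closedBall, dist_eq_norm, ← ha₀, add_sub_add_right_eq_sub]
      have b1 := hconv Z hZn
      have b2 := hPm (hZ1.trans_lt hrr₃)
      rw [dist_eq_norm] at b2
      have b3 := norm_sub_le_norm_sub_add_norm_sub (Qm x₀ l Z) (Pm x₀ Z) ζ
      linarith
    · rw [fract_per h ht, ← hQP, hZ2, smul_sub, sub_add_cancel]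
  calc μH[(p + q - 1 : ℕ)] (closedBall W r ∩ Bl p q T c x₀ τ l)
      ≤ μH[(p + q - 1 : ℕ)] (⋃ j : Fin N, {Z : V p q |
        ‖l • pr₁ x₀ + pr₁ Z - ρ l • e‖ ≤ M ∧
        (⟨‖l • pr₁ x₀ + pr₁ Z‖, ‖pr₂ Z‖⟩ : ℂ) ∈ K ∧ ∃ u ∈ Icc (0 : ℝ) 1,
        l • c j t u = ⟨‖l • pr₁ x₀ + pr₁ Z‖, ‖pr₂ Z‖⟩}) := measure_mono hcov
    _ ≤ ∑ j : Fin N, μH[(p + q - 1 : ℕ)] {Z : V p q |
        ‖l • pr₁ x₀ + pr₁ Z - ρ l • e‖ ≤ M ∧
        (⟨‖l • pr₁ x₀ + pr₁ Z‖, ‖pr₂ Z‖⟩ : ℂ) ∈ K ∧ ∃ u ∈ Icc (0 : ℝ) 1,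
        l • c j t u = ⟨‖l • pr₁ x₀ + pr₁ Z‖, ‖pr₂ Z‖⟩} :=
        measure_iUnion_fintype_le _ _
    _ ≤ ∑ j : Fin N, Ca * ENNReal.ofReal (C₁ * (Kτ * I j)) := Finset.sum_le_sum fun j _ => hA j
    _ = (Ca * Real.toNNReal C₁ : ℝ≥0) * ENNReal.ofReal (EE p q T c α 0 θ₁ θ₂ t) := by
        rw [← Finset.mul_sum, ← ENNReal.ofReal_sum_of_nonneg]
        · rw [hEE, ← Finset.mul_sum, ← Finset.mul_sum, ENNReal.ofReal_mul hC₁0]
          push_cast
          rw [mul_assoc]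
          rfl
        · intro j _
          have := hI0 j
          positivity

end Pool.Agent.Helper532_SymMCF

end

section

/-!
Lower bounds of the area of the rescaled hypersurfaces by the weighted length of the profile.
-/

open Set Filter MeasureTheory Topology Metric Module
open scoped ContDiff NNReal ENNReal RealInnerProductSpace

namespace Pool.Agent.Helper532_SymMCF

theorem norm_V_le {p q : ℕ} (z : V p q) : ‖z‖ ≤ ‖pr₁ z‖ + ‖pr₂ z‖ := by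
  have h1 := norm_sq_V z
  have h2 := norm_nonneg (pr₁ z)
  have h3 := norm_nonneg (pr₂ z)
  rw [← sq_le_sq₀ (norm_nonneg _) (by positivity), h1]
  have h4 : (‖pr₁ z‖ + ‖pr₂ z‖) ^ 2 = ‖pr₁ z‖ ^ 2 + ‖pr₂ z‖ ^ 2 + 2 * (‖pr₁ z‖ * ‖pr₂ z‖) := by
    ring
  rw [h4]
  have := mul_nonneg h2 h3
  linarith

theorem low_gen {m₁ m₂ N : ℕ} {T : ℝ} {c : Fin N → ℝ → ℝ → ℂ}
    (h : PFlow (m₁ + 1) (m₂ + 1) T N c) {x₀ W : V (m₁ + 1) (m₂ + 1)} {κ : ℝ} (hκ : 0 < κ)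
    {l t : ℝ} (hl : 0 < l) (ht : t ∈ Ioo 0 T) (hN : 4 * (2 * κ) ≤ ‖l • pr₁ x₀ + pr₁ W‖)
    {om : ℝ → ℝ} (hF : FOK (l • pr₂ x₀) (pr₂ W) (2 * κ) om) (hom : Continuous om)
    (hom0 : ∀ x, 0 ≤ om x) (homm : Monotone om) (s : ℂ ≃ₗᵢ[ℝ] ℂ)
    (hs : ∀ j u, ∃ j' u', c j' t u' = s (c j t u)) {χ : ℂ → ℝ} (hχ : Continuous χ)
    (hχ0 : ∀ z, 0 ≤ χ z) (hχ1 : ∀ z, χ z ≤ 1)
    (hK : ∀ w, χ w ≠ 0 → |w.re - ‖l • pr₁ x₀ + pr₁ W‖| ≤ 3 * κ / 2 ∧
      |w.im - ‖l • pr₂ x₀ + pr₂ W‖| ≤ 3 * κ / 2) :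
    ENNReal.ofReal ((2 * (2 * κ / (m₁ + 1))) ^ m₁ / 2 *
      ∑ j, ∫ u in (0 : ℝ)..1, χ (l • s (c j t u)) * om (l • s (c j t u)).im *
        ‖l • deriv (c j t) u‖) ≤
      μH[(m₁ + m₂ + 1 : ℕ)] (closedBall W (12 * κ) ∩
        {z | Qm x₀ l z ∈ {ζ : ℂ | ∃ j u, ζ = l • (c j t u - prof x₀)}}) := by
  have hPd : ∀ (j : Fin N) u, HasDerivAt (fun u => l • s (c j t u))
      (l • s (deriv (c j t) u)) u := fun j u => by
    have h1 : HasDerivAt (c j t) (deriv (c j t) u) u :=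
      ((h.slice j ht).differentiable (by simp) u).hasDerivAt
    exact (s.toContinuousLinearEquiv.hasFDerivAt.comp_hasDerivAt u h1).const_smul l
  have hP' : ∀ j : Fin N, Continuous fun u => l • s (deriv (c j t) u) := fun j =>
    (s.continuous.comp ((h.slice j ht).continuous_deriv (by simp))).const_smul l
  have hinj : ∀ j j' : Fin N, ∀ u ∈ Ico (0 : ℝ) 1, ∀ u' ∈ Ico (0 : ℝ) 1,
      l • s (c j t u) = l • s (c j' t u') → j = j' ∧ u = u' := by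
    intro j j' u hu u' hu' he
    have h1 : c j t u = c j' t u' := s.injective (smul_right_injective _ hl.ne' he)
    obtain ⟨h2, k, hk⟩ := h.embedded t (Ioo_subset_Ico_self ht) j j' u u' h1
    refine ⟨h2, ?_⟩
    have h3 : (k : ℝ) < 1 := by linarith [hu.1, hu'.2]
    have h4 : (-1 : ℝ) < k := by linarith [hu.2, hu'.1]
    have h5 : k < 1 := by exact_mod_cast h3
    have h6 : -1 < k := by exact_mod_cast h4
    have h7 : k = 0 := by omega
    rw [h7, Int.cast_zero, add_zero] at hk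
    exact hk.symm
  have h1 := low_fam (κ := 2 * κ) (by positivity) hN hF hom hom0 homm (P := fun j u => l • s (c j t u))
    (P' := fun j u => l • s (deriv (c j t) u)) hPd hP' hinj hχ hχ0 hχ1 (δ₀ := κ / 2)
    (by positivity) (fun w hw z hz => by
      obtain ⟨h2, h3⟩ := hK w hw
      rw [dist_eq_norm] at hz
      have h4 := (Complex.abs_re_le_norm _).trans hz
      have h5 := (Complex.abs_im_le_norm _).trans hz
      rw [Complex.sub_re] at h4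
      rw [Complex.sub_im] at h5
      constructor
      · have := abs_sub_le z.re w.re ‖l • pr₁ x₀ + pr₁ W‖
        linarith
      · have := abs_sub_le z.im w.im ‖l • pr₂ x₀ + pr₂ W‖
        linarith)
  have e1 : ∀ j u, ‖l • s (deriv (c j t) u)‖ = ‖l • deriv (c j t) u‖ := by
    intro j u
    rw [norm_smul, norm_smul, s.norm_map]
  simp only [e1] at h1
  refine h1.trans (measure_mono ?_)
  rintro Z ⟨hZ1, hZ2, j, u, hju⟩
  refine ⟨?_, ?_⟩
  · rw [mem_closedBall, dist_eq_norm]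
    have h2 := norm_V_le (Z - W)
    rw [map_sub, map_sub] at h2
    linarith
  · obtain ⟨j', u', hc'⟩ := hs j u
    refine ⟨j', u', ?_⟩
    have h2 := Qm_prof' (x₀ := x₀) hl Z
    rw [← hju, ← hc'] at h2
    rw [smul_sub, ← h2, add_sub_cancel_right]

theorem far {α ζ κ : ℝ} (hα : 0 ≤ α) (hζ : α = 0 → 9 * κ ≤ ζ) :
    ∀ᶠ l : ℝ in atTop, 9 * κ ≤ l * α + ζ := by
  rcases hα.eq_or_lt with h0 | h0
  · refine Eventually.of_forall fun l => ?_
    rw [← h0, mul_zero, zero_add]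
    exact hζ h0.symm
  · filter_upwards [eventually_ge_atTop ((9 * κ - ζ) / α)] with l hl
    rw [div_le_iff₀ h0] at hl
    linarith

/-- position of the rescaled spheres -/
theorem pos_sph {p q : ℕ} {x₀ W : V p q} {κ l : ℝ} (hl : 0 < l)
    (hQ : ‖Qm x₀ l W - Pm x₀ W‖ ≤ κ / 2) :
    |l * rad₁ x₀ + (Pm x₀ W).re - ‖l • pr₁ x₀ + pr₁ W‖| ≤ κ / 2 ∧
      |l * rad₂ x₀ + (Pm x₀ W).im - ‖l • pr₂ x₀ + pr₂ W‖| ≤ κ / 2 := by
  have h1 := Qm_prof' (x₀ := x₀) hl W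
  have h2 := congrArg Complex.re h1
  have h3 := congrArg Complex.im h1
  simp only [Complex.add_re, Complex.add_im, Complex.smul_re, Complex.smul_im, smul_eq_mul,
    prof] at h2 h3
  have h4 := (Complex.abs_re_le_norm _).trans hQ
  have h5 := (Complex.abs_im_le_norm _).trans hQ
  rw [Complex.sub_re, abs_sub_comm] at h4
  rw [Complex.sub_im, abs_sub_comm] at h5
  rw [← h2, ← h3]
  constructor
  · have e : l * rad₁ x₀ + (Pm x₀ W).re - ((Qm x₀ l W).re + l * rad₁ x₀) =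
      (Pm x₀ W).re - (Qm x₀ l W).re := by ring
    rw [e]; exact h4
  · have e : l * rad₂ x₀ + (Pm x₀ W).im - ((Qm x₀ l W).im + l * rad₂ x₀) =
      (Pm x₀ W).im - (Qm x₀ l W).im := by ring
    rw [e]; exact h5

/-- the support of the test function -/
theorem tst_supp {p q : ℕ} {x₀ : V p q} {ζ : ℂ} {τ κ l a b : ℝ} (hτ : 0 < τ) {θ₁ θ₂ : ℝ → ℝ}
    (s1 : ∀ x, θ₁ x ≠ 0 → |x - ζ.re / √τ| ≤ κ / √τ)
    (s2 : ∀ x, θ₂ x ≠ 0 → |x - ζ.im / √τ| ≤ κ / √τ)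
    (hp : |l * rad₁ x₀ + ζ.re - a| ≤ κ / 2 ∧ |l * rad₂ x₀ + ζ.im - b| ≤ κ / 2) (w : ℂ)
    (hw : tst τ θ₁ θ₂ (w - l • (⟨rad₁ x₀, rad₂ x₀⟩ : ℂ)) ≠ 0) :
    (|w.re - a| ≤ 3 * κ / 2 ∧ |w.im - b| ≤ 3 * κ / 2) := by
  have hsτ : 0 < √τ := Real.sqrt_pos.2 hτ
  simp only [tst] at hw
  have g1 := s1 _ (left_ne_zero_of_mul hw)
  have g2 := s2 _ (right_ne_zero_of_mul hw)
  have e2 : ∀ x y : ℝ, |x / √τ - y / √τ| ≤ κ / √τ → |x - y| ≤ κ := by
    intro x y hxy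
    rw [← sub_div, abs_div, abs_of_pos hsτ] at hxy
    exact (div_le_div_iff_of_pos_right hsτ).1 hxy
  have g1' := e2 _ _ g1
  have g2' := e2 _ _ g2
  simp only [Complex.sub_re, Complex.smul_re, smul_eq_mul] at g1'
  simp only [Complex.sub_im, Complex.smul_im, smul_eq_mul] at g2'
  constructor
  · have e : w.re - a = (w.re - l * rad₁ x₀ - ζ.re) + (l * rad₁ x₀ + ζ.re - a) := by ring
    rw [e]
    refine (abs_add_le _ _).trans ?_
    linarith [hp.1]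
  · have e : w.im - b = (w.im - l * rad₂ x₀ - ζ.im) + (l * rad₂ x₀ + ζ.im - b) := by ring
    rw [e]
    refine (abs_add_le _ _).trans ?_
    linarith [hp.2]

end Pool.Agent.Helper532_SymMCF

end

section

/-!
Lower bounds of the area of the rescaled hypersurfaces by the localised length of the profile.
-/

open Set Filter MeasureTheory Topology Metric Module
open scoped ContDiff NNReal ENNReal RealInnerProductSpace

namespace Pool.Agent.Helper532_SymMCF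

/-- Lower bound, away from the axes. -/
theorem lower_N' {m₁ m₂ N : ℕ} {T : ℝ} {c : Fin N → ℝ → ℝ → ℂ}
    (h : PFlow (m₁ + 1) (m₂ + 1) T N c) {x₀ W : V (m₁ + 1) (m₂ + 1)} {τ κ : ℝ} (hτ : 0 < τ)
    (hκ : 0 < κ) (hκ1 : rad₁ x₀ = 0 → 9 * κ ≤ (Pm x₀ W).re)
    (hκ2 : rad₂ x₀ = 0 → 9 * κ ≤ (Pm x₀ W).im) {θ₁ θ₂ : ℝ → ℝ} (c1 : Continuous θ₁)
    (c2 : Continuous θ₂) (n1 : ∀ x, 0 ≤ θ₁ x) (n2 : ∀ x, 0 ≤ θ₂ x) (l1 : ∀ x, θ₁ x ≤ 1)
    (l2 : ∀ x, θ₂ x ≤ 1) (s1 : ∀ x, θ₁ x ≠ 0 → |x - (Pm x₀ W).re / √τ| ≤ κ / √τ)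
    (s2 : ∀ x, θ₂ x ≠ 0 → |x - (Pm x₀ W).im / √τ| ≤ κ / √τ) :
    ∃ c₀ : ℝ, 0 < c₀ ∧ ∀ᶠ l : ℝ in atTop, T - τ / l ^ 2 ∈ Ioo 0 T →
      ENNReal.ofReal (c₀ * EE (m₁ + 1) (m₂ + 1) T c (rad₁ x₀) (rad₂ x₀) θ₁ θ₂ (T - τ / l ^ 2)) ≤
      μH[(m₁ + m₂ + 1 : ℕ)] (closedBall W (12 * κ) ∩ Bl (m₁ + 1) (m₂ + 1) T c x₀ τ l) := by
  have hα : 0 ≤ rad₁ x₀ := Real.sqrt_nonneg _
  have hβ : 0 ≤ rad₂ x₀ := Real.sqrt_nonneg _
  have hsτ : 0 < √τ := Real.sqrt_pos.2 hτ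
  obtain ⟨a₁, A₁, ha₁, hA₁, hfw1⟩ := fw_bd m₁ hα (fun h0 => by
    have := hκ1 h0; linarith) hκ
  obtain ⟨a₂, A₂, ha₂, hA₂, hfw2⟩ := fw_bd m₂ hβ (fun h0 => by
    have := hκ2 h0; linarith) hκ
  set Kτ : ℝ := Real.exp (-((1 + dl (m₁ : ℕ) (rad₁ x₀) + dl (m₂ : ℕ) (rad₂ x₀)) / 2) * Real.log τ)
    with hKτ
  have hKτ0 : 0 < Kτ := Real.exp_pos _
  set c₁ : ℝ := (2 * (2 * κ / (m₁ + 1))) ^ m₁ / 2 with hc₁
  have hc₁0 : 0 < c₁ := by positivity
  set om₀ : ℝ := (2 * (2 * κ / (m₂ + 1))) ^ m₂ with hom₀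
  have hom₀0 : 0 < om₀ := by positivity
  refine ⟨c₁ * om₀ / (A₁ * A₂ * Kτ), by positivity, ?_⟩
  filter_upwards [hfw1, hfw2, eventually_gt_atTop 0, far hα hκ1, far hβ hκ2,
    Qm_conv x₀ (R := ‖W‖ + 1) (by positivity) (ε := κ / 2) (by positivity)]
    with l hf1 hf2 hl hfar1 hfar2 hconv ht
  obtain ⟨hp1, hp2⟩ := pos_sph hl (hconv W (by linarith))
  set t := T - τ / l ^ 2 with htdef
  have hN1 : 4 * (2 * κ) ≤ ‖l • pr₁ x₀ + pr₁ W‖ := by
    have := (abs_le.1 hp1).2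
    linarith
  have hN2 : 4 * (2 * κ) ≤ ‖l • pr₂ x₀ + pr₂ W‖ := by
    have := (abs_le.1 hp2).2
    linarith
  set a₀ : ℂ := l • (⟨rad₁ x₀, rad₂ x₀⟩ : ℂ) with ha₀
  have hlow := low_gen h hκ hl ht hN1 (FOK_N (by positivity) hN2) continuous_const
    (fun _ => hom₀0.le) monotone_const (LinearIsometryEquiv.refl ℝ ℂ) (fun j u => ⟨j, u, rfl⟩)
    (χ := fun z => tst τ θ₁ θ₂ (z - a₀))
    (by
      simp only [tst]
      exact (c1.comp ((Complex.continuous_re.comp (continuous_id.sub continuous_const)).div_const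
        _)).mul (c2.comp ((Complex.continuous_im.comp
          (continuous_id.sub continuous_const)).div_const _)))
    (fun z => mul_nonneg (n1 _) (n2 _))
    (fun z => mul_le_one₀ (l1 _) (n2 _) (l2 _))
    (fun w hw => tst_supp hτ s1 s2 ⟨hp1, hp2⟩ w hw)
  refine le_trans (ENNReal.ofReal_le_ofReal ?_) hlow
  have hEE : EE (m₁ + 1) (m₂ + 1) T c (rad₁ x₀) (rad₂ x₀) θ₁ θ₂ t = Kτ *
      ∑ j, ∫ u in (0 : ℝ)..1, tst τ θ₁ θ₂ (l • c j t u - a₀) *
        (fw m₁ (rad₁ x₀) l (c j t u).re * fw m₂ (rad₂ x₀) l (c j t u).im) *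
        ‖l • deriv (c j t) u‖ := EE_eq h hτ hl ht θ₁ θ₂
  rw [hEE, ← hc₁]
  have e1 : c₁ * om₀ / (A₁ * A₂ * Kτ) * (Kτ * ∑ j, ∫ u in (0 : ℝ)..1,
        tst τ θ₁ θ₂ (l • c j t u - a₀) *
        (fw m₁ (rad₁ x₀) l (c j t u).re * fw m₂ (rad₂ x₀) l (c j t u).im) *
        ‖l • deriv (c j t) u‖) = c₁ * (om₀ / (A₁ * A₂) * ∑ j, ∫ u in (0 : ℝ)..1,
        tst τ θ₁ θ₂ (l • c j t u - a₀) *
        (fw m₁ (rad₁ x₀) l (c j t u).re * fw m₂ (rad₂ x₀) l (c j t u).im) *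
        ‖l • deriv (c j t) u‖) := by
    field_simp
  rw [e1]
  apply mul_le_mul_of_nonneg_left _ hc₁0.le
  rw [Finset.mul_sum]
  apply Finset.sum_le_sum
  intro j _
  rw [← intervalIntegral.integral_const_mul]
  have hcj : Continuous (c j t) := (h.slice j ht).continuous
  have hPc : Continuous fun u => l • deriv (c j t) u :=
    ((h.slice j ht).continuous_deriv (by simp)).const_smul l
  have htc : Continuous fun u => tst τ θ₁ θ₂ (l • c j t u - a₀) := by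
    simp only [tst]
    exact (c1.comp ((Complex.continuous_re.comp ((hcj.const_smul l).sub
      continuous_const)).div_const _)).mul (c2.comp ((Complex.continuous_im.comp
        ((hcj.const_smul l).sub continuous_const)).div_const _))
  apply intervalIntegral.integral_mono_on zero_le_one
  · apply Continuous.intervalIntegrable
    apply continuous_const.mul
    apply Continuous.mul _ hPc.norm
    apply htc.mul
    unfold fw
    exact (continuous_const.mul ((Complex.continuous_re.comp hcj).abs.pow _)).mul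
      (continuous_const.mul ((Complex.continuous_im.comp hcj).abs.pow _))
  · exact ((htc.mul continuous_const).mul hPc.norm).intervalIntegrable _ _
  · intro u _
    simp only [LinearIsometryEquiv.coe_refl, id_eq]
    by_cases hz : tst τ θ₁ θ₂ (l • c j t u - a₀) = 0
    · simp only [hz, zero_mul, mul_zero, le_refl]
    · have hz' := hz
      simp only [tst] at hz'
      have g1 := s1 _ (left_ne_zero_of_mul hz')
      have g2 := s2 _ (right_ne_zero_of_mul hz')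
      have e2 : ∀ x y : ℝ, |x / √τ - y / √τ| ≤ κ / √τ → |x - y| ≤ κ := by
        intro x y hxy
        rw [← sub_div, abs_div, abs_of_pos hsτ] at hxy
        exact (div_le_div_iff_of_pos_right hsτ).1 hxy
      have g1' := e2 _ _ g1
      have g2' := e2 _ _ g2
      have e3 : (l • c j t u - a₀).re = l * ((c j t u).re - rad₁ x₀) := by
        simp only [ha₀, Complex.sub_re, Complex.smul_re, smul_eq_mul]; ring
      have e4 : (l • c j t u - a₀).im = l * ((c j t u).im - rad₂ x₀) := by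
        simp only [ha₀, Complex.sub_im, Complex.smul_im, smul_eq_mul]; ring
      rw [e3] at g1'
      rw [e4] at g2'
      have k1 := (hf1 _ g1').2
      have k2 := (hf2 _ g2').2
      have k3 : fw m₁ (rad₁ x₀) l (c j t u).re * fw m₂ (rad₂ x₀) l (c j t u).im ≤ A₁ * A₂ :=
        mul_le_mul k1 k2 (fw_nonneg _ _ _ _) hA₁.le
      have k4 : 0 ≤ tst τ θ₁ θ₂ (l • c j t u - a₀) * ‖l • deriv (c j t) u‖ :=
        mul_nonneg (mul_nonneg (n1 _) (n2 _)) (norm_nonneg _)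
      calc om₀ / (A₁ * A₂) * (tst τ θ₁ θ₂ (l • c j t u - a₀) *
            (fw m₁ (rad₁ x₀) l (c j t u).re * fw m₂ (rad₂ x₀) l (c j t u).im) *
            ‖l • deriv (c j t) u‖)
          = om₀ / (A₁ * A₂) * (tst τ θ₁ θ₂ (l • c j t u - a₀) * ‖l • deriv (c j t) u‖) *
            (fw m₁ (rad₁ x₀) l (c j t u).re * fw m₂ (rad₂ x₀) l (c j t u).im) := by ring
        _ ≤ om₀ / (A₁ * A₂) * (tst τ θ₁ θ₂ (l • c j t u - a₀) * ‖l • deriv (c j t) u‖) *
            (A₁ * A₂) := mul_le_mul_of_nonneg_left k3 (by positivity)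
        _ = tst τ θ₁ θ₂ (l • c j t u - a₀) * om₀ * ‖l • deriv (c j t) u‖ := by
            field_simp

/-- sum of the weights of a curve and of its mirror image -/
theorem max_pow {m : ℕ} (hm : m ≠ 0) (x : ℝ) : max x 0 ^ m + max (-x) 0 ^ m = |x| ^ m := by
  rcases le_total 0 x with hx | hx
  · rw [max_eq_left hx, max_eq_right (by linarith), zero_pow hm, add_zero, abs_of_nonneg hx]
  · rw [max_eq_right hx, max_eq_left (by linarith), zero_pow hm, zero_add, abs_of_nonpos hx]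

/-- Lower bound, at points of the second axis. -/
theorem lower_D' {m₁ m₂ N : ℕ} {T : ℝ} {c : Fin N → ℝ → ℝ → ℂ}
    (h : PFlow (m₁ + 1) (m₂ + 1) T N c) (hm : m₂ ≠ 0) {x₀ W : V (m₁ + 1) (m₂ + 1)} {τ κ : ℝ}
    (hτ : 0 < τ) (hκ : 0 < κ) (hκ1 : rad₁ x₀ = 0 → 9 * κ ≤ (Pm x₀ W).re)
    (hx : pr₂ x₀ = 0) (hW : pr₂ W = 0) {θ₁ θ₂ : ℝ → ℝ} (c1 : Continuous θ₁)
    (c2 : Continuous θ₂) (n1 : ∀ x, 0 ≤ θ₁ x) (n2 : ∀ x, 0 ≤ θ₂ x) (l1 : ∀ x, θ₁ x ≤ 1)
    (l2 : ∀ x, θ₂ x ≤ 1) (s1 : ∀ x, θ₁ x ≠ 0 → |x - (Pm x₀ W).re / √τ| ≤ κ / √τ)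
    (s2 : ∀ x, θ₂ x ≠ 0 → |x - (Pm x₀ W).im / √τ| ≤ κ / √τ) :
    ∃ c₀ : ℝ, 0 < c₀ ∧ ∀ᶠ l : ℝ in atTop, T - τ / l ^ 2 ∈ Ioo 0 T →
      ENNReal.ofReal (c₀ * EE (m₁ + 1) (m₂ + 1) T c (rad₁ x₀) (rad₂ x₀) θ₁ θ₂ (T - τ / l ^ 2)) ≤
      μH[(m₁ + m₂ + 1 : ℕ)] (closedBall W (12 * κ) ∩ Bl (m₁ + 1) (m₂ + 1) T c x₀ τ l) := by
  have hα : 0 ≤ rad₁ x₀ := Real.sqrt_nonneg _
  have hr2 : rad₂ x₀ = 0 := by rw [rad₂_eq, hx, norm_zero]
  have hsτ : 0 < √τ := Real.sqrt_pos.2 hτ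
  have him : (Pm x₀ W).im = 0 := by
    simp only [Pm, hx, hW, rlim_zero, norm_zero]
  obtain ⟨a₁, A₁, ha₁, hA₁, hfw1⟩ := fw_bd m₁ hα (fun h0 => by
    have := hκ1 h0; linarith) hκ
  set Kτ : ℝ := Real.exp (-((1 + dl (m₁ : ℕ) (rad₁ x₀) + dl (m₂ : ℕ) (rad₂ x₀)) / 2) * Real.log τ)
    with hKτ
  have hKτ0 : 0 < Kτ := Real.exp_pos _
  set c₁ : ℝ := (2 * (2 * κ / (m₁ + 1))) ^ m₁ / 2 with hc₁
  have hc₁0 : 0 < c₁ := by positivity
  set b₁ : ℝ := (2 / ((m₂ : ℝ) + 1)) ^ m₂ with hb₁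
  have hb₁0 : 0 < b₁ := by positivity
  set om : ℝ → ℝ := fun x => (2 * (max x 0 / (m₂ + 1))) ^ m₂ with hom
  have hom' : ∀ x, om x = b₁ * max x 0 ^ m₂ := by
    intro x
    simp only [hom, hb₁]
    rw [← mul_pow]
    congr 1
    ring
  have homc : Continuous om := by
    simp only [hom]; fun_prop
  have hom0 : ∀ x, 0 ≤ om x := fun x => by
    simp only [hom]; positivity
  have homm : Monotone om := by
    intro x y hxy
    rw [hom', hom']
    apply mul_le_mul_of_nonneg_left _ hb₁0.le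
    exact pow_le_pow_left₀ (le_max_right _ _) (max_le_max_right 0 hxy) _
  refine ⟨c₁ * b₁ / (2 * A₁ * Kτ), by positivity, ?_⟩
  filter_upwards [hfw1, eventually_gt_atTop 0, far hα hκ1,
    Qm_conv x₀ (R := ‖W‖ + 1) (by positivity) (ε := κ / 2) (by positivity)]
    with l hf1 hl hfar1 hconv ht
  obtain ⟨hp1, hp2⟩ := pos_sph hl (hconv W (by linarith))
  set t := T - τ / l ^ 2 with htdef
  have hN1 : 4 * (2 * κ) ≤ ‖l • pr₁ x₀ + pr₁ W‖ := by
    have := (abs_le.1 hp1).2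
    linarith
  have hFO : FOK (l • pr₂ x₀) (pr₂ W) (2 * κ) om := by
    rw [hx, hW, smul_zero]
    exact FOK_D hm (by positivity)
  set a₀ : ℂ := l • (⟨rad₁ x₀, rad₂ x₀⟩ : ℂ) with ha₀
  have ha₀im : a₀.im = 0 := by
    rw [ha₀, Complex.smul_im]
    simp only [hr2, smul_zero]
  have htstc : ∀ θ : ℝ → ℝ, Continuous θ → Continuous fun z : ℂ => tst τ θ₁ θ (z - a₀) := by
    intro θ hθ
    simp only [tst]
    exact (c1.comp ((Complex.continuous_re.comp (continuous_id.sub continuous_const)).div_const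
        _)).mul (hθ.comp ((Complex.continuous_im.comp
          (continuous_id.sub continuous_const)).div_const _))
  have hlow1 := low_gen h hκ hl ht hN1 hFO homc hom0 homm
    (LinearIsometryEquiv.refl ℝ ℂ) (fun j u => ⟨j, u, rfl⟩)
    (χ := fun z => tst τ θ₁ θ₂ (z - a₀)) (htstc θ₂ c2)
    (fun z => mul_nonneg (n1 _) (n2 _))
    (fun z => mul_le_one₀ (l1 _) (n2 _) (l2 _))
    (fun w hw => tst_supp hτ s1 s2 ⟨hp1, hp2⟩ w hw)
  have hlow2 := low_gen h hκ hl ht hN1 hFO homc hom0 homm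
    Complex.conjLIE (fun j u => by
      obtain ⟨j', u', h'⟩ := h.symm₂ (by omega) t (Ioo_subset_Ico_self ht) j u
      refine ⟨j', u', ?_⟩
      rw [h']
      apply Complex.ext <;> simp)
    (χ := fun z => tst τ θ₁ (fun x => θ₂ (-x)) (z - a₀)) (htstc _ (c2.comp continuous_neg))
    (fun z => mul_nonneg (n1 _) (n2 _))
    (fun z => mul_le_one₀ (l1 _) (n2 _) (l2 _))
    (fun w hw => tst_supp hτ s1 (fun x hx0 => by
      have := s2 _ hx0
      rw [him, zero_div, sub_zero, abs_neg] at this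
      rw [him, zero_div, sub_zero]
      exact this) ⟨hp1, hp2⟩ w hw)
  set I₁ : ℝ := ∑ j, ∫ u in (0 : ℝ)..1,
    tst τ θ₁ θ₂ (l • (LinearIsometryEquiv.refl ℝ ℂ) (c j t u) - a₀) *
      om (l • (LinearIsometryEquiv.refl ℝ ℂ) (c j t u)).im * ‖l • deriv (c j t) u‖ with hI₁
  set I₂ : ℝ := ∑ j, ∫ u in (0 : ℝ)..1,
    tst τ θ₁ (fun x => θ₂ (-x)) (l • Complex.conjLIE (c j t u) - a₀) *
      om (l • Complex.conjLIE (c j t u)).im * ‖l • deriv (c j t) u‖ with hI₂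
  have hEE : EE (m₁ + 1) (m₂ + 1) T c (rad₁ x₀) (rad₂ x₀) θ₁ θ₂ t = Kτ *
      ∑ j, ∫ u in (0 : ℝ)..1, tst τ θ₁ θ₂ (l • c j t u - a₀) *
        (fw m₁ (rad₁ x₀) l (c j t u).re * fw m₂ (rad₂ x₀) l (c j t u).im) *
        ‖l • deriv (c j t) u‖ := EE_eq h hτ hl ht θ₁ θ₂
  have hsum : b₁ / A₁ * ∑ j, ∫ u in (0 : ℝ)..1, tst τ θ₁ θ₂ (l • c j t u - a₀) *
        (fw m₁ (rad₁ x₀) l (c j t u).re * fw m₂ (rad₂ x₀) l (c j t u).im) *
        ‖l • deriv (c j t) u‖ ≤ I₁ + I₂ := by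
    rw [hI₁, hI₂, ← Finset.sum_add_distrib, Finset.mul_sum]
    apply Finset.sum_le_sum
    intro j _
    have hcj : Continuous (c j t) := (h.slice j ht).continuous
    have hPc : Continuous fun u => l • deriv (c j t) u :=
      ((h.slice j ht).continuous_deriv (by simp)).const_smul l
    have htc : Continuous fun u => tst τ θ₁ θ₂ (l • c j t u - a₀) :=
      (htstc θ₂ c2).comp (hcj.const_smul l)
    have hcc : Continuous fun u => Complex.conjLIE (c j t u) :=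
      Complex.conjLIE.continuous.comp hcj
    have htc' : Continuous fun u => tst τ θ₁ (fun x => θ₂ (-x)) (l • Complex.conjLIE (c j t u) - a₀) :=
      (htstc _ (c2.comp continuous_neg)).comp (hcc.const_smul l)
    rw [← intervalIntegral.integral_const_mul, ← intervalIntegral.integral_add]
    · apply intervalIntegral.integral_mono_on zero_le_one
      · apply Continuous.intervalIntegrable
        apply continuous_const.mul
        apply Continuous.mul _ hPc.norm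
        apply htc.mul
        unfold fw
        exact (continuous_const.mul ((Complex.continuous_re.comp hcj).abs.pow _)).mul
          (continuous_const.mul ((Complex.continuous_im.comp hcj).abs.pow _))
      · apply Continuous.intervalIntegrable
        exact ((htc.mul (homc.comp (Complex.continuous_im.comp (hcj.const_smul l)))).mul
          hPc.norm).add ((htc'.mul (homc.comp (Complex.continuous_im.comp
            (hcc.const_smul l)))).mul hPc.norm)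
      · intro u _
        have e0 : tst τ θ₁ (fun x => θ₂ (-x)) (l • Complex.conjLIE (c j t u) - a₀) =
            tst τ θ₁ θ₂ (l • c j t u - a₀) := by
          simp only [tst, Complex.sub_re, Complex.sub_im, Complex.smul_re, Complex.smul_im,
            Complex.conjLIE_apply, Complex.conj_re, Complex.conj_im, ha₀im, smul_eq_mul]
          congr 2
          ring
        rw [e0]
        simp only [LinearIsometryEquiv.coe_refl, id_eq]
        have e1 : om (l • c j t u).im + om (l • Complex.conjLIE (c j t u)).im =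
            b₁ * fw m₂ (rad₂ x₀) l (c j t u).im := by
          rw [hom', hom', hr2, fw_zero _ hl, ← mul_add]
          congr 1
          simp only [Complex.smul_im, Complex.conjLIE_apply, Complex.conj_im, smul_eq_mul,
            mul_neg]
          exact max_pow hm _
        have e5 : tst τ θ₁ θ₂ (l • c j t u - a₀) * om (l • c j t u).im * ‖l • deriv (c j t) u‖ +
            tst τ θ₁ θ₂ (l • c j t u - a₀) * om (l • Complex.conjLIE (c j t u)).im *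
              ‖l • deriv (c j t) u‖ = tst τ θ₁ θ₂ (l • c j t u - a₀) *
              (om (l • c j t u).im + om (l • Complex.conjLIE (c j t u)).im) *
              ‖l • deriv (c j t) u‖ := by ring
        rw [e5, e1]
        by_cases hz : tst τ θ₁ θ₂ (l • c j t u - a₀) = 0
        · simp only [hz, zero_mul, mul_zero, le_refl]
        · have hz' := hz
          simp only [tst] at hz'
          have g1 := s1 _ (left_ne_zero_of_mul hz')
          have e2 : ∀ x y : ℝ, |x / √τ - y / √τ| ≤ κ / √τ → |x - y| ≤ κ := by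
            intro x y hxy
            rw [← sub_div, abs_div, abs_of_pos hsτ] at hxy
            exact (div_le_div_iff_of_pos_right hsτ).1 hxy
          have g1' := e2 _ _ g1
          have e3 : (l • c j t u - a₀).re = l * ((c j t u).re - rad₁ x₀) := by
            simp only [ha₀, Complex.sub_re, Complex.smul_re, smul_eq_mul]; ring
          rw [e3] at g1'
          have k1 := (hf1 _ g1').2
          have k4 : 0 ≤ tst τ θ₁ θ₂ (l • c j t u - a₀) * fw m₂ (rad₂ x₀) l (c j t u).im *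
              ‖l • deriv (c j t) u‖ :=
            mul_nonneg (mul_nonneg (mul_nonneg (n1 _) (n2 _)) (fw_nonneg _ _ _ _)) (norm_nonneg _)
          calc b₁ / A₁ * (tst τ θ₁ θ₂ (l • c j t u - a₀) *
                (fw m₁ (rad₁ x₀) l (c j t u).re * fw m₂ (rad₂ x₀) l (c j t u).im) *
                ‖l • deriv (c j t) u‖)
              = b₁ / A₁ * (tst τ θ₁ θ₂ (l • c j t u - a₀) * fw m₂ (rad₂ x₀) l (c j t u).im *
                ‖l • deriv (c j t) u‖) * fw m₁ (rad₁ x₀) l (c j t u).re := by ring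
            _ ≤ b₁ / A₁ * (tst τ θ₁ θ₂ (l • c j t u - a₀) * fw m₂ (rad₂ x₀) l (c j t u).im *
                ‖l • deriv (c j t) u‖) * A₁ := mul_le_mul_of_nonneg_left k1 (by positivity)
            _ = tst τ θ₁ θ₂ (l • c j t u - a₀) * (b₁ * fw m₂ (rad₂ x₀) l (c j t u).im) *
                ‖l • deriv (c j t) u‖ := by
                field_simp
    · exact ((htc.mul (homc.comp (Complex.continuous_im.comp (hcj.const_smul l)))).mul
          hPc.norm).intervalIntegrable _ _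
    · exact ((htc'.mul (homc.comp (Complex.continuous_im.comp
            (hcc.const_smul l)))).mul hPc.norm).intervalIntegrable _ _
  have hfin : c₁ * b₁ / (2 * A₁ * Kτ) *
      EE (m₁ + 1) (m₂ + 1) T c (rad₁ x₀) (rad₂ x₀) θ₁ θ₂ t ≤ (c₁ * I₁ + c₁ * I₂) / 2 := by
    rw [hEE]
    have e1 : ∀ S : ℝ, c₁ * b₁ / (2 * A₁ * Kτ) * (Kτ * S) = c₁ / 2 * (b₁ / A₁ * S) := by
      intro S
      field_simp
    rw [e1]
    have := mul_le_mul_of_nonneg_left hsum (show 0 ≤ c₁ / 2 by positivity)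
    linarith
  rw [← hc₁] at hlow1 hlow2
  rcases le_total (c₁ * I₁) (c₁ * I₂) with h3 | h3
  · exact le_trans (ENNReal.ofReal_le_ofReal (by linarith)) hlow2
  · exact le_trans (ENNReal.ofReal_le_ofReal (by linarith)) hlow1

end Pool.Agent.Helper532_SymMCF

end

section

/-!
The supports of the time slices of a tangent flow are dilates of each other.
-/

open Set Filter MeasureTheory Topology Metric Module
open scoped ContDiff NNReal ENNReal RealInnerProductSpace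

namespace Pool.Agent.Helper532_SymMCF

variable {p q N : ℕ} {T : ℝ} {c : Fin N → ℝ → ℝ → ℂ}

/-- `W` is not on an axis of rotation, or on the second one only. -/
def Ty (ω₀ x₂ : ℝ) (x₀ W : V p q) : Prop :=
  ((pr₂ x₀ = 0 → pr₂ W ≠ 0) ∧ (rad₂ x₀ = 0 → 9 * ω₀ ≤ x₂)) ∨ (2 ≤ q ∧ pr₂ x₀ = 0 ∧ pr₂ W = 0)

theorem upper (h : PFlow p q T N c) (hp : 1 ≤ p) (hq : 1 ≤ q) {x₀ W : V p q}
    (h1 : pr₁ x₀ = 0 → pr₁ W ≠ 0) {τ ω₀ x₁ x₂ : ℝ} (hτ : 0 < τ) (hω : 0 < ω₀)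
    (e1 : (Pm x₀ W).re = x₁ * √τ) (e2 : (Pm x₀ W).im = x₂ * √τ)
    (hω1 : rad₁ x₀ = 0 → 9 * ω₀ ≤ x₁) (h2 : Ty ω₀ x₂ x₀ W) {θ₁ θ₂ : ℝ → ℝ}
    (c1 : Continuous θ₁) (c2 : Continuous θ₂) (n1 : ∀ x, 0 ≤ θ₁ x) (n2 : ∀ x, 0 ≤ θ₂ x)
    (o1 : ∀ x, |x - x₁| ≤ ω₀ / 2 → 1 ≤ θ₁ x) (o2 : ∀ x, |x - x₂| ≤ ω₀ / 2 → 1 ≤ θ₂ x)
    (s1 : ∀ x, θ₁ x ≠ 0 → |x - x₁| ≤ ω₀) (s2 : ∀ x, θ₂ x ≠ 0 → |x - x₂| ≤ ω₀) :
    ∃ (C : ℝ≥0) (r : ℝ), 0 < r ∧ ∀ᶠ l : ℝ in atTop, T - τ / l ^ 2 ∈ Ioo 0 T →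
      μH[(p + q - 1 : ℕ)] (closedBall W r ∩ Bl p q T c x₀ τ l) ≤
        C * ENNReal.ofReal (EE p q T c (rad₁ x₀) (rad₂ x₀) θ₁ θ₂ (T - τ / l ^ 2)) := by
  have hsτ : 0 < √τ := Real.sqrt_pos.2 hτ
  have f1 : (Pm x₀ W).re / √τ = x₁ := by rw [e1, mul_div_cancel_right₀ _ hsτ.ne']
  have f2 : (Pm x₀ W).im / √τ = x₂ := by rw [e2, mul_div_cancel_right₀ _ hsτ.ne']
  have f3 : ω₀ * √τ / √τ = ω₀ := mul_div_cancel_right₀ _ hsτ.ne'
  have g : ∀ x, 9 * ω₀ ≤ x → 2 * (ω₀ * √τ) ≤ x * √τ := by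
    intro x hx
    have : 2 * ω₀ ≤ x := by linarith
    have := mul_le_mul_of_nonneg_right this hsτ.le
    linarith
  rcases h2 with ⟨h2, h3⟩ | ⟨_, h2, h3⟩
  · exact upper_N h hp hq h1 h2 (κ := ω₀ * √τ) (η := ω₀ / 2) hτ (by positivity) (by positivity)
      (fun h0 => by rw [e1]; exact g _ (hω1 h0)) (fun h0 => by rw [e2]; exact g _ (h3 h0))
      c1 c2 n1 n2 (by rw [f1]; exact o1) (by rw [f2]; exact o2) (by rw [f1, f3]; exact s1)
      (by rw [f2, f3]; exact s2)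
  · exact upper_D h hp hq h1 h2 (κ := ω₀ * √τ) (η := ω₀ / 2) hτ (by positivity) (by positivity)
      (fun h0 => by rw [e1]; exact g _ (hω1 h0))
      c1 c2 n1 n2 (by rw [f1]; exact o1) (by rw [f2]; exact o2) (by rw [f1, f3]; exact s1)

theorem lower (h : PFlow p q T N c) (hp : 1 ≤ p) (hq : 1 ≤ q) {x₀ W : V p q}
    {τ ω₀ x₁ x₂ : ℝ} (hτ : 0 < τ) (hω : 0 < ω₀)
    (e1 : (Pm x₀ W).re = x₁ * √τ) (e2 : (Pm x₀ W).im = x₂ * √τ)
    (hω1 : rad₁ x₀ = 0 → 9 * ω₀ ≤ x₁) (h2 : Ty ω₀ x₂ x₀ W) {θ₁ θ₂ : ℝ → ℝ}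
    (c1 : Continuous θ₁) (c2 : Continuous θ₂) (n1 : ∀ x, 0 ≤ θ₁ x) (n2 : ∀ x, 0 ≤ θ₂ x)
    (l1 : ∀ x, θ₁ x ≤ 1) (l2 : ∀ x, θ₂ x ≤ 1)
    (s1 : ∀ x, θ₁ x ≠ 0 → |x - x₁| ≤ ω₀) (s2 : ∀ x, θ₂ x ≠ 0 → |x - x₂| ≤ ω₀) :
    ∃ c₀ : ℝ, 0 < c₀ ∧ ∀ᶠ l : ℝ in atTop, T - τ / l ^ 2 ∈ Ioo 0 T →
      ENNReal.ofReal (c₀ * EE p q T c (rad₁ x₀) (rad₂ x₀) θ₁ θ₂ (T - τ / l ^ 2)) ≤
      μH[(p + q - 1 : ℕ)] (closedBall W (12 * (ω₀ * √τ)) ∩ Bl p q T c x₀ τ l) := by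
  have hsτ : 0 < √τ := Real.sqrt_pos.2 hτ
  have f1 : (Pm x₀ W).re / √τ = x₁ := by rw [e1, mul_div_cancel_right₀ _ hsτ.ne']
  have f2 : (Pm x₀ W).im / √τ = x₂ := by rw [e2, mul_div_cancel_right₀ _ hsτ.ne']
  have f3 : ω₀ * √τ / √τ = ω₀ := mul_div_cancel_right₀ _ hsτ.ne'
  have g : ∀ x, 9 * ω₀ ≤ x → 9 * (ω₀ * √τ) ≤ x * √τ := by
    intro x hx
    have := mul_le_mul_of_nonneg_right hx hsτ.le
    linarith
  obtain ⟨m₁, rfl⟩ : ∃ m₁, p = m₁ + 1 := ⟨p - 1, by omega⟩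
  obtain ⟨m₂, rfl⟩ : ∃ m₂, q = m₂ + 1 := ⟨q - 1, by omega⟩
  have e3 : m₁ + 1 + (m₂ + 1) - 1 = m₁ + m₂ + 1 := by omega
  rw [e3]
  rcases h2 with ⟨_, h3⟩ | ⟨hq2, h2, h3⟩
  · exact lower_N' h hτ (κ := ω₀ * √τ) (by positivity)
      (fun h0 => by rw [e1]; exact g _ (hω1 h0)) (fun h0 => by rw [e2]; exact g _ (h3 h0))
      c1 c2 n1 n2 l1 l2 (by rw [f1, f3]; exact s1) (by rw [f2, f3]; exact s2)
  · exact lower_D' h (by omega) hτ (κ := ω₀ * √τ) (by positivity)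
      (fun h0 => by rw [e1]; exact g _ (hω1 h0)) h2 h3
      c1 c2 n1 n2 l1 l2 (by rw [f1, f3]; exact s1) (by rw [f2, f3]; exact s2)

theorem one_bump (x₁ : ℝ) {ω₀ : ℝ} (hω : 0 < ω₀) : ∃ (θ : ℝ → ℝ) (R D : ℝ), 0 < R ∧ 0 ≤ D ∧
    (∀ R' D', R ≤ R' → D ≤ D' → IsBump θ R' D') ∧ (∀ x, |x - x₁| ≤ ω₀ / 2 → 1 ≤ θ x) ∧
    (∀ x, θ x ≠ 0 → |x - x₁| ≤ ω₀) := by
  let χb : ContDiffBump x₁ := ⟨ω₀ / 2, ω₀, by positivity, by linarith⟩
  have hχs : ContDiff ℝ ∞ (fun x => χb x) := χb.contDiff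
  have hχ1 : ContDiff ℝ 1 (fun x => χb x) := hχs.of_le (by exact_mod_cast le_top)
  have hχc : HasCompactSupport (fun x => χb x) := χb.hasCompactSupport
  obtain ⟨D, hD⟩ := (hχ1.continuous_deriv (le_refl _)).bounded_above_of_compact_support
    hχc.deriv
  have hts : tsupport (fun x => χb x) = closedBall x₁ ω₀ := χb.tsupport_eq
  refine ⟨fun x => χb x, |x₁| + ω₀, D, by positivity, (norm_nonneg _).trans (hD 0), ?_, ?_, ?_⟩
  · intro R' D' hR' hD'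
    refine ⟨hχs, fun x => χb.nonneg, fun x => χb.le_one, fun x => ?_, fun x hx => ?_⟩
    · have := hD x
      rw [Real.norm_eq_abs] at this
      exact this.trans hD'
    · have h2 : x ∉ tsupport (fun x => χb x) := by
        rw [hts, mem_closedBall, Real.dist_eq, not_le]
        have := abs_sub_abs_le_abs_sub x x₁
        linarith
      refine ⟨image_eq_zero_of_notMem_tsupport h2, ?_⟩
      by_contra h3
      exact h2 (support_deriv_subset h3)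
  · intro x hx
    exact (χb.one_of_mem_closedBall (by rw [mem_closedBall, Real.dist_eq]; exact hx)).ge
  · intro x hx
    by_contra h3
    apply hx
    apply χb.zero_of_le_dist
    rw [Real.dist_eq]
    exact (not_le.1 h3).le

section
variable {F : Type*} [NormedAddCommGroup F] [InnerProductSpace ℝ F]

theorem rlim_smul (a x : F) {b : ℝ} (hb : 0 ≤ b) : rlim a (b • x) = b * rlim a x := by
  by_cases ha : a = 0
  · rw [ha, rlim_zero, rlim_zero, norm_smul, Real.norm_eq_abs, abs_of_nonneg hb]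
  · rw [rlim_ne ha, rlim_ne ha, real_inner_smul_left]

end

theorem Pm_smul (x₀ W : V p q) {b : ℝ} (hb : 0 ≤ b) : Pm x₀ (b • W) = b • Pm x₀ W := by
  apply Complex.ext
  · simp only [Pm, map_smul, rlim_smul _ _ hb, Complex.smul_re, smul_eq_mul]
  · simp only [Pm, map_smul, rlim_smul _ _ hb, Complex.smul_im, smul_eq_mul]

section
variable {E : Type*} [NormedAddCommGroup E] [InnerProductSpace ℝ E] [FiniteDimensional ℝ E]
  [MeasurableSpace E] [BorelSpace E]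

theorem lintegral_cut_le (ν : Measure E) (Z : E) {h : ℝ} (hh : 0 < h) (M : Set E) :
    ∫⁻ z in M, cut Z h z ∂ν ≤ ν (closedBall Z (3 * h) ∩ M) := by
  calc ∫⁻ z in M, cut Z h z ∂ν ≤ ∫⁻ z in M, (closedBall Z (3 * h)).indicator 1 z ∂ν := by
        apply lintegral_mono
        intro z
        by_cases hz : z ∈ closedBall Z (3 * h)
        · simp only [indicator_of_mem hz, Pi.one_apply]
          exact_mod_cast cut_le Z h z
        · simp only [indicator_of_notMem hz, cut_eq_zero Z hh hz]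
          simp
    _ = ν (closedBall Z (3 * h) ∩ M) := by
        rw [lintegral_indicator_one isClosed_closedBall.measurableSet,
          Measure.restrict_apply isClosed_closedBall.measurableSet]

theorem le_lintegral_cut (ν : Measure E) (Z : E) {h : ℝ} (hh : 0 < h) :
    ν (closedBall Z (2 * h)) ≤ ∫⁻ z, cut Z h z ∂ν := by
  calc ν (closedBall Z (2 * h)) = ∫⁻ z, (closedBall Z (2 * h)).indicator 1 z ∂ν :=
        (lintegral_indicator_one isClosed_closedBall.measurableSet).symm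
    _ ≤ _ := by
      apply lintegral_mono
      intro z
      by_cases hz : z ∈ closedBall Z (2 * h)
      · simp only [indicator_of_mem hz, Pi.one_apply, cut_eq_one Z hh hz]
        simp
      · simp only [indicator_of_notMem hz]
        exact zero_le

end

theorem EE_nonneg (h : PFlow p q T N c) {α β τ l : ℝ} (hτ : 0 < τ) (hl : 0 < l)
    (ht : T - τ / l ^ 2 ∈ Ioo 0 T) {θ₁ θ₂ : ℝ → ℝ} (n1 : ∀ x, 0 ≤ θ₁ x) (n2 : ∀ x, 0 ≤ θ₂ x) :
    0 ≤ EE p q T c α β θ₁ θ₂ (T - τ / l ^ 2) := by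
  rw [EE_eq h hτ hl ht]
  apply mul_nonneg (Real.exp_pos _).le
  apply Finset.sum_nonneg
  intro j _
  apply intervalIntegral.integral_nonneg zero_le_one
  intro u _
  exact mul_nonneg (mul_nonneg (mul_nonneg (n1 _) (n2 _)) (mul_nonneg (fw_nonneg _ _ _ _)
    (fw_nonneg _ _ _ _))) (norm_nonneg _)

theorem blow_eq_Bl {x₀ : V p q} {l s : ℝ} (hl : 0 < l) :
    blow (surf p q c) T x₀ l s = Bl p q T c x₀ (-s) l := by
  ext z
  have e : T - -s / l ^ 2 = T + s / l ^ 2 := by ring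
  unfold Bl
  rw [e, mem_ofPred_eq]
  exact mem_blow_surf hl.ne' z

theorem ofReal_lim {c₀ : ℝ} (hc₀ : 0 < c₀) {x : ℕ → ℝ} (hx : ∀ᶠ i in atTop, 0 ≤ x i)
    (h : Tendsto (fun i => ENNReal.ofReal (c₀ * x i)) atTop (𝓝 0)) :
    Tendsto x atTop (𝓝 0) := by
  have h1 := (ENNReal.tendsto_toReal ENNReal.zero_ne_top).comp h
  rw [ENNReal.toReal_zero] at h1
  have h2 := h1.const_mul c₀⁻¹
  rw [mul_zero] at h2
  refine h2.congr' ?_
  filter_upwards [hx] with i hi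
  simp only [Function.comp]
  rw [ENNReal.toReal_ofReal (by positivity), ← mul_assoc, inv_mul_cancel₀ hc₀.ne', one_mul]

theorem tau_lim {τ : ℝ} (hT : 0 < T) (hτ : 0 < τ) {l : ℕ → ℝ} (hl : Tendsto l atTop atTop) :
    ∀ᶠ i in atTop, T - τ / l i ^ 2 ∈ Ioo 0 T := by
  have hinv : Tendsto (fun i => (l i ^ 2)⁻¹) atTop (𝓝 0) :=
    ((tendsto_pow_atTop (two_ne_zero)).comp hl).inv_tendsto_atTop
  have h1 : Tendsto (fun i => T - τ / l i ^ 2) atTop (𝓝 T) := by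
    have := (hinv.const_mul τ).const_sub T
    simpa [div_eq_mul_inv] using this
  filter_upwards [hl.eventually_gt_atTop 0, h1.eventually_const_lt hT] with i h2 h3
  have : 0 < τ / l i ^ 2 := by positivity
  exact ⟨h3, by linarith⟩

/-- A point outside of the support at one time is outside of the support at all times, up to the
parabolic dilation. -/
theorem chain (h : PFlow p q T N c) (hp : 1 ≤ p) (hq : 1 ≤ q) (hT : 0 < T) {x₀ W : V p q}
    {μ : ℝ → Measure (V p q)} (hμ : IsTangentFlow (p + q - 1) (surf p q c) T x₀ μ)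
    (h1 : pr₁ x₀ = 0 → pr₁ W ≠ 0)
    (h2 : (pr₂ x₀ = 0 → pr₂ W ≠ 0) ∨ (2 ≤ q ∧ pr₂ x₀ = 0 ∧ pr₂ W = 0)) {s t : ℝ} (hs : s < 0)
    (ht : t < 0) (hW : W ∉ supp (μ s)) : (√(-t) / √(-s)) • W ∉ supp (μ t) := by
  obtain ⟨l, hl, hconv⟩ := hμ
  have hτs : 0 < -s := by linarith
  have hτt : 0 < -t := by linarith
  have hss : 0 < √(-s) := Real.sqrt_pos.2 hτs
  have hst : 0 < √(-t) := Real.sqrt_pos.2 hτt
  set b : ℝ := √(-t) / √(-s) with hb
  have hb0 : 0 < b := by positivity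
  set W' : V p q := b • W with hW'
  set x₁ : ℝ := (Pm x₀ W).re / √(-s) with hx₁
  set x₂ : ℝ := (Pm x₀ W).im / √(-s) with hx₂
  have e1 : (Pm x₀ W).re = x₁ * √(-s) := by rw [hx₁, div_mul_cancel₀ _ hss.ne']
  have e2 : (Pm x₀ W).im = x₂ * √(-s) := by rw [hx₂, div_mul_cancel₀ _ hss.ne']
  have e1' : (Pm x₀ W').re = x₁ * √(-t) := by
    rw [hW', Pm_smul x₀ W hb0.le, Complex.smul_re, smul_eq_mul, e1, hb]
    field_simp
  have e2' : (Pm x₀ W').im = x₂ * √(-t) := by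
    rw [hW', Pm_smul x₀ W hb0.le, Complex.smul_im, smul_eq_mul, e2, hb]
    field_simp
  -- a neighbourhood without mass
  obtain ⟨ρ, hρ, hρ0⟩ : ∃ ρ > 0, μ s (ball W ρ) = 0 := by
    simp only [supp, mem_ofPred_eq, not_forall, not_lt, nonpos_iff_eq_zero] at hW
    obtain ⟨U, hU, hU0⟩ := hW
    obtain ⟨ρ, hρ, hρU⟩ := Metric.mem_nhds_iff.1 hU
    exact ⟨ρ, hρ, measure_mono_null hρU hU0⟩
  -- the size of the test functions
  obtain ⟨b₁, hb₁, hb₁'⟩ : ∃ b₁ > 0, (rad₁ x₀ = 0 → 9 * b₁ ≤ x₁) := by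
    by_cases h0 : rad₁ x₀ = 0
    · have h0' : pr₁ x₀ = 0 := by rwa [rad₁_eq, norm_eq_zero] at h0
      have h3 : 0 < x₁ := by
        rw [hx₁]
        apply div_pos _ hss
        simp only [Pm, h0', rlim_zero]
        exact norm_pos_iff.2 (h1 h0')
      exact ⟨x₁ / 9, by positivity, fun _ => by linarith⟩
    · exact ⟨1, one_pos, fun h => absurd h h0⟩
  obtain ⟨b₂, hb₂, hb₂'⟩ : ∃ b₂ > 0, ((pr₂ x₀ = 0 → pr₂ W ≠ 0) → rad₂ x₀ = 0 → 9 * b₂ ≤ x₂) := by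
    by_cases h0 : rad₂ x₀ = 0 ∧ (pr₂ x₀ = 0 → pr₂ W ≠ 0)
    · have h0' : pr₂ x₀ = 0 := by
        have := h0.1
        rwa [rad₂_eq, norm_eq_zero] at this
      have h3 : 0 < x₂ := by
        rw [hx₂]
        apply div_pos _ hss
        simp only [Pm, h0', rlim_zero]
        exact norm_pos_iff.2 (h0.2 h0')
      exact ⟨x₂ / 9, by positivity, fun _ _ => by linarith⟩
    · exact ⟨1, one_pos, fun h3 h4 => absurd ⟨h4, h3⟩ h0⟩
  set ω₀ : ℝ := min (min b₁ b₂) (ρ / (24 * √(-s))) with hω₀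
  have hω : 0 < ω₀ := by positivity
  have hω1 : rad₁ x₀ = 0 → 9 * ω₀ ≤ x₁ := fun h0 => by
    have h3 := hb₁' h0
    have h4 : ω₀ ≤ b₁ := (min_le_left _ _).trans (min_le_left _ _)
    linarith
  have hω2 : (pr₂ x₀ = 0 → pr₂ W ≠ 0) → rad₂ x₀ = 0 → 9 * ω₀ ≤ x₂ := fun h3 h0 => by
    have h3 := hb₂' h3 h0
    have h4 : ω₀ ≤ b₂ := (min_le_left _ _).trans (min_le_right _ _)
    linarith
  have hω3 : 12 * (ω₀ * √(-s)) ≤ 2 * (ρ / 4) := by
    have h4 : ω₀ ≤ ρ / (24 * √(-s)) := min_le_right _ _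
    have h5 := mul_le_mul_of_nonneg_right h4 hss.le
    have h6 : ρ / (24 * √(-s)) * √(-s) = ρ / 24 := by field_simp
    rw [h6] at h5
    linarith
  have hTy : Ty ω₀ x₂ x₀ W := by
    rcases h2 with h2 | h2
    · exact Or.inl ⟨h2, hω2 h2⟩
    · exact Or.inr h2
  have hTy' : Ty ω₀ x₂ x₀ W' := by
    rcases h2 with h2 | ⟨h2, h3, h4⟩
    · refine Or.inl ⟨fun h0 => ?_, hω2 h2⟩
      rw [hW', map_smul, smul_ne_zero_iff]
      exact ⟨hb0.ne', h2 h0⟩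
    · refine Or.inr ⟨h2, h3, ?_⟩
      rw [hW', map_smul, h4, smul_zero]
  have h1' : pr₁ x₀ = 0 → pr₁ W' ≠ 0 := fun h0 => by
    rw [hW', map_smul, smul_ne_zero_iff]
    exact ⟨hb0.ne', h1 h0⟩
  -- the test functions
  obtain ⟨θ₁, R₁, D₁, hR₁, hD₁, hB₁, o1, s1⟩ := one_bump x₁ hω
  obtain ⟨θ₂, R₂, D₂, hR₂, hD₂, hB₂, o2, s2⟩ := one_bump x₂ hω
  have B1 : IsBump θ₁ (max R₁ R₂) (max D₁ D₂) := hB₁ _ _ (le_max_left _ _) (le_max_left _ _)
  have B2 : IsBump θ₂ (max R₁ R₂) (max D₁ D₂) := hB₂ _ _ (le_max_right _ _) (le_max_right _ _)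
  have c1 : Continuous θ₁ := B1.smooth.continuous
  have c2 : Continuous θ₂ := B2.smooth.continuous
  obtain ⟨c₀, hc₀, hlow⟩ := lower h hp hq hτs hω e1 e2 hω1 hTy c1 c2 B1.nonneg B2.nonneg
    B1.le_one B2.le_one s1 s2
  obtain ⟨C, r, hr, hup⟩ := upper h hp hq h1' hτt hω e1' e2' hω1 hTy' c1 c2 B1.nonneg B2.nonneg
    o1 o2 s1 s2
  have hts := tau_lim (T := T) hT hτs hl
  have htt := tau_lim (T := T) hT hτt hl
  have hl0 := hl.eventually_gt_atTop 0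
  -- the length tends to zero at the first time
  have hEs : Tendsto (fun i => EE p q T c (rad₁ x₀) (rad₂ x₀) θ₁ θ₂ (T - -s / l i ^ 2)) atTop
      (𝓝 0) := by
    have hz : ∫⁻ z, cut W (ρ / 4) z ∂(μ s) = 0 := by
      have h3 := lintegral_cut_le (μ s) W (h := ρ / 4) (by positivity) univ
      rw [Measure.restrict_univ, inter_univ] at h3
      have h4 : μ s (closedBall W (3 * (ρ / 4))) = 0 :=
        measure_mono_null (closedBall_subset_ball (by linarith)) hρ0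
      exact le_antisymm (h3.trans h4.le) zero_le
    have h3 := (hconv s hs).2 (cut W (ρ / 4)) (cut_cont _ _) (cut_supp W (by positivity))
    rw [hz] at h3
    apply ofReal_lim hc₀
    · filter_upwards [hl0, hts] with i hli hti
      exact EE_nonneg h hτs hli hti B1.nonneg B2.nonneg
    · refine tendsto_of_tendsto_of_tendsto_of_le_of_le' tendsto_const_nhds h3
        (Eventually.of_forall fun i => zero_le) ?_
      filter_upwards [hl0, hts, hl.eventually hlow] with i hli hti hlowi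
      rw [blow_eq_Bl hli]
      refine (hlowi hti).trans ((measure_mono ?_).trans
        (measure_le_lintegral_cut (p + q - 1) W (h := ρ / 4) (by positivity) _))
      exact inter_subset_inter_left _ (closedBall_subset_closedBall hω3)
  -- and at the second time
  have hEt : Tendsto (fun i => EE p q T c (rad₁ x₀) (rad₂ x₀) θ₁ θ₂ (T - -t / l i ^ 2)) atTop
      (𝓝 0) := by
    have hα : 0 ≤ rad₁ x₀ := Real.sqrt_nonneg _
    have hβ : 0 ≤ rad₂ x₀ := Real.sqrt_nonneg _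
    have hRR : 0 < max R₁ R₂ := hR₁.trans_le (le_max_left _ _)
    have hDD : 0 ≤ max D₁ D₂ := hD₁.trans (le_max_left _ _)
    rcases le_total (-t) (-s) with h3 | h3
    · have h4 := (EE_tendsto h hp hq hT hα hβ hRR hDD B1 B2 hτt h3 hl).add hEs
      rw [add_zero] at h4
      exact h4.congr fun i => by ring
    · have h4 := hEs.sub (EE_tendsto h hp hq hT hα hβ hRR hDD B1 B2 hτs h3 hl)
      rw [sub_zero] at h4
      exact h4.congr fun i => by ring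
  -- conclusion
  have hz : ∫⁻ z, cut W' (r / 3) z ∂(μ t) = 0 := by
    have h3 := (hconv t ht).2 (cut W' (r / 3)) (cut_cont _ _) (cut_supp W' (by positivity))
    have h4 : Tendsto (fun i => (C : ℝ≥0∞) * ENNReal.ofReal
        (EE p q T c (rad₁ x₀) (rad₂ x₀) θ₁ θ₂ (T - -t / l i ^ 2))) atTop (𝓝 0) := by
      have h5 := (ENNReal.continuous_ofReal.tendsto 0).comp hEt
      rw [ENNReal.ofReal_zero] at h5
      have h6 := ENNReal.Tendsto.const_mul (a := (C : ℝ≥0∞)) h5 (Or.inr ENNReal.coe_ne_top)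
      rw [mul_zero] at h6
      exact h6
    refine tendsto_nhds_unique h3 (tendsto_of_tendsto_of_tendsto_of_le_of_le' tendsto_const_nhds h4
        (Eventually.of_forall fun i => zero_le) ?_)
    filter_upwards [hl0, htt, hl.eventually hup] with i hli hti hupi
    rw [blow_eq_Bl hli]
    refine (lintegral_cut_le _ W' (by positivity) _).trans (le_trans (le_of_eq ?_) (hupi hti))
    have : 3 * (r / 3) = r := by ring
    rw [this]
  intro hcon
  have h3 := hcon _ (closedBall_mem_nhds W' (show 0 < 2 * (r / 3) by positivity))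
  have h4 := le_lintegral_cut (μ t) W' (h := r / 3) (by positivity)
  rw [hz] at h4
  exact absurd h4 (not_le.2 h3)

end Pool.Agent.Helper532_SymMCF

end

section

/-!
Regularity of all the negative time slices of the tangent flows.
-/

open Set Filter MeasureTheory Topology Metric Module
open scoped ContDiff NNReal ENNReal

namespace Pool.Agent.Helper532_SymMCF

variable {p q N : ℕ} {T : ℝ} {c : Fin N → ℝ → ℝ → ℂ}

theorem V_zero {z : V p q} (h1 : pr₁ z = 0) (h2 : pr₂ z = 0) : z = 0 := by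
  rw [← inc_add z, h1, h2, map_zero, map_zero, add_zero]

/-- A point outside of the support at one time is outside of the support at all times, up to the
parabolic dilation. -/
theorem chain_all (h : PFlow p q T N c) (hp : 1 ≤ p) (hq : 1 ≤ q) (hT : 0 < T) {x₀ W : V p q}
    (hp1 : p = 1 → pr₁ x₀ ≠ 0) (hq1 : q = 1 → pr₂ x₀ ≠ 0)
    {μ : ℝ → Measure (V p q)} (hμ : IsTangentFlow (p + q - 1) (surf p q c) T x₀ μ)
    (h0 : ¬ (x₀ = 0 ∧ W = 0)) {s t : ℝ} (hs : s < 0)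
    (ht : t < 0) (hW : W ∉ supp (μ s)) : (√(-t) / √(-s)) • W ∉ supp (μ t) := by
  by_cases h1 : pr₁ x₀ = 0 ∧ pr₁ W = 0
  · have h2 : pr₂ x₀ = 0 → pr₂ W ≠ 0 := fun h3 h4 =>
      h0 ⟨V_zero h1.1 h3, V_zero h1.2 h4⟩
    have hp2 : 2 ≤ p := by
      by_contra hcon
      exact hp1 (by omega) h1.1
    have h5 := chain h.swap hq hp hT (x₀ := swV p q x₀) (W := swV p q W) hμ.swap
      (by rw [pr₁_swV, pr₁_swV]; exact h2)
      (Or.inr ⟨hp2, by rw [pr₂_swV]; exact h1.1, by rw [pr₂_swV]; exact h1.2⟩) hs ht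
      (fun h6 => hW ((supp_swV _ _).1 h6))
    intro h6
    apply h5
    rw [← map_smul]
    exact (supp_swV _ _).2 h6
  · by_cases h2 : pr₂ x₀ = 0 ∧ pr₂ W = 0
    · have hq2 : 2 ≤ q := by
        by_contra hcon
        exact hq1 (by omega) h2.1
      exact chain h hp hq hT hμ (fun h3 h4 => h1 ⟨h3, h4⟩) (Or.inr ⟨hq2, h2⟩) hs ht hW
    · exact chain h hp hq hT hμ (fun h3 h4 => h1 ⟨h3, h4⟩) (Or.inl fun h3 h4 => h2 ⟨h3, h4⟩)
        hs ht hW

/-- The supports of the slices are dilates of each other. -/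
theorem supp_dilate (h : PFlow p q T N c) (hp : 1 ≤ p) (hq : 1 ≤ q) (hT : 0 < T) {x₀ W : V p q}
    (hp1 : p = 1 → pr₁ x₀ ≠ 0) (hq1 : q = 1 → pr₂ x₀ ≠ 0)
    {μ : ℝ → Measure (V p q)} (hμ : IsTangentFlow (p + q - 1) (surf p q c) T x₀ μ)
    (h0 : ¬ (x₀ = 0 ∧ W = 0)) {s t : ℝ} (hs : s < 0) (ht : t < 0) :
    W ∈ supp (μ s) ↔ (√(-t) / √(-s)) • W ∈ supp (μ t) := by
  have hss : 0 < √(-s) := Real.sqrt_pos.2 (by linarith)
  have hst : 0 < √(-t) := Real.sqrt_pos.2 (by linarith)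
  constructor
  · intro h1
    by_contra h2
    have h3 := chain_all h hp hq hT hp1 hq1 hμ (W := (√(-t) / √(-s)) • W) (fun h4 => by
      apply h0
      refine ⟨h4.1, ?_⟩
      have h5 := h4.2
      rw [smul_eq_zero] at h5
      exact h5.resolve_left (by positivity)) ht hs h2
    apply h3
    rw [smul_smul]
    have e : √(-s) / √(-t) * (√(-t) / √(-s)) = 1 := by field_simp
    rw [e, one_smul]
    exact h1
  · intro h1
    by_contra h2
    exact chain_all h hp hq hT hp1 hq1 hμ h0 hs ht h2 h1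

theorem smooth_dil_loc {E : Type*} [NormedAddCommGroup E] [NormedSpace ℝ E] {S S' O : Set E}
    {ρ : ℝ} (hρ : ρ ≠ 0) (hO : IsOpen O) (hS : ∀ z ∈ O, z ∈ S' ↔ ρ • z ∈ S) {z : E} (hz : z ∈ O)
    (h : IsSmoothHypersurfaceAt S (ρ • z)) : IsSmoothHypersurfaceAt S' z := by
  obtain ⟨U, hU, hzU, f, hf, hf', hSU⟩ :=
    smooth_dil hρ (S := S) (S' := {w | ρ • w ∈ S}) (fun w => Iff.rfl) h
  refine ⟨U ∩ O, hU.inter hO, ⟨hzU, hz⟩, f, hf.mono inter_subset_left,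
    fun w hw => hf' w hw.1, ?_⟩
  ext w
  constructor
  · rintro ⟨h1, h2⟩
    refine ⟨h2, ?_⟩
    have : w ∈ {w | ρ • w ∈ S} ∩ U := ⟨(hS w h2.2).1 h1, h2.1⟩
    rw [hSU] at this
    exact this.2
  · rintro ⟨h1, h2⟩
    refine ⟨?_, h1⟩
    have : w ∈ {w | ρ • w ∈ S} ∩ U := by
      rw [hSU]; exact ⟨h1.1, h2⟩
    exact (hS w h1.2).2 this.1

/-- At every negative time, the only possible singular point is the origin, and only if the
base point of the tangent flow is the origin. -/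
theorem every' (h : PFlow p q T N c) (hp : 1 ≤ p) (hq : 1 ≤ q) (hT : 0 < T)
    {x₀ : V p q} (hp1 : p = 1 → pr₁ x₀ ≠ 0) (hq1 : q = 1 → pr₂ x₀ ≠ 0) {μ : ℝ → Measure (V p q)}
    (hμ : IsTangentFlow (p + q - 1) (surf p q c) T x₀ μ) :
    ∀ t < 0, sing (supp (μ t)) ⊆ {z | x₀ = 0 ∧ z = 0} := by
  intro t ht
  obtain ⟨s, hs, hs0⟩ : ∃ s < 0, sing (supp (μ s)) ⊆ {z | x₀ = 0 ∧ z = 0} := by
    have : (ae (volume.restrict (Iio (0 : ℝ)))).NeBot := by
      rw [ae_neBot]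
      intro h0
      have := congrArg (fun m : Measure ℝ => m univ) h0
      simp at this
    obtain ⟨s, h1, h2⟩ := ((all_points' h hp hq hT hp1 hq1 hμ).and
      (ae_restrict_mem measurableSet_Iio)).exists
    exact ⟨s, h2, h1⟩
  rintro z ⟨hz, hns⟩
  by_contra hcon
  have hss : 0 < √(-s) := Real.sqrt_pos.2 (by linarith)
  have hst : 0 < √(-t) := Real.sqrt_pos.2 (by linarith)
  have hρ : √(-s) / √(-t) ≠ 0 := by positivity
  have h1 := (supp_dilate h hp hq hT hp1 hq1 hμ hcon ht hs).1 hz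
  have hns' : ¬ (x₀ = 0 ∧ (√(-s) / √(-t)) • z = 0) := fun h4 => by
    apply hcon
    refine ⟨h4.1, ?_⟩
    have h5 := h4.2
    rw [smul_eq_zero] at h5
    exact h5.resolve_left hρ
  have h2 : IsSmoothHypersurfaceAt (supp (μ s)) ((√(-s) / √(-t)) • z) := by
    by_contra h3
    exact hns' (hs0 ⟨h1, h3⟩)
  apply hns
  have hO : IsOpen {w : V p q | ¬ (x₀ = 0 ∧ w = 0)} := by
    by_cases hx : x₀ = 0
    · simp only [hx, true_and]
      exact isOpen_compl_singleton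
    · simp [hx]
  exact smooth_dil_loc hρ hO (fun w hw => supp_dilate h hp hq hT hp1 hq1 hμ hw ht hs) hcon h2

/-- At every negative time, the only possible singular point is the origin, and only if the
base point of the tangent flow is the origin. -/
theorem every (h : IsProfileFlow p q T N c) (hp : 2 ≤ p) (hq : 2 ≤ q) (hT : 0 < T)
    {x₀ : V p q} {μ : ℝ → Measure (V p q)}
    (hμ : IsTangentFlow (p + q - 1) (surf p q c) T x₀ μ) :
    ∀ t < 0, sing (supp (μ t)) ⊆ {z | x₀ = 0 ∧ z = 0} :=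
  every' (h.toP hp hq) (by omega) (by omega) hT (by omega) (by omega) hμ

/-- For hypersurfaces of revolution, all the time slices of the tangent flows are smooth. -/
theorem rot_every (h : IsRotFlow p T N c) (hp : 2 ≤ p) (hT : 0 < T) {x₀ : V p 1}
    {μ : ℝ → Measure (V p 1)} (hμ : IsTangentFlow p (surfRot p c) T x₀ μ) :
    ∀ t < 0, sing (supp (μ t)) = ∅ := by
  intro t ht
  rw [eq_empty_iff_forall_notMem]
  intro z hz
  have h1 := (every' (h.toP hp (1 - x₀ (Sum.inr 0))) (by omega) (le_refl 1) hT (by omega)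
    (fun _ => pr₂_ne x₀) (tangent_rot (by omega) hμ) t ht hz).1
  apply pr₂_ne x₀
  rw [h1, map_zero]

end Pool.Agent.Helper532_SymMCF

end
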