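import Pool.Agent.Helper532_SymMCF.Defs

section

/-!
Partial derivatives of functions of two real variables, and the first variation of a weighted
length of a smooth family of closed plane curves.
-/

open Set Filter MeasureTheory Topology Metric Module
open scoped ContDiff NNReal ENNReal

namespace Pool.Agent.Helper532_SymMCF

/-- the open strip -/
def Str (T : ℝ) : Set (ℝ × ℝ) := Ioo 0 T ×ˢ univ

theorem Str_open (T : ℝ) : IsOpen (Str T) := isOpen_Ioo.prod isOpen_univ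

theorem mem_Str {T t u : ℝ} : (t, u) ∈ Str T ↔ t ∈ Ioo 0 T := by simp [Str]

section
variable {E : Type*} [NormedAddCommGroup E] [NormedSpace ℝ E]

/-- derivative in the first variable -/
noncomputable def D1 (F : ℝ × ℝ → E) (z : ℝ × ℝ) : E := fderiv ℝ F z (1, 0)

/-- derivative in the second variable -/
noncomputable def D2 (F : ℝ × ℝ → E) (z : ℝ × ℝ) : E := fderiv ℝ F z (0, 1)

theorem smooth_D1 {T : ℝ} {F : ℝ × ℝ → E} (h : ContDiffOn ℝ ∞ F (Str T)) :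
    ContDiffOn ℝ ∞ (D1 F) (Str T) :=
  (h.fderiv_of_isOpen (Str_open T) (m := ∞) (by simp)).clm_apply contDiffOn_const

theorem smooth_D2 {T : ℝ} {F : ℝ × ℝ → E} (h : ContDiffOn ℝ ∞ F (Str T)) :
    ContDiffOn ℝ ∞ (D2 F) (Str T) :=
  (h.fderiv_of_isOpen (Str_open T) (m := ∞) (by simp)).clm_apply contDiffOn_const

theorem smooth_at {T : ℝ} {F : ℝ × ℝ → E} (h : ContDiffOn ℝ ∞ F (Str T)) {z : ℝ × ℝ}
    (hz : z ∈ Str T) : ContDiffAt ℝ ∞ F z :=
  h.contDiffAt ((Str_open T).mem_nhds hz)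

theorem hasD1 {T : ℝ} {F : ℝ × ℝ → E} (h : ContDiffOn ℝ ∞ F (Str T)) {t u : ℝ}
    (hz : t ∈ Ioo 0 T) : HasDerivAt (fun s => F (s, u)) (D1 F (t, u)) t := by
  have h1 := ((smooth_at h (mem_Str.2 hz : (t, u) ∈ Str T)).differentiableAt (by simp)).hasFDerivAt
  have h2 : HasDerivAt (fun s : ℝ => (s, u)) ((1 : ℝ), (0 : ℝ)) t :=
    (hasDerivAt_id t).prodMk (hasDerivAt_const t u)
  exact h1.comp_hasDerivAt t h2

theorem hasD2 {T : ℝ} {F : ℝ × ℝ → E} (h : ContDiffOn ℝ ∞ F (Str T)) {t u : ℝ}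
    (hz : t ∈ Ioo 0 T) : HasDerivAt (fun s => F (t, s)) (D2 F (t, u)) u := by
  have h1 := ((smooth_at h (mem_Str.2 hz : (t, u) ∈ Str T)).differentiableAt (by simp)).hasFDerivAt
  have h2 : HasDerivAt (fun s : ℝ => (t, s)) ((0 : ℝ), (1 : ℝ)) u :=
    (hasDerivAt_const u t).prodMk (hasDerivAt_id u)
  exact h1.comp_hasDerivAt u h2

theorem D12 {T : ℝ} {F : ℝ × ℝ → E} (h : ContDiffOn ℝ ∞ F (Str T)) {z : ℝ × ℝ}
    (hz : z ∈ Str T) : D1 (D2 F) z = D2 (D1 F) z := by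
  have h1 := (smooth_at h hz).isSymmSndFDerivAt (by
    rw [minSmoothness_of_isRCLikeNormedField]; exact ENat.LEInfty.out)
  have h2 : DifferentiableAt ℝ (fderiv ℝ F) z :=
    ((smooth_at h hz).fderiv_right (m := ∞) (by simp)).differentiableAt (by simp)
  have e1 : fderiv ℝ (D2 F) z = (fderiv ℝ (fderiv ℝ F) z).flip (0, 1) := by
    have : D2 F = fun w => (fderiv ℝ F w) (0, 1) := rfl
    rw [this, fderiv_clm_apply h2 (differentiableAt_const _)]
    simp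
  have e2 : fderiv ℝ (D1 F) z = (fderiv ℝ (fderiv ℝ F) z).flip (1, 0) := by
    have : D1 F = fun w => (fderiv ℝ F w) (1, 0) := rfl
    rw [this, fderiv_clm_apply h2 (differentiableAt_const _)]
    simp
  rw [D1, e1, D2, e2]
  simp only [ContinuousLinearMap.flip_apply]
  exact h1 _ _

theorem D1_unique {T : ℝ} {F : ℝ × ℝ → E} (h : ContDiffOn ℝ ∞ F (Str T)) {t u : ℝ}
    (hz : t ∈ Ioo 0 T) {d : E} (hd : HasDerivAt (fun s => F (s, u)) d t) : D1 F (t, u) = d :=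
  (hasD1 h hz).unique hd

theorem D2_unique {T : ℝ} {F : ℝ × ℝ → E} (h : ContDiffOn ℝ ∞ F (Str T)) {t u : ℝ}
    (hz : t ∈ Ioo 0 T) {d : E} (hd : HasDerivAt (fun s => F (t, s)) d u) : D2 F (t, u) = d :=
  (hasD2 h hz).unique hd

theorem D2_periodic {T : ℝ} {F : ℝ × ℝ → E} (h : ContDiffOn ℝ ∞ F (Str T))
    (hp : ∀ t ∈ Ioo 0 T, ∀ u, F (t, u + 1) = F (t, u)) :
    ∀ t ∈ Ioo 0 T, ∀ u, D2 F (t, u + 1) = D2 F (t, u) := by
  intro t ht u
  have h1 : HasDerivAt (fun s => F (t, s + 1)) (D2 F (t, u + 1)) u := by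
    have := (hasD2 h ht (u := u + 1)).comp_add_const u 1
    exact this
  have h2 : (fun s => F (t, s + 1)) = fun s => F (t, s) := by
    ext s; exact hp t ht s
  rw [h2] at h1
  exact h1.unique (hasD2 h ht)

theorem D1_periodic {T : ℝ} {F : ℝ × ℝ → E} (h : ContDiffOn ℝ ∞ F (Str T))
    (hp : ∀ t ∈ Ioo 0 T, ∀ u, F (t, u + 1) = F (t, u)) :
    ∀ t ∈ Ioo 0 T, ∀ u, D1 F (t, u + 1) = D1 F (t, u) := by
  intro t ht u
  have h1 := hasD1 h ht (u := u + 1)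
  have h2 : HasDerivAt (fun s => F (s, u)) (D1 F (t, u + 1)) t := by
    apply h1.congr_of_eventuallyEq
    filter_upwards [isOpen_Ioo.mem_nhds ht] with s hs
    exact (hp s hs u).symm
  exact h2.unique (hasD1 h ht)

omit [NormedSpace ℝ E] in
theorem cont_snd {T : ℝ} {F : ℝ × ℝ → E} (h : ContinuousOn F (Str T)) {t : ℝ}
    (ht : t ∈ Ioo 0 T) : Continuous fun u => F (t, u) := by
  rw [← continuousOn_univ]
  apply h.comp (by fun_prop)
  intro u _
  exact mem_Str.2 ht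

end

theorem int_D2_zero {T : ℝ} {P : ℝ × ℝ → ℝ} (h : ContDiffOn ℝ ∞ P (Str T))
    (hp : ∀ t ∈ Ioo 0 T, ∀ u, P (t, u + 1) = P (t, u)) {t : ℝ} (ht : t ∈ Ioo 0 T) :
    ∫ u in (0 : ℝ)..1, D2 P (t, u) = 0 := by
  rw [intervalIntegral.integral_eq_sub_of_hasDerivAt (f := fun u => P (t, u))
    (fun u _ => hasD2 h ht)]
  · have := hp t ht 0
    rw [zero_add] at this
    rw [this, sub_self]
  · exact (cont_snd (smooth_D2 h).continuousOn ht).intervalIntegrable _ _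

theorem cont_integral {T : ℝ} {G : ℝ × ℝ → ℝ} (h : ContinuousOn G (Str T)) :
    ContinuousOn (fun t => ∫ u in (0 : ℝ)..1, G (t, u)) (Ioo 0 T) := by
  intro t₀ ht₀
  apply ContinuousAt.continuousWithinAt
  obtain ⟨a, b, ⟨ha, hb⟩, hsub⟩ : ∃ a b, t₀ ∈ Ioo a b ∧ Icc a b ⊆ Ioo 0 T := by
    refine ⟨t₀ / 2, (t₀ + T) / 2, ⟨by linarith [ht₀.1], by linarith [ht₀.2]⟩, ?_⟩
    intro x hx
    exact ⟨by linarith [hx.1, ht₀.1], by linarith [hx.2, ht₀.2]⟩
  have hK : IsCompact (Icc a b ×ˢ Icc (0 : ℝ) 1) := isCompact_Icc.prod isCompact_Icc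
  have hGK : ContinuousOn G (Icc a b ×ˢ Icc (0 : ℝ) 1) :=
    h.mono (prod_mono hsub (subset_univ _))
  obtain ⟨C, hC⟩ := hK.exists_bound_of_continuousOn hGK
  apply intervalIntegral.continuousAt_of_dominated_interval (bound := fun _ => C)
  · filter_upwards [Icc_mem_nhds ha hb] with t ht
    exact (cont_snd h (hsub ht)).aestronglyMeasurable
  · filter_upwards [Icc_mem_nhds ha hb] with t ht
    apply ae_of_all
    intro u hu
    rw [uIoc_of_le zero_le_one] at hu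
    exact hC (t, u) ⟨ht, ⟨hu.1.le, hu.2⟩⟩
  · simp
  · apply ae_of_all
    intro u _
    have : ContinuousAt G (t₀, u) := h.continuousAt ((Str_open T).mem_nhds (mem_Str.2 ht₀))
    exact ContinuousAt.comp (f := fun t => (t, u)) this (by fun_prop)

theorem int_D1 {T : ℝ} {F : ℝ × ℝ → ℝ} (h : ContDiffOn ℝ ∞ F (Str T)) {a b : ℝ}
    (ha : a ∈ Ioo 0 T) (hb : b ∈ Ioo 0 T) (hab : a ≤ b) :
    (∫ u in (0 : ℝ)..1, F (b, u)) - ∫ u in (0 : ℝ)..1, F (a, u) =
      ∫ t in a..b, ∫ u in (0 : ℝ)..1, D1 F (t, u) := by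
  have hsub : Icc a b ⊆ Ioo 0 T := fun x hx => ⟨ha.1.trans_le hx.1, hx.2.trans_lt hb.2⟩
  have hD := (smooth_D1 h).continuousOn
  rw [intervalIntegral_intervalIntegral_swap (F := fun t u => D1 F (t, u))]
  · rw [← intervalIntegral.integral_sub]
    · apply intervalIntegral.integral_congr
      intro u _
      simp only
      rw [intervalIntegral.integral_eq_sub_of_hasDerivAt (f := fun t => F (t, u))]
      · intro t ht
        rw [uIcc_of_le hab] at ht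
        exact hasD1 h (hsub ht)
      · apply ContinuousOn.intervalIntegrable
        rw [uIcc_of_le hab]
        apply hD.comp (by fun_prop)
        intro t ht
        exact mem_Str.2 (hsub ht)
    · exact (cont_snd h.continuousOn hb).intervalIntegrable _ _
    · exact (cont_snd h.continuousOn ha).intervalIntegrable _ _
  · rw [uIoc_of_le hab, uIoc_of_le zero_le_one]
    have : ContinuousOn (D1 F) (Icc a b ×ˢ Icc (0 : ℝ) 1) :=
      hD.mono (prod_mono hsub (subset_univ _))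
    have h2 := this.integrableOn_compact (isCompact_Icc.prod isCompact_Icc) (μ := volume)
    exact h2.mono_set (prod_mono Ioc_subset_Icc_self Ioc_subset_Icc_self)

/-- The integrand in the first variation formula. -/
noncomputable def vint (E v ru su ruu suu rt st a b lr ls lt A B : ℝ) : ℝ :=
  Real.exp E * v * (lt + (-su * lr + ru * ls) / v * ((-su * rt + ru * st) / v)
    - (-su * ruu + ru * suu) / v ^ 3 * ((-su * rt + ru * st) / v)
    + (ru * lr + su * ls) / v * ((ru * a + su * b) / v)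
    + (A * ru ^ 2 + B * su ^ 2) / v ^ 2
    + (-su * ruu + ru * suu) / v ^ 3 * ((-su * a + ru * b) / v))

/-- First variation of the weighted length. -/
theorem mono_id {T : ℝ} {r s E a b lr ls lt A B : ℝ × ℝ → ℝ}
    (hr : ContDiffOn ℝ ∞ r (Str T)) (hs : ContDiffOn ℝ ∞ s (Str T))
    (hE : ContDiffOn ℝ ∞ E (Str T)) (ha : ContDiffOn ℝ ∞ a (Str T))
    (hb : ContDiffOn ℝ ∞ b (Str T))
    (pr : ∀ t ∈ Ioo 0 T, ∀ u, r (t, u + 1) = r (t, u))
    (ps : ∀ t ∈ Ioo 0 T, ∀ u, s (t, u + 1) = s (t, u))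
    (pE : ∀ t ∈ Ioo 0 T, ∀ u, E (t, u + 1) = E (t, u))
    (pa : ∀ t ∈ Ioo 0 T, ∀ u, a (t, u + 1) = a (t, u))
    (pb : ∀ t ∈ Ioo 0 T, ∀ u, b (t, u + 1) = b (t, u))
    (himm : ∀ z ∈ Str T, D2 r z ^ 2 + D2 s z ^ 2 ≠ 0)
    (dE1 : ∀ z ∈ Str T, D1 E z = lr z * D1 r z + ls z * D1 s z + lt z)
    (dE2 : ∀ z ∈ Str T, D2 E z = lr z * D2 r z + ls z * D2 s z)
    (da : ∀ z ∈ Str T, D2 a z = A z * D2 r z) (db : ∀ z ∈ Str T, D2 b z = B z * D2 s z)
    {t₁ t₂ : ℝ} (h1 : t₁ ∈ Ioo 0 T) (h2 : t₂ ∈ Ioo 0 T) (h12 : t₁ ≤ t₂) :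
    (∫ u in (0 : ℝ)..1, Real.exp (E (t₂, u)) * √(D2 r (t₂, u) ^ 2 + D2 s (t₂, u) ^ 2)) -
      (∫ u in (0 : ℝ)..1, Real.exp (E (t₁, u)) * √(D2 r (t₁, u) ^ 2 + D2 s (t₁, u) ^ 2)) =
    ∫ t in t₁..t₂, ∫ u in (0 : ℝ)..1,
      vint (E (t, u)) (√(D2 r (t, u) ^ 2 + D2 s (t, u) ^ 2)) (D2 r (t, u)) (D2 s (t, u))
        (D2 (D2 r) (t, u)) (D2 (D2 s) (t, u)) (D1 r (t, u)) (D1 s (t, u)) (a (t, u)) (b (t, u))
        (lr (t, u)) (ls (t, u)) (lt (t, u)) (A (t, u)) (B (t, u)) := by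
  set ru := D2 r with hru
  set su := D2 s with hsu
  set rt := D1 r with hrt
  set st := D1 s with hst
  have sru : ContDiffOn ℝ ∞ ru (Str T) := smooth_D2 hr
  have ssu : ContDiffOn ℝ ∞ su (Str T) := smooth_D2 hs
  have srt : ContDiffOn ℝ ∞ rt (Str T) := smooth_D1 hr
  have sst : ContDiffOn ℝ ∞ st (Str T) := smooth_D1 hs
  set v : ℝ × ℝ → ℝ := fun z => √(ru z ^ 2 + su z ^ 2) with hv
  have sv : ContDiffOn ℝ ∞ v (Str T) :=
    ((sru.pow 2).add (ssu.pow 2)).sqrt himm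
  have vpos : ∀ z ∈ Str T, 0 < v z := fun z hz =>
    Real.sqrt_pos.2 (lt_of_le_of_ne (by positivity) (himm z hz).symm)
  have vsq : ∀ z, v z ^ 2 = ru z ^ 2 + su z ^ 2 := fun z => Real.sq_sqrt (by positivity)
  set F : ℝ × ℝ → ℝ := fun z => Real.exp (E z) * v z with hF
  set P1 : ℝ × ℝ → ℝ := fun z => Real.exp (E z) * (ru z * rt z + su z * st z) / v z with hP1
  set P2 : ℝ × ℝ → ℝ := fun z => Real.exp (E z) * (ru z * a z + su z * b z) / v z with hP2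
  have sF : ContDiffOn ℝ ∞ F (Str T) := hE.exp.mul sv
  have sP1 : ContDiffOn ℝ ∞ P1 (Str T) :=
    (hE.exp.mul ((sru.mul srt).add (ssu.mul sst))).div sv (fun z hz => (vpos z hz).ne')
  have sP2 : ContDiffOn ℝ ∞ P2 (Str T) :=
    (hE.exp.mul ((sru.mul ha).add (ssu.mul hb))).div sv (fun z hz => (vpos z hz).ne')
  have pru := D2_periodic hr pr
  have psu := D2_periodic hs ps
  have prt := D1_periodic hr pr
  have pst := D1_periodic hs ps
  have pv : ∀ t ∈ Ioo 0 T, ∀ u, v (t, u + 1) = v (t, u) := by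
    intro t ht u
    simp only [hv, hru, hsu, pru t ht u, psu t ht u]
  have pP1 : ∀ t ∈ Ioo 0 T, ∀ u, P1 (t, u + 1) = P1 (t, u) := by
    intro t ht u
    simp only [hP1, pv t ht u, pE t ht u, hru, hsu, hrt, hst, pru t ht u, psu t ht u, prt t ht u,
      pst t ht u]
  have pP2 : ∀ t ∈ Ioo 0 T, ∀ u, P2 (t, u + 1) = P2 (t, u) := by
    intro t ht u
    simp only [hP2, pv t ht u, pE t ht u, hru, hsu, pru t ht u, psu t ht u, pa t ht u,
      pb t ht u]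
  have key := int_D1 sF h1 h2 h12
  rw [key]
  apply intervalIntegral.integral_congr
  intro t ht
  rw [uIcc_of_le h12] at ht
  have htT : t ∈ Ioo 0 T := ⟨h1.1.trans_le ht.1, ht.2.trans_lt h2.2⟩
  simp only
  have e1 : ∫ u in (0 : ℝ)..1, D1 F (t, u) =
      ∫ u in (0 : ℝ)..1, (D1 F (t, u) - D2 P1 (t, u) + D2 P2 (t, u)) := by
    have i1 := (cont_snd (smooth_D1 sF).continuousOn htT).intervalIntegrable (μ := volume) 0 1
    have i2 := (cont_snd (smooth_D2 sP1).continuousOn htT).intervalIntegrable (μ := volume) 0 1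
    have i3 := (cont_snd (smooth_D2 sP2).continuousOn htT).intervalIntegrable (μ := volume) 0 1
    rw [intervalIntegral.integral_add (i1.sub i2) i3, intervalIntegral.integral_sub i1 i2,
      int_D2_zero sP1 pP1 htT, int_D2_zero sP2 pP2 htT]
    ring
  rw [e1]
  apply intervalIntegral.integral_congr
  intro u _
  simp only
  have hz : (t, u) ∈ Str T := mem_Str.2 htT
  have hvp := vpos _ hz
  have hvs := vsq (t, u)
  -- derivatives
  have dEt := hasD1 hE htT (u := u)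
  have dEu := hasD2 hE htT (u := u)
  have drut : HasDerivAt (fun x => ru (x, u)) (D2 rt (t, u)) t := by
    have := hasD1 sru htT (u := u)
    rwa [hru, D12 hr hz] at this
  have dsut : HasDerivAt (fun x => su (x, u)) (D2 st (t, u)) t := by
    have := hasD1 ssu htT (u := u)
    rwa [hsu, D12 hs hz] at this
  have druu := hasD2 sru htT (u := u)
  have dsuu := hasD2 ssu htT (u := u)
  have drtu := hasD2 srt htT (u := u)
  have dstu := hasD2 sst htT (u := u)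
  have dau := hasD2 ha htT (u := u)
  have dbu := hasD2 hb htT (u := u)
  have himz := himm _ hz
  have dvt : HasDerivAt (fun x => v (x, u))
      ((ru (t, u) * D2 rt (t, u) + su (t, u) * D2 st (t, u)) / v (t, u)) t := by
    refine (((drut.pow 2).add (dsut.pow 2)).sqrt himz).congr_deriv ?_
    simp only [Pi.add_apply, Pi.pow_apply]
    have : √(ru (t, u) ^ 2 + su (t, u) ^ 2) = v (t, u) := rfl
    rw [this]
    field_simp
    ring
  have dvu : HasDerivAt (fun x => v (t, x))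
      ((ru (t, u) * D2 ru (t, u) + su (t, u) * D2 su (t, u)) / v (t, u)) u := by
    refine (((druu.pow 2).add (dsuu.pow 2)).sqrt himz).congr_deriv ?_
    simp only [Pi.add_apply, Pi.pow_apply]
    have : √(ru (t, u) ^ 2 + su (t, u) ^ 2) = v (t, u) := rfl
    rw [this]
    field_simp
    ring
  have hFt := D1_unique sF htT ((dEt.exp).mul dvt)
  have hP1u := D2_unique sP1 htT (((dEu.exp).mul ((druu.mul drtu).add (dsuu.mul dstu))).div dvu
    hvp.ne')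
  have hP2u := D2_unique sP2 htT (((dEu.exp).mul ((druu.mul dau).add (dsuu.mul dbu))).div dvu
    hvp.ne')
  have hval : √(ru (t, u) ^ 2 + su (t, u) ^ 2) = v (t, u) := rfl
  rw [hFt, hP1u, hP2u, dE1 _ hz, dE2 _ hz, da _ hz, db _ hz]
  simp only [Pi.mul_apply, Pi.add_apply]
  simp only [hval, vint]
  generalize ru (t, u) = x at *
  generalize su (t, u) = y at *
  generalize v (t, u) = w at *
  generalize rt (t, u) = p at *
  generalize st (t, u) = q at *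
  generalize D2 ru (t, u) = x' at *
  generalize D2 su (t, u) = y' at *
  generalize D2 rt (t, u) = p' at *
  generalize D2 st (t, u) = q' at *
  generalize lr (t, u) = l1 at *
  generalize ls (t, u) = l2 at *
  generalize lt (t, u) = l3 at *
  generalize a (t, u) = a1 at *
  generalize b (t, u) = b1 at *
  generalize A (t, u) = A1 at *
  generalize B (t, u) = B1 at *
  generalize Real.exp (E (t, u)) = e at *
  have hw : w ≠ 0 := hvp.ne'
  field_simp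
  linear_combination e * (w ^ 2 * (l1 * p + l2 * q) - (p * x' + q * y') +
    (x' * a1 + y' * b1)) * hvs

end Pool.Agent.Helper532_SymMCF

end

section

/-!
An explicit subsolution of the backward heat equation of `ℝ^(k+1)`, radially symmetric, which
replaces the heat kernel averaged over the orthogonal group, and its parabolic rescalings.
-/

open Set Filter MeasureTheory Topology Metric Module
open scoped ContDiff NNReal ENNReal

namespace Pool.Agent.Helper532_SymMCF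

/-- `√(x² + (k+2)²)` -/
noncomputable def rk (k x : ℝ) : ℝ := √(x ^ 2 + (k + 2) ^ 2)

/-- replacement for the logarithm of the Bessel-type function -/
noncomputable def gk (k x : ℝ) : ℝ := rk k x - k / 2 * Real.log (rk k x)

/-- `gk' / x` -/
noncomputable def Gk (k x : ℝ) : ℝ := 1 / rk k x - k / 2 / rk k x ^ 2

/-- second derivative of `gk` -/
noncomputable def Hk (k x : ℝ) : ℝ :=
  (k + 2) ^ 2 / rk k x ^ 3 + k / 2 * (x ^ 2 - (k + 2) ^ 2) / rk k x ^ 4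

theorem rk_sq (k x : ℝ) : rk k x ^ 2 = x ^ 2 + (k + 2) ^ 2 := Real.sq_sqrt (by positivity)

theorem rk_ge {k : ℝ} (_hk : 0 ≤ k) (x : ℝ) : k + 2 ≤ rk k x := by
  apply Real.le_sqrt_of_sq_le
  linarith [sq_nonneg x]

theorem rk_ge' (k x : ℝ) : |x| ≤ rk k x := by
  apply Real.abs_le_sqrt
  linarith [sq_nonneg (k + 2)]

theorem rk_le {k : ℝ} (hk : 0 ≤ k) (x : ℝ) : rk k x ≤ |x| + (k + 2) := by
  unfold rk
  rw [Real.sqrt_le_left (by positivity)]
  nlinarith [sq_abs x, abs_nonneg x]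

theorem rk_pos {k : ℝ} (hk : 0 ≤ k) (x : ℝ) : 0 < rk k x := by
  have := rk_ge hk x
  linarith

theorem rk_deriv {k : ℝ} (hk : 0 ≤ k) (x : ℝ) : HasDerivAt (rk k) (x / rk k x) x := by
  have h1 : HasDerivAt (fun x : ℝ => x ^ 2 + (k + 2) ^ 2) (2 * x) x := by
    simpa using (hasDerivAt_pow 2 x).add_const ((k + 2) ^ 2)
  have h2 := h1.sqrt (by positivity)
  refine h2.congr_deriv ?_
  have : √(x ^ 2 + (k + 2) ^ 2) = rk k x := rfl
  rw [this]
  have := rk_pos hk x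
  field_simp

theorem gk_deriv {k : ℝ} (hk : 0 ≤ k) (x : ℝ) : HasDerivAt (gk k) (x * Gk k x) x := by
  have h := rk_pos hk x
  have h1 := (rk_deriv hk x).sub (((rk_deriv hk x).log h.ne').const_mul (k / 2))
  refine h1.congr_deriv ?_
  unfold Gk
  field_simp

theorem gk_deriv2 {k : ℝ} (hk : 0 ≤ k) (x : ℝ) :
    HasDerivAt (fun x => x * Gk k x) (Hk k x) x := by
  have h := rk_pos hk x
  have hd := rk_deriv hk x
  have h1 : HasDerivAt (fun x => 1 / rk k x - k / 2 / rk k x ^ 2)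
      (-(x / rk k x) / rk k x ^ 2 - -(k / 2 * (2 * rk k x * (x / rk k x))) / (rk k x ^ 2) ^ 2) x := by
    have a1 := (hasDerivAt_const x (1 : ℝ)).div hd h.ne'
    have a2 := (hasDerivAt_const x (k / 2)).div (hd.pow 2) (pow_pos h 2).ne'
    refine (a1.sub a2).congr_deriv ?_
    simp
  refine ((hasDerivAt_id x).mul h1).congr_deriv ?_
  have hs := rk_sq k x
  unfold Hk
  simp only [id]
  field_simp
  generalize rk k x = w at *
  linear_combination (2 * w - k) * hs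

theorem Hk_nonneg {k : ℝ} (hk : 0 ≤ k) (x : ℝ) : 0 ≤ Hk k x := by
  have h := rk_pos hk x
  have h2 := rk_ge hk x
  have hs := rk_sq k x
  have : Hk k x = ((k + 2) ^ 2 * rk k x + k / 2 * (x ^ 2 - (k + 2) ^ 2)) / rk k x ^ 4 := by
    unfold Hk
    field_simp
  rw [this]
  apply div_nonneg _ (by positivity)
  have e : x ^ 2 = rk k x ^ 2 - (k + 2) ^ 2 := by linarith
  rw [e]
  have : (k + 2) ^ 2 * (k + 2) ≤ (k + 2) ^ 2 * rk k x :=
    mul_le_mul_of_nonneg_left h2 (by positivity)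
  nlinarith [mul_nonneg hk (sq_nonneg (rk k x)), mul_nonneg hk (sq_nonneg (k + 2))]

/-- the subsolution property -/
theorem Hk_le {k : ℝ} (hk : 0 ≤ k) (x : ℝ) : Hk k x + (x * Gk k x) ^ 2 + k * Gk k x ≤ 1 := by
  have h := rk_pos hk x
  have h2 := rk_ge hk x
  have hs := rk_sq k x
  have e : x ^ 2 = rk k x ^ 2 - (k + 2) ^ 2 := by linarith
  have : Hk k x + (x * Gk k x) ^ 2 + k * Gk k x - 1 =
      (rk k x ^ 2 * (k / 2 - k ^ 2 / 4 - (k + 2) ^ 2) + rk k x * ((k + 2) ^ 2 * (1 + k))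
        - (k + 2) ^ 2 * (k + k ^ 2 / 4)) / rk k x ^ 4 := by
    unfold Hk Gk
    rw [mul_pow, e]
    field_simp
    ring
  have h3 : (rk k x ^ 2 * (k / 2 - k ^ 2 / 4 - (k + 2) ^ 2) + rk k x * ((k + 2) ^ 2 * (1 + k))
        - (k + 2) ^ 2 * (k + k ^ 2 / 4)) / rk k x ^ 4 ≤ 0 := by
    apply div_nonpos_of_nonpos_of_nonneg _ (by positivity)
    have h4 : rk k x * (k + 2) ≤ rk k x * rk k x := mul_le_mul_of_nonneg_left h2 h.le
    have h5 : rk k x * ((k + 2) ^ 2 * (1 + k)) ≤ rk k x ^ 2 * ((k + 2) * (1 + k)) := by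
      have := mul_le_mul_of_nonneg_right h4 (show 0 ≤ (k + 2) * (1 + k) by positivity)
      linarith
    have h6 : 0 ≤ (k + 2) ^ 2 * (k + k ^ 2 / 4) := by positivity
    have h7 : rk k x ^ 2 * (k / 2 - k ^ 2 / 4 - (k + 2) ^ 2 + (k + 2) * (1 + k)) ≤ 0 := by
      apply mul_nonpos_of_nonneg_of_nonpos (by positivity)
      linarith [sq_nonneg k]
    linarith
  linarith

/-- logarithm of the kernel; `τ` is the time to the final time. -/
noncomputable def ell (k α r τ : ℝ) : ℝ :=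
  -((k + 1) / 2) * Real.log τ - (r ^ 2 + α ^ 2) / (4 * τ) + gk k (r * α / (2 * τ))

/-- `ell_r / r` -/
noncomputable def elG (k α r τ : ℝ) : ℝ :=
  -1 / (2 * τ) + (α / (2 * τ)) ^ 2 * Gk k (r * α / (2 * τ))

/-- second derivative in `r` -/
noncomputable def elrr (k α r τ : ℝ) : ℝ :=
  -1 / (2 * τ) + (α / (2 * τ)) ^ 2 * Hk k (r * α / (2 * τ))

/-- derivative in `t = T - τ` -/
noncomputable def elt (k α r τ : ℝ) : ℝ :=
  (k + 1) / (2 * τ) - (r ^ 2 + α ^ 2) / (4 * τ ^ 2) +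
    (r * α / (2 * τ)) ^ 2 * Gk k (r * α / (2 * τ)) / τ

theorem elrr_ge {k : ℝ} (hk : 0 ≤ k) (α r τ : ℝ) : -1 / (2 * τ) ≤ elrr k α r τ := by
  have := mul_nonneg (sq_nonneg (α / (2 * τ))) (Hk_nonneg hk (r * α / (2 * τ)))
  unfold elrr
  linarith

theorem el_sub {k : ℝ} (hk : 0 ≤ k) (α r : ℝ) {τ : ℝ} (hτ : 0 < τ) :
    elt k α r τ + elrr k α r τ + (r * elG k α r τ) ^ 2 + k * elG k α r τ ≤ 0 := by
  have h := mul_le_mul_of_nonneg_left (Hk_le hk (r * α / (2 * τ)))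
    (sq_nonneg (α / (2 * τ)))
  have e : elt k α r τ + elrr k α r τ + (r * elG k α r τ) ^ 2 + k * elG k α r τ =
      (α / (2 * τ)) ^ 2 * (Hk k (r * α / (2 * τ)) +
        (r * α / (2 * τ) * Gk k (r * α / (2 * τ))) ^ 2 + k * Gk k (r * α / (2 * τ)))
        - (α / (2 * τ)) ^ 2 := by
    unfold elt elrr elG
    field_simp
    ring
  rw [e]
  linarith

theorem hasDeriv_ell_t {k : ℝ} (hk : 0 ≤ k) (α T : ℝ) {r : ℝ → ℝ} {t r' : ℝ} (ht : t < T)
    (hr : HasDerivAt r r' t) :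
    HasDerivAt (fun x => ell k α (r x) (T - x))
      (r t * elG k α (r t) (T - t) * r' + elt k α (r t) (T - t)) t := by
  have hτ : 0 < T - t := by linarith
  have h1 : HasDerivAt (fun x => T - x) (-1) t := (hasDerivAt_id t).const_sub T
  have h2 := (h1.log hτ.ne').const_mul (-((k + 1) / 2))
  have h3 := ((hr.pow 2).add_const (α ^ 2)).div (h1.const_mul 4) (by positivity)
  have h4 := (hr.mul_const α).div (h1.const_mul 2) (by positivity)
  have h5 := (gk_deriv hk _).comp t h4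
  refine ((h2.sub h3).add h5).congr_deriv ?_
  unfold elG elt
  simp only [Pi.pow_apply, Pi.div_apply]
  generalize Gk k (r t * α / (2 * (T - t))) = g
  generalize T - t = τ at *
  field_simp
  ring

theorem hasDeriv_ell_u {k : ℝ} (hk : 0 ≤ k) (α : ℝ) {r : ℝ → ℝ} {τ u r' : ℝ} (hτ : 0 < τ)
    (hr : HasDerivAt r r' u) :
    HasDerivAt (fun x => ell k α (r x) τ) (r u * elG k α (r u) τ * r') u := by
  have h3 := ((hr.pow 2).add_const (α ^ 2)).div_const (4 * τ)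
  have h4 := (hr.mul_const α).div_const (2 * τ)
  have h5 := (gk_deriv hk _).comp u h4
  refine (((hasDerivAt_const u (-((k + 1) / 2) * Real.log τ)).sub h3).add h5).congr_deriv ?_
  unfold elG
  generalize Gk k (r u * α / (2 * τ)) = g
  field_simp
  ring

theorem hasDeriv_elr_u {k : ℝ} (hk : 0 ≤ k) (α : ℝ) {r : ℝ → ℝ} {τ u r' : ℝ}
    (hr : HasDerivAt r r' u) :
    HasDerivAt (fun x => r x * elG k α (r x) τ) (elrr k α (r u) τ * r') u := by
  have h1 : (fun x => r x * elG k α (r x) τ) = fun x => (-1 / (2 * τ)) * r x +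
      (α / (2 * τ)) * (r x * α / (2 * τ) * Gk k (r x * α / (2 * τ))) := by
    ext x
    unfold elG
    ring
  rw [h1]
  have h4 := (hr.mul_const α).div_const (2 * τ)
  have h5 := ((gk_deriv2 hk _).comp u h4).const_mul (α / (2 * τ))
  refine ((hr.const_mul (-1 / (2 * τ))).add h5).congr_deriv ?_
  unfold elrr
  ring

/-! ### smoothness along a curve -/

theorem smooth_rk {k T : ℝ} (hk : 0 ≤ k) {x : ℝ × ℝ → ℝ} (hx : ContDiffOn ℝ ∞ x (Str T)) :
    ContDiffOn ℝ ∞ (fun z => rk k (x z)) (Str T) := by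
  unfold rk
  exact ((hx.pow 2).add contDiffOn_const).sqrt (fun z _ => by positivity)

theorem smooth_tau {T : ℝ} : ContDiffOn ℝ ∞ (fun z : ℝ × ℝ => T - z.1) (Str T) := by
  fun_prop

theorem tau_pos {T : ℝ} {z : ℝ × ℝ} (hz : z ∈ Str T) : 0 < T - z.1 := by
  have := hz.1.2
  linarith

theorem smooth_kap {T : ℝ} (α : ℝ) {r : ℝ × ℝ → ℝ} (hr : ContDiffOn ℝ ∞ r (Str T)) :
    ContDiffOn ℝ ∞ (fun z => r z * α / (2 * (T - z.1))) (Str T) :=
  (hr.mul contDiffOn_const).div (contDiffOn_const.mul smooth_tau)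
    (fun z hz => by have := tau_pos hz; positivity)

theorem smooth_ell {k T : ℝ} (hk : 0 ≤ k) (α : ℝ) {r : ℝ × ℝ → ℝ}
    (hr : ContDiffOn ℝ ∞ r (Str T)) :
    ContDiffOn ℝ ∞ (fun z => ell k α (r z) (T - z.1)) (Str T) := by
  have h1 := smooth_rk hk (smooth_kap α hr)
  have h2 := h1.log (fun z _ => (rk_pos hk _).ne')
  have h3 := (smooth_tau (T := T)).log (fun z hz => (tau_pos hz).ne')
  unfold ell gk
  exact ((contDiffOn_const.mul h3).sub (((hr.pow 2).add contDiffOn_const).div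
    (contDiffOn_const.mul smooth_tau) (fun z hz => by have := tau_pos hz; positivity))).add
    (h1.sub (contDiffOn_const.mul h2))

theorem smooth_elG {k T : ℝ} (hk : 0 ≤ k) (α : ℝ) {r : ℝ × ℝ → ℝ}
    (hr : ContDiffOn ℝ ∞ r (Str T)) :
    ContDiffOn ℝ ∞ (fun z => elG k α (r z) (T - z.1)) (Str T) := by
  have h1 := smooth_rk hk (smooth_kap α hr)
  have hτ : ∀ z ∈ Str T, 2 * (T - z.1) ≠ 0 := fun z hz => by have := tau_pos hz; positivity
  unfold elG Gk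
  exact (contDiffOn_const.div (contDiffOn_const.mul smooth_tau) hτ).add
    (((contDiffOn_const.div (contDiffOn_const.mul smooth_tau) hτ).pow 2).mul
      ((contDiffOn_const.div h1 (fun z _ => (rk_pos hk _).ne')).sub
        (contDiffOn_const.div (h1.pow 2) (fun z _ => (pow_pos (rk_pos hk _) 2).ne'))))

theorem smooth_elrr {k T : ℝ} (hk : 0 ≤ k) (α : ℝ) {r : ℝ × ℝ → ℝ}
    (hr : ContDiffOn ℝ ∞ r (Str T)) :
    ContDiffOn ℝ ∞ (fun z => elrr k α (r z) (T - z.1)) (Str T) := by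
  have h1 := smooth_rk hk (smooth_kap α hr)
  have hτ : ∀ z ∈ Str T, 2 * (T - z.1) ≠ 0 := fun z hz => by have := tau_pos hz; positivity
  unfold elrr Hk
  exact (contDiffOn_const.div (contDiffOn_const.mul smooth_tau) hτ).add
    (((contDiffOn_const.div (contDiffOn_const.mul smooth_tau) hτ).pow 2).mul
      ((contDiffOn_const.div (h1.pow 3) (fun z _ => (pow_pos (rk_pos hk _) 3).ne')).add
        ((contDiffOn_const.mul (((smooth_kap α hr).pow 2).sub contDiffOn_const)).div (h1.pow 4)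
          (fun z _ => (pow_pos (rk_pos hk _) 4).ne'))))

theorem smooth_elt {k T : ℝ} (hk : 0 ≤ k) (α : ℝ) {r : ℝ × ℝ → ℝ}
    (hr : ContDiffOn ℝ ∞ r (Str T)) :
    ContDiffOn ℝ ∞ (fun z => elt k α (r z) (T - z.1)) (Str T) := by
  have h1 := smooth_rk hk (smooth_kap α hr)
  have hτ : ∀ z ∈ Str T, 2 * (T - z.1) ≠ 0 := fun z hz => by have := tau_pos hz; positivity
  unfold elt Gk
  exact ((contDiffOn_const.div (contDiffOn_const.mul smooth_tau) hτ).sub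
    (((hr.pow 2).add contDiffOn_const).div (contDiffOn_const.mul (smooth_tau.pow 2))
      (fun z hz => by have := tau_pos hz; positivity))).add
    ((((smooth_kap α hr).pow 2).mul
      ((contDiffOn_const.div h1 (fun z _ => (rk_pos hk _).ne')).sub
        (contDiffOn_const.div (h1.pow 2) (fun z _ => (pow_pos (rk_pos hk _) 2).ne')))).div
      smooth_tau (fun z hz => (tau_pos hz).ne'))

/-! ### parabolic rescaling -/

theorem Gk_asym {k x : ℝ} (hk : 0 ≤ k) (hx : 0 < x) : |1 - x * Gk k x| ≤ (2 * k + 2) / x := by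
  have h := rk_pos hk x
  have h1 : x ≤ rk k x := (le_abs_self x).trans (rk_ge' k x)
  have h2 : rk k x ≤ x + (k + 2) := by
    have := rk_le hk x
    rwa [abs_of_pos hx] at this
  have e : 1 - x * Gk k x = (rk k x - x) / rk k x + k / 2 * x / rk k x ^ 2 := by
    unfold Gk
    field_simp
    ring
  have h3 : (rk k x - x) / rk k x ≤ (k + 2) / x := by
    rw [div_le_div_iff₀ h hx]
    nlinarith
  have h4 : k / 2 * x / rk k x ^ 2 ≤ k / 2 / x := by
    rw [div_le_div_iff₀ (by positivity) hx]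
    have : x * x ≤ rk k x ^ 2 := by nlinarith
    nlinarith
  have h5 : 0 ≤ (rk k x - x) / rk k x := div_nonneg (by linarith) h.le
  have h6 : 0 ≤ k / 2 * x / rk k x ^ 2 := by positivity
  rw [e, abs_of_nonneg (by linarith)]
  have h7 : (2 * k + 2) / x = (k + 2) / x + k / 2 / x + k / 2 / x := by
    field_simp
    ring
  have h8 : 0 ≤ k / 2 / x := by positivity
  linarith

open Classical in
/-- limit of the rescaled logarithmic gradients -/
noncomputable def fl (k α τ R : ℝ) : ℝ := -R / (2 * τ) + if α = 0 then k / R else 0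

theorem resc_grad {k α τ M δ ε : ℝ} (hk : 0 ≤ k) (hα : 0 ≤ α) (hτ : 0 < τ) (hδ : 0 < δ)
    (hM : 0 < M) (hε : 0 < ε) :
    ∀ᶠ l : ℝ in atTop, ∀ R, |R| ≤ M → (α = 0 → δ ≤ |R|) →
      |l⁻¹ * ((α + l⁻¹ * R) * elG k α (α + l⁻¹ * R) (τ / l ^ 2) + k / (α + l⁻¹ * R)) -
        fl k α τ R| ≤ ε := by
  rcases hα.eq_or_lt with h0 | h0
  · subst h0
    filter_upwards [eventually_gt_atTop 0] with l hl R _ hR
    have hRne : R ≠ 0 := by
      intro h
      have := hR rfl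
      rw [h, abs_zero] at this
      linarith
    have : l⁻¹ * ((0 + l⁻¹ * R) * elG k 0 (0 + l⁻¹ * R) (τ / l ^ 2) + k / (0 + l⁻¹ * R)) -
        fl k 0 τ R = 0 := by
      unfold elG fl
      simp only [if_true, zero_add]
      field_simp
      ring
    rw [this, abs_zero]
    exact hε.le
  · filter_upwards [eventually_gt_atTop 0, eventually_ge_atTop (2 * M / α),
      eventually_ge_atTop ((3 * k + 2) / (α / 2 * ε))] with l hl hl1 hl2 R hR _
    have hlR : |l⁻¹ * R| ≤ α / 2 := by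
      rw [abs_mul, abs_of_pos (inv_pos.2 hl), inv_mul_le_iff₀ hl]
      rw [div_le_iff₀ h0] at hl1
      linarith
    have hr : α / 2 ≤ α + l⁻¹ * R := by
      have := (abs_le.1 hlR).1
      linarith
    set r := α + l⁻¹ * R with hrdef
    have hr0 : 0 < r := by linarith
    set x := r * α / (2 * (τ / l ^ 2)) with hx
    have hx0 : 0 < x := by positivity
    have hG := Gk_asym hk hx0
    have e : l⁻¹ * (r * elG k α r (τ / l ^ 2) + k / r) - fl k α τ R =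
        l⁻¹ * k / r - l * α / (2 * τ) * (1 - x * Gk k x) := by
      unfold elG fl
      rw [if_neg h0.ne', ← hx]
      have hR' : R = l * (r - α) := by rw [hrdef]; field_simp; ring
      rw [hR', hx]
      field_simp
      ring
    rw [e]
    have h1 : |l⁻¹ * k / r - l * α / (2 * τ) * (1 - x * Gk k x)| ≤
        l⁻¹ * k / r + l * α / (2 * τ) * ((2 * k + 2) / x) := by
      refine (abs_sub _ _).trans ?_
      rw [abs_of_nonneg (by positivity : 0 ≤ l⁻¹ * k / r), abs_mul,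
        abs_of_pos (by positivity : 0 < l * α / (2 * τ))]
      have := mul_le_mul_of_nonneg_left hG (by positivity : 0 ≤ l * α / (2 * τ))
      linarith
    have h2 : l⁻¹ * k / r + l * α / (2 * τ) * ((2 * k + 2) / x) = (3 * k + 2) / (r * l) := by
      rw [hx]
      field_simp
      ring
    rw [h2] at h1
    refine h1.trans ?_
    rw [div_le_iff₀ (by positivity)] at hl2 ⊢
    have h3 : l * (α / 2 * ε) ≤ ε * (r * l) := by
      have := mul_le_mul_of_nonneg_right hr (by positivity : 0 ≤ ε * l)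
      linarith
    linarith

theorem resc_weight {k α τ M δ : ℝ} (hk : 0 ≤ k) (hα : 0 ≤ α) (hτ : 0 < τ) (hδ : 0 < δ)
    (hM : 0 < M) :
    ∃ C : ℝ, ∀ᶠ l : ℝ in atTop, ∀ R, |R| ≤ M → (α = 0 → δ ≤ |R|) →
      α + l⁻¹ * R ≠ 0 ∧
      Real.log l - C ≤ k * Real.log |α + l⁻¹ * R| + ell k α (α + l⁻¹ * R) (τ / l ^ 2) := by
  rcases hα.eq_or_lt with h0 | h0
  · subst h0
    refine ⟨-(k * Real.log δ - (k + 1) / 2 * Real.log τ - M ^ 2 / (4 * τ) + gk k 0), ?_⟩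
    filter_upwards [eventually_gt_atTop 0] with l hl R hRM hR
    have hδR : δ ≤ |R| := hR rfl
    have hR0 : 0 < |R| := by linarith
    have hRne : R ≠ 0 := abs_pos.1 hR0
    refine ⟨by simp [hRne, hl.ne'], ?_⟩
    rw [zero_add, abs_mul, abs_of_pos (inv_pos.2 hl), Real.log_mul (by positivity) (by positivity),
      Real.log_inv]
    unfold ell
    rw [Real.log_div hτ.ne' (by positivity), Real.log_pow]
    have h1 : ((l⁻¹ * R) ^ 2 + 0 ^ 2) / (4 * (τ / l ^ 2)) = R ^ 2 / (4 * τ) := by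
      field_simp
      ring
    rw [h1, mul_zero, zero_div]
    have h2 : R ^ 2 / (4 * τ) ≤ M ^ 2 / (4 * τ) := by
      have : R ^ 2 ≤ M ^ 2 := by
        rw [← sq_abs R]
        exact pow_le_pow_left₀ (abs_nonneg _) hRM 2
      gcongr
    have h3 : k * Real.log δ ≤ k * Real.log |R| :=
      mul_le_mul_of_nonneg_left (Real.log_le_log hδ hδR) hk
    push_cast
    linarith
  · set B : ℝ := α ^ 2 / τ + (k + 2) with hB
    have hB0 : 0 < B := by positivity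
    refine ⟨-(k * Real.log (α / 2) - (k + 1) / 2 * Real.log τ - k / 2 * Real.log B
      - M ^ 2 / (4 * τ)), ?_⟩
    filter_upwards [eventually_ge_atTop 1, eventually_ge_atTop (2 * M / α)] with l hl1 hl2 R hR _
    have hl : 0 < l := by linarith
    have hlR : |l⁻¹ * R| ≤ α / 2 := by
      rw [abs_mul, abs_of_pos (inv_pos.2 hl), inv_mul_le_iff₀ hl]
      rw [div_le_iff₀ h0] at hl2
      linarith
    have hr : α / 2 ≤ α + l⁻¹ * R := by
      have := (abs_le.1 hlR).1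
      linarith
    have hr2 : α + l⁻¹ * R ≤ 2 * α := by
      have := (abs_le.1 hlR).2
      linarith
    have hR' : R = l * (α + l⁻¹ * R - α) := by field_simp; ring
    set r := α + l⁻¹ * R with hrdef
    have hr0 : 0 < r := by linarith
    refine ⟨hr0.ne', ?_⟩
    set x := r * α / (2 * (τ / l ^ 2)) with hx
    have hx0 : 0 < x := by positivity
    have h1 : rk k x ≤ B * l ^ 2 := by
      have a1 := rk_le hk x
      rw [abs_of_pos hx0] at a1
      have a2 : x ≤ α ^ 2 / τ * l ^ 2 := by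
        have : x = r * (α * l ^ 2 / (2 * τ)) := by rw [hx]; field_simp
        rw [this]
        have := mul_le_mul_of_nonneg_right hr2 (by positivity : 0 ≤ α * l ^ 2 / (2 * τ))
        refine this.trans (le_of_eq ?_)
        field_simp
      have a3 : k + 2 ≤ (k + 2) * l ^ 2 := by
        have : 1 ≤ l ^ 2 := one_le_pow₀ hl1
        nlinarith
      rw [hB, add_mul]
      linarith
    have h2 : Real.log (rk k x) ≤ Real.log B + 2 * Real.log l := by
      have := Real.log_le_log (rk_pos hk x) h1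
      rwa [Real.log_mul hB0.ne' (by positivity), Real.log_pow] at this
    have h3 : x ≤ rk k x := (le_abs_self x).trans (rk_ge' k x)
    have h4 : x - k / 2 * (Real.log B + 2 * Real.log l) ≤ gk k x := by
      unfold gk
      have := mul_le_mul_of_nonneg_left h2 (by positivity : 0 ≤ k / 2)
      linarith
    unfold ell
    rw [← hx, Real.log_div hτ.ne' (by positivity), Real.log_pow, abs_of_pos hr0]
    have h5 : k * Real.log (α / 2) ≤ k * Real.log r :=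
      mul_le_mul_of_nonneg_left (Real.log_le_log (by positivity) hr) hk
    have h6 : (r ^ 2 + α ^ 2) / (4 * (τ / l ^ 2)) = x + R ^ 2 / (4 * τ) := by
      rw [hR', hx]
      field_simp
      ring
    have h7 : R ^ 2 / (4 * τ) ≤ M ^ 2 / (4 * τ) := by
      have : R ^ 2 ≤ M ^ 2 := by
        rw [← sq_abs R]
        exact pow_le_pow_left₀ (abs_nonneg _) hR 2
      gcongr
    rw [h6]
    push_cast
    linarith

end Pool.Agent.Helper532_SymMCF

end

section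

/-!
Monotonicity formula for the weighted length of the profile curves.
-/

open Set Filter MeasureTheory Topology Metric Module
open scoped ContDiff NNReal ENNReal

namespace Pool.Agent.Helper532_SymMCF

/-- the bracket in the first variation formula -/
noncomputable def brk (v ru su ruu suu rt st a b lr ls lt A B : ℝ) : ℝ :=
  lt + (-su * lr + ru * ls) / v * ((-su * rt + ru * st) / v)
    - (-su * ruu + ru * suu) / v ^ 3 * ((-su * rt + ru * st) / v)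
    + (ru * lr + su * ls) / v * ((ru * a + su * b) / v)
    + (A * ru ^ 2 + B * su ^ 2) / v ^ 2
    + (-su * ruu + ru * suu) / v ^ 3 * ((-su * a + ru * b) / v)

theorem vint_eq (E v ru su ruu suu rt st a b lr ls lt A B : ℝ) :
    vint E v ru su ruu suu rt st a b lr ls lt A B =
      Real.exp E * v * brk v ru su ruu suu rt st a b lr ls lt A B := rfl

/-- algebraic part of the monotonicity formula -/
theorem brk_ineq {v ru su ruu suu rt st a b lt A B r s k₁ k₂ G₁ G₂ e₁ e₂ τ : ℝ}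
    (hv : 0 < v) (hv2 : v ^ 2 = ru ^ 2 + su ^ 2) (hr : r ≠ 0 ∨ k₁ = 0) (hs : s ≠ 0 ∨ k₂ = 0)
    (hfl : (-su * rt + ru * st) / v =
      (-su * ruu + ru * suu) / v ^ 3 - k₁ * (-su / v) / r - k₂ * (ru / v) / s)
    (ha : a = r * G₁) (hb : b = s * G₂)
    (hlt : lt = -1 / (2 * τ) + e₁ + e₂)
    (h1 : e₁ + A + (r * G₁) ^ 2 + k₁ * G₁ ≤ 0) (h2 : e₂ + B + (s * G₂) ^ 2 + k₂ * G₂ ≤ 0)
    (hA : -1 / (2 * τ) ≤ A) (hB : -1 / (2 * τ) ≤ B) :
    brk v ru su ruu suu rt st a b (a + k₁ / r) (b + k₂ / s) lt A B +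
      ((-su * rt + ru * st) / v - (-su * a + ru * b) / v) ^ 2 ≤ 0 := by
  obtain ⟨x, hx⟩ : ∃ x, x = ru / v := ⟨_, rfl⟩
  obtain ⟨y, hy⟩ : ∃ y, y = su / v := ⟨_, rfl⟩
  have hxy : x ^ 2 + y ^ 2 = 1 := by
    rw [hx, hy, div_pow, div_pow, ← add_div, ← hv2]
    field_simp
  obtain ⟨V, hV⟩ : ∃ V, V = (-su * rt + ru * st) / v := ⟨_, rfl⟩
  obtain ⟨κ, hκ⟩ : ∃ κ, κ = (-su * ruu + ru * suu) / v ^ 3 := ⟨_, rfl⟩
  have hfl' : V = κ - k₁ * (-y) / r - k₂ * x / s := by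
    rw [hV, hκ, hx, hy, hfl]
    ring
  have e0 : brk v ru su ruu suu rt st a b (a + k₁ / r) (b + k₂ / s) lt A B =
      lt + (-y * (a + k₁ / r) + x * (b + k₂ / s)) * V - κ * V
      + (x * (a + k₁ / r) + y * (b + k₂ / s)) * (x * a + y * b) + (A * x ^ 2 + B * y ^ 2)
      + κ * (-y * a + x * b) := by
    unfold brk
    rw [← hV, ← hκ, hx, hy]
    ring
  have e1 : (-su * a + ru * b) / v = -y * a + x * b := by
    rw [hx, hy]; ring
  rw [e0, e1, ← hV]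
  have hκ' : κ = V + k₁ * (-y) / r + k₂ * x / s := by linarith
  rw [hκ']
  have e2 : lt + (-y * (a + k₁ / r) + x * (b + k₂ / s)) * V - (V + k₁ * (-y) / r + k₂ * x / s) * V
      + (x * (a + k₁ / r) + y * (b + k₂ / s)) * (x * a + y * b) + (A * x ^ 2 + B * y ^ 2)
      + (V + k₁ * (-y) / r + k₂ * x / s) * (-y * a + x * b) + (V - (-y * a + x * b)) ^ 2 =
      lt + (a ^ 2 + b ^ 2 + (k₁ / r) * a + (k₂ / s) * b) * (x ^ 2 + y ^ 2) +
        (A * x ^ 2 + B * y ^ 2) := by ring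
  rw [e2, hxy, mul_one, hlt]
  have e3 : k₁ / r * a = k₁ * G₁ := by
    rcases hr with hr | hr
    · rw [ha]; field_simp
    · rw [hr]; simp
  have e4 : k₂ / s * b = k₂ * G₂ := by
    rcases hs with hs | hs
    · rw [hb]; field_simp
    · rw [hs]; simp
  rw [e3, e4, ha, hb]
  have e5 : A * x ^ 2 + B * y ^ 2 = A + B - A * y ^ 2 - B * x ^ 2 := by
    linear_combination (A + B) * hxy
  have e6 : -1 / (2 * τ) * y ^ 2 ≤ A * y ^ 2 := mul_le_mul_of_nonneg_right hA (sq_nonneg _)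
  have e7 : -1 / (2 * τ) * x ^ 2 ≤ B * x ^ 2 := mul_le_mul_of_nonneg_right hB (sq_nonneg _)
  have e8 : -1 / (2 * τ) * x ^ 2 + -1 / (2 * τ) * y ^ 2 = -1 / (2 * τ) := by
    rw [← mul_add, hxy, mul_one]
  rw [e5]
  linarith

/-- regularised weight -/
noncomputable def Pe (m₁ m₂ : ℕ) (ε L r s : ℝ) : ℝ :=
  Real.exp L * √(r ^ 2 + ε) ^ m₁ * √(s ^ 2 + ε) ^ m₂

theorem Pe_exp (m₁ m₂ : ℕ) {ε : ℝ} (hε : 0 < ε) (L r s : ℝ) :
    Real.exp (L + m₁ * Real.log √(r ^ 2 + ε) + m₂ * Real.log √(s ^ 2 + ε)) = Pe m₁ m₂ ε L r s := by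
  have h1 : 0 < √(r ^ 2 + ε) := Real.sqrt_pos.2 (by positivity)
  have h2 : 0 < √(s ^ 2 + ε) := Real.sqrt_pos.2 (by positivity)
  rw [Real.exp_add, Real.exp_add, mul_comm (m₁ : ℝ), mul_comm (m₂ : ℝ),
    ← Real.rpow_def_of_pos h1, ← Real.rpow_def_of_pos h2, Real.rpow_natCast, Real.rpow_natCast]
  rfl

theorem Pe_nonneg (m₁ m₂ : ℕ) (ε L r s : ℝ) : 0 ≤ Pe m₁ m₂ ε L r s := by
  unfold Pe; positivity

theorem Pe_tendsto (m₁ m₂ : ℕ) (L r s : ℝ) {ε : ℕ → ℝ} (hε : Tendsto ε atTop (𝓝 0)) :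
    Tendsto (fun n => Pe m₁ m₂ (ε n) L r s) atTop
      (𝓝 (Real.exp L * |r| ^ m₁ * |s| ^ m₂)) := by
  have h1 : Continuous fun e => Pe m₁ m₂ e L r s := by
    unfold Pe; fun_prop
  have h2 := (h1.tendsto 0).comp hε
  simpa [Function.comp_def, Pe, Real.sqrt_sq_eq_abs] using h2

theorem quot_tendsto (r : ℝ) {ε : ℕ → ℝ} (hε : Tendsto ε atTop (𝓝 0)) :
    Tendsto (fun n => r / (r ^ 2 + ε n)) atTop (𝓝 (1 / r)) := by
  by_cases hr : r = 0
  · simp [hr]
  · have h1 : Tendsto (fun n => r ^ 2 + ε n) atTop (𝓝 (r ^ 2 + 0)) := hε.const_add _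
    have h2 := (tendsto_const_nhds (x := r)).div h1 (by simpa using hr)
    have h3 : r / (r ^ 2 + 0) = 1 / r := by
      rw [add_zero]
      field_simp
    rw [← h3]
    exact h2

/-- bound of the regularised weight -/
theorem Pe_le {m₁ m₂ : ℕ} {ε L r s C M : ℝ} (hε : ε ≤ 1) (hL : L ≤ C)
    (hr : |r| ≤ M) (hs : |s| ≤ M) :
    Pe m₁ m₂ ε L r s ≤ Real.exp C * (M + 1) ^ m₁ * (M + 1) ^ m₂ := by
  have hM : 0 ≤ M := (abs_nonneg _).trans hr
  have h0 : ∀ x : ℝ, |x| ≤ M → √(x ^ 2 + ε) ≤ M + 1 := by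
    intro x hx
    rw [Real.sqrt_le_left (by positivity)]
    have : x ^ 2 ≤ M ^ 2 := by
      rw [← sq_abs x]; exact pow_le_pow_left₀ (abs_nonneg _) hx 2
    nlinarith
  unfold Pe
  have h1 := pow_le_pow_left₀ (Real.sqrt_nonneg _) (h0 r hr) m₁
  have h2 := pow_le_pow_left₀ (Real.sqrt_nonneg _) (h0 s hs) m₂
  have h3 := Real.exp_le_exp.2 hL
  gcongr

theorem Pe_quot_le {m₁ m₂ : ℕ} (hm : 1 ≤ m₁) {ε L r s C M : ℝ} (hε0 : 0 < ε) (hε : ε ≤ 1)
    (hL : L ≤ C) (hr : |r| ≤ M) (hs : |s| ≤ M) :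
    |Pe m₁ m₂ ε L r s * (r / (r ^ 2 + ε))| ≤ Real.exp C * (M + 1) ^ m₁ * (M + 1) ^ m₂ := by
  have hM : 0 ≤ M := (abs_nonneg _).trans hr
  obtain ⟨m, rfl⟩ : ∃ m, m₁ = m + 1 := ⟨m₁ - 1, by omega⟩
  have hρ : 0 < √(r ^ 2 + ε) := Real.sqrt_pos.2 (by positivity)
  have hρ2 : √(r ^ 2 + ε) ^ 2 = r ^ 2 + ε := Real.sq_sqrt (by positivity)
  have h1 : Pe (m + 1) m₂ ε L r s * (r / (r ^ 2 + ε)) =
      Pe m m₂ ε L r s * (r / √(r ^ 2 + ε)) := by
    unfold Pe
    rw [← hρ2, pow_succ]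
    rw [Real.sqrt_sq hρ.le]
    field_simp
  rw [h1, abs_mul, abs_of_nonneg (Pe_nonneg _ _ _ _ _ _)]
  have h2 : |r / √(r ^ 2 + ε)| ≤ 1 := by
    rw [abs_div, abs_of_pos hρ, div_le_one hρ]
    apply Real.abs_le_sqrt
    linarith
  have h3 := Pe_le (m₁ := m) (m₂ := m₂) hε hL hr hs
  have h4 : Real.exp C * (M + 1) ^ m * (M + 1) ^ m₂ ≤
      Real.exp C * (M + 1) ^ (m + 1) * (M + 1) ^ m₂ := by
    have : (M + 1) ^ m ≤ (M + 1) ^ (m + 1) := pow_le_pow_right₀ (by linarith) (by omega)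
    gcongr
  calc Pe m m₂ ε L r s * |r / √(r ^ 2 + ε)| ≤ Pe m m₂ ε L r s * 1 :=
        mul_le_mul_of_nonneg_left h2 (Pe_nonneg _ _ _ _ _ _)
    _ ≤ _ := by linarith

theorem Pe_quot_nat {m₁ m₂ : ℕ} {ε L r s C M : ℝ} (hε0 : 0 < ε) (hε : ε ≤ 1)
    (hL : L ≤ C) (hr : |r| ≤ M) (hs : |s| ≤ M) :
    m₁ * |Pe m₁ m₂ ε L r s * (r / (r ^ 2 + ε))| ≤
      m₁ * (Real.exp C * (M + 1) ^ m₁ * (M + 1) ^ m₂) := by
  rcases Nat.eq_zero_or_pos m₁ with h0 | h0
  · rw [h0]; simp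
  · exact mul_le_mul_of_nonneg_left (Pe_quot_le h0 hε0 hε hL hr hs) (Nat.cast_nonneg _)

theorem Pe_swap (m₁ m₂ : ℕ) (ε L r s : ℝ) : Pe m₁ m₂ ε L r s = Pe m₂ m₁ ε L s r := by
  unfold Pe; ring

theorem Pe_quot_le' {m₁ m₂ : ℕ} (hm : 1 ≤ m₂) {ε L r s C M : ℝ} (hε0 : 0 < ε) (hε : ε ≤ 1)
    (hL : L ≤ C) (hr : |r| ≤ M) (hs : |s| ≤ M) :
    |Pe m₁ m₂ ε L r s * (s / (s ^ 2 + ε))| ≤ Real.exp C * (M + 1) ^ m₁ * (M + 1) ^ m₂ := by
  rw [Pe_swap]
  refine (Pe_quot_le hm hε0 hε hL hs hr).trans (le_of_eq ?_)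
  ring

theorem Pe_quot_nat' {m₁ m₂ : ℕ} {ε L r s C M : ℝ} (hε0 : 0 < ε) (hε : ε ≤ 1)
    (hL : L ≤ C) (hr : |r| ≤ M) (hs : |s| ≤ M) :
    m₂ * |Pe m₁ m₂ ε L r s * (s / (s ^ 2 + ε))| ≤
      m₂ * (Real.exp C * (M + 1) ^ m₁ * (M + 1) ^ m₂) := by
  rcases Nat.eq_zero_or_pos m₂ with h0 | h0
  · rw [h0]; simp
  · exact mul_le_mul_of_nonneg_left (Pe_quot_le' h0 hε0 hε hL hr hs) (Nat.cast_nonneg _)

/-- one family of profile curves -/
structure Fam (T : ℝ) (m₁ m₂ : ℕ) (r s : ℝ × ℝ → ℝ) : Prop where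
  hr : ContDiffOn ℝ ∞ r (Str T)
  hs : ContDiffOn ℝ ∞ s (Str T)
  pr : ∀ t ∈ Ioo 0 T, ∀ u, r (t, u + 1) = r (t, u)
  ps : ∀ t ∈ Ioo 0 T, ∀ u, s (t, u + 1) = s (t, u)
  himm : ∀ z ∈ Str T, D2 r z ^ 2 + D2 s z ^ 2 ≠ 0
  flow : ∀ z ∈ Str T, (r z ≠ 0 ∨ m₁ = 0) → (s z ≠ 0 ∨ m₂ = 0) →
    (-D2 s z * D1 r z + D2 r z * D1 s z) / √(D2 r z ^ 2 + D2 s z ^ 2) =
      (-D2 s z * D2 (D2 r) z + D2 r z * D2 (D2 s) z) / √(D2 r z ^ 2 + D2 s z ^ 2) ^ 3
        - m₁ * (-D2 s z / √(D2 r z ^ 2 + D2 s z ^ 2)) / r z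
        - m₂ * (D2 r z / √(D2 r z ^ 2 + D2 s z ^ 2)) / s z

/-- speed -/
noncomputable def spd (r s : ℝ × ℝ → ℝ) (z : ℝ × ℝ) : ℝ := √(D2 r z ^ 2 + D2 s z ^ 2)

/-- logarithm of the kernel along the family -/
noncomputable def Lf (T : ℝ) (m₁ m₂ : ℕ) (α β : ℝ) (r s : ℝ × ℝ → ℝ) (z : ℝ × ℝ) : ℝ :=
  1 / 2 * Real.log (T - z.1) + ell m₁ α (r z) (T - z.1) + ell m₂ β (s z) (T - z.1)

/-- weight -/
noncomputable def Wt (T : ℝ) (m₁ m₂ : ℕ) (α β : ℝ) (r s : ℝ × ℝ → ℝ) (z : ℝ × ℝ) : ℝ :=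
  Real.exp (Lf T m₁ m₂ α β r s z) * |r z| ^ m₁ * |s z| ^ m₂

/-- normal velocity minus the normal derivative of the logarithm of the kernel -/
noncomputable def Vd (T : ℝ) (m₁ m₂ : ℕ) (α β : ℝ) (r s : ℝ × ℝ → ℝ) (z : ℝ × ℝ) : ℝ :=
  (-D2 s z * D1 r z + D2 r z * D1 s z) / spd r s z -
    (-D2 s z * (r z * elG m₁ α (r z) (T - z.1)) +
      D2 r z * (s z * elG m₂ β (s z) (T - z.1))) / spd r s z

theorem spd_smooth {T : ℝ} {m₁ m₂ : ℕ} {r s : ℝ × ℝ → ℝ} (h : Fam T m₁ m₂ r s) :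
    ContDiffOn ℝ ∞ (spd r s) (Str T) :=
  (((smooth_D2 h.hr).pow 2).add ((smooth_D2 h.hs).pow 2)).sqrt h.himm

theorem spd_pos {T : ℝ} {m₁ m₂ : ℕ} {r s : ℝ × ℝ → ℝ} (h : Fam T m₁ m₂ r s) {z : ℝ × ℝ}
    (hz : z ∈ Str T) : 0 < spd r s z :=
  Real.sqrt_pos.2 (lt_of_le_of_ne (by positivity) (h.himm z hz).symm)

theorem Lf_smooth {T : ℝ} {m₁ m₂ : ℕ} {r s : ℝ × ℝ → ℝ} (h : Fam T m₁ m₂ r s) (α β : ℝ) :
    ContDiffOn ℝ ∞ (Lf T m₁ m₂ α β r s) (Str T) := by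
  unfold Lf
  exact ((contDiffOn_const.mul (smooth_tau.log (fun z hz => (tau_pos hz).ne'))).add
    (smooth_ell (Nat.cast_nonneg _) α h.hr)).add (smooth_ell (Nat.cast_nonneg _) β h.hs)

theorem Vd_smooth {T : ℝ} {m₁ m₂ : ℕ} {r s : ℝ × ℝ → ℝ} (h : Fam T m₁ m₂ r s) (α β : ℝ) :
    ContDiffOn ℝ ∞ (Vd T m₁ m₂ α β r s) (Str T) := by
  have hru := smooth_D2 h.hr
  have hsu := smooth_D2 h.hs
  have hrt := smooth_D1 h.hr
  have hst := smooth_D1 h.hs
  have hv := spd_smooth h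
  have hv0 : ∀ z ∈ Str T, spd r s z ≠ 0 := fun z hz => (spd_pos h hz).ne'
  unfold Vd
  exact (((hsu.neg.mul hrt).add (hru.mul hst)).div hv hv0).sub
    (((hsu.neg.mul (h.hr.mul (smooth_elG (Nat.cast_nonneg _) α h.hr))).add
      (hru.mul (h.hs.mul (smooth_elG (Nat.cast_nonneg _) β h.hs)))).div hv hv0)

theorem Wt_cont {T : ℝ} {m₁ m₂ : ℕ} {r s : ℝ × ℝ → ℝ} (h : Fam T m₁ m₂ r s) (α β : ℝ) :
    ContinuousOn (Wt T m₁ m₂ α β r s) (Str T) := by
  unfold Wt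
  exact (((Lf_smooth h α β).continuousOn.rexp).mul (h.hr.continuousOn.abs.pow _)).mul
    (h.hs.continuousOn.abs.pow _)

theorem Wt_nonneg (T : ℝ) (m₁ m₂ : ℕ) (α β : ℝ) (r s : ℝ × ℝ → ℝ) (z : ℝ × ℝ) :
    0 ≤ Wt T m₁ m₂ α β r s z := by
  unfold Wt; positivity

/-- dissipation density -/
noncomputable def Dd (T : ℝ) (m₁ m₂ : ℕ) (α β : ℝ) (r s : ℝ × ℝ → ℝ) (z : ℝ × ℝ) : ℝ :=
  Wt T m₁ m₂ α β r s z * spd r s z * Vd T m₁ m₂ α β r s z ^ 2

theorem Dd_cont {T : ℝ} {m₁ m₂ : ℕ} {r s : ℝ × ℝ → ℝ} (h : Fam T m₁ m₂ r s) (α β : ℝ) :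
    ContinuousOn (Dd T m₁ m₂ α β r s) (Str T) := by
  unfold Dd
  exact ((Wt_cont h α β).mul (spd_smooth h).continuousOn).mul ((Vd_smooth h α β).continuousOn.pow 2)

theorem Dd_nonneg (T : ℝ) (m₁ m₂ : ℕ) (α β : ℝ) (r s : ℝ × ℝ → ℝ) (z : ℝ × ℝ) :
    0 ≤ Dd T m₁ m₂ α β r s z := by
  unfold Dd
  have := Wt_nonneg T m₁ m₂ α β r s z
  have : 0 ≤ spd r s z := Real.sqrt_nonneg _
  positivity

theorem brk_split (v ru su ruu suu rt st a b h₁ h₂ lt A B : ℝ) :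
    brk v ru su ruu suu rt st a b (a + h₁) (b + h₂) lt A B =
      brk v ru su ruu suu rt st a b a b lt A B +
      h₁ * ((-su / v) * ((-su * rt + ru * st) / v) + ru / v * ((ru * a + su * b) / v)) +
      h₂ * ((ru / v) * ((-su * rt + ru * st) / v) + su / v * ((ru * a + su * b) / v)) := by
  unfold brk
  ring

theorem log_sqrt_deriv {r : ℝ → ℝ} {t r' ε : ℝ} (hε : 0 < ε) (hr : HasDerivAt r r' t) :
    HasDerivAt (fun x => Real.log √(r x ^ 2 + ε)) (r t / (r t ^ 2 + ε) * r') t := by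
  have h0 : 0 < r t ^ 2 + ε := by positivity
  have h1 := ((hr.pow 2).add_const ε).sqrt h0.ne'
  have h2 := h1.log (Real.sqrt_pos.2 h0).ne'
  refine h2.congr_deriv ?_
  simp only [Pi.pow_apply]
  have h3 : √(r t ^ 2 + ε) ^ 2 = r t ^ 2 + ε := Real.sq_sqrt h0.le
  have h4 : √(r t ^ 2 + ε) ≠ 0 := (Real.sqrt_pos.2 h0).ne'
  rw [← h3]
  rw [Real.sqrt_sq (Real.sqrt_nonneg _)]
  field_simp
  ring

theorem smooth_logsqrt {T ε : ℝ} (hε : 0 < ε) {r : ℝ × ℝ → ℝ} (hr : ContDiffOn ℝ ∞ r (Str T)) :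
    ContDiffOn ℝ ∞ (fun z => Real.log √(r z ^ 2 + ε)) (Str T) := by
  have h1 : ContDiffOn ℝ ∞ (fun z => √(r z ^ 2 + ε)) (Str T) :=
    ((hr.pow 2).add contDiffOn_const).sqrt (fun z _ => by positivity)
  exact h1.log (fun z _ => (Real.sqrt_pos.2 (by positivity)).ne')

theorem cont_fst_int {T : ℝ} {G : ℝ × ℝ → ℝ} (h : ContinuousOn G (Str T)) {t₁ t₂ : ℝ}
    (h1 : t₁ ∈ Ioo 0 T) (h2 : t₂ ∈ Ioo 0 T) (h12 : t₁ ≤ t₂) :
    IntervalIntegrable (fun t => ∫ u in (0 : ℝ)..1, G (t, u)) volume t₁ t₂ := by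
  apply ContinuousOn.intervalIntegrable
  rw [uIcc_of_le h12]
  exact (cont_integral h).mono fun x hx => ⟨h1.1.trans_le hx.1, hx.2.trans_lt h2.2⟩

/-- limits of iterated integrals of uniformly bounded continuous functions -/
theorem tendsto_iter {T : ℝ} {G : ℕ → ℝ × ℝ → ℝ} {G' : ℝ × ℝ → ℝ}
    (h : ∀ n, ContinuousOn (G n) (Str T)) {t₁ t₂ C : ℝ}
    (h1 : t₁ ∈ Ioo 0 T) (h2 : t₂ ∈ Ioo 0 T) (h12 : t₁ ≤ t₂)
    (hC : ∀ n, ∀ t ∈ Icc t₁ t₂, ∀ u ∈ Icc (0 : ℝ) 1, |G n (t, u)| ≤ C)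
    (hlim : ∀ t ∈ Icc t₁ t₂, ∀ u ∈ Icc (0 : ℝ) 1,
      Tendsto (fun n => G n (t, u)) atTop (𝓝 (G' (t, u)))) :
    Tendsto (fun n => ∫ t in t₁..t₂, ∫ u in (0 : ℝ)..1, G n (t, u)) atTop
      (𝓝 (∫ t in t₁..t₂, ∫ u in (0 : ℝ)..1, G' (t, u))) := by
  have hsub : Icc t₁ t₂ ⊆ Ioo 0 T := fun x hx => ⟨h1.1.trans_le hx.1, hx.2.trans_lt h2.2⟩
  apply intervalIntegral.tendsto_integral_filter_of_dominated_convergence (fun _ => C)
  · refine Eventually.of_forall fun n => ?_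
    have := cont_fst_int (h n) h1 h2 h12
    exact this.aestronglyMeasurable_restrict_uIoc
  · refine Eventually.of_forall fun n => ae_of_all _ fun t ht => ?_
    rw [uIoc_of_le h12] at ht
    have := intervalIntegral.norm_integral_le_of_norm_le_const (a := (0 : ℝ)) (b := 1) (C := C)
      (f := fun u => G n (t, u)) (fun u hu => by
        rw [uIoc_of_le zero_le_one] at hu
        exact hC n t ⟨ht.1.le, ht.2⟩ u ⟨hu.1.le, hu.2⟩)
    simpa using this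
  · exact intervalIntegrable_const
  · refine ae_of_all _ fun t ht => ?_
    rw [uIoc_of_le h12] at ht
    have ht' : t ∈ Icc t₁ t₂ := ⟨ht.1.le, ht.2⟩
    apply intervalIntegral.tendsto_integral_filter_of_dominated_convergence (fun _ => C)
    · refine Eventually.of_forall fun n => ?_
      exact (cont_snd (h n) (hsub ht')).aestronglyMeasurable
    · refine Eventually.of_forall fun n => ae_of_all _ fun u hu => ?_
      rw [uIoc_of_le zero_le_one] at hu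
      exact hC n t ht' u ⟨hu.1.le, hu.2⟩
    · exact intervalIntegrable_const
    · refine ae_of_all _ fun u hu => ?_
      rw [uIoc_of_le zero_le_one] at hu
      exact hlim t ht' u ⟨hu.1.le, hu.2⟩

theorem tendsto_one {T : ℝ} {G : ℕ → ℝ × ℝ → ℝ} {G' : ℝ × ℝ → ℝ}
    (h : ∀ n, ContinuousOn (G n) (Str T)) {t C : ℝ} (ht : t ∈ Ioo 0 T)
    (hC : ∀ n, ∀ u ∈ Icc (0 : ℝ) 1, |G n (t, u)| ≤ C)
    (hlim : ∀ u ∈ Icc (0 : ℝ) 1, Tendsto (fun n => G n (t, u)) atTop (𝓝 (G' (t, u)))) :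
    Tendsto (fun n => ∫ u in (0 : ℝ)..1, G n (t, u)) atTop
      (𝓝 (∫ u in (0 : ℝ)..1, G' (t, u))) := by
  apply intervalIntegral.tendsto_integral_filter_of_dominated_convergence (fun _ => C)
  · refine Eventually.of_forall fun n => ?_
    exact (cont_snd (h n) ht).aestronglyMeasurable
  · refine Eventually.of_forall fun n => ae_of_all _ fun u hu => ?_
    rw [uIoc_of_le zero_le_one] at hu
    exact hC n u ⟨hu.1.le, hu.2⟩
  · exact intervalIntegrable_const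
  · refine ae_of_all _ fun u hu => ?_
    rw [uIoc_of_le zero_le_one] at hu
    exact hlim u ⟨hu.1.le, hu.2⟩

/-- Monotonicity formula for one family, as an inequality. -/
theorem mono_main {T : ℝ} {m₁ m₂ : ℕ} {r s : ℝ × ℝ → ℝ} (h : Fam T m₁ m₂ r s) (α β : ℝ)
    {t₁ t₂ : ℝ} (h1 : t₁ ∈ Ioo 0 T) (h2 : t₂ ∈ Ioo 0 T) (h12 : t₁ ≤ t₂) :
    (∫ u in (0 : ℝ)..1, Wt T m₁ m₂ α β r s (t₂, u) * spd r s (t₂, u)) -
      (∫ u in (0 : ℝ)..1, Wt T m₁ m₂ α β r s (t₁, u) * spd r s (t₁, u)) +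
      ∫ t in t₁..t₂, ∫ u in (0 : ℝ)..1, Dd T m₁ m₂ α β r s (t, u) ≤ 0 := by
  have hsub : Icc t₁ t₂ ⊆ Ioo 0 T := fun x hx => ⟨h1.1.trans_le hx.1, hx.2.trans_lt h2.2⟩
  have hru := smooth_D2 h.hr
  have hsu := smooth_D2 h.hs
  have hrt := smooth_D1 h.hr
  have hst := smooth_D1 h.hs
  have hruu := smooth_D2 hru
  have hsuu := smooth_D2 hsu
  have hv := spd_smooth h
  have hv0 : ∀ z ∈ Str T, spd r s z ≠ 0 := fun z hz => (spd_pos h hz).ne'
  have k1 : (0 : ℝ) ≤ m₁ := Nat.cast_nonneg _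
  have k2 : (0 : ℝ) ≤ m₂ := Nat.cast_nonneg _
  set ε : ℕ → ℝ := fun n => 1 / ((n : ℝ) + 1) with hε
  have hε0 : ∀ n, 0 < ε n := fun n => by simp only [hε]; positivity
  have hε1 : ∀ n, ε n ≤ 1 := fun n => by
    simp only [hε]
    rw [div_le_one (by positivity)]
    have : (0 : ℝ) ≤ n := Nat.cast_nonneg _
    linarith
  have hεt : Tendsto ε atTop (𝓝 0) := tendsto_one_div_add_atTop_nhds_zero_nat
  have hL := Lf_smooth h α β
  set L := Lf T m₁ m₂ α β r s with hLdef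
  set v := spd r s with hvdef
  obtain ⟨ga, hgadef⟩ : ∃ ga : ℝ × ℝ → ℝ, ga = fun z => r z * elG m₁ α (r z) (T - z.1) := ⟨_, rfl⟩
  obtain ⟨gb, hgbdef⟩ : ∃ gb : ℝ × ℝ → ℝ, gb = fun z => s z * elG m₂ β (s z) (T - z.1) := ⟨_, rfl⟩
  have hga : ContDiffOn ℝ ∞ ga (Str T) := by rw [hgadef]; exact h.hr.mul (smooth_elG k1 α h.hr)
  have hgb : ContDiffOn ℝ ∞ gb (Str T) := by rw [hgbdef]; exact h.hs.mul (smooth_elG k2 β h.hs)
  obtain ⟨A, hAdef⟩ : ∃ A : ℝ × ℝ → ℝ, A = fun z => elrr m₁ α (r z) (T - z.1) := ⟨_, rfl⟩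
  obtain ⟨B, hBdef⟩ : ∃ B : ℝ × ℝ → ℝ, B = fun z => elrr m₂ β (s z) (T - z.1) := ⟨_, rfl⟩
  have hA : ContDiffOn ℝ ∞ A (Str T) := by rw [hAdef]; exact smooth_elrr k1 α h.hr
  have hB : ContDiffOn ℝ ∞ B (Str T) := by rw [hBdef]; exact smooth_elrr k2 β h.hs
  obtain ⟨lt, hltdef⟩ : ∃ lt : ℝ × ℝ → ℝ, lt = fun z => -1 / (2 * (T - z.1)) +
    elt m₁ α (r z) (T - z.1) + elt m₂ β (s z) (T - z.1) := ⟨_, rfl⟩
  have hlt : ContDiffOn ℝ ∞ lt (Str T) := by
    rw [hltdef]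
    exact ((contDiffOn_const.div (contDiffOn_const.mul smooth_tau)
      (fun z hz => by have := tau_pos hz; positivity)).add (smooth_elt k1 α h.hr)).add
      (smooth_elt k2 β h.hs)
  obtain ⟨E, hEdef⟩ : ∃ E : ℕ → ℝ × ℝ → ℝ, E = fun n z => L z + m₁ * Real.log √(r z ^ 2 + ε n) +
    m₂ * Real.log √(s z ^ 2 + ε n) := ⟨_, rfl⟩
  obtain ⟨lr, hlrdef⟩ : ∃ lr : ℕ → ℝ × ℝ → ℝ, lr = fun n z => ga z + m₁ * (r z / (r z ^ 2 + ε n)) :=
    ⟨_, rfl⟩
  obtain ⟨ls, hlsdef⟩ : ∃ ls : ℕ → ℝ × ℝ → ℝ, ls = fun n z => gb z + m₂ * (s z / (s z ^ 2 + ε n)) :=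
    ⟨_, rfl⟩
  have hE : ∀ n, ContDiffOn ℝ ∞ (E n) (Str T) := by
    intro n
    rw [hEdef]
    exact (hL.add (contDiffOn_const.mul (smooth_logsqrt (hε0 n) h.hr))).add
      (contDiffOn_const.mul (smooth_logsqrt (hε0 n) h.hs))
  have dE1 : ∀ n, ∀ z ∈ Str T, D1 (E n) z = lr n z * D1 r z + ls n z * D1 s z + lt z := by
    rintro n ⟨t, u⟩ hz
    have ht := mem_Str.1 hz
    have hτ : 0 < T - t := by linarith [ht.2]
    apply D1_unique (hE n) ht
    have a0 : HasDerivAt (fun x => 1 / 2 * Real.log (T - x)) (1 / 2 * (-1 / (T - t))) t :=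
      (((hasDerivAt_id t).const_sub T).log hτ.ne').const_mul (1 / 2)
    have a1 := hasDeriv_ell_t k1 α T ht.2 (hasD1 h.hr ht (u := u))
    have a2 := hasDeriv_ell_t k2 β T ht.2 (hasD1 h.hs ht (u := u))
    have a3 := (log_sqrt_deriv (hε0 n) (hasD1 h.hr ht (u := u))).const_mul (m₁ : ℝ)
    have a4 := (log_sqrt_deriv (hε0 n) (hasD1 h.hs ht (u := u))).const_mul (m₂ : ℝ)
    rw [hEdef, hLdef]
    refine ((((a0.add a1).add a2).add a3).add a4).congr_deriv ?_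
    rw [hlrdef, hlsdef, hltdef, hgadef, hgbdef]
    simp only
    field_simp
    ring
  have dE2 : ∀ n, ∀ z ∈ Str T, D2 (E n) z = lr n z * D2 r z + ls n z * D2 s z := by
    rintro n ⟨t, u⟩ hz
    have ht := mem_Str.1 hz
    have hτ : 0 < T - t := by linarith [ht.2]
    apply D2_unique (hE n) ht
    have a1 := hasDeriv_ell_u k1 α hτ (hasD2 h.hr ht (u := u))
    have a2 := hasDeriv_ell_u k2 β hτ (hasD2 h.hs ht (u := u))
    have a3 := (log_sqrt_deriv (hε0 n) (hasD2 h.hr ht (u := u))).const_mul (m₁ : ℝ)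
    have a4 := (log_sqrt_deriv (hε0 n) (hasD2 h.hs ht (u := u))).const_mul (m₂ : ℝ)
    rw [hEdef, hLdef]
    refine (((((hasDerivAt_const u (1 / 2 * Real.log (T - t))).add a1).add a2).add a3).add
      a4).congr_deriv ?_
    rw [hlrdef, hlsdef, hgadef, hgbdef]
    simp only
    ring
  have da : ∀ z ∈ Str T, D2 ga z = A z * D2 r z := by
    rintro ⟨t, u⟩ hz
    have ht := mem_Str.1 hz
    apply D2_unique hga ht
    rw [hgadef, hAdef]
    exact hasDeriv_elr_u k1 α (τ := T - t) (hasD2 h.hr ht (u := u))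
  have db : ∀ z ∈ Str T, D2 gb z = B z * D2 s z := by
    rintro ⟨t, u⟩ hz
    have ht := mem_Str.1 hz
    apply D2_unique hgb ht
    rw [hgbdef, hBdef]
    exact hasDeriv_elr_u k2 β (τ := T - t) (hasD2 h.hs ht (u := u))
  have pE : ∀ n, ∀ t ∈ Ioo 0 T, ∀ u, E n (t, u + 1) = E n (t, u) := by
    intro n t ht u
    rw [hEdef, hLdef]
    simp only [Lf, h.pr t ht u, h.ps t ht u]
  have pa : ∀ t ∈ Ioo 0 T, ∀ u, ga (t, u + 1) = ga (t, u) := by
    intro t ht u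
    rw [hgadef]
    simp only [h.pr t ht u]
  have pb : ∀ t ∈ Ioo 0 T, ∀ u, gb (t, u + 1) = gb (t, u) := by
    intro t ht u
    rw [hgbdef]
    simp only [h.ps t ht u]
  have key := fun n => mono_id h.hr h.hs (hE n) hga hgb h.pr h.ps (pE n) pa pb h.himm (dE1 n)
    (dE2 n) da db h1 h2 h12
  -- regularised weights
  have hexpE : ∀ n z, Real.exp (E n z) = Pe m₁ m₂ (ε n) (L z) (r z) (s z) := by
    intro n z
    rw [hEdef]
    exact Pe_exp m₁ m₂ (hε0 n) _ _ _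
  have hPc : ∀ n, ContinuousOn (fun z => Pe m₁ m₂ (ε n) (L z) (r z) (s z)) (Str T) := by
    intro n
    have : (fun z => Pe m₁ m₂ (ε n) (L z) (r z) (s z)) = fun z => Real.exp (E n z) := by
      ext z; rw [hexpE]
    rw [this]
    exact (hE n).continuousOn.rexp
  -- pieces of the integrand
  have hVn := ((hsu.neg.mul hrt).add (hru.mul hst)).div hv hv0
  have hKa := ((hsu.neg.mul hruu).add (hru.mul hsuu)).div (hv.pow 3)
    (fun z hz => pow_ne_zero 3 (hv0 z hz))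
  have hNL := ((hsu.neg.mul hga).add (hru.mul hgb)).div hv hv0
  have hTL := ((hru.mul hga).add (hsu.mul hgb)).div hv hv0
  have hHe := ((hA.mul (hru.pow 2)).add (hB.mul (hsu.pow 2))).div (hv.pow 2)
    (fun z hz => pow_ne_zero 2 (hv0 z hz))
  obtain ⟨f0, hf0⟩ : ∃ f0 : ℝ × ℝ → ℝ, f0 = fun z => v z * brk (v z) (D2 r z) (D2 s z)
    (D2 (D2 r) z) (D2 (D2 s) z) (D1 r z) (D1 s z) (ga z) (gb z) (ga z) (gb z) (lt z) (A z) (B z) :=
    ⟨_, rfl⟩
  obtain ⟨f1, hf1⟩ : ∃ f1 : ℝ × ℝ → ℝ, f1 = fun z => v z * ((-D2 s z / v z) *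
    ((-D2 s z * D1 r z + D2 r z * D1 s z) / v z) + D2 r z / v z *
      ((D2 r z * ga z + D2 s z * gb z) / v z)) := ⟨_, rfl⟩
  obtain ⟨f2, hf2⟩ : ∃ f2 : ℝ × ℝ → ℝ, f2 = fun z => v z * ((D2 r z / v z) *
    ((-D2 s z * D1 r z + D2 r z * D1 s z) / v z) + D2 s z / v z *
      ((D2 r z * ga z + D2 s z * gb z) / v z)) := ⟨_, rfl⟩
  have cf0 : ContinuousOn f0 (Str T) := by
    rw [hf0]
    unfold brk
    exact (hv.mul (((((hlt.add (hNL.mul hVn)).sub (hKa.mul hVn)).add (hTL.mul hTL)).add hHe).add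
      (hKa.mul hNL))).continuousOn
  have cf1 : ContinuousOn f1 (Str T) := by
    rw [hf1]
    exact (hv.mul (((hsu.neg.div hv hv0).mul hVn).add ((hru.div hv hv0).mul hTL))).continuousOn
  have cf2 : ContinuousOn f2 (Str T) := by
    rw [hf2]
    exact (hv.mul (((hru.div hv hv0).mul hVn).add ((hsu.div hv hv0).mul hTL))).continuousOn
  obtain ⟨G, hGdef⟩ : ∃ G : ℕ → ℝ × ℝ → ℝ, G = fun n z =>
    vint (E n z) (v z) (D2 r z) (D2 s z) (D2 (D2 r) z) (D2 (D2 s) z) (D1 r z) (D1 s z) (ga z) (gb z)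
      (lr n z) (ls n z) (lt z) (A z) (B z) := ⟨_, rfl⟩
  have hGsplit : ∀ n z, G n z = Pe m₁ m₂ (ε n) (L z) (r z) (s z) * f0 z +
      m₁ * (Pe m₁ m₂ (ε n) (L z) (r z) (s z) * (r z / (r z ^ 2 + ε n))) * f1 z +
      m₂ * (Pe m₁ m₂ (ε n) (L z) (r z) (s z) * (s z / (s z ^ 2 + ε n))) * f2 z := by
    intro n z
    rw [hGdef]
    simp only
    rw [vint_eq, hexpE, hlrdef, hlsdef]
    simp only
    rw [brk_split, hf0, hf1, hf2]
    ring
  have cq : ∀ n, ∀ x : ℝ × ℝ → ℝ, ContDiffOn ℝ ∞ x (Str T) →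
      ContinuousOn (fun z => x z / (x z ^ 2 + ε n)) (Str T) := by
    intro n x hx
    exact hx.continuousOn.div ((hx.continuousOn.pow 2).add continuousOn_const)
      (fun z _ => by have := hε0 n; positivity)
  have cG : ∀ n, ContinuousOn (G n) (Str T) := by
    intro n
    have : G n = fun z => Pe m₁ m₂ (ε n) (L z) (r z) (s z) * f0 z +
      m₁ * (Pe m₁ m₂ (ε n) (L z) (r z) (s z) * (r z / (r z ^ 2 + ε n))) * f1 z +
      m₂ * (Pe m₁ m₂ (ε n) (L z) (r z) (s z) * (s z / (s z ^ 2 + ε n))) * f2 z := by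
      ext z; exact hGsplit n z
    rw [this]
    exact (((hPc n).mul cf0).add ((continuousOn_const.mul ((hPc n).mul (cq n r h.hr))).mul
      cf1)).add ((continuousOn_const.mul ((hPc n).mul (cq n s h.hs))).mul cf2)
  -- bounds on the compact rectangle
  have hK : IsCompact (Icc t₁ t₂ ×ˢ Icc (0 : ℝ) 1) := isCompact_Icc.prod isCompact_Icc
  have hKs : Icc t₁ t₂ ×ˢ Icc (0 : ℝ) 1 ⊆ Str T := prod_mono hsub (subset_univ _)
  obtain ⟨M1, hM1⟩ := hK.exists_bound_of_continuousOn (h.hr.continuousOn.mono hKs)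
  obtain ⟨M2, hM2⟩ := hK.exists_bound_of_continuousOn (h.hs.continuousOn.mono hKs)
  obtain ⟨C0, hC0⟩ := hK.exists_bound_of_continuousOn (hL.continuousOn.mono hKs)
  obtain ⟨B0, hB0⟩ := hK.exists_bound_of_continuousOn (cf0.mono hKs)
  obtain ⟨B1, hB1⟩ := hK.exists_bound_of_continuousOn (cf1.mono hKs)
  obtain ⟨B2, hB2⟩ := hK.exists_bound_of_continuousOn (cf2.mono hKs)
  obtain ⟨B3, hB3⟩ := hK.exists_bound_of_continuousOn (hv.continuousOn.mono hKs)
  set M := max M1 M2 with hM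
  set C1 := Real.exp C0 * (M + 1) ^ m₁ * (M + 1) ^ m₂ with hC1
  have hbP : ∀ n, ∀ z ∈ Icc t₁ t₂ ×ˢ Icc (0 : ℝ) 1, Pe m₁ m₂ (ε n) (L z) (r z) (s z) ≤ C1 ∧
      m₁ * |Pe m₁ m₂ (ε n) (L z) (r z) (s z) * (r z / (r z ^ 2 + ε n))| ≤ m₁ * C1 ∧
      m₂ * |Pe m₁ m₂ (ε n) (L z) (r z) (s z) * (s z / (s z ^ 2 + ε n))| ≤ m₂ * C1 := by
    intro n z hz
    have b1 : |r z| ≤ M := (hM1 z hz).trans (le_max_left _ _)
    have b2 : |s z| ≤ M := (hM2 z hz).trans (le_max_right _ _)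
    have b3 : L z ≤ C0 := (le_abs_self _).trans (hC0 z hz)
    exact ⟨Pe_le (hε1 n) b3 b1 b2, Pe_quot_nat (hε0 n) (hε1 n) b3 b1 b2,
      Pe_quot_nat' (hε0 n) (hε1 n) b3 b1 b2⟩
  have hbG : ∀ n, ∀ t ∈ Icc t₁ t₂, ∀ u ∈ Icc (0 : ℝ) 1,
      |G n (t, u)| ≤ C1 * B0 + m₁ * C1 * B1 + m₂ * C1 * B2 := by
    intro n t ht u hu
    have hz : (t, u) ∈ Icc t₁ t₂ ×ˢ Icc (0 : ℝ) 1 := ⟨ht, hu⟩
    obtain ⟨q1, q2, q3⟩ := hbP n _ hz
    have c0 := hB0 _ hz
    have c1 := hB1 _ hz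
    have c2 := hB2 _ hz
    rw [Real.norm_eq_abs] at c0 c1 c2
    rw [hGsplit]
    have hP0 := Pe_nonneg m₁ m₂ (ε n) (L (t, u)) (r (t, u)) (s (t, u))
    have hC10 : 0 ≤ C1 := hP0.trans q1
    refine (abs_add_three _ _ _).trans ?_
    rw [abs_mul, abs_mul (_ * _) (f1 _), abs_mul (_ * _) (f2 _), abs_mul (m₁ : ℝ), abs_mul (m₂ : ℝ),
      abs_of_nonneg k1, abs_of_nonneg k2, abs_of_nonneg hP0]
    gcongr
  -- limits
  have hlimP : ∀ z, Tendsto (fun n => Pe m₁ m₂ (ε n) (L z) (r z) (s z)) atTop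
      (𝓝 (Wt T m₁ m₂ α β r s z)) := fun z => Pe_tendsto m₁ m₂ _ _ _ hεt
  obtain ⟨G', hG'def⟩ : ∃ G' : ℝ × ℝ → ℝ, G' = fun z => Wt T m₁ m₂ α β r s z *
    v z * brk (v z) (D2 r z) (D2 s z) (D2 (D2 r) z) (D2 (D2 s) z) (D1 r z) (D1 s z) (ga z) (gb z)
      (ga z + m₁ / r z) (gb z + m₂ / s z) (lt z) (A z) (B z) := ⟨_, rfl⟩
  have hlimG : ∀ z, Tendsto (fun n => G n z) atTop (𝓝 (G' z)) := by
    intro z
    have e : G' z = Wt T m₁ m₂ α β r s z * f0 z +
      m₁ * (Wt T m₁ m₂ α β r s z * (1 / r z)) * f1 z +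
      m₂ * (Wt T m₁ m₂ α β r s z * (1 / s z)) * f2 z := by
      rw [hG'def]
      simp only
      rw [brk_split, hf0, hf1, hf2]
      ring
    rw [e]
    have : (fun n => G n z) = fun n => Pe m₁ m₂ (ε n) (L z) (r z) (s z) * f0 z +
      m₁ * (Pe m₁ m₂ (ε n) (L z) (r z) (s z) * (r z / (r z ^ 2 + ε n))) * f1 z +
      m₂ * (Pe m₁ m₂ (ε n) (L z) (r z) (s z) * (s z / (s z ^ 2 + ε n))) * f2 z := by
      ext n; exact hGsplit n z
    rw [this]
    exact (((hlimP z).mul_const _).add ((((hlimP z).mul (quot_tendsto (r z) hεt)).const_mul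
      (m₁ : ℝ)).mul_const _)).add ((((hlimP z).mul (quot_tendsto (s z) hεt)).const_mul
      (m₂ : ℝ)).mul_const _)
  have hG'neg : ∀ z ∈ Str T, G' z + Dd T m₁ m₂ α β r s z ≤ 0 := by
    intro z hz
    have hτ := tau_pos hz
    have hD : Dd T m₁ m₂ α β r s z = Wt T m₁ m₂ α β r s z * v z *
        ((-D2 s z * D1 r z + D2 r z * D1 s z) / v z - (-D2 s z * ga z + D2 r z * gb z) / v z) ^ 2 := by
      rw [hgadef, hgbdef]
      rfl
    rw [hD, hG'def]
    simp only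
    rw [← mul_add]
    by_cases h0 : r z ≠ 0 ∨ m₁ = 0
    swap
    · push Not at h0
      have : Wt T m₁ m₂ α β r s z = 0 := by
        unfold Wt
        rw [h0.1, abs_zero, zero_pow h0.2]
        ring
      rw [this]; simp
    by_cases h0' : s z ≠ 0 ∨ m₂ = 0
    swap
    · push Not at h0'
      have : Wt T m₁ m₂ α β r s z = 0 := by
        unfold Wt
        rw [h0'.1, abs_zero, zero_pow h0'.2]
        ring
      rw [this]; simp
    apply mul_nonpos_of_nonneg_of_nonpos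
    · exact mul_nonneg (Wt_nonneg _ _ _ _ _ _ _ _) (Real.sqrt_nonneg _)
    · apply brk_ineq (G₁ := elG m₁ α (r z) (T - z.1)) (G₂ := elG m₂ β (s z) (T - z.1))
        (e₁ := elt m₁ α (r z) (T - z.1)) (e₂ := elt m₂ β (s z) (T - z.1)) (τ := T - z.1)
        (spd_pos h hz) (Real.sq_sqrt (by positivity)) (h0.imp_right fun h => by simp [h])
        (h0'.imp_right fun h => by simp [h]) (h.flow z hz h0 h0')
        (by rw [hgadef]) (by rw [hgbdef]) (by rw [hltdef])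
      · rw [hAdef]; exact el_sub k1 α (r z) hτ
      · rw [hBdef]; exact el_sub k2 β (s z) hτ
      · rw [hAdef]; exact elrr_ge k1 _ _ _
      · rw [hBdef]; exact elrr_ge k2 _ _ _
  have cD := Dd_cont h α β
  -- limit of the right-hand sides
  have hlimR := tendsto_iter cG h1 h2 h12 hbG (fun t _ u _ => hlimG (t, u))
  have hlimL : ∀ t ∈ Icc t₁ t₂, Tendsto (fun n => ∫ u in (0 : ℝ)..1, Real.exp (E n (t, u)) *
      √(D2 r (t, u) ^ 2 + D2 s (t, u) ^ 2)) atTop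
      (𝓝 (∫ u in (0 : ℝ)..1, Wt T m₁ m₂ α β r s (t, u) * spd r s (t, u))) := by
    intro t ht
    apply tendsto_one (T := T) (G := fun n z => Real.exp (E n z) * √(D2 r z ^ 2 + D2 s z ^ 2))
      (G' := fun z => Wt T m₁ m₂ α β r s z * spd r s z) (C := C1 * B3) _ (hsub ht)
    · intro n u hu
      have hz : (t, u) ∈ Icc t₁ t₂ ×ˢ Icc (0 : ℝ) 1 := ⟨ht, hu⟩
      rw [abs_mul, hexpE, abs_of_nonneg (Pe_nonneg _ _ _ _ _ _)]
      have q1 := (hbP n _ hz).1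
      have q2 : |√(D2 r (t, u) ^ 2 + D2 s (t, u) ^ 2)| ≤ B3 := hB3 _ hz
      have hP0 := Pe_nonneg m₁ m₂ (ε n) (L (t, u)) (r (t, u)) (s (t, u))
      have hC10 : 0 ≤ C1 := hP0.trans q1
      gcongr
    · intro u _
      simp only [hexpE]
      exact (hlimP (t, u)).mul_const _
    · intro n
      exact ((hE n).exp.mul hv).continuousOn
  have hlimLL := (hlimL t₂ ⟨h12, le_refl _⟩).sub (hlimL t₁ ⟨le_refl _, h12⟩)
  have hkey' : (fun n => (∫ u in (0 : ℝ)..1, Real.exp (E n (t₂, u)) *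
      √(D2 r (t₂, u) ^ 2 + D2 s (t₂, u) ^ 2)) - ∫ u in (0 : ℝ)..1, Real.exp (E n (t₁, u)) *
      √(D2 r (t₁, u) ^ 2 + D2 s (t₁, u) ^ 2)) =
      fun n => ∫ t in t₁..t₂, ∫ u in (0 : ℝ)..1, G n (t, u) := by
    ext n
    rw [key n, hGdef]
    rfl
  rw [hkey'] at hlimLL
  have heq := tendsto_nhds_unique hlimLL hlimR
  -- the limit of the integrals of `G n + Dd`
  obtain ⟨BD, hBD⟩ := hK.exists_bound_of_continuousOn (cD.mono hKs)
  have hlimS := tendsto_iter (G := fun n z => G n z + Dd T m₁ m₂ α β r s z)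
    (G' := fun z => G' z + Dd T m₁ m₂ α β r s z)
    (C := C1 * B0 + m₁ * C1 * B1 + m₂ * C1 * B2 + BD) (fun n => (cG n).add cD) h1 h2 h12
    (fun n t ht u hu => (abs_add_le _ _).trans (add_le_add (hbG n t ht u hu) (hBD _ ⟨ht, hu⟩)))
    (fun t _ u _ => (hlimG (t, u)).add_const _)
  have hsum : ∀ n, ∫ t in t₁..t₂, ∫ u in (0 : ℝ)..1, (G n (t, u) + Dd T m₁ m₂ α β r s (t, u)) =
      (∫ t in t₁..t₂, ∫ u in (0 : ℝ)..1, G n (t, u)) +
        ∫ t in t₁..t₂, ∫ u in (0 : ℝ)..1, Dd T m₁ m₂ α β r s (t, u) := by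
    intro n
    rw [← intervalIntegral.integral_add (cont_fst_int (cG n) h1 h2 h12)
      (cont_fst_int cD h1 h2 h12)]
    apply intervalIntegral.integral_congr
    intro t ht
    rw [uIcc_of_le h12] at ht
    exact intervalIntegral.integral_add ((cont_snd (cG n) (hsub ht)).intervalIntegrable _ _)
      ((cont_snd cD (hsub ht)).intervalIntegrable _ _)
  simp only [hsum] at hlimS
  have hlimS' := hlimR.add_const (∫ t in t₁..t₂, ∫ u in (0 : ℝ)..1, Dd T m₁ m₂ α β r s (t, u))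
  have heq2 := tendsto_nhds_unique hlimS hlimS'
  rw [heq, ← heq2]
  rw [← neg_nonneg, ← intervalIntegral.integral_neg]
  apply intervalIntegral.integral_nonneg h12
  intro t ht
  rw [← intervalIntegral.integral_neg]
  apply intervalIntegral.integral_nonneg zero_le_one
  intro u _
  rw [neg_nonneg]
  exact hG'neg _ (mem_Str.2 (hsub ht))

end Pool.Agent.Helper532_SymMCF

end
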