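import Pool.Agent.Helper532_SymMCF.Submer
import Pool.Agent.Helper532_SymMCF.Huisken
import Pool.Agent.Helper532_SymMCF.AxisLeaves

section

/-!
Times at which a rescaled integrable function is small.
-/

open Set Filter MeasureTheory Topology Metric
open scoped NNReal ENNReal

namespace Pool.Agent.Helper532_SymMCF

theorem lintegral_affine {G : ℝ → ℝ≥0∞} (hG : Measurable G) (T : ℝ) {a : ℝ} (ha : 0 < a) :
    ∫⁻ t, ENNReal.ofReal a * G (T + a * t) = ∫⁻ y, G y := by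
  have hm : Measurable fun t => G (T + a * t) := hG.comp (by fun_prop)
  have hm' : Measurable fun y => G (T + y) := hG.comp (by fun_prop)
  rw [lintegral_const_mul _ hm]
  have h1 : ∫⁻ t, G (T + a * t) = ∫⁻ y, G (T + y) ∂(Measure.map (a * ·) volume) := by
    rw [lintegral_map hm' (by fun_prop)]
  rw [h1, Real.map_volume_mul_left ha.ne', lintegral_smul_measure, smul_eq_mul, ← mul_assoc,
    ← ENNReal.ofReal_mul ha.le, abs_of_pos (inv_pos.2 ha), mul_inv_cancel₀ ha.ne',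
    ENNReal.ofReal_one, one_mul]
  exact lintegral_add_left_eq_self (fun y => G y) T

theorem exists_good_times {D : ℝ → ℝ} {T t₁ C : ℝ} (ht₁ : t₁ ∈ Ioo 0 T)
    (hc : ContinuousOn D (Ioo 0 T)) (hD0 : ∀ t, 0 ≤ D t)
    (hint : ∀ t₂ ∈ Ioo 0 T, t₁ ≤ t₂ → ∫ t in t₁..t₂, D t ≤ C) {l : ℕ → ℝ}
    (hl : Tendsto l atTop atTop) :
    ∀ᵐ t ∂(volume.restrict (Iio (0 : ℝ))), ∃ φ : ℕ → ℕ, StrictMono φ ∧
      (∀ k, 0 < l (φ k) ∧ T + t / l (φ k) ^ 2 ∈ Ioo 0 T) ∧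
      Tendsto (fun k => (l (φ k) ^ 2)⁻¹ * D (T + t / l (φ k) ^ 2)) atTop (𝓝 0) := by
  classical
  have hsub : Ioo t₁ T ⊆ Ioo 0 T := Ioo_subset_Ioo_left ht₁.1.le
  -- integrability
  have hI : IntegrableOn D (Ioc t₁ T) := by
    have hb : Tendsto (fun n : ℕ => T - (T - t₁) / ((n : ℝ) + 1)) atTop (𝓝 T) := by
      have h1 := (tendsto_one_div_add_atTop_nhds_zero_nat (𝕜 := ℝ)).const_mul (T - t₁)
      have h2 := h1.const_sub T
      simp only [mul_zero, sub_zero, mul_one_div] at h2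
      exact h2
    have hbn : ∀ n : ℕ, t₁ ≤ T - (T - t₁) / ((n : ℝ) + 1) ∧ T - (T - t₁) / ((n : ℝ) + 1) < T := by
      intro n
      have h1 : 0 < T - t₁ := by linarith [ht₁.2]
      have h2 : 0 < (T - t₁) / ((n : ℝ) + 1) := by positivity
      have h3 : (T - t₁) / ((n : ℝ) + 1) ≤ T - t₁ := by
        apply div_le_self h1.le
        have : (0 : ℝ) ≤ n := Nat.cast_nonneg _
        linarith
      constructor <;> linarith
    have hcI : ∀ n : ℕ, ContinuousOn D (Icc t₁ (T - (T - t₁) / ((n : ℝ) + 1))) := fun n =>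
      hc.mono fun x hx => ⟨ht₁.1.trans_le hx.1, hx.2.trans_lt (hbn n).2⟩
    apply integrableOn_Ioc_of_intervalIntegral_norm_bounded_right (I := C) (l := atTop)
      (b := fun n : ℕ => T - (T - t₁) / ((n : ℝ) + 1)) _ hb
    · refine Eventually.of_forall fun n => ?_
      rw [← intervalIntegral.integral_of_le (hbn n).1]
      simp only [Real.norm_eq_abs, abs_of_nonneg (hD0 _)]
      exact hint _ ⟨ht₁.1.trans_le (hbn n).1, (hbn n).2⟩ (hbn n).1
    · intro n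
      exact ((hcI n).integrableOn_Icc).mono_set Ioc_subset_Icc_self
  set D' : ℝ → ℝ := (Ioo t₁ T).piecewise D 0 with hD'
  have hD'm : Measurable D' :=
    ContinuousOn.measurable_piecewise (hc.mono hsub) continuous_zero.continuousOn measurableSet_Ioo
  set g : ℝ → ℝ≥0∞ := fun t => ENNReal.ofReal (D' t) with hg
  have hgm : Measurable g := hD'm.ennreal_ofReal
  have hgI : ∫⁻ t, g t ≠ ⊤ := by
    have h1 : Integrable D' := by
      have : D' = (Ioo t₁ T).indicator D := by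
        rw [hD', piecewise_eq_indicator]
      rw [this, integrable_indicator_iff measurableSet_Ioo]
      exact hI.mono_set Ioo_subset_Ioc_self
    have h2 := h1.lintegral_lt_top
    exact h2.ne
  -- rescaled functions
  have hpos : ∀ᶠ i in atTop, 0 < l i := hl.eventually_gt_atTop 0
  have hlinv : Tendsto (fun i => (l i ^ 2)⁻¹) atTop (𝓝 0) :=
    ((tendsto_pow_atTop (two_ne_zero)).comp hl).inv_tendsto_atTop
  set F : ℕ → ℝ → ℝ≥0∞ := fun i t => ENNReal.ofReal (l i ^ 2)⁻¹ * g (T + (l i ^ 2)⁻¹ * t) with hF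
  have hFm : ∀ i, Measurable (F i) := fun i => (hgm.comp (by fun_prop)).const_mul _
  have hlim : ∀ m : ℕ, Tendsto (fun i => ∫⁻ t in Ioo (-(m : ℝ)) 0, F i t) atTop (𝓝 0) := by
    intro m
    have h1 : ∀ᶠ i in atTop, ∫⁻ t in Ioo (-(m : ℝ)) 0, F i t =
        ∫⁻ y in Ioo (T - m * (l i ^ 2)⁻¹) T, g y := by
      filter_upwards [hpos] with i hi
      have ha : 0 < (l i ^ 2)⁻¹ := by positivity
      rw [← lintegral_indicator measurableSet_Ioo, ← lintegral_indicator measurableSet_Ioo,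
        ← lintegral_affine (hgm.indicator measurableSet_Ioo) T ha]
      apply lintegral_congr
      intro t
      have hiff : T + (l i ^ 2)⁻¹ * t ∈ Ioo (T - m * (l i ^ 2)⁻¹) T ↔ t ∈ Ioo (-(m : ℝ)) 0 := by
        constructor
        · rintro ⟨b1, b2⟩
          constructor
          · by_contra hcon
            push Not at hcon
            have := mul_le_mul_of_nonneg_left hcon ha.le
            linarith
          · by_contra hcon
            push Not at hcon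
            have := mul_nonneg ha.le hcon
            linarith
        · rintro ⟨b1, b2⟩
          have c1 := mul_lt_mul_of_pos_left b1 ha
          have c2 := mul_neg_of_pos_of_neg ha b2
          constructor <;> linarith
      by_cases ht : t ∈ Ioo (-(m : ℝ)) 0
      · rw [indicator_of_mem ht, indicator_of_mem (hiff.2 ht)]
      · rw [indicator_of_notMem ht, indicator_of_notMem (fun h => ht (hiff.1 h)), mul_zero]
    have h2 : Tendsto (fun i => ∫⁻ y in Ioo (T - m * (l i ^ 2)⁻¹) T, g y) atTop (𝓝 0) := by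
      apply tendsto_setLIntegral_zero hgI
      have h3 : (volume ∘ fun i => Ioo (T - m * (l i ^ 2)⁻¹) T) =
          fun i => ENNReal.ofReal (m * (l i ^ 2)⁻¹) := by
        ext i
        simp only [Function.comp, Real.volume_Ioo]
        congr 1
        ring
      rw [h3]
      have h4 := (hlinv.const_mul (m : ℝ))
      rw [mul_zero] at h4
      have h5 := (ENNReal.continuous_ofReal.tendsto 0).comp h4
      rw [ENNReal.ofReal_zero] at h5
      exact h5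
    exact h2.congr' (h1.mono fun i hi => hi.symm)
  have hliminf : ∀ m : ℕ, ∀ᵐ t ∂(volume.restrict (Ioo (-(m : ℝ)) 0)),
      liminf (fun i => F i t) atTop = 0 := by
    intro m
    have h1 := lintegral_liminf_le (μ := volume.restrict (Ioo (-(m : ℝ)) 0)) (u := atTop) hFm
    rw [(hlim m).liminf_eq] at h1
    have h2 : ∫⁻ t in Ioo (-(m : ℝ)) 0, liminf (fun i => F i t) atTop = 0 := le_antisymm h1 zero_le
    rw [lintegral_eq_zero_iff (Measurable.liminf hFm)] at h2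
    exact h2
  have hU : Iio (0 : ℝ) = ⋃ m : ℕ, Ioo (-(m : ℝ)) 0 := by
    ext t
    simp only [mem_Iio, mem_iUnion, mem_Ioo]
    constructor
    · intro ht
      obtain ⟨m, hm⟩ := exists_nat_gt (-t)
      exact ⟨m, by linarith, ht⟩
    · rintro ⟨m, _, ht⟩
      exact ht
  rw [hU, ae_restrict_iUnion_iff]
  intro m
  filter_upwards [hliminf m, ae_restrict_mem measurableSet_Ioo] with t ht htm
  -- extraction
  have hev : ∀ᶠ i in atTop, 0 < l i ∧ T + t / l i ^ 2 ∈ Ioo t₁ T := by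
    have h1 : Tendsto (fun i => T + t / l i ^ 2) atTop (𝓝 T) := by
      have := (hlinv.const_mul t).const_add T
      simpa [div_eq_mul_inv] using this
    filter_upwards [hpos, h1.eventually_const_lt ht₁.2] with i h2 h3
    refine ⟨h2, h3, ?_⟩
    have : t / l i ^ 2 < 0 := div_neg_of_neg_of_pos htm.2 (by positivity)
    linarith
  have hfr : ∀ n : ℕ, ∃ᶠ i in atTop, (0 < l i ∧ T + t / l i ^ 2 ∈ Ioo t₁ T) ∧
      F i t < ENNReal.ofReal (1 / ((n : ℝ) + 1)) := by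
    intro n
    have h1 : ∃ᶠ i in atTop, F i t < ENNReal.ofReal (1 / ((n : ℝ) + 1)) := by
      apply frequently_lt_of_liminf_lt
      · exact isCobounded_ge_of_top
      · rw [ht]
        simp only [ENNReal.ofReal_pos]
        positivity
    exact (h1.and_eventually hev).mono fun i hi => ⟨hi.2, hi.1⟩
  obtain ⟨φ, hφ, hφp⟩ := extraction_forall_of_frequently hfr
  refine ⟨φ, hφ, fun k => ⟨(hφp k).1.1, hsub (hφp k).1.2⟩, ?_⟩
  have hval : ∀ k, F (φ k) t = ENNReal.ofReal ((l (φ k) ^ 2)⁻¹ * D (T + t / l (φ k) ^ 2)) := by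
    intro k
    obtain ⟨⟨h1, h2⟩, _⟩ := hφp k
    simp only [hF, hg]
    have h3 : T + (l (φ k) ^ 2)⁻¹ * t = T + t / l (φ k) ^ 2 := by ring
    rw [h3, hD', piecewise_eq_of_mem _ _ _ h2, ENNReal.ofReal_mul (by positivity)]
  apply squeeze_zero (fun k => mul_nonneg (by positivity) (hD0 _)) (g := fun k : ℕ => 1 / ((k : ℝ) + 1))
  · intro k
    have h1 := (hφp k).2
    rw [hval] at h1
    have h2 := (ENNReal.ofReal_lt_ofReal_iff (by positivity)).1 h1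
    exact h2.le
  · exact tendsto_one_div_add_atTop_nhds_zero_nat

end Pool.Agent.Helper532_SymMCF

end

section

/-!
The profile curves of a symmetric mean curvature flow: integrability of the dissipation, and
closeness of the rescaled curves to the solutions of the limit equation.
-/

open Set Filter MeasureTheory Topology Metric Module
open scoped ContDiff NNReal ENNReal

namespace Pool.Agent.Helper532_SymMCF

/-- real part of the curve `j` as function of `(t, u)` -/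
noncomputable def rr {N : ℕ} (c : Fin N → ℝ → ℝ → ℂ) (j : Fin N) (z : ℝ × ℝ) : ℝ :=
  (c j z.1 z.2).re

/-- imaginary part of the curve `j` as function of `(t, u)` -/
noncomputable def ss {N : ℕ} (c : Fin N → ℝ → ℝ → ℂ) (j : Fin N) (z : ℝ × ℝ) : ℝ :=
  (c j z.1 z.2).im

/-- The profile curves of a symmetric mean curvature flow; a factor of dimension one carries no
condition of symmetry. -/
structure PFlow (p q : ℕ) (T : ℝ) (N : ℕ) (c : Fin N → ℝ → ℝ → ℂ) : Prop where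
  smooth : ∀ j, ContDiffOn ℝ ∞ (fun z : ℝ × ℝ => c j z.1 z.2) (Ico 0 T ×ˢ univ)
  periodic : ∀ j, ∀ t ∈ Ico 0 T, ∀ u, c j t (u + 1) = c j t u
  immersed : ∀ j, ∀ t ∈ Ico 0 T, ∀ u, deriv (c j t) u ≠ 0
  embedded : ∀ t ∈ Ico 0 T, ∀ j j' u u', c j t u = c j' t u' → j = j' ∧ ∃ k : ℤ, u' = u + k
  symm₁ : 2 ≤ p → ∀ t ∈ Ico 0 T, ∀ j u, ∃ j' u', c j' t u' = ⟨-(c j t u).re, (c j t u).im⟩
  symm₂ : 2 ≤ q → ∀ t ∈ Ico 0 T, ∀ j u, ∃ j' u', c j' t u' = ⟨(c j t u).re, -(c j t u).im⟩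
  orth₁ : 2 ≤ p → ∀ t ∈ Ico 0 T, ∀ j u, (c j t u).re = 0 → (deriv (c j t) u).im = 0
  orth₂ : 2 ≤ q → ∀ t ∈ Ico 0 T, ∀ j u, (c j t u).im = 0 → (deriv (c j t) u).re = 0
  flow : ∀ t ∈ Ioo 0 T, ∀ j u, ((c j t u).re ≠ 0 ∨ p = 1) → ((c j t u).im ≠ 0 ∨ q = 1) →
    inner ℝ (deriv (fun s => c j s u) t) (nu (deriv (c j t) u)) =
      curv (c j t) u - (p - 1) * (nu (deriv (c j t) u)).re / (c j t u).re
        - (q - 1) * (nu (deriv (c j t) u)).im / (c j t u).im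

variable {p q N : ℕ} {T : ℝ} {c : Fin N → ℝ → ℝ → ℂ}

theorem IsProfileFlow.toP (h : IsProfileFlow p q T N c) (hp : 2 ≤ p) (hq : 2 ≤ q) :
    PFlow p q T N c :=
  ⟨h.smooth, h.periodic, h.immersed, h.embedded, fun _ => h.symm₁, fun _ => h.symm₂,
    fun _ => h.orth₁, fun _ => h.orth₂, fun t ht j u hr hs =>
      h.flow t ht j u (hr.resolve_right (by omega)) (hs.resolve_right (by omega))⟩

theorem PFlow.sm (h : PFlow p q T N c) (j : Fin N) :
    ContDiffOn ℝ ∞ (fun z : ℝ × ℝ => c j z.1 z.2) (Str T) :=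
  (h.smooth j).mono (prod_mono Ioo_subset_Ico_self (subset_refl _))

theorem PFlow.slice (h : PFlow p q T N c) (j : Fin N) {t : ℝ} (ht : t ∈ Ioo 0 T) :
    ContDiff ℝ ∞ (c j t) := by
  rw [← contDiffOn_univ]
  have : c j t = (fun z : ℝ × ℝ => c j z.1 z.2) ∘ fun u => (t, u) := rfl
  rw [this]
  apply (h.sm j).comp (by fun_prop)
  intro u _
  exact mem_Str.2 ht

theorem rr_smooth (h : PFlow p q T N c) (j : Fin N) : ContDiffOn ℝ ∞ (rr c j) (Str T) :=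
  Complex.reCLM.contDiff.comp_contDiffOn (h.sm j)

theorem ss_smooth (h : PFlow p q T N c) (j : Fin N) : ContDiffOn ℝ ∞ (ss c j) (Str T) :=
  Complex.imCLM.contDiff.comp_contDiffOn (h.sm j)

theorem D2_re {F : ℝ × ℝ → ℂ} (hF : ContDiffOn ℝ ∞ F (Str T)) {t u : ℝ} (ht : t ∈ Ioo 0 T) :
    D2 (fun z => (F z).re) (t, u) = (deriv (fun x => F (t, x)) u).re := by
  have h1 := hasD2 hF ht (u := u)
  have h2 : HasDerivAt (fun x => (F (t, x)).re) (D2 F (t, u)).re u :=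
    Complex.reCLM.hasFDerivAt.comp_hasDerivAt u h1
  have h3 : ContDiffOn ℝ ∞ (fun z => (F z).re) (Str T) :=
    Complex.reCLM.contDiff.comp_contDiffOn hF
  rw [D2_unique h3 ht h2, h1.deriv]

theorem D2_im {F : ℝ × ℝ → ℂ} (hF : ContDiffOn ℝ ∞ F (Str T)) {t u : ℝ} (ht : t ∈ Ioo 0 T) :
    D2 (fun z => (F z).im) (t, u) = (deriv (fun x => F (t, x)) u).im := by
  have h1 := hasD2 hF ht (u := u)
  have h2 : HasDerivAt (fun x => (F (t, x)).im) (D2 F (t, u)).im u :=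
    Complex.imCLM.hasFDerivAt.comp_hasDerivAt u h1
  have h3 : ContDiffOn ℝ ∞ (fun z => (F z).im) (Str T) :=
    Complex.imCLM.contDiff.comp_contDiffOn hF
  rw [D2_unique h3 ht h2, h1.deriv]

theorem D1_re {F : ℝ × ℝ → ℂ} (hF : ContDiffOn ℝ ∞ F (Str T)) {t u : ℝ} (ht : t ∈ Ioo 0 T) :
    D1 (fun z => (F z).re) (t, u) = (deriv (fun x => F (x, u)) t).re := by
  have h1 := hasD1 hF ht (u := u)
  have h2 : HasDerivAt (fun x => (F (x, u)).re) (D1 F (t, u)).re t :=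
    Complex.reCLM.hasFDerivAt.comp_hasDerivAt t h1
  have h3 : ContDiffOn ℝ ∞ (fun z => (F z).re) (Str T) :=
    Complex.reCLM.contDiff.comp_contDiffOn hF
  rw [D1_unique h3 ht h2, h1.deriv]

theorem D1_im {F : ℝ × ℝ → ℂ} (hF : ContDiffOn ℝ ∞ F (Str T)) {t u : ℝ} (ht : t ∈ Ioo 0 T) :
    D1 (fun z => (F z).im) (t, u) = (deriv (fun x => F (x, u)) t).im := by
  have h1 := hasD1 hF ht (u := u)
  have h2 : HasDerivAt (fun x => (F (x, u)).im) (D1 F (t, u)).im t :=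
    Complex.imCLM.hasFDerivAt.comp_hasDerivAt t h1
  have h3 : ContDiffOn ℝ ∞ (fun z => (F z).im) (Str T) :=
    Complex.imCLM.contDiff.comp_contDiffOn hF
  rw [D1_unique h3 ht h2, h1.deriv]

theorem rr_u (h : PFlow p q T N c) (j : Fin N) {t : ℝ} (ht : t ∈ Ioo 0 T) (u : ℝ) :
    D2 (rr c j) (t, u) = (deriv (c j t) u).re := D2_re (h.sm j) ht

theorem ss_u (h : PFlow p q T N c) (j : Fin N) {t : ℝ} (ht : t ∈ Ioo 0 T) (u : ℝ) :
    D2 (ss c j) (t, u) = (deriv (c j t) u).im := D2_im (h.sm j) ht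

theorem rr_t (h : PFlow p q T N c) (j : Fin N) {t : ℝ} (ht : t ∈ Ioo 0 T) (u : ℝ) :
    D1 (rr c j) (t, u) = (deriv (fun s => c j s u) t).re := D1_re (h.sm j) ht

theorem ss_t (h : PFlow p q T N c) (j : Fin N) {t : ℝ} (ht : t ∈ Ioo 0 T) (u : ℝ) :
    D1 (ss c j) (t, u) = (deriv (fun s => c j s u) t).im := D1_im (h.sm j) ht

theorem D2_slice (h : PFlow p q T N c) (j : Fin N) {t : ℝ} (ht : t ∈ Ioo 0 T) :
    (fun x => D2 (fun z : ℝ × ℝ => c j z.1 z.2) (t, x)) = deriv (c j t) := by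
  ext x
  exact ((hasD2 (h.sm j) ht (u := x)).deriv).symm

theorem D2_congr {E : Type*} [NormedAddCommGroup E] [NormedSpace ℝ E] {F G : ℝ × ℝ → E}
    (hF : ContDiffOn ℝ ∞ F (Str T)) (hG : ContDiffOn ℝ ∞ G (Str T))
    (he : ∀ z ∈ Str T, F z = G z) {t u : ℝ} (ht : t ∈ Ioo 0 T) : D2 F (t, u) = D2 G (t, u) := by
  have h1 := hasD2 hG ht (u := u)
  apply D2_unique hF ht
  have : (fun s => F (t, s)) = fun s => G (t, s) := by
    ext s; exact he _ (mem_Str.2 ht)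
  rw [this]
  exact h1

theorem rr_uu (h : PFlow p q T N c) (j : Fin N) {t : ℝ} (ht : t ∈ Ioo 0 T) (u : ℝ) :
    D2 (D2 (rr c j)) (t, u) = (deriv (deriv (c j t)) u).re := by
  have h1 := smooth_D2 (h.sm j)
  have h2 : ContDiffOn ℝ ∞ (fun z => (D2 (fun z : ℝ × ℝ => c j z.1 z.2) z).re) (Str T) :=
    Complex.reCLM.contDiff.comp_contDiffOn h1
  rw [D2_congr (smooth_D2 (rr_smooth h j)) h2 (fun z hz => ?_) ht, D2_re h1 ht, D2_slice h j ht]
  obtain ⟨t', u'⟩ := z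
  rw [rr_u h j (mem_Str.1 hz), ← congrFun (D2_slice h j (mem_Str.1 hz)) u']

theorem ss_uu (h : PFlow p q T N c) (j : Fin N) {t : ℝ} (ht : t ∈ Ioo 0 T) (u : ℝ) :
    D2 (D2 (ss c j)) (t, u) = (deriv (deriv (c j t)) u).im := by
  have h1 := smooth_D2 (h.sm j)
  have h2 : ContDiffOn ℝ ∞ (fun z => (D2 (fun z : ℝ × ℝ => c j z.1 z.2) z).im) (Str T) :=
    Complex.imCLM.contDiff.comp_contDiffOn h1
  rw [D2_congr (smooth_D2 (ss_smooth h j)) h2 (fun z hz => ?_) ht, D2_im h1 ht, D2_slice h j ht]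
  obtain ⟨t', u'⟩ := z
  rw [ss_u h j (mem_Str.1 hz), ← congrFun (D2_slice h j (mem_Str.1 hz)) u']

theorem norm_eq_sqrt (v : ℂ) : ‖v‖ = √(v.re ^ 2 + v.im ^ 2) := by
  rw [← norm_sq_C, Real.sqrt_sq (norm_nonneg _)]

theorem spd_eq (h : PFlow p q T N c) (j : Fin N) {t : ℝ} (ht : t ∈ Ioo 0 T) (u : ℝ) :
    √(D2 (rr c j) (t, u) ^ 2 + D2 (ss c j) (t, u) ^ 2) = ‖deriv (c j t) u‖ := by
  rw [rr_u h j ht, ss_u h j ht, norm_eq_sqrt]

theorem imm_rs (h : PFlow p q T N c) (j : Fin N) :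
    ∀ z ∈ Str T, D2 (rr c j) z ^ 2 + D2 (ss c j) z ^ 2 ≠ 0 := by
  rintro ⟨t, u⟩ hz h0
  have ht := mem_Str.1 hz
  have h1 := spd_eq h j ht u
  rw [h0, Real.sqrt_zero] at h1
  exact h.immersed j t (Ioo_subset_Ico_self ht) u (norm_eq_zero.1 h1.symm)

theorem flow_rs (h : PFlow p q T N c) (hp : 1 ≤ p) (hq : 1 ≤ q) (j : Fin N) {t u : ℝ}
    (hz : (t, u) ∈ Str T) (hr : (c j t u).re ≠ 0 ∨ p = 1) (hs : (c j t u).im ≠ 0 ∨ q = 1) :
    (-D2 (ss c j) (t, u) * D1 (rr c j) (t, u) + D2 (rr c j) (t, u) * D1 (ss c j) (t, u)) /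
        √(D2 (rr c j) (t, u) ^ 2 + D2 (ss c j) (t, u) ^ 2) =
      (-D2 (ss c j) (t, u) * D2 (D2 (rr c j)) (t, u) +
        D2 (rr c j) (t, u) * D2 (D2 (ss c j)) (t, u)) /
          √(D2 (rr c j) (t, u) ^ 2 + D2 (ss c j) (t, u) ^ 2) ^ 3
        - (p - 1 : ℕ) * (-D2 (ss c j) (t, u) /
          √(D2 (rr c j) (t, u) ^ 2 + D2 (ss c j) (t, u) ^ 2)) / rr c j (t, u)
        - (q - 1 : ℕ) * (D2 (rr c j) (t, u) /
          √(D2 (rr c j) (t, u) ^ 2 + D2 (ss c j) (t, u) ^ 2)) / ss c j (t, u) := by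
  have ht := mem_Str.1 hz
  have hfl := h.flow t ht j u hr hs
  rw [spd_eq h j ht, rr_u h j ht, ss_u h j ht, rr_t h j ht, ss_t h j ht, rr_uu h j ht,
    ss_uu h j ht]
  rw [inner_nu] at hfl
  rw [hfl]
  have hn : ‖deriv (c j t) u‖ ≠ 0 :=
    norm_ne_zero_iff.2 (h.immersed j t (Ioo_subset_Ico_self ht) u)
  have hr' : rr c j (t, u) = (c j t u).re := rfl
  have hs' : ss c j (t, u) = (c j t u).im := rfl
  rw [hr', hs']
  unfold curv
  rw [inner_nu, re_nu, im_nu]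
  have e1 : ((p - 1 : ℕ) : ℝ) = (p : ℝ) - 1 := by
    rw [Nat.cast_sub (by omega)]; simp
  have e2 : ((q - 1 : ℕ) : ℝ) = (q : ℝ) - 1 := by
    rw [Nat.cast_sub (by omega)]; simp
  rw [e1, e2]
  have e3 : ∀ x : ℝ, x / ‖deriv (c j t) u‖ / ‖deriv (c j t) u‖ ^ 2 =
      x / ‖deriv (c j t) u‖ ^ 3 := by
    intro x
    field_simp
  rw [e3]

theorem toFam (h : PFlow p q T N c) (hp : 1 ≤ p) (hq : 1 ≤ q) (j : Fin N) :
    Fam T (p - 1) (q - 1) (rr c j) (ss c j) := by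
  refine ⟨rr_smooth h j, ss_smooth h j, ?_, ?_, imm_rs h j, ?_⟩
  · intro t ht u
    simp only [rr, h.periodic j t (Ioo_subset_Ico_self ht) u]
  · intro t ht u
    simp only [ss, h.periodic j t (Ioo_subset_Ico_self ht) u]
  · rintro ⟨t, u⟩ hz hr hs
    exact flow_rs h hp hq j hz (hr.imp_right fun h => by omega) (hs.imp_right fun h => by omega)

/-- weighted length of the profile -/
noncomputable def Phi (p q : ℕ) (T : ℝ) {N : ℕ} (c : Fin N → ℝ → ℝ → ℂ) (α β t : ℝ) : ℝ :=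
  ∑ j, ∫ u in (0 : ℝ)..1, Wt T (p - 1) (q - 1) α β (rr c j) (ss c j) (t, u) *
    spd (rr c j) (ss c j) (t, u)

/-- dissipation -/
noncomputable def Dis (p q : ℕ) (T : ℝ) {N : ℕ} (c : Fin N → ℝ → ℝ → ℂ) (α β t : ℝ) : ℝ :=
  ∑ j, ∫ u in (0 : ℝ)..1, Dd T (p - 1) (q - 1) α β (rr c j) (ss c j) (t, u)

theorem Phi_nonneg (p q : ℕ) (T : ℝ) (c : Fin N → ℝ → ℝ → ℂ) (α β t : ℝ) :
    0 ≤ Phi p q T c α β t := by
  apply Finset.sum_nonneg
  intro j _
  apply intervalIntegral.integral_nonneg zero_le_one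
  intro u _
  exact mul_nonneg (Wt_nonneg _ _ _ _ _ _ _ _) (Real.sqrt_nonneg _)

theorem Dis_nonneg (p q : ℕ) (T : ℝ) (c : Fin N → ℝ → ℝ → ℂ) (α β t : ℝ) :
    0 ≤ Dis p q T c α β t := by
  apply Finset.sum_nonneg
  intro j _
  apply intervalIntegral.integral_nonneg zero_le_one
  intro u _
  exact Dd_nonneg _ _ _ _ _ _ _ _

theorem Dis_cont (h : PFlow p q T N c) (hp : 1 ≤ p) (hq : 1 ≤ q) (α β : ℝ) :
    ContinuousOn (Dis p q T c α β) (Ioo 0 T) := by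
  unfold Dis
  apply continuousOn_finsetSum
  intro j _
  exact cont_integral (Dd_cont (toFam h hp hq j) α β)

theorem Dis_int (h : PFlow p q T N c) (hp : 1 ≤ p) (hq : 1 ≤ q) (α β : ℝ) {t₁ t₂ : ℝ}
    (h1 : t₁ ∈ Ioo 0 T) (h2 : t₂ ∈ Ioo 0 T) (h12 : t₁ ≤ t₂) :
    ∫ t in t₁..t₂, Dis p q T c α β t ≤ Phi p q T c α β t₁ := by
  have h3 : ∫ t in t₁..t₂, Dis p q T c α β t =
      ∑ j, ∫ t in t₁..t₂, ∫ u in (0 : ℝ)..1,
        Dd T (p - 1) (q - 1) α β (rr c j) (ss c j) (t, u) := by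
    unfold Dis
    rw [intervalIntegral.integral_finsetSum]
    intro j _
    exact cont_fst_int (Dd_cont (toFam h hp hq j) α β) h1 h2 h12
  have h4 : ∑ j, (∫ t in t₁..t₂, ∫ u in (0 : ℝ)..1,
        Dd T (p - 1) (q - 1) α β (rr c j) (ss c j) (t, u)) ≤
      Phi p q T c α β t₁ - Phi p q T c α β t₂ := by
    unfold Phi
    rw [← Finset.sum_sub_distrib]
    apply Finset.sum_le_sum
    intro j _
    have := mono_main (toFam h hp hq j) α β h1 h2 h12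
    linarith
  have h5 := Phi_nonneg p q T c α β t₂
  rw [h3]
  linarith

/-- the limit field -/
noncomputable def finf (k₁ k₂ α β τ : ℝ) (ζ : ℂ) : ℂ := ⟨fl k₁ α τ ζ.re, fl k₂ β τ ζ.im⟩

/-- pointwise estimate -/
theorem curv_est (h : PFlow p q T N c) (hp : 1 ≤ p) (hq : 1 ≤ q) {α β τ l η C₁ C₂ ε : ℝ}
    (hl : 0 < l) (hε : 0 < ε) (hτ : 0 < τ) (ht : T - τ / l ^ 2 ∈ Ioo 0 T) (j : Fin N) (u : ℝ)
    {ζ : ℂ} (hζ : ζ = l • (c j (T - τ / l ^ 2) u - ⟨α, β⟩))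
    (g1 : |l⁻¹ * ((α + l⁻¹ * ζ.re) * elG (p - 1 : ℕ) α (α + l⁻¹ * ζ.re) (τ / l ^ 2) +
      (p - 1 : ℕ) / (α + l⁻¹ * ζ.re)) - fl (p - 1 : ℕ) α τ ζ.re| ≤ η)
    (g2 : |l⁻¹ * ((β + l⁻¹ * ζ.im) * elG (q - 1 : ℕ) β (β + l⁻¹ * ζ.im) (τ / l ^ 2) +
      (q - 1 : ℕ) / (β + l⁻¹ * ζ.im)) - fl (q - 1 : ℕ) β τ ζ.im| ≤ η)
    (w1 : α + l⁻¹ * ζ.re ≠ 0 ∧ Real.log l - C₁ ≤ (p - 1 : ℕ) * Real.log |α + l⁻¹ * ζ.re| +
      ell (p - 1 : ℕ) α (α + l⁻¹ * ζ.re) (τ / l ^ 2))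
    (w2 : β + l⁻¹ * ζ.im ≠ 0 ∧ Real.log l - C₂ ≤ (q - 1 : ℕ) * Real.log |β + l⁻¹ * ζ.im| +
      ell (q - 1 : ℕ) β (β + l⁻¹ * ζ.im) (τ / l ^ 2)) :
    |curv (c j (T - τ / l ^ 2)) u / l - inner ℝ (finf (p - 1 : ℕ) (q - 1 : ℕ) α β τ ζ)
      (nu (deriv (c j (T - τ / l ^ 2)) u))| * (l * ‖deriv (c j (T - τ / l ^ 2)) u‖) ≤
    (ε / 4 + 2 * η) * (l * ‖deriv (c j (T - τ / l ^ 2)) u‖) +
      Dd T (p - 1) (q - 1) α β (rr c j) (ss c j) (T - τ / l ^ 2, u) /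
        (ε * Real.exp (1 / 2 * Real.log τ - C₁ - C₂) * l ^ 2) := by
  set t := T - τ / l ^ 2 with htdef
  have hTt : T - t = τ / l ^ 2 := by rw [htdef]; ring
  have hfam := toFam h hp hq j
  have hz : (t, u) ∈ Str T := mem_Str.2 ht
  have hr : α + l⁻¹ * ζ.re = (c j t u).re := by
    rw [hζ]
    simp only [Complex.smul_re, Complex.sub_re, smul_eq_mul]
    field_simp
    ring
  have hs : β + l⁻¹ * ζ.im = (c j t u).im := by
    rw [hζ]
    simp only [Complex.smul_im, Complex.sub_im, smul_eq_mul]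
    field_simp
    ring
  rw [hr] at g1 w1
  rw [hs] at g2 w2
  set r := (c j t u).re with hrdef
  set s := (c j t u).im with hsdef
  set w := deriv (c j t) u with hw
  have hw0 : w ≠ 0 := h.immersed j t (Ioo_subset_Ico_self ht) u
  have hn : 0 < ‖w‖ := norm_pos_iff.2 hw0
  have hspd : spd (rr c j) (ss c j) (t, u) = ‖w‖ := spd_eq h j ht u
  have hVd : Vd T (p - 1) (q - 1) α β (rr c j) (ss c j) (t, u) =
      inner ℝ (deriv (fun s => c j s u) t) (nu w) -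
      ((nu w).re * (r * elG (p - 1 : ℕ) α r (τ / l ^ 2)) +
        (nu w).im * (s * elG (q - 1 : ℕ) β s (τ / l ^ 2))) := by
    unfold Vd
    rw [hspd, rr_u h j ht, ss_u h j ht, rr_t h j ht, ss_t h j ht, inner_nu, re_nu, im_nu]
    simp only [hTt]
    have hr' : rr c j (t, u) = r := rfl
    have hs' : ss c j (t, u) = s := rfl
    rw [hr', hs']
    ring
  have hfl := h.flow t ht j u (Or.inl w1.1) (Or.inl w2.1)
  have e1 : ((p - 1 : ℕ) : ℝ) = (p : ℝ) - 1 := by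
    rw [Nat.cast_sub (by omega)]; simp
  have e2 : ((q - 1 : ℕ) : ℝ) = (q : ℝ) - 1 := by
    rw [Nat.cast_sub (by omega)]; simp
  rw [← e1, ← e2] at hfl
  have hcurv : curv (c j t) u = Vd T (p - 1) (q - 1) α β (rr c j) (ss c j) (t, u) +
      (nu w).re * (r * elG (p - 1 : ℕ) α r (τ / l ^ 2) + (p - 1 : ℕ) / r) +
      (nu w).im * (s * elG (q - 1 : ℕ) β s (τ / l ^ 2) + (q - 1 : ℕ) / s) := by
    rw [hVd, hfl]
    ring
  have hin : inner ℝ (finf (p - 1 : ℕ) (q - 1 : ℕ) α β τ ζ) (nu w) =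
      (nu w).re * fl (p - 1 : ℕ) α τ ζ.re + (nu w).im * fl (q - 1 : ℕ) β τ ζ.im := by
    rw [Complex.inner]
    simp [finf]
  have hnn : ‖nu w‖ = 1 := by
    unfold nu
    rw [norm_mul, Complex.norm_I, norm_tg hw0, one_mul]
  have hn1 : |(nu w).re| ≤ 1 := (Complex.abs_re_le_norm _).trans hnn.le
  have hn2 : |(nu w).im| ≤ 1 := (Complex.abs_im_le_norm _).trans hnn.le
  set X := Vd T (p - 1) (q - 1) α β (rr c j) (ss c j) (t, u) with hX
  have hbound : |curv (c j t) u / l - inner ℝ (finf (p - 1 : ℕ) (q - 1 : ℕ) α β τ ζ) (nu w)| ≤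
      |X / l| + 2 * η := by
    have e3 : curv (c j t) u / l - inner ℝ (finf (p - 1 : ℕ) (q - 1 : ℕ) α β τ ζ) (nu w) =
        X / l + (nu w).re * (l⁻¹ * (r * elG (p - 1 : ℕ) α r (τ / l ^ 2) + (p - 1 : ℕ) / r) -
          fl (p - 1 : ℕ) α τ ζ.re) +
        (nu w).im * (l⁻¹ * (s * elG (q - 1 : ℕ) β s (τ / l ^ 2) + (q - 1 : ℕ) / s) -
          fl (q - 1 : ℕ) β τ ζ.im) := by
      rw [hcurv, hin]
      ring
    rw [e3]
    refine (abs_add_three _ _ _).trans ?_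
    rw [abs_mul (nu w).re, abs_mul (nu w).im]
    have h1 := mul_le_mul hn1 g1 (abs_nonneg _) zero_le_one
    have h2 := mul_le_mul hn2 g2 (abs_nonneg _) zero_le_one
    linarith
  have hag : |X / l| ≤ ε / 4 + (X / l) ^ 2 / ε := by
    rw [← sq_abs (X / l)]
    have : 0 ≤ (|X / l| - ε / 2) ^ 2 := sq_nonneg _
    have h3 : |X / l| * ε ≤ ε ^ 2 / 4 + |X / l| ^ 2 := by nlinarith
    have h4 : ε / 4 + |X / l| ^ 2 / ε = (ε ^ 2 / 4 + |X / l| ^ 2) / ε := by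
      field_simp
    rw [h4, le_div_iff₀ hε]
    exact h3
  -- weight
  set c₀ := Real.exp (1 / 2 * Real.log τ - C₁ - C₂) with hc₀
  have hc₀pos : 0 < c₀ := Real.exp_pos _
  have hW : c₀ * l ≤ Wt T (p - 1) (q - 1) α β (rr c j) (ss c j) (t, u) := by
    have hr' : rr c j (t, u) = r := rfl
    have hs' : ss c j (t, u) = s := rfl
    have hra : 0 < |r| := abs_pos.2 w1.1
    have hsa : 0 < |s| := abs_pos.2 w2.1
    unfold Wt Lf
    simp only [hTt, hr', hs']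
    have e4 : |r| ^ (p - 1) = Real.exp ((p - 1 : ℕ) * Real.log |r|) := by
      rw [mul_comm, ← Real.rpow_def_of_pos hra, Real.rpow_natCast]
    have e5 : |s| ^ (q - 1) = Real.exp ((q - 1 : ℕ) * Real.log |s|) := by
      rw [mul_comm, ← Real.rpow_def_of_pos hsa, Real.rpow_natCast]
    have e6 : c₀ * l = Real.exp (1 / 2 * Real.log τ - C₁ - C₂ + Real.log l) := by
      rw [Real.exp_add, Real.exp_log hl]
    rw [e4, e5, e6, ← Real.exp_add, ← Real.exp_add]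
    apply Real.exp_le_exp.2
    rw [Real.log_div hτ.ne' (by positivity), Real.log_pow]
    push_cast
    have := w1.2
    have := w2.2
    linarith
  have hDd : c₀ * l * ‖w‖ * X ^ 2 ≤ Dd T (p - 1) (q - 1) α β (rr c j) (ss c j) (t, u) := by
    unfold Dd
    rw [hspd]
    gcongr
  have hfin : (X / l) ^ 2 / ε * (l * ‖w‖) ≤
      Dd T (p - 1) (q - 1) α β (rr c j) (ss c j) (t, u) / (ε * c₀ * l ^ 2) := by
    rw [le_div_iff₀ (by positivity)]
    refine le_trans (le_of_eq ?_) hDd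
    field_simp
  calc |curv (c j t) u / l - inner ℝ (finf (p - 1 : ℕ) (q - 1 : ℕ) α β τ ζ) (nu w)| * (l * ‖w‖)
      ≤ (ε / 4 + (X / l) ^ 2 / ε + 2 * η) * (l * ‖w‖) := by
        apply mul_le_mul_of_nonneg_right _ (by positivity)
        linarith
    _ = (ε / 4 + 2 * η) * (l * ‖w‖) + (X / l) ^ 2 / ε * (l * ‖w‖) := by ring
    _ ≤ _ := by linarith

end Pool.Agent.Helper532_SymMCF

end

section

/-!
The rescaled profile curves satisfy the hypotheses of the local theory, at times with small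
dissipation.
-/

open Set Filter MeasureTheory Topology Metric Module
open scoped ContDiff NNReal ENNReal

namespace Pool.Agent.Helper532_SymMCF

variable {p q N : ℕ} {T : ℝ} {c : Fin N → ℝ → ℝ → ℂ}

theorem Dd_periodic {m₁ m₂ : ℕ} {r s : ℝ × ℝ → ℝ} (h : Fam T m₁ m₂ r s) (α β : ℝ) :
    ∀ t ∈ Ioo 0 T, ∀ u, Dd T m₁ m₂ α β r s (t, u + 1) = Dd T m₁ m₂ α β r s (t, u) := by
  intro t ht u
  unfold Dd Wt Lf Vd spd
  simp only [h.pr t ht u, h.ps t ht u, D2_periodic h.hr h.pr t ht u, D2_periodic h.hs h.ps t ht u,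
    D1_periodic h.hr h.pr t ht u, D1_periodic h.hs h.ps t ht u]

theorem Dd_period_int {m₁ m₂ : ℕ} {r s : ℝ × ℝ → ℝ} (h : Fam T m₁ m₂ r s) (α β : ℝ) {t : ℝ}
    (ht : t ∈ Ioo 0 T) {x y : ℝ} (hxy : x ≤ y) (hy : y ≤ x + 1) :
    ∫ u in x..y, Dd T m₁ m₂ α β r s (t, u) ≤ ∫ u in (0 : ℝ)..1, Dd T m₁ m₂ α β r s (t, u) := by
  have hc := cont_snd (Dd_cont h α β) ht
  have hP : Function.Periodic (fun u => Dd T m₁ m₂ α β r s (t, u)) 1 := Dd_periodic h α β t ht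
  have h1 : ∫ u in x..(x + 1), Dd T m₁ m₂ α β r s (t, u) =
      ∫ u in (0 : ℝ)..1, Dd T m₁ m₂ α β r s (t, u) := by
    have := hP.intervalIntegral_add_eq x 0
    rwa [zero_add] at this
  rw [← h1]
  apply intervalIntegral.integral_mono_interval (le_refl _) hxy hy
  · exact ae_of_all _ fun u => Dd_nonneg _ _ _ _ _ _ _ _
  · exact hc.intervalIntegrable _ _

theorem sys_est (h : PFlow p q T N c) (hp : 1 ≤ p) (hq : 1 ≤ q) {α β τ l η C₁ C₂ ε : ℝ}
    (hl : 0 < l) (hε : 0 < ε) (hτ : 0 < τ) (ht : T - τ / l ^ 2 ∈ Ioo 0 T) {K : Set ℂ}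
    {f : ℂ → ℂ} (hf : Continuous f)
    (hfK : ∀ ζ ∈ K, f ζ = finf (p - 1 : ℕ) (q - 1 : ℕ) α β τ ζ)
    (g1 : ∀ ζ ∈ K, |l⁻¹ * ((α + l⁻¹ * ζ.re) * elG (p - 1 : ℕ) α (α + l⁻¹ * ζ.re) (τ / l ^ 2) +
      (p - 1 : ℕ) / (α + l⁻¹ * ζ.re)) - fl (p - 1 : ℕ) α τ ζ.re| ≤ η)
    (g2 : ∀ ζ ∈ K, |l⁻¹ * ((β + l⁻¹ * ζ.im) * elG (q - 1 : ℕ) β (β + l⁻¹ * ζ.im) (τ / l ^ 2) +
      (q - 1 : ℕ) / (β + l⁻¹ * ζ.im)) - fl (q - 1 : ℕ) β τ ζ.im| ≤ η)
    (w1 : ∀ ζ ∈ K, α + l⁻¹ * ζ.re ≠ 0 ∧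
      Real.log l - C₁ ≤ (p - 1 : ℕ) * Real.log |α + l⁻¹ * ζ.re| +
      ell (p - 1 : ℕ) α (α + l⁻¹ * ζ.re) (τ / l ^ 2))
    (w2 : ∀ ζ ∈ K, β + l⁻¹ * ζ.im ≠ 0 ∧
      Real.log l - C₂ ≤ (q - 1 : ℕ) * Real.log |β + l⁻¹ * ζ.im| +
      ell (q - 1 : ℕ) β (β + l⁻¹ * ζ.im) (τ / l ^ 2))
    (hη : 2 * η ≤ ε / 4) (hη0 : 0 ≤ η)
    (hD : Dis p q T c α β (T - τ / l ^ 2) / (ε * Real.exp (1 / 2 * Real.log τ - C₁ - C₂) * l ^ 2) ≤
      ε / 2) :
    CSys f K ε (Phs (fun j => c j (T - τ / l ^ 2)) l ⟨α, β⟩) := by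
  set t := T - τ / l ^ 2 with htdef
  have ht' := Ioo_subset_Ico_self ht
  apply csys_of (fun j => (h.slice j ht).of_le ENat.LEInfty.out) (fun j u => h.periodic j t ht' u)
    (fun j u => h.immersed j t ht' u) (fun j j' u u' => h.embedded t ht' j j' u u') hl _ hf
  intro j x y hxy hy1 hlen hK
  have h2 : ContDiff ℝ 2 (c j t) := (h.slice j ht).of_le ENat.LEInfty.out
  have hdc : Continuous (deriv (c j t)) := h2.continuous_deriv (by norm_num)
  obtain ⟨hcc, hcn⟩ := cont_curv h2 (fun u => h.immersed j t ht' u)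
  set c₀ := Real.exp (1 / 2 * Real.log τ - C₁ - C₂) with hc₀
  have hc₀pos : 0 < c₀ := Real.exp_pos _
  have hDc := cont_snd (Dd_cont (toFam h hp hq j) α β) ht
  have c1 : Continuous fun u => |curv (c j t) u / l -
      inner ℝ (f (l • (c j t u - ⟨α, β⟩))) (nu (deriv (c j t) u))| *
        (l * ‖deriv (c j t) u‖) := by
    apply Continuous.mul _ (continuous_const.mul hdc.norm)
    apply Continuous.abs
    exact (hcc.div_const _).sub ((hf.comp ((h2.continuous.sub continuous_const).const_smul l)).inner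
      hcn)
  have c2 : Continuous fun u => (ε / 4 + 2 * η) * (l * ‖deriv (c j t) u‖) +
      Dd T (p - 1) (q - 1) α β (rr c j) (ss c j) (t, u) / (ε * c₀ * l ^ 2) :=
    (continuous_const.mul (continuous_const.mul hdc.norm)).add (hDc.div_const _)
  have h3 : ∫ u in x..y, |curv (c j t) u / l -
      inner ℝ (f (l • (c j t u - ⟨α, β⟩))) (nu (deriv (c j t) u))| *
        (l * ‖deriv (c j t) u‖) ≤
      ∫ u in x..y, ((ε / 4 + 2 * η) * (l * ‖deriv (c j t) u‖) +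
      Dd T (p - 1) (q - 1) α β (rr c j) (ss c j) (t, u) / (ε * c₀ * l ^ 2)) := by
    apply intervalIntegral.integral_mono_on hxy (c1.intervalIntegrable _ _)
      (c2.intervalIntegrable _ _)
    intro u hu
    have hζ := hK u hu
    rw [hfK _ hζ]
    exact curv_est h hp hq hl hε hτ ht j u rfl (g1 _ hζ) (g2 _ hζ) (w1 _ hζ) (w2 _ hζ)
  refine h3.trans ?_
  have c3 : Continuous fun u => (ε / 4 + 2 * η) * (l * ‖deriv (c j t) u‖) :=
    continuous_const.mul (continuous_const.mul hdc.norm)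
  have c4 : Continuous fun u => Dd T (p - 1) (q - 1) α β (rr c j) (ss c j) (t, u) /
      (ε * c₀ * l ^ 2) := hDc.div_const _
  rw [intervalIntegral.integral_add (c3.intervalIntegrable _ _)
    (c4.intervalIntegrable _ _), intervalIntegral.integral_const_mul,
    intervalIntegral.integral_div]
  have h4 : ∫ u in x..y, Dd T (p - 1) (q - 1) α β (rr c j) (ss c j) (t, u) ≤
      Dis p q T c α β t := by
    refine (Dd_period_int (toFam h hp hq j) α β ht hxy hy1).trans ?_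
    unfold Dis
    apply Finset.single_le_sum (f := fun j => ∫ u in (0 : ℝ)..1,
      Dd T (p - 1) (q - 1) α β (rr c j) (ss c j) (t, u)) _ (Finset.mem_univ j)
    intro j' _
    apply intervalIntegral.integral_nonneg zero_le_one
    intro u _
    exact Dd_nonneg _ _ _ _ _ _ _ _
  have h5 : (∫ u in x..y, Dd T (p - 1) (q - 1) α β (rr c j) (ss c j) (t, u)) /
      (ε * c₀ * l ^ 2) ≤ ε / 2 := by
    refine le_trans ?_ hD
    gcongr
  have h6 : (ε / 4 + 2 * η) * ∫ u in x..y, l * ‖deriv (c j t) u‖ ≤ (ε / 4 + 2 * η) * 1 :=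
    mul_le_mul_of_nonneg_left hlen (by positivity)
  linarith

theorem fl_smoothAt {k α τ : ℝ} {R : ℝ} (h : α = 0 → R ≠ 0) :
    ContDiffAt ℝ ∞ (fl k α τ) R := by
  unfold fl
  by_cases hα : α = 0
  · simp only [hα, if_true]
    exact (contDiffAt_id.neg.div_const _).add (contDiffAt_const.div contDiffAt_id (h hα))
  · simp only [hα, if_false]
    exact (contDiffAt_id.neg.div_const _).add contDiffAt_const

theorem finf_smoothAt {k₁ k₂ α β τ : ℝ} {ζ : ℂ} (h1 : α = 0 → ζ.re ≠ 0) (h2 : β = 0 → ζ.im ≠ 0) :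
    ContDiffAt ℝ ∞ (finf k₁ k₂ α β τ) ζ := by
  have e : finf k₁ k₂ α β τ = fun ζ => Complex.ofRealCLM (fl k₁ α τ (Complex.reCLM ζ)) +
      Complex.ofRealCLM (fl k₂ β τ (Complex.imCLM ζ)) * Complex.I := by
    ext ζ; exact mk_eq _ _
  rw [e]
  have a1 : ContDiffAt ℝ ∞ (fun ζ => fl k₁ α τ (Complex.reCLM ζ)) ζ :=
    (fl_smoothAt (k := k₁) (τ := τ) (R := ζ.re) h1).comp ζ Complex.reCLM.contDiff.contDiffAt
  have a2 : ContDiffAt ℝ ∞ (fun ζ => fl k₂ β τ (Complex.imCLM ζ)) ζ :=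
    (fl_smoothAt (k := k₂) (τ := τ) (R := ζ.im) h2).comp ζ Complex.imCLM.contDiff.contDiffAt
  exact (Complex.ofRealCLM.contDiff.contDiffAt.comp ζ a1).add
    ((Complex.ofRealCLM.contDiff.contDiffAt.comp ζ a2).mul contDiffAt_const)

/-- cut-off of a field -/
theorem exists_cutoff {F : ℂ → ℂ} {z₁ : ℂ} {ρ : ℝ} (hρ : 0 < ρ)
    (hF : ∀ ζ ∈ closedBall z₁ (2 * ρ), ContDiffAt ℝ ∞ F ζ) :
    ∃ f : ℂ → ℂ, ContDiff ℝ ∞ f ∧ (∀ ζ ∈ closedBall z₁ ρ, f ζ = F ζ) ∧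
      ∃ C Λ : ℝ≥0, LipschitzWith Λ f ∧ ∀ z, ‖f z‖ ≤ C := by
  let χ : ContDiffBump z₁ := ⟨ρ, 2 * ρ, hρ, by linarith⟩
  set f : ℂ → ℂ := fun ζ => χ ζ • F ζ with hf
  have hfs : ContDiff ℝ ∞ f := by
    rw [contDiff_iff_contDiffAt]
    intro ζ
    by_cases hζ : ζ ∈ closedBall z₁ (2 * ρ)
    · exact χ.contDiff.contDiffAt.smul (hF ζ hζ)
    · have h1 : f =ᶠ[𝓝 ζ] fun _ => 0 := by
        filter_upwards [isClosed_closedBall.isOpen_compl.mem_nhds hζ] with w hw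
        have : χ w = 0 := by
          have h2 : w ∉ Function.support χ := by
            rw [χ.support_eq]
            intro h3
            exact hw (ball_subset_closedBall h3)
          simpa using h2
        simp [hf, this]
      exact contDiffAt_const.congr_of_eventuallyEq h1
  have hcs : HasCompactSupport f := χ.hasCompactSupport.smul_right
  obtain ⟨Λ, hΛ⟩ := ContDiff.lipschitzWith_of_hasCompactSupport hcs hfs (by simp)
  obtain ⟨C, hC⟩ := hfs.continuous.bounded_above_of_compact_support hcs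
  refine ⟨f, hfs, ?_, ⟨C, (norm_nonneg _).trans (hC 0)⟩, Λ, hΛ, hC⟩
  intro ζ hζ
  simp only [hf]
  rw [χ.one_of_mem_closedBall hζ, one_smul]

/-- The local situation for the rescaled profile curves, at times where the rescaled dissipation
tends to zero. -/
theorem exists_loc (h : PFlow p q T N c) (hp : 1 ≤ p) (hq : 1 ≤ q) {α β τ : ℝ}
    (hα : 0 ≤ α) (hβ : 0 ≤ β) (hτ : 0 < τ) {𝓕 : Filter ℕ} {l : ℕ → ℝ}
    (hl : Tendsto l 𝓕 atTop) (ht : ∀ᶠ i in 𝓕, T - τ / l i ^ 2 ∈ Ioo 0 T)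
    (hD : Tendsto (fun i => (l i ^ 2)⁻¹ * Dis p q T c α β (T - τ / l i ^ 2)) 𝓕 (𝓝 0))
    {z₁ : ℂ} (h1 : α = 0 → z₁.re ≠ 0) (h2 : β = 0 → z₁.im ≠ 0) :
    ∃ (f : ℂ → ℂ) (C Λ : ℝ≥0) (R : ℝ), ContDiff ℝ ∞ f ∧
      Loc 𝓕 (fun i => Phs (fun j => c j (T - τ / l i ^ 2)) (l i) ⟨α, β⟩) f C Λ z₁ R := by
  obtain ⟨ρ, hρ, hρ1, hρ2⟩ : ∃ ρ > 0, (α = 0 → 3 * ρ ≤ |z₁.re|) ∧ (β = 0 → 3 * ρ ≤ |z₁.im|) := by
    by_cases hα0 : α = 0 <;> by_cases hβ0 : β = 0
    · have a1 := abs_pos.2 (h1 hα0)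
      have a2 := abs_pos.2 (h2 hβ0)
      refine ⟨min (|z₁.re| / 3) (|z₁.im| / 3), by positivity, fun _ => ?_, fun _ => ?_⟩
      · have := min_le_left (|z₁.re| / 3) (|z₁.im| / 3)
        linarith
      · have := min_le_right (|z₁.re| / 3) (|z₁.im| / 3)
        linarith
    · have a1 := abs_pos.2 (h1 hα0)
      exact ⟨|z₁.re| / 3, by positivity, fun _ => by linarith, fun h => absurd h hβ0⟩
    · have a2 := abs_pos.2 (h2 hβ0)
      exact ⟨|z₁.im| / 3, by positivity, fun h => absurd h hα0, fun _ => by linarith⟩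
    · exact ⟨1, one_pos, fun h => absurd h hα0, fun h => absurd h hβ0⟩
  have hre : ∀ ζ : ℂ, ∀ x, ζ ∈ closedBall z₁ x → |ζ.re - z₁.re| ≤ x ∧ |ζ.im - z₁.im| ≤ x := by
    intro ζ x hζ
    rw [mem_closedBall, dist_eq_norm] at hζ
    exact ⟨(by simpa using (Complex.abs_re_le_norm (ζ - z₁)).trans hζ),
      (by simpa using (Complex.abs_im_le_norm (ζ - z₁)).trans hζ)⟩
  have key : ∀ a b x : ℝ, |a - b| ≤ x → |b| - x ≤ |a| ∧ |a| ≤ |b| + x := by
    intro a b x hx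
    have e1 := abs_sub_abs_le_abs_sub a b
    have e2 := abs_sub_abs_le_abs_sub b a
    rw [abs_sub_comm] at e2
    constructor <;> linarith
  obtain ⟨f, hfs, hfK, C, Λ, hΛ, hC⟩ := exists_cutoff (F := finf (p - 1 : ℕ) (q - 1 : ℕ) α β τ)
    (z₁ := z₁) hρ (fun ζ hζ => by
      obtain ⟨b1, b2⟩ := hre ζ _ hζ
      apply finf_smoothAt
      · intro h0 h3
        have := (key _ _ _ b1).1
        rw [h3, abs_zero] at this
        have := hρ1 h0
        linarith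
      · intro h0 h3
        have := (key _ _ _ b2).1
        rw [h3, abs_zero] at this
        have := hρ2 h0
        linarith)
  refine ⟨f, C, Λ, ρ, hfs, hΛ, hC, hρ, fun ε hε => ?_⟩
  set M := |z₁.re| + |z₁.im| + ρ with hM
  have hMpos : 0 < M := by positivity
  have k1 : (0 : ℝ) ≤ (p - 1 : ℕ) := Nat.cast_nonneg _
  have k2 : (0 : ℝ) ≤ (q - 1 : ℕ) := Nat.cast_nonneg _
  have G1 := resc_grad (k := (p - 1 : ℕ)) (α := α) (τ := τ) (M := M) (δ := ρ) (ε := ε / 8) k1 hα hτ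
    hρ hMpos (by positivity)
  have G2 := resc_grad (k := (q - 1 : ℕ)) (α := β) (τ := τ) (M := M) (δ := ρ) (ε := ε / 8) k2 hβ hτ
    hρ hMpos (by positivity)
  obtain ⟨C₁, W1⟩ := resc_weight (k := (p - 1 : ℕ)) (α := α) (τ := τ) (M := M) (δ := ρ) k1 hα hτ
    hρ hMpos
  obtain ⟨C₂, W2⟩ := resc_weight (k := (q - 1 : ℕ)) (α := β) (τ := τ) (M := M) (δ := ρ) k2 hβ hτ
    hρ hMpos
  have hc₀ : 0 < Real.exp (1 / 2 * Real.log τ - C₁ - C₂) := Real.exp_pos _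
  have hD' := hD.eventually_le_const
    (show 0 < ε / 2 * (ε * Real.exp (1 / 2 * Real.log τ - C₁ - C₂)) by positivity)
  filter_upwards [hl.eventually G1, hl.eventually G2, hl.eventually W1, hl.eventually W2, ht, hD',
    hl.eventually (eventually_gt_atTop 0)] with i G1 G2 W1 W2 hti hDi hli
  have hb : ∀ ζ ∈ closedBall z₁ ρ, |ζ.re| ≤ M ∧ |ζ.im| ≤ M ∧ (α = 0 → ρ ≤ |ζ.re|) ∧
      (β = 0 → ρ ≤ |ζ.im|) := by
    intro ζ hζ
    obtain ⟨b1, b2⟩ := hre ζ _ hζ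
    obtain ⟨d1, d2⟩ := key _ _ _ b1
    obtain ⟨d3, d4⟩ := key _ _ _ b2
    have a1 := abs_nonneg z₁.re
    have a2 := abs_nonneg z₁.im
    refine ⟨by linarith, by linarith, fun h0 => ?_, fun h0 => ?_⟩
    · have := hρ1 h0
      linarith
    · have := hρ2 h0
      linarith
  apply sys_est h hp hq (η := ε / 8) (C₁ := C₁) (C₂ := C₂) hli hε hτ hti hfs.continuous hfK
  · intro ζ hζ
    obtain ⟨d1, d2, d3, d4⟩ := hb ζ hζ
    exact G1 ζ.re d1 d3
  · intro ζ hζ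
    obtain ⟨d1, d2, d3, d4⟩ := hb ζ hζ
    exact G2 ζ.im d2 d4
  · intro ζ hζ
    obtain ⟨d1, d2, d3, d4⟩ := hb ζ hζ
    exact W1 ζ.re d1 d3
  · intro ζ hζ
    obtain ⟨d1, d2, d3, d4⟩ := hb ζ hζ
    exact W2 ζ.im d2 d4
  · linarith
  · positivity
  · rw [div_le_iff₀ (by positivity)]
    have hl2 : 0 < l i ^ 2 := by positivity
    rw [inv_mul_le_iff₀ hl2] at hDi
    linarith

end Pool.Agent.Helper532_SymMCF

end

section

/-!
Regularity of the tangent flows away from the axes of rotation.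
-/

open Set Filter MeasureTheory Topology Metric Module
open scoped ContDiff NNReal ENNReal

namespace Pool.Agent.Helper532_SymMCF

variable {p q N : ℕ} {T : ℝ} {c : Fin N → ℝ → ℝ → ℂ}

theorem exists_ex {w : ℂ} (hw : ‖w‖ = 1) : ∃ θ : ℝ, ex θ = w := by
  refine ⟨Complex.arg w, ?_⟩
  have := Complex.norm_mul_exp_arg_mul_I w
  rw [hw, Complex.ofReal_one, one_mul] at this
  exact this

theorem finrank_V (p q : ℕ) : finrank ℝ (V p q) = p + q := by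
  simp

/-- The data of a tangent flow at a fixed good time. -/
theorem exists_slices (h : PFlow p q T N c) (hp : 1 ≤ p) (hq : 1 ≤ q) (hT : 0 < T)
    {x₀ : V p q} {μ : ℝ → Measure (V p q)} {l : ℕ → ℝ} (hl : Tendsto l atTop atTop)
    (hconv : ∀ t < 0, IsLocallyFiniteMeasure (μ t) ∧
      ∀ φ : V p q → ℝ≥0, Continuous φ → HasCompactSupport φ →
      Tendsto (fun i => ∫⁻ z in blow (surf p q c) T x₀ (l i) t, φ z ∂μH[(p + q - 1 : ℕ)]) atTop
        (𝓝 (∫⁻ z, φ z ∂μ t))) :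
    ∀ᵐ t ∂(volume.restrict (Iio (0 : ℝ))), ∃ φ : ℕ → ℕ, StrictMono φ ∧
      (∀ k, 0 < l (φ k) ∧ T - (-t) / l (φ k) ^ 2 ∈ Ioo 0 T) ∧
      Tendsto (fun k => (l (φ k) ^ 2)⁻¹ * Dis p q T c (rad₁ x₀) (rad₂ x₀)
        (T - (-t) / l (φ k) ^ 2)) atTop (𝓝 0) ∧
      Slice (p + q - 1) atTop (fun k => Qm x₀ (l (φ k))) (Pm x₀)
        (fun k => {ζ : ℂ | ∃ j u, ζ = l (φ k) • (c j (T - (-t) / l (φ k) ^ 2) u - prof x₀)})
        (fun k => Phs (fun j => c j (T - (-t) / l (φ k) ^ 2)) (l (φ k)) (prof x₀)) (μ t) := by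
  have ht₁ : T / 2 ∈ Ioo 0 T := ⟨by linarith, by linarith⟩
  have hgood := exists_good_times ht₁ (Dis_cont h hp hq (rad₁ x₀) (rad₂ x₀))
    (Dis_nonneg p q T c (rad₁ x₀) (rad₂ x₀))
    (fun t₂ h2 h12 => Dis_int h hp hq (rad₁ x₀) (rad₂ x₀) ht₁ h2 h12) hl
  filter_upwards [hgood, ae_restrict_mem measurableSet_Iio] with t ht ht0
  obtain ⟨φ, hφ, hφ1, hφ2⟩ := ht
  have e : ∀ k, T - (-t) / l (φ k) ^ 2 = T + t / l (φ k) ^ 2 := fun k => by ring
  refine ⟨φ, hφ, ?_⟩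
  simp only [e]
  refine ⟨hφ1, hφ2, ?_⟩
  refine ⟨?_, fun k => Qm_continuous _ _, ?_, ?_, (hconv t ht0).1, ?_⟩
  · rw [finrank_V]; omega
  · intro R hR ε hε
    exact (hl.comp hφ.tendsto_atTop).eventually (Qm_conv x₀ hR hε)
  · intro k z
    constructor
    · rintro ⟨j, u, hz⟩
      obtain ⟨θ, hθ⟩ := exists_ex (norm_tg (h.immersed j _ (Ioo_subset_Ico_self (hφ1 k).2) u))
      exact ⟨θ, j, u, hz, Or.inl hθ⟩
    · rintro ⟨θ, j, u, hz, _⟩
      exact ⟨j, u, hz⟩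
  · intro ψ h1 h2
    have h3 := ((hconv t ht0).2 ψ h1 h2).comp hφ.tendsto_atTop
    refine h3.congr fun k => ?_
    simp only [Function.comp]
    have hset : blow (surf p q c) T x₀ (l (φ k)) t = {z | Qm x₀ (l (φ k)) z ∈
        {ζ : ℂ | ∃ j u, ζ = l (φ k) • (c j (T + t / l (φ k) ^ 2) u - prof x₀)}} := by
      ext z
      rw [mem_ofPred_eq]
      exact mem_blow_surf (hφ1 k).1.ne' z
    rw [hset]

theorem Slice.mono_filter {ι E : Type*} [NormedAddCommGroup E] [InnerProductSpace ℝ E]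
    [FiniteDimensional ℝ E] [MeasurableSpace E] [BorelSpace E] {n : ℕ} {𝓕 𝓖 : Filter ι}
    {Q : ι → E → ℂ} {P : E → ℂ} {Γ : ι → Set ℂ} {Ph : ι → Set (ℂ × ℝ)} {μ : Measure E}
    (h : Slice n 𝓕 Q P Γ Ph μ) (hle : 𝓖 ≤ 𝓕) : Slice n 𝓖 Q P Γ Ph μ :=
  ⟨h.dim, h.hQ, fun R hR ε hε => (h.conv R hR ε hε).filter_mono hle, h.hΓ, h.fin,
    fun φ h1 h2 => (h.vague φ h1 h2).mono_left hle⟩

theorem Pm_re_ne {x₀ Z : V p q} (hZ : Z ∈ Od x₀) (h : rad₁ x₀ = 0) : (Pm x₀ Z).re ≠ 0 := by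
  rw [rad₁_eq, norm_eq_zero] at h
  simp only [Pm]
  rw [h, rlim_zero, norm_ne_zero_iff]
  exact hZ.1 h

theorem Pm_im_ne {x₀ Z : V p q} (hZ : Z ∈ Od x₀) (h : rad₂ x₀ = 0) : (Pm x₀ Z).im ≠ 0 := by
  rw [rad₂_eq, norm_eq_zero] at h
  simp only [Pm]
  rw [h, rlim_zero, norm_ne_zero_iff]
  exact hZ.2 h

/-- Away from the axes, the support is smooth at almost every time. -/
theorem off_axis (h : PFlow p q T N c) (hp : 1 ≤ p) (hq : 1 ≤ q) (hT : 0 < T)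
    {x₀ : V p q} {μ : ℝ → Measure (V p q)}
    (hμ : IsTangentFlow (p + q - 1) (surf p q c) T x₀ μ) :
    ∀ᵐ t ∂(volume.restrict (Iio (0 : ℝ))), sing (supp (μ t)) ⊆ (Od x₀)ᶜ := by
  obtain ⟨l, hl, hconv⟩ := hμ
  filter_upwards [exists_slices h hp hq hT hl hconv, ae_restrict_mem measurableSet_Iio]
    with t ht ht0
  obtain ⟨φ, hφ, hφ1, hφ2, hS⟩ := ht
  rintro Z ⟨hZ, hns⟩ hZO
  apply hns
  set 𝓤 : Ultrafilter ℕ := Ultrafilter.of atTop with h𝓤
  have hle : (𝓤 : Filter ℕ) ≤ atTop := Ultrafilter.of_le atTop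
  have hτ : 0 < -t := by linarith [mem_Iio.1 ht0]
  have hα : 0 ≤ rad₁ x₀ := Real.sqrt_nonneg _
  have hβ : 0 ≤ rad₂ x₀ := Real.sqrt_nonneg _
  obtain ⟨f, C, Λ, R, hf, hL⟩ := exists_loc h hp hq hα hβ hτ (𝓕 := (𝓤 : Filter ℕ))
    (l := fun k => l (φ k)) ((hl.comp hφ.tendsto_atTop).mono_left hle)
    (Eventually.of_forall fun k => (hφ1 k).2) (hφ2.mono_left hle) (z₁ := Pm x₀ Z)
    (Pm_re_ne hZO) (Pm_im_ne hZO)
  exact Slice.smooth_at 𝓤 (hS.mono_filter hle) hZ (Od_isOpen x₀) hZO (Pm_smooth x₀)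
    (fun W hW => Pm_sub x₀ hW) hf hL

theorem smooth_dil {E : Type*} [NormedAddCommGroup E] [NormedSpace ℝ E] {S S' : Set E} {ρ : ℝ}
    (hρ : ρ ≠ 0) (hS : ∀ z, z ∈ S' ↔ ρ • z ∈ S) {z : E} (h : IsSmoothHypersurfaceAt S (ρ • z)) :
    IsSmoothHypersurfaceAt S' z := by
  obtain ⟨U, hU, hzU, f, hf, hf', hSU⟩ := h
  have hcd : ContDiff ℝ ∞ (fun w : E => ρ • w) := contDiff_const_smul ρ
  refine ⟨(fun w => ρ • w) ⁻¹' U, hU.preimage hcd.continuous, hzU, fun w => f (ρ • w), ?_, ?_, ?_⟩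
  · exact hf.comp hcd.contDiffOn (fun w hw => hw)
  · intro w hw h0
    have h1 : DifferentiableAt ℝ f (ρ • w) :=
      (hf.contDiffAt (hU.mem_nhds hw)).differentiableAt (by simp)
    have h2 : HasFDerivAt (fun w : E => f (ρ • w))
        ((fderiv ℝ f (ρ • w)).comp (ρ • ContinuousLinearMap.id ℝ E)) w :=
      h1.hasFDerivAt.comp w ((hasFDerivAt_id w).const_smul ρ)
    rw [h2.fderiv] at h0
    apply hf' _ hw
    ext v
    have h3 := congrArg (fun L : E →L[ℝ] ℝ => L v) h0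
    simp only [ContinuousLinearMap.comp_apply, smul_apply,
      ContinuousLinearMap.id_apply, map_smul, smul_eq_mul, zero_apply,
      mul_eq_zero, hρ, false_or] at h3
    simpa using h3
  · ext w
    constructor
    · rintro ⟨h1, h2⟩
      have : ρ • w ∈ S ∩ U := ⟨(hS w).1 h1, h2⟩
      rw [hSU] at this
      exact this
    · rintro ⟨h1, h2⟩
      have : ρ • w ∈ S ∩ U := by
        rw [hSU]; exact ⟨h1, h2⟩
      exact ⟨(hS w).2 this.1, h1⟩

theorem supp_dil {E : Type*} [NormedAddCommGroup E] [NormedSpace ℝ E] [MeasurableSpace E]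
    [BorelSpace E] {n : ℕ} {μ : ℝ → Measure E} (h : SelfSimilar n μ) {t : ℝ} (ht : t < 0) (z : E) :
    √(-t) • z ∈ supp (μ t) ↔ z ∈ supp (μ (-1)) := by
  have hρ : 0 < √(-t) := Real.sqrt_pos.2 (by linarith)
  have hm : Measurable fun w : E => √(-t) • w := measurable_const_smul _
  have hval : ∀ U : Set E, MeasurableSet U → (0 < μ t U ↔ 0 < μ (-1) ((fun w => √(-t) • w) ⁻¹' U)) := by
    intro U hU
    rw [h t ht, Measure.smul_apply, Measure.map_apply hm hU, smul_eq_mul]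
    have : ENNReal.ofReal (√(-t) ^ n) ≠ 0 := by
      simp only [ne_eq, ENNReal.ofReal_eq_zero, not_le]
      positivity
    constructor
    · intro h1
      exact pos_iff_ne_zero.2 (right_ne_zero_of_mul h1.ne')
    · intro h1
      exact pos_iff_ne_zero.2 (mul_ne_zero this h1.ne')
  constructor
  · intro h1 U hU
    obtain ⟨W, hWU, hWo, hzW⟩ := _root_.mem_nhds_iff.1 hU
    have h2 : IsOpen ((fun w : E => (√(-t))⁻¹ • w) ⁻¹' W) :=
      hWo.preimage (continuous_const_smul _)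
    have h3 := h1 _ (h2.mem_nhds (show (√(-t))⁻¹ • √(-t) • z ∈ W by
      rw [smul_smul, inv_mul_cancel₀ hρ.ne', one_smul]; exact hzW))
    rw [hval _ h2.measurableSet] at h3
    refine h3.trans_le (measure_mono ?_)
    intro w hw
    apply hWU
    have h4 : (√(-t))⁻¹ • √(-t) • w ∈ W := hw
    rwa [smul_smul, inv_mul_cancel₀ hρ.ne', one_smul] at h4
  · intro h1 U hU
    obtain ⟨W, hWU, hWo, hzW⟩ := _root_.mem_nhds_iff.1 hU
    refine lt_of_lt_of_le ?_ (measure_mono hWU)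
    rw [hval _ hWo.measurableSet]
    exact h1 _ ((hWo.preimage (continuous_const_smul _)).mem_nhds hzW)

/-- From one time to all times. -/
theorem all_times {E : Type*} [NormedAddCommGroup E] [NormedSpace ℝ E] [MeasurableSpace E]
    [BorelSpace E] {n : ℕ} {μ : ℝ → Measure E} (h : SelfSimilar n μ) {A : Set E}
    (hA : ∀ ρ : ℝ, ρ ≠ 0 → ∀ z, ρ • z ∈ A → z ∈ A)
    (hae : ∀ᵐ t ∂(volume.restrict (Iio (0 : ℝ))), sing (supp (μ t)) ⊆ A) :
    ∀ t < 0, sing (supp (μ t)) ⊆ A := by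
  intro t ht
  obtain ⟨s, hs, hs0⟩ : ∃ s < 0, sing (supp (μ s)) ⊆ A := by
    have : (ae (volume.restrict (Iio (0 : ℝ)))).NeBot := by
      rw [ae_neBot]
      intro h0
      have := congrArg (fun m : Measure ℝ => m univ) h0
      simp at this
    obtain ⟨s, h1, h2⟩ := (hae.and (ae_restrict_mem measurableSet_Iio)).exists
    exact ⟨s, h2, h1⟩
  have hρt : 0 < √(-t) := Real.sqrt_pos.2 (by linarith)
  have hρs : 0 < √(-s) := Real.sqrt_pos.2 (by linarith)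
  set ρ := √(-s) * (√(-t))⁻¹ with hρ
  have hρ0 : ρ ≠ 0 := by positivity
  have hS : ∀ z, z ∈ supp (μ t) ↔ ρ • z ∈ supp (μ s) := by
    intro z
    have h1 := supp_dil h ht ((√(-t))⁻¹ • z)
    have h2 := supp_dil h hs ((√(-t))⁻¹ • z)
    rw [smul_smul, mul_inv_cancel₀ hρt.ne', one_smul] at h1
    rw [h1, ← h2, smul_smul]
  rintro z ⟨hz, hns⟩
  apply hA ρ hρ0
  apply hs0
  exact ⟨(hS z).1 hz, fun h3 => hns (smooth_dil hρ0 hS h3)⟩

end Pool.Agent.Helper532_SymMCF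

end

section

/-!
The rescaled profile curves satisfy the hypotheses of the theory at the axis.
-/

open Set Filter MeasureTheory Topology Metric Module
open scoped ContDiff NNReal ENNReal

namespace Pool.Agent.Helper532_SymMCF

variable {p q N : ℕ} {T : ℝ} {c : Fin N → ℝ → ℝ → ℂ}

theorem clamp_lip (a b x y : ℝ) : |max a (min b x) - max a (min b y)| ≤ |x - y| := by
  have h1 : LipschitzWith 1 (fun x : ℝ => max a (min b x)) :=
    (LipschitzWith.id.const_min b).const_max a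
  have := h1.dist_le_mul x y
  simpa [Real.dist_eq] using this

/-- extension of the field from a box to the plane -/
theorem exists_field {k : ℕ} {c' R₀ ρ C L e : ℝ} {F : ℝ → ℝ} (hF : FB F R₀ ρ C L) (he : 0 < e) :
    ∃ (f : ℂ → ℂ) (C' Λ : ℝ≥0), LipschitzWith Λ f ∧ (∀ z, ‖f z‖ ≤ C') ∧
      ∀ ζ ∈ Bx R₀ ρ e, f ζ = FF k c' F ζ := by
  have hρ := hF.ρ0
  have hC := hF.C0
  have hL := hF.L0
  set cx : ℝ → ℝ := fun x => max (R₀ - ρ) (min (R₀ + ρ) x) with hcx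
  set cy : ℝ → ℝ := fun y => max e (min ρ y) with hcy
  have hcx1 : ∀ x, |cx x - R₀| ≤ ρ := by
    intro x
    rw [abs_le]
    constructor
    · have := le_max_left (R₀ - ρ) (min (R₀ + ρ) x)
      simp only [hcx]; linarith
    · have : cx x ≤ R₀ + ρ := max_le (by linarith) (min_le_left _ _)
      linarith
  have hcy1 : ∀ y, e ≤ cy y := fun y => le_max_left _ _
  have hcy2 : ∀ y, cy y ≤ e + ρ := fun y => max_le (by linarith) ((min_le_left _ _).trans (by linarith))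
  set G : ℝ → ℝ := fun y => k / y - c' * y with hG
  have hGl : ∀ x y, e ≤ x → e ≤ y → |G x - G y| ≤ (k / e ^ 2 + |c'|) * |x - y| := by
    intro x y hx hy
    have hx0 : 0 < x := he.trans_le hx
    have hy0 : 0 < y := he.trans_le hy
    have e1 : G x - G y = -(k / (x * y)) * (x - y) - c' * (x - y) := by
      simp only [hG]
      field_simp
      ring
    rw [e1]
    refine (abs_sub _ _).trans ?_
    rw [abs_mul, abs_mul, abs_neg, abs_div, Nat.abs_cast, abs_of_pos (mul_pos hx0 hy0), add_mul]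
    apply add_le_add _ (le_refl _)
    apply mul_le_mul_of_nonneg_right _ (abs_nonneg _)
    apply div_le_div_of_nonneg_left (Nat.cast_nonneg _) (by positivity)
    rw [sq]
    exact mul_le_mul hx hy he.le hx0.le
  have hGb : ∀ y, e ≤ y → y ≤ e + ρ → |G y| ≤ k / e + |c'| * (e + ρ) := by
    intro y hy hy2
    have hy0 : 0 < y := he.trans_le hy
    refine (abs_sub _ _).trans ?_
    rw [abs_mul, abs_div, Nat.abs_cast, abs_of_pos hy0]
    apply add_le_add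
    · exact div_le_div_of_nonneg_left (Nat.cast_nonneg _) he hy
    · exact mul_le_mul_of_nonneg_left hy2 (abs_nonneg _)
  have hLam : 0 ≤ L + (k / e ^ 2 + |c'|) := by positivity
  have hCc : 0 ≤ C + (k / e + |c'| * (e + ρ)) := by positivity
  refine ⟨fun ζ => ⟨F (cx ζ.re), G (cy ζ.im)⟩, ⟨_, hCc⟩, ⟨_, hLam⟩, ?_, ?_, ?_⟩
  · apply LipschitzWith.of_dist_le_mul
    intro ζ ζ'
    rw [dist_eq_norm]
    refine (Complex.norm_le_abs_re_add_abs_im _).trans ?_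
    simp only [Complex.sub_re, Complex.sub_im]
    show |F (cx ζ.re) - F (cx ζ'.re)| + |G (cy ζ.im) - G (cy ζ'.im)| ≤
      (L + (k / e ^ 2 + |c'|)) * dist ζ ζ'
    have h1 := hF.lip _ _ (hcx1 ζ.re) (hcx1 ζ'.re)
    have h2 := hGl _ _ (hcy1 ζ.im) (hcy1 ζ'.im)
    have h3 : |cx ζ.re - cx ζ'.re| ≤ dist ζ ζ' := by
      refine (clamp_lip _ _ _ _).trans ?_
      rw [dist_eq_norm]
      simpa using Complex.abs_re_le_norm (ζ - ζ')
    have h4 : |cy ζ.im - cy ζ'.im| ≤ dist ζ ζ' := by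
      refine (clamp_lip _ _ _ _).trans ?_
      rw [dist_eq_norm]
      simpa using Complex.abs_im_le_norm (ζ - ζ')
    have h5 := mul_le_mul_of_nonneg_left h3 hL
    have h6 : (k / e ^ 2 + |c'|) * |cy ζ.im - cy ζ'.im| ≤ (k / e ^ 2 + |c'|) * dist ζ ζ' :=
      mul_le_mul_of_nonneg_left h4 (by positivity)
    rw [add_mul]
    linarith
  · intro ζ
    refine (Complex.norm_le_abs_re_add_abs_im _).trans ?_
    exact add_le_add (hF.bd _ (hcx1 _)) (hGb _ (hcy1 _) (hcy2 _))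
  · intro ζ hζ
    obtain ⟨h1, h2, h3⟩ := hζ
    rw [abs_le] at h1
    have e1 : cx ζ.re = ζ.re := by
      simp only [hcx]
      rw [min_eq_right (by linarith), max_eq_right (by linarith)]
    have e2 : cy ζ.im = ζ.im := by
      simp only [hcy]
      rw [min_eq_right h3, max_eq_right h2]
    simp only [e1, e2, hG, FF]

theorem fl_FB {k α τ R₀ : ℝ} (h : α = 0 → R₀ ≠ 0) :
    ∃ ρ C L, FB (fl k α τ) R₀ ρ C L ∧ (α = 0 → 2 * ρ ≤ |R₀|) := by
  have hs : ContDiffAt ℝ 1 (fl k α τ) R₀ := (fl_smoothAt h).of_le (by exact_mod_cast le_top)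
  obtain ⟨K, t, ht, hK⟩ := hs.exists_lipschitzOnWith
  obtain ⟨r, hr, hrt⟩ := Metric.mem_nhds_iff.1 ht
  obtain ⟨ρ, hρ, hρr, hρ2⟩ : ∃ ρ > 0, ρ ≤ r / 2 ∧ (α = 0 → 2 * ρ ≤ |R₀|) := by
    by_cases hα : α = 0
    · have := abs_pos.2 (h hα)
      refine ⟨min (r / 2) (|R₀| / 2), by positivity, min_le_left _ _, fun _ => ?_⟩
      have := min_le_right (r / 2) (|R₀| / 2)
      linarith
    · exact ⟨r / 2, by positivity, le_refl _, fun h => absurd h hα⟩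
  have hmem : ∀ x, |x - R₀| ≤ ρ → x ∈ t := fun x hx => hrt (by
    rw [mem_ball, Real.dist_eq]; linarith)
  have h0 : R₀ ∈ t := hmem R₀ (by simpa using hρ.le)
  refine ⟨ρ, |fl k α τ R₀| + K * ρ, K, ⟨hρ, by positivity, K.coe_nonneg, ?_, ?_⟩, hρ2⟩
  · intro x hx
    have h1 := hK.dist_le_mul x (hmem x hx) R₀ h0
    rw [Real.dist_eq, Real.dist_eq] at h1
    have h2 : |fl k α τ x| ≤ |fl k α τ x - fl k α τ R₀| + |fl k α τ R₀| := by
      have := abs_add_le (fl k α τ x - fl k α τ R₀) (fl k α τ R₀)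
      simpa using this
    have h3 : (K : ℝ) * |x - R₀| ≤ K * ρ := mul_le_mul_of_nonneg_left hx K.coe_nonneg
    linarith
  · intro x y hx hy
    have h1 := hK.dist_le_mul x (hmem x hx) y (hmem y hy)
    rw [Real.dist_eq, Real.dist_eq] at h1
    exact h1

/-- The curve systems near the axis. -/
theorem exists_sysB (h : PFlow p q T N c) (hp : 1 ≤ p) (hq : 2 ≤ q) {α τ : ℝ}
    (hα : 0 ≤ α) (hτ : 0 < τ) {𝓕 : Filter ℕ} {l : ℕ → ℝ}
    (hl : Tendsto l 𝓕 atTop) (ht : ∀ᶠ i in 𝓕, T - τ / l i ^ 2 ∈ Ioo 0 T)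
    (hD : Tendsto (fun i => (l i ^ 2)⁻¹ * Dis p q T c α 0 (T - τ / l i ^ 2)) 𝓕 (𝓝 0))
    {R₀ ρ : ℝ} (hρ : 0 < ρ) (h1 : α = 0 → 2 * ρ ≤ |R₀|) {f : ℂ → ℂ} (hf : Continuous f) {e : ℝ}
    (he : 0 < e) (hfK : ∀ ζ ∈ Bx R₀ ρ e, f ζ =
      FF (q - 1) (1 / (2 * τ)) (fl (p - 1 : ℕ) α τ) ζ) :
    ∀ ε > 0, ∀ᶠ i in 𝓕, CSys f (Bx R₀ ρ e) ε
      (Phs (fun j => c j (T - τ / l i ^ 2)) (l i) ⟨α, 0⟩) := by
  intro ε hε
  set M := |R₀| + ρ + ρ with hM
  have hMpos : 0 < M := by positivity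
  have k1 : (0 : ℝ) ≤ (p - 1 : ℕ) := Nat.cast_nonneg _
  have k2 : (0 : ℝ) ≤ (q - 1 : ℕ) := Nat.cast_nonneg _
  set δ := min ρ e with hδ
  have hδ0 : 0 < δ := by positivity
  have G1 := resc_grad (k := (p - 1 : ℕ)) (α := α) (τ := τ) (M := M) (δ := δ) (ε := ε / 8) k1 hα hτ
    hδ0 hMpos (by positivity)
  have G2 := resc_grad (k := (q - 1 : ℕ)) (α := 0) (τ := τ) (M := M) (δ := δ) (ε := ε / 8) k2
    (le_refl _) hτ hδ0 hMpos (by positivity)
  obtain ⟨C₁, W1⟩ := resc_weight (k := (p - 1 : ℕ)) (α := α) (τ := τ) (M := M) (δ := δ) k1 hα hτ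
    hδ0 hMpos
  obtain ⟨C₂, W2⟩ := resc_weight (k := (q - 1 : ℕ)) (α := 0) (τ := τ) (M := M) (δ := δ) k2
    (le_refl _) hτ hδ0 hMpos
  have hc₀ : 0 < Real.exp (1 / 2 * Real.log τ - C₁ - C₂) := Real.exp_pos _
  have hD' := hD.eventually_le_const
    (show 0 < ε / 2 * (ε * Real.exp (1 / 2 * Real.log τ - C₁ - C₂)) by positivity)
  filter_upwards [hl.eventually G1, hl.eventually G2, hl.eventually W1, hl.eventually W2, ht, hD',
    hl.eventually (eventually_gt_atTop 0)] with i G1 G2 W1 W2 hti hDi hli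
  have hb : ∀ ζ ∈ Bx R₀ ρ e, |ζ.re| ≤ M ∧ |ζ.im| ≤ M ∧ (α = 0 → δ ≤ |ζ.re|) ∧
      ((0 : ℝ) = 0 → δ ≤ |ζ.im|) := by
    intro ζ hζ
    obtain ⟨b1, b2, b3⟩ := hζ
    have e1 := abs_sub_abs_le_abs_sub ζ.re R₀
    have e2 := abs_sub_abs_le_abs_sub R₀ ζ.re
    rw [abs_sub_comm] at e2
    have a1 := abs_nonneg R₀
    have e3 : |ζ.im| = ζ.im := abs_of_pos (he.trans_le b2)
    refine ⟨by linarith, by linarith, fun h0 => ?_, fun _ => ?_⟩
    · have := h1 h0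
      exact (min_le_left _ _).trans (by linarith)
    · rw [e3]
      exact (min_le_right _ _).trans b2
  apply sys_est h hp (by omega) (η := ε / 8) (C₁ := C₁) (C₂ := C₂) hli hε hτ hti hf
  · intro ζ hζ
    rw [hfK ζ hζ]
    simp only [FF, finf, fl, if_true]
    congr 1
    ring
  · intro ζ hζ
    obtain ⟨d1, d2, d3, d4⟩ := hb ζ hζ
    exact G1 ζ.re d1 d3
  · intro ζ hζ
    obtain ⟨d1, d2, d3, d4⟩ := hb ζ hζ
    exact G2 ζ.im d2 d4
  · intro ζ hζ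
    obtain ⟨d1, d2, d3, d4⟩ := hb ζ hζ
    exact W1 ζ.re d1 d3
  · intro ζ hζ
    obtain ⟨d1, d2, d3, d4⟩ := hb ζ hζ
    exact W2 ζ.im d2 d4
  · linarith
  · positivity
  · rw [div_le_iff₀ (by positivity)]
    have hl2 : 0 < l i ^ 2 := by positivity
    rw [inv_mul_le_iff₀ hl2] at hDi
    linarith

section
variable {F : Type*} [NormedAddCommGroup F] [InnerProductSpace ℝ F]

theorem rlim_surj {a : F} (ha : a ≠ 0) (x : ℝ) : rlim a (x • (‖a‖⁻¹ • a)) = x := by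
  rw [rlim_ne ha, real_inner_smul_left, real_inner_self_eq_norm_sq, norm_smul, norm_inv, norm_norm,
    inv_mul_cancel₀ (norm_ne_zero_iff.2 ha)]
  ring

end

theorem exists_unit {d : ℕ} (hd : 1 ≤ d) : ∃ e : EuclideanSpace ℝ (Fin d), ‖e‖ = 1 := by
  refine ⟨EuclideanSpace.single ⟨0, by omega⟩ 1, ?_⟩
  simp

/-- every admissible point of the plane is a value of the limit of the profile maps -/
theorem Pm_surj (hp : 1 ≤ p) (hq : 1 ≤ q) {x₀ : V p q} {ζ : ℂ}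
    (h1 : pr₁ x₀ = 0 → 0 < ζ.re) (h2 : pr₂ x₀ = 0 → 0 < ζ.im) :
    ∃ Z ∈ Od x₀, Pm x₀ Z = ζ := by
  obtain ⟨x, hx, hx'⟩ : ∃ x : EuclideanSpace ℝ (Fin p), rlim (pr₁ x₀) x = ζ.re ∧
      (pr₁ x₀ = 0 → x ≠ 0) := by
    by_cases ha : pr₁ x₀ = 0
    · obtain ⟨e, he⟩ := exists_unit hp
      refine ⟨ζ.re • e, ?_, fun _ h0 => ?_⟩
      · rw [ha, rlim_zero, norm_smul, he, mul_one, Real.norm_eq_abs, abs_of_pos (h1 ha)]
      · have := congrArg norm h0
        rw [norm_smul, he, mul_one, norm_zero, Real.norm_eq_abs, abs_of_pos (h1 ha)] at this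
        exact (h1 ha).ne' this
    · exact ⟨_, rlim_surj ha _, fun h => absurd h ha⟩
  obtain ⟨y, hy, hy'⟩ : ∃ y : EuclideanSpace ℝ (Fin q), rlim (pr₂ x₀) y = ζ.im ∧
      (pr₂ x₀ = 0 → y ≠ 0) := by
    by_cases ha : pr₂ x₀ = 0
    · obtain ⟨e, he⟩ := exists_unit hq
      refine ⟨ζ.im • e, ?_, fun _ h0 => ?_⟩
      · rw [ha, rlim_zero, norm_smul, he, mul_one, Real.norm_eq_abs, abs_of_pos (h2 ha)]
      · have := congrArg norm h0
        rw [norm_smul, he, mul_one, norm_zero, Real.norm_eq_abs, abs_of_pos (h2 ha)] at this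
        exact (h2 ha).ne' this
    · exact ⟨_, rlim_surj ha _, fun h => absurd h ha⟩
  refine ⟨inc₁ x + inc₂ y, ?_, ?_⟩
  · simp only [Od, mem_ofPred_eq, map_add, pr₁_inc₁, pr₁_inc₂, pr₂_inc₁, pr₂_inc₂, add_zero,
      zero_add]
    exact ⟨hx', hy'⟩
  · simp only [Pm, map_add, pr₁_inc₁, pr₁_inc₂, pr₂_inc₁, pr₂_inc₂, add_zero, zero_add, hx, hy]

/-- The situation at a point of the axis. -/
theorem exists_axloc (h : PFlow p q T N c) (hp : 1 ≤ p) (hq : 2 ≤ q) {x₀ : V p q} {τ : ℝ}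
    (hτ : 0 < τ) {𝓕 : Filter ℕ} {l : ℕ → ℝ} (hx : pr₂ x₀ = 0)
    (hl : Tendsto l 𝓕 atTop) (ht : ∀ᶠ i in 𝓕, T - τ / l i ^ 2 ∈ Ioo 0 T)
    (hD : Tendsto (fun i => (l i ^ 2)⁻¹ * Dis p q T c (rad₁ x₀) (rad₂ x₀) (T - τ / l i ^ 2)) 𝓕
      (𝓝 0)) {Γ : ℕ → Set ℂ} {μ : Measure (V p q)}
    (hS : Slice (p + q - 1) 𝓕 (fun k => Qm x₀ (l k)) (Pm x₀) Γ
      (fun k => Phs (fun j => c j (T - τ / l k ^ 2)) (l k) (prof x₀)) μ) {R₀ : ℝ}
    (h1 : pr₁ x₀ = 0 → 0 < R₀) :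
    ∃ ρ C₁ L₁, FB (fl (p - 1 : ℕ) (rad₁ x₀) τ) R₀ ρ C₁ L₁ ∧ (rad₁ x₀ = 0 → 2 * ρ ≤ |R₀|) ∧
      AxLoc 𝓕 (fun k => Phs (fun j => c j (T - τ / l k ^ 2)) (l k) (prof x₀)) (q - 1)
        (1 / (2 * τ)) R₀ ρ (fl (p - 1 : ℕ) (rad₁ x₀) τ) := by
  have hr2 : rad₂ x₀ = 0 := by rw [rad₂_eq, hx, norm_zero]
  have hr1 : rad₁ x₀ = 0 → pr₁ x₀ = 0 := by
    intro h0
    rwa [rad₁_eq, norm_eq_zero] at h0
  have hα : 0 ≤ rad₁ x₀ := Real.sqrt_nonneg _
  obtain ⟨ρ, C₁, L₁, hFB, hρ2⟩ := fl_FB (k := (p - 1 : ℕ)) (α := rad₁ x₀) (τ := τ) (R₀ := R₀)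
    (fun h0 => (h1 (hr1 h0)).ne')
  have hprof : prof x₀ = ⟨rad₁ x₀, 0⟩ := by simp only [prof, hr2]
  refine ⟨ρ, C₁, L₁, hFB, hρ2, by omega, ?_, ?_⟩
  · intro e he
    obtain ⟨f, C', Λ, hΛ, hC', hf⟩ := exists_field (k := q - 1) (c' := 1 / (2 * τ)) hFB he
    refine ⟨f, C', Λ, hΛ, hC', hf, ?_⟩
    rw [hprof]
    rw [hr2] at hD
    exact exists_sysB h hp hq hα hτ hl ht hD hFB.ρ0 hρ2 hΛ.continuous he hf
  · intro ζ hζ hre him
    obtain ⟨Z, hZ, hZζ⟩ := Pm_surj (x₀ := x₀) (ζ := ζ) (by omega) (by omega)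
      (fun h0 => by
        have h3 := h1 h0
        have h4 := hρ2 (by rw [rad₁_eq, h0, norm_zero])
        rw [abs_of_pos h3] at h4
        have := (abs_le.1 hre).1
        linarith) (fun _ => hζ)
    have := hS.mb (Pm_sub x₀ hZ)
    rwa [hZζ] at this

end Pool.Agent.Helper532_SymMCF

end
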