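import Pool.Agent.Helper532_SymMCF.Defs

section

/-!
Abstract systems of closed embedded unit speed curves with controlled curvature: estimates for
the arcs and comparison with the limit differential equation.
-/

open Set Filter MeasureTheory Topology
open scoped ContDiff NNReal ENNReal

namespace Pool.Agent.Helper532_SymMCF

/-- The unit vector with angle `θ`. -/
noncomputable def ex (θ : ℝ) : ℂ := Complex.exp (θ * Complex.I)

/-- The vector field of the limit differential equation, on the phase space. -/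
noncomputable def Fld (f : ℂ → ℂ) (X : ℂ × ℝ) : ℂ × ℝ :=
  (ex X.2, inner ℝ (f X.1) (Complex.I * ex X.2))

theorem ex_re (θ : ℝ) : (ex θ).re = Real.cos θ := by
  simp [ex, Complex.exp_re]

theorem ex_im (θ : ℝ) : (ex θ).im = Real.sin θ := by
  simp [ex, Complex.exp_im]

theorem norm_ex (θ : ℝ) : ‖ex θ‖ = 1 := Complex.norm_exp_ofReal_mul_I θ

theorem norm_I_ex (θ : ℝ) : ‖Complex.I * ex θ‖ = 1 := by
  rw [norm_mul, Complex.norm_I, norm_ex, one_mul]

theorem hasDerivAt_ex (θ : ℝ) : HasDerivAt ex (Complex.I * ex θ) θ := by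
  have h1 : HasDerivAt (fun x : ℝ => (x : ℂ) * Complex.I) (1 * Complex.I) θ :=
    (Complex.ofRealCLM.hasDerivAt (x := θ)).mul_const _
  have h2 := (Complex.hasDerivAt_exp ((θ : ℂ) * Complex.I)).comp θ h1
  convert! h2 using 1
  simp [ex, mul_comm]

theorem continuous_ex : Continuous ex :=
  continuous_iff_continuousAt.2 fun θ => (hasDerivAt_ex θ).continuousAt

theorem contDiff_ex : ContDiff ℝ ∞ ex := by
  unfold ex
  exact Complex.contDiff_exp.comp (Complex.ofRealCLM.contDiff.mul contDiff_const)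

theorem norm_ex_sub (θ θ' : ℝ) : ‖ex θ - ex θ'‖ ≤ |θ - θ'| := by
  have := Convex.norm_image_sub_le_of_norm_hasDerivWithin_le (f := ex) (f' := fun θ => Complex.I * ex θ)
    (s := univ) (C := 1) (fun x _ => (hasDerivAt_ex x).hasDerivWithinAt)
    (fun x _ => (norm_I_ex x).le) convex_univ (mem_univ θ') (mem_univ θ)
  simpa using this

theorem inner_ex (θ θ' : ℝ) : inner ℝ (ex θ) (ex θ') = Real.cos (θ - θ') := by
  rw [Complex.inner]
  simp only [Complex.mul_re, Complex.conj_re, Complex.conj_im, ex_re, ex_im]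
  rw [Real.cos_sub]; ring

theorem inner_ex_I (θ θ' : ℝ) : inner ℝ (ex θ) (Complex.I * ex θ') = Real.sin (θ - θ') := by
  rw [Complex.inner]
  simp only [Complex.mul_re, Complex.mul_im, Complex.conj_re, Complex.conj_im, ex_re, ex_im,
    Complex.I_re, Complex.I_im]
  rw [Real.sin_sub]; ring

theorem ex_add_pi (θ : ℝ) : ex (θ + Real.pi) = - ex θ := by
  apply Complex.ext <;> simp [ex_re, ex_im]

/-- If `sin (θ - θ') = 0`, the two unit vectors are parallel. -/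
theorem ex_eq_or (θ θ' : ℝ) (h : Real.sin (θ - θ') = 0) : ex θ = ex θ' ∨ ex θ = - ex θ' := by
  obtain ⟨k, hk⟩ := Real.sin_eq_zero_iff.1 h
  have h1 : θ = θ' + k * Real.pi := by linarith
  rcases Int.even_or_odd k with ⟨m, hm⟩ | ⟨m, hm⟩
  · left
    have : θ = θ' + m * (2 * Real.pi) := by rw [h1, hm]; push_cast; ring
    apply Complex.ext
    · rw [ex_re, ex_re, this, Real.cos_add_int_mul_two_pi]
    · rw [ex_im, ex_im, this, Real.sin_add_int_mul_two_pi]
  · right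
    have : θ = (θ' + m * (2 * Real.pi)) + Real.pi := by rw [h1, hm]; push_cast; ring
    rw [this, ex_add_pi]
    congr 1
    apply Complex.ext
    · rw [ex_re, ex_re, Real.cos_add_int_mul_two_pi]
    · rw [ex_im, ex_im, Real.sin_add_int_mul_two_pi]

/-- A system of closed embedded unit speed curves, given by its set `Ph` of pairs (point, angle of
the tangent), whose curvature is close to the normal component of `f` in `K`. -/
structure CSys (f : ℂ → ℂ) (K : Set ℂ) (ε : ℝ) (Ph : Set (ℂ × ℝ)) : Prop where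
  line : ∀ z θ θ', (z, θ) ∈ Ph → (z, θ') ∈ Ph → Real.sin (θ - θ') = 0
  rot : ∀ z θ, (z, θ) ∈ Ph → (z, θ + Real.pi) ∈ Ph ∧ (z, θ - Real.pi) ∈ Ph
  arc : ∀ z θ₀, (z, θ₀) ∈ Ph → ∃ (α : ℝ → ℂ) (θ κ : ℝ → ℝ) (L : ℝ), 0 < L ∧ α 0 = z ∧ θ 0 = θ₀ ∧
    (∀ s, HasDerivAt α (ex (θ s)) s) ∧ (∀ s, HasDerivAt θ (κ s) s) ∧ Continuous κ ∧
    (∀ s, (α s, θ s) ∈ Ph) ∧ (∀ s, α (s + L) = α s) ∧
    ∀ a ℓ, 0 ≤ ℓ → ℓ ≤ L → ℓ ≤ 1 → (∀ s ∈ Icc a (a + ℓ), α s ∈ K) →
      ∫ s in a..(a + ℓ), |κ s - inner ℝ (f (α s)) (Complex.I * ex (θ s))| ≤ ε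

/-- displacement of a unit speed curve -/
theorem unit_disp {α : ℝ → ℂ} {θ : ℝ → ℝ} (hα : ∀ s, HasDerivAt α (ex (θ s)) s) (s t : ℝ) :
    ‖α s - α t‖ ≤ |s - t| := by
  have := Convex.norm_image_sub_le_of_norm_hasDerivWithin_le (f := α) (f' := fun s => ex (θ s))
    (s := univ) (C := 1) (fun x _ => (hα x).hasDerivWithinAt)
    (fun x _ => (norm_ex _).le) convex_univ (mem_univ t) (mem_univ s)
  simpa using this

/-- total turning estimate on an interval -/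
theorem turn_est {f : ℂ → ℂ} (hf : Continuous f) {C : ℝ} (hC : ∀ z, ‖f z‖ ≤ C)
    {α : ℝ → ℂ} {θ κ : ℝ → ℝ} (hα : ∀ s, HasDerivAt α (ex (θ s)) s)
    (hθ : ∀ s, HasDerivAt θ (κ s) s) (hκ : Continuous κ) {a b ε : ℝ} (hab : a ≤ b)
    (hE : ∫ s in a..b, |κ s - inner ℝ (f (α s)) (Complex.I * ex (θ s))| ≤ ε) :
    |θ b - θ a| ≤ C * (b - a) + ε := by
  have hcα : Continuous α := continuous_iff_continuousAt.2 fun s => (hα s).continuousAt
  have hcθ : Continuous θ := continuous_iff_continuousAt.2 fun s => (hθ s).continuousAt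
  have hin : Continuous fun s => (inner ℝ (f (α s)) (Complex.I * ex (θ s)) : ℝ) :=
    (hf.comp hcα).inner (continuous_const.mul (continuous_ex.comp hcθ))
  have hgc : Continuous fun s => |κ s - inner ℝ (f (α s)) (Complex.I * ex (θ s))| :=
    (hκ.sub hin).abs
  have h1 : θ b - θ a = ∫ s in a..b, κ s :=
    (intervalIntegral.integral_eq_sub_of_hasDerivAt (fun s _ => hθ s)
      (hκ.intervalIntegrable _ _)).symm
  have h2 : |θ b - θ a| ≤ ∫ s in a..b, |κ s| := by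
    rw [h1]
    exact intervalIntegral.abs_integral_le_integral_abs hab
  have h3 : ∫ s in a..b, |κ s| ≤
      ∫ s in a..b, (|κ s - inner ℝ (f (α s)) (Complex.I * ex (θ s))| + C) := by
    have hgc2 : Continuous fun s =>
        |κ s - inner ℝ (f (α s)) (Complex.I * ex (θ s))| + C := hgc.add continuous_const
    apply intervalIntegral.integral_mono_on hab (hκ.abs.intervalIntegrable _ _)
      (hgc2.intervalIntegrable _ _)
    intro s _
    have e1 : |(inner ℝ (f (α s)) (Complex.I * ex (θ s)) : ℝ)| ≤ C := by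
      calc |(inner ℝ (f (α s)) (Complex.I * ex (θ s)) : ℝ)|
          ≤ ‖f (α s)‖ * ‖Complex.I * ex (θ s)‖ := abs_real_inner_le_norm _ _
        _ ≤ C := by rw [norm_I_ex, mul_one]; exact hC _
    have e2 : |κ s| ≤ |κ s - inner ℝ (f (α s)) (Complex.I * ex (θ s))| +
        |(inner ℝ (f (α s)) (Complex.I * ex (θ s)) : ℝ)| := by
      have := abs_add_le (κ s - inner ℝ (f (α s)) (Complex.I * ex (θ s)))
        (inner ℝ (f (α s)) (Complex.I * ex (θ s)))
      simpa using this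
    linarith
  have h4 : ∫ s in a..b, (|κ s - inner ℝ (f (α s)) (Complex.I * ex (θ s))| + C) =
      (∫ s in a..b, |κ s - inner ℝ (f (α s)) (Complex.I * ex (θ s))|) + C * (b - a) := by
    rw [intervalIntegral.integral_add (hgc.intervalIntegrable _ _)
      (continuous_const.intervalIntegrable _ _)]
    simp [mul_comm]
  linarith

/-- A good two-sided arc through a phase point. -/
structure Arc (f : ℂ → ℂ) (ε ρ : ℝ) (Ph : Set (ℂ × ℝ)) (α : ℝ → ℂ) (θ κ : ℝ → ℝ) : Prop where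
  hα : ∀ s, HasDerivAt α (ex (θ s)) s
  hθ : ∀ s, HasDerivAt θ (κ s) s
  hκ : Continuous κ
  mem : ∀ s, (α s, θ s) ∈ Ph
  fwd : ∀ s ∈ Icc 0 ρ, ∫ x in (0 : ℝ)..s, |κ x - inner ℝ (f (α x)) (Complex.I * ex (θ x))| ≤ ε
  bwd : ∀ s ∈ Icc 0 ρ, ∫ x in (-s)..0, |κ x - inner ℝ (f (α x)) (Complex.I * ex (θ x))| ≤ ε

theorem CSys.exists_arc {f : ℂ → ℂ} (hf : Continuous f) {C : ℝ} (hC : ∀ z, ‖f z‖ ≤ C)
    {K : Set ℂ} {ε ρ : ℝ} {Ph : Set (ℂ × ℝ)} (h : CSys f K ε Ph) {z : ℂ} {θ₀ : ℝ}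
    (hz : (z, θ₀) ∈ Ph) (_hρ : 0 < ρ) (hρ1 : ρ ≤ 1) (hK : Metric.closedBall z ρ ⊆ K)
    (hsmall : C * ρ + ε ≤ 1) :
    ∃ α θ κ, α 0 = z ∧ θ 0 = θ₀ ∧ Arc f ε ρ Ph α θ κ := by
  obtain ⟨α, θ, κ, L, hL, h0, hθ0, hα, hθ, hκ, hPh, hper, hint⟩ := h.arc z θ₀ hz
  have hC0 : 0 ≤ C := (norm_nonneg _).trans (hC 0)
  have hin : ∀ s, |s| ≤ ρ → α s ∈ K := by
    intro s hs
    apply hK
    rw [Metric.mem_closedBall, dist_eq_norm, ← h0]
    exact (unit_disp hα s 0).trans (by simpa using hs)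
  have hLρ : ρ < L := by
    by_contra hcon
    push Not at hcon
    have key : ∀ s ∈ Icc 0 L, |θ s - θ 0| ≤ 1 := by
      intro s hs
      have := turn_est hf hC hα hθ hκ hs.1 (by
        have := hint 0 s hs.1 hs.2 (hs.2.trans (hcon.trans hρ1)) (fun x hx => hin x (by
          rw [abs_of_nonneg hx.1]; linarith [hx.2, hs.2]))
        simpa using this)
      have h2 : C * (s - 0) ≤ C * ρ := mul_le_mul_of_nonneg_left (by linarith [hs.2]) hC0
      linarith
    have hmono : (1 / 2 : ℝ) * (L - 0) ≤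
        inner ℝ (α L) (ex (θ 0)) - inner ℝ (α 0) (ex (θ 0)) := by
      have hd : ∀ s, HasDerivAt (fun s => (inner ℝ (α s) (ex (θ 0)) : ℝ))
          (Real.cos (θ s - θ 0)) s := by
        intro s
        have := (hα s).inner ℝ (hasDerivAt_const s (ex (θ 0)))
        rw [inner_zero_right, zero_add, inner_ex] at this
        exact this
      apply Convex.mul_sub_le_image_sub_of_le_deriv (convex_Icc 0 L)
        (fun s _ => (hd s).continuousAt.continuousWithinAt)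
        (fun s _ => (hd s).differentiableAt.differentiableWithinAt)
      · intro s hs
        rw [interior_Icc] at hs
        rw [(hd s).deriv]
        have h1 := key s ⟨hs.1.le, hs.2.le⟩
        rw [← Real.cos_abs]
        have h2 := Real.one_sub_sq_div_two_le_cos (x := |θ s - θ 0|)
        nlinarith [abs_nonneg (θ s - θ 0)]
      · exact ⟨le_refl _, hL.le⟩
      · exact ⟨hL.le, le_refl _⟩
      · exact hL.le
    have : α L = α 0 := by have := hper 0; rwa [zero_add] at this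
    rw [this] at hmono
    simp at hmono
    linarith
  refine ⟨α, θ, κ, h0, hθ0, hα, hθ, hκ, hPh, ?_, ?_⟩
  · intro s hs
    have := hint 0 s hs.1 (hs.2.trans hLρ.le) (hs.2.trans hρ1) (fun x hx => hin x (by
      rw [abs_of_nonneg hx.1]; linarith [hx.2, hs.2]))
    simpa using this
  · intro s hs
    have := hint (-s) s hs.1 (hs.2.trans hLρ.le) (hs.2.trans hρ1) (fun x hx => hin x (by
      rw [neg_add_cancel] at hx
      rw [abs_of_nonpos hx.2]; linarith [hx.1, hs.2]))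
    simpa using this

theorem Arc.turn {f : ℂ → ℂ} (hf : Continuous f) {C : ℝ} (hC : ∀ z, ‖f z‖ ≤ C)
    {ε ρ : ℝ} {Ph : Set (ℂ × ℝ)} {α : ℝ → ℂ} {θ κ : ℝ → ℝ} (h : Arc f ε ρ Ph α θ κ) {s : ℝ}
    (hs : |s| ≤ ρ) : |θ s - θ 0| ≤ C * |s| + ε := by
  rcases le_total 0 s with h0 | h0
  · have := turn_est hf hC h.hα h.hθ h.hκ h0 (h.fwd s ⟨h0, by rwa [abs_of_nonneg h0] at hs⟩)
    rw [abs_of_nonneg h0]; simpa using this
  · have h1 := h.bwd (-s) ⟨by linarith, by rwa [abs_of_nonpos h0] at hs⟩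
    rw [neg_neg] at h1
    have := turn_est hf hC h.hα h.hθ h.hκ h0 h1
    rw [abs_of_nonpos h0, abs_sub_comm]; simpa using this

end Pool.Agent.Helper532_SymMCF

end

section

/-!
Comparison of almost solutions with exact solutions of the limit differential equation, and the
set of limit phases of a sequence of curve systems.
-/

open Set Filter MeasureTheory Topology Metric
open scoped ContDiff NNReal ENNReal

namespace Pool.Agent.Helper532_SymMCF

theorem Fld_lip {f : ℂ → ℂ} {C Λ : ℝ≥0} (hL : LipschitzWith Λ f) (hC : ∀ z, ‖f z‖ ≤ C) :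
    LipschitzWith (Λ + C + 1) (Fld f) := by
  apply LipschitzWith.of_dist_le_mul
  rintro ⟨z, θ⟩ ⟨z', θ'⟩
  simp only [Fld]
  have hz : dist z z' ≤ dist (z, θ) (z', θ') := by rw [Prod.dist_eq]; exact le_max_left _ _
  have hθ : |θ - θ'| ≤ dist (z, θ) (z', θ') := by
    rw [Prod.dist_eq, ← Real.dist_eq]; exact le_max_right _ _
  have hd0 : 0 ≤ dist (z, θ) (z', θ') := dist_nonneg
  rw [Prod.dist_eq]
  apply max_le
  · rw [dist_eq_norm]
    refine (norm_ex_sub θ θ').trans (hθ.trans ?_)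
    push_cast
    nlinarith [Λ.coe_nonneg, C.coe_nonneg]
  · rw [Real.dist_eq]
    have e1 : (inner ℝ (f z) (Complex.I * ex θ) : ℝ) - inner ℝ (f z') (Complex.I * ex θ') =
        inner ℝ (f z - f z') (Complex.I * ex θ) +
          inner ℝ (f z') (Complex.I * (ex θ - ex θ')) := by
      rw [inner_sub_left, mul_sub, inner_sub_right]; ring
    rw [e1]
    refine (abs_add_le _ _).trans ?_
    have e2 : |(inner ℝ (f z - f z') (Complex.I * ex θ) : ℝ)| ≤ Λ * dist (z, θ) (z', θ') := by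
      refine (abs_real_inner_le_norm _ _).trans ?_
      rw [norm_I_ex, mul_one, ← dist_eq_norm]
      exact (hL.dist_le_mul z z').trans (mul_le_mul_of_nonneg_left hz Λ.coe_nonneg)
    have e3 : |(inner ℝ (f z') (Complex.I * (ex θ - ex θ')) : ℝ)| ≤
        C * dist (z, θ) (z', θ') := by
      refine (abs_real_inner_le_norm _ _).trans ?_
      rw [norm_mul, Complex.norm_I, one_mul]
      exact mul_le_mul (hC _) ((norm_ex_sub θ θ').trans hθ) (norm_nonneg _) C.coe_nonneg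
    push_cast
    linarith

theorem Fld_bd {f : ℂ → ℂ} {C : ℝ≥0} (hC : ∀ z, ‖f z‖ ≤ C) (X : ℂ × ℝ) :
    ‖Fld f X‖ ≤ C + 1 := by
  rw [Prod.norm_def]
  apply max_le
  · simp only [Fld, norm_ex]
    linarith [C.coe_nonneg]
  · simp only [Fld, Real.norm_eq_abs]
    refine (abs_real_inner_le_norm _ _).trans ?_
    rw [norm_I_ex, mul_one]
    linarith [hC X.1]

/-- `γ` solves the limit differential equation on `[-1, 1]`. -/
def Sol (f : ℂ → ℂ) (γ : ℝ → ℂ × ℝ) : Prop :=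
  ∀ s ∈ Icc (-1 : ℝ) 1, HasDerivWithinAt γ (Fld f (γ s)) (Icc (-1) 1) s

theorem exists_sol {f : ℂ → ℂ} {C Λ : ℝ≥0} (hL : LipschitzWith Λ f) (hC : ∀ z, ‖f z‖ ≤ C)
    (X : ℂ × ℝ) : ∃ γ, γ 0 = X ∧ Sol f γ := by
  have hp : IsPicardLindelof (fun _ => Fld f) (tmin := -1) (tmax := 1) ⟨0, by simp⟩ X (C + 1) 0
      (C + 1) (Λ + C + 1) := by
    apply IsPicardLindelof.of_time_independent
    · intro x _
      exact (Fld_bd hC x)
    · exact (Fld_lip hL hC).lipschitzOnWith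
    · simp
  obtain ⟨γ, h0, hγ⟩ := hp.exists_eq_forall_mem_Icc_hasDerivWithinAt₀
  exact ⟨γ, h0, hγ⟩

theorem Sol.rev {f : ℂ → ℂ} {γ : ℝ → ℂ × ℝ} (h : Sol f γ) :
    Sol f (fun s => ((γ (-s)).1, (γ (-s)).2 + Real.pi)) := by
  intro s hs
  have hs' : -s ∈ Icc (-1 : ℝ) 1 := ⟨by linarith [hs.2], by linarith [hs.1]⟩
  have h1 := h (-s) hs'
  have hneg : HasDerivWithinAt (fun x : ℝ => -x) (-1) (Icc (-1) 1) s :=
    (hasDerivAt_neg s).hasDerivWithinAt
  have hm : MapsTo (fun x : ℝ => -x) (Icc (-1) 1) (Icc (-1) 1) :=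
    fun x hx => ⟨by linarith [hx.2], by linarith [hx.1]⟩
  have h2 : HasDerivWithinAt (fun x => γ (-x)) ((-1 : ℝ) • Fld f (γ (-s))) (Icc (-1) 1) s :=
    HasDerivWithinAt.scomp s h1 hneg hm
  have h3 : HasDerivWithinAt (fun x => (γ (-x)).1) ((-1 : ℝ) • Fld f (γ (-s))).1
      (Icc (-1) 1) s := ((ContinuousLinearMap.fst ℝ ℂ ℝ).hasFDerivAt.comp_hasDerivWithinAt s h2)
  have h4 : HasDerivWithinAt (fun x => (γ (-x)).2) ((-1 : ℝ) • Fld f (γ (-s))).2
      (Icc (-1) 1) s := ((ContinuousLinearMap.snd ℝ ℂ ℝ).hasFDerivAt.comp_hasDerivWithinAt s h2)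
  have h5 := h3.prodMk (h4.add_const Real.pi)
  convert! h5 using 1
  simp only [Fld, ex_add_pi]
  ext <;> simp

theorem Arc.rev {f : ℂ → ℂ} {ε ρ : ℝ} {K : Set ℂ} {Ph : Set (ℂ × ℝ)} (hc : CSys f K ε Ph)
    {α : ℝ → ℂ} {θ κ : ℝ → ℝ} (h : Arc f ε ρ Ph α θ κ) :
    Arc f ε ρ Ph (fun s => α (-s)) (fun s => θ (-s) + Real.pi) (fun s => -κ (-s)) := by
  have hr : ∀ s, ex (θ (-s) + Real.pi) = (-1 : ℝ) • ex (θ (-s)) := by
    intro s; rw [ex_add_pi]; simp
  have hint : ∀ x, |-κ (-x) - inner ℝ (f (α (-x))) (Complex.I * ex (θ (-x) + Real.pi))| =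
      |κ (-x) - inner ℝ (f (α (-x))) (Complex.I * ex (θ (-x)))| := by
    intro x
    rw [ex_add_pi, mul_neg, inner_neg_right, ← abs_neg]
    congr 1; ring
  refine ⟨?_, ?_, ?_, ?_, ?_, ?_⟩
  · intro s
    rw [hr]
    exact (h.hα (-s)).scomp s (hasDerivAt_neg s)
  · intro s
    have := ((h.hθ (-s)).scomp s (hasDerivAt_neg s)).add_const Real.pi
    simpa using this
  · exact (h.hκ.comp continuous_neg).neg
  · intro s
    exact (hc.rot _ _ (h.mem (-s))).1
  · intro s hs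
    have := h.bwd s hs
    simp only [hint]
    rw [intervalIntegral.integral_comp_neg
      (fun x => |κ x - inner ℝ (f (α x)) (Complex.I * ex (θ x))|)]
    simpa using this
  · intro s hs
    have := h.fwd s hs
    simp only [hint]
    rw [intervalIntegral.integral_comp_neg
      (fun x => |κ x - inner ℝ (f (α x)) (Complex.I * ex (θ x))|)]
    simpa using this

/-- constant in the comparison estimate -/
noncomputable def Bc (C Λ : ℝ≥0) : ℝ := (1 + C) * Real.exp (Λ + C + 1) + 1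

theorem Bc_pos (C Λ : ℝ≥0) : 0 < Bc C Λ := by unfold Bc; positivity

theorem compare_fwd {f : ℂ → ℂ} {C Λ : ℝ≥0} (hL : LipschitzWith Λ f) (hC : ∀ z, ‖f z‖ ≤ C)
    {ε ρ δ : ℝ} {Ph : Set (ℂ × ℝ)} {α : ℝ → ℂ} {θ κ : ℝ → ℝ} (h : Arc f ε ρ Ph α θ κ)
    (hρ : ρ ≤ 1) (hε : 0 ≤ ε) {γ : ℝ → ℂ × ℝ} (hγ : Sol f γ) (hδ : dist (α 0, θ 0) (γ 0) ≤ δ)
    {s : ℝ} (hs : s ∈ Icc 0 ρ) : dist (α s, θ s) (γ s) ≤ Bc C Λ * (δ + ε) := by
  have hcf : Continuous f := hL.continuous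
  have hcα : Continuous α := continuous_iff_continuousAt.2 fun s => (h.hα s).continuousAt
  have hcθ : Continuous θ := continuous_iff_continuousAt.2 fun s => (h.hθ s).continuousAt
  have hin : Continuous fun s => (inner ℝ (f (α s)) (Complex.I * ex (θ s)) : ℝ) :=
    (hcf.comp hcα).inner (continuous_const.mul (continuous_ex.comp hcθ))
  have hgc : Continuous fun s => κ s - inner ℝ (f (α s)) (Complex.I * ex (θ s)) :=
    h.hκ.sub hin
  have hδ0 : 0 ≤ δ := dist_nonneg.trans hδ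
  set e : ℝ → ℝ := fun s => ∫ x in (0 : ℝ)..s, (κ x - inner ℝ (f (α x)) (Complex.I * ex (θ x)))
    with he
  have hed : ∀ s, HasDerivAt e (κ s - inner ℝ (f (α s)) (Complex.I * ex (θ s))) s := fun s =>
    intervalIntegral.integral_hasDerivAt_right (hgc.intervalIntegrable _ _)
      (hgc.stronglyMeasurableAtFilter _ _) hgc.continuousAt
  have heb : ∀ s ∈ Icc 0 ρ, |e s| ≤ ε := by
    intro s hs
    exact (intervalIntegral.abs_integral_le_integral_abs hs.1).trans (h.fwd s hs)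
  set Y : ℝ → ℂ × ℝ := fun s => (α s, θ s - e s) with hY
  have hYd : ∀ s, HasDerivAt Y (ex (θ s), inner ℝ (f (α s)) (Complex.I * ex (θ s))) s := by
    intro s
    have := (h.hα s).prodMk ((h.hθ s).sub (hed s))
    convert! this using 2
    ring
  have hYb : ∀ s ∈ Icc 0 ρ, dist (ex (θ s), (inner ℝ (f (α s)) (Complex.I * ex (θ s)) : ℝ))
      (Fld f (Y s)) ≤ (1 + C) * ε := by
    intro s hs
    have h1 : ‖ex (θ s) - ex (θ s - e s)‖ ≤ ε := by
      refine (norm_ex_sub _ _).trans ?_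
      simpa using heb s hs
    simp only [Fld, hY]
    rw [Prod.dist_eq]
    apply max_le
    · rw [dist_eq_norm]
      refine h1.trans ?_
      nlinarith [C.coe_nonneg]
    · simp only
      rw [Real.dist_eq, ← inner_sub_right, ← mul_sub]
      refine (abs_real_inner_le_norm _ _).trans ?_
      rw [norm_mul, Complex.norm_I, one_mul]
      have := mul_le_mul (hC (α s)) h1 (norm_nonneg _) C.coe_nonneg
      linarith
  have hcomp := dist_le_of_approx_trajectories_ODE_of_mem (v := fun _ => Fld f)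
    (s := fun _ => univ) (K := Λ + C + 1) (f := Y)
    (f' := fun s => (ex (θ s), (inner ℝ (f (α s)) (Complex.I * ex (θ s)) : ℝ)))
    (g := γ) (g' := fun s => Fld f (γ s)) (a := 0) (b := ρ) (εf := (1 + C) * ε) (εg := 0) (δ := δ)
    (fun t _ => (Fld_lip hL hC).lipschitzOnWith)
    (fun t _ => (hYd t).continuousAt.continuousWithinAt)
    (fun t _ => (hYd t).hasDerivWithinAt)
    (fun t ht => hYb t ⟨ht.1, ht.2.le⟩)
    (fun t _ => mem_univ _)
    (fun t ht => by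
      have ht1 : t ∈ Icc (-1 : ℝ) 1 := ⟨by linarith [ht.1], ht.2.trans hρ⟩
      exact (hγ t ht1).continuousWithinAt.mono (Icc_subset_Icc (by norm_num) hρ))
    (fun t ht => by
      have ht1 : t ∈ Icc (-1 : ℝ) 1 := ⟨by linarith [ht.1], ht.2.le.trans hρ⟩
      have h1 := hγ t ht1
      have h2 : HasDerivWithinAt γ (Fld f (γ t)) (Ico t 1) t :=
        h1.mono (fun x hx => ⟨by linarith [hx.1, ht.1], hx.2.le⟩)
      exact h2.mono_of_mem_nhdsWithin (Ico_mem_nhdsGE (lt_of_lt_of_le ht.2 hρ)))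
    (fun t _ => by simp)
    (fun t _ => mem_univ _)
    (by
      have : Y 0 = (α 0, θ 0) := by simp [hY, he]
      rw [this]; exact hδ)
    s hs
  have hK : ((Λ + C + 1 : ℝ≥0) : ℝ) ≠ 0 := by positivity
  have hg : gronwallBound δ ((Λ + C + 1 : ℝ≥0) : ℝ) ((1 + C) * ε + 0) (s - 0) ≤
      (1 + C) * Real.exp (Λ + C + 1) * (δ + ε) := by
    rw [gronwallBound_of_K_ne_0 hK]
    push_cast
    have hs1 : s ≤ 1 := hs.2.trans hρ
    have hexp : Real.exp ((Λ + C + 1) * (s - 0)) ≤ Real.exp (Λ + C + 1) := by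
      apply Real.exp_le_exp.2
      have : (0 : ℝ) ≤ Λ + C + 1 := by positivity
      nlinarith [hs.1]
    have hK1 : (1 : ℝ) ≤ Λ + C + 1 := by linarith [Λ.coe_nonneg, C.coe_nonneg]
    have t1 : δ * Real.exp ((Λ + C + 1) * (s - 0)) ≤
        (1 + C) * Real.exp (Λ + C + 1) * δ := by
      have a1 : δ * Real.exp ((Λ + C + 1) * (s - 0)) ≤ δ * Real.exp (Λ + C + 1) :=
        mul_le_mul_of_nonneg_left hexp hδ0
      have a2 : δ * Real.exp (Λ + C + 1) ≤ (1 + C) * Real.exp (Λ + C + 1) * δ := by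
        have : 0 ≤ (C : ℝ) * (Real.exp (Λ + C + 1) * δ) := by positivity
        linarith
      exact a1.trans a2
    have t2 : ((1 + C) * ε + 0) / (Λ + C + 1) * (Real.exp ((Λ + C + 1) * (s - 0)) - 1) ≤
        (1 + C) * Real.exp (Λ + C + 1) * ε := by
      have a0 : (0 : ℝ) ≤ (1 + C) * ε := by positivity
      have a1 : ((1 + C) * ε + 0) / (Λ + C + 1) ≤ (1 + C) * ε := by
        rw [add_zero]
        exact div_le_self a0 hK1
      have a2 : Real.exp ((Λ + C + 1) * (s - 0)) - 1 ≤ Real.exp (Λ + C + 1) := by linarith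
      have a3 : 0 ≤ Real.exp ((Λ + C + 1) * (s - 0)) - 1 := by
        have : (0 : ℝ) ≤ (Λ + C + 1) * (s - 0) := by
          have := hs.1
          have : (0 : ℝ) ≤ s - 0 := by linarith
          positivity
        linarith [Real.add_one_le_exp ((Λ + C + 1 : ℝ) * (s - 0))]
      have := mul_le_mul a1 a2 a3 a0
      linarith
    linarith
  have hfin : dist (α s, θ s) (Y s) ≤ ε := by
    rw [Prod.dist_eq]
    apply max_le
    · simpa [hY] using hε
    · simp only [hY]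
      rw [Real.dist_eq]
      have := heb s hs
      simpa using this
  have htot := dist_triangle (α s, θ s) (Y s) (γ s)
  have : Bc C Λ * (δ + ε) = (1 + C) * Real.exp (Λ + C + 1) * (δ + ε) + (δ + ε) := by
    unfold Bc; ring
  rw [this]
  linarith [hcomp.trans hg]

theorem compare {f : ℂ → ℂ} {C Λ : ℝ≥0} (hL : LipschitzWith Λ f) (hC : ∀ z, ‖f z‖ ≤ C)
    {ε ρ δ : ℝ} {K : Set ℂ} {Ph : Set (ℂ × ℝ)} (hc : CSys f K ε Ph)
    {α : ℝ → ℂ} {θ κ : ℝ → ℝ} (h : Arc f ε ρ Ph α θ κ)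
    (hρ : ρ ≤ 1) (hε : 0 ≤ ε) {γ : ℝ → ℂ × ℝ} (hγ : Sol f γ) (hδ : dist (α 0, θ 0) (γ 0) ≤ δ)
    {s : ℝ} (hs : |s| ≤ ρ) : dist (α s, θ s) (γ s) ≤ Bc C Λ * (δ + ε) := by
  rcases le_total 0 s with h0 | h0
  · exact compare_fwd hL hC h hρ hε hγ hδ ⟨h0, by rwa [abs_of_nonneg h0] at hs⟩
  · have hs' : -s ∈ Icc 0 ρ := ⟨by linarith, by rwa [abs_of_nonpos h0] at hs⟩
    have := compare_fwd hL hC (h.rev hc) hρ hε hγ.rev (δ := δ) (by
      simpa [Prod.dist_eq] using hδ) hs'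
    simpa [Prod.dist_eq] using this

end Pool.Agent.Helper532_SymMCF

end

section

/-!
The set of limit phases of a sequence of systems of embedded curves: it is invariant under the
limit differential equation and the limit curves do not cross.
-/

open Set Filter MeasureTheory Topology Metric
open scoped ContDiff NNReal ENNReal

namespace Pool.Agent.Helper532_SymMCF

/-- mean value estimates -/
theorem mvt_le {g g' : ℝ → ℝ} (hg : ∀ s, HasDerivAt g (g' s) s) {x y lo : ℝ} (hxy : x ≤ y)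
    (h : ∀ s ∈ Icc x y, lo ≤ g' s) : lo * (y - x) ≤ g y - g x := by
  apply Convex.mul_sub_le_image_sub_of_le_deriv (convex_Icc x y)
    (fun s _ => (hg s).continuousAt.continuousWithinAt)
    (fun s _ => (hg s).differentiableAt.differentiableWithinAt)
  · intro s hs
    rw [interior_Icc] at hs
    rw [(hg s).deriv]
    exact h s ⟨hs.1.le, hs.2.le⟩
  · exact ⟨le_refl _, hxy⟩
  · exact ⟨hxy, le_refl _⟩
  · exact hxy

theorem mvt_ge {g g' : ℝ → ℝ} (hg : ∀ s, HasDerivAt g (g' s) s) {x y hi : ℝ} (hxy : x ≤ y)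
    (h : ∀ s ∈ Icc x y, g' s ≤ hi) : g y - g x ≤ hi * (y - x) := by
  have := mvt_le (g := fun s => -g s) (g' := fun s => -g' s) (fun s => (hg s).neg) hxy
    (lo := -hi) (fun s hs => neg_le_neg (h s hs))
  linarith

theorem hasDerivAt_inner_ex {α : ℝ → ℂ} {θ : ℝ → ℝ} (hα : ∀ s, HasDerivAt α (ex (θ s)) s)
    (z : ℂ) (φ s : ℝ) :
    HasDerivAt (fun s => (inner ℝ (α s - z) (ex φ) : ℝ)) (Real.cos (θ s - φ)) s := by
  have := ((hα s).sub_const z).inner ℝ (hasDerivAt_const s (ex φ))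
  rw [inner_zero_right, zero_add, inner_ex] at this
  exact this

theorem hasDerivAt_inner_I_ex {α : ℝ → ℂ} {θ : ℝ → ℝ} (hα : ∀ s, HasDerivAt α (ex (θ s)) s)
    (z : ℂ) (φ s : ℝ) :
    HasDerivAt (fun s => (inner ℝ (α s - z) (Complex.I * ex φ) : ℝ)) (Real.sin (θ s - φ)) s := by
  have := ((hα s).sub_const z).inner ℝ (hasDerivAt_const s (Complex.I * ex φ))
  rw [inner_zero_right, zero_add, inner_ex_I] at this
  exact this

/-- a complex number is determined by its coordinates in the frame `ex φ`, `I * ex φ` -/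
theorem eq_of_inner {z w : ℂ} (φ : ℝ) (h1 : (inner ℝ z (ex φ) : ℝ) = inner ℝ w (ex φ))
    (h2 : (inner ℝ z (Complex.I * ex φ) : ℝ) = inner ℝ w (Complex.I * ex φ)) : z = w := by
  rw [Complex.inner, Complex.inner] at h1 h2
  simp only [Complex.mul_re, Complex.mul_im, Complex.conj_re, Complex.conj_im, ex_re, ex_im,
    Complex.I_re, Complex.I_im] at h1 h2
  have hs := Real.sin_sq_add_cos_sq φ
  apply Complex.ext
  · have := congrArg (fun x => x * Real.cos φ) h1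
    have h3 := congrArg (fun x => x * Real.sin φ) h2
    linear_combination this - h3 + (w.re - z.re) * hs
  · have := congrArg (fun x => x * Real.sin φ) h1
    have h3 := congrArg (fun x => x * Real.cos φ) h2
    linear_combination this + h3 + (w.im - z.im) * hs

theorem norm_sq_frame (z : ℂ) (φ : ℝ) :
    ‖z‖ ^ 2 = (inner ℝ z (ex φ) : ℝ) ^ 2 + (inner ℝ z (Complex.I * ex φ) : ℝ) ^ 2 := by
  rw [Complex.inner, Complex.inner, Complex.sq_norm, Complex.normSq_apply]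
  simp only [Complex.mul_re, Complex.mul_im, Complex.conj_re, Complex.conj_im, ex_re, ex_im,
    Complex.I_re, Complex.I_im]
  have hs := Real.sin_sq_add_cos_sq φ
  linear_combination (-(z.re ^ 2 + z.im ^ 2)) * hs

/-- Two paths, one of which is a graph over the line with angle `φ`, cross. -/
theorem cross {α : ℝ → ℂ} {θ : ℝ → ℝ} (hα : ∀ s, HasDerivAt α (ex (θ s)) s) {a b lo hi φ : ℝ}
    {z : ℂ} (hab : a ≤ b) (hθ : ∀ s ∈ Icc a b, |θ s - φ| ≤ 1)
    (hn : ∀ s ∈ Icc a b, lo ≤ inner ℝ (α s - z) (Complex.I * ex φ) ∧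
      (inner ℝ (α s - z) (Complex.I * ex φ) : ℝ) ≤ hi)
    {β : ℝ → ℂ} {c d : ℝ} (hcd : c ≤ d) (hβ : ContinuousOn β (Icc c d))
    (hA : ∀ t ∈ Icc c d, inner ℝ (α a - z) (ex φ) ≤ (inner ℝ (β t - z) (ex φ) : ℝ) ∧
      (inner ℝ (β t - z) (ex φ) : ℝ) ≤ inner ℝ (α b - z) (ex φ))
    (h1 : (inner ℝ (β c - z) (Complex.I * ex φ) : ℝ) ≤ lo)
    (h2 : hi ≤ (inner ℝ (β d - z) (Complex.I * ex φ) : ℝ)) :
    ∃ s ∈ Icc a b, ∃ t ∈ Icc c d, α s = β t := by
  set A : ℝ → ℝ := fun s => inner ℝ (α s - z) (ex φ) with hAdef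
  set n : ℝ → ℝ := fun s => inner ℝ (α s - z) (Complex.I * ex φ) with hndef
  set B : ℝ → ℝ := fun t => inner ℝ (β t - z) (ex φ) with hBdef
  set m : ℝ → ℝ := fun t => inner ℝ (β t - z) (Complex.I * ex φ) with hmdef
  have hAd : ∀ s, HasDerivAt A (Real.cos (θ s - φ)) s := hasDerivAt_inner_ex hα z φ
  have hnd : ∀ s, HasDerivAt n (Real.sin (θ s - φ)) s := hasDerivAt_inner_I_ex hα z φ
  have hAc : Continuous A := continuous_iff_continuousAt.2 fun s => (hAd s).continuousAt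
  have hnc : Continuous n := continuous_iff_continuousAt.2 fun s => (hnd s).continuousAt
  have hBc : ContinuousOn B (Icc c d) := (hβ.sub continuousOn_const).inner continuousOn_const
  have hmc : ContinuousOn m (Icc c d) := (hβ.sub continuousOn_const).inner continuousOn_const
  have hinj : ∀ s ∈ Icc a b, ∀ s' ∈ Icc a b, s < s' → A s < A s' := by
    intro s hs s' hs' hlt
    have := mvt_le hAd hlt.le (lo := 1 / 2) (fun x hx => by
      have h1 := hθ x ⟨hs.1.trans hx.1, hx.2.trans hs'.2⟩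
      rw [← Real.cos_abs]
      have h2 := Real.one_sub_sq_div_two_le_cos (x := |θ x - φ|)
      nlinarith [abs_nonneg (θ x - φ)])
    linarith
  set P : Set (ℝ × ℝ) := {p | p.1 ∈ Icc a b ∧ p.2 ∈ Icc c d ∧ A p.1 = B p.2 ∧ n p.1 ≤ m p.2}
    with hP
  set Q : Set (ℝ × ℝ) := {p | p.1 ∈ Icc a b ∧ p.2 ∈ Icc c d ∧ A p.1 = B p.2 ∧ m p.2 ≤ n p.1}
    with hQ
  have hB2 : ContinuousOn (fun p : ℝ × ℝ => B p.2) (Icc a b ×ˢ Icc c d) :=
    hBc.comp continuousOn_snd (fun p hp => hp.2)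
  have hm2 : ContinuousOn (fun p : ℝ × ℝ => m p.2) (Icc a b ×ˢ Icc c d) :=
    hmc.comp continuousOn_snd (fun p hp => hp.2)
  have hA1 : ContinuousOn (fun p : ℝ × ℝ => A p.1) (Icc a b ×ˢ Icc c d) :=
    (hAc.comp continuous_fst).continuousOn
  have hn1 : ContinuousOn (fun p : ℝ × ℝ => n p.1) (Icc a b ×ˢ Icc c d) :=
    (hnc.comp continuous_fst).continuousOn
  have hcomp : IsCompact (Icc a b ×ˢ Icc c d) := isCompact_Icc.prod isCompact_Icc
  have hclosed : IsClosed (Icc a b ×ˢ Icc c d) := hcomp.isClosed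
  have hPc : IsCompact P := by
    have hcl : IsClosed P := by
      have h3 : P = (Icc a b ×ˢ Icc c d) ∩
          ((fun p : ℝ × ℝ => (A p.1 - B p.2, m p.2 - n p.1)) ⁻¹' ({0} ×ˢ Ici 0)) := by
        ext p
        simp only [hP, mem_ofPred_eq, mem_inter_iff, mem_prod, mem_preimage, mem_singleton_iff,
          mem_Ici, sub_eq_zero, sub_nonneg]
        tauto
      rw [h3]
      exact ((hA1.sub hB2).prodMk (hm2.sub hn1)).preimage_isClosed_of_isClosed hclosed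
        (isClosed_singleton.prod isClosed_Ici)
    exact hcomp.of_isClosed_subset hcl (fun p hp => ⟨hp.1, hp.2.1⟩)
  have hQc : IsCompact Q := by
    have hcl : IsClosed Q := by
      have h3 : Q = (Icc a b ×ˢ Icc c d) ∩
          ((fun p : ℝ × ℝ => (A p.1 - B p.2, n p.1 - m p.2)) ⁻¹' ({0} ×ˢ Ici 0)) := by
        ext p
        simp only [hQ, mem_ofPred_eq, mem_inter_iff, mem_prod, mem_preimage, mem_singleton_iff,
          mem_Ici, sub_eq_zero, sub_nonneg]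
        tauto
      rw [h3]
      exact ((hA1.sub hB2).prodMk (hn1.sub hm2)).preimage_isClosed_of_isClosed hclosed
        (isClosed_singleton.prod isClosed_Ici)
    exact hcomp.of_isClosed_subset hcl (fun p hp => ⟨hp.1, hp.2.1⟩)
  have hex : ∀ t ∈ Icc c d, ∃ s ∈ Icc a b, A s = B t := by
    intro t ht
    have := intermediate_value_Icc hab hAc.continuousOn
    exact this ⟨(hA t ht).1, (hA t ht).2⟩
  have hcover : Icc c d ⊆ (Prod.snd '' P) ∪ (Prod.snd '' Q) := by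
    intro t ht
    obtain ⟨s, hs, hst⟩ := hex t ht
    rcases le_total (n s) (m t) with h | h
    · left; exact ⟨(s, t), ⟨hs, ht, hst, h⟩, rfl⟩
    · right; exact ⟨(s, t), ⟨hs, ht, hst, h⟩, rfl⟩
  have hcon := isPreconnected_closed_iff.1 (isPreconnected_Icc (a := c) (b := d))
    (Prod.snd '' P) (Prod.snd '' Q) (hPc.image continuous_snd).isClosed
    (hQc.image continuous_snd).isClosed hcover
    (by
      obtain ⟨s, hs, hst⟩ := hex d ⟨hcd, le_refl _⟩
      exact ⟨d, ⟨hcd, le_refl _⟩, (s, d), ⟨hs, ⟨hcd, le_refl _⟩, hst, (hn s hs).2.trans h2⟩, rfl⟩)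
    (by
      obtain ⟨s, hs, hst⟩ := hex c ⟨le_refl _, hcd⟩
      exact ⟨c, ⟨le_refl _, hcd⟩, (s, c), ⟨hs, ⟨le_refl _, hcd⟩, hst, h1.trans (hn s hs).1⟩, rfl⟩)
  obtain ⟨t, ht, ⟨⟨s, t1⟩, hp, hpt⟩, ⟨⟨s', t2⟩, hq, hqt⟩⟩ := hcon
  simp only at hpt hqt
  subst hpt
  subst hqt
  obtain ⟨hs, _, hAs, hns⟩ := hp
  obtain ⟨hs', _, hAs', hns'⟩ := hq
  simp only at hs hs' hAs hAs' hns hns'
  have hss : s = s' := by
    rcases lt_trichotomy s s' with h | h | h
    · have := hinj s hs s' hs' h; linarith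
    · exact h
    · have := hinj s' hs' s hs h; linarith
  subst hss
  refine ⟨s, hs, t2, ht, ?_⟩
  have e1 : α s - z = β t2 - z := eq_of_inner φ hAs (le_antisymm hns hns')
  exact sub_left_inj.1 e1

variable {ι : Type*}

/-- The limit phases along the filter `𝓕`. -/
def LT (𝓕 : Filter ι) (Ph : ι → Set (ℂ × ℝ)) : Set (ℂ × ℝ) :=
  {X | ∀ δ > 0, ∀ᶠ i in 𝓕, ∃ Y ∈ Ph i, dist Y X < δ}

/-- The local situation: near `z₀` the curvature of the curves converges to the normal component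
of the field `f`. -/
structure Loc (𝓕 : Filter ι) (Ph : ι → Set (ℂ × ℝ)) (f : ℂ → ℂ) (C Λ : ℝ≥0) (z₀ : ℂ) (R : ℝ) :
    Prop where
  lip : LipschitzWith Λ f
  bd : ∀ z, ‖f z‖ ≤ C
  pos : 0 < R
  sys : ∀ ε > 0, ∀ᶠ i in 𝓕, CSys f (closedBall z₀ R) ε (Ph i)

/-- size of the arcs -/
noncomputable def ro (C : ℝ≥0) (R : ℝ) : ℝ := min (R / 4) (1 / (4 * (C + 1)))

theorem ro_pos (C : ℝ≥0) {R : ℝ} (hR : 0 < R) : 0 < ro C R := by
  unfold ro; positivity

theorem ro_le (C : ℝ≥0) (R : ℝ) : ro C R ≤ R / 4 := min_le_left _ _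

theorem ro_le_quarter (C : ℝ≥0) (R : ℝ) : ro C R ≤ 1 / 4 := by
  refine (min_le_right _ _).trans ?_
  apply one_div_le_one_div_of_le (by norm_num)
  linarith [C.coe_nonneg]

theorem C_ro (C : ℝ≥0) (R : ℝ) : C * ro C R ≤ 1 / 4 := by
  have h1 : ro C R ≤ 1 / (4 * (C + 1)) := min_le_right _ _
  have h2 : (C : ℝ) * ro C R ≤ C * (1 / (4 * (C + 1))) :=
    mul_le_mul_of_nonneg_left h1 C.coe_nonneg
  have h3 : (C : ℝ) * (1 / (4 * (C + 1))) ≤ 1 / 4 := by
    have : (0 : ℝ) < C + 1 := by positivity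
    rw [mul_one_div, div_le_div_iff₀ (by positivity) (by norm_num)]
    linarith
  linarith

theorem Loc.arcs {𝓕 : Filter ι} {Ph : ι → Set (ℂ × ℝ)} {f : ℂ → ℂ} {C Λ : ℝ≥0} {z₀ : ℂ} {R : ℝ}
    (h : Loc 𝓕 Ph f C Λ z₀ R) {X : ℂ × ℝ} (hX : X ∈ LT 𝓕 Ph) (hz : dist X.1 z₀ ≤ R / 2)
    {δ ε : ℝ} (hδ : 0 < δ) (hε : 0 < ε) (hε2 : ε ≤ 1 / 2) :
    ∀ᶠ i in 𝓕, CSys f (closedBall z₀ R) ε (Ph i) ∧
      ∃ α θ κ, Arc f ε (ro C R) (Ph i) α θ κ ∧ dist (α 0, θ 0) X < δ := by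
  have hR := h.pos
  filter_upwards [h.sys ε hε, hX (min δ (R / 4)) (by positivity)] with i hi hY
  refine ⟨hi, ?_⟩
  obtain ⟨⟨y, θ₀⟩, hY, hd⟩ := hY
  have hd1 : dist y X.1 < R / 4 := by
    have : dist y X.1 ≤ dist (y, θ₀) X := by rw [Prod.dist_eq]; exact le_max_left _ _
    exact this.trans_lt (hd.trans_le (min_le_right _ _))
  obtain ⟨α, θ, κ, h0, h0', harc⟩ := hi.exists_arc h.lip.continuous h.bd hY (ro_pos C hR)
    ((ro_le_quarter C R).trans (by norm_num)) (by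
      apply closedBall_subset_closedBall'
      have := dist_triangle y X.1 z₀
      linarith [ro_le C R]) (by linarith [C_ro C R])
  refine ⟨α, θ, κ, harc, ?_⟩
  rw [h0, h0']
  exact hd.trans_le (min_le_left _ _)

theorem Loc.flow {𝓕 : Filter ι} {Ph : ι → Set (ℂ × ℝ)} {f : ℂ → ℂ} {C Λ : ℝ≥0} {z₀ : ℂ} {R : ℝ}
    (h : Loc 𝓕 Ph f C Λ z₀ R) {γ : ℝ → ℂ × ℝ} (hγ : Sol f γ) (hX : γ 0 ∈ LT 𝓕 Ph)
    (hz : dist (γ 0).1 z₀ ≤ R / 2) {s : ℝ} (hs : |s| ≤ ro C R) : γ s ∈ LT 𝓕 Ph := by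
  intro δ hδ
  have hB := Bc_pos C Λ
  set η : ℝ := min (δ / (4 * Bc C Λ)) (1 / 2) with hη
  have hη0 : 0 < η := by positivity
  filter_upwards [h.arcs hX hz hη0 hη0 (min_le_right _ _)] with i hi
  obtain ⟨hc, α, θ, κ, harc, hd⟩ := hi
  refine ⟨(α s, θ s), harc.mem s, ?_⟩
  have := compare h.lip h.bd hc harc ((ro_le_quarter C R).trans (by norm_num)) hη0.le hγ hd.le hs
  refine this.trans_lt ?_
  have h1 : η ≤ δ / (4 * Bc C Λ) := min_le_left _ _
  have h2 : Bc C Λ * (η + η) ≤ Bc C Λ * (δ / (4 * Bc C Λ) + δ / (4 * Bc C Λ)) := by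
    apply mul_le_mul_of_nonneg_left _ hB.le
    linarith
  have h3 : Bc C Λ * (δ / (4 * Bc C Λ) + δ / (4 * Bc C Λ)) = δ / 2 := by
    field_simp; ring
  linarith

theorem Loc.rot {𝓕 : Filter ι} {Ph : ι → Set (ℂ × ℝ)} {f : ℂ → ℂ} {C Λ : ℝ≥0} {z₀ : ℂ} {R : ℝ}
    (h : Loc 𝓕 Ph f C Λ z₀ R) {z : ℂ} {θ : ℝ} (hX : (z, θ) ∈ LT 𝓕 Ph) :
    (z, θ + Real.pi) ∈ LT 𝓕 Ph := by
  intro δ hδ
  filter_upwards [h.sys 1 one_pos, hX δ hδ] with i hi hY
  obtain ⟨⟨y, φ⟩, hY, hd⟩ := hY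
  refine ⟨(y, φ + Real.pi), (hi.rot _ _ hY).1, ?_⟩
  simpa [Prod.dist_eq] using hd

theorem abs_sin_sub_le (x y : ℝ) : |Real.sin x - Real.sin y| ≤ |x - y| := by
  have := Convex.norm_image_sub_le_of_norm_hasDerivWithin_le (f := Real.sin) (f' := Real.cos)
    (s := univ) (C := 1) (fun x _ => (Real.hasDerivAt_sin x).hasDerivWithinAt)
    (fun x _ => by rw [Real.norm_eq_abs]; exact Real.abs_cos_le_one x)
    convex_univ (mem_univ y) (mem_univ x)
  simpa using this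

theorem Loc.line_aux {𝓕 : Filter ι} [𝓕.NeBot] {Ph : ι → Set (ℂ × ℝ)} {f : ℂ → ℂ} {C Λ : ℝ≥0}
    {z₀ : ℂ} {R : ℝ} (h : Loc 𝓕 Ph f C Λ z₀ R) {z : ℂ} {θ₁ θ₂ : ℝ} (h1 : (z, θ₁) ∈ LT 𝓕 Ph)
    (h2 : (z, θ₂) ∈ LT 𝓕 Ph) (hz : dist z z₀ ≤ R / 2) : ¬ 0 < Real.sin (θ₂ - θ₁) := by
  intro hm
  set m := Real.sin (θ₂ - θ₁) with hmdef
  have hm1 : m ≤ 1 := Real.sin_le_one _
  have hR := h.pos
  set σ : ℝ := min (ro C R) (m / (64 * (C + 1))) with hσ
  have hσ0 : 0 < σ := by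
    have := ro_pos C hR
    positivity
  have hσ1 : σ ≤ ro C R := min_le_left _ _
  have hσ2 : C * σ ≤ m / 64 := by
    have a1 : σ ≤ m / (64 * (C + 1)) := min_le_right _ _
    have a2 : (C : ℝ) * σ ≤ C * (m / (64 * (C + 1))) := mul_le_mul_of_nonneg_left a1 C.coe_nonneg
    have a3 : (C : ℝ) * (m / (64 * (C + 1))) ≤ m / 64 := by
      have : (0 : ℝ) < C + 1 := by positivity
      rw [mul_div_assoc', div_le_div_iff₀ (by positivity) (by norm_num)]
      linarith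
    linarith
  have hσ3 : σ ≤ 1 / 4 := hσ1.trans (ro_le_quarter C R)
  set δ : ℝ := m * σ / 64 with hδ
  have hδ0 : 0 < δ := by positivity
  have hδm : δ ≤ m / 64 := by
    rw [hδ]
    have : m * σ ≤ m * 1 := mul_le_mul_of_nonneg_left (by linarith) hm.le
    linarith
  have hε0 : 0 < m / 64 := by positivity
  have hε1 : m / 64 ≤ 1 / 2 := by linarith
  obtain ⟨i, ⟨hc, α, θa, κa, hα, hda⟩, ⟨_, β, θb, κb, hβ, hdb⟩⟩ :=
    ((h.arcs h1 hz hδ0 hε0 hε1).and (h.arcs h2 hz hδ0 hε0 hε1)).exists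
  rw [Prod.dist_eq, max_lt_iff] at hda hdb
  obtain ⟨hda1, hda2⟩ := hda
  obtain ⟨hdb1, hdb2⟩ := hdb
  simp only at hda1 hda2 hdb1 hdb2
  rw [Real.dist_eq] at hda2 hdb2
  rw [dist_eq_norm] at hda1 hdb1
  have hC0 := C.coe_nonneg
  have hta : ∀ s, |s| ≤ σ → |θa s - θ₁| ≤ m / 16 := by
    intro s hs
    have e1 := hα.turn h.lip.continuous h.bd (hs.trans hσ1)
    have e2 : (C : ℝ) * |s| ≤ C * σ := mul_le_mul_of_nonneg_left hs hC0
    have e3 : |θa s - θ₁| ≤ |θa s - θa 0| + |θa 0 - θ₁| := abs_sub_le _ _ _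
    linarith
  have htb : ∀ s, |s| ≤ σ → |θb s - θ₂| ≤ m / 16 := by
    intro s hs
    have e1 := hβ.turn h.lip.continuous h.bd (hs.trans hσ1)
    have e2 : (C : ℝ) * |s| ≤ C * σ := mul_le_mul_of_nonneg_left hs hC0
    have e3 : |θb s - θ₂| ≤ |θb s - θb 0| + |θb 0 - θ₂| := abs_sub_le _ _ _
    linarith
  have habs : ∀ s ∈ Icc (-σ) σ, |s| ≤ σ := fun s hs => abs_le.2 ⟨hs.1, hs.2⟩
  -- the first arc
  have hn0 : |(inner ℝ (α 0 - z) (Complex.I * ex θ₁) : ℝ)| ≤ δ := by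
    refine (abs_real_inner_le_norm _ _).trans ?_
    rw [norm_I_ex, mul_one]; exact hda1.le
  have ha0 : |(inner ℝ (α 0 - z) (ex θ₁) : ℝ)| ≤ δ := by
    refine (abs_real_inner_le_norm _ _).trans ?_
    rw [norm_ex, mul_one]; exact hda1.le
  rw [abs_le] at hn0 ha0
  have hsin : ∀ s ∈ Icc (-σ) σ, |Real.sin (θa s - θ₁)| ≤ m / 16 := fun s hs =>
    (Real.abs_sin_le_abs).trans (hta s (habs s hs))
  have hna : ∀ s ∈ Icc (-σ) σ, -(δ + m / 16 * σ) ≤ inner ℝ (α s - z) (Complex.I * ex θ₁) ∧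
      (inner ℝ (α s - z) (Complex.I * ex θ₁) : ℝ) ≤ δ + m / 16 * σ := by
    intro s hs
    have hd := hasDerivAt_inner_I_ex hα.hα z θ₁
    rcases le_total 0 s with h0 | h0
    · have a1 := mvt_le hd h0 (lo := -(m / 16)) (fun x hx =>
        (abs_le.1 (hsin x ⟨by linarith [hx.1], hx.2.trans hs.2⟩)).1)
      have a2 := mvt_ge hd h0 (hi := m / 16) (fun x hx =>
        (abs_le.1 (hsin x ⟨by linarith [hx.1], hx.2.trans hs.2⟩)).2)
      have a3 : m / 16 * s ≤ m / 16 * σ := mul_le_mul_of_nonneg_left hs.2 (by positivity)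
      constructor <;> linarith
    · have a1 := mvt_le hd h0 (lo := -(m / 16)) (fun x hx =>
        (abs_le.1 (hsin x ⟨hs.1.trans hx.1, by linarith [hx.2]⟩)).1)
      have a2 := mvt_ge hd h0 (hi := m / 16) (fun x hx =>
        (abs_le.1 (hsin x ⟨hs.1.trans hx.1, by linarith [hx.2]⟩)).2)
      have a3 : m / 16 * (-s) ≤ m / 16 * σ :=
        mul_le_mul_of_nonneg_left (by linarith [hs.1]) (by positivity)
      constructor <;> linarith
  have hcos : ∀ s ∈ Icc (-σ) σ, 7 / 8 ≤ Real.cos (θa s - θ₁) := by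
    intro s hs
    have e1 := hta s (habs s hs)
    rw [← Real.cos_abs]
    have h2 := Real.one_sub_sq_div_two_le_cos (x := |θa s - θ₁|)
    have e2 : |θa s - θ₁| ≤ 1 / 16 := by linarith
    nlinarith [abs_nonneg (θa s - θ₁)]
  have hAr : 7 / 8 * σ - δ ≤ inner ℝ (α σ - z) (ex θ₁) := by
    have := mvt_le (hasDerivAt_inner_ex hα.hα z θ₁) hσ0.le (lo := 7 / 8)
      (fun x hx => hcos x ⟨by linarith [hx.1], hx.2⟩)
    linarith
  have hAl : (inner ℝ (α (-σ) - z) (ex θ₁) : ℝ) ≤ -(7 / 8 * σ - δ) := by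
    have := mvt_le (hasDerivAt_inner_ex hα.hα z θ₁) (x := -σ) (y := 0) (by linarith)
      (lo := 7 / 8) (fun x hx => hcos x ⟨hx.1, by linarith [hx.2]⟩)
    linarith
  -- the second arc
  have hbt : ∀ t ∈ Icc (-(σ / 2)) (σ / 2), |(inner ℝ (β t - z) (ex θ₁) : ℝ)| ≤ σ / 2 + δ := by
    intro t ht
    refine (abs_real_inner_le_norm _ _).trans ?_
    rw [norm_ex, mul_one]
    have e1 := unit_disp hβ.hα t 0
    have e2 : |t - 0| ≤ σ / 2 := by rw [sub_zero]; exact abs_le.2 ⟨ht.1, ht.2⟩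
    have e3 : ‖β t - z‖ ≤ ‖β t - β 0‖ + ‖β 0 - z‖ := norm_sub_le_norm_sub_add_norm_sub _ _ _
    linarith
  have hm0 : |(inner ℝ (β 0 - z) (Complex.I * ex θ₁) : ℝ)| ≤ δ := by
    refine (abs_real_inner_le_norm _ _).trans ?_
    rw [norm_I_ex, mul_one]; exact hdb1.le
  rw [abs_le] at hm0
  have hsb : ∀ s ∈ Icc (-σ) σ, 15 / 16 * m ≤ Real.sin (θb s - θ₁) := by
    intro s hs
    have e1 := htb s (habs s hs)
    have e2 := abs_sin_sub_le (θb s - θ₁) (θ₂ - θ₁)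
    have e3 : θb s - θ₁ - (θ₂ - θ₁) = θb s - θ₂ := by ring
    rw [e3] at e2
    have := (abs_le.1 (e2.trans e1)).1
    linarith
  have hmr : 15 / 16 * m * (σ / 2) - δ ≤ inner ℝ (β (σ / 2) - z) (Complex.I * ex θ₁) := by
    have := mvt_le (hasDerivAt_inner_I_ex hβ.hα z θ₁) (x := 0) (y := σ / 2) (by linarith)
      (lo := 15 / 16 * m) (fun x hx => hsb x ⟨by linarith [hx.1], by linarith [hx.2]⟩)
    linarith
  have hml : (inner ℝ (β (-(σ / 2)) - z) (Complex.I * ex θ₁) : ℝ) ≤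
      -(15 / 16 * m * (σ / 2) - δ) := by
    have := mvt_le (hasDerivAt_inner_I_ex hβ.hα z θ₁) (x := -(σ / 2)) (y := 0) (by linarith)
      (lo := 15 / 16 * m) (fun x hx => hsb x ⟨by linarith [hx.1], by linarith [hx.2]⟩)
    linarith
  have hδσ : δ ≤ σ / 64 := by
    rw [hδ]
    have : m * σ ≤ 1 * σ := mul_le_mul_of_nonneg_right hm1 hσ0.le
    linarith
  have hkey : δ + m / 16 * σ ≤ 15 / 16 * m * (σ / 2) - δ := by
    rw [hδ]; linarith [mul_pos hm hσ0]
  obtain ⟨s, hs, t, ht, hst⟩ := cross hα.hα (a := -σ) (b := σ) (lo := -(δ + m / 16 * σ))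
    (hi := δ + m / 16 * σ) (φ := θ₁) (z := z) (by linarith)
    (fun s hs => (hta s (habs s hs)).trans (by linarith)) hna
    (β := β) (c := -(σ / 2)) (d := σ / 2) (by linarith)
    (fun t _ => (hβ.hα t).continuousAt.continuousWithinAt)
    (fun t ht => by
      have := abs_le.1 (hbt t ht)
      constructor <;> linarith)
    (by linarith) (by linarith)
  have hmem1 := hα.mem s
  have hmem2 := hβ.mem t
  rw [hst] at hmem1
  have hzero := hc.line _ _ _ hmem2 hmem1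
  have ht' : t ∈ Icc (-σ) σ := ⟨by linarith [ht.1], by linarith [ht.2]⟩
  have e1 := htb t (habs t ht')
  have e2 := hta s (habs s hs)
  have e3 := abs_sin_sub_le (θb t - θa s) (θ₂ - θ₁)
  have e4 : |θb t - θa s - (θ₂ - θ₁)| ≤ |θb t - θ₂| + |θa s - θ₁| := by
    have : θb t - θa s - (θ₂ - θ₁) = (θb t - θ₂) - (θa s - θ₁) := by ring
    rw [this]; exact abs_sub _ _
  rw [hzero] at e3
  have := (abs_le.1 (e3.trans e4)).1
  linarith

theorem Loc.line {𝓕 : Filter ι} [𝓕.NeBot] {Ph : ι → Set (ℂ × ℝ)} {f : ℂ → ℂ} {C Λ : ℝ≥0}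
    {z₀ : ℂ} {R : ℝ} (h : Loc 𝓕 Ph f C Λ z₀ R) {z : ℂ} {θ₁ θ₂ : ℝ} (h1 : (z, θ₁) ∈ LT 𝓕 Ph)
    (h2 : (z, θ₂) ∈ LT 𝓕 Ph) (hz : dist z z₀ ≤ R / 2) : Real.sin (θ₂ - θ₁) = 0 := by
  have a1 := h.line_aux h1 h2 hz
  have a2 := h.line_aux h1 (h.rot h2) hz
  have e : Real.sin (θ₂ + Real.pi - θ₁) = -Real.sin (θ₂ - θ₁) := by
    have : θ₂ + Real.pi - θ₁ = (θ₂ - θ₁) + Real.pi := by ring
    rw [this, Real.sin_add_pi]
  rw [e] at a2
  push Not at a1 a2
  linarith

end Pool.Agent.Helper532_SymMCF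

end

section

/-!
The limit set of a sequence of systems of embedded curves is, near each of its points, a single
solution curve of the limit differential equation, if the number of disjoint arcs is bounded.
-/

open Set Filter MeasureTheory Topology Metric
open scoped ContDiff NNReal ENNReal

namespace Pool.Agent.Helper532_SymMCF

theorem ex_add_two_pi (θ : ℝ) (m : ℤ) : ex (θ + m * (2 * Real.pi)) = ex θ := by
  apply Complex.ext
  · rw [ex_re, ex_re, Real.cos_add_int_mul_two_pi]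
  · rw [ex_im, ex_im, Real.sin_add_int_mul_two_pi]

theorem Sol.hasDerivAt {f : ℂ → ℂ} {γ : ℝ → ℂ × ℝ} (h : Sol f γ) {s : ℝ} (hs : s ∈ Ioo (-1 : ℝ) 1) :
    HasDerivAt γ (Fld f (γ s)) s :=
  (h s (Ioo_subset_Icc_self hs)).hasDerivAt (Icc_mem_nhds hs.1 hs.2)

theorem leaf_shift_even {f : ℂ → ℂ} {C Λ : ℝ≥0} (hL : LipschitzWith Λ f) (hC : ∀ z, ‖f z‖ ≤ C)
    {γ γ' : ℝ → ℂ × ℝ} (hγ : Sol f γ) (hγ' : Sol f γ') {s s' : ℝ} (hs : |s| ≤ 1 / 4)
    (hs' : |s'| ≤ 1 / 4) {m : ℤ} (h1 : (γ s).1 = (γ' s').1)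
    (h2 : (γ s).2 = (γ' s').2 + m * (2 * Real.pi)) {u : ℝ} (hu : |u| ≤ 1 / 2) :
    (γ (s + u)).1 = (γ' (s' + u)).1 := by
  rw [abs_le] at hs hs' hu
  have hd1 : ∀ t ∈ Ioo (-(5 / 8 : ℝ)) (5 / 8), HasDerivAt (fun u => γ (s + u))
      (Fld f (γ (s + t))) t := by
    intro t ht
    have := hγ.hasDerivAt (s := s + t) ⟨by linarith [ht.1], by linarith [ht.2]⟩
    exact this.comp_const_add s t
  have hd2 : ∀ t ∈ Ioo (-(5 / 8 : ℝ)) (5 / 8),
      HasDerivAt (fun u => γ' (s' + u) + (0, (m * (2 * Real.pi) : ℝ)))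
      (Fld f (γ' (s' + t) + (0, (m * (2 * Real.pi) : ℝ)))) t := by
    intro t ht
    have := hγ'.hasDerivAt (s := s' + t) ⟨by linarith [ht.1], by linarith [ht.2]⟩
    have h3 := (this.comp_const_add s' t).add_const ((0, (m * (2 * Real.pi) : ℝ)) : ℂ × ℝ)
    convert! h3 using 1
    simp [Fld, ex_add_two_pi]
  have := ODE_solution_unique_of_mem_Ioo (v := fun _ => Fld f) (s := fun _ => univ)
    (K := Λ + C + 1) (a := -(5 / 8)) (b := 5 / 8) (t₀ := 0)
    (fun _ _ => (Fld_lip hL hC).lipschitzOnWith) (by norm_num)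
    (fun t ht => ⟨hd1 t ht, mem_univ _⟩) (fun t ht => ⟨hd2 t ht, mem_univ _⟩)
    (by
      simp only [add_zero]
      apply Prod.ext
      · simpa using h1
      · simpa using h2)
    (show u ∈ Ioo (-(5 / 8 : ℝ)) (5 / 8) from ⟨by linarith [hu.1], by linarith [hu.2]⟩)
  have h5 := congrArg Prod.fst this
  simpa using h5

theorem leaf_shift {f : ℂ → ℂ} {C Λ : ℝ≥0} (hL : LipschitzWith Λ f) (hC : ∀ z, ‖f z‖ ≤ C)
    {γ γ' : ℝ → ℂ × ℝ} (hγ : Sol f γ) (hγ' : Sol f γ') {s s' : ℝ} (hs : |s| ≤ 1 / 4)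
    (hs' : |s'| ≤ 1 / 4) (h1 : (γ s).1 = (γ' s').1)
    (h2 : Real.sin ((γ s).2 - (γ' s').2) = 0) :
    ∃ e : ℝ, |e| = 1 ∧ ∀ u, |u| ≤ 1 / 2 → (γ (s + u)).1 = (γ' (s' + e * u)).1 := by
  obtain ⟨k, hk⟩ := Real.sin_eq_zero_iff.1 h2
  rcases Int.even_or_odd k with ⟨m, hm⟩ | ⟨m, hm⟩
  · refine ⟨1, by simp, fun u hu => ?_⟩
    rw [one_mul]
    refine leaf_shift_even hL hC hγ hγ' hs hs' (m := m) h1 ?_ hu
    rw [hm] at hk
    push_cast at hk
    linarith
  · refine ⟨-1, by simp, fun u hu => ?_⟩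
    have := leaf_shift_even hL hC hγ hγ'.rev (s' := -s') hs (by rwa [abs_neg]) (m := m)
      (by simpa using h1) (by
        rw [hm] at hk
        push_cast at hk
        simp only [neg_neg]
        linarith) hu
    rw [this]
    simp only
    congr 2
    ring

variable {ι : Type*}

/-- A nearly straight arc of length `6 h` whose middle point is close to `z₀`. -/
def GoodArc (h : ℝ) (z₀ : ℂ) (Ph : Set (ℂ × ℝ)) (α : ℝ → ℂ) : Prop :=
  ∃ (θ : ℝ → ℝ) (φ : ℝ), (∀ s, HasDerivAt α (ex (θ s)) s) ∧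
    (∀ s ∈ Icc (-(3 * h)) (3 * h), |θ s - φ| ≤ 1 / 100) ∧ (∀ s, (α s, θ s) ∈ Ph) ∧
    ‖α 0 - z₀‖ ≤ h / 100

/-- The number of disjoint good arcs near `z₀` is bounded. -/
def MB (𝓕 : Filter ι) (Ph : ι → Set (ℂ × ℝ)) (z₀ : ℂ) (h : ℝ) : Prop :=
  ∃ Nmax : ℕ, ∀ (κ : Type) [Fintype κ], (∃ᶠ i in 𝓕, ∃ α : κ → ℝ → ℂ,
    (∀ k, GoodArc h z₀ (Ph i) (α k)) ∧
    Pairwise (Function.onFun Disjoint fun k => α k '' Icc (-(3 * h)) (3 * h))) →
      Fintype.card κ ≤ Nmax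

/-- the arc of the solution -/
def seg (γ : ℝ → ℂ × ℝ) (σ : ℝ) : Set ℂ := (fun s => (γ s).1) '' Icc (-σ) σ

theorem Sol.contOn {f : ℂ → ℂ} {γ : ℝ → ℂ × ℝ} (h : Sol f γ) : ContinuousOn γ (Icc (-1) 1) :=
  fun s hs => (h s hs).continuousWithinAt

theorem seg_compact {f : ℂ → ℂ} {γ : ℝ → ℂ × ℝ} (h : Sol f γ) {σ : ℝ} (hσ : σ ≤ 1) :
    IsCompact (seg γ σ) := by
  apply isCompact_Icc.image_of_continuousOn
  exact (continuous_fst.comp_continuousOn h.contOn).mono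
    (Icc_subset_Icc (by linarith) hσ)

theorem Sol.disp {f : ℂ → ℂ} {γ : ℝ → ℂ × ℝ} (h : Sol f γ) {s t : ℝ} (hs : s ∈ Icc (-1 : ℝ) 1)
    (ht : t ∈ Icc (-1 : ℝ) 1) : ‖(γ s).1 - (γ t).1‖ ≤ |s - t| := by
  have hd : ∀ x ∈ Icc (-1 : ℝ) 1, HasDerivWithinAt (fun s => (γ s).1) (ex (γ x).2)
      (Icc (-1) 1) x := fun x hx =>
    (ContinuousLinearMap.fst ℝ ℂ ℝ).hasFDerivAt.comp_hasDerivWithinAt x (h x hx)
  have := Convex.norm_image_sub_le_of_norm_hasDerivWithin_le (C := 1) hd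
    (fun x _ => (norm_ex _).le) (convex_Icc _ _) ht hs
  simpa using this

theorem dist_le_iff_max (X Y : ℂ × ℝ) (δ : ℝ) : dist X Y ≤ δ ↔ dist X.1 Y.1 ≤ δ ∧ |X.2 - Y.2| ≤ δ := by
  rw [Prod.dist_eq, max_le_iff, Real.dist_eq]

/-- finitely many disjoint arcs of solutions are limits of disjoint arcs -/
theorem Loc.count {𝓕 : Filter ι} [𝓕.NeBot] {Ph : ι → Set (ℂ × ℝ)} {f : ℂ → ℂ} {C Λ : ℝ≥0}
    {z₀ : ℂ} {R : ℝ} (h : Loc 𝓕 Ph f C Λ z₀ R) {hh : ℝ} (hh0 : 0 < hh) (hh1 : 3 * hh ≤ ro C R)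
    (hh2 : C * (3 * hh) ≤ 1 / 400) {Nmax : ℕ}
    (hMB : ∀ (κ : Type) [Fintype κ], (∃ᶠ i in 𝓕, ∃ α : κ → ℝ → ℂ,
    (∀ k, GoodArc hh z₀ (Ph i) (α k)) ∧
    Pairwise (Function.onFun Disjoint fun k => α k '' Icc (-(3 * hh)) (3 * hh))) →
      Fintype.card κ ≤ Nmax) (κ : Type) [Fintype κ] (γ : κ → ℝ → ℂ × ℝ) (hγ : ∀ k, Sol f (γ k))
    (hLT : ∀ k, γ k 0 ∈ LT 𝓕 Ph) (hz : ∀ k, dist (γ k 0).1 z₀ ≤ hh / 200)
    (hdis : Pairwise (Function.onFun Disjoint fun k => seg (γ k) (3 * hh))) :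
    Fintype.card κ ≤ Nmax := by
  apply hMB κ
  have hR := h.pos
  have hρ := ro_le_quarter C R
  have hρR := ro_le C R
  -- a positive lower bound for the distances
  have hd : ∃ d > 0, ∀ k l, k ≠ l → ∀ x ∈ seg (γ k) (3 * hh), ∀ y ∈ seg (γ l) (3 * hh),
      d ≤ dist x y := by
    have h1 : ∀ p : κ × κ, ∃ d > 0, p.1 ≠ p.2 → ∀ x ∈ seg (γ p.1) (3 * hh),
        ∀ y ∈ seg (γ p.2) (3 * hh), d ≤ dist x y := by
      rintro ⟨k, l⟩
      by_cases hkl : k = l
      · exact ⟨1, one_pos, fun hne => absurd hkl hne⟩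
      · have hdj := hdis hkl
        obtain ⟨r, hr0, hr⟩ := Disjoint.exists_thickenings hdj
          (seg_compact (hγ k) (by linarith)) (seg_compact (hγ l) (by linarith)).isClosed
        refine ⟨r, hr0, fun _ x hx y hy => ?_⟩
        by_contra hcon
        push Not at hcon
        have h2 : x ∈ thickening r (seg (γ l) (3 * hh)) :=
          mem_thickening_iff.2 ⟨y, hy, hcon⟩
        exact (disjoint_left.1 hr) (self_subset_thickening hr0 _ hx) h2
    choose d hd0 hd using h1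
    by_cases hne : Nonempty κ
    · obtain ⟨p, _, hp⟩ := Finset.exists_min_image (Finset.univ : Finset (κ × κ)) d
        ⟨(Classical.arbitrary κ, Classical.arbitrary κ), Finset.mem_univ _⟩
      exact ⟨d p, hd0 p, fun k l hkl x hx y hy =>
        (hp (k, l) (Finset.mem_univ _)).trans (hd (k, l) hkl x hx y hy)⟩
    · exact ⟨1, one_pos, fun k => absurd ⟨k⟩ hne⟩
  obtain ⟨d, hd0, hd⟩ := hd
  have hB := Bc_pos C Λ
  set η : ℝ := min (min (1 / 400) (hh / 400)) (min (hh / (400 * Bc C Λ)) (d / (8 * Bc C Λ)))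
    with hη
  have hη0 : 0 < η := by positivity
  have hη1 : η ≤ 1 / 400 := (min_le_left _ _).trans (min_le_left _ _)
  have hη2 : η ≤ hh / 400 := (min_le_left _ _).trans (min_le_right _ _)
  have hη3 : Bc C Λ * (η + η) ≤ d / 4 := by
    have h1 : η ≤ d / (8 * Bc C Λ) := (min_le_right _ _).trans (min_le_right _ _)
    have h2 : Bc C Λ * (η + η) ≤ Bc C Λ * (d / (8 * Bc C Λ) + d / (8 * Bc C Λ)) := by
      apply mul_le_mul_of_nonneg_left _ hB.le
      linarith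
    have h3 : Bc C Λ * (d / (8 * Bc C Λ) + d / (8 * Bc C Λ)) = d / 4 := by
      field_simp; ring
    linarith
  apply Eventually.frequently
  have hev : ∀ᶠ i in 𝓕, ∀ k, CSys f (closedBall z₀ R) η (Ph i) ∧
      ∃ α θ κ', Arc f η (ro C R) (Ph i) α θ κ' ∧ dist (α 0, θ 0) (γ k 0) < η := by
    rw [eventually_all]
    intro k
    exact h.arcs (hLT k) ((hz k).trans (by linarith)) hη0 hη0 (by linarith)
  filter_upwards [hev] with i hi
  choose hc α θ κ' harc hdist using hi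
  have hcmp : ∀ k s, s ∈ Icc (-(3 * hh)) (3 * hh) → dist (α k s) (γ k s).1 ≤ d / 4 := by
    intro k s hs
    have h1 := compare h.lip h.bd (hc k) (harc k) (by linarith) hη0.le (hγ k) (hdist k).le
      (s := s) ((abs_le.2 ⟨hs.1, hs.2⟩).trans hh1)
    have h2 : dist (α k s) (γ k s).1 ≤ dist (α k s, θ k s) (γ k s) := by
      rw [Prod.dist_eq]; exact le_max_left _ _
    exact h2.trans (h1.trans hη3)
  refine ⟨α, fun k => ?_, ?_⟩
  · have h1 := (dist_le_iff_max _ _ _).1 (hdist k).le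
    simp only at h1
    refine ⟨θ k, θ k 0, (harc k).hα, ?_, (harc k).mem, ?_⟩
    · intro s hs
      have h2 := (harc k).turn h.lip.continuous h.bd ((abs_le.2 ⟨hs.1, hs.2⟩).trans hh1)
      have h3 : (C : ℝ) * |s| ≤ C * (3 * hh) :=
        mul_le_mul_of_nonneg_left (abs_le.2 ⟨hs.1, hs.2⟩) C.coe_nonneg
      linarith
    · have h2 := dist_triangle (α k 0) (γ k 0).1 z₀
      rw [← dist_eq_norm]
      linarith [hz k, h1.1]
  · intro k l hkl
    rw [Function.onFun, Set.disjoint_left]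
    rintro x ⟨s, hs, rfl⟩ ⟨t, ht, hst⟩
    have h1 := hcmp k s hs
    have h2 := hcmp l t ht
    have h3 := hd k l hkl _ (mem_image_of_mem _ hs) _ (mem_image_of_mem _ ht)
    rw [hst] at h2
    have h4 := dist_triangle (γ k s).1 (α k s) (γ l t).1
    rw [dist_comm (γ k s).1 (α k s)] at h4
    linarith

/-- The limit set near a point is a single solution curve. -/
theorem Loc.single {𝓕 : Filter ι} [𝓕.NeBot] {Ph : ι → Set (ℂ × ℝ)} {f : ℂ → ℂ} {C Λ : ℝ≥0}
    {z₀ : ℂ} {R : ℝ} (h : Loc 𝓕 Ph f C Λ z₀ R) {hh : ℝ} (hh0 : 0 < hh) (hh1 : 12 * hh ≤ ro C R)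
    (hh2 : C * (3 * hh) ≤ 1 / 400) (hMB : MB 𝓕 Ph z₀ hh) {γ : ℝ → ℂ × ℝ} (hγ : Sol f γ)
    (hγ0 : γ 0 ∈ LT 𝓕 Ph) (hγz : (γ 0).1 = z₀) :
    ∃ ε > 0, ∀ X ∈ LT 𝓕 Ph, dist X.1 z₀ < ε → X.1 ∈ seg γ (12 * hh) := by
  classical
  obtain ⟨Nmax, hMB⟩ := hMB
  have hR := h.pos
  have hρ := ro_le_quarter C R
  have hρR := ro_le C R
  choose fl hfl0 hfl using exists_sol h.lip h.bd
  set D : Set (ℂ × ℝ) := {X | X ∈ LT 𝓕 Ph ∧ dist X.1 z₀ ≤ hh / 200} with hD
  have hcount : ∀ s : Finset (ℂ × ℝ), (∀ X ∈ s, X ∈ D) →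
      (∀ X ∈ s, ∀ Y ∈ s, X ≠ Y → Disjoint (seg (fl X) (3 * hh)) (seg (fl Y) (3 * hh))) →
      s.card ≤ Nmax := by
    intro s hs hdis
    have := h.count hh0 (by linarith) hh2 hMB s (fun X => fl X) (fun X => hfl X)
      (fun X => by rw [hfl0]; exact (hs X X.2).1) (fun X => by rw [hfl0]; exact (hs X X.2).2)
      (fun X Y hXY => hdis X X.2 Y Y.2 (fun e => hXY (Subtype.ext e)))
    simpa using this
  -- a maximal family
  obtain ⟨s, hs1, hs2, hs3⟩ : ∃ s : Finset (ℂ × ℝ), (∀ X ∈ s, X ∈ D) ∧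
      (∀ X ∈ s, ∀ Y ∈ s, X ≠ Y → Disjoint (seg (fl X) (3 * hh)) (seg (fl Y) (3 * hh))) ∧
      ∀ X ∈ D, ∃ Y ∈ s, ¬ Disjoint (seg (fl X) (3 * hh)) (seg (fl Y) (3 * hh)) := by
    by_contra hcon
    push Not at hcon
    have hbuild : ∀ n : ℕ, ∃ s : Finset (ℂ × ℝ), s.card = n ∧ (∀ X ∈ s, X ∈ D) ∧
        (∀ X ∈ s, ∀ Y ∈ s, X ≠ Y → Disjoint (seg (fl X) (3 * hh)) (seg (fl Y) (3 * hh))) := by
      intro n
      induction n with
      | zero => exact ⟨∅, rfl, by simp, by simp⟩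
      | succ n ih =>
        obtain ⟨s, hsn, hs1, hs2⟩ := ih
        obtain ⟨X, hX, hXs⟩ := hcon s hs1 hs2
        have hXn : X ∉ s := by
          intro hmem
          have := hXs X hmem
          have hne : (seg (fl X) (3 * hh)).Nonempty :=
            ⟨_, mem_image_of_mem _ (show (0 : ℝ) ∈ Icc (-(3 * hh)) (3 * hh) from
              ⟨by linarith, by linarith⟩)⟩
          exact hne.ne_empty (disjoint_self.1 this)
        refine ⟨insert X s, by rw [Finset.card_insert_of_notMem hXn, hsn], ?_, ?_⟩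
        · intro Y hY
          rcases Finset.mem_insert.1 hY with rfl | hY
          · exact hX
          · exact hs1 Y hY
        · intro Y hY Z hZ hYZ
          rcases Finset.mem_insert.1 hY with e1 | hY <;> rcases Finset.mem_insert.1 hZ with e2 | hZ
          · exact absurd (e1.trans e2.symm) hYZ
          · rw [e1]; exact hXs Z hZ
          · rw [e2]; exact (hXs Y hY).symm
          · exact hs2 Y hY Z hZ hYZ
    obtain ⟨s, hsn, hs1, hs2⟩ := hbuild (Nmax + 1)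
    have := hcount s hs1 hs2
    omega
  -- points of leaves are limit phases
  have hmem : ∀ X ∈ D, ∀ t, |t| ≤ 12 * hh → fl X t ∈ LT 𝓕 Ph := by
    intro X hX t ht
    exact h.flow (hfl X) (by rw [hfl0]; exact hX.1) (by rw [hfl0]; linarith [hX.2])
      (ht.trans hh1)
  have hpos : ∀ X ∈ D, ∀ t, |t| ≤ 12 * hh → dist (fl X t).1 z₀ ≤ R / 2 := by
    intro X hX t ht
    have h1 : ‖(fl X t).1 - (fl X 0).1‖ ≤ |t - 0| := (hfl X).disp
      ⟨by linarith [(abs_le.1 ht).1], by linarith [(abs_le.1 ht).2]⟩ (by norm_num)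
    rw [hfl0, sub_zero, ← dist_eq_norm] at h1
    have h2 := dist_triangle (fl X t).1 X.1 z₀
    linarith [hX.2]
  have hcover : ∀ X ∈ D, ∃ Y ∈ s, X.1 ∈ seg (fl Y) (6 * hh) := by
    intro X hX
    obtain ⟨Y, hY, hnd⟩ := hs3 X hX
    refine ⟨Y, hY, ?_⟩
    rw [Set.not_disjoint_iff] at hnd
    obtain ⟨w, ⟨a, ha, haw⟩, ⟨b, hb, hbw⟩⟩ := hnd
    simp only at haw hbw
    have ha' : |a| ≤ 3 * hh := abs_le.2 ⟨ha.1, ha.2⟩
    have hb' : |b| ≤ 3 * hh := abs_le.2 ⟨hb.1, hb.2⟩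
    have hX2 := hmem X hX a (by linarith)
    have hY2 := hmem Y (hs1 Y hY) b (by linarith)
    have hpX := hpos X hX a (by linarith)
    have hX3 : (w, (fl X a).2) ∈ LT 𝓕 Ph := by rw [← haw]; exact hX2
    have hY3 : (w, (fl Y b).2) ∈ LT 𝓕 Ph := by rw [← hbw]; exact hY2
    have hsin := h.line hY3 hX3 (by rw [← haw]; exact hpX)
    obtain ⟨e, he, hsh⟩ := leaf_shift h.lip h.bd (hfl X) (hfl Y) (s := a) (s' := b)
      (by linarith) (by linarith) (haw.trans hbw.symm) hsin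
    have := hsh (-a) (by rw [abs_neg]; linarith)
    rw [add_neg_cancel, hfl0] at this
    rw [this]
    apply mem_image_of_mem
    have h3 : |b + e * -a| ≤ 6 * hh := by
      calc |b + e * -a| ≤ |b| + |e * -a| := abs_add_le _ _
        _ = |b| + |a| := by rw [abs_mul, he, one_mul, abs_neg]
        _ ≤ 6 * hh := by linarith
    exact ⟨(abs_le.1 h3).1, (abs_le.1 h3).2⟩
  -- leaves which do not contain z₀ stay away from it
  have hε : ∃ ε > 0, ∀ Y ∈ s, z₀ ∉ seg (fl Y) (6 * hh) → ∀ w ∈ seg (fl Y) (6 * hh),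
      ε ≤ dist w z₀ := by
    have h1 : ∀ Y : ℂ × ℝ, ∃ ε > 0, z₀ ∉ seg (fl Y) (6 * hh) → ∀ w ∈ seg (fl Y) (6 * hh),
        ε ≤ dist w z₀ := by
      intro Y
      by_cases hz : z₀ ∈ seg (fl Y) (6 * hh)
      · exact ⟨1, one_pos, fun hn => absurd hz hn⟩
      · have hcl := (seg_compact (hfl Y) (σ := 6 * hh) (by linarith)).isClosed
        obtain ⟨ε, hε0, hε⟩ := Metric.isOpen_iff.1 hcl.isOpen_compl z₀ hz
        refine ⟨ε, hε0, fun _ w hw => ?_⟩
        by_contra hcon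
        push Not at hcon
        exact hε (mem_ball.2 hcon) hw
    choose ε hε0 hε using h1
    by_cases hne : s.Nonempty
    · obtain ⟨Y, _, hY⟩ := Finset.exists_min_image s ε hne
      exact ⟨ε Y, hε0 Y, fun Z hZ hn w hw => (hY Z hZ).trans (hε Z hn w hw)⟩
    · exact ⟨1, one_pos, fun Y hY => absurd ⟨Y, hY⟩ hne⟩
  obtain ⟨ε, hε0, hε⟩ := hε
  refine ⟨min ε (hh / 200), by positivity, fun X hX hXd => ?_⟩
  obtain ⟨Y, hY, hXY⟩ := hcover X ⟨hX, (hXd.trans_le (min_le_right _ _)).le⟩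
  by_cases hz : z₀ ∈ seg (fl Y) (6 * hh)
  · obtain ⟨a, ha, haz⟩ := hz
    simp only at haz
    have ha' : |a| ≤ 6 * hh := abs_le.2 ⟨ha.1, ha.2⟩
    have hY2 := hmem Y (hs1 Y hY) a (by linarith)
    have hY3 : (z₀, (fl Y a).2) ∈ LT 𝓕 Ph := by rw [← haz]; exact hY2
    have hγ3 : (z₀, (γ 0).2) ∈ LT 𝓕 Ph := by rw [← hγz]; exact hγ0
    have hsin := h.line hγ3 hY3 (by rw [dist_self]; linarith)
    obtain ⟨e, he, hsh⟩ := leaf_shift h.lip h.bd (hfl Y) hγ (s := a) (s' := 0)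
      (by linarith) (by simp) (haz.trans hγz.symm) hsin
    obtain ⟨b, hb, hbX⟩ := hXY
    simp only at hbX
    have hb' : |b| ≤ 6 * hh := abs_le.2 ⟨hb.1, hb.2⟩
    have h4 : |b - a| ≤ 12 * hh := (abs_sub _ _).trans (by linarith)
    have := hsh (b - a) (by linarith)
    rw [add_sub_cancel, hbX, zero_add] at this
    rw [this]
    apply mem_image_of_mem
    have h3 : |e * (b - a)| ≤ 12 * hh := by rw [abs_mul, he, one_mul]; exact h4
    exact ⟨(abs_le.1 h3).1, (abs_le.1 h3).2⟩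
  · exfalso
    have := hε Y hY hz _ hXY
    linarith [hXd.trans_le (min_le_left _ _)]

end Pool.Agent.Helper532_SymMCF

end

section

/-!
Unit speed parametrisation of closed plane curves.
-/

open Set Filter MeasureTheory Topology Metric Module
open scoped ContDiff NNReal ENNReal

namespace Pool.Agent.Helper532_SymMCF

theorem norm_tg {v : ℂ} (hv : v ≠ 0) : ‖tg v‖ = 1 := by
  unfold tg
  rw [norm_div, Complex.norm_real, norm_norm, div_self (norm_ne_zero_iff.2 hv)]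

/-- Existence of the inverse of a primitive of a positive periodic function. -/
theorem exists_inv {sp : ℝ → ℝ} (hc : Continuous sp) (hpos : ∀ u, 0 < sp u)
    (hper : ∀ u, sp (u + 1) = sp u) (u₀ : ℝ) :
    ∃ υ : ℝ → ℝ, υ 0 = u₀ ∧ (∀ s, HasDerivAt υ (sp (υ s))⁻¹ s) ∧
      (∀ s, υ (s + ∫ u in (0 : ℝ)..1, sp u) = υ s + 1) ∧ 0 < ∫ u in (0 : ℝ)..1, sp u := by
  set σ : ℝ → ℝ := fun u => ∫ x in u₀..u, sp x with hσ
  have hd : ∀ u, HasDerivAt σ (sp u) u := fun u =>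
    intervalIntegral.integral_hasDerivAt_right (hc.intervalIntegrable _ _)
      hc.stronglyMeasurable.stronglyMeasurableAtFilter hc.continuousAt
  have hmono : StrictMono σ := strictMono_of_deriv_pos fun u => by rw [(hd u).deriv]; exact hpos u
  have hcσ : Continuous σ := continuous_iff_continuousAt.2 fun u => (hd u).continuousAt
  set L : ℝ := ∫ u in (0 : ℝ)..1, sp u with hL
  have hLpos : 0 < L := by
    have h1 : L = (∫ x in u₀..1, sp x) - ∫ x in u₀..0, sp x :=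
      (intervalIntegral.integral_interval_sub_left (hc.intervalIntegrable _ _)
        (hc.intervalIntegrable _ _)).symm
    have h2 := hmono (show (0 : ℝ) < 1 by norm_num)
    simp only [hσ] at h2
    rw [h1]; linarith
  have hP : Function.Periodic sp 1 := hper
  have hshift : ∀ u, σ (u + 1) = σ u + L := by
    intro u
    have h1 : σ (u + 1) = σ u + ∫ x in u..(u + 1), sp x := by
      simp only [hσ]
      rw [intervalIntegral.integral_add_adjacent_intervals (hc.intervalIntegrable _ _)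
        (hc.intervalIntegrable _ _)]
    rw [h1, hP.intervalIntegral_add_eq u 0, zero_add]
  have hshiftn : ∀ n : ℕ, ∀ u, σ (u + n) = σ u + n * L := by
    intro n
    induction n with
    | zero => intro u; simp
    | succ n ih =>
      intro u
      have : u + ((n + 1 : ℕ) : ℝ) = (u + n) + 1 := by push_cast; ring
      rw [this, hshift, ih]
      push_cast; ring
  have hσ0 : σ u₀ = 0 := by simp [hσ]
  have hsurj : Function.Surjective σ := by
    intro s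
    obtain ⟨n, hn⟩ := exists_nat_ge (|s| / L)
    rw [div_le_iff₀ hLpos] at hn
    have h1 : s ≤ σ (u₀ + n) := by
      rw [hshiftn, hσ0, zero_add]
      exact (le_abs_self s).trans hn
    have h2 : σ (u₀ - n) ≤ s := by
      have := hshiftn n (u₀ - n)
      rw [sub_add_cancel, hσ0] at this
      have := neg_abs_le s
      linarith
    have h3 : u₀ - n ≤ u₀ + n := by
      have : (0 : ℝ) ≤ n := Nat.cast_nonneg _
      linarith
    obtain ⟨u, _, hu⟩ := intermediate_value_Icc h3 hcσ.continuousOn ⟨h2, h1⟩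
    exact ⟨u, hu⟩
  set e := StrictMono.orderIsoOfSurjective σ hmono hsurj with he
  have heσ : ∀ u, e u = σ u := fun u => rfl
  have h1 : ∀ s, σ (e.symm s) = s := fun s => by rw [← heσ]; exact e.apply_symm_apply s
  refine ⟨e.symm, ?_, ?_, ?_, hLpos⟩
  · apply hmono.injective
    rw [h1, hσ0]
  · intro s
    exact HasDerivAt.of_local_left_inverse (f := σ) e.symm.continuous.continuousAt (hd _)
      (hpos _).ne' (Eventually.of_forall h1)
  · intro s
    apply hmono.injective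
    rw [h1, hshift, h1]

theorem tg_smul (v : ℂ) : tg v = (‖v‖⁻¹ : ℝ) • v := by
  unfold tg
  rw [Complex.real_smul, Complex.ofReal_inv]
  ring

theorem re_tg (v : ℂ) : (tg v).re = v.re / ‖v‖ := by
  rw [tg_smul, Complex.smul_re, smul_eq_mul, div_eq_inv_mul]

theorem im_tg (v : ℂ) : (tg v).im = v.im / ‖v‖ := by
  rw [tg_smul, Complex.smul_im, smul_eq_mul, div_eq_inv_mul]

theorem re_nu (v : ℂ) : (nu v).re = -v.im / ‖v‖ := by
  unfold nu
  simp [im_tg]
  ring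

theorem im_nu (v : ℂ) : (nu v).im = v.re / ‖v‖ := by
  unfold nu
  simp [re_tg]

theorem norm_sq_C (v : ℂ) : ‖v‖ ^ 2 = v.re ^ 2 + v.im ^ 2 := by
  rw [← Complex.normSq_eq_norm_sq, Complex.normSq_apply]; ring

theorem inner_nu (w v : ℂ) : inner ℝ w (nu v) = (-v.im * w.re + v.re * w.im) / ‖v‖ := by
  rw [Complex.inner]
  simp only [Complex.mul_re, Complex.conj_re, Complex.conj_im, re_nu, im_nu]
  ring

/-- derivative of the unit tangent -/
theorem tg_deriv {γ : ℝ → ℂ} {u : ℝ} (h2 : DifferentiableAt ℝ (deriv γ) u)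
    (h0 : deriv γ u ≠ 0) :
    HasDerivAt (fun u => tg (deriv γ u)) ((curv γ u * ‖deriv γ u‖ : ℝ) • nu (deriv γ u)) u := by
  have hn : 0 < ‖deriv γ u‖ := norm_pos_iff.2 h0
  have hd := h2.hasDerivAt
  set w := deriv γ u with hw
  set w' := deriv (deriv γ) u with hw'
  have h1 : HasDerivAt (fun u => ‖deriv γ u‖) (inner ℝ w w' / ‖w‖) u := by
    have h3 : HasDerivAt (fun u => ‖deriv γ u‖ ^ 2) (2 * inner ℝ w w') u := hd.norm_sq
    have h4 := h3.sqrt (by positivity)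
    have h5 : (fun u => √(‖deriv γ u‖ ^ 2)) = fun u => ‖deriv γ u‖ := by
      ext x; exact Real.sqrt_sq (norm_nonneg _)
    rw [h5, Real.sqrt_sq (norm_nonneg _)] at h4
    refine h4.congr_deriv ?_
    rw [← hw]
    field_simp
  have h2' : HasDerivAt (fun u => (‖deriv γ u‖⁻¹ : ℝ) • deriv γ u)
      ((‖w‖⁻¹ : ℝ) • w' + (-(inner ℝ w w' / ‖w‖) / ‖w‖ ^ 2) • w) u := (h1.inv hn.ne').smul hd
  have h3 : (fun u => tg (deriv γ u)) = fun u => (‖deriv γ u‖⁻¹ : ℝ) • deriv γ u := by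
    ext x; rw [tg_smul]
  rw [h3]
  refine h2'.congr_deriv ?_
  have hsq := norm_sq_C w
  have hc : curv γ u = (-w.im * w'.re + w.re * w'.im) / ‖w‖ / ‖w‖ ^ 2 := by
    unfold curv
    rw [inner_nu]
  have hin : inner ℝ w w' = w.re * w'.re + w.im * w'.im := by
    rw [Complex.inner]; simp; ring
  rw [hc, hin]
  apply Complex.ext
  · simp only [Complex.add_re, Complex.real_smul, Complex.mul_re, Complex.ofReal_re,
      Complex.ofReal_im, re_nu, zero_mul, sub_zero]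
    field_simp
    rw [hsq]
    ring
  · simp only [Complex.add_im, Complex.real_smul, Complex.mul_im, Complex.ofReal_re,
      Complex.ofReal_im, im_nu, zero_mul, add_zero]
    field_simp
    rw [hsq]
    ring

/-- lifting of the angle -/
theorem lift_angle {τ : ℝ → ℂ} {κ : ℝ → ℝ} {θ₀ : ℝ} (hκ : Continuous κ)
    (hd : ∀ s, HasDerivAt τ (κ s • (Complex.I * τ s)) s) (h0 : ex θ₀ = τ 0) :
    ∃ θ : ℝ → ℝ, θ 0 = θ₀ ∧ (∀ s, HasDerivAt θ (κ s) s) ∧ ∀ s, ex (θ s) = τ s := by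
  set θ : ℝ → ℝ := fun s => θ₀ + ∫ x in (0 : ℝ)..s, κ x with hθ
  have hθd : ∀ s, HasDerivAt θ (κ s) s := fun s =>
    (intervalIntegral.integral_hasDerivAt_right (hκ.intervalIntegrable _ _)
      hκ.stronglyMeasurable.stronglyMeasurableAtFilter hκ.continuousAt).const_add θ₀
  refine ⟨θ, by simp [hθ], hθd, fun s => ?_⟩
  have hex : ∀ s, HasDerivAt (fun s => ex (-(θ s))) ((-κ s) • (Complex.I * ex (-(θ s)))) s := by
    intro s
    have h1 : HasDerivAt (fun s => -(θ s)) (-κ s) s := (hθd s).neg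
    exact HasDerivAt.scomp s (hasDerivAt_ex (-(θ s))) h1
  have hprod : ∀ s, HasDerivAt (fun s => τ s * ex (-(θ s))) 0 s := by
    intro s
    refine ((hd s).mul (hex s)).congr_deriv ?_
    simp only [Complex.real_smul]
    push_cast
    ring
  have hconst : ∀ s, τ s * ex (-(θ s)) = τ 0 * ex (-(θ 0)) := fun s =>
    is_const_of_deriv_eq_zero (fun s => (hprod s).differentiableAt) (fun s => (hprod s).deriv) s 0
  have hinv : ∀ x : ℝ, ex x * ex (-x) = 1 := by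
    intro x
    unfold ex
    rw [← Complex.exp_add]
    simp
  have hθ0 : θ 0 = θ₀ := by simp [hθ]
  have h1 := hconst s
  rw [hθ0, ← h0, hinv] at h1
  have h2 := hinv (θ s)
  have h3 : ex (-(θ s)) ≠ 0 := by
    intro h
    rw [h, mul_zero] at h2
    exact zero_ne_one h2
  apply mul_right_cancel₀ h3
  rw [h1, h2]

theorem cont_curv {γ : ℝ → ℂ} (hγ : ContDiff ℝ 2 γ) (himm : ∀ u, deriv γ u ≠ 0) :
    Continuous (curv γ) ∧ Continuous (fun u => nu (deriv γ u)) := by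
  have h1 : ContDiff ℝ 1 (deriv γ) := by
    have : ContDiff ℝ (1 + 1) γ := by
      rw [one_add_one_eq_two]; exact hγ
    exact (contDiff_succ_iff_deriv.1 this).2.2
  have h2 : Continuous (deriv γ) := h1.continuous
  have h3 : Continuous (deriv (deriv γ)) := by
    have : ContDiff ℝ (0 + 1) (deriv γ) := by rw [zero_add]; exact h1
    exact (contDiff_succ_iff_deriv.1 this).2.2.continuous
  have h4 : Continuous (fun u => nu (deriv γ u)) := by
    have : (fun u => nu (deriv γ u)) = fun u => Complex.I * ((‖deriv γ u‖⁻¹ : ℝ) • deriv γ u) := by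
      ext x; rw [nu, tg_smul]
    rw [this]
    exact continuous_const.mul ((h2.norm.inv₀ (fun u => norm_ne_zero_iff.2 (himm u))).smul h2)
  refine ⟨?_, h4⟩
  unfold curv
  exact (h3.inner h4).div (h2.norm.pow 2) (fun u => pow_ne_zero 2 (norm_ne_zero_iff.2 (himm u)))

/-- One closed curve, rescaled by the factor `l` around `z₀`, positive direction. -/
theorem curve_arc_fwd {γ : ℝ → ℂ} (hγ : ContDiff ℝ 2 γ) (hper : ∀ u, γ (u + 1) = γ u)
    (himm : ∀ u, deriv γ u ≠ 0) {l : ℝ} (hl : 0 < l) (z₀ : ℂ) {f : ℂ → ℂ} (hf : Continuous f)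
    {K : Set ℂ} {ε : ℝ}
    (hE : ∀ x y, x ≤ y → y ≤ x + 1 → ∫ u in x..y, l * ‖deriv γ u‖ ≤ 1 →
      (∀ u ∈ Icc x y, l • (γ u - z₀) ∈ K) →
      ∫ u in x..y, |curv γ u / l - inner ℝ (f (l • (γ u - z₀))) (nu (deriv γ u))| *
        (l * ‖deriv γ u‖) ≤ ε) (u₀ θ₀ : ℝ) (h0 : ex θ₀ = tg (deriv γ u₀)) :
    ∃ (α : ℝ → ℂ) (θ κ : ℝ → ℝ) (L : ℝ), 0 < L ∧ α 0 = l • (γ u₀ - z₀) ∧ θ 0 = θ₀ ∧
    (∀ s, HasDerivAt α (ex (θ s)) s) ∧ (∀ s, HasDerivAt θ (κ s) s) ∧ Continuous κ ∧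
    (∀ s, ∃ u, α s = l • (γ u - z₀) ∧ ex (θ s) = tg (deriv γ u)) ∧ (∀ s, α (s + L) = α s) ∧
    ∀ a ℓ, 0 ≤ ℓ → ℓ ≤ L → ℓ ≤ 1 → (∀ s ∈ Icc a (a + ℓ), α s ∈ K) →
      ∫ s in a..(a + ℓ), |κ s - inner ℝ (f (α s)) (Complex.I * ex (θ s))| ≤ ε := by
  have h1 : ContDiff ℝ 1 (deriv γ) := by
    have : ContDiff ℝ (1 + 1) γ := by
      rw [one_add_one_eq_two]; exact hγ
    exact (contDiff_succ_iff_deriv.1 this).2.2
  have hcd : Continuous (deriv γ) := h1.continuous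
  have hdγ : ∀ u, HasDerivAt γ (deriv γ u) u := fun u =>
    (hγ.differentiable (by norm_num) u).hasDerivAt
  have hd2 : ∀ u, DifferentiableAt ℝ (deriv γ) u := fun u => h1.differentiable one_ne_zero u
  obtain ⟨hcc, hcn⟩ := cont_curv hγ himm
  set sp : ℝ → ℝ := fun u => l * ‖deriv γ u‖ with hsp
  have hspc : Continuous sp := continuous_const.mul hcd.norm
  have hsppos : ∀ u, 0 < sp u := fun u => mul_pos hl (norm_pos_iff.2 (himm u))
  have hspper : ∀ u, sp (u + 1) = sp u := by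
    intro u
    have : deriv γ (u + 1) = deriv γ u := by
      rw [← deriv_comp_add_const]
      congr 1
      ext x; exact hper x
    simp only [hsp, this]
  obtain ⟨υ, hυ0, hυd, hυL, hL⟩ := exists_inv hspc hsppos hspper u₀
  set L := ∫ u in (0 : ℝ)..1, sp u with hLdef
  have hυc : Continuous υ := continuous_iff_continuousAt.2 fun s => (hυd s).continuousAt
  have hυm : StrictMono υ := strictMono_of_deriv_pos fun s => by
    rw [(hυd s).deriv]; exact inv_pos.2 (hsppos _)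
  set τ : ℝ → ℂ := fun s => tg (deriv γ (υ s)) with hτ
  set κ : ℝ → ℝ := fun s => curv γ (υ s) / l with hκ
  have hκc : Continuous κ := (hcc.comp hυc).div_const _
  have hτd : ∀ s, HasDerivAt τ (κ s • (Complex.I * τ s)) s := by
    intro s
    have h2 := HasDerivAt.scomp s (tg_deriv (hd2 (υ s)) (himm (υ s))) (hυd s)
    refine h2.congr_deriv ?_
    have hn : ‖deriv γ (υ s)‖ ≠ 0 := norm_ne_zero_iff.2 (himm _)
    rw [smul_smul]
    have e : (sp (υ s))⁻¹ * (curv γ (υ s) * ‖deriv γ (υ s)‖) = κ s := by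
      simp only [hsp, hκ]
      field_simp
    rw [e]
    rfl
  obtain ⟨θ, hθ0, hθd, hθτ⟩ := lift_angle hκc hτd (θ₀ := θ₀) (by rw [h0, hτ]; simp only [hυ0])
  refine ⟨fun s => l • (γ (υ s) - z₀), θ, κ, L, hL, ?_, hθ0, ?_, hθd, hκc, ?_, ?_, ?_⟩
  · simp only [hυ0]
  · intro s
    have h2 := (HasDerivAt.scomp s ((hdγ (υ s)).sub_const z₀) (hυd s)).const_smul l
    refine h2.congr_deriv ?_
    rw [hθτ, hτ]
    simp only
    rw [tg_smul, smul_smul]
    have hn : ‖deriv γ (υ s)‖ ≠ 0 := norm_ne_zero_iff.2 (himm _)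
    congr 1
    simp only [hsp]
    field_simp
  · intro s
    exact ⟨υ s, rfl, hθτ s⟩
  · intro s
    simp only [hυL, hper]
  · intro a ℓ hℓ0 hℓL hℓ1 hK
    have hax : υ a ≤ υ (a + ℓ) := hυm.monotone (by linarith)
    have hay : υ (a + ℓ) ≤ υ a + 1 := by
      rw [← hυL]
      exact hυm.monotone (by linarith)
    have hυ'c : Continuous fun s => (sp (υ s))⁻¹ :=
      (hspc.comp hυc).inv₀ (fun s => (hsppos _).ne')
    have hcov : ∀ g : ℝ → ℝ, Continuous g →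
        ∫ s in a..(a + ℓ), g (υ s) * (sp (υ s))⁻¹ = ∫ u in (υ a)..(υ (a + ℓ)), g u := by
      intro g hg
      exact intervalIntegral.integral_comp_mul_deriv (fun s _ => hυd s) hυ'c.continuousOn hg
    have hlen : ∫ u in (υ a)..(υ (a + ℓ)), l * ‖deriv γ u‖ ≤ 1 := by
      have := hcov sp hspc
      have h3 : ∀ s, sp (υ s) * (sp (υ s))⁻¹ = 1 := fun s => mul_inv_cancel₀ (hsppos _).ne'
      simp only [h3] at this
      rw [intervalIntegral.integral_const] at this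
      simp only [add_sub_cancel_left, smul_eq_mul, mul_one] at this
      rw [← this]
      exact hℓ1
    have hin : ∀ u ∈ Icc (υ a) (υ (a + ℓ)), l • (γ u - z₀) ∈ K := by
      intro u hu
      obtain ⟨s, hs, hsu⟩ := intermediate_value_Icc (show a ≤ a + ℓ by linarith)
        hυc.continuousOn hu
      rw [← hsu]
      exact hK s hs
    have hmain := hE (υ a) (υ (a + ℓ)) hax hay hlen hin
    have hγc : Continuous γ := hγ.continuous
    have hg : Continuous fun u => |curv γ u / l - inner ℝ (f (l • (γ u - z₀))) (nu (deriv γ u))| *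
        (l * ‖deriv γ u‖) := by
      apply Continuous.mul _ hspc
      apply Continuous.abs
      exact (hcc.div_const _).sub ((hf.comp ((hγc.sub continuous_const).const_smul l)).inner hcn)
    have h4 := hcov _ hg
    rw [← h4] at hmain
    refine le_trans (le_of_eq ?_) hmain
    apply intervalIntegral.integral_congr
    intro s _
    simp only
    rw [hθτ]
    have h5 : sp (υ s) = l * ‖deriv γ (υ s)‖ := rfl
    rw [← h5, mul_assoc, mul_inv_cancel₀ (hsppos _).ne', mul_one]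
    rfl

/-- One closed curve, rescaled by the factor `l` around `z₀`. -/
theorem curve_arc {γ : ℝ → ℂ} (hγ : ContDiff ℝ 2 γ) (hper : ∀ u, γ (u + 1) = γ u)
    (himm : ∀ u, deriv γ u ≠ 0) {l : ℝ} (hl : 0 < l) (z₀ : ℂ) {f : ℂ → ℂ} (hf : Continuous f)
    {K : Set ℂ} {ε : ℝ}
    (hE : ∀ x y, x ≤ y → y ≤ x + 1 → ∫ u in x..y, l * ‖deriv γ u‖ ≤ 1 →
      (∀ u ∈ Icc x y, l • (γ u - z₀) ∈ K) →
      ∫ u in x..y, |curv γ u / l - inner ℝ (f (l • (γ u - z₀))) (nu (deriv γ u))| *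
        (l * ‖deriv γ u‖) ≤ ε) (u₀ θ₀ : ℝ)
    (h0 : ex θ₀ = tg (deriv γ u₀) ∨ ex θ₀ = -tg (deriv γ u₀)) :
    ∃ (α : ℝ → ℂ) (θ κ : ℝ → ℝ) (L : ℝ), 0 < L ∧ α 0 = l • (γ u₀ - z₀) ∧ θ 0 = θ₀ ∧
    (∀ s, HasDerivAt α (ex (θ s)) s) ∧ (∀ s, HasDerivAt θ (κ s) s) ∧ Continuous κ ∧
    (∀ s, ∃ u, α s = l • (γ u - z₀) ∧
      (ex (θ s) = tg (deriv γ u) ∨ ex (θ s) = -tg (deriv γ u))) ∧ (∀ s, α (s + L) = α s) ∧
    ∀ a ℓ, 0 ≤ ℓ → ℓ ≤ L → ℓ ≤ 1 → (∀ s ∈ Icc a (a + ℓ), α s ∈ K) →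
      ∫ s in a..(a + ℓ), |κ s - inner ℝ (f (α s)) (Complex.I * ex (θ s))| ≤ ε := by
  rcases h0 with h0 | h0
  · obtain ⟨α, θ, κ, L, hL, hα0, hθ0, hα, hθ, hκ, hmem, hperL, hint⟩ :=
      curve_arc_fwd hγ hper himm hl z₀ hf hE u₀ θ₀ h0
    refine ⟨α, θ, κ, L, hL, hα0, hθ0, hα, hθ, hκ, fun s => ?_, hperL, hint⟩
    obtain ⟨u, h1, h2⟩ := hmem s
    exact ⟨u, h1, Or.inl h2⟩
  · obtain ⟨α, θ, κ, L, hL, hα0, hθ0, hα, hθ, hκ, hmem, hperL, hint⟩ :=
      curve_arc_fwd hγ hper himm hl z₀ hf hE u₀ (θ₀ + Real.pi) (by rw [ex_add_pi, h0, neg_neg])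
    have hsub : ∀ x : ℝ, ex (x - Real.pi) = - ex x := by
      intro x
      have := ex_add_pi (x - Real.pi)
      rw [sub_add_cancel] at this
      rw [this, neg_neg]
    refine ⟨fun s => α (-s), fun s => θ (-s) - Real.pi, fun s => -κ (-s), L, hL, ?_, ?_, ?_, ?_, ?_,
      ?_, ?_, ?_⟩
    · simp only [neg_zero]; exact hα0
    · simp only [neg_zero, hθ0]; ring
    · intro s
      have := HasDerivAt.scomp s (hα (-s)) (hasDerivAt_neg s)
      refine this.congr_deriv ?_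
      rw [hsub]
      simp
    · intro s
      have := (HasDerivAt.comp s (hθ (-s)) (hasDerivAt_neg s)).sub_const Real.pi
      refine this.congr_deriv ?_
      simp
    · exact (hκ.comp continuous_neg).neg
    · intro s
      obtain ⟨u, h1, h2⟩ := hmem (-s)
      refine ⟨u, h1, Or.inr ?_⟩
      rw [hsub, h2]
    · intro s
      have := hperL (-s - L)
      rw [sub_add_cancel] at this
      simp only
      rw [this]
      congr 1
      ring
    · intro a ℓ h1 h2 h3 h4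
      have h5 := hint (-(a + ℓ)) ℓ h1 h2 h3 (fun s hs => by
        have := h4 (-s) ⟨by linarith [hs.2], by linarith [hs.1]⟩
        simpa using this)
      have h6 : -(a + ℓ) + ℓ = -a := by ring
      rw [h6] at h5
      refine le_trans (le_of_eq ?_) h5
      rw [← intervalIntegral.integral_comp_neg]
      apply intervalIntegral.integral_congr
      intro s _
      simp only
      rw [hsub, mul_neg, inner_neg_right, ← abs_neg]
      congr 1
      ring

/-- The phases of the rescaled curves. -/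
def Phs {N : ℕ} (γ : Fin N → ℝ → ℂ) (l : ℝ) (z₀ : ℂ) : Set (ℂ × ℝ) :=
  {X | ∃ j u, X.1 = l • (γ j u - z₀) ∧ (ex X.2 = tg (deriv (γ j) u) ∨ ex X.2 = -tg (deriv (γ j) u))}

theorem csys_of {N : ℕ} {γ : Fin N → ℝ → ℂ} (hγ : ∀ j, ContDiff ℝ 2 (γ j))
    (hper : ∀ j u, γ j (u + 1) = γ j u) (himm : ∀ j u, deriv (γ j) u ≠ 0)
    (hemb : ∀ j j' u u', γ j u = γ j' u' → j = j' ∧ ∃ k : ℤ, u' = u + k)
    {l : ℝ} (hl : 0 < l) (z₀ : ℂ) {f : ℂ → ℂ} (hf : Continuous f)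
    {K : Set ℂ} {ε : ℝ}
    (hE : ∀ j, ∀ x y, x ≤ y → y ≤ x + 1 → ∫ u in x..y, l * ‖deriv (γ j) u‖ ≤ 1 →
      (∀ u ∈ Icc x y, l • (γ j u - z₀) ∈ K) →
      ∫ u in x..y, |curv (γ j) u / l - inner ℝ (f (l • (γ j u - z₀))) (nu (deriv (γ j) u))| *
        (l * ‖deriv (γ j) u‖) ≤ ε) : CSys f K ε (Phs γ l z₀) := by
  have hdper : ∀ j, ∀ k : ℤ, ∀ u, deriv (γ j) (u + k) = deriv (γ j) u := by
    intro j k u
    have h1 : Function.Periodic (deriv (γ j)) 1 := by
      intro u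
      rw [← deriv_comp_add_const]
      congr 1
      ext x; exact hper j x
    have := h1.int_mul k u
    rwa [mul_one] at this
  refine ⟨?_, ?_, ?_⟩
  · rintro z θ θ' ⟨j, u, h1, h2⟩ ⟨j', u', h1', h2'⟩
    simp only at h1 h1' h2 h2'
    have h3 : γ j u = γ j' u' := by
      rw [h1] at h1'
      have := smul_right_injective ℂ hl.ne' h1'
      exact sub_left_injective this
    obtain ⟨rfl, k, rfl⟩ := hemb _ _ _ _ h3
    rw [hdper] at h2'
    have h4 : ex θ = ex θ' ∨ ex θ = -ex θ' := by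
      rcases h2 with h2 | h2 <;> rcases h2' with h2' | h2' <;> rw [h2, h2'] <;> simp
    have h5 : inner ℝ (ex θ) (Complex.I * ex θ') = 0 := by
      rcases h4 with h4 | h4
      · rw [h4, inner_ex_I]; simp
      · rw [h4, inner_neg_left, inner_ex_I]; simp
    rwa [inner_ex_I] at h5
  · rintro z θ ⟨j, u, h1, h2⟩
    have hsub : ex (θ - Real.pi) = - ex θ := by
      have := ex_add_pi (θ - Real.pi)
      rw [sub_add_cancel] at this
      rw [this, neg_neg]
    simp only at h1 h2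
    refine ⟨⟨j, u, h1, ?_⟩, ⟨j, u, h1, ?_⟩⟩
    · simp only [ex_add_pi]
      rcases h2 with h2 | h2
      · right; rw [h2]
      · left; rw [h2, neg_neg]
    · simp only [hsub]
      rcases h2 with h2 | h2
      · right; rw [h2]
      · left; rw [h2, neg_neg]
  · rintro z θ₀ ⟨j, u, h1, h2⟩
    simp only at h1 h2
    obtain ⟨α, θ, κ, L, hL, hα0, hθ0, hα, hθ, hκ, hmem, hperL, hint⟩ :=
      curve_arc (hγ j) (hper j) (himm j) hl z₀ hf (hE j) u θ₀ h2
    refine ⟨α, θ, κ, L, hL, by rw [hα0, h1], hθ0, hα, hθ, hκ, fun s => ?_, hperL, hint⟩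
    obtain ⟨u', h3, h4⟩ := hmem s
    exact ⟨j, u', h3, h4⟩

end Pool.Agent.Helper532_SymMCF

end
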