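import Pool.Agent.Helper532_SymMCF.Plane

section

/-!
Lower bound for the Hausdorff measure of a hypersurface near a nearly straight arc of its profile.
-/

open Set Filter MeasureTheory Topology Metric Module
open scoped ContDiff NNReal ENNReal RealInnerProductSpace

namespace Pool.Agent.Helper532_SymMCF

set_option linter.unusedSectionVars false

variable {E : Type*} [NormedAddCommGroup E] [InnerProductSpace ℝ E] [FiniteDimensional ℝ E]
  [MeasurableSpace E] [BorelSpace E]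

/-- the linear map to the plane with the components along `e₁`, `e₂` -/
noncomputable def lin (e₁ e₂ v : E) : ℂ := ⟨⟪v, e₁⟫, ⟪v, e₂⟫⟩

theorem inner_lin_ex (e₁ e₂ v : E) (φ : ℝ) :
    (inner ℝ (lin e₁ e₂ v) (ex φ) : ℝ) = ⟪v, Real.cos φ • e₁ + Real.sin φ • e₂⟫ := by
  rw [Complex.inner, inner_add_right, inner_smul_right, inner_smul_right]
  simp only [lin, Complex.mul_re, Complex.conj_re, Complex.conj_im, ex_re, ex_im]
  ring

theorem inner_lin_I_ex (e₁ e₂ v : E) (φ : ℝ) :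
    (inner ℝ (lin e₁ e₂ v) (Complex.I * ex φ) : ℝ) =
      ⟪v, (-Real.sin φ) • e₁ + Real.cos φ • e₂⟫ := by
  rw [Complex.inner, inner_add_right, inner_smul_right, inner_smul_right]
  simp only [lin, Complex.mul_re, Complex.mul_im, Complex.conj_re, Complex.conj_im, ex_re, ex_im,
    Complex.I_re, Complex.I_im]
  ring

/-- the measure of a ball in `ℝ^n` -/
noncomputable def cn (n : ℕ) (h : ℝ) : ℝ≥0∞ :=
  μH[n] (closedBall (0 : EuclideanSpace ℝ (Fin n)) h)

theorem cn_pos (n : ℕ) {h : ℝ} (hh : 0 < h) : 0 < cn n h := by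
  unfold cn
  have hf : finrank ℝ (EuclideanSpace ℝ (Fin n)) = n := by simp
  have : (μH[(n : ℝ)] : Measure (EuclideanSpace ℝ (Fin n))).IsAddHaarMeasure := by
    have := isAddHaarMeasure_hausdorffMeasure (E := EuclideanSpace ℝ (Fin n))
    rwa [hf] at this
  exact measure_closedBall_pos _ _ hh

theorem cn_lt_top (n : ℕ) (h : ℝ) : cn n h < ⊤ := by
  unfold cn
  have hf : finrank ℝ (EuclideanSpace ℝ (Fin n)) = n := by simp
  have : (μH[(n : ℝ)] : Measure (EuclideanSpace ℝ (Fin n))).IsAddHaarMeasure := by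
    have := isAddHaarMeasure_hausdorffMeasure (E := EuclideanSpace ℝ (Fin n))
    rwa [hf] at this
  exact (isCompact_closedBall _ _).measure_lt_top

theorem exists_frame {n : ℕ} (hdim : finrank ℝ E = n + 1) {N₀ : E} (hN : ‖N₀‖ = 1) :
    ∃ (j : EuclideanSpace ℝ (Fin n) → E) (π : E →ₗ[ℝ] EuclideanSpace ℝ (Fin n)),
      (∀ y, ‖j y‖ = ‖y‖) ∧ (∀ v, ‖π v‖ ≤ ‖v‖) ∧ (∀ y, ⟪j y, N₀⟫ = 0) ∧
      ∀ y (k : ℝ), π (j y + k • N₀) = y := by
  have hNne : N₀ ≠ 0 := by
    intro h; rw [h, norm_zero] at hN; exact zero_ne_one hN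
  have : Fact (finrank ℝ E = n + 1) := ⟨hdim⟩
  let b := OrthonormalBasis.fromOrthogonalSpanSingleton (𝕜 := ℝ) n hNne
  refine ⟨fun y => ((b.repr.symm y : (Submodule.span ℝ {N₀})ᗮ) : E),
    b.repr.toLinearEquiv.toLinearMap ∘ₗ
      ((Submodule.span ℝ {N₀})ᗮ.orthogonalProjectionOnto).toLinearMap, ?_, ?_, ?_, ?_⟩
  · intro y
    rw [← Submodule.coe_norm, LinearIsometryEquiv.norm_map]
  · intro v
    simp only [LinearMap.comp_apply]
    refine (LinearIsometryEquiv.norm_map _ _).le.trans ?_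
    exact Submodule.norm_orthogonalProjectionOnto_apply_le _ v
  · intro y
    exact Submodule.mem_orthogonal_singleton_iff_inner_left.1 (b.repr.symm y).2
  · intro y k
    have h1 : (Submodule.span ℝ {N₀})ᗮ.orthogonalProjectionOnto
        (((b.repr.symm y : (Submodule.span ℝ {N₀})ᗮ) : E) + k • N₀) = b.repr.symm y := by
      rw [map_add]
      have h2 : (Submodule.span ℝ {N₀})ᗮ.orthogonalProjectionOnto
          ((b.repr.symm y : (Submodule.span ℝ {N₀})ᗮ) : E) = b.repr.symm y :=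
        Submodule.orthogonalProjectionOnto_mem_subspace_eq_self _
      have h3 : (Submodule.span ℝ {N₀})ᗮ.orthogonalProjectionOnto (k • N₀) = 0 := by
        rw [Submodule.orthogonalProjectionOnto_eq_zero_iff, Submodule.orthogonal_orthogonal]
        exact Submodule.smul_mem _ _ (Submodule.mem_span_singleton_self _)
      rw [h2, h3, add_zero]
    simp only [LinearMap.comp_apply]
    change b.repr ((Submodule.span ℝ {N₀})ᗮ.orthogonalProjectionOnto _) = y
    rw [h1, LinearIsometryEquiv.apply_symm_apply]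

theorem lower_bound {n : ℕ} (hdim : finrank ℝ E = n + 1) {P Q : E → ℂ} {Z e₁ e₂ : E}
    (he₁ : ‖e₁‖ = 1) (he₂ : ‖e₂‖ = 1) (he : ⟪e₁, e₂⟫ = 0) {h : ℝ} (h0 : 0 < h)
    (hP : ∀ v, ‖v‖ ≤ 2 * h → ‖P (Z + v) - P Z - lin e₁ e₂ v‖ ≤ h / 100)
    (hQ : Continuous Q) (hPQ : ∀ v, ‖v‖ ≤ 2 * h → ‖Q (Z + v) - P (Z + v)‖ ≤ h / 100)
    {Ph : Set (ℂ × ℝ)} {α : ℝ → ℂ} (hα : GoodArc h (P Z) Ph α) :
    cn n h ≤ μH[n] {W ∈ closedBall Z (2 * h) | Q W ∈ α '' Icc (-(3 * h)) (3 * h)} := by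
  obtain ⟨θ, φ, hd, hθ, _, hα0⟩ := hα
  set N₀ : E := (-Real.sin φ) • e₁ + Real.cos φ • e₂ with hN₀
  set T₀ : E := Real.cos φ • e₁ + Real.sin φ • e₂ with hT₀
  have hs := Real.sin_sq_add_cos_sq φ
  have hN : ‖N₀‖ = 1 := by
    have : ‖N₀‖ ^ 2 = 1 := by
      rw [hN₀, norm_add_sq_real, norm_smul, norm_smul, he₁, he₂, inner_smul_left, inner_smul_right,
        he, Real.norm_eq_abs, Real.norm_eq_abs, mul_one, mul_one, sq_abs, sq_abs]
      simp
    rw [← abs_of_nonneg (norm_nonneg N₀), ← sq_eq_sq₀ (abs_nonneg _) zero_le_one, sq_abs, this,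
      one_pow]
  have hT : ‖T₀‖ = 1 := by
    have : ‖T₀‖ ^ 2 = 1 := by
      rw [hT₀, norm_add_sq_real, norm_smul, norm_smul, he₁, he₂, inner_smul_left, inner_smul_right,
        he, Real.norm_eq_abs, Real.norm_eq_abs, mul_one, mul_one, sq_abs, sq_abs]
      simp
    rw [← abs_of_nonneg (norm_nonneg T₀), ← sq_eq_sq₀ (abs_nonneg _) zero_le_one, sq_abs, this,
      one_pow]
  obtain ⟨j, π₀, hj, hπ₀, hjN, hπj⟩ := exists_frame hdim hN
  set π : E → EuclideanSpace ℝ (Fin n) := fun Z' => π₀ (Z' - Z) with hπ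
  have hπL : LipschitzWith 1 π := by
    apply LipschitzWith.of_dist_le_mul
    intro x y
    rw [NNReal.coe_one, one_mul, hπ]
    simp only
    rw [dist_eq_norm, ← map_sub, dist_eq_norm]
    have := hπ₀ (x - Z - (y - Z))
    rwa [sub_sub_sub_cancel_right] at this ⊢
  set G : Set E := {W ∈ closedBall Z (2 * h) | Q W ∈ α '' Icc (-(3 * h)) (3 * h)} with hG
  have hcov : closedBall (0 : EuclideanSpace ℝ (Fin n)) h ⊆ π '' G := by
    intro y hy
    rw [mem_closedBall, dist_zero_right] at hy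
    set Y : E := j y with hY
    have hYn : ‖Y‖ ≤ h := by rw [hY, hj]; exact hy
    have hYN : ⟪Y, N₀⟫ = 0 := hjN y
    have hv : ∀ k ∈ Icc (-h) h, ‖Y + k • N₀‖ ≤ 2 * h := by
      intro k hk
      calc ‖Y + k • N₀‖ ≤ ‖Y‖ + ‖k • N₀‖ := norm_add_le _ _
        _ ≤ h + h := by
          rw [norm_smul, hN, mul_one, Real.norm_eq_abs]
          exact add_le_add hYn (abs_le.2 ⟨hk.1, hk.2⟩)
        _ = 2 * h := by ring
    set β : ℝ → ℂ := fun k => Q (Z + (Y + k • N₀)) with hβ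
    have herr : ∀ k ∈ Icc (-h) h, ‖β k - P Z - lin e₁ e₂ (Y + k • N₀)‖ ≤ h / 50 := by
      intro k hk
      have a1 := hP _ (hv k hk)
      have a2 := hPQ _ (hv k hk)
      have a3 : β k - P Z - lin e₁ e₂ (Y + k • N₀) =
          (Q (Z + (Y + k • N₀)) - P (Z + (Y + k • N₀))) +
          (P (Z + (Y + k • N₀)) - P Z - lin e₁ e₂ (Y + k • N₀)) := by
        rw [hβ]; ring
      rw [a3]
      refine (norm_add_le _ _).trans ?_
      linarith
    have hβn : ∀ k ∈ Icc (-h) h, |(inner ℝ (β k - P Z) (Complex.I * ex φ) : ℝ) - k| ≤ h / 50 := by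
      intro k hk
      have a1 : (inner ℝ (β k - P Z) (Complex.I * ex φ) : ℝ) - k =
          inner ℝ (β k - P Z - lin e₁ e₂ (Y + k • N₀)) (Complex.I * ex φ) := by
        rw [inner_sub_left (β k - P Z), inner_lin_I_ex, ← hN₀, inner_add_left, hYN,
          inner_smul_left, real_inner_self_eq_norm_sq, hN]
        simp
      rw [a1]
      refine (abs_real_inner_le_norm _ _).trans ?_
      rw [norm_I_ex, mul_one]
      exact herr k hk
    have hβt : ∀ k ∈ Icc (-h) h, |(inner ℝ (β k - P Z) (ex φ) : ℝ)| ≤ h + h / 50 := by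
      intro k hk
      have hNT : ⟪N₀, T₀⟫ = 0 := by
        rw [hN₀, hT₀]
        simp only [inner_add_left, inner_add_right, inner_smul_left, inner_smul_right,
          real_inner_self_eq_norm_sq, he₁, he₂, he, real_inner_comm e₁ e₂]
        simp
        ring
      have a1 : (inner ℝ (β k - P Z) (ex φ) : ℝ) = ⟪Y, T₀⟫ +
          inner ℝ (β k - P Z - lin e₁ e₂ (Y + k • N₀)) (ex φ) := by
        rw [inner_sub_left (β k - P Z), inner_lin_ex, ← hT₀, inner_add_left, inner_smul_left, hNT]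
        simp
      rw [a1]
      refine (abs_add_le _ _).trans ?_
      have a2 : |⟪Y, T₀⟫| ≤ h := by
        refine (abs_real_inner_le_norm _ _).trans ?_
        rw [hT, mul_one]; exact hYn
      have a3 : |(inner ℝ (β k - P Z - lin e₁ e₂ (Y + k • N₀)) (ex φ) : ℝ)| ≤ h / 50 := by
        refine (abs_real_inner_le_norm _ _).trans ?_
        rw [norm_ex, mul_one]
        exact herr k hk
      linarith
    -- the arc
    have hn0 : |(inner ℝ (α 0 - P Z) (Complex.I * ex φ) : ℝ)| ≤ h / 100 := by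
      refine (abs_real_inner_le_norm _ _).trans ?_
      rw [norm_I_ex, mul_one]; exact hα0
    have ha0 : |(inner ℝ (α 0 - P Z) (ex φ) : ℝ)| ≤ h / 100 := by
      refine (abs_real_inner_le_norm _ _).trans ?_
      rw [norm_ex, mul_one]; exact hα0
    rw [abs_le] at hn0 ha0
    have hsin : ∀ s ∈ Icc (-(3 * h)) (3 * h), |Real.sin (θ s - φ)| ≤ 1 / 100 := fun s hs =>
      (Real.abs_sin_le_abs).trans (hθ s hs)
    have hcos : ∀ s ∈ Icc (-(3 * h)) (3 * h), 99 / 100 ≤ Real.cos (θ s - φ) := by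
      intro s hs
      have e1 := hθ s hs
      rw [← Real.cos_abs]
      have h2 := Real.one_sub_sq_div_two_le_cos (x := |θ s - φ|)
      nlinarith [abs_nonneg (θ s - φ)]
    have hna : ∀ s ∈ Icc (-(3 * h)) (3 * h),
        -(h / 25) ≤ inner ℝ (α s - P Z) (Complex.I * ex φ) ∧
        (inner ℝ (α s - P Z) (Complex.I * ex φ) : ℝ) ≤ h / 25 := by
      intro s hs
      have hd := hasDerivAt_inner_I_ex hd (P Z) φ
      rcases le_total 0 s with h0 | h0
      · have a1 := mvt_le hd h0 (lo := -(1 / 100)) (fun x hx =>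
          (abs_le.1 (hsin x ⟨by linarith [hx.1], hx.2.trans hs.2⟩)).1)
        have a2 := mvt_ge hd h0 (hi := 1 / 100) (fun x hx =>
          (abs_le.1 (hsin x ⟨by linarith [hx.1], hx.2.trans hs.2⟩)).2)
        have := hs.2
        constructor <;> linarith
      · have a1 := mvt_le hd h0 (lo := -(1 / 100)) (fun x hx =>
          (abs_le.1 (hsin x ⟨hs.1.trans hx.1, by linarith [hx.2]⟩)).1)
        have a2 := mvt_ge hd h0 (hi := 1 / 100) (fun x hx =>
          (abs_le.1 (hsin x ⟨hs.1.trans hx.1, by linarith [hx.2]⟩)).2)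
        have := hs.1
        constructor <;> linarith
    have hAr : 2 * h ≤ inner ℝ (α (3 * h) - P Z) (ex φ) := by
      have := mvt_le (hasDerivAt_inner_ex hd (P Z) φ) (x := 0) (y := 3 * h) (by linarith)
        (lo := 99 / 100) (fun x hx => hcos x ⟨by linarith [hx.1], hx.2⟩)
      linarith
    have hAl : (inner ℝ (α (-(3 * h)) - P Z) (ex φ) : ℝ) ≤ -(2 * h) := by
      have := mvt_le (hasDerivAt_inner_ex hd (P Z) φ) (x := -(3 * h)) (y := 0) (by linarith)
        (lo := 99 / 100) (fun x hx => hcos x ⟨hx.1, by linarith [hx.2]⟩)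
      linarith
    have hβc : Continuous β := by
      rw [hβ]
      exact hQ.comp (continuous_const.add (continuous_const.add
        (continuous_id.smul continuous_const)))
    obtain ⟨s, hs, k, hk, hsk⟩ := cross hd (a := -(3 * h)) (b := 3 * h) (lo := -(h / 25))
      (hi := h / 25) (φ := φ) (z := P Z) (by linarith)
      (fun s hs => (hθ s hs).trans (by norm_num)) hna
      (β := β) (c := -h) (d := h) (by linarith) hβc.continuousOn
      (fun t ht => by
        have := abs_le.1 (hβt t ht)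
        constructor <;> linarith)
      (by
        have := (abs_le.1 (hβn (-h) ⟨le_refl _, by linarith⟩)).2
        linarith)
      (by
        have := (abs_le.1 (hβn h ⟨by linarith, le_refl _⟩)).1
        linarith)
    refine ⟨Z + (Y + k • N₀), ⟨?_, ?_⟩, ?_⟩
    · rw [mem_closedBall, dist_eq_norm, add_sub_cancel_left]
      exact hv k hk
    · exact ⟨s, hs, hsk⟩
    · rw [hπ]
      simp only [add_sub_cancel_left]
      exact hπj y k
  calc cn n h ≤ μH[n] (π '' G) := measure_mono hcov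
    _ ≤ (1 : ℝ≥0∞) ^ (n : ℝ) * μH[n] G := by
      have := hπL.hausdorffMeasure_image_le (d := n) (by positivity) G
      simpa using this
    _ = μH[n] G := by simp

end Pool.Agent.Helper532_SymMCF

end

section

/-!
A solution curve of the limit differential equation is locally a regular level set.
-/

open Set Filter MeasureTheory Topology Metric Module
open scoped ContDiff NNReal ENNReal RealInnerProductSpace

namespace Pool.Agent.Helper532_SymMCF

theorem Fld_contDiff {f : ℂ → ℂ} (hf : ContDiff ℝ ∞ f) : ContDiff ℝ ∞ (Fld f) := by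
  unfold Fld
  apply ContDiff.prodMk
  · exact contDiff_ex.comp contDiff_snd
  · exact (hf.comp contDiff_fst).inner ℝ (contDiff_const.mul (contDiff_ex.comp contDiff_snd))

theorem Sol.contDiffOn {f : ℂ → ℂ} (hf : ContDiff ℝ ∞ f) {γ : ℝ → ℂ × ℝ} (h : Sol f γ) :
    ContDiffOn ℝ ∞ γ (Icc (-1) 1) := by
  have := ODE.contDiffOn_enat_Icc_of_hasDerivWithinAt (n := ⊤) (f := fun _ => Fld f)
    (u := univ) (α := γ) (tmin := -1) (tmax := 1)
    (((Fld_contDiff hf).comp contDiff_snd).contDiffOn) h (fun _ _ => mem_univ _)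
  exact this

theorem Sol.contDiffAt {f : ℂ → ℂ} (hf : ContDiff ℝ ∞ f) {γ : ℝ → ℂ × ℝ} (h : Sol f γ) {s : ℝ}
    (hs : s ∈ Ioo (-1 : ℝ) 1) : ContDiffAt ℝ ∞ γ s :=
  (h.contDiffOn hf).contDiffAt (Icc_mem_nhds hs.1 hs.2)

theorem Sol.hasDerivAt_fst {f : ℂ → ℂ} {γ : ℝ → ℂ × ℝ} (h : Sol f γ) {s : ℝ}
    (hs : s ∈ Ioo (-1 : ℝ) 1) : HasDerivAt (fun s => (γ s).1) (ex (γ s).2) s :=
  (ContinuousLinearMap.fst ℝ ℂ ℝ).hasFDerivAt.comp_hasDerivAt s (h.hasDerivAt hs)

theorem Sol.hasDerivAt_snd {f : ℂ → ℂ} {γ : ℝ → ℂ × ℝ} (h : Sol f γ) {s : ℝ}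
    (hs : s ∈ Ioo (-1 : ℝ) 1) :
    HasDerivAt (fun s => (γ s).2) (inner ℝ (f (γ s).1) (Complex.I * ex (γ s).2)) s :=
  (ContinuousLinearMap.snd ℝ ℂ ℝ).hasFDerivAt.comp_hasDerivAt s (h.hasDerivAt hs)

theorem Sol.turn {f : ℂ → ℂ} {C : ℝ≥0} (hC : ∀ z, ‖f z‖ ≤ C) {γ : ℝ → ℂ × ℝ} (h : Sol f γ) {s : ℝ}
    (hs : |s| ≤ 1) : |(γ s).2 - (γ 0).2| ≤ C * |s| := by
  have hd : ∀ x ∈ Icc (-1 : ℝ) 1, HasDerivWithinAt (fun s => (γ s).2)
      (inner ℝ (f (γ x).1) (Complex.I * ex (γ x).2)) (Icc (-1) 1) x := fun x hx =>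
    (ContinuousLinearMap.snd ℝ ℂ ℝ).hasFDerivAt.comp_hasDerivWithinAt x (h x hx)
  have := Convex.norm_image_sub_le_of_norm_hasDerivWithin_le (C := C) hd
    (fun x _ => by
      rw [Real.norm_eq_abs]
      refine (abs_real_inner_le_norm _ _).trans ?_
      rw [norm_I_ex, mul_one]; exact hC _)
    (convex_Icc _ _) (show (0 : ℝ) ∈ Icc (-1 : ℝ) 1 by norm_num)
    (show s ∈ Icc (-1 : ℝ) 1 from ⟨(abs_le.1 hs).1, (abs_le.1 hs).2⟩)
  simpa using this

theorem seg_graph {f : ℂ → ℂ} (hf : ContDiff ℝ ∞ f) {C : ℝ≥0} (hC : ∀ z, ‖f z‖ ≤ C)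
    {γ : ℝ → ℂ × ℝ} (h : Sol f γ) {σ : ℝ} (hσ0 : 0 < σ) (hσ1 : σ ≤ 1 / 2) (hσC : C * σ ≤ 1) :
    ∃ η > 0, ∃ G : ℂ → ℝ, ContDiffOn ℝ ∞ G (ball (γ 0).1 η) ∧
      (∀ w ∈ ball (γ 0).1 η, DifferentiableAt ℝ G w ∧
        fderiv ℝ G w (Complex.I * ex (γ 0).2) = 1) ∧
      ∀ w ∈ ball (γ 0).1 η, (w ∈ seg γ σ ↔ G w = 0) := by
  set z₀ := (γ 0).1 with hz₀
  set φ := (γ 0).2 with hφ
  set a : ℝ → ℝ := fun s => inner ℝ ((γ s).1 - z₀) (ex φ) with ha
  set b : ℝ → ℝ := fun s => inner ℝ ((γ s).1 - z₀) (Complex.I * ex φ) with hb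
  have had : ∀ s ∈ Ioo (-1 : ℝ) 1, HasDerivAt a (Real.cos ((γ s).2 - φ)) s := by
    intro s hs
    have := ((h.hasDerivAt_fst hs).sub_const z₀).inner ℝ (hasDerivAt_const s (ex φ))
    rw [inner_zero_right, zero_add, inner_ex] at this
    exact this
  have hac : ∀ s ∈ Ioo (-1 : ℝ) 1, ContDiffAt ℝ ∞ a s := by
    intro s hs
    exact (((contDiff_fst.contDiffAt).comp s (h.contDiffAt hf hs)).sub contDiffAt_const).inner ℝ
      contDiffAt_const
  have hbc : ∀ s ∈ Ioo (-1 : ℝ) 1, ContDiffAt ℝ ∞ b s := by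
    intro s hs
    exact (((contDiff_fst.contDiffAt).comp s (h.contDiffAt hf hs)).sub contDiffAt_const).inner ℝ
      contDiffAt_const
  have hcos : ∀ s, |s| ≤ σ → 1 / 2 ≤ Real.cos ((γ s).2 - φ) := by
    intro s hs
    have h1 := h.turn hC (s := s) (by linarith)
    have h2 : (C : ℝ) * |s| ≤ C * σ := mul_le_mul_of_nonneg_left hs C.coe_nonneg
    rw [← Real.cos_abs]
    have h3 := Real.one_sub_sq_div_two_le_cos (x := |(γ s).2 - φ|)
    nlinarith [abs_nonneg ((γ s).2 - φ)]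
  have hmono : ∀ s ∈ Icc (-σ) σ, ∀ t ∈ Icc (-σ) σ, s < t → a s < a t := by
    intro s hs t ht hst
    have : StrictMonoOn a (Icc (-σ) σ) := by
      apply strictMonoOn_of_deriv_pos (convex_Icc _ _)
      · intro x hx
        exact (had x ⟨by linarith [hx.1], by linarith [hx.2]⟩).continuousAt.continuousWithinAt
      · intro x hx
        rw [interior_Icc] at hx
        rw [(had x ⟨by linarith [hx.1], by linarith [hx.2]⟩).deriv]
        have := hcos x (abs_le.2 ⟨hx.1.le, hx.2.le⟩)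
        linarith
    exact this hs ht hst
  have h00 : (0 : ℝ) ∈ Ioo (-1 : ℝ) 1 := by norm_num
  have ha0 : a 0 = 0 := by simp [ha, hz₀]
  have hd0 : HasDerivAt a 1 0 := by
    have := had 0 h00
    rwa [← hφ, sub_self, Real.cos_zero] at this
  have hstrict : HasStrictDerivAt a 1 0 := by
    have := (hac 0 h00).hasStrictDerivAt (by simp)
    rwa [hd0.deriv] at this
  set e := (hstrict.hasStrictFDerivAt_equiv one_ne_zero).toOpenPartialHomeomorph a with he
  have hecoe : ∀ x, e x = a x := fun x => rfl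
  have h0s : (0 : ℝ) ∈ e.source := HasStrictFDerivAt.mem_toOpenPartialHomeomorph_source _
  have h0t : (0 : ℝ) ∈ e.target := by
    have := e.map_source h0s
    rwa [hecoe, ha0] at this
  have hes0 : e.symm 0 = 0 := by
    have := e.left_inv h0s
    rwa [hecoe, ha0] at this
  have hopen : IsOpen (e.target ∩ e.symm ⁻¹' (Ioo (-σ) σ)) :=
    e.isOpen_inter_preimage_symm isOpen_Ioo
  obtain ⟨η, hη0, hη⟩ := Metric.isOpen_iff.1 hopen 0 ⟨h0t, by
    rw [mem_preimage, hes0]; exact ⟨by linarith, hσ0⟩⟩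
  set g : ℝ → ℝ := fun x => b (e.symm x) with hg
  have hgc : ∀ x ∈ ball (0 : ℝ) η, ContDiffAt ℝ ∞ g x := by
    intro x hx
    obtain ⟨hx1, hx2⟩ := hη hx
    rw [mem_preimage] at hx2
    have hx3 : e.symm x ∈ Ioo (-1 : ℝ) 1 := ⟨by linarith [hx2.1], by linarith [hx2.2]⟩
    have hne : Real.cos ((γ (e.symm x)).2 - φ) ≠ 0 := by
      have := hcos (e.symm x) (abs_le.2 ⟨hx2.1.le, hx2.2.le⟩)
      linarith
    have h1 : ContDiffAt ℝ ∞ e.symm x :=
      e.contDiffAt_symm_deriv hne hx1 (had _ hx3) (hac _ hx3)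
    exact (hbc _ hx3).comp x h1
  set G : ℂ → ℝ := fun w => inner ℝ (w - z₀) (Complex.I * ex φ) - g (inner ℝ (w - z₀) (ex φ))
    with hG
  have hball : ∀ w ∈ ball z₀ η, (inner ℝ (w - z₀) (ex φ) : ℝ) ∈ ball (0 : ℝ) η := by
    intro w hw
    rw [mem_ball, dist_zero_right, Real.norm_eq_abs]
    refine (abs_real_inner_le_norm _ _).trans_lt ?_
    rw [norm_ex, mul_one, ← dist_eq_norm]
    exact hw
  have hGc : ∀ w ∈ ball z₀ η, ContDiffAt ℝ ∞ G w := by
    intro w hw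
    have h1 : ContDiffAt ℝ ∞ (fun w : ℂ => (inner ℝ (w - z₀) (ex φ) : ℝ)) w :=
      (contDiffAt_id.sub contDiffAt_const).inner ℝ contDiffAt_const
    have h2 : ContDiffAt ℝ ∞ (fun w : ℂ => (inner ℝ (w - z₀) (Complex.I * ex φ) : ℝ)) w :=
      (contDiffAt_id.sub contDiffAt_const).inner ℝ contDiffAt_const
    have h3 : ContDiffAt ℝ ∞ (fun w : ℂ => g (inner ℝ (w - z₀) (ex φ))) w :=
      ContDiffAt.comp (g := g) w (hgc _ (hball w hw)) h1
    exact h2.sub h3
  refine ⟨η, hη0, G, fun w hw => (hGc w hw).contDiffWithinAt, ?_, ?_⟩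
  · intro w hw
    have hdG : DifferentiableAt ℝ G w := (hGc w hw).differentiableAt (by simp)
    refine ⟨hdG, ?_⟩
    have hline : HasDerivAt (fun k : ℝ => w + k • (Complex.I * ex φ)) (Complex.I * ex φ) 0 := by
      simpa using ((hasDerivAt_id (0 : ℝ)).smul_const (Complex.I * ex φ)).const_add w
    have hcomp : HasDerivAt (fun k : ℝ => G (w + k • (Complex.I * ex φ)))
        (fderiv ℝ G w (Complex.I * ex φ)) 0 := by
      have h1 : HasFDerivAt G (fderiv ℝ G w) (w + (0 : ℝ) • (Complex.I * ex φ)) := by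
        simpa using hdG.hasFDerivAt
      exact h1.comp_hasDerivAt (0 : ℝ) hline
    have hform : (fun k : ℝ => G (w + k • (Complex.I * ex φ))) = fun k => G w + k := by
      funext k
      have e1 : (inner ℝ (w + k • (Complex.I * ex φ) - z₀) (ex φ) : ℝ) =
          inner ℝ (w - z₀) (ex φ) := by
        have : w + k • (Complex.I * ex φ) - z₀ = (w - z₀) + k • (Complex.I * ex φ) := by ring
        have h5 : (inner ℝ (Complex.I * ex φ) (ex φ) : ℝ) = 0 := by
          rw [real_inner_comm, inner_ex_I, sub_self, Real.sin_zero]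
        rw [this, inner_add_left, inner_smul_left, h5]
        simp
      have e2 : (inner ℝ (w + k • (Complex.I * ex φ) - z₀) (Complex.I * ex φ) : ℝ) =
          inner ℝ (w - z₀) (Complex.I * ex φ) + k := by
        have : w + k • (Complex.I * ex φ) - z₀ = (w - z₀) + k • (Complex.I * ex φ) := by ring
        rw [this, inner_add_left, inner_smul_left, real_inner_self_eq_norm_sq, norm_I_ex]
        simp
      simp only [hG]
      rw [e1, e2]; ring
    rw [hform] at hcomp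
    have h2 : HasDerivAt (fun k : ℝ => G w + k) 1 0 := by
      simpa using (hasDerivAt_id (0 : ℝ)).const_add (G w)
    exact hcomp.unique h2
  · intro w hw
    obtain ⟨hx1, hx2⟩ := hη (hball w hw)
    rw [mem_preimage] at hx2
    set x : ℝ := inner ℝ (w - z₀) (ex φ) with hx
    have hax : a (e.symm x) = x := e.right_inv hx1
    constructor
    · rintro ⟨s, hs, hsw⟩
      simp only at hsw
      have has : a s = x := by simp only [ha]; rw [hsw]
      have hse : s = e.symm x := by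
        rcases lt_trichotomy s (e.symm x) with h1 | h1 | h1
        · have := hmono s hs _ ⟨hx2.1.le, hx2.2.le⟩ h1
          linarith
        · exact h1
        · have := hmono _ ⟨hx2.1.le, hx2.2.le⟩ s hs h1
          linarith
      simp only [hG, hg]
      rw [← hx, ← hse, ← hsw]
      simp [hb]
    · intro hGw
      refine ⟨e.symm x, ⟨hx2.1.le, hx2.2.le⟩, ?_⟩
      simp only
      have h1 : (γ (e.symm x)).1 - z₀ = w - z₀ := by
        apply eq_of_inner φ
        · exact hax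
        · simp only [hG, hg, hb] at hGw
          linarith
      exact sub_left_inj.1 h1

end Pool.Agent.Helper532_SymMCF

end

section

/-!
The support of a limit of the measures of hypersurfaces with converging profile maps.
-/

open Set Filter MeasureTheory Topology Metric Module
open scoped ContDiff NNReal ENNReal RealInnerProductSpace

namespace Pool.Agent.Helper532_SymMCF

set_option linter.unusedSectionVars false

variable {ι : Type*}

theorem LT_of_near (𝓤 : Ultrafilter ι) {Ph : ι → Set (ℂ × ℝ)}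
    (hrot : ∀ᶠ i in (𝓤 : Filter ι), ∀ z θ, (z, θ) ∈ Ph i →
      (z, θ + Real.pi) ∈ Ph i ∧ (z, θ - Real.pi) ∈ Ph i) {w : ℂ}
    (hn : ∀ δ > 0, ∀ᶠ i in (𝓤 : Filter ι), ∃ z θ, (z, θ) ∈ Ph i ∧ dist z w < δ) :
    ∃ θ, (w, θ) ∈ LT (𝓤 : Filter ι) Ph := by
  by_contra hcon
  push Not at hcon
  have h1 : ∀ θ : ℝ, ∃ δ > 0, ∀ᶠ i in (𝓤 : Filter ι), ¬ ∃ Y ∈ Ph i, dist Y (w, θ) < δ := by
    intro θ
    have := hcon θ
    simp only [LT, mem_ofPred_eq, not_forall] at this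
    obtain ⟨δ, hδ, h⟩ := this
    exact ⟨δ, hδ, Ultrafilter.eventually_not.2 h⟩
  choose δ hδ0 hδ using h1
  obtain ⟨t, _, ht⟩ := (isCompact_Icc (a := (0 : ℝ)) (b := Real.pi)).elim_nhds_subcover
    (fun θ => ball θ (δ θ)) (fun θ _ => ball_mem_nhds θ (hδ0 θ))
  have hne : t.Nonempty := by
    rcases t.eq_empty_or_nonempty with h | h
    · exfalso
      have : (0 : ℝ) ∈ ⋃ x ∈ t, ball x (δ x) := ht ⟨le_refl _, Real.pi_pos.le⟩
      simp [h] at this
    · exact h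
  obtain ⟨θm, hθm, hmin⟩ := Finset.exists_min_image t δ hne
  have hall : ∀ᶠ i in (𝓤 : Filter ι), ∀ θ ∈ t, ¬ ∃ Y ∈ Ph i, dist Y (w, θ) < δ θ := by
    rw [Filter.eventually_all_finset]
    exact fun θ _ => hδ θ
  obtain ⟨i, hi1, hi2, z, θ, hz, hzw⟩ := (hall.and (hrot.and (hn (δ θm) (hδ0 θm)))).exists
  have hk : ∀ k : ℤ, ∀ θ', (z, θ') ∈ Ph i → (z, θ' + k * Real.pi) ∈ Ph i := by
    intro k
    induction k using Int.induction_on with
    | zero => intro θ' h; simpa using h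
    | succ n ih =>
      intro θ' h
      have := (hi2 _ _ (ih θ' h)).1
      convert this using 2
      push_cast; ring
    | pred n ih =>
      intro θ' h
      have := (hi2 _ _ (ih θ' h)).2
      convert this using 2
      push_cast; ring
  set θ' := toIcoMod Real.pi_pos 0 θ with hθ'
  have hθ'mem : θ' ∈ Ico 0 Real.pi := by
    have := toIcoMod_mem_Ico Real.pi_pos 0 θ
    rwa [zero_add] at this
  have hθ'eq : θ' = θ + (-(toIcoDiv Real.pi_pos 0 θ) : ℤ) * Real.pi := by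
    have := self_sub_toIcoDiv_zsmul Real.pi_pos 0 θ
    rw [zsmul_eq_mul] at this
    rw [hθ', ← this]
    push_cast; ring
  have hz' : (z, θ') ∈ Ph i := by rw [hθ'eq]; exact hk _ _ hz
  have hc := ht ⟨hθ'mem.1, hθ'mem.2.le⟩
  rw [mem_iUnion₂] at hc
  obtain ⟨θ₀, hθ₀, hb⟩ := hc
  apply hi1 θ₀ hθ₀
  refine ⟨(z, θ'), hz', ?_⟩
  rw [Prod.dist_eq]
  exact max_lt (hzw.trans_le (hmin θ₀ hθ₀)) hb

variable {E : Type*} [NormedAddCommGroup E] [InnerProductSpace ℝ E] [FiniteDimensional ℝ E]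
  [MeasurableSpace E] [BorelSpace E]

/-- continuous version of `lin` -/
noncomputable def linL (e₁ e₂ : E) : E →L[ℝ] ℂ :=
  (innerSL ℝ e₁).smulRight (1 : ℂ) + (innerSL ℝ e₂).smulRight Complex.I

theorem linL_apply (e₁ e₂ v : E) : linL e₁ e₂ v = lin e₁ e₂ v := by
  apply Complex.ext <;>
    simp [linL, lin, real_inner_comm]

/-- `P` is a Riemannian submersion to the plane, infinitesimally at `Z`. -/
def Sub (P : E → ℂ) (Z : E) : Prop :=
  ∃ e₁ e₂ : E, ‖e₁‖ = 1 ∧ ‖e₂‖ = 1 ∧ ⟪e₁, e₂⟫ = 0 ∧ HasFDerivAt P (linL e₁ e₂) Z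

/-- The situation at a fixed time: hypersurfaces `{z | Q i z ∈ Γ i}` whose Hausdorff measures
converge to `μ`, the profile maps `Q i` converge to `P`. -/
structure Slice (n : ℕ) (𝓕 : Filter ι) (Q : ι → E → ℂ) (P : E → ℂ) (Γ : ι → Set ℂ)
    (Ph : ι → Set (ℂ × ℝ)) (μ : Measure E) : Prop where
  dim : finrank ℝ E = n + 1
  hQ : ∀ i, Continuous (Q i)
  conv : ∀ R > 0, ∀ ε > 0, ∀ᶠ i in 𝓕, ∀ v : E, ‖v‖ ≤ R → ‖Q i v - P v‖ ≤ ε
  hΓ : ∀ i z, z ∈ Γ i ↔ ∃ θ, (z, θ) ∈ Ph i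
  fin : IsLocallyFiniteMeasure μ
  vague : ∀ φ : E → ℝ≥0, Continuous φ → HasCompactSupport φ →
    Tendsto (fun i => ∫⁻ z in {z | Q i z ∈ Γ i}, φ z ∂μH[n]) 𝓕 (𝓝 (∫⁻ z, φ z ∂μ))

theorem Sub.small {P : E → ℂ} {Z e₁ e₂ : E} (h : HasFDerivAt P (linL e₁ e₂) Z) :
    ∃ h₀ > 0, ∀ h, 0 < h → h ≤ h₀ →
      ∀ v, ‖v‖ ≤ 2 * h → ‖P (Z + v) - P Z - lin e₁ e₂ v‖ ≤ h / 100 := by
  rw [hasFDerivAt_iff_isLittleO_nhds_zero, Asymptotics.isLittleO_iff] at h
  have h1 := h (show (0 : ℝ) < 1 / 200 by norm_num)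
  rw [Metric.eventually_nhds_iff] at h1
  obtain ⟨δ, hδ, h1⟩ := h1
  refine ⟨δ / 4, by positivity, fun k hk0 hk v hv => ?_⟩
  have := h1 (y := v) (by rw [dist_zero_right]; linarith)
  rw [linL_apply] at this
  linarith

/-- a cut-off function -/
noncomputable def cut (Z : E) (h : ℝ) (w : E) : ℝ≥0 :=
  Real.toNNReal (min 1 ((3 * h - dist w Z) / h))

theorem cut_cont (Z : E) (h : ℝ) : Continuous (cut Z h) := by
  unfold cut
  fun_prop

theorem cut_le (Z : E) (h : ℝ) (w : E) : cut Z h w ≤ 1 := by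
  unfold cut
  rw [Real.toNNReal_le_one]
  exact min_le_left _ _

theorem cut_eq_zero (Z : E) {h : ℝ} (hh : 0 < h) {w : E} (hw : w ∉ closedBall Z (3 * h)) :
    cut Z h w = 0 := by
  unfold cut
  rw [Real.toNNReal_eq_zero]
  rw [mem_closedBall, not_le] at hw
  refine (min_le_right _ _).trans ?_
  apply div_nonpos_of_nonpos_of_nonneg <;> linarith

theorem cut_eq_one (Z : E) {h : ℝ} (hh : 0 < h) {w : E} (hw : w ∈ closedBall Z (2 * h)) :
    cut Z h w = 1 := by
  unfold cut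
  rw [mem_closedBall] at hw
  have : 1 ≤ (3 * h - dist w Z) / h := by
    rw [le_div_iff₀ hh]; linarith
  rw [min_eq_left this]
  simp

theorem cut_supp (Z : E) {h : ℝ} (hh : 0 < h) : HasCompactSupport (cut Z h) :=
  HasCompactSupport.intro (isCompact_closedBall Z (3 * h)) (fun _ hw => cut_eq_zero Z hh hw)

theorem measure_le_lintegral_cut (n : ℕ) (Z : E) {h : ℝ} (hh : 0 < h) (M : Set E) :
    μH[n] (closedBall Z (2 * h) ∩ M) ≤ ∫⁻ z in M, cut Z h z ∂μH[n] := by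
  have h1 : ∫⁻ z in M, (closedBall Z (2 * h)).indicator 1 z ∂μH[n] ≤
      ∫⁻ z in M, cut Z h z ∂μH[n] := by
    apply lintegral_mono
    intro z
    by_cases hz : z ∈ closedBall Z (2 * h)
    · simp only [indicator_of_mem hz, Pi.one_apply, cut_eq_one Z hh hz]
      simp
    · simp only [indicator_of_notMem hz]
      exact zero_le
  rwa [lintegral_indicator_one isClosed_closedBall.measurableSet,
    Measure.restrict_apply isClosed_closedBall.measurableSet] at h1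

theorem Slice.mass {n : ℕ} {𝓕 : Filter ι} {Q : ι → E → ℂ} {P : E → ℂ} {Γ : ι → Set ℂ}
    {Ph : ι → Set (ℂ × ℝ)} {μ : Measure E} (hS : Slice n 𝓕 Q P Γ Ph μ) {Z : E} (hZ : Sub P Z) :
    ∃ h₀ > 0, ∀ h, 0 < h → h ≤ h₀ → ∀ᶠ i in 𝓕, ∀ α, GoodArc h (P Z) (Ph i) α →
      cn n h ≤ μH[n] {W ∈ closedBall Z (2 * h) | Q i W ∈ α '' Icc (-(3 * h)) (3 * h)} := by
  obtain ⟨e₁, e₂, he₁, he₂, he, hd⟩ := hZ
  obtain ⟨h₀, hh₀, hsm⟩ := Sub.small hd
  refine ⟨h₀, hh₀, fun h hh hle => ?_⟩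
  filter_upwards [hS.conv (‖Z‖ + 2 * h) (by positivity) (h / 100) (by positivity)] with i hi α hα
  exact lower_bound hS.dim he₁ he₂ he hh (hsm h hh hle) (hS.hQ i)
    (fun v hv => hi _ ((norm_add_le _ _).trans (by linarith))) hα

theorem Slice.mb {n : ℕ} {𝓕 : Filter ι} {Q : ι → E → ℂ} {P : E → ℂ} {Γ : ι → Set ℂ}
    {Ph : ι → Set (ℂ × ℝ)} {μ : Measure E} (hS : Slice n 𝓕 Q P Γ Ph μ) {Z : E} (hZ : Sub P Z) :
    ∃ h₀ > 0, ∀ h, 0 < h → h ≤ h₀ → MB 𝓕 Ph (P Z) h := by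
  obtain ⟨h₀, hh₀, hm⟩ := hS.mass hZ
  refine ⟨h₀, hh₀, fun h hh hle => ?_⟩
  have := hS.fin
  set B : ℝ≥0∞ := ∫⁻ z, cut Z h z ∂μ with hB
  have hBtop : B < ⊤ := by
    calc B ≤ ∫⁻ z, (closedBall Z (3 * h)).indicator 1 z ∂μ := by
          apply lintegral_mono
          intro z
          by_cases hz : z ∈ closedBall Z (3 * h)
          · simp only [indicator_of_mem hz, Pi.one_apply]
            exact_mod_cast cut_le Z h z
          · simp only [indicator_of_notMem hz, cut_eq_zero Z hh hz]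
            simp
      _ = μ (closedBall Z (3 * h)) := lintegral_indicator_one isClosed_closedBall.measurableSet
      _ < ⊤ := (isCompact_closedBall _ _).measure_lt_top
  have hc0 := cn_pos n hh
  have hct := cn_lt_top n h
  have hev : ∀ᶠ i in 𝓕, ∫⁻ z in {z | Q i z ∈ Γ i}, cut Z h z ∂μH[n] < B + 1 := by
    apply (hS.vague (cut Z h) (cut_cont Z h) (cut_supp Z hh)).eventually_lt_const
    exact ENNReal.lt_add_right hBtop.ne one_ne_zero
  refine ⟨⌈((B + 1) / cn n h).toReal⌉₊, fun κ _ hfr => ?_⟩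
  obtain ⟨i, ⟨α, hα, hdis⟩, hi1, hi2⟩ := (hfr.and_eventually ((hm h hh hle).and hev)).exists
  have hGm : ∀ k, MeasurableSet
      {W ∈ closedBall Z (2 * h) | Q i W ∈ α k '' Icc (-(3 * h)) (3 * h)} := by
    intro k
    have hcomp : IsCompact (α k '' Icc (-(3 * h)) (3 * h)) := by
      obtain ⟨θ, φ, hd, _⟩ := hα k
      apply isCompact_Icc.image
      exact continuous_iff_continuousAt.2 fun s => (hd s).continuousAt
    exact (isClosed_closedBall.inter (hcomp.isClosed.preimage (hS.hQ i))).measurableSet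
  have hsum : ∑ k : κ, μH[n] {W ∈ closedBall Z (2 * h) | Q i W ∈ α k '' Icc (-(3 * h)) (3 * h)} ≤
      μH[n] (closedBall Z (2 * h) ∩ {z | Q i z ∈ Γ i}) := by
    rw [← measure_biUnion_finset (fun k _ l _ hkl => ?_) (fun k _ => hGm k)]
    · apply measure_mono
      intro W hW
      rw [mem_iUnion₂] at hW
      obtain ⟨k, _, hW1, hW2⟩ := hW
      refine ⟨hW1, ?_⟩
      obtain ⟨s, hs, hsW⟩ := hW2
      obtain ⟨θ, φ, hd, hθ, hmem, _⟩ := hα k
      rw [mem_ofPred_eq, hS.hΓ, ← hsW]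
      exact ⟨θ s, hmem s⟩
    · rw [Function.onFun, Set.disjoint_left]
      rintro W ⟨_, hW1⟩ ⟨_, hW2⟩
      exact (Set.disjoint_left.1 (hdis hkl)) hW1 hW2
  have hcard : (Fintype.card κ : ℝ≥0∞) * cn n h ≤ B + 1 := by
    calc (Fintype.card κ : ℝ≥0∞) * cn n h = ∑ _k : κ, cn n h := by simp
      _ ≤ ∑ k : κ, μH[n] {W ∈ closedBall Z (2 * h) | Q i W ∈ α k '' Icc (-(3 * h)) (3 * h)} :=
          Finset.sum_le_sum fun k _ => hi1 (α k) (hα k)
      _ ≤ _ := hsum
      _ ≤ _ := measure_le_lintegral_cut n Z hh _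
      _ ≤ _ := hi2.le
  have h1 : (Fintype.card κ : ℝ≥0∞) ≤ (B + 1) / cn n h := by
    rw [ENNReal.le_div_iff_mul_le (Or.inl hc0.ne') (Or.inl hct.ne)]
    exact hcard
  have h2 : (B + 1) / cn n h ≠ ⊤ := by
    apply ENNReal.div_ne_top
    · exact (ENNReal.add_lt_top.2 ⟨hBtop, ENNReal.one_lt_top⟩).ne
    · exact hc0.ne'
  have h3 : (Fintype.card κ : ℝ) ≤ ((B + 1) / cn n h).toReal := by
    have := ENNReal.toReal_mono h2 h1
    simpa using this
  exact_mod_cast h3.trans (Nat.le_ceil _)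

theorem Slice.supp_of_LT {n : ℕ} {𝓕 : Filter ι} [𝓕.NeBot] {Q : ι → E → ℂ} {P : E → ℂ}
    {Γ : ι → Set ℂ} {Ph : ι → Set (ℂ × ℝ)} {μ : Measure E} (hS : Slice n 𝓕 Q P Γ Ph μ) {Z : E}
    (hZ : Sub P Z) {f : ℂ → ℂ} {C Λ : ℝ≥0} {R : ℝ} (hL : Loc 𝓕 Ph f C Λ (P Z) R) {θ : ℝ}
    (hT : (P Z, θ) ∈ LT 𝓕 Ph) : Z ∈ supp μ := by
  intro U hU
  obtain ⟨r, hr, hrU⟩ := Metric.mem_nhds_iff.1 hU
  obtain ⟨h₀, hh₀, hm⟩ := hS.mass hZ
  have hR := hL.pos
  have hro := ro_pos C hR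
  set h : ℝ := min (min h₀ (r / 4)) (min (ro C R / 3) (1 / (1200 * (C + 1)))) with hh
  have hh0 : 0 < h := by positivity
  have hh1 : h ≤ h₀ := (min_le_left _ _).trans (min_le_left _ _)
  have hh2 : h ≤ r / 4 := (min_le_left _ _).trans (min_le_right _ _)
  have hh3 : 3 * h ≤ ro C R := by
    have : h ≤ ro C R / 3 := (min_le_right _ _).trans (min_le_left _ _)
    linarith
  have hh4 : C * (3 * h) ≤ 1 / 400 := by
    have h1 : h ≤ 1 / (1200 * (C + 1)) := (min_le_right _ _).trans (min_le_right _ _)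
    have h2 : (C : ℝ) * (3 * h) ≤ C * (3 * (1 / (1200 * (C + 1)))) :=
      mul_le_mul_of_nonneg_left (by linarith) C.coe_nonneg
    have h3 : (C : ℝ) * (3 * (1 / (1200 * (C + 1)))) ≤ 1 / 400 := by
      have : (0 : ℝ) < C + 1 := by positivity
      field_simp
      nlinarith [C.coe_nonneg]
    linarith
  have hδ : 0 < min (h / 100) (1 / 400) := by positivity
  have hev : ∀ᶠ i in 𝓕, cn n h ≤ ∫⁻ z in {z | Q i z ∈ Γ i}, cut Z h z ∂μH[n] := by
    filter_upwards [hm h hh0 hh1, hL.arcs hT (by simp; positivity) hδ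
      (show (0 : ℝ) < 1 / 400 by norm_num) (by norm_num)] with i hi hi2
    obtain ⟨_, α, θa, κa, harc, hd⟩ := hi2
    have h1 := (dist_le_iff_max _ _ _).1 hd.le
    simp only at h1
    have hgood : GoodArc h (P Z) (Ph i) α := by
      refine ⟨θa, θa 0, harc.hα, ?_, harc.mem, ?_⟩
      · intro s hs
        have h2 := harc.turn hL.lip.continuous hL.bd ((abs_le.2 ⟨hs.1, hs.2⟩).trans hh3)
        have h3 : (C : ℝ) * |s| ≤ C * (3 * h) :=
          mul_le_mul_of_nonneg_left (abs_le.2 ⟨hs.1, hs.2⟩) C.coe_nonneg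
        linarith
      · rw [← dist_eq_norm]
        exact h1.1.trans (min_le_left _ _)
    refine (hi α hgood).trans (le_trans ?_ (measure_le_lintegral_cut n Z hh0 _))
    apply measure_mono
    rintro W ⟨hW1, s, hs, hsW⟩
    refine ⟨hW1, ?_⟩
    rw [mem_ofPred_eq, hS.hΓ, ← hsW]
    exact ⟨θa s, harc.mem s⟩
  have hlim := ge_of_tendsto (hS.vague (cut Z h) (cut_cont Z h) (cut_supp Z hh0)) hev
  have hle : ∫⁻ z, cut Z h z ∂μ ≤ μ U := by
    calc ∫⁻ z, cut Z h z ∂μ ≤ ∫⁻ z, (closedBall Z (3 * h)).indicator 1 z ∂μ := by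
          apply lintegral_mono
          intro z
          by_cases hz : z ∈ closedBall Z (3 * h)
          · simp only [indicator_of_mem hz, Pi.one_apply]
            exact_mod_cast cut_le Z h z
          · simp only [indicator_of_notMem hz, cut_eq_zero Z hh0 hz]
            simp
      _ = μ (closedBall Z (3 * h)) := lintegral_indicator_one isClosed_closedBall.measurableSet
      _ ≤ μ U := by
          apply measure_mono
          refine subset_trans ?_ hrU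
          apply closedBall_subset_ball
          linarith
  exact (cn_pos n hh0).trans_le (hlim.trans hle)

theorem Slice.near_of_supp {n : ℕ} {𝓕 : Filter ι} {Q : ι → E → ℂ} {P : E → ℂ}
    {Γ : ι → Set ℂ} {Ph : ι → Set (ℂ × ℝ)} {μ : Measure E} (hS : Slice n 𝓕 Q P Γ Ph μ) {Z : E}
    (hP : ContinuousAt P Z) (hZ : Z ∈ supp μ) {δ : ℝ} (hδ : 0 < δ) :
    ∀ᶠ i in 𝓕, ∃ z θ, (z, θ) ∈ Ph i ∧ dist z (P Z) < δ := by
  obtain ⟨r, hr, hrP⟩ := Metric.continuousAt_iff.1 hP (δ / 2) (by positivity)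
  set h : ℝ := r / 4 with hh
  have hh0 : 0 < h := by positivity
  have hpos : 0 < ∫⁻ z, cut Z h z ∂μ := by
    have h1 : μ (closedBall Z (2 * h)) ≤ ∫⁻ z, cut Z h z ∂μ := by
      calc μ (closedBall Z (2 * h)) = ∫⁻ z, (closedBall Z (2 * h)).indicator 1 z ∂μ :=
            (lintegral_indicator_one isClosed_closedBall.measurableSet).symm
        _ ≤ _ := by
          apply lintegral_mono
          intro z
          by_cases hz : z ∈ closedBall Z (2 * h)
          · simp only [indicator_of_mem hz, Pi.one_apply, cut_eq_one Z hh0 hz]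
            simp
          · simp only [indicator_of_notMem hz]
            exact zero_le
    exact (hZ _ (closedBall_mem_nhds Z (by positivity))).trans_le h1
  have hev := (hS.vague (cut Z h) (cut_cont Z h) (cut_supp Z hh0)).eventually_const_lt hpos
  filter_upwards [hev, hS.conv (‖Z‖ + r) (by positivity) (δ / 4) (by positivity)] with i hi hi2
  have hex : ∃ z ∈ closedBall Z (3 * h), Q i z ∈ Γ i := by
    by_contra hcon
    push Not at hcon
    have : ∫⁻ z in {z | Q i z ∈ Γ i}, cut Z h z ∂μH[n] = 0 := by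
      have h0 : ∫⁻ z in {z | Q i z ∈ Γ i}, (0 : ℝ≥0∞) ∂μH[n] = 0 := by simp
      have hm : ∀ᵐ z ∂((μH[n] : Measure E).restrict {z | Q i z ∈ Γ i}), cut Z h z = 0 := by
        have hcl : MeasurableSet {z : E | cut Z h z ≠ 0}ᶜ := by
          have : IsOpen {z : E | cut Z h z ≠ 0} := isOpen_ne_fun (cut_cont Z h) continuous_const
          exact this.measurableSet.compl
        rw [ae_iff, Measure.restrict_apply (by
          have : IsOpen {z : E | ¬ cut Z h z = 0} := isOpen_ne_fun (cut_cont Z h) continuous_const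
          exact this.measurableSet)]
        convert measure_empty (μ := (μH[n] : Measure E))
        ext z
        simp only [mem_inter_iff, mem_ofPred_eq, mem_empty_iff_false, iff_false, not_and]
        intro hz hz2
        apply hz
        apply cut_eq_zero Z hh0
        intro hz3
        exact hcon z hz3 hz2
      rw [← h0]
      apply lintegral_congr_ae
      filter_upwards [hm] with z hz
      rw [hz]; simp
    rw [this] at hi
    exact lt_irrefl _ hi
  obtain ⟨z, hz, hzΓ⟩ := hex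
  obtain ⟨θ, hθ⟩ := (hS.hΓ i _).1 hzΓ
  refine ⟨Q i z, θ, hθ, ?_⟩
  rw [mem_closedBall] at hz
  have h1 : dist (P z) (P Z) < δ / 2 := hrP (by linarith)
  have h2 : ‖Q i z - P z‖ ≤ δ / 4 := hi2 z (by
    have : ‖z‖ ≤ ‖Z‖ + ‖z - Z‖ := by
      have := norm_add_le Z (z - Z)
      simpa using this
    rw [← dist_eq_norm] at this
    linarith)
  rw [← dist_eq_norm] at h2
  have := dist_triangle (Q i z) (P z) (P Z)
  linarith

theorem Loc.mono {𝓕 : Filter ι} {Ph : ι → Set (ℂ × ℝ)} {f : ℂ → ℂ} {C Λ : ℝ≥0} {z₀ z₁ : ℂ}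
    {R r : ℝ} (h : Loc 𝓕 Ph f C Λ z₀ R) (hr : 0 < r) (hd : dist z₁ z₀ + r ≤ R) :
    Loc 𝓕 Ph f C Λ z₁ r := by
  refine ⟨h.lip, h.bd, hr, fun ε hε => ?_⟩
  filter_upwards [h.sys ε hε] with i hi
  refine ⟨hi.line, hi.rot, fun z θ₀ hz => ?_⟩
  obtain ⟨α, θ, κ, L, hL, h0, h0', hα, hθ, hκ, hPh, hper, hint⟩ := hi.arc z θ₀ hz
  refine ⟨α, θ, κ, L, hL, h0, h0', hα, hθ, hκ, hPh, hper, fun a ℓ h1 h2 h3 h4 => ?_⟩
  apply hint a ℓ h1 h2 h3
  intro s hs
  have := h4 s hs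
  rw [mem_closedBall] at this ⊢
  have := dist_triangle (α s) z₁ z₀
  linarith

/-- Regularity of the support of the limit measure. -/
theorem Slice.smooth_at {n : ℕ} (𝓤 : Ultrafilter ι) {Q : ι → E → ℂ} {P : E → ℂ}
    {Γ : ι → Set ℂ} {Ph : ι → Set (ℂ × ℝ)} {μ : Measure E}
    (hS : Slice n (𝓤 : Filter ι) Q P Γ Ph μ) {Z : E} (hZ : Z ∈ supp μ)
    {O : Set E} (hO : IsOpen O) (hZO : Z ∈ O) (hPO : ContDiffOn ℝ ∞ P O) (hsub : ∀ W ∈ O, Sub P W)
    {f : ℂ → ℂ} (hf : ContDiff ℝ ∞ f) {C Λ : ℝ≥0} {R : ℝ}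
    (hL : Loc (𝓤 : Filter ι) Ph f C Λ (P Z) R) : IsSmoothHypersurfaceAt (supp μ) Z := by
  have hPc : ∀ W ∈ O, ContinuousAt P W := fun W hW => by
    obtain ⟨_, _, _, _, _, hd⟩ := hsub W hW
    exact hd.continuousAt
  have hrot : ∀ᶠ i in (𝓤 : Filter ι), ∀ z θ, (z, θ) ∈ Ph i →
      (z, θ + Real.pi) ∈ Ph i ∧ (z, θ - Real.pi) ∈ Ph i := by
    filter_upwards [hL.sys 1 one_pos] with i hi
    exact hi.rot
  have hLT : ∀ W ∈ O, W ∈ supp μ → ∃ θ, (P W, θ) ∈ LT (𝓤 : Filter ι) Ph := fun W hW hWs =>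
    LT_of_near 𝓤 hrot (fun δ hδ => hS.near_of_supp (hPc W hW) hWs hδ)
  obtain ⟨θ₀, hθ₀⟩ := hLT Z hZO hZ
  obtain ⟨γ, hγ0, hγ⟩ := exists_sol hL.lip hL.bd (P Z, θ₀)
  obtain ⟨h₀, hh₀, hMB⟩ := hS.mb (hsub Z hZO)
  have hR := hL.pos
  have hro := ro_pos C hR
  have hro4 := ro_le_quarter C R
  have hroR := ro_le C R
  set h : ℝ := min h₀ (min (ro C R / 12) (1 / (1200 * (C + 1)))) with hh
  have hh0 : 0 < h := by positivity
  have hh1 : h ≤ h₀ := min_le_left _ _
  have hh3 : 12 * h ≤ ro C R := by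
    have : h ≤ ro C R / 12 := (min_le_right _ _).trans (min_le_left _ _)
    linarith
  have hh4 : C * (3 * h) ≤ 1 / 400 := by
    have h1 : h ≤ 1 / (1200 * (C + 1)) := (min_le_right _ _).trans (min_le_right _ _)
    have h2 : (C : ℝ) * (3 * h) ≤ C * (3 * (1 / (1200 * (C + 1)))) :=
      mul_le_mul_of_nonneg_left (by linarith) C.coe_nonneg
    have h3 : (C : ℝ) * (3 * (1 / (1200 * (C + 1)))) ≤ 1 / 400 := by
      have : (0 : ℝ) < C + 1 := by positivity
      field_simp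
      nlinarith [C.coe_nonneg]
    linarith
  obtain ⟨ε, hε, hsingle⟩ := hL.single hh0 hh3 hh4 (hMB h hh0 hh1) hγ
    (by rw [hγ0]; exact hθ₀) (by rw [hγ0])
  obtain ⟨η, hη, G, hGc, hGd, hGz⟩ := seg_graph hf hL.bd hγ (σ := 12 * h) (by linarith)
    (by linarith) (by linarith)
  rw [hγ0] at hGc hGd hGz
  simp only at hGc hGd hGz
  set ρ : ℝ := min (min ε η) (R / 4) with hρ
  have hρ0 : 0 < ρ := by positivity
  set U : Set E := O ∩ P ⁻¹' (ball (P Z) ρ) with hU
  have hUo : IsOpen U := (hPO.continuousOn).isOpen_inter_preimage hO isOpen_ball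
  have hPη : ∀ W ∈ U, P W ∈ ball (P Z) η := fun W hW =>
    ball_subset_ball ((min_le_left _ _).trans (min_le_right _ _)) hW.2
  refine ⟨U, hUo, ⟨hZO, mem_ball_self hρ0⟩, fun W => G (P W), ?_, ?_, ?_⟩
  · exact hGc.comp (hPO.mono inter_subset_left) hPη
  · intro W hW h0
    obtain ⟨e₁, e₂, he₁, he₂, he, hd⟩ := hsub W hW.1
    obtain ⟨hG1, hG2⟩ := hGd (P W) (hPη W hW)
    have hcomp : HasFDerivAt (fun W => G (P W)) ((fderiv ℝ G (P W)).comp (linL e₁ e₂)) W :=
      hG1.hasFDerivAt.comp W hd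
    rw [hcomp.fderiv] at h0
    have h1 : linL e₁ e₂ ((-Real.sin θ₀) • e₁ + Real.cos θ₀ • e₂) = Complex.I * ex θ₀ := by
      rw [linL_apply]
      apply Complex.ext
      · simp only [lin, inner_add_left, inner_smul_left, real_inner_self_eq_norm_sq, he₁,
          real_inner_comm e₁ e₂, he]
        simp [ex_re, ex_im]
      · simp only [lin, inner_add_left, inner_smul_left, real_inner_self_eq_norm_sq, he₂, he]
        simp [ex_re, ex_im]
    have h2 := congrArg (fun T : E →L[ℝ] ℝ => T ((-Real.sin θ₀) • e₁ + Real.cos θ₀ • e₂)) h0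
    simp only [ContinuousLinearMap.comp_apply, h1, hG2] at h2
    simp at h2
  · ext W
    constructor
    · rintro ⟨hW1, hW2⟩
      refine ⟨hW2, ?_⟩
      obtain ⟨θ, hθ⟩ := hLT W hW2.1 hW1
      rw [← hGz (P W) (hPη W hW2)]
      refine hsingle (P W, θ) hθ ?_
      exact lt_of_lt_of_le (mem_ball.1 hW2.2) ((min_le_left _ _).trans (min_le_left _ _))
    · rintro ⟨hW2, hW3⟩
      refine ⟨?_, hW2⟩
      rw [← hGz (P W) (hPη W hW2)] at hW3
      obtain ⟨s, hs, hsW⟩ := hW3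
      simp only at hsW
      have hs' : |s| ≤ 12 * h := abs_le.2 ⟨hs.1, hs.2⟩
      have h1 : γ s ∈ LT (𝓤 : Filter ι) Ph := hL.flow hγ (by rw [hγ0]; exact hθ₀)
        (by rw [hγ0]; simp; positivity) (hs'.trans hh3)
      have h2 : (P W, (γ s).2) ∈ LT (𝓤 : Filter ι) Ph := by rw [← hsW]; exact h1
      have hρR : ρ ≤ R / 4 := min_le_right _ _
      have hLW : Loc (𝓤 : Filter ι) Ph f C Λ (P W) (R / 2) := by
        apply hL.mono (by positivity)
        have := mem_ball.1 hW2.2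
        linarith
      exact hS.supp_of_LT (hsub W hW2.1) hLW h2

end Pool.Agent.Helper532_SymMCF

end

section

/-!
The profile map of `ℝ^p × ℝ^q`, its parabolic rescalings and their limit.
-/

open Set Filter MeasureTheory Topology Metric Module
open scoped ContDiff NNReal ENNReal RealInnerProductSpace

namespace Pool.Agent.Helper532_SymMCF

variable {p q : ℕ}

/-- first component -/
noncomputable def pr₁ : V p q →L[ℝ] EuclideanSpace ℝ (Fin p) :=
  LinearMap.toContinuousLinearMap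
    { toFun := fun z => WithLp.toLp 2 (fun i => z (Sum.inl i))
      map_add' := fun z w => by ext i; simp
      map_smul' := fun c z => by ext i; simp }

/-- second component -/
noncomputable def pr₂ : V p q →L[ℝ] EuclideanSpace ℝ (Fin q) :=
  LinearMap.toContinuousLinearMap
    { toFun := fun z => WithLp.toLp 2 (fun i => z (Sum.inr i))
      map_add' := fun z w => by ext i; simp
      map_smul' := fun c z => by ext i; simp }

/-- inclusion of the first factor -/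
noncomputable def inc₁ : EuclideanSpace ℝ (Fin p) →L[ℝ] V p q :=
  LinearMap.toContinuousLinearMap
    { toFun := fun x => WithLp.toLp 2 (Sum.elim (fun i => x i) (fun _ => 0))
      map_add' := fun z w => by ext i; rcases i with i | i <;> simp
      map_smul' := fun c z => by ext i; rcases i with i | i <;> simp }

/-- inclusion of the second factor -/
noncomputable def inc₂ : EuclideanSpace ℝ (Fin q) →L[ℝ] V p q :=
  LinearMap.toContinuousLinearMap
    { toFun := fun x => WithLp.toLp 2 (Sum.elim (fun _ => 0) (fun i => x i))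
      map_add' := fun z w => by ext i; rcases i with i | i <;> simp
      map_smul' := fun c z => by ext i; rcases i with i | i <;> simp }

theorem pr₁_apply (z : V p q) (i : Fin p) : pr₁ z i = z (Sum.inl i) := rfl
theorem pr₂_apply (z : V p q) (i : Fin q) : pr₂ z i = z (Sum.inr i) := rfl
theorem inc₁_inl (x : EuclideanSpace ℝ (Fin p)) (i : Fin p) :
    (inc₁ x : V p q) (Sum.inl i) = x i := rfl
theorem inc₁_inr (x : EuclideanSpace ℝ (Fin p)) (i : Fin q) :
    (inc₁ x : V p q) (Sum.inr i) = 0 := rfl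
theorem inc₂_inl (x : EuclideanSpace ℝ (Fin q)) (i : Fin p) :
    (inc₂ x : V p q) (Sum.inl i) = 0 := rfl
theorem inc₂_inr (x : EuclideanSpace ℝ (Fin q)) (i : Fin q) :
    (inc₂ x : V p q) (Sum.inr i) = x i := rfl

theorem rad₁_eq (z : V p q) : rad₁ z = ‖pr₁ z‖ := by
  rw [EuclideanSpace.norm_eq]
  simp [rad₁, pr₁_apply]

theorem rad₂_eq (z : V p q) : rad₂ z = ‖pr₂ z‖ := by
  rw [EuclideanSpace.norm_eq]
  simp [rad₂, pr₂_apply]

theorem norm_sq_V (z : V p q) : ‖z‖ ^ 2 = ‖pr₁ z‖ ^ 2 + ‖pr₂ z‖ ^ 2 := by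
  rw [EuclideanSpace.norm_sq_eq, EuclideanSpace.norm_sq_eq, EuclideanSpace.norm_sq_eq,
    Fintype.sum_sum_type]
  rfl

theorem norm_pr₁_le (z : V p q) : ‖pr₁ z‖ ≤ ‖z‖ := by
  have := norm_sq_V z
  nlinarith [norm_nonneg (pr₁ z), norm_nonneg z, sq_nonneg ‖pr₂ z‖]

theorem norm_pr₂_le (z : V p q) : ‖pr₂ z‖ ≤ ‖z‖ := by
  have := norm_sq_V z
  nlinarith [norm_nonneg (pr₂ z), norm_nonneg z, sq_nonneg ‖pr₁ z‖]

theorem pr₁_inc₁ (x : EuclideanSpace ℝ (Fin p)) : pr₁ (inc₁ x : V p q) = x := by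
  ext i; rfl
theorem pr₂_inc₁ (x : EuclideanSpace ℝ (Fin p)) : pr₂ (inc₁ x : V p q) = 0 := by
  ext i; rfl
theorem pr₁_inc₂ (x : EuclideanSpace ℝ (Fin q)) : pr₁ (inc₂ x : V p q) = 0 := by
  ext i; rfl
theorem pr₂_inc₂ (x : EuclideanSpace ℝ (Fin q)) : pr₂ (inc₂ x : V p q) = x := by
  ext i; rfl

theorem inc_add (z : V p q) : inc₁ (pr₁ z) + inc₂ (pr₂ z) = z := by
  ext i
  rcases i with i | i
  · simp [inc₁_inl, inc₂_inl, pr₁_apply]
  · simp [inc₁_inr, inc₂_inr, pr₂_apply]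

theorem inner_V (z w : V p q) : ⟪z, w⟫ = ⟪pr₁ z, pr₁ w⟫ + ⟪pr₂ z, pr₂ w⟫ := by
  simp only [PiLp.inner_apply, Fintype.sum_sum_type]
  rfl

theorem norm_inc₁ (x : EuclideanSpace ℝ (Fin p)) : ‖(inc₁ x : V p q)‖ = ‖x‖ := by
  have := norm_sq_V (inc₁ x : V p q)
  rw [pr₁_inc₁, pr₂_inc₁, norm_zero] at this
  have h := norm_nonneg (inc₁ x : V p q)
  have h' := norm_nonneg x
  nlinarith

theorem norm_inc₂ (x : EuclideanSpace ℝ (Fin q)) : ‖(inc₂ x : V p q)‖ = ‖x‖ := by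
  have := norm_sq_V (inc₂ x : V p q)
  rw [pr₁_inc₂, pr₂_inc₂, norm_zero] at this
  have h := norm_nonneg (inc₂ x : V p q)
  have h' := norm_nonneg x
  nlinarith

/-! ### rescaled norms -/

section
variable {F : Type*} [NormedAddCommGroup F] [InnerProductSpace ℝ F]

/-- rescaled distance function -/
noncomputable def rsc (a : F) (l : ℝ) (x : F) : ℝ := l * (‖a + l⁻¹ • x‖ - ‖a‖)

open Classical in
/-- its limit -/
noncomputable def rlim (a x : F) : ℝ := if a = 0 then ‖x‖ else ⟪x, ‖a‖⁻¹ • a⟫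

theorem norm_add_expand {a v : F} (ha : a ≠ 0) (hv : ‖v‖ ≤ ‖a‖ / 2) :
    |‖a + v‖ - ‖a‖ - ⟪v, ‖a‖⁻¹ • a⟫| ≤ ‖v‖ ^ 2 / ‖a‖ := by
  have ha0 : 0 < ‖a‖ := norm_pos_iff.2 ha
  set c : ℝ := ⟪v, ‖a‖⁻¹ • a⟫ with hc
  have hcv : |c| ≤ ‖v‖ := by
    refine (abs_real_inner_le_norm _ _).trans ?_
    rw [norm_smul, norm_inv, norm_norm, inv_mul_cancel₀ ha0.ne', mul_one]
  have hsq : ‖a + v‖ ^ 2 = ‖a‖ ^ 2 + 2 * ‖a‖ * c + ‖v‖ ^ 2 := by
    rw [norm_add_sq_real, hc, inner_smul_right, real_inner_comm a v]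
    field_simp
  have h1 : ‖a‖ / 2 ≤ ‖a + v‖ := by
    have := norm_sub_norm_le a (-v)
    rw [sub_neg_eq_add, norm_neg] at this
    linarith
  have hc' := abs_le.1 hcv
  have hden : ‖a‖ ≤ ‖a + v‖ + ‖a‖ + c := by linarith
  have hprod : (‖a + v‖ - ‖a‖ - c) * (‖a + v‖ + ‖a‖ + c) = ‖v‖ ^ 2 - c ^ 2 := by
    linarith
  have hnn : 0 ≤ ‖v‖ ^ 2 - c ^ 2 := by
    nlinarith [sq_abs c, abs_nonneg c, norm_nonneg v]
  have hpos : 0 ≤ ‖a + v‖ - ‖a‖ - c := by
    by_contra hcon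
    push Not at hcon
    have : 0 < ‖a + v‖ + ‖a‖ + c := by linarith
    nlinarith
  rw [abs_of_nonneg hpos, le_div_iff₀ ha0]
  nlinarith [sq_nonneg c]

theorem rsc_conv (a : F) {R ε : ℝ} (_hR : 0 < R) (hε : 0 < ε) :
    ∀ᶠ l : ℝ in atTop, ∀ x : F, ‖x‖ ≤ R → |rsc a l x - rlim a x| ≤ ε := by
  by_cases ha : a = 0
  · filter_upwards [eventually_gt_atTop 0] with l hl x _
    simp only [rsc, rlim, ha, zero_add, norm_zero, sub_zero, if_true, norm_smul, norm_inv]
    rw [Real.norm_eq_abs, abs_of_pos hl, ← mul_assoc, mul_inv_cancel₀ hl.ne', one_mul, sub_self,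
      abs_zero]
    exact hε.le
  · have ha0 : 0 < ‖a‖ := norm_pos_iff.2 ha
    filter_upwards [eventually_ge_atTop (2 * R / ‖a‖), eventually_ge_atTop (R ^ 2 / (‖a‖ * ε)),
      eventually_gt_atTop 0] with l hl1 hl2 hl x hx
    have hx1 : ‖l⁻¹ • x‖ ≤ ‖a‖ / 2 := by
      rw [norm_smul, norm_inv, Real.norm_eq_abs, abs_of_pos hl, inv_mul_le_iff₀ hl]
      rw [div_le_iff₀ ha0] at hl1
      linarith
    have h1 := norm_add_expand ha hx1
    have h2 : rsc a l x - rlim a x = l * (‖a + l⁻¹ • x‖ - ‖a‖ - ⟪l⁻¹ • x, ‖a‖⁻¹ • a⟫) := by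
      simp only [rsc, rlim, if_neg ha]
      rw [real_inner_smul_left]
      field_simp
    have h3 : ‖l⁻¹ • x‖ = l⁻¹ * ‖x‖ := by
      rw [norm_smul, norm_inv, Real.norm_eq_abs, abs_of_pos hl]
    rw [h2, abs_mul, abs_of_pos hl]
    calc l * |‖a + l⁻¹ • x‖ - ‖a‖ - ⟪l⁻¹ • x, ‖a‖⁻¹ • a⟫| ≤ l * (‖l⁻¹ • x‖ ^ 2 / ‖a‖) :=
          mul_le_mul_of_nonneg_left h1 hl.le
      _ = ‖x‖ ^ 2 / (l * ‖a‖) := by rw [h3]; field_simp
      _ ≤ R ^ 2 / (l * ‖a‖) := by gcongr
      _ ≤ ε := by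
        rw [div_le_iff₀ (by positivity)] at hl2 ⊢
        linarith

theorem rlim_zero (x : F) : rlim (0 : F) x = ‖x‖ := if_pos rfl

theorem rlim_ne {a : F} (ha : a ≠ 0) (x : F) : rlim a x = ⟪x, ‖a‖⁻¹ • a⟫ := if_neg ha

theorem rsc_continuous (a : F) (l : ℝ) : Continuous (rsc a l) := by
  unfold rsc
  fun_prop

/-- derivative of the limit of the rescaled distance functions -/
theorem rlim_deriv (a W : F) (h : a = 0 → W ≠ 0) :
    ∃ e : F, ‖e‖ = 1 ∧ HasFDerivAt (rlim a) (innerSL ℝ e) W := by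
  by_cases ha : a = 0
  · have hW := h ha
    refine ⟨‖W‖⁻¹ • W, ?_, ?_⟩
    · rw [norm_smul, norm_inv, norm_norm, inv_mul_cancel₀ (norm_ne_zero_iff.2 hW)]
    · have h1 : HasFDerivAt (fun x : F => ‖x‖) (‖W‖⁻¹ • innerSL ℝ W) W := by
        have h2 : HasFDerivAt (fun x : F => ‖x‖ ^ 2) (2 • innerSL ℝ W) W :=
          (hasStrictFDerivAt_norm_sq W).hasFDerivAt
        have h3 : HasFDerivAt (fun x : F => √(‖x‖ ^ 2)) ((1 / (2 * √(‖W‖ ^ 2))) • (2 • innerSL ℝ W)) W :=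
          h2.sqrt (by positivity)
        have h4 : (fun x : F => √(‖x‖ ^ 2)) = fun x => ‖x‖ := by
          ext x; exact Real.sqrt_sq (norm_nonneg x)
        rw [h4, Real.sqrt_sq (norm_nonneg W)] at h3
        convert h3 using 1
        ext v
        simp only [smul_apply, smul_eq_mul, nsmul_eq_mul]
        field_simp
        simp
      have h5 : rlim a = fun x : F => ‖x‖ := by
        ext x; rw [ha, rlim_zero]
      rw [h5]
      convert h1 using 1
      ext v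
      simp
  · refine ⟨‖a‖⁻¹ • a, ?_, ?_⟩
    · rw [norm_smul, norm_inv, norm_norm, inv_mul_cancel₀ (norm_ne_zero_iff.2 ha)]
    · have h5 : rlim a = fun x : F => innerSL ℝ (‖a‖⁻¹ • a) x := by
        ext x; rw [rlim_ne ha, innerSL_apply_apply, real_inner_comm]
      rw [h5]
      exact ContinuousLinearMap.hasFDerivAt _

theorem rlim_smooth (a W : F) (h : a = 0 → W ≠ 0) : ContDiffAt ℝ ∞ (rlim a) W := by
  by_cases ha : a = 0
  · have h5 : rlim a = fun x : F => ‖x‖ := by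
      ext x; rw [ha, rlim_zero]
    rw [h5]
    exact contDiffAt_norm ℝ (h ha)
  · have h5 : rlim a = fun x : F => innerSL ℝ (‖a‖⁻¹ • a) x := by
      ext x; rw [rlim_ne ha, innerSL_apply_apply, real_inner_comm]
    rw [h5]
    exact ContinuousLinearMap.contDiff _ |>.contDiffAt

end

/-! ### rescaled profile maps -/

/-- The rescaled profile map. -/
noncomputable def Qm (x₀ : V p q) (l : ℝ) (Z : V p q) : ℂ :=
  ⟨rsc (pr₁ x₀) l (pr₁ Z), rsc (pr₂ x₀) l (pr₂ Z)⟩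

/-- The limit of the rescaled profile maps. -/
noncomputable def Pm (x₀ : V p q) (Z : V p q) : ℂ :=
  ⟨rlim (pr₁ x₀) (pr₁ Z), rlim (pr₂ x₀) (pr₂ Z)⟩

theorem mk_eq (a b : ℝ) : (⟨a, b⟩ : ℂ) = a + b * Complex.I := by
  apply Complex.ext <;> simp

theorem Qm_eq (x₀ : V p q) (l : ℝ) (Z : V p q) :
    Qm x₀ l Z = l • (prof (x₀ + l⁻¹ • Z) - prof x₀) := by
  apply Complex.ext
  · simp [Qm, prof, rsc, rad₁_eq]
  · simp [Qm, prof, rsc, rad₂_eq]

theorem Qm_continuous (x₀ : V p q) (l : ℝ) : Continuous (Qm x₀ l) := by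
  have h : Qm x₀ l = fun Z => ((rsc (pr₁ x₀) l (pr₁ Z) : ℝ) : ℂ) +
      (rsc (pr₂ x₀) l (pr₂ Z) : ℝ) * Complex.I := by
    ext Z; exact mk_eq _ _
  rw [h]
  have h1 := (rsc_continuous (pr₁ x₀) l).comp (pr₁ (p := p) (q := q)).continuous
  have h2 := (rsc_continuous (pr₂ x₀) l).comp (pr₂ (p := p) (q := q)).continuous
  exact (Complex.continuous_ofReal.comp h1).add
    ((Complex.continuous_ofReal.comp h2).mul continuous_const)

theorem Qm_conv (x₀ : V p q) {R ε : ℝ} (hR : 0 < R) (hε : 0 < ε) :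
    ∀ᶠ l : ℝ in atTop, ∀ Z : V p q, ‖Z‖ ≤ R → ‖Qm x₀ l Z - Pm x₀ Z‖ ≤ ε := by
  filter_upwards [rsc_conv (pr₁ x₀) hR (half_pos hε), rsc_conv (pr₂ x₀) hR (half_pos hε)]
    with l h1 h2 Z hZ
  have h3 := h1 (pr₁ Z) ((norm_pr₁_le Z).trans hZ)
  have h4 := h2 (pr₂ Z) ((norm_pr₂_le Z).trans hZ)
  refine (Complex.norm_le_abs_re_add_abs_im _).trans ?_
  simp only [Qm, Pm, Complex.sub_re, Complex.sub_im]
  linarith

/-- The set where the limit of the rescaled profile maps is smooth. -/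
def Od (x₀ : V p q) : Set (V p q) :=
  {Z | (pr₁ x₀ = 0 → pr₁ Z ≠ 0) ∧ (pr₂ x₀ = 0 → pr₂ Z ≠ 0)}

theorem Od_isOpen (x₀ : V p q) : IsOpen (Od x₀) := by
  have h1 : IsOpen {Z : V p q | pr₁ x₀ = 0 → pr₁ Z ≠ 0} := by
    by_cases h : pr₁ x₀ = 0
    · simp only [h, forall_true_left]
      exact isOpen_ne_fun pr₁.continuous continuous_const
    · simp [h]
  have h2 : IsOpen {Z : V p q | pr₂ x₀ = 0 → pr₂ Z ≠ 0} := by
    by_cases h : pr₂ x₀ = 0
    · simp only [h, forall_true_left]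
      exact isOpen_ne_fun pr₂.continuous continuous_const
    · simp [h]
  exact h1.inter h2

theorem Pm_eq (x₀ : V p q) : Pm x₀ = fun Z => Complex.ofRealCLM (rlim (pr₁ x₀) (pr₁ Z)) +
      Complex.ofRealCLM (rlim (pr₂ x₀) (pr₂ Z)) * Complex.I := by
  ext Z; exact mk_eq _ _

theorem Pm_smooth (x₀ : V p q) : ContDiffOn ℝ ∞ (Pm x₀) (Od x₀) := by
  intro Z hZ
  apply ContDiffAt.contDiffWithinAt
  rw [Pm_eq]
  have h1 : ContDiffAt ℝ ∞ (fun Z : V p q => rlim (pr₁ x₀) (pr₁ Z)) Z :=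
    (rlim_smooth _ _ hZ.1).comp Z pr₁.contDiff.contDiffAt
  have h2 : ContDiffAt ℝ ∞ (fun Z : V p q => rlim (pr₂ x₀) (pr₂ Z)) Z :=
    (rlim_smooth _ _ hZ.2).comp Z pr₂.contDiff.contDiffAt
  exact (Complex.ofRealCLM.contDiff.contDiffAt.comp Z h1).add
    ((Complex.ofRealCLM.contDiff.contDiffAt.comp Z h2).mul contDiffAt_const)

theorem Pm_sub (x₀ : V p q) {W : V p q} (hW : W ∈ Od x₀) : Sub (Pm x₀) W := by
  obtain ⟨u₁, hu₁, hd₁⟩ := rlim_deriv (pr₁ x₀) (pr₁ W) hW.1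
  obtain ⟨u₂, hu₂, hd₂⟩ := rlim_deriv (pr₂ x₀) (pr₂ W) hW.2
  refine ⟨inc₁ u₁, inc₂ u₂, by rw [norm_inc₁, hu₁], by rw [norm_inc₂, hu₂], ?_, ?_⟩
  · rw [inner_V, pr₁_inc₂, pr₂_inc₁]; simp
  · have h1 : HasFDerivAt (fun Z : V p q => rlim (pr₁ x₀) (pr₁ Z)) ((innerSL ℝ u₁).comp pr₁) W :=
      hd₁.comp W pr₁.hasFDerivAt
    have h2 : HasFDerivAt (fun Z : V p q => rlim (pr₂ x₀) (pr₂ Z)) ((innerSL ℝ u₂).comp pr₂) W :=
      hd₂.comp W pr₂.hasFDerivAt
    have h3 := (Complex.ofRealCLM.hasFDerivAt.comp W h1).add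
      ((Complex.ofRealCLM.hasFDerivAt.comp W h2).mul_const Complex.I)
    have heq : linL (inc₁ u₁ : V p q) (inc₂ u₂) =
        Complex.ofRealCLM ∘SL (innerSL ℝ) u₁ ∘SL pr₁ +
          Complex.I • Complex.ofRealCLM ∘SL (innerSL ℝ) u₂ ∘SL pr₂ := by
      ext v
      apply Complex.ext
      · simp [linL, inner_V, pr₁_inc₁, pr₂_inc₁]
      · simp [linL, inner_V, pr₁_inc₂, pr₂_inc₂]
    rw [Pm_eq, heq]
    exact h3

theorem Od_compl_dim (x₀ : V p q) : dimH (Od x₀)ᶜ ≤ max p q := by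
  have hsub : (Od x₀)ᶜ ⊆ range (inc₂ : EuclideanSpace ℝ (Fin q) → V p q) ∪
      range (inc₁ : EuclideanSpace ℝ (Fin p) → V p q) := by
    intro Z hZ
    simp only [Od, mem_compl_iff, mem_ofPred_eq, not_and_or, ne_eq, Classical.not_imp,
      not_not] at hZ
    rcases hZ with ⟨_, h⟩ | ⟨_, h⟩
    · left
      refine ⟨pr₂ Z, ?_⟩
      have := inc_add Z
      rwa [h, map_zero, zero_add] at this
    · right
      refine ⟨pr₁ Z, ?_⟩
      have := inc_add Z
      rwa [h, map_zero, add_zero] at this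
  refine (dimH_mono hsub).trans ?_
  rw [dimH_union]
  have h1 : dimH (range (inc₂ : EuclideanSpace ℝ (Fin q) → V p q)) ≤ q := by
    refine (inc₂.lipschitz.dimH_range_le).trans ?_
    rw [Real.dimH_univ_eq_finrank]
    simp
  have h2 : dimH (range (inc₁ : EuclideanSpace ℝ (Fin p) → V p q)) ≤ p := by
    refine (inc₁.lipschitz.dimH_range_le).trans ?_
    rw [Real.dimH_univ_eq_finrank]
    simp
  exact max_le (h1.trans (by exact_mod_cast le_max_right p q))
    (h2.trans (by exact_mod_cast le_max_left p q))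

theorem mem_blow_surf {N : ℕ} {c : Fin N → ℝ → ℝ → ℂ} {T : ℝ} {x₀ : V p q} {l t : ℝ}
    (hl : l ≠ 0) (Z : V p q) :
    Z ∈ blow (surf p q c) T x₀ l t ↔
      Qm x₀ l Z ∈ {ζ : ℂ | ∃ j u, ζ = l • (c j (T + t / l ^ 2) u - prof x₀)} := by
  simp only [blow, surf, mem_ofPred_eq, Qm_eq]
  constructor
  · rintro ⟨j, u, h⟩
    exact ⟨j, u, by rw [h]⟩
  · rintro ⟨j, u, h⟩
    refine ⟨j, u, ?_⟩
    have := smul_right_injective ℂ hl h
    exact (sub_left_injective this).symm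

end Pool.Agent.Helper532_SymMCF

end
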